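import Mathlib
set_option autoImplicit false
open MeasureTheory
namespace US

/-- E f(x + c X), X uniform on [-1,1] -/
noncomputable def A (c : ℝ) (f : ℝ → ℝ) (x : ℝ) : ℝ := (1 / 2) * ∫ t in (-1:ℝ)..1, f (x + c * t)

/-- law of `∑ a_i X_i` -/
noncomputable def law {n : ℕ} (a : Fin n → ℝ) : Measure ℝ :=
  (Measure.pi (fun _ : Fin n => ProbabilityTheory.cond (volume : Measure ℝ) (Set.Icc (-1 : ℝ) 1))).map
    (fun x : Fin n → ℝ => ∑ i, a i * x i)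

/-- truncated power sum -/
noncomputable def T (m p : ℕ) (x : ℝ) : ℝ :=
  ∑ j ∈ Finset.range (m + 1), (-1 : ℝ) ^ j * (m.choose j) * (max 0 (x + m - 2 * j)) ^ p

/-- k-th derivative of the density of X_1+...+X_m, X_i independent uniform on [-1,1] (cardinal B-spline) -/
noncomputable def Bd (m k : ℕ) (x : ℝ) : ℝ :=
  T m (m - 1 - k) x / (2 ^ m * (m - 1 - k).factorial)

/-- `H m = (-log f_m)''` -/
noncomputable def H (m : ℕ) (x : ℝ) : ℝ := ((Bd m 1 x) ^ 2 - Bd m 0 x * Bd m 2 x) / (Bd m 0 x) ^ 2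

/-- `u m = (-log f_m)'` -/
noncomputable def u (m : ℕ) (x : ℝ) : ℝ := - Bd m 1 x / Bd m 0 x

/-- signed Hankel determinant `(-1)^(r(r-1)/2) det [ f^{(i+j)}(x) ]_{i,j<r}` (f k = k-th derivative) -/
noncomputable def wr (r : ℕ) (f : ℕ → ℝ → ℝ) (x : ℝ) : ℝ :=
  (-1) ^ (r * (r - 1) / 2) * Matrix.det (Matrix.of fun i j : Fin r => f (i + j) x)

/-- local Polya frequency property of order 4 of a compactly supported function
(`f k` is the k-th derivative of `f 0`, k = 0..6) -/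
structure LPF (f : ℕ → ℝ → ℝ) (m : ℝ) : Prop where
  deriv : ∀ k < 6, ∀ x, HasDerivAt (f k) (f (k + 1) x) x
  cont : Continuous (f 6)
  supp : ∀ k ≤ 6, ∀ x, m ≤ |x| → f k x = 0
  pos : ∀ r, 1 ≤ r → r ≤ 4 → ∀ x, |x| < m → 0 < wr r f x

/-- statement of the one-sided determinant positivity -/
def DetPos : Prop := ∀ (f : ℕ → ℝ → ℝ) (m : ℝ), LPF f m → ∀ r : ℕ, 1 ≤ r → r ≤ 4 → ∀ (x : ℝ)
    (z : Fin r → ℝ), StrictMono z → (∀ l, |x - z l| < m) →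
    0 < Matrix.det (Matrix.of fun i l : Fin r => f i (x - z l))

/-- derivative family of the convolution `f 0 * g 0` -/
noncomputable def cf (f g : ℕ → ℝ → ℝ) (k : ℕ) (x : ℝ) : ℝ :=
  ∫ z, f (min k 3) (x - z) * g (k - 3) z

/-- `16 f_3` on `[-3,3]`, f_3 = density of X_1+X_2+X_3 (X_i uniform on [-1,1]) -/
noncomputable def g3 (x : ℝ) : ℝ := if |x| ≤ 1 then 2 * (3 - x ^ 2) else (3 - |x|) ^ 2

/-- `-log g3` -/
noncomputable def ph3 (x : ℝ) : ℝ := - Real.log (g3 x)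

/-- `I3 c w = ∫_0^w x (ph3 (x+c) - ph3 (x-c)) dx` -/
noncomputable def I3 (c w : ℝ) : ℝ := ∫ x in (0:ℝ)..w, x * (ph3 (x + c) - ph3 (x - c))

/-- density of X_1+X_2+X_3, X_i uniform on [-1,1], on [0,3] -/
noncomputable def d3 (x : ℝ) : ℝ := if x ≤ 1 then (3 - x ^ 2) / 8 else (3 - x) ^ 2 / 16

/-- density of X_1+...+X_4 on [0,4] -/
noncomputable def d4 (x : ℝ) : ℝ :=
  if x ≤ 2 then (32 - 12 * x ^ 2 + 3 * x ^ 3) / 96 else (4 - x) ^ 3 / 96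

/-- density of X_1+...+X_5 on [0,5], X_i uniform on [-1,1] -/
noncomputable def d5 (x : ℝ) : ℝ :=
  ((max 0 (5 - x)) ^ 4 - 5 * (max 0 (3 - x)) ^ 4 + 10 * (max 0 (1 - x)) ^ 4) / 768

/-- density of X_1+...+X_6 on [0,6] -/
noncomputable def d6 (x : ℝ) : ℝ :=
  ((max 0 (6 - x)) ^ 5 - 6 * (max 0 (4 - x)) ^ 5 + 15 * (max 0 (2 - x)) ^ 5) / 7680

end US
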