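import Pool.Agent.Helper70.US.Defs
set_option autoImplicit false
open MeasureTheory intervalIntegral Set
namespace US


theorem A_cont {f : ℝ → ℝ} (hf : Continuous f) (c : ℝ) : Continuous (A c f) := by
  unfold A
  refine continuous_const.mul ?_
  exact intervalIntegral.continuous_parametric_intervalIntegral_of_continuous'
    (by fun_prop) _ _

theorem A_comm {f : ℝ → ℝ} (hf : Continuous f) (a b : ℝ) : A a (A b f) = A b (A a f) := by
  ext x
  unfold A
  simp only [intervalIntegral.integral_const_mul]
  congr 2
  rw [MeasureTheory.intervalIntegral_intervalIntegral_swap]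
  · congr 1
    ext t
    congr 1
    ext s
    congr 1
    ring
  · have hc : Continuous (Function.uncurry fun x_1 x_2 : ℝ => f (x + a * x_1 + b * x_2)) := by
      fun_prop
    apply (hc.continuousOn.integrableOn_compact (isCompact_uIcc.prod isCompact_uIcc)).mono_set
    exact Set.prod_mono uIoc_subset_uIcc uIoc_subset_uIcc

theorem foldr_cont {f : ℝ → ℝ} (hf : Continuous f) (l : List ℝ) : Continuous (l.foldr A f) := by
  induction l with
  | nil => simpa using hf
  | cons a l ih => simpa using A_cont ih a

theorem foldr_perm {f : ℝ → ℝ} (hf : Continuous f) {l l' : List ℝ} (h : l.Perm l') :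
    l.foldr A f = l'.foldr A f := by
  induction h with
  | nil => rfl
  | cons x _ ih => simp [ih]
  | swap x y l => simp [A_comm (foldr_cont hf l)]
  | trans _ _ ih1 ih2 => exact ih1.trans ih2

theorem A_mono {f g : ℝ → ℝ} (hf : Continuous f) (hg : Continuous g) (h : ∀ x, f x ≤ g x) (c x : ℝ) :
    A c f x ≤ A c g x := by
  unfold A
  apply mul_le_mul_of_nonneg_left _ (by norm_num)
  apply intervalIntegral.integral_mono_on (by norm_num)
  · exact (by fun_prop : Continuous fun t => f (x + c * t)).intervalIntegrable _ _
  · exact (by fun_prop : Continuous fun t => g (x + c * t)).intervalIntegrable _ _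
  · intro t _
    exact h _

theorem foldr_mono {f g : ℝ → ℝ} (hf : Continuous f) (hg : Continuous g) (h : ∀ x, f x ≤ g x)
    (l : List ℝ) (x : ℝ) : l.foldr A f x ≤ l.foldr A g x := by
  induction l generalizing x with
  | nil => simpa using h x
  | cons a l ih => exact A_mono (foldr_cont hf l) (foldr_cont hg l) ih a x

theorem A_quad (C κ c x : ℝ) : A c (fun z => C + κ * z ^ 2) x = C + κ * x ^ 2 + κ * c ^ 2 / 3 := by
  unfold A
  have h1 : (fun t : ℝ => C + κ * (x + c * t) ^ 2) =
      fun t : ℝ => (C + κ * x ^ 2) + (2 * κ * x * c) * t + (κ * c ^ 2) * t ^ 2 := by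
    ext t; ring
  rw [h1, intervalIntegral.integral_add, intervalIntegral.integral_add,
    intervalIntegral.integral_const, intervalIntegral.integral_const_mul,
    intervalIntegral.integral_const_mul, integral_id, integral_pow]
  · norm_num
    ring
  all_goals apply Continuous.intervalIntegrable; fun_prop

theorem foldr_quad (C κ : ℝ) (l : List ℝ) (x : ℝ) :
    l.foldr A (fun z => C + κ * z ^ 2) x = C + κ * x ^ 2 + κ * (l.map (fun c => c ^ 2)).sum / 3 := by
  induction l generalizing C x with
  | nil => simp
  | cons a l ih =>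
    have : l.foldr A (fun z => C + κ * z ^ 2) =
        fun x => (C + κ * (l.map (fun c => c ^ 2)).sum / 3) + κ * x ^ 2 := by
      ext x; rw [ih]; ring
    simp only [List.foldr_cons, this, A_quad, List.map_cons, List.sum_cons]
    ring

/-- the A operator through a primitive -/
theorem A_eq {f F : ℝ → ℝ} (hf : Continuous f) (hF : ∀ x, HasDerivAt F (f x) x) {c : ℝ} (hc : c ≠ 0)
    (x : ℝ) : A c f x = (F (x + c) - F (x - c)) / (2 * c) := by
  unfold A
  have h : ∀ t ∈ uIcc (-1:ℝ) 1, HasDerivAt (fun t => F (x + c * t) / c) (f (x + c * t)) t := by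
    intro t _
    have h1 : HasDerivAt (fun t => x + c * t) c t := by
      simpa using ((hasDerivAt_id t).const_mul c).const_add x
    have := ((hF (x + c * t)).comp t h1).div_const c
    simpa [mul_div_assoc, div_self hc] using this
  rw [intervalIntegral.integral_eq_sub_of_hasDerivAt h
    ((by fun_prop : Continuous fun t => f (x + c * t)).intervalIntegrable _ _)]
  field_simp
  ring_nf

theorem A_zero {f : ℝ → ℝ} : A 0 f = f := by
  ext x; simp [A]; ring

theorem exists_prim {f : ℝ → ℝ} (hf : Continuous f) : ∃ F : ℝ → ℝ, ∀ x, HasDerivAt F (f x) x :=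
  ⟨fun x => ∫ t in (0:ℝ)..x, f t, fun _ => intervalIntegral.integral_hasDerivAt_right
    (hf.intervalIntegrable _ _) (hf.stronglyMeasurableAtFilter _ _) hf.continuousAt⟩

theorem A_deriv {f f' : ℝ → ℝ} (hf' : Continuous f') (hd : ∀ x, HasDerivAt f (f' x) x) (c x : ℝ) :
    HasDerivAt (A c f) (A c f' x) x := by
  have hf : Continuous f := continuous_iff_continuousAt.2 fun x => (hd x).continuousAt
  rcases eq_or_ne c 0 with rfl | hc
  · simpa [A_zero] using hd x
  obtain ⟨F, hF⟩ := exists_prim hf
  have h1 : A c f = fun x => (F (x + c) - F (x - c)) / (2 * c) := by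
    ext x; exact A_eq hf hF hc x
  rw [h1, A_eq hf' hd hc]
  have e1 : HasDerivAt (fun x => F (x + c)) (f (x + c)) x := by
    simpa using (hF (x + c)).comp_add_const x c
  have e2 : HasDerivAt (fun x => F (x - c)) (f (x - c)) x := by
    simpa using (hF (x - c)).comp_sub_const x c
  exact (e1.sub e2).div_const _

end US
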