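import Pool.Agent.Helper70.US.Defs
set_option autoImplicit false
namespace US.S4584




lemma T4 (p : ℕ) (y : ℝ) : T 4 p y = (max 0 (y+4))^p - 4*(max 0 (y+2))^p + 6*(max 0 y)^p
    - 4*(max 0 (y-2))^p + (max 0 (y-4))^p := by
  unfold T
  have e1 : y + ((4:ℕ):ℝ) - 2 * ((0:ℕ):ℝ) = y + 4 := by push_cast; ring
  have e2 : y + ((4:ℕ):ℝ) - 2 * ((1:ℕ):ℝ) = y + 2 := by push_cast; ring
  have e3 : y + ((4:ℕ):ℝ) - 2 * ((2:ℕ):ℝ) = y := by push_cast; ring
  have e4 : y + ((4:ℕ):ℝ) - 2 * ((3:ℕ):ℝ) = y - 2 := by push_cast; ring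
  have e5 : y + ((4:ℕ):ℝ) - 2 * ((4:ℕ):ℝ) = y - 4 := by push_cast; ring
  rw [Finset.sum_range_succ, Finset.sum_range_succ, Finset.sum_range_succ, Finset.sum_range_succ,
    Finset.sum_range_succ, Finset.sum_range_zero, e1, e2, e3, e4, e5]
  have c1 : Nat.choose 4 0 = 1 := rfl
  have c2 : Nat.choose 4 1 = 4 := rfl
  have c3 : Nat.choose 4 2 = 6 := rfl
  have c4 : Nat.choose 4 3 = 4 := rfl
  have c5 : Nat.choose 4 4 = 1 := rfl
  rw [c1, c2, c3, c4, c5]
  push_cast
  ring

lemma B0 (y : ℝ) : Bd 4 0 y = T 4 3 y / 96 := by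
  unfold Bd
  norm_num [Nat.factorial]
lemma B1 (y : ℝ) : Bd 4 1 y = T 4 2 y / 32 := by
  unfold Bd
  norm_num [Nat.factorial]
lemma B2 (y : ℝ) : Bd 4 2 y = T 4 1 y / 16 := by
  unfold Bd
  norm_num [Nat.factorial]

/-- numerator -/
noncomputable def Nn (y : ℝ) : ℝ := 27*y^4 - 144*y^3 + 288*y^2 - 576*y + 768
/-- denominator root -/
noncomputable def qq (y : ℝ) : ℝ := 32 - 12*y^2 + 3*y^3
/-- the quotient -/
noncomputable def GG (y : ℝ) : ℝ := Nn y / (qq y)^2

lemma qq_pos {y : ℝ} (h0 : 0 ≤ y) (h2 : y ≤ 2) : 0 < qq y := by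
  unfold qq
  nlinarith [mul_nonneg h0 (sub_nonneg.2 h2), mul_nonneg (mul_nonneg h0 h0) (sub_nonneg.2 h2)]

lemma H_pos_small {y : ℝ} (h0 : 0 ≤ y) (h2 : y ≤ 2) : H 4 y = GG y := by
  have hq := qq_pos h0 h2
  have m1 : max 0 (y+4) = y+4 := max_eq_right (by linarith)
  have m2 : max 0 (y+2) = y+2 := max_eq_right (by linarith)
  have m3 : max 0 y = y := max_eq_right h0
  have m4 : max 0 (y-2) = 0 := max_eq_left (by linarith)
  have m5 : max 0 (y-4) = 0 := max_eq_left (by linarith)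
  unfold H GG
  rw [B0, B1, B2, T4, T4, T4, m1, m2, m3, m4, m5]
  have e0 : (y+4)^3 - 4*(y+2)^3 + 6*y^3 - 4*(0:ℝ)^3 + (0:ℝ)^3 = qq y := by unfold qq; ring
  rw [e0]
  rw [div_pow (qq y) 96 2, div_div_eq_mul_div, div_eq_div_iff (by positivity) (by positivity)]
  unfold Nn qq
  ring

lemma H_neg_small {y : ℝ} (h0 : 0 ≤ y) (h2 : y ≤ 2) : H 4 (-y) = GG y := by
  have hq := qq_pos h0 h2
  have m1 : max 0 (-y+4) = -y+4 := max_eq_right (by linarith)
  have m2 : max 0 (-y+2) = -y+2 := max_eq_right (by linarith)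
  have m3 : max 0 (-y) = 0 := max_eq_left (by linarith)
  have m4 : max 0 (-y-2) = 0 := max_eq_left (by linarith)
  have m5 : max 0 (-y-4) = 0 := max_eq_left (by linarith)
  unfold H GG
  rw [B0, B1, B2, T4, T4, T4, m1, m2, m3, m4, m5]
  have e0 : (-y+4)^3 - 4*(-y+2)^3 + 6*(0:ℝ)^3 - 4*(0:ℝ)^3 + (0:ℝ)^3 = qq y := by unfold qq; ring
  rw [e0]
  rw [div_pow (qq y) 96 2, div_div_eq_mul_div, div_eq_div_iff (by positivity) (by positivity)]
  unfold Nn qq
  ring

lemma H_large {y : ℝ} (h2 : 2 ≤ y) (h4 : y < 4) : H 4 y = 3/(4-y)^2 := by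
  have m1 : max 0 (y+4) = y+4 := max_eq_right (by linarith)
  have m2 : max 0 (y+2) = y+2 := max_eq_right (by linarith)
  have m3 : max 0 y = y := max_eq_right (by linarith)
  have m4 : max 0 (y-2) = y-2 := max_eq_right (by linarith)
  have m5 : max 0 (y-4) = 0 := max_eq_left (by linarith)
  have hp : 0 < 4 - y := by linarith
  unfold H
  rw [B0, B1, B2, T4, T4, T4, m1, m2, m3, m4, m5]
  have e0 : (y+4)^3 - 4*(y+2)^3 + 6*y^3 - 4*(y-2)^3 + (0:ℝ)^3 = (4-y)^3 := by ring
  have e1 : (y+4)^2 - 4*(y+2)^2 + 6*y^2 - 4*(y-2)^2 + (0:ℝ)^2 = -(4-y)^2 := by ring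
  have e2 : (y+4)^1 - 4*(y+2)^1 + 6*y^1 - 4*(y-2)^1 + (0:ℝ)^1 = (4-y) := by ring
  rw [e0, e1, e2]
  have hne : (4 - y) ≠ 0 := hp.ne'
  field_simp
  ring

lemma P1 {y : ℝ} (h0 : 6/10 ≤ y) (h2 : y ≤ 17/10) :
    0 ≤ (108*y^3 - 432*y^2 + 576*y - 576) * qq y - 2 * Nn y * (9*y^2 - 24*y) := by
  have a1 : 0 ≤ y - (3/5) := by linarith
  have a2 : 0 ≤ (17/10) - y := by linarith
  have e : (108*y^3 - 432*y^2 + 576*y - 576) * qq y - 2 * Nn y * (9*y^2 - 24*y) = (77678208/161051) * ((y - (3/5))^0 * ((17/10) - y)^6) + (1870978176/161051) * ((y - (3/5))^1 * ((17/10) - y)^5) + (5672630880/161051) * ((y - (3/5))^2 * ((17/10) - y)^4) + (618972480/14641) * ((y - (3/5))^3 * ((17/10) - y)^3) + (3645981720/161051) * ((y - (3/5))^4 * ((17/10) - y)^2) + (771934536/161051) * ((y - (3/5))^5 * ((17/10) - y)^1) + (29228922/161051) * ((y - (3/5))^6 * ((17/10) - y)^0) := by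
    unfold qq Nn; ring
  rw [e]; positivity

lemma P2 {y : ℝ} (h0 : 0 ≤ y) (h2 : y ≤ 118/100) : 4 * Nn y ≤ 3 * (qq y)^2 := by
  have a1 : 0 ≤ y - (0) := by linarith
  have a2 : 0 ≤ (59/50) - y := by linarith
  have e : 3 * (qq y)^2 - 4 * Nn y = (0) * ((y - (0))^0 * ((59/50) - y)^6) + (720000000000/714924299) * ((y - (0))^1 * ((59/50) - y)^5) + (2325600000000/714924299) * ((y - (0))^2 * ((59/50) - y)^4) + (2603664000000/714924299) * ((y - (0))^3 * ((59/50) - y)^3) + (1223748990000/714924299) * ((y - (0))^4 * ((59/50) - y)^2) + (208038481200/714924299) * ((y - (0))^5 * ((59/50) - y)^1) + (1656447273/714924299) * ((y - (0))^6 * ((59/50) - y)^0) := by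
    unfold qq Nn; ring
  have : 0 ≤ 3 * (qq y)^2 - 4 * Nn y := by rw [e]; positivity
  linarith

lemma P3 {y : ℝ} (h0 : 17/10 ≤ y) (h2 : y ≤ 2) : 3 * (qq y)^2 ≤ 4 * Nn y := by
  have a1 : 0 ≤ y - (17/10) := by linarith
  have a2 : 0 ≤ (2) - y := by linarith
  have e : 4 * Nn y - 3 * (qq y)^2 = (4457791/27) * ((y - (17/10))^0 * ((2) - y)^6) + (24651320/27) * ((y - (17/10))^1 * ((2) - y)^5) + (53696800/27) * ((y - (17/10))^2 * ((2) - y)^4) + (57664000/27) * ((y - (17/10))^3 * ((2) - y)^3) + (30560000/27) * ((y - (17/10))^4 * ((2) - y)^2) + (6400000/27) * ((y - (17/10))^5 * ((2) - y)^1) + (0) * ((y - (17/10))^6 * ((2) - y)^0) := by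
    unfold qq Nn; ring
  have : 0 ≤ 4 * Nn y - 3 * (qq y)^2 := by rw [e]; positivity
  linarith

lemma P5 {y : ℝ} (h0 : 118/100 ≤ y) (h2 : y ≤ 2) : Nn y ≤ 114/100 * (qq y)^2 := by
  have a1 : 0 ≤ y - (59/50) := by linarith
  have a2 : 0 ≤ (2) - y := by linarith
  have e : 114/100 * (qq y)^2 - Nn y = (125796273948033/237505212050) * ((y - (59/50))^0 * ((2) - y)^6) + (9874564023348/4750104241) * ((y - (59/50))^1 * ((2) - y)^5) + (13911082893900/4750104241) * ((y - (59/50))^2 * ((2) - y)^4) + (8979368280000/4750104241) * ((y - (59/50))^3 * ((2) - y)^3) + (3540060000000/4750104241) * ((y - (59/50))^4 * ((2) - y)^2) + (1454400000000/4750104241) * ((y - (59/50))^5 * ((2) - y)^1) + (390000000000/4750104241) * ((y - (59/50))^6 * ((2) - y)^0) := by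
    unfold qq Nn; ring
  have : 0 ≤ 114/100 * (qq y)^2 - Nn y := by rw [e]; positivity
  linarith

lemma P4 {z : ℝ} (h0 : 0 ≤ z) (h2 : z ≤ 6/10) :
    Nn (6/10 - z) * (qq (6/10 + z))^2 ≤ Nn (6/10 + z) * (qq (6/10 - z))^2 := by
  have key : ∀ w : ℝ, 0 ≤ w → w ≤ 36/100 → 0 ≤ (94551371244/1953125) * w^0 + (-11906768304/78125) * w^1 + (233785224/3125) * w^2 + (-1631664/125) * w^3 + (3564/5) * w^4 := by
    intro w hw0 hw1
    have a1 : 0 ≤ w - (0) := by linarith
    have a2 : 0 ≤ (9/25) - w := by linarith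
    have e : (94551371244/1953125) * w^0 + (-11906768304/78125) * w^1 + (233785224/3125) * w^2 + (-1631664/125) * w^3 + (3564/5) * w^4 = (10505707916/3645) * ((w - (0))^0 * ((9/25) - w)^4) + (6023212672/729) * ((w - (0))^1 * ((9/25) - w)^3) + (1961200640/243) * ((w - (0))^2 * ((9/25) - w)^2) + (2075699200/729) * ((w - (0))^3 * ((9/25) - w)^1) + (114688000/729) * ((w - (0))^4 * ((9/25) - w)^0) := by ring
    rw [e]; positivity
  have h := key (z^2) (by positivity) (by nlinarith)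
  have e : Nn (6/10 + z) * (qq (6/10 - z))^2 - Nn (6/10 - z) * (qq (6/10 + z))^2 =
      z * ((94551371244/1953125) * (z^2)^0 + (-11906768304/78125) * (z^2)^1 + (233785224/3125) * (z^2)^2 + (-1631664/125) * (z^2)^3 + (3564/5) * (z^2)^4) := by
    unfold qq Nn; ring
  have : 0 ≤ Nn (6/10 + z) * (qq (6/10 - z))^2 - Nn (6/10 - z) * (qq (6/10 + z))^2 := by
    rw [e]; exact mul_nonneg h0 h
  linarith

lemma GG_mono : MonotoneOn GG (Set.Icc (6/10) (17/10)) := by
  have hd : ∀ y ∈ Set.Icc (6/10:ℝ) (17/10), HasDerivAt GG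
      (((108*y^3 - 432*y^2 + 576*y - 576) * (qq y)^2 - Nn y * (2 * qq y * (9*y^2 - 24*y))) / ((qq y)^2)^2) y := by
    intro y hy
    have hq := qq_pos (y := y) (by linarith [hy.1]) (by linarith [hy.2])
    have hN : HasDerivAt Nn (108*y^3 - 432*y^2 + 576*y - 576) y := by
      have h : HasDerivAt (fun y : ℝ => 27*y^4 - 144*y^3 + 288*y^2 - 576*y + 768) (108*y^3 - 432*y^2 + 576*y - 576) y := by
        have := ((((hasDerivAt_pow 4 y).const_mul 27).fun_sub ((hasDerivAt_pow 3 y).const_mul 144)).fun_add 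
          ((hasDerivAt_pow 2 y).const_mul 288)).fun_sub ((hasDerivAt_id' y).const_mul 576) |>.add_const 768
        refine this.congr_deriv ?_
        norm_num; ring
      exact h
    have hqd : HasDerivAt qq (9*y^2 - 24*y) y := by
      have h : HasDerivAt (fun y : ℝ => 32 - 12*y^2 + 3*y^3) (9*y^2 - 24*y) y := by
        have := (((hasDerivAt_pow 2 y).const_mul 12).const_sub 32).fun_add ((hasDerivAt_pow 3 y).const_mul 3)
        refine this.congr_deriv ?_
        norm_num; ring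
      exact h
    have hq2 : HasDerivAt (fun y => (qq y)^2) (2 * qq y * (9*y^2 - 24*y)) y := by
      have := hqd.fun_pow 2
      refine this.congr_deriv ?_
      norm_num
    exact hN.div hq2 (by positivity)
  refine monotoneOn_of_deriv_nonneg (convex_Icc _ _) ?_ ?_ ?_
  · intro y hy; exact (hd y hy).continuousAt.continuousWithinAt
  · intro y hy
    rw [interior_Icc] at hy
    exact (hd y ⟨hy.1.le, hy.2.le⟩).differentiableAt.differentiableWithinAt
  · intro y hy
    rw [interior_Icc] at hy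
    rw [(hd y ⟨hy.1.le, hy.2.le⟩).deriv]
    have hq := qq_pos (y := y) (by linarith [hy.1]) (by linarith [hy.2])
    have h1 := P1 hy.1.le hy.2.le
    apply div_nonneg _ (by positivity)
    have : (108*y^3 - 432*y^2 + 576*y - 576) * (qq y)^2 - Nn y * (2 * qq y * (9*y^2 - 24*y)) =
      qq y * ((108*y^3 - 432*y^2 + 576*y - 576) * qq y - 2 * Nn y * (9*y^2 - 24*y)) := by ring
    rw [this]; exact mul_nonneg hq.le h1

lemma main_uv {u v : ℝ} (hu : 0 ≤ u) (huv : u ≤ v) (hs : 12/10 ≤ u + v) (hv : v < 4)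
    (hcase : 118/100 < u → 17/10 < v → 238/100 ≤ v) : H 4 u ≤ H 4 v := by
  by_cases hv1 : v ≤ 17/10
  · rw [H_pos_small hu (by linarith), H_pos_small (by linarith) (by linarith)]
    by_cases hu1 : 6/10 ≤ u
    · exact GG_mono ⟨hu1, by linarith⟩ ⟨by linarith, hv1⟩ huv
    · push Not at hu1
      have hz0 : 0 ≤ 6/10 - u := by linarith
      have h4 := P4 hz0 (by linarith)
      have e1 : (6/10:ℝ) - (6/10 - u) = u := by ring
      have e2 : (6/10:ℝ) + (6/10 - u) = 12/10 - u := by ring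
      rw [e1, e2] at h4
      have q1 := qq_pos (y := u) hu (by linarith)
      have q2 := qq_pos (y := 12/10 - u) (by linarith) (by linarith)
      have h5 : GG u ≤ GG (12/10 - u) := by
        unfold GG
        rw [div_le_div_iff₀ (by positivity) (by positivity)]
        exact h4
      exact h5.trans (GG_mono ⟨by linarith, by linarith⟩ ⟨by linarith, hv1⟩ (by linarith))
  · push Not at hv1
    by_cases hu1 : u ≤ 118/100
    · have q1 := qq_pos (y := u) hu (by linarith)
      have h1 : H 4 u ≤ 3/4 := by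
        rw [H_pos_small hu (by linarith)]
        unfold GG
        rw [div_le_div_iff₀ (by positivity) (by norm_num)]
        linarith [P2 hu hu1]
      have h2 : 3/4 ≤ H 4 v := by
        by_cases hv2 : v ≤ 2
        · have q2 := qq_pos (y := v) (by linarith) hv2
          rw [H_pos_small (by linarith) hv2]
          unfold GG
          rw [div_le_div_iff₀ (by norm_num) (by positivity)]
          linarith [P3 hv1.le hv2]
        · push Not at hv2
          rw [H_large hv2.le hv]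
          have : 0 < 4 - v := by linarith
          rw [div_le_div_iff₀ (by norm_num) (by positivity)]
          nlinarith
      exact h1.trans h2
    · push Not at hu1
      have hv3 := hcase hu1 hv1
      have hp : 0 < 4 - v := by linarith
      rw [H_large (by linarith) hv]
      by_cases hu2 : u ≤ 2
      · have q1 := qq_pos (y := u) hu hu2
        rw [H_pos_small hu hu2]
        unfold GG
        have h5 := P5 hu1.le hu2
        have h6 : Nn u / (qq u)^2 ≤ 114/100 := by
          rw [div_le_iff₀ (by positivity)]; exact h5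
        refine h6.trans ?_
        rw [le_div_iff₀ (by positivity)]
        nlinarith
      · push Not at hu2
        rw [H_large hu2.le (by linarith)]
        apply div_le_div_of_nonneg_left (by norm_num) (by positivity)
        apply pow_le_pow_left₀ hp.le
        linarith

theorem H4_mono (c x : ℝ) (hc : 0.6 ≤ c) (hc2 : c ≤ 1.42) (hx : 0 ≤ x) (hxc : x + c < 4) :
    H 4 (x - c) ≤ H 4 (x + c) := by
  norm_num at hc hc2
  by_cases h : c ≤ x
  · apply main_uv (by linarith) (by linarith) (by linarith) hxc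
    intro h1 _; linarith
  · push Not at h
    have e : H 4 (x - c) = H 4 (c - x) := by
      have e1 : x - c = -(c - x) := by ring
      rw [e1, H_neg_small (by linarith) (by linarith), H_pos_small (by linarith) (by linarith)]
    rw [e]
    apply main_uv (by linarith) (by linarith) (by linarith) hxc
    intro h1 h2; linarith

end US.S4584
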