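import Pool.Agent.Helper70.US.Defs
set_option autoImplicit false
namespace US.S4585




namespace H5aux

theorem pR2a (y : ℝ) (h1 : (111/100:ℝ) ≤ y) (h2 : y ≤ (2:ℝ)) :
    0 ≤ (-282500)*y^0 + (717600)*y^1 + (-746400)*y^2 + (437400)*y^3 + (-169800)*y^4 + (49080)*y^5 + (-11040)*y^6 + (1800)*y^7 + (-180)*y^8 + (8)*y^9 := by
  obtain ⟨u, hu⟩ : ∃ u, u = y - (111/100:ℝ) := ⟨_, rfl⟩
  obtain ⟨v, hv⟩ : ∃ v, v = (2:ℝ) - y := ⟨_, rfl⟩
  have hu0 : 0 ≤ u := by rw [hu]; linarith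
  have hv0 : 0 ≤ v := by rw [hv]; linarith
  have e : (-282500)*y^0 + (717600)*y^1 + (-746400)*y^2 + (437400)*y^3 + (-169800)*y^4 + (49080)*y^5 + (-11040)*y^6 + (1800)*y^7 + (-180)*y^8 + (8)*y^9 = (226017150514167746728/350356403707485209)*u^0*v^9 + (28839486456846118748400/350356403707485209)*u^1*v^8 + (166804026370809027120000/350356403707485209)*u^2*v^7 + (425734459116715536000000/350356403707485209)*u^3*v^6 + (617532196907968800000000/350356403707485209)*u^4*v^5 + (555011419794960000000000/350356403707485209)*u^5*v^4 + (316132480488000000000000/350356403707485209)*u^6*v^3 + (111395678400000000000000/350356403707485209)*u^7*v^2 + (22199520000000000000000/350356403707485209)*u^8*v^1 + (1916000000000000000000/350356403707485209)*u^9*v^0 := by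
    rw [hu, hv]; ring
  rw [e]; positivity

theorem pR2b (y : ℝ) (h1 : (2:ℝ) ≤ y) (h2 : y ≤ (3:ℝ)) :
    0 ≤ (-282500)*y^0 + (717600)*y^1 + (-746400)*y^2 + (437400)*y^3 + (-169800)*y^4 + (49080)*y^5 + (-11040)*y^6 + (1800)*y^7 + (-180)*y^8 + (8)*y^9 := by
  obtain ⟨u, hu⟩ : ∃ u, u = y - (2:ℝ) := ⟨_, rfl⟩
  obtain ⟨v, hv⟩ : ∃ v, v = (3:ℝ) - y := ⟨_, rfl⟩
  have hu0 : 0 ≤ u := by rw [hu]; linarith
  have hv0 : 0 ≤ v := by rw [hv]; linarith
  have e : (-282500)*y^0 + (717600)*y^1 + (-746400)*y^2 + (437400)*y^3 + (-169800)*y^4 + (49080)*y^5 + (-11040)*y^6 + (1800)*y^7 + (-180)*y^8 + (8)*y^9 = (1916)*u^0*v^9 + (11676)*u^1*v^8 + (27936)*u^2*v^7 + (33816)*u^3*v^6 + (21936)*u^4*v^5 + (7584)*u^5*v^4 + (1824)*u^6*v^3 + (864)*u^7*v^2 + (384)*u^8*v^1 + (64)*u^9*v^0 := by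
    rw [hu, hv]; ring
  rw [e]; positivity

theorem pLow (y : ℝ) (h1 : (1:ℝ) ≤ y) (h2 : y ≤ (63/50:ℝ)) :
    0 ≤ (673809/400)*y^0 + (-452381/100)*y^1 + (106868/25)*y^2 + (-28871/20)*y^3 + (-201429/1000)*y^4 + (145801/500)*y^5 + (-10842/125)*y^6 + (5671/500)*y^7 + (-5671/10000)*y^8 := by
  obtain ⟨u, hu⟩ : ∃ u, u = y - (1:ℝ) := ⟨_, rfl⟩
  obtain ⟨v, hv⟩ : ∃ v, v = (63/50:ℝ) - y := ⟨_, rfl⟩
  have hu0 : 0 ≤ u := by rw [hu]; linarith
  have hv0 : 0 ≤ v := by rw [hv]; linarith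
  have e : (673809/400)*y^0 + (-452381/100)*y^1 + (106868/25)*y^2 + (-28871/20)*y^3 + (-201429/1000)*y^4 + (145801/500)*y^5 + (-10842/125)*y^6 + (5671/500)*y^7 + (-5671/10000)*y^8 = (18312500000000/62748517)*u^0*v^8 + (69715000000000/62748517)*u^1*v^7 + (91600775000000/62748517)*u^2*v^6 + (73975475500000/62748517)*u^3*v^5 + (158311079737500/62748517)*u^4*v^4 + (310900130279300/62748517)*u^5*v^3 + (23063114470128/4826809)*u^6*v^2 + (6920440960272917/3137425850)*u^7*v^1 + (249545465509103493/627485170000)*u^8*v^0 := by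
    rw [hu, hv]; ring
  rw [e]; positivity

theorem pUp1 (y : ℝ) (h1 : (1:ℝ) ≤ y) (h2 : y ≤ (111/100:ℝ)) :
    0 ≤ (-66667/40)*y^0 + (45303/10)*y^1 + (-21468/5)*y^2 + (2893/2)*y^3 + (20727/100)*y^4 + (-14763/50)*y^5 + (2192/25)*y^6 + (-573/50)*y^7 + (573/1000)*y^8 := by
  obtain ⟨u, hu⟩ : ∃ u, u = y - (1:ℝ) := ⟨_, rfl⟩
  obtain ⟨v, hv⟩ : ∃ v, v = (111/100:ℝ) - y := ⟨_, rfl⟩
  have hu0 : 0 ≤ u := by rw [hu]; linarith
  have hv0 : 0 ≤ v := by rw [hv]; linarith
  have e : (-66667/40)*y^0 + (45303/10)*y^1 + (-21468/5)*y^2 + (2893/2)*y^3 + (20727/100)*y^4 + (-14763/50)*y^5 + (2192/25)*y^6 + (-573/50)*y^7 + (573/1000)*y^8 = (53280000000000000/214358881)*u^0*v^8 + (520646400000000000/214358881)*u^1*v^7 + (2083412784000000000/214358881)*u^2*v^6 + (4560000034080000000/214358881)*u^3*v^5 + (6041371482438000000/214358881)*u^4*v^4 + (4994800852014648000/214358881)*u^5*v^3 + (2526717058603641440/214358881)*u^6*v^2 + (3583546055579800502/1071794405)*u^7*v^1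 + (87375172291794299213/214358881000)*u^8*v^0 := by
    rw [hu, hv]; ring
  rw [e]; positivity

theorem pUp2 (y : ℝ) (h1 : (26/25:ℝ) ≤ y) (h2 : y ≤ (111/100:ℝ)) :
    0 ≤ (-67151/40)*y^0 + (45259/10)*y^1 + (-21404/5)*y^2 + (2889/2)*y^3 + (20331/100)*y^4 + (-14639/50)*y^5 + (2176/25)*y^6 + (-569/50)*y^7 + (569/1000)*y^8 := by
  obtain ⟨u, hu⟩ : ∃ u, u = y - (26/25:ℝ) := ⟨_, rfl⟩
  obtain ⟨v, hv⟩ : ∃ v, v = (111/100:ℝ) - y := ⟨_, rfl⟩
  have hu0 : 0 ≤ u := by rw [hu]; linarith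
  have hv0 : 0 ≤ v := by rw [hv]; linarith
  have e : (-67151/40)*y^0 + (45259/10)*y^1 + (-21404/5)*y^2 + (2889/2)*y^3 + (20331/100)*y^4 + (-14639/50)*y^5 + (2176/25)*y^6 + (-569/50)*y^7 + (569/1000)*y^8 = (603568225995726848/720600125)*u^0*v^8 + (9357342245434105856/720600125)*u^1*v^7 + (6513299480583933952/102942875)*u^2*v^6 + (15876406354675687936/102942875)*u^3*v^5 + (4486449213145710656/20588575)*u^4*v^4 + (19272753225544784416/102942875)*u^5*v^3 + (9947108902706463472/102942875)*u^6*v^2 + (19846102534237718546/720600125)*u^7*v^1 + (19163299779974164489/5764801000)*u^8*v^0 := by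
    rw [hu, hv]; ring
  rw [e]; positivity


theorem T5_eq (p : ℕ) (x : ℝ) :
    T 5 p x = (max 0 (x + 5)) ^ p - 5 * (max 0 (x + 3)) ^ p + 10 * (max 0 (x + 1)) ^ p
      - 10 * (max 0 (x - 1)) ^ p + 5 * (max 0 (x - 3)) ^ p - (max 0 (x - 5)) ^ p := by
  unfold T
  simp only [Finset.sum_range_succ, Finset.sum_range_zero]
  have c0 : (Nat.choose 5 0) = 1 := by decide
  have c1 : (Nat.choose 5 1) = 5 := by decide
  have c2 : (Nat.choose 5 2) = 10 := by decide
  have c3 : (Nat.choose 5 3) = 10 := by decide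
  have c4 : (Nat.choose 5 4) = 5 := by decide
  have c5 : (Nat.choose 5 5) = 1 := by decide
  rw [c0, c1, c2, c3, c4, c5]
  push_cast
  have e0 : x + 5 - 2 * 0 = x + 5 := by ring
  have e1 : x + 5 - 2 * 1 = x + 3 := by ring
  have e2 : x + 5 - 2 * 2 = x + 1 := by ring
  have e3 : x + 5 - 2 * 3 = x - 1 := by ring
  have e4 : x + 5 - 2 * 4 = x - 3 := by ring
  have e5 : x + 5 - 2 * 5 = x - 5 := by ring
  rw [e0, e1, e2, e3, e4, e5]
  ring

theorem H5_eq (x : ℝ) : H 5 x = (16 * (T 5 3 x) ^ 2 - 12 * (T 5 4 x) * (T 5 2 x)) / (T 5 4 x) ^ 2 := by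
  unfold H Bd
  norm_num [Nat.factorial]
  by_cases h : T 5 4 x = 0
  · rw [h]; simp
  · field_simp
    ring

theorem H5_mid (x : ℝ) (h1 : -1 ≤ x) (h2 : x ≤ 1) :
    H 5 x = 12 * (3 * (x^2)^3 - 15 * (x^2)^2 - 195 * x^2 + 575) / (3 * (x^2)^2 - 30 * x^2 + 115) ^ 2 := by
  have a0 : max 0 (x + 5) = x + 5 := max_eq_right (by linarith)
  have a1 : max 0 (x + 3) = x + 3 := max_eq_right (by linarith)
  have a2 : max 0 (x + 1) = x + 1 := max_eq_right (by linarith)
  have a3 : max 0 (x - 1) = 0 := max_eq_left (by linarith)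
  have a4 : max 0 (x - 3) = 0 := max_eq_left (by linarith)
  have a5 : max 0 (x - 5) = 0 := max_eq_left (by linarith)
  rw [H5_eq, T5_eq, T5_eq, T5_eq, a0, a1, a2, a3, a4, a5]
  have hp : 0 < 3 * (x^2)^2 - 30 * x^2 + 115 := by nlinarith [sq_nonneg (x^2 - 1), sq_nonneg x]
  have e4 : (x + 5) ^ 4 - 5 * (x + 3) ^ 4 + 10 * (x + 1) ^ 4 - 10 * 0 ^ 4 + 5 * 0 ^ 4 - 0 ^ 4
      = 2 * (3 * (x^2)^2 - 30 * x^2 + 115) := by ring
  rw [e4]
  rw [div_eq_div_iff (by positivity) (by positivity)]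
  ring

theorem H5_right (x : ℝ) (h1 : 1 ≤ x) (h2 : x ≤ 3) :
    H 5 x = ((3400) + (-3900)*x + (2460)*x^2 + (-1160)*x^3 + (360)*x^4 + (-60)*x^5 + (4)*x^6) /
      (-x^4+10*x^3-30*x^2+10*x+55) ^ 2 := by
  have a0 : max 0 (x + 5) = x + 5 := max_eq_right (by linarith)
  have a1 : max 0 (x + 3) = x + 3 := max_eq_right (by linarith)
  have a2 : max 0 (x + 1) = x + 1 := max_eq_right (by linarith)
  have a3 : max 0 (x - 1) = x - 1 := max_eq_right (by linarith)
  have a4 : max 0 (x - 3) = 0 := max_eq_left (by linarith)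
  have a5 : max 0 (x - 5) = 0 := max_eq_left (by linarith)
  rw [H5_eq, T5_eq, T5_eq, T5_eq, a0, a1, a2, a3, a4, a5]
  have hp : 0 < -x^4+10*x^3-30*x^2+10*x+55 := by
    obtain ⟨a, ha⟩ : ∃ a, a = 3 - x := ⟨_, rfl⟩
    have h3 : 0 ≤ a := by rw [ha]; linarith
    have h4 : 0 ≤ 2 - a := by rw [ha]; linarith
    have hx : x = 3 - a := by rw [ha]; ring
    have e : -x^4+10*x^3-30*x^2+10*x+55 = ((2 + a)^4 - 5*a^4)/4 := by rw [hx]; ring
    have k : (2 * a) ^ 4 ≤ (2 + a) ^ 4 := by gcongr; linarith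
    have k2 : 0 ≤ a ^ 4 := by positivity
    have k3 : 2 ^ 4 ≤ (2 + a) ^ 4 := by gcongr; linarith
    rw [e]
    nlinarith
  have e4 : (x + 5) ^ 4 - 5 * (x + 3) ^ 4 + 10 * (x + 1) ^ 4 - 10 * (x - 1) ^ 4 + 5 * 0 ^ 4 - 0 ^ 4
      = 4 * (-x^4+10*x^3-30*x^2+10*x+55) := by ring
  rw [e4]
  rw [div_eq_div_iff (by positivity) (by positivity)]
  ring

theorem H5_left (x : ℝ) (h1 : 1 ≤ x) (h2 : x ≤ 3) :
    H 5 (-x) = ((3400) + (-3900)*x + (2460)*x^2 + (-1160)*x^3 + (360)*x^4 + (-60)*x^5 + (4)*x^6) /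
      (-x^4+10*x^3-30*x^2+10*x+55) ^ 2 := by
  have a0 : max 0 (-x + 5) = -x + 5 := max_eq_right (by linarith)
  have a1 : max 0 (-x + 3) = -x + 3 := max_eq_right (by linarith)
  have a2 : max 0 (-x + 1) = 0 := max_eq_left (by linarith)
  have a3 : max 0 (-x - 1) = 0 := max_eq_left (by linarith)
  have a4 : max 0 (-x - 3) = 0 := max_eq_left (by linarith)
  have a5 : max 0 (-x - 5) = 0 := max_eq_left (by linarith)
  rw [H5_eq, T5_eq, T5_eq, T5_eq, a0, a1, a2, a3, a4, a5]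
  have hp : 0 < -x^4+10*x^3-30*x^2+10*x+55 := by
    obtain ⟨a, ha⟩ : ∃ a, a = 3 - x := ⟨_, rfl⟩
    have h3 : 0 ≤ a := by rw [ha]; linarith
    have h4 : 0 ≤ 2 - a := by rw [ha]; linarith
    have hx : x = 3 - a := by rw [ha]; ring
    have e : -x^4+10*x^3-30*x^2+10*x+55 = ((2 + a)^4 - 5*a^4)/4 := by rw [hx]; ring
    have k : (2 * a) ^ 4 ≤ (2 + a) ^ 4 := by gcongr; linarith
    have k2 : 0 ≤ a ^ 4 := by positivity
    have k3 : 2 ^ 4 ≤ (2 + a) ^ 4 := by gcongr; linarith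
    rw [e]
    nlinarith
  have e4 : (-x + 5) ^ 4 - 5 * (-x + 3) ^ 4 + 10 * 0 ^ 4 - 10 * 0 ^ 4 + 5 * 0 ^ 4 - 0 ^ 4
      = 4 * (-x^4+10*x^3-30*x^2+10*x+55) := by ring
  rw [e4]
  rw [div_eq_div_iff (by positivity) (by positivity)]
  ring

theorem H5_far (x : ℝ) (h1 : 3 ≤ x) (h2 : x < 5) :
    H 5 x = 4 / (5 - x) ^ 2 := by
  have a0 : max 0 (x + 5) = x + 5 := max_eq_right (by linarith)
  have a1 : max 0 (x + 3) = x + 3 := max_eq_right (by linarith)
  have a2 : max 0 (x + 1) = x + 1 := max_eq_right (by linarith)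
  have a3 : max 0 (x - 1) = x - 1 := max_eq_right (by linarith)
  have a4 : max 0 (x - 3) = x - 3 := max_eq_right (by linarith)
  have a5 : max 0 (x - 5) = 0 := max_eq_left (by linarith)
  rw [H5_eq, T5_eq, T5_eq, T5_eq, a0, a1, a2, a3, a4, a5]
  have hp : 0 < 5 - x := by linarith
  have e4 : (x + 5) ^ 4 - 5 * (x + 3) ^ 4 + 10 * (x + 1) ^ 4 - 10 * (x - 1) ^ 4 + 5 * (x - 3) ^ 4 - 0 ^ 4
      = (5 - x) ^ 4 := by ring
  rw [e4]
  rw [div_eq_div_iff (by positivity) (by positivity)]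
  ring

theorem qpos (x : ℝ) (h1 : 1 ≤ x) (h2 : x ≤ 3) : 0 < -x^4+10*x^3-30*x^2+10*x+55 := by
  obtain ⟨a, ha⟩ : ∃ a, a = 3 - x := ⟨_, rfl⟩
  have h3 : 0 ≤ a := by rw [ha]; linarith
  have h4 : 0 ≤ 2 - a := by rw [ha]; linarith
  have hx : x = 3 - a := by rw [ha]; ring
  have e : -x^4+10*x^3-30*x^2+10*x+55 = ((2 + a)^4 - 5*a^4)/4 := by rw [hx]; ring
  have k : (2 * a) ^ 4 ≤ (2 + a) ^ 4 := by gcongr; linarith
  have k2 : 0 ≤ a ^ 4 := by positivity
  have k3 : 2 ^ 4 ≤ (2 + a) ^ 4 := by gcongr; linarith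
  rw [e]
  nlinarith

/-- monotone on `[0, 0.936]` -/
theorem mono1 (s t : ℝ) (h0 : 0 ≤ s) (hst : s ≤ t) (ht : t ≤ 117/125) : H 5 s ≤ H 5 t := by
  rw [H5_mid s (by linarith) (by linarith), H5_mid t (by linarith) (by linarith)]
  have key : MonotoneOn (fun z : ℝ => 12 * (3 * z^3 - 15 * z^2 - 195 * z + 575) / (3 * z^2 - 30 * z + 115) ^ 2)
      (Set.Icc 0 (877/1000)) := by
    apply monotoneOn_of_deriv_nonneg (convex_Icc _ _)
    · apply ContinuousOn.div
      · fun_prop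
      · fun_prop
      · intro z hz
        have : 0 < 3 * z^2 - 30 * z + 115 := by nlinarith [hz.1, hz.2, sq_nonneg z]
        positivity
    · intro z hz
      rw [interior_Icc] at hz
      have : 0 < 3 * z^2 - 30 * z + 115 := by nlinarith [hz.1, hz.2, sq_nonneg z]
      apply DifferentiableAt.differentiableWithinAt
      apply DifferentiableAt.div
      · fun_prop
      · fun_prop
      · positivity
    · intro z hz
      rw [interior_Icc] at hz
      have hg : 0 < 3 * z^2 - 30 * z + 115 := by nlinarith [hz.1, hz.2, sq_nonneg z]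
      have d1 : HasDerivAt (fun z : ℝ => 12 * (3 * z^3 - 15 * z^2 - 195 * z + 575)) (12 * (9 * z^2 - 30 * z - 195)) z := by
        have := ((((hasDerivAt_pow 3 z).const_mul 3).sub ((hasDerivAt_pow 2 z).const_mul 15)).sub ((hasDerivAt_id' z).const_mul 195)).add_const (575:ℝ) |>.const_mul 12
        refine this.congr_deriv ?_
        norm_num; ring
      have d2 : HasDerivAt (fun z : ℝ => (3 * z^2 - 30 * z + 115) ^ 2) (2 * (3 * z^2 - 30 * z + 115) * (6 * z - 30)) z := by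
        have := ((((hasDerivAt_pow 2 z).const_mul 3).sub ((hasDerivAt_id' z).const_mul 30)).add_const (115:ℝ)).pow 2
        refine this.congr_deriv ?_
        simp only [Nat.cast_ofNat, Pi.sub_apply]
        ring
      have d3 := d1.div d2 (by positivity)
      have d4 : deriv (fun z : ℝ => 12 * (3 * z^3 - 15 * z^2 - 195 * z + 575) / (3 * z^2 - 30 * z + 115) ^ 2) z = _ := d3.deriv
      rw [d4]
      have hnum : 0 ≤ -9*z^4 + 2790*z^2 - 16200*z + 12075 := by
        nlinarith [mul_pos hz.1 (sub_pos.mpr hz.2), hz.1, hz.2, pow_pos hz.1 2, pow_pos hz.1 3,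
          mul_nonneg (pow_pos hz.1 2).le (sub_pos.mpr hz.2).le, mul_nonneg (pow_pos hz.1 3).le (sub_pos.mpr hz.2).le]
      have e : 12 * (9 * z^2 - 30 * z - 195) * (3 * z^2 - 30 * z + 115) ^ 2 -
          12 * (3 * z^3 - 15 * z^2 - 195 * z + 575) * (2 * (3 * z^2 - 30 * z + 115) * (6 * z - 30)) =
          12 * (3 * z^2 - 30 * z + 115) * (-9*z^4 + 2790*z^2 - 16200*z + 12075) := by ring
      rw [e]
      positivity
  have hs2 : s ^ 2 ≤ t ^ 2 := by gcongr
  have ht2 : t ^ 2 ≤ 877/1000 := by nlinarith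
  exact key ⟨by positivity, by linarith⟩ ⟨by positivity, ht2⟩ hs2

/-- monotone on `[1.11, 3]` -/
theorem mono2 (s t : ℝ) (h0 : 111/100 ≤ s) (hst : s ≤ t) (ht : t ≤ 3) : H 5 s ≤ H 5 t := by
  rw [H5_right s (by linarith) (by linarith), H5_right t (by linarith) (by linarith)]
  have key : MonotoneOn (fun x : ℝ => ((3400) + (-3900)*x + (2460)*x^2 + (-1160)*x^3 + (360)*x^4 + (-60)*x^5 + (4)*x^6) /
      (-x^4+10*x^3-30*x^2+10*x+55) ^ 2)
      (Set.Icc (111/100) 3) := by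
    apply monotoneOn_of_deriv_nonneg (convex_Icc _ _)
    · apply ContinuousOn.div
      · fun_prop
      · fun_prop
      · intro z hz
        have := qpos z (by linarith [hz.1]) hz.2
        positivity
    · intro z hz
      rw [interior_Icc] at hz
      have := qpos z (by linarith [hz.1]) hz.2.le
      apply DifferentiableAt.differentiableWithinAt
      apply DifferentiableAt.div
      · fun_prop
      · fun_prop
      · positivity
    · intro z hz
      rw [interior_Icc] at hz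
      have hg := qpos z (by linarith [hz.1]) hz.2.le
      have d1 : HasDerivAt (fun x : ℝ => ((3400) + (-3900)*x + (2460)*x^2 + (-1160)*x^3 + (360)*x^4 + (-60)*x^5 + (4)*x^6))
          (-3900 + 4920 * z - 3480 * z^2 + 1440 * z^3 - 300 * z^4 + 24 * z^5) z := by
        have := (((((((hasDerivAt_const z (3400:ℝ)).add ((hasDerivAt_id' z).const_mul (-3900))).add
          ((hasDerivAt_pow 2 z).const_mul 2460)).add ((hasDerivAt_pow 3 z).const_mul (-1160))).add
          ((hasDerivAt_pow 4 z).const_mul 360)).add ((hasDerivAt_pow 5 z).const_mul (-60))).add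
          ((hasDerivAt_pow 6 z).const_mul 4))
        refine this.congr_deriv ?_
        norm_num; ring
      have d2 : HasDerivAt (fun x : ℝ => (-x^4+10*x^3-30*x^2+10*x+55) ^ 2)
          (2 * (-z^4+10*z^3-30*z^2+10*z+55) * (-4*z^3+30*z^2-60*z+10)) z := by
        have := ((((((hasDerivAt_pow 4 z).neg).add ((hasDerivAt_pow 3 z).const_mul 10)).sub
          ((hasDerivAt_pow 2 z).const_mul 30)).add ((hasDerivAt_id' z).const_mul 10)).add_const (55:ℝ)).pow 2
        refine this.congr_deriv ?_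
        simp only [Nat.cast_ofNat, Pi.sub_apply, Pi.add_apply, Pi.neg_apply]
        ring
      have d3 := d1.div d2 (by positivity)
      have d4 : deriv (fun x : ℝ => ((3400) + (-3900)*x + (2460)*x^2 + (-1160)*x^3 + (360)*x^4 + (-60)*x^5 + (4)*x^6) /
        (-x^4+10*x^3-30*x^2+10*x+55) ^ 2) z = _ := d3.deriv
      rw [d4]
      have hnum : 0 ≤ (-282500)*z^0 + (717600)*z^1 + (-746400)*z^2 + (437400)*z^3 + (-169800)*z^4 + (49080)*z^5 + (-11040)*z^6 + (1800)*z^7 + (-180)*z^8 + (8)*z^9 := by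
        rcases le_total z 2 with h | h
        · exact pR2a z hz.1.le h
        · exact pR2b z h hz.2.le
      have e : (-3900 + 4920 * z - 3480 * z^2 + 1440 * z^3 - 300 * z^4 + 24 * z^5) * (-z^4+10*z^3-30*z^2+10*z+55) ^ 2 -
          ((3400) + (-3900)*z + (2460)*z^2 + (-1160)*z^3 + (360)*z^4 + (-60)*z^5 + (4)*z^6) * (2 * (-z^4+10*z^3-30*z^2+10*z+55) * (-4*z^3+30*z^2-60*z+10)) =
          (-z^4+10*z^3-30*z^2+10*z+55) * ((-282500)*z^0 + (717600)*z^1 + (-746400)*z^2 + (437400)*z^3 + (-169800)*z^4 + (49080)*z^5 + (-11040)*z^6 + (1800)*z^7 + (-180)*z^8 + (8)*z^9) := by ring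
      rw [e]
      positivity
  exact key ⟨h0, by linarith⟩ ⟨by linarith, ht⟩ hst

theorem mono3 (s t : ℝ) (h0 : 3 ≤ s) (hst : s ≤ t) (ht : t < 5) : H 5 s ≤ H 5 t := by
  rw [H5_far s (by linarith) (by linarith), H5_far t (by linarith) (by linarith)]
  have : 0 < 5 - t := by linarith
  have h2 : 0 < 5 - s := by linarith
  gcongr

/-- monotone on `[1.11, 5)` -/
theorem mono23 (s t : ℝ) (h0 : 111/100 ≤ s) (hst : s ≤ t) (ht : t < 5) : H 5 s ≤ H 5 t := by
  rcases le_total t 3 with h | h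
  · exact mono2 s t h0 hst h
  · rcases le_total s 3 with h' | h'
    · exact (mono2 s 3 h0 h' le_rfl).trans (mono3 3 t le_rfl h ht)
    · exact mono3 s t h' hst ht

/-- lower bound on the dip -/
theorem lowA (t : ℝ) (h0 : 117/125 ≤ t) (ht : t ≤ 1) : 5702/10000 ≤ H 5 t := by
  rw [H5_mid t (by linarith) (by linarith)]
  have hg : 0 < 3 * (t^2)^2 - 30 * t^2 + 115 := by nlinarith [sq_nonneg (t^2 - 1), sq_nonneg t]
  rw [le_div_iff₀ (by positivity)]
  have h1 : 0.876 ≤ t^2 := by nlinarith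
  have h2 : t^2 ≤ 1 := by nlinarith
  generalize t^2 = z at *
  nlinarith [mul_nonneg (sub_nonneg.2 h1) (sub_nonneg.2 h2), mul_nonneg (mul_nonneg (sub_nonneg.2 h1) (sub_nonneg.2 h2)) (sub_nonneg.2 h2), sq_nonneg (z - 1)]

theorem lowB (t : ℝ) (h0 : 1 ≤ t) (ht : t ≤ 63/50) : 5671/10000 ≤ H 5 t := by
  rw [H5_right t (by linarith) (by linarith)]
  have hg := qpos t (by linarith) (by linarith)
  rw [le_div_iff₀ (by positivity)]
  have := pLow t h0 ht
  nlinarith [this]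

theorem upA (s : ℝ) (h0 : 117/125 ≤ s) (hs : s ≤ 1) : H 5 s ≤ 573/1000 := by
  rw [H5_mid s (by linarith) (by linarith)]
  have hg : 0 < 3 * (s^2)^2 - 30 * s^2 + 115 := by nlinarith [sq_nonneg (s^2 - 1), sq_nonneg s]
  rw [div_le_iff₀ (by positivity)]
  have h1 : 0.876 ≤ s^2 := by nlinarith
  have h2 : s^2 ≤ 1 := by nlinarith
  generalize s^2 = z at *
  nlinarith [mul_nonneg (sub_nonneg.2 h1) (sub_nonneg.2 h2), mul_nonneg (mul_nonneg (sub_nonneg.2 h1) (sub_nonneg.2 h2)) (sub_nonneg.2 h2), sq_nonneg (z - 1)]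

theorem upB (s : ℝ) (h0 : 1 ≤ s) (hs : s ≤ 111/100) : H 5 s ≤ 573/1000 := by
  rw [H5_right s (by linarith) (by linarith)]
  have hg := qpos s (by linarith) (by linarith)
  rw [div_le_iff₀ (by positivity)]
  have := pUp1 s h0 hs
  nlinarith [this]

theorem upC (s : ℝ) (h0 : 26/25 ≤ s) (hs : s ≤ 111/100) : H 5 s ≤ 569/1000 := by
  rw [H5_right s (by linarith) (by linarith)]
  have hg := qpos s (by linarith) (by linarith)
  rw [div_le_iff₀ (by positivity)]
  have := pUp2 s h0 hs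
  nlinarith [this]

theorem v08 : H 5 (4/5) ≤ 5671/10000 := by
  rw [H5_mid (4/5) (by norm_num) (by norm_num)]; norm_num

theorem v864 : H 5 (108/125) ≤ 5702/10000 := by
  rw [H5_mid (108/125) (by norm_num) (by norm_num)]; norm_num

theorem v936 : H 5 (117/125) ≤ 573/1000 := by
  rw [H5_mid (117/125) (by norm_num) (by norm_num)]; norm_num

theorem v126 : 573/1000 ≤ H 5 (63/50) := by
  rw [H5_right (63/50) (by norm_num) (by norm_num)]; norm_num

theorem v119 : 569/1000 ≤ H 5 (119/100) := by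
  rw [H5_right (119/100) (by norm_num) (by norm_num)]; norm_num

/-- main comparison, `s ≤ t` -/
theorem cmp (c s t : ℝ) (h0 : 0 ≤ s) (hst : s ≤ t) (ht : t < 5)
    (hc : (3/5 ≤ c ∧ c ≤ 9/10) ∨ (23/20 ≤ c ∧ c ≤ 8/5))
    (hsum : s + t = 2 * c ∨ t - s = 2 * c) : H 5 s ≤ H 5 t := by
  -- upper bound for s ≤ 1.11
  have hup : s ≤ 111/100 → H 5 s ≤ 573/1000 := by
    intro h
    rcases le_total s (117/125) with h1 | h1
    · exact (mono1 s _ h0 h1 le_rfl).trans v936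
    · rcases le_total s 1 with h2 | h2
      · exact upA s h1 h2
      · exact upB s h2 h
  rcases le_total (111/100) s with hs | hs
  · exact mono23 s t hs hst ht
  rcases le_total (63/50) t with ht2 | ht2
  · exact (hup hs).trans (v126.trans (mono23 _ t (by norm_num) ht2 ht))
  -- now t ≤ 1.26, s ≤ 1.11
  have hlow : 4/5 ≤ t → 5671/10000 ≤ H 5 t ∨ t ≤ 117/125 := by
    intro h
    rcases le_total t (117/125) with h1 | h1
    · exact Or.inr h1
    · rcases le_total t 1 with h2 | h2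
      · exact Or.inl (by linarith [lowA t h1 h2])
      · exact Or.inl (lowB t h2 ht2)
  rcases le_total s (4/5) with hs8 | hs8
  · rcases le_total t (117/125) with h1 | h1
    · exact mono1 s t h0 hst h1
    · rcases hlow (by linarith) with h | h
      · exact ((mono1 s (4/5) h0 hs8 (by norm_num)).trans v08).trans h
      · exact mono1 s t h0 hst h
  -- s ≥ .8, t ≤ 1.26
  rcases hsum with hsum | hsum
  · rcases hc with ⟨hc1, hc2⟩ | ⟨hc1, hc2⟩
    · -- c ≤ .9
      rcases le_total t (117/125) with h1 | h1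
      · exact mono1 s t h0 hst h1
      · have h3 : s ≤ 108/125 := by linarith
        exact ((mono1 s _ h0 h3 (by norm_num)).trans v864).trans (lowA t h1 (by linarith))
    · have h3 : 119/100 ≤ t := by linarith
      have h4 : 26/25 ≤ s := by linarith
      exact (upC s h4 hs).trans (v119.trans (mono23 _ t (by norm_num) h3 ht))
  · exfalso
    rcases hc with ⟨hc1, hc2⟩ | ⟨hc1, hc2⟩ <;> linarith

end H5aux

open H5aux in
theorem H5_mono (c x : ℝ) (hc : (0.6 ≤ c ∧ c ≤ 0.9) ∨ (1.15 ≤ c ∧ c ≤ 1.6)) (hx : 0 ≤ x) (hxc : x + c < 5) :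
    H 5 (x - c) ≤ H 5 (x + c) := by
  have hc' : (3/5 ≤ c ∧ c ≤ 9/10) ∨ (23/20 ≤ c ∧ c ≤ 8/5) := by
    rcases hc with ⟨h1, h2⟩ | ⟨h1, h2⟩
    · left; norm_num at h1 h2; constructor <;> linarith
    · right; norm_num at h1 h2; constructor <;> linarith
  have hc0 : 0 < c := by rcases hc' with h | h <;> linarith [h.1]
  have hc16 : c ≤ 8/5 := by rcases hc' with h | h <;> linarith [h.2]
  rcases le_total c x with h | h
  · exact cmp c (x - c) (x + c) (by linarith) (by linarith) hxc hc' (Or.inr (by ring))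
  · have e : H 5 (x - c) = H 5 (c - x) := by
      rcases le_total (c - x) 1 with h1 | h1
      · rw [H5_mid (x - c) (by linarith) (by linarith), H5_mid (c - x) (by linarith) h1]
        have : (x - c) ^ 2 = (c - x) ^ 2 := by ring
        rw [this]
      · have e1 : x - c = -(c - x) := by ring
        rw [e1, H5_left (c - x) h1 (by linarith), H5_right (c - x) h1 (by linarith)]
    rw [e]
    exact cmp c (c - x) (x + c) (by linarith) (by linarith) hxc hc' (Or.inl (by ring))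

end US.S4585
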