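import Pool.Agent.Helper70.US.Defs
set_option autoImplicit false
namespace US.S4586





theorem hasDerivAt_maxpow (p : ℕ) (z : ℝ) :
    HasDerivAt (fun z : ℝ => (max 0 z) ^ (p + 2)) ((p + 2 : ℕ) * (max 0 z) ^ (p + 1)) z := by
  have main : ∀ y : ℝ, y ≠ 0 → HasDerivAt (fun z : ℝ => (max 0 z) ^ (p + 2)) ((p + 2 : ℕ) * (max 0 y) ^ (p + 1)) y := by
    intro y hy
    rcases lt_or_gt_of_ne hy with h | h
    · have e : (fun z : ℝ => (max 0 z) ^ (p + 2)) =ᶠ[nhds y] fun _ => (0 : ℝ) := by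
        filter_upwards [Iio_mem_nhds h] with z hz
        rw [max_eq_left (le_of_lt hz)]; simp
      rw [max_eq_left h.le]
      simpa using (hasDerivAt_const y (0 : ℝ)).congr_of_eventuallyEq e
    · have e : (fun z : ℝ => (max 0 z) ^ (p + 2)) =ᶠ[nhds y] fun z => z ^ (p + 2) := by
        filter_upwards [Ioi_mem_nhds h] with z hz
        rw [max_eq_right (le_of_lt hz)]
      rw [max_eq_right h.le]
      have := (hasDerivAt_pow (p + 2) y).congr_of_eventuallyEq e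
      simpa using this
  by_cases hz : z = 0
  · subst hz
    exact hasDerivAt_of_hasDerivAt_of_ne (g := fun y : ℝ => ((p + 2 : ℕ) : ℝ) * (max 0 y) ^ (p + 1)) main
      (by fun_prop) (by fun_prop)
  · exact main z hz

theorem hasDerivAt_T (m p : ℕ) (x : ℝ) :
    HasDerivAt (T m (p + 2)) ((p + 2 : ℕ) * T m (p + 1) x) x := by
  unfold T
  rw [Finset.mul_sum]
  apply HasDerivAt.fun_sum
  intro j _
  have h1 := (hasDerivAt_maxpow p (x + m - 2 * j)).comp x (((hasDerivAt_id x).add_const (m : ℝ)).sub_const (2 * (j : ℝ)))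
  have h2 := h1.const_mul ((-1 : ℝ) ^ j * (m.choose j))
  refine h2.congr_deriv ?_
  ring

theorem T5_expand (p : ℕ) (x : ℝ) :
    T 5 p x = (max 0 (x + 5)) ^ p - 5 * (max 0 (x + 3)) ^ p + 10 * (max 0 (x + 1)) ^ p
      - 10 * (max 0 (x - 1)) ^ p + 5 * (max 0 (x - 3)) ^ p - (max 0 (x - 5)) ^ p := by
  have c1 : Nat.choose 5 1 = 5 := by decide
  have c2 : Nat.choose 5 2 = 10 := by decide
  have c3 : Nat.choose 5 3 = 10 := by decide
  have c4 : Nat.choose 5 4 = 5 := by decide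
  unfold T
  simp only [Finset.sum_range_succ, Finset.sum_range_zero, Nat.choose_zero_right, Nat.choose_self, c1, c2, c3, c4]
  push_cast
  have e0 : x + 5 - 2 * 0 = x + 5 := by ring
  have e1 : x + 5 - 2 * 1 = x + 3 := by ring
  have e2 : x + 5 - 2 * 2 = x + 1 := by ring
  have e3 : x + 5 - 2 * 3 = x - 1 := by ring
  have e4 : x + 5 - 2 * 4 = x - 3 := by ring
  have e5 : x + 5 - 2 * 5 = x - 5 := by ring
  rw [e0, e1, e2, e3, e4, e5]
  ring

theorem T5_a (p : ℕ) (x : ℝ) (h0 : 0 ≤ x) (h1 : x ≤ 1) :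
    T 5 (p + 1) x = (x + 5) ^ (p + 1) - 5 * (x + 3) ^ (p + 1) + 10 * (x + 1) ^ (p + 1) := by
  rw [T5_expand, max_eq_right (by linarith : (0:ℝ) ≤ x + 5), max_eq_right (by linarith : (0:ℝ) ≤ x + 3),
    max_eq_right (by linarith : (0:ℝ) ≤ x + 1), max_eq_left (by linarith : x - 1 ≤ (0:ℝ)),
    max_eq_left (by linarith : x - 3 ≤ (0:ℝ)), max_eq_left (by linarith : x - 5 ≤ (0:ℝ))]
  rw [zero_pow (Nat.succ_ne_zero p)]
  ring

theorem T5_b (p : ℕ) (x : ℝ) (h0 : 1 ≤ x) (h1 : x ≤ 3) :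
    T 5 (p + 1) x = (x + 5) ^ (p + 1) - 5 * (x + 3) ^ (p + 1) + 10 * (x + 1) ^ (p + 1) - 10 * (x - 1) ^ (p + 1) := by
  rw [T5_expand, max_eq_right (by linarith : (0:ℝ) ≤ x + 5), max_eq_right (by linarith : (0:ℝ) ≤ x + 3),
    max_eq_right (by linarith : (0:ℝ) ≤ x + 1), max_eq_right (by linarith : (0:ℝ) ≤ x - 1),
    max_eq_left (by linarith : x - 3 ≤ (0:ℝ)), max_eq_left (by linarith : x - 5 ≤ (0:ℝ))]
  rw [zero_pow (Nat.succ_ne_zero p)]
  ring

theorem T5_c (p : ℕ) (x : ℝ) (h0 : 3 ≤ x) (h1 : x ≤ 5) :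
    T 5 (p + 1) x = (x + 5) ^ (p + 1) - 5 * (x + 3) ^ (p + 1) + 10 * (x + 1) ^ (p + 1) - 10 * (x - 1) ^ (p + 1)
      + 5 * (x - 3) ^ (p + 1) := by
  rw [T5_expand, max_eq_right (by linarith : (0:ℝ) ≤ x + 5), max_eq_right (by linarith : (0:ℝ) ≤ x + 3),
    max_eq_right (by linarith : (0:ℝ) ≤ x + 1), max_eq_right (by linarith : (0:ℝ) ≤ x - 1),
    max_eq_right (by linarith : (0:ℝ) ≤ x - 3), max_eq_left (by linarith : x - 5 ≤ (0:ℝ))]
  rw [zero_pow (Nat.succ_ne_zero p)]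
  ring

theorem maxneg_even (z : ℝ) : (max 0 (-z)) ^ 4 = z ^ 4 - (max 0 z) ^ 4 := by
  rcases le_total 0 z with h | h
  · rw [max_eq_left (by linarith : -z ≤ 0), max_eq_right h]; ring
  · rw [max_eq_right (by linarith : 0 ≤ -z), max_eq_left h]; ring

theorem maxneg_two (z : ℝ) : (max 0 (-z)) ^ 2 = z ^ 2 - (max 0 z) ^ 2 := by
  rcases le_total 0 z with h | h
  · rw [max_eq_left (by linarith : -z ≤ 0), max_eq_right h]; ring
  · rw [max_eq_right (by linarith : 0 ≤ -z), max_eq_left h]; ring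

theorem maxneg_three (z : ℝ) : (max 0 (-z)) ^ 3 = - z ^ 3 + (max 0 z) ^ 3 := by
  rcases le_total 0 z with h | h
  · rw [max_eq_left (by linarith : -z ≤ 0), max_eq_right h]; ring
  · rw [max_eq_right (by linarith : 0 ≤ -z), max_eq_left h]; ring

theorem T54_neg (x : ℝ) : T 5 4 (-x) = T 5 4 x := by
  rw [T5_expand, T5_expand]
  have e0 : -x + 5 = -(x - 5) := by ring
  have e1 : -x + 3 = -(x - 3) := by ring
  have e2 : -x + 1 = -(x - 1) := by ring
  have e3 : -x - 1 = -(x + 1) := by ring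
  have e4 : -x - 3 = -(x + 3) := by ring
  have e5 : -x - 5 = -(x + 5) := by ring
  rw [e0, e1, e2, e3, e4, e5]
  simp only [maxneg_even]
  ring

theorem T52_neg (x : ℝ) : T 5 2 (-x) = T 5 2 x := by
  rw [T5_expand, T5_expand]
  have e0 : -x + 5 = -(x - 5) := by ring
  have e1 : -x + 3 = -(x - 3) := by ring
  have e2 : -x + 1 = -(x - 1) := by ring
  have e3 : -x - 1 = -(x + 1) := by ring
  have e4 : -x - 3 = -(x + 3) := by ring
  have e5 : -x - 5 = -(x + 5) := by ring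
  rw [e0, e1, e2, e3, e4, e5]
  simp only [maxneg_two]
  ring

theorem T53_neg (x : ℝ) : T 5 3 (-x) = - T 5 3 x := by
  rw [T5_expand, T5_expand]
  have e0 : -x + 5 = -(x - 5) := by ring
  have e1 : -x + 3 = -(x - 3) := by ring
  have e2 : -x + 1 = -(x - 1) := by ring
  have e3 : -x - 1 = -(x + 1) := by ring
  have e4 : -x - 3 = -(x + 3) := by ring
  have e5 : -x - 5 = -(x + 5) := by ring
  rw [e0, e1, e2, e3, e4, e5]
  simp only [maxneg_three]
  ring

theorem H5_eq (x : ℝ) (h : T 5 4 x ≠ 0) :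
    H 5 x = (16 * (T 5 3 x) ^ 2 - 12 * T 5 4 x * T 5 2 x) / (T 5 4 x) ^ 2 := by
  unfold H Bd
  simp only [Nat.reduceSub]
  have f4 : (Nat.factorial 4 : ℝ) = 24 := by norm_num [Nat.factorial]
  have f3 : (Nat.factorial 3 : ℝ) = 6 := by norm_num [Nat.factorial]
  have f2 : (Nat.factorial 2 : ℝ) = 2 := by norm_num [Nat.factorial]
  rw [f4, f3, f2]
  field_simp
  ring

theorem u5_eq (x : ℝ) (h : T 5 4 x ≠ 0) : u 5 x = -4 * T 5 3 x / T 5 4 x := by
  unfold u Bd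
  simp only [Nat.reduceSub]
  have f4 : (Nat.factorial 4 : ℝ) = 24 := by norm_num [Nat.factorial]
  have f3 : (Nat.factorial 3 : ℝ) = 6 := by norm_num [Nat.factorial]
  rw [f4, f3]
  field_simp
  ring

/-- explicit forms -/
theorem T54_a (x : ℝ) (h0 : 0 ≤ x) (h1 : x ≤ 1) : T 5 4 x = 2 * (3 * x ^ 4 - 30 * x ^ 2 + 115) := by
  rw [T5_a 3 x h0 h1]; ring
theorem T53_a (x : ℝ) (h0 : 0 ≤ x) (h1 : x ≤ 1) : T 5 3 x = 6 * x ^ 3 - 30 * x := by
  rw [T5_a 2 x h0 h1]; ring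
theorem T52_a (x : ℝ) (h0 : 0 ≤ x) (h1 : x ≤ 1) : T 5 2 x = 6 * x ^ 2 - 10 := by
  rw [T5_a 1 x h0 h1]; ring
theorem T54_b (x : ℝ) (h0 : 1 ≤ x) (h1 : x ≤ 3) : T 5 4 x = (5 - x) ^ 4 - 5 * (3 - x) ^ 4 := by
  rw [T5_b 3 x h0 h1]; ring
theorem T53_b (x : ℝ) (h0 : 1 ≤ x) (h1 : x ≤ 3) : T 5 3 x = -(5 - x) ^ 3 + 5 * (3 - x) ^ 3 := by
  rw [T5_b 2 x h0 h1]; ring
theorem T52_b (x : ℝ) (h0 : 1 ≤ x) (h1 : x ≤ 3) : T 5 2 x = (5 - x) ^ 2 - 5 * (3 - x) ^ 2 := by
  rw [T5_b 1 x h0 h1]; ring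
theorem T54_c (x : ℝ) (h0 : 3 ≤ x) (h1 : x ≤ 5) : T 5 4 x = (5 - x) ^ 4 := by
  rw [T5_c 3 x h0 h1]; ring
theorem T53_c (x : ℝ) (h0 : 3 ≤ x) (h1 : x ≤ 5) : T 5 3 x = -(5 - x) ^ 3 := by
  rw [T5_c 2 x h0 h1]; ring
theorem T52_c (x : ℝ) (h0 : 3 ≤ x) (h1 : x ≤ 5) : T 5 2 x = (5 - x) ^ 2 := by
  rw [T5_c 1 x h0 h1]; ring

theorem T54_pos_nonneg (x : ℝ) (h0 : 0 ≤ x) (h1 : x < 5) : 0 < T 5 4 x := by
  rcases le_total x 1 with h | h
  · rw [T54_a x h0 h]; nlinarith [sq_nonneg (x ^ 2), mul_nonneg h0 (sub_nonneg.mpr h)]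
  rcases le_total x 3 with h' | h'
  · rw [T54_b x h h']
    have hb : 0 ≤ 3 - x := by linarith
    have hb2 : 0 ≤ 2 - (3 - x) := by linarith
    have : (5 - x) ^ 4 - 5 * (3 - x) ^ 4 = 16 + 32 * (3 - x) + 24 * (3 - x) ^ 2 + 4 * (3 - x) ^ 3 * (2 - (3 - x)) := by ring
    rw [this]; positivity
  · rw [T54_c x h' h1.le]
    have : 0 < 5 - x := by linarith
    positivity

theorem T54_pos (x : ℝ) (h0 : -5 < x) (h1 : x < 5) : 0 < T 5 4 x := by
  rcases le_total 0 x with h | h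
  · exact T54_pos_nonneg x h h1
  · rw [← T54_neg]; exact T54_pos_nonneg (-x) (by linarith) (by linarith)

theorem H5_neg (x : ℝ) : H 5 (-x) = H 5 x := by
  unfold H Bd
  simp only [Nat.reduceSub]
  rw [T54_neg, T53_neg, T52_neg]
  ring

theorem H5_abs (x : ℝ) : H 5 |x| = H 5 x := by
  rcases le_total 0 x with h | h
  · rw [abs_of_nonneg h]
  · rw [abs_of_nonpos h, H5_neg]

theorem hasDerivAt_u5 (x : ℝ) (h0 : -5 < x) (h1 : x < 5) : HasDerivAt (u 5) (H 5 x) x := by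
  have hp := T54_pos x h0 h1
  have e : u 5 =ᶠ[nhds x] fun y => -4 * T 5 3 y / T 5 4 y := by
    filter_upwards [Ioo_mem_nhds h0 h1] with y hy
    exact u5_eq y (T54_pos y hy.1 hy.2).ne'
  have d3 := hasDerivAt_T 5 1 x
  have d4 := hasDerivAt_T 5 2 x
  have := ((d3.const_mul (-4)).div d4 hp.ne').congr_of_eventuallyEq e
  refine this.congr_deriv ?_
  rw [H5_eq x hp.ne']
  push_cast
  norm_num
  field_simp
  ring

theorem mono1 (w : ℝ) (h0 : 0 ≤ w) (h1 : w ≤ 8649/10000) :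
    0 ≤ (108 * w ^ 2 - 360 * w - 2340) * (3 * w ^ 2 - 30 * w + 115) - 2 * (36 * w ^ 3 - 180 * w ^ 2 - 2340 * w + 6900) * (6 * w - 30) := by
  obtain ⟨p, hp⟩ : ∃ p, p = w - 0 := ⟨_, rfl⟩
  obtain ⟨q, hq⟩ : ∃ q, q = 8649/10000 - w := ⟨_, rfl⟩
  have hp0 : 0 ≤ p := by linarith
  have hq0 : 0 ≤ q := by linarith
  have e : (108 * w ^ 2 - 360 * w - 2340) * (3 * w ^ 2 - 30 * w + 115) - 2 * (36 * w ^ 3 - 180 * w ^ 2 - 2340 * w + 6900) * (6 * w - 30) =
      (161000000000000000000/621757566294489) * (p ^ 0 * q ^ 4) + (457181600000000000000/621757566294489) * (p ^ 1 * q ^ 3) + (144457444924000000000/207252522098163) * (p ^ 2 * q ^ 2) + (139199869544000000000/621757566294489) * (p ^ 3 * q ^ 1) + (1941984954840195188/621757566294489) * (p ^ 4 * q ^ 0) := by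
    rw [hp, hq]; ring
  rw [e]; positivity

theorem up1 (w : ℝ) (h0 : 8649/10000 ≤ w) (h1 : w ≤ 1) :
    0 ≤ 5725 / 10000 * (3 * w ^ 2 - 30 * w + 115) ^ 2 - (36 * w ^ 3 - 180 * w ^ 2 - 2340 * w + 6900) := by
  obtain ⟨p, hp⟩ : ∃ p, p = w - 8649/10000 := ⟨_, rfl⟩
  obtain ⟨q, hq⟩ : ∃ q, q = 1 - w := ⟨_, rfl⟩
  have hp0 : 0 ≤ p := by linarith
  have hq0 : 0 ≤ q := by linarith
  have e : 5725 / 10000 * (3 * w ^ 2 - 30 * w + 115) ^ 2 - (36 * w ^ 3 - 180 * w ^ 2 - 2340 * w + 6900) =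
      (28435761873862676461/1332543476160400) * (p ^ 0 * q ^ 4) + (253274171063004400/3331358690401) * (p ^ 1 * q ^ 3) + (470652171204000000/3331358690401) * (p ^ 2 * q ^ 2) + (462850240000000000/3331358690401) * (p ^ 3 * q ^ 1) + (174400000000000000/3331358690401) * (p ^ 4 * q ^ 0) := by
    rw [hp, hq]; ring
  rw [e]; positivity

theorem lo1 (w : ℝ) (h0 : 8649/10000 ≤ w) (h1 : w ≤ 1) :
    0 ≤ (36 * w ^ 3 - 180 * w ^ 2 - 2340 * w + 6900) - 567 / 1000 * (3 * w ^ 2 - 30 * w + 115) ^ 2 := by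
  obtain ⟨p, hp⟩ : ∃ p, p = w - 8649/10000 := ⟨_, rfl⟩
  obtain ⟨q, hq⟩ : ∃ q, q = 1 - w := ⟨_, rfl⟩
  have hp0 : 0 ≤ p := by linarith
  have hq0 : 0 ≤ q := by linarith
  have e : (36 * w ^ 3 - 180 * w ^ 2 - 2340 * w + 6900) - 567 / 1000 * (3 * w ^ 2 - 30 * w + 115) ^ 2 =
      (387344983769482403697/3331358690401000) * (p ^ 0 * q ^ 4) + (1546801178536079520/3331358690401) * (p ^ 1 * q ^ 3) + (2180135386843200000/3331358690401) * (p ^ 2 * q ^ 2) + (1272216192000000000/3331358690401) * (p ^ 3 * q ^ 1) + (251520000000000000/3331358690401) * (p ^ 4 * q ^ 0) := by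
    rw [hp, hq]; ring
  rw [e]; positivity

theorem mono2 (b : ℝ) (h0 : 0 ≤ b) (h1 : b ≤ 187/100) :
    0 ≤ 2 * (256 + 768 * b + 1920 * b ^ 2 + 1280 * b ^ 3 - 192 * b ^ 5 + 64 * b ^ 6) * (32 + 48 * b + 24 * b ^ 2 - 16 * b ^ 3) - (768 + 3840 * b + 3840 * b ^ 2 - 960 * b ^ 4 + 384 * b ^ 5) * (16 + 32 * b + 24 * b ^ 2 + 8 * b ^ 3 - 4 * b ^ 4) := by
  obtain ⟨p, hp⟩ : ∃ p, p = b - 0 := ⟨_, rfl⟩
  obtain ⟨q, hq⟩ : ∃ q, q = 187/100 - b := ⟨_, rfl⟩
  have hp0 : 0 ≤ p := by linarith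
  have hq0 : 0 ≤ q := by linarith
  have e : 2 * (256 + 768 * b + 1920 * b ^ 2 + 1280 * b ^ 3 - 192 * b ^ 5 + 64 * b ^ 6) * (32 + 48 * b + 24 * b ^ 2 - 16 * b ^ 3) - (768 + 3840 * b + 3840 * b ^ 2 - 960 * b ^ 4 + 384 * b ^ 5) * (16 + 32 * b + 24 * b ^ 2 + 8 * b ^ 3 - 4 * b ^ 4) =
      (40960000000000000000000000/9778171990537733621073763) * (p ^ 0 * q ^ 11) + (20070400000000000000000000/888924726412521238279433) * (p ^ 1 * q ^ 10) + (15435776000000000000000000/888924726412521238279433) * (p ^ 2 * q ^ 9) + (288447037440000000000000000/888924726412521238279433) * (p ^ 3 * q ^ 8) + (3887745708441600000000000000/888924726412521238279433) * (p ^ 4 * q ^ 7) + (17875982970663936000000000000/888924726412521238279433) * (p ^ 5 * q ^ 6) + (42024292197584471040000000000/888924726412521238279433) * (p ^ 6 * q ^ 5) + (56485473431283277977600000000/888924726412521238279433) * (p ^ 7 * q ^ 4) + (4010109901864574210304000000/80811338764774658025403)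 * (p ^ 8 * q ^ 3) + (18817274088399508300764160000/888924726412521238279433) * (p ^ 9 * q ^ 2) + (3491430332891240371896320000/888924726412521238279433) * (p ^ 10 * q ^ 1) + (512475084049959915637760000/9778171990537733621073763) * (p ^ 11 * q ^ 0) := by
    rw [hp, hq]; ring
  rw [e]; positivity

theorem up2 (b : ℝ) (h0 : 187/100 ≤ b) (h1 : b ≤ 2) :
    0 ≤ 5725 / 10000 * (16 + 32 * b + 24 * b ^ 2 + 8 * b ^ 3 - 4 * b ^ 4) ^ 2 - (256 + 768 * b + 1920 * b ^ 2 + 1280 * b ^ 3 - 192 * b ^ 5 + 64 * b ^ 6) := by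
  obtain ⟨p, hp⟩ : ∃ p, p = b - 187/100 := ⟨_, rfl⟩
  obtain ⟨q, hq⟩ : ∃ q, q = 2 - b := ⟨_, rfl⟩
  have hp0 : 0 ≤ p := by linarith
  have hq0 : 0 ≤ q := by linarith
  have e : 5725 / 10000 * (16 + 32 * b + 24 * b ^ 2 + 8 * b ^ 3 - 4 * b ^ 4) ^ 2 - (256 + 768 * b + 1920 * b ^ 2 + 1280 * b ^ 3 - 192 * b ^ 5 + 64 * b ^ 6) =
      (29774043604283143509/20393268025) * (p ^ 0 * q ^ 8) + (10127785232765043536/815730721) * (p ^ 1 * q ^ 7) + (36660523985460691200/815730721) * (p ^ 2 * q ^ 6) + (73780784472354880000/815730721) * (p ^ 3 * q ^ 5) + (90087754466160000000/815730721) * (p ^ 4 * q ^ 4) + (67974800403200000000/815730721) * (p ^ 5 * q ^ 3) + (30634433920000000000/815730721) * (p ^ 6 * q ^ 2) + (7387904000000000000/815730721) * (p ^ 7 * q ^ 1) + (697600000000000000/815730721) * (p ^ 8 * q ^ 0) := by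
    rw [hp, hq]; ring
  rw [e]; positivity

theorem lo2 (b : ℝ) (h0 : 187/100 ≤ b) (h1 : b ≤ 2) :
    0 ≤ (256 + 768 * b + 1920 * b ^ 2 + 1280 * b ^ 3 - 192 * b ^ 5 + 64 * b ^ 6) - 567 / 1000 * (16 + 32 * b + 24 * b ^ 2 + 8 * b ^ 3 - 4 * b ^ 4) ^ 2 := by
  obtain ⟨p, hp⟩ : ∃ p, p = b - 187/100 := ⟨_, rfl⟩
  obtain ⟨q, hq⟩ : ∃ q, q = 2 - b := ⟨_, rfl⟩
  have hp0 : 0 ≤ p := by linarith
  have hq0 : 0 ≤ q := by linarith
  have e : (256 + 768 * b + 1920 * b ^ 2 + 1280 * b ^ 3 - 192 * b ^ 5 + 64 * b ^ 6) - 567 / 1000 * (16 + 32 * b + 24 * b ^ 2 + 8 * b ^ 3 - 4 * b ^ 4) ^ 2 =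
      (34163861529476415986/101966340125) * (p ^ 0 * q ^ 8) + (9110963213085446944/4078653605) * (p ^ 1 * q ^ 7) + (5994616396439272960/815730721) * (p ^ 2 * q ^ 6) + (13198558263026304000/815730721) * (p ^ 3 * q ^ 5) + (20731908028128000000/815730721) * (p ^ 4 * q ^ 4) + (22363271554560000000/815730721) * (p ^ 5 * q ^ 3) + (15378030336000000000/815730721) * (p ^ 6 * q ^ 2) + (5999923200000000000/815730721) * (p ^ 7 * q ^ 1) + (1006080000000000000/815730721) * (p ^ 8 * q ^ 0) := by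
    rw [hp, hq]; ring
  rw [e]; positivity

theorem mono_of_hasDeriv (f f' : ℝ → ℝ) (a b : ℝ) (hd : ∀ x, a ≤ x → x ≤ b → HasDerivAt f (f' x) x)
    (hf : ∀ x, a ≤ x → x ≤ b → 0 ≤ f' x) (x y : ℝ) (hx : a ≤ x) (hxy : x ≤ y) (hy : y ≤ b) : f x ≤ f y := by
  have hm : MonotoneOn f (Set.Icc a b) := by
    apply monotoneOn_of_deriv_nonneg (convex_Icc a b)
    · exact fun z hz => (hd z hz.1 hz.2).continuousAt.continuousWithinAt
    · intro z hz
      rw [interior_Icc] at hz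
      exact (hd z hz.1.le hz.2.le).differentiableAt.differentiableWithinAt
    · intro z hz
      rw [interior_Icc] at hz
      rw [(hd z hz.1.le hz.2.le).deriv]
      exact hf z hz.1.le hz.2.le
  exact hm ⟨hx, hxy.trans hy⟩ ⟨hx.trans hxy, hy⟩ hxy

theorem deriv_quot (N F : ℝ → ℝ) (N' F' x : ℝ) (dN : HasDerivAt N N' x) (dF : HasDerivAt F F' x)
    (hF : F x ≠ 0) : HasDerivAt (fun y => N y / F y ^ 2) ((N' * F x - 2 * N x * F') / (F x) ^ 3) x := by
  have := dN.div (dF.pow 2) (pow_ne_zero 2 hF)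
  refine this.congr_deriv ?_
  rw [Pi.pow_apply]
  field_simp
  ring

/-- H on [0,1] as a function of w = x^2 -/
noncomputable def h1 (w : ℝ) : ℝ := (36 * w ^ 3 - 180 * w ^ 2 - 2340 * w + 6900) / (3 * w ^ 2 - 30 * w + 115) ^ 2

/-- H on [1,3] as a function of b = 3 - x -/
noncomputable def h2 (b : ℝ) : ℝ :=
  (256 + 768 * b + 1920 * b ^ 2 + 1280 * b ^ 3 - 192 * b ^ 5 + 64 * b ^ 6) / (16 + 32 * b + 24 * b ^ 2 + 8 * b ^ 3 - 4 * b ^ 4) ^ 2

theorem F1_pos (w : ℝ) (h0 : 0 ≤ w) (h1 : w ≤ 1) : 0 < 3 * w ^ 2 - 30 * w + 115 := by nlinarith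

theorem F2_pos (b : ℝ) (h0 : 0 ≤ b) (h1 : b ≤ 2) : 0 < 16 + 32 * b + 24 * b ^ 2 + 8 * b ^ 3 - 4 * b ^ 4 := by
  have : 16 + 32 * b + 24 * b ^ 2 + 8 * b ^ 3 - 4 * b ^ 4 = 16 + 32 * b + 24 * b ^ 2 + 4 * b ^ 3 * (2 - b) := by ring
  have h2 : 0 ≤ 2 - b := by linarith
  rw [this]; positivity

theorem H5_a (x : ℝ) (h0 : 0 ≤ x) (hx1 : x ≤ 1) : H 5 x = h1 (x ^ 2) := by
  have hp := T54_pos_nonneg x h0 (by linarith)
  rw [H5_eq x hp.ne', T54_a x h0 hx1, T53_a x h0 hx1, T52_a x h0 hx1]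
  have hF := F1_pos (x ^ 2) (by positivity) (by nlinarith)
  have hF' : 3 * x ^ 4 - 30 * x ^ 2 + 115 ≠ 0 := by
    have : 3 * x ^ 4 - 30 * x ^ 2 + 115 = 3 * (x ^ 2) ^ 2 - 30 * x ^ 2 + 115 := by ring
    rw [this]; exact hF.ne'
  unfold h1
  rw [div_eq_div_iff (by positivity) (by positivity)]
  ring

theorem H5_b (x : ℝ) (hx1 : 1 ≤ x) (hx3 : x ≤ 3) : H 5 x = h2 (3 - x) := by
  have hp := T54_pos_nonneg x (by linarith) (by linarith)
  rw [H5_eq x hp.ne', T54_b x hx1 hx3, T53_b x hx1 hx3, T52_b x hx1 hx3]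
  have hF := F2_pos (3 - x) (by linarith) (by linarith)
  rw [T54_b x hx1 hx3] at hp
  unfold h2
  rw [div_eq_div_iff (by positivity) (by positivity)]
  ring

theorem H5_c (x : ℝ) (hx1 : 3 ≤ x) (hx3 : x < 5) : H 5 x = 4 / (5 - x) ^ 2 := by
  have hp := T54_pos_nonneg x (by linarith) (by linarith)
  rw [H5_eq x hp.ne', T54_c x hx1 hx3.le, T53_c x hx1 hx3.le, T52_c x hx1 hx3.le]
  have h : 5 - x ≠ 0 := by linarith
  field_simp
  ring

theorem h1_mono (v w : ℝ) (h0 : 0 ≤ v) (hvw : v ≤ w) (hw : w ≤ 8649 / 10000) : h1 v ≤ h1 w := by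
  apply mono_of_hasDeriv h1 (fun w => ((108 * w ^ 2 - 360 * w - 2340) * (3 * w ^ 2 - 30 * w + 115) - 2 * (36 * w ^ 3 - 180 * w ^ 2 - 2340 * w + 6900) * (6 * w - 30)) / (3 * w ^ 2 - 30 * w + 115) ^ 3) 0 (8649 / 10000) _ _ v w h0 hvw hw
  · intro x hx hx2
    have hF := F1_pos x hx (by linarith)
    have dN : HasDerivAt (fun w : ℝ => 36 * w ^ 3 - 180 * w ^ 2 - 2340 * w + 6900) (108 * x ^ 2 - 360 * x - 2340) x := by
      have := (((((hasDerivAt_pow 3 x).const_mul 36).sub ((hasDerivAt_pow 2 x).const_mul 180)).sub ((hasDerivAt_id x).const_mul 2340)).add_const (6900 : ℝ))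
      refine this.congr_deriv ?_
      norm_num; ring
    have dF : HasDerivAt (fun w : ℝ => 3 * w ^ 2 - 30 * w + 115) (6 * x - 30) x := by
      have := ((((hasDerivAt_pow 2 x).const_mul 3).sub ((hasDerivAt_id x).const_mul 30)).add_const (115 : ℝ))
      refine this.congr_deriv ?_
      norm_num; ring
    exact deriv_quot _ _ _ _ x dN dF hF.ne'
  · intro x hx hx2
    have hF := F1_pos x hx (by linarith)
    have := mono1 x (by linarith) (by linarith)
    positivity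

theorem h2_anti (v w : ℝ) (h0 : 0 ≤ v) (hvw : v ≤ w) (hw : w ≤ 187 / 100) : h2 w ≤ h2 v := by
  have key : (fun b => -h2 b) v ≤ (fun b => -h2 b) w := by
    apply mono_of_hasDeriv (fun b => -h2 b) (fun b => (2 * (256 + 768 * b + 1920 * b ^ 2 + 1280 * b ^ 3 - 192 * b ^ 5 + 64 * b ^ 6) * (32 + 48 * b + 24 * b ^ 2 - 16 * b ^ 3) - (768 + 3840 * b + 3840 * b ^ 2 - 960 * b ^ 4 + 384 * b ^ 5) * (16 + 32 * b + 24 * b ^ 2 + 8 * b ^ 3 - 4 * b ^ 4)) / (16 + 32 * b + 24 * b ^ 2 + 8 * b ^ 3 - 4 * b ^ 4) ^ 3) 0 (187 / 100) _ _ v w h0 hvw hw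
    · intro b hx hx2
      have hF := F2_pos b hx (by linarith)
      have dN : HasDerivAt (fun b : ℝ => 256 + 768 * b + 1920 * b ^ 2 + 1280 * b ^ 3 - 192 * b ^ 5 + 64 * b ^ 6) (768 + 3840 * b + 3840 * b ^ 2 - 960 * b ^ 4 + 384 * b ^ 5) b := by
        have := (((((((hasDerivAt_id b).const_mul 768).const_add (256 : ℝ)).add ((hasDerivAt_pow 2 b).const_mul 1920)).add ((hasDerivAt_pow 3 b).const_mul 1280)).sub ((hasDerivAt_pow 5 b).const_mul 192)).add ((hasDerivAt_pow 6 b).const_mul 64))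
        refine this.congr_deriv ?_
        norm_num; ring
      have dF : HasDerivAt (fun b : ℝ => 16 + 32 * b + 24 * b ^ 2 + 8 * b ^ 3 - 4 * b ^ 4) (32 + 48 * b + 24 * b ^ 2 - 16 * b ^ 3) b := by
        have := ((((((hasDerivAt_id b).const_mul 32).const_add (16 : ℝ)).add ((hasDerivAt_pow 2 b).const_mul 24)).add ((hasDerivAt_pow 3 b).const_mul 8)).sub ((hasDerivAt_pow 4 b).const_mul 4))
        refine this.congr_deriv ?_
        norm_num; ring
      refine (deriv_quot _ _ _ _ b dN dF hF.ne').neg.congr_deriv ?_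
      rw [← neg_div]
      congr 1
      ring
    · intro b hx hx2
      have hF := F2_pos b hx (by linarith)
      have := mono2 b (by linarith) (by linarith)
      positivity
  simpa using key

/-- `H` is increasing on `[0, 0.93]` -/
theorem H5_mono_a (s t : ℝ) (h0 : 0 ≤ t) (hts : t ≤ s) (hs : s ≤ 93 / 100) : H 5 t ≤ H 5 s := by
  rw [H5_a t h0 (by linarith), H5_a s (by linarith) (by linarith)]
  apply h1_mono _ _ (by positivity)
  · nlinarith
  · nlinarith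

/-- `H` is increasing on `[1.13, 5)` -/
theorem H5_mono_b (s t : ℝ) (h0 : 113 / 100 ≤ t) (hts : t ≤ s) (hs : s < 5) : H 5 t ≤ H 5 s := by
  rcases le_total s 3 with h | h
  · rw [H5_b t (by linarith) (by linarith), H5_b s (by linarith) h]
    exact h2_anti _ _ (by linarith) (by linarith) (by linarith)
  · have hs' : (1 : ℝ) ≤ H 5 s := by
      rw [H5_c s h hs, le_div_iff₀ (by nlinarith)]
      nlinarith
    rcases le_total t 3 with h' | h'
    · have h3 : H 5 t ≤ H 5 3 := by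
        rw [H5_b t (by linarith) h', H5_b 3 (by norm_num) (by norm_num)]
        exact h2_anti _ _ (by linarith) (by linarith) (by linarith)
      have : H 5 3 = 1 := by rw [H5_c 3 (by norm_num) (by norm_num)]; norm_num
      linarith
    · rw [H5_c s h hs, H5_c t h' (by linarith)]
      apply div_le_div_of_nonneg_left (by norm_num) (by nlinarith) (by nlinarith)

theorem H5_up (t : ℝ) (h0 : 93 / 100 ≤ t) (h1 : t ≤ 113 / 100) : H 5 t ≤ 5725 / 10000 := by
  rcases le_total t 1 with h | h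
  · rw [H5_a t (by linarith) h]
    have hF := F1_pos (t ^ 2) (by positivity) (by nlinarith)
    unfold US.S4586.h1
    rw [div_le_iff₀ (by positivity)]
    have := up1 (t ^ 2) (by nlinarith) (by nlinarith)
    linarith
  · rw [H5_b t (by linarith) (by linarith)]
    have hF := F2_pos (3 - t) (by linarith) (by linarith)
    unfold h2
    rw [div_le_iff₀ (by positivity)]
    have := up2 (3 - t) (by linarith) (by linarith)
    linarith

theorem H5_lo (t : ℝ) (h0 : 93 / 100 ≤ t) (h1 : t ≤ 113 / 100) : 567 / 1000 ≤ H 5 t := by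
  rcases le_total t 1 with h | h
  · rw [H5_a t (by linarith) h]
    have hF := F1_pos (t ^ 2) (by positivity) (by nlinarith)
    unfold US.S4586.h1
    rw [le_div_iff₀ (by positivity)]
    have := lo1 (t ^ 2) (by nlinarith) (by nlinarith)
    linarith
  · rw [H5_b t (by linarith) (by linarith)]
    have hF := F2_pos (3 - t) (by linarith) (by linarith)
    unfold h2
    rw [le_div_iff₀ (by positivity)]
    have := lo2 (3 - t) (by linarith) (by linarith)
    linarith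

theorem H5_v1 : H 5 (75 / 100) ≤ 567 / 1000 := by
  rw [H5_a _ (by norm_num) (by norm_num)]; unfold h1; norm_num
theorem H5_v2 : 576 / 1000 ≤ H 5 (135 / 100) := by
  rw [H5_b _ (by norm_num) (by norm_num)]; unfold h2; norm_num
theorem H5_v3 : 600 / 1000 ≤ H 5 (165 / 100) := by
  rw [H5_b _ (by norm_num) (by norm_num)]; unfold h2; norm_num

/-- lower bound beyond 0.93 -/
theorem H5_lo' (s : ℝ) (h0 : 93 / 100 ≤ s) (hs : s < 5) : 567 / 1000 ≤ H 5 s := by
  rcases le_total s (113 / 100) with h | h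
  · exact H5_lo s h0 h
  · exact (H5_lo (113 / 100) (by norm_num) le_rfl).trans (H5_mono_b s _ le_rfl h hs)

/-- upper bound below 1.13 -/
theorem H5_up' (t : ℝ) (h0 : 0 ≤ t) (ht : t ≤ 113 / 100) : H 5 t ≤ 5725 / 10000 := by
  rcases le_total t (93 / 100) with h | h
  · exact (H5_mono_a (93 / 100) t h0 h le_rfl).trans (H5_up (93 / 100) le_rfl (by norm_num))
  · exact H5_up t h ht

/-- almost monotone -/
theorem H5_almost (s t : ℝ) (h0 : 0 ≤ t) (hts : t ≤ s) (hs : s < 5) : H 5 t - 55 / 10000 ≤ H 5 s := by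
  rcases le_total s (93 / 100) with h | h
  · have := H5_mono_a s t h0 hts h; linarith
  rcases le_total t (113 / 100) with h' | h'
  · have := H5_up' t h0 h'; have := H5_lo' s h hs; linarith
  · have := H5_mono_b s t h' hts hs; linarith

/-- monotone with a gap -/
theorem H5_gap (s t : ℝ) (h0 : 0 ≤ t) (hts : t + 6 / 10 ≤ s) (hs : s < 5) : H 5 t ≤ H 5 s := by
  rcases le_total s (93 / 100) with h | h
  · exact H5_mono_a s t h0 (by linarith) h
  rcases le_total t (75 / 100) with h' | h'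
  · have h1 := H5_mono_a (75 / 100) t h0 h' (by norm_num)
    have := H5_v1; have := H5_lo' s h hs; linarith
  rcases le_total t (113 / 100) with h'' | h''
  · have := H5_up' t h0 h''
    have := H5_mono_b s (135 / 100) (by norm_num) (by linarith) hs
    have := H5_v2; linarith
  · exact H5_mono_b s t h'' (by linarith) hs

/-- the second difference -/
noncomputable def D (d y : ℝ) : ℝ := u 5 (y + d) - u 5 (y - d)

theorem hasDerivAt_D (d y : ℝ) (hd : 0 ≤ d) (hy : 0 ≤ y) (h : y + d < 5) :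
    HasDerivAt (D d) (H 5 (y + d) - H 5 (y - d)) y := by
  have h1 := (hasDerivAt_u5 (y + d) (by linarith) h).comp y ((hasDerivAt_id y).add_const d)
  have h2 := (hasDerivAt_u5 (y - d) (by linarith) (by linarith)).comp y ((hasDerivAt_id y).sub_const d)
  refine (h1.sub h2).congr_deriv ?_
  ring

theorem D_even (d y : ℝ) (h1 : -5 < y + d) (h2 : y + d < 5) (h3 : -5 < y - d) (h4 : y - d < 5) : D d (-y) = D d y := by
  have hodd : ∀ z, -5 < z → z < 5 → u 5 (-z) = - u 5 z := by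
    intro z hz hz'
    have hp := T54_pos z hz hz'
    rw [u5_eq z hp.ne', u5_eq (-z) (by rw [T54_neg]; exact hp.ne'), T54_neg, T53_neg]
    ring
  unfold D
  have e1 : -y + d = -(y - d) := by ring
  have e2 : -y - d = -(y + d) := by ring
  rw [e1, e2, hodd _ h3 h4, hodd _ h1 h2]
  ring

theorem D_mono (d : ℝ) (hd : 35 / 100 ≤ d) (y z : ℝ) (hy : 3 / 10 ≤ y) (hyz : y ≤ z) (hz : z + d < 5) : D d y ≤ D d z := by
  apply mono_of_hasDeriv (D d) (fun y => H 5 (y + d) - H 5 (y - d)) (3 / 10) z _ _ y z hy hyz le_rfl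
  · intro x hx hx'
    exact hasDerivAt_D d x (by linarith) (by linarith) (by linarith)
  · intro x hx hx'
    have : H 5 (x - d) ≤ H 5 (x + d) := by
      rw [← H5_abs (x - d)]
      apply H5_gap _ _ (abs_nonneg _) _ (by linarith)
      rcases abs_cases (x - d) with ⟨h, _⟩ | ⟨h, _⟩ <;> rw [h] <;> linarith
    linarith

theorem D_small (d : ℝ) (hd : 35 / 100 ≤ d) (hd2 : d ≤ 116 / 100) (y : ℝ) (hy : 0 ≤ y) (hyz : y ≤ 3 / 10) :
    D d y ≤ D d (3 / 10) + 17 / 10000 := by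
  have key : (fun x => D d x + 55 / 10000 * x) y ≤ (fun x => D d x + 55 / 10000 * x) (3 / 10) := by
    apply mono_of_hasDeriv (fun x => D d x + 55 / 10000 * x) (fun y => (H 5 (y + d) - H 5 (y - d)) + 55 / 10000) 0 (3 / 10) _ _ y (3 / 10) hy hyz le_rfl
    · intro x hx hx'
      refine ((hasDerivAt_D d x (by linarith) (by linarith) (by linarith)).add ((hasDerivAt_id x).const_mul (55 / 10000))).congr_deriv ?_
      ring
    · intro x hx hx'
      have : H 5 (x - d) - 55 / 10000 ≤ H 5 (x + d) := by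
        rw [← H5_abs (x - d)]
        apply H5_almost _ _ (abs_nonneg _) _ (by linarith)
        rcases abs_cases (x - d) with ⟨h, _⟩ | ⟨h, _⟩ <;> rw [h] <;> linarith
      linarith
  simp only at key
  linarith

theorem D_big (d : ℝ) (hd : 35 / 100 ≤ d) (hd2 : d ≤ 116 / 100) :
    D d (13 / 10) + 49 / 10000 ≤ D d (148 / 100) := by
  have key : (fun x => D d x - 275 / 10000 * x) (13 / 10) ≤ (fun x => D d x - 275 / 10000 * x) (148 / 100) := by
    apply mono_of_hasDeriv (fun x => D d x - 275 / 10000 * x) (fun y => (H 5 (y + d) - H 5 (y - d)) - 275 / 10000) (13 / 10) (148 / 100) _ _ (13 / 10) (148 / 100) le_rfl (by norm_num) le_rfl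
    · intro x hx hx'
      refine ((hasDerivAt_D d x (by linarith) (by linarith) (by linarith)).sub ((hasDerivAt_id x).const_mul (275 / 10000))).congr_deriv ?_
      ring
    · intro x hx hx'
      have h1 : H 5 (x - d) ≤ 5725 / 10000 := H5_up' _ (by linarith) (by linarith)
      have h2 : 600 / 1000 ≤ H 5 (x + d) := H5_v3.trans (H5_mono_b _ _ (by norm_num) (by linarith) (by linarith))
      linarith
  simp only at key
  linarith

theorem u5_two (c d x : ℝ) (hc : 0.89 ≤ c) (hc2 : c ≤ 1.16) (hd : 0.35 ≤ d) (hdc : d ≤ c)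
    (hx : 0 ≤ x) (hxc : x + c + d < 5) :
    0 ≤ u 5 (x + c + d) - u 5 (x + c - d) - u 5 (x - c + d) + u 5 (x - c - d) := by
  have hc' : (89 : ℝ) / 100 ≤ c := by norm_num at hc ⊢; linarith
  have hc2' : c ≤ (116 : ℝ) / 100 := by norm_num at hc2 ⊢; linarith
  have hd' : (35 : ℝ) / 100 ≤ d := by norm_num at hd ⊢; linarith
  have e : u 5 (x + c + d) - u 5 (x + c - d) - u 5 (x - c + d) + u 5 (x - c - d) = D d (x + c) - D d (x - c) := by
    unfold D; ring
  rw [e, sub_nonneg]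
  have e2 : D d (x - c) = D d |x - c| := by
    rcases abs_cases (x - c) with ⟨h, _⟩ | ⟨h, _⟩
    · rw [h]
    · rw [h, D_even d (x - c) (by linarith) (by linarith) (by linarith) (by linarith)]
  rw [e2]
  have habs : |x - c| ≤ x + c := by
    rcases abs_cases (x - c) with ⟨h, _⟩ | ⟨h, _⟩ <;> rw [h] <;> linarith
  rcases le_total |x - c| (3 / 10) with h | h
  · have hx2 : c - 3 / 10 ≤ x := by
      rcases abs_cases (x - c) with ⟨h1, _⟩ | ⟨h1, _⟩ <;> rw [h1] at h <;> linarith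
    have h1 := D_small d hd' (by linarith) _ (abs_nonneg _) h
    have h2 := D_mono d hd' (3 / 10) (13 / 10) le_rfl (by norm_num) (by linarith)
    have h3 := D_big d hd' (by linarith)
    have h4 := D_mono d hd' (148 / 100) (x + c) (by norm_num) (by linarith) hxc
    linarith
  · exact D_mono d hd' _ _ h habs hxc

end US.S4586
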