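import Pool.Agent.Helper70.US.Defs
set_option autoImplicit false
namespace US.S4587




noncomputable def A5 (x : ℝ) : ℝ := (2112) * x ^ 0 + (-480) * x ^ 2 + (60) * x ^ 4 + (-10) * x ^ 5
noncomputable def A4 (x : ℝ) : ℝ := (-192) * x ^ 1 + (48) * x ^ 3 + (-10) * x ^ 4
noncomputable def A3 (x : ℝ) : ℝ := (-48) * x ^ 0 + (36) * x ^ 2 + (-10) * x ^ 3
noncomputable def A2 (x : ℝ) : ℝ := (24) * x ^ 1 + (-10) * x ^ 2
noncomputable def B5 (x : ℝ) : ℝ := (1632) * x ^ 0 + (1200) * x ^ 1 + (-1680) * x ^ 2 + (600) * x ^ 3 + (-90) * x ^ 4 + (5) * x ^ 5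
noncomputable def B4 (x : ℝ) : ℝ := (240) * x ^ 0 + (-672) * x ^ 1 + (360) * x ^ 2 + (-72) * x ^ 3 + (5) * x ^ 4
noncomputable def B3 (x : ℝ) : ℝ := (-168) * x ^ 0 + (180) * x ^ 1 + (-54) * x ^ 2 + (5) * x ^ 3
noncomputable def B2 (x : ℝ) : ℝ := (60) * x ^ 0 + (-36) * x ^ 1 + (5) * x ^ 2

theorem posQA {x : ℝ} (h1 : 1 / 2 ≤ x) (h2 : x ≤ 2) :
    0 ≤ 300 * A3 x * A4 x * A5 x - 60 * A2 x * A5 x ^ 2 - 250 * A4 x ^ 3 := by
  have key : ∀ s t : ℝ, 0 ≤ s → 0 ≤ t → 0 ≤ (25616629345/256) * (t ^ 0 * s ^ 12) + (15786978225/8) * (t ^ 1 * s ^ 11) + (118799572965/8) * (t ^ 2 * s ^ 10) + (116769046625/2) * (t ^ 3 * s ^ 9) + 137596588875 * (t ^ 4 * s ^ 8) + 208560977640 * (t ^ 5 * s ^ 7) + 210763636800 * (t ^ 6 * s ^ 6) + 144191928960 * (t ^ 7 * s ^ 5) + 66968352000 * (t ^ 8 * s ^ 4) + 21081856000 * (t ^ 9 * s ^ 3) + 4516331520 * (t ^ 10 * s ^ 2) + 653721600 * (t ^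 11 * s ^ 1) + 52756480 * (t ^ 12 * s ^ 0) := by
    intro s t hs ht
    positivity
  have h := key (2 - x) (x - 1 / 2) (by linarith) (by linarith)
  have e : (25616629345/256) * ((x - 1 / 2) ^ 0 * (2 - x) ^ 12) + (15786978225/8) * ((x - 1 / 2) ^ 1 * (2 - x) ^ 11) + (118799572965/8) * ((x - 1 / 2) ^ 2 * (2 - x) ^ 10) + (116769046625/2) * ((x - 1 / 2) ^ 3 * (2 - x) ^ 9) + 137596588875 * ((x - 1 / 2) ^ 4 * (2 - x) ^ 8) + 208560977640 * ((x - 1 / 2) ^ 5 * (2 - x) ^ 7) + 210763636800 * ((x - 1 / 2) ^ 6 * (2 - x) ^ 6) + 144191928960 * ((x - 1 / 2) ^ 7 * (2 - x) ^ 5) + 66968352000 * ((x - 1 / 2) ^ 8 * (2 - x) ^ 4) + 21081856000 * ((x - 1 / 2) ^ 9 * (2 - x) ^ 3) + 4516331520 * ((x - 1 / 2) ^ 10 * (2 - x) ^ 2) + 653721600 * ((x - 1 / 2) ^ 11 * (2 - x) ^ 1) + 52756480 * ((x - 1 / 2) ^ 12 * (2 - x) ^ 0) =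
      (3 / 2) ^ 12 * (300 * A3 x * A4 x * A5 x - 60 * A2 x * A5 x ^ 2 - 250 * A4 x ^ 3) := by
    unfold A2 A3 A4 A5
    ring
  rw [e] at h
  exact nonneg_of_mul_nonneg_right h (by positivity)

theorem posQB {x : ℝ} (h1 : 2 ≤ x) (h2 : x ≤ 4) :
    0 ≤ 300 * B3 x * B4 x * B5 x - 60 * B2 x * B5 x ^ 2 - 250 * B4 x ^ 3 := by
  have key : ∀ s t : ℝ, 0 ≤ s → 0 ≤ t → 0 ≤ 52756480 * (t ^ 0 * s ^ 12) + 605552640 * (t ^ 1 * s ^ 11) + 2122383360 * (t ^ 2 * s ^ 10) + 3684761600 * (t ^ 3 * s ^ 9) + 3752755200 * (t ^ 4 * s ^ 8) + 2515599360 * (t ^ 5 * s ^ 7) + 1245511680 * (t ^ 6 * s ^ 6) + 511672320 * (t ^ 7 * s ^ 5) + 180633600 * (t ^ 8 * s ^ 4) + 49971200 * (t ^ 9 * s ^ 3) + 9338880 * (t ^ 10 * s ^ 2) + 983040 * (t ^ 11 * s ^ 1) + 40960 * (t ^ 12 * s ^ 0) := by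
    intro s t hs ht
    positivity
  have h := key (4 - x) (x - 2) (by linarith) (by linarith)
  have e : 52756480 * ((x - 2) ^ 0 * (4 - x) ^ 12) + 605552640 * ((x - 2) ^ 1 * (4 - x) ^ 11) + 2122383360 * ((x - 2) ^ 2 * (4 - x) ^ 10) + 3684761600 * ((x - 2) ^ 3 * (4 - x) ^ 9) + 3752755200 * ((x - 2) ^ 4 * (4 - x) ^ 8) + 2515599360 * ((x - 2) ^ 5 * (4 - x) ^ 7) + 1245511680 * ((x - 2) ^ 6 * (4 - x) ^ 6) + 511672320 * ((x - 2) ^ 7 * (4 - x) ^ 5) + 180633600 * ((x - 2) ^ 8 * (4 - x) ^ 4) + 49971200 * ((x - 2) ^ 9 * (4 - x) ^ 3) + 9338880 * ((x - 2) ^ 10 * (4 - x) ^ 2) + 983040 * ((x - 2) ^ 11 * (4 - x) ^ 1) + 40960 * ((x - 2) ^ 12 * (4 - x) ^ 0) =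
      2 ^ 12 * (300 * B3 x * B4 x * B5 x - 60 * B2 x * B5 x ^ 2 - 250 * B4 x ^ 3) := by
    unfold B2 B3 B4 B5
    ring
  rw [e] at h
  exact nonneg_of_mul_nonneg_right h (by positivity)

theorem posA5 {x : ℝ} (h1 : 0 ≤ x) (h2 : x ≤ 2) : 0 < A5 x := by
  have key : ∀ s t : ℝ, 0 ≤ s → 0 ≤ t → 26 * (s + t) ^ 5 ≤ 2112 * (t ^ 0 * s ^ 5) + 10560 * (t ^ 1 * s ^ 4) + 19200 * (t ^ 2 * s ^ 3) + 15360 * (t ^ 3 * s ^ 2) + 5760 * (t ^ 4 * s ^ 1) + 832 * (t ^ 5 * s ^ 0) := by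
    intro s t hs ht
    have : 0 ≤ 2086 * (t ^ 0 * s ^ 5) + 10430 * (t ^ 1 * s ^ 4) + 18940 * (t ^ 2 * s ^ 3) + 15100 * (t ^ 3 * s ^ 2) + 5630 * (t ^ 4 * s ^ 1) + 806 * (t ^ 5 * s ^ 0) := by positivity
    nlinarith [this]
  have h := key (2 - x) x (by linarith) (by linarith)
  have e : 2112 * (x ^ 0 * (2 - x) ^ 5) + 10560 * (x ^ 1 * (2 - x) ^ 4) + 19200 * (x ^ 2 * (2 - x) ^ 3) + 15360 * (x ^ 3 * (2 - x) ^ 2) + 5760 * (x ^ 4 * (2 - x) ^ 1) + 832 * (x ^ 5 * (2 - x) ^ 0) = 2 ^ 5 * A5 x := by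
    unfold A5
    ring
  rw [e] at h
  have e2 : 2 - x + x = 2 := by ring
  rw [e2] at h
  linarith

theorem posB5 {x : ℝ} (h1 : 2 ≤ x) (h2 : x ≤ 4) : 0 < B5 x := by
  have key : ∀ s t : ℝ, 0 ≤ s → 0 ≤ t → 1 * (s + t) ^ 5 ≤ 832 * (t ^ 0 * s ^ 5) + 2560 * (t ^ 1 * s ^ 4) + 2560 * (t ^ 2 * s ^ 3) + 1280 * (t ^ 3 * s ^ 2) + 320 * (t ^ 4 * s ^ 1) + 32 * (t ^ 5 * s ^ 0) := by
    intro s t hs ht
    have : 0 ≤ 831 * (t ^ 0 * s ^ 5) + 2555 * (t ^ 1 * s ^ 4) + 2550 * (t ^ 2 * s ^ 3) + 1270 * (t ^ 3 * s ^ 2) + 315 * (t ^ 4 * s ^ 1) + 31 * (t ^ 5 * s ^ 0) := by positivity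
    nlinarith [this]
  have h := key (4 - x) (x - 2) (by linarith) (by linarith)
  have e : 832 * ((x - 2) ^ 0 * (4 - x) ^ 5) + 2560 * ((x - 2) ^ 1 * (4 - x) ^ 4) + 2560 * ((x - 2) ^ 2 * (4 - x) ^ 3) + 1280 * ((x - 2) ^ 3 * (4 - x) ^ 2) + 320 * ((x - 2) ^ 4 * (4 - x) ^ 1) + 32 * ((x - 2) ^ 5 * (4 - x) ^ 0) = 2 ^ 5 * B5 x := by
    unfold B5
    ring
  rw [e] at h
  have e2 : 4 - x + (x - 2) = 2 := by ring
  rw [e2] at h
  linarith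

noncomputable def GA (x : ℝ) : ℝ := (25 * A4 x ^ 2 - 20 * A5 x * A3 x) / A5 x ^ 2
noncomputable def GB (x : ℝ) : ℝ := (25 * B4 x ^ 2 - 20 * B5 x * B3 x) / B5 x ^ 2

theorem GA_half {x : ℝ} (h1 : 0 ≤ x) (h2 : x ≤ 1 / 2) : GA x ≤ GA (1 / 2) := by
  have p1 := posA5 h1 (by linarith : x ≤ 2)
  have p2 := posA5 (x := 1 / 2) (by norm_num) (by norm_num)
  unfold GA
  rw [div_le_div_iff₀ (by positivity) (by positivity), ← sub_nonneg]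
  have key : ∀ s t : ℝ, 0 ≤ s → 0 ≤ t → 0 ≤ 7822132560 * (t ^ 0 * s ^ 10) + 78221325600 * (t ^ 1 * s ^ 9) + 488717085915 * (t ^ 2 * s ^ 8) + (7288749495255/4) * (t ^ 3 * s ^ 7) + (65092726052445/16) * (t ^ 4 * s ^ 6) + (360069616915515/64) * (t ^ 5 * s ^ 5) + (1250069253592875/256) * (t ^ 6 * s ^ 4) + (1329822968099355/512) * (t ^ 7 * s ^ 3) + (12709497926438755/16384) * (t ^ 8 * s ^ 2) + (817862125097815/8192) * (t ^ 9 * s ^ 1) := by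
    intro s t hs ht
    positivity
  have h := key (1 / 2 - x) x (by linarith) h1
  have e : 7822132560 * (x ^ 0 * (1 / 2 - x) ^ 10) + 78221325600 * (x ^ 1 * (1 / 2 - x) ^ 9) + 488717085915 * (x ^ 2 * (1 / 2 - x) ^ 8) + (7288749495255/4) * (x ^ 3 * (1 / 2 - x) ^ 7) + (65092726052445/16) * (x ^ 4 * (1 / 2 - x) ^ 6) + (360069616915515/64) * (x ^ 5 * (1 / 2 - x) ^ 5) + (1250069253592875/256) * (x ^ 6 * (1 / 2 - x) ^ 4) + (1329822968099355/512) * (x ^ 7 * (1 / 2 - x) ^ 3) + (12709497926438755/16384) * (x ^ 8 * (1 / 2 - x) ^ 2) + (817862125097815/8192) * (x ^ 9 * (1 / 2 - x) ^ 1) =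
      (1 / 2) ^ 10 * ((25 * A4 (1 / 2) ^ 2 - 20 * A5 (1 / 2) * A3 (1 / 2)) * A5 x ^ 2 -
        (25 * A4 x ^ 2 - 20 * A5 x * A3 x) * A5 (1 / 2) ^ 2) := by
    unfold A3 A4 A5
    ring
  rw [e] at h
  exact nonneg_of_mul_nonneg_right h (by positivity)

theorem mono_piece (a5 a4 a3 a2 : ℝ → ℝ) (l u : ℝ) (h5 : ∀ x, HasDerivAt a5 (5 * a4 x) x)
    (h4 : ∀ x, HasDerivAt a4 (4 * a3 x) x) (h3 : ∀ x, HasDerivAt a3 (3 * a2 x) x)
    (hpos : ∀ x ∈ Set.Icc l u, 0 < a5 x)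
    (hQ : ∀ x ∈ Set.Icc l u, 0 ≤ 300 * a3 x * a4 x * a5 x - 60 * a2 x * a5 x ^ 2 - 250 * a4 x ^ 3) :
    MonotoneOn (fun x => (25 * a4 x ^ 2 - 20 * a5 x * a3 x) / a5 x ^ 2) (Set.Icc l u) := by
  have hd : ∀ x ∈ Set.Icc l u, HasDerivAt (fun x => (25 * a4 x ^ 2 - 20 * a5 x * a3 x) / a5 x ^ 2)
      ((300 * a3 x * a4 x * a5 x - 60 * a2 x * a5 x ^ 2 - 250 * a4 x ^ 3) / a5 x ^ 3) x := by
    intro x hx
    have hp := (hpos x hx).ne'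
    have e1 := ((h4 x).pow 2).const_mul 25
    have e2 := ((h5 x).const_mul 20).mul (h3 x)
    have e3 := (h5 x).pow 2
    have e4 := (e1.sub e2).div e3 (pow_ne_zero 2 hp)
    refine e4.congr_deriv ?_
    simp only [Pi.pow_apply, Pi.sub_apply, Pi.mul_apply]
    field_simp
    push_cast
    ring
  refine monotoneOn_of_deriv_nonneg (convex_Icc l u) ?_ ?_ ?_
  · exact fun x hx => (hd x hx).continuousAt.continuousWithinAt
  · exact fun x hx => (hd x (interior_subset hx)).differentiableAt.differentiableWithinAt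
  · intro x hx
    have hx' := interior_subset hx
    rw [(hd x hx').deriv]
    exact div_nonneg (hQ x hx') (pow_nonneg (hpos x hx').le 3)

theorem hdA5 (x : ℝ) : HasDerivAt A5 (5 * A4 x) x := by
  have h := (((((hasDerivAt_pow 0 x).const_mul (2112:ℝ)).add ((hasDerivAt_pow 2 x).const_mul (-480:ℝ))).add
    ((hasDerivAt_pow 4 x).const_mul (60:ℝ))).add ((hasDerivAt_pow 5 x).const_mul (-10:ℝ)))
  refine h.congr_deriv ?_
  unfold A4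
  norm_num
  ring

theorem hdA4 (x : ℝ) : HasDerivAt A4 (4 * A3 x) x := by
  have h := ((((hasDerivAt_pow 1 x).const_mul (-192:ℝ)).add ((hasDerivAt_pow 3 x).const_mul (48:ℝ))).add
    ((hasDerivAt_pow 4 x).const_mul (-10:ℝ)))
  refine h.congr_deriv ?_
  unfold A3
  norm_num
  ring

theorem hdA3 (x : ℝ) : HasDerivAt A3 (3 * A2 x) x := by
  have h := ((((hasDerivAt_pow 0 x).const_mul (-48:ℝ)).add ((hasDerivAt_pow 2 x).const_mul (36:ℝ))).add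
    ((hasDerivAt_pow 3 x).const_mul (-10:ℝ)))
  refine h.congr_deriv ?_
  unfold A2
  norm_num
  ring

theorem hdB5 (x : ℝ) : HasDerivAt B5 (5 * B4 x) x := by
  have h := (((((((hasDerivAt_pow 0 x).const_mul (1632:ℝ)).add ((hasDerivAt_pow 1 x).const_mul (1200:ℝ))).add
    ((hasDerivAt_pow 2 x).const_mul (-1680:ℝ))).add
    ((hasDerivAt_pow 3 x).const_mul (600:ℝ))).add ((hasDerivAt_pow 4 x).const_mul (-90:ℝ))).add
    ((hasDerivAt_pow 5 x).const_mul (5:ℝ)))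
  refine h.congr_deriv ?_
  unfold B4
  norm_num
  ring

theorem hdB4 (x : ℝ) : HasDerivAt B4 (4 * B3 x) x := by
  have h := ((((((hasDerivAt_pow 0 x).const_mul (240:ℝ)).add ((hasDerivAt_pow 1 x).const_mul (-672:ℝ))).add
    ((hasDerivAt_pow 2 x).const_mul (360:ℝ))).add
    ((hasDerivAt_pow 3 x).const_mul (-72:ℝ))).add ((hasDerivAt_pow 4 x).const_mul (5:ℝ)))
  refine h.congr_deriv ?_
  unfold B3
  norm_num
  ring

theorem hdB3 (x : ℝ) : HasDerivAt B3 (3 * B2 x) x := by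
  have h := (((((hasDerivAt_pow 0 x).const_mul (-168:ℝ)).add ((hasDerivAt_pow 1 x).const_mul (180:ℝ))).add
    ((hasDerivAt_pow 2 x).const_mul (-54:ℝ))).add
    ((hasDerivAt_pow 3 x).const_mul (5:ℝ)))
  refine h.congr_deriv ?_
  unfold B2
  norm_num
  ring

theorem monoA : MonotoneOn GA (Set.Icc (1 / 2) 2) :=
  mono_piece A5 A4 A3 A2 (1 / 2) 2 hdA5 hdA4 hdA3
    (fun x hx => posA5 (by linarith [hx.1]) hx.2) (fun x hx => posQA hx.1 hx.2)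

theorem monoB : MonotoneOn GB (Set.Icc 2 4) :=
  mono_piece B5 B4 B3 B2 2 4 hdB5 hdB4 hdB3
    (fun x hx => posB5 hx.1 hx.2) (fun x hx => posQB hx.1 hx.2)

theorem H_eq (x : ℝ) : H 6 x = (25 * T 6 4 x ^ 2 - 20 * T 6 5 x * T 6 3 x) / T 6 5 x ^ 2 := by
  unfold H Bd
  by_cases h : T 6 5 x = 0
  · simp [h]
  · simp only [show 6 - 1 - 0 = 5 from rfl, show 6 - 1 - 1 = 4 from rfl, show 6 - 1 - 2 = 3 from rfl,
      show Nat.factorial 5 = 120 from rfl, show Nat.factorial 4 = 24 from rfl,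
      show Nat.factorial 3 = 6 from rfl]
    push_cast
    field_simp
    ring

theorem T_expand (p : ℕ) (x : ℝ) : T 6 p x = (max 0 (x + 6)) ^ p - 6 * (max 0 (x + 4)) ^ p +
    15 * (max 0 (x + 2)) ^ p - 20 * (max 0 x) ^ p + 15 * (max 0 (x - 2)) ^ p
    - 6 * (max 0 (x - 4)) ^ p + (max 0 (x - 6)) ^ p := by
  unfold T
  simp only [Finset.sum_range_succ, Finset.sum_range_zero,
    show Nat.choose 6 0 = 1 from rfl, show Nat.choose 6 1 = 6 from rfl,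
    show Nat.choose 6 2 = 15 from rfl, show Nat.choose 6 3 = 20 from rfl,
    show Nat.choose 6 4 = 15 from rfl, show Nat.choose 6 5 = 6 from rfl,
    show Nat.choose 6 6 = 1 from rfl]
  push_cast
  have e0 : x + 6 - 2 * 0 = x + 6 := by ring
  have e1 : x + 6 - 2 * 1 = x + 4 := by ring
  have e2 : x + 6 - 2 * 2 = x + 2 := by ring
  have e3 : x + 6 - 2 * 3 = x := by ring
  have e4 : x + 6 - 2 * 4 = x - 2 := by ring
  have e5 : x + 6 - 2 * 5 = x - 4 := by ring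
  have e6 : x + 6 - 2 * 6 = x - 6 := by ring
  rw [e0, e1, e2, e3, e4, e5, e6]
  ring

theorem T_pieceA (p : ℕ) (hp : p ≠ 0) {x : ℝ} (h1 : 0 ≤ x) (h2 : x ≤ 2) :
    T 6 p x = (x + 6) ^ p - 6 * (x + 4) ^ p + 15 * (x + 2) ^ p - 20 * x ^ p := by
  rw [T_expand, max_eq_right (by linarith : (0:ℝ) ≤ x + 6), max_eq_right (by linarith : (0:ℝ) ≤ x + 4),
    max_eq_right (by linarith : (0:ℝ) ≤ x + 2), max_eq_right h1,
    max_eq_left (by linarith : x - 2 ≤ 0), max_eq_left (by linarith : x - 4 ≤ 0),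
    max_eq_left (by linarith : x - 6 ≤ 0), zero_pow hp]
  ring

theorem T_pieceN (p : ℕ) (hp : p ≠ 0) {x : ℝ} (h1 : 0 ≤ x) (h2 : x ≤ 2) :
    T 6 p (-x) = (6 - x) ^ p - 6 * (4 - x) ^ p + 15 * (2 - x) ^ p := by
  rw [T_expand, max_eq_right (by linarith : (0:ℝ) ≤ -x + 6), max_eq_right (by linarith : (0:ℝ) ≤ -x + 4),
    max_eq_right (by linarith : (0:ℝ) ≤ -x + 2), max_eq_left (by linarith : -x ≤ 0),
    max_eq_left (by linarith : -x - 2 ≤ 0), max_eq_left (by linarith : -x - 4 ≤ 0),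
    max_eq_left (by linarith : -x - 6 ≤ 0), zero_pow hp]
  have e0 : -x + 6 = 6 - x := by ring
  have e1 : -x + 4 = 4 - x := by ring
  have e2 : -x + 2 = 2 - x := by ring
  rw [e0, e1, e2]
  ring

theorem T_pieceB (p : ℕ) (hp : p ≠ 0) {x : ℝ} (h1 : 2 ≤ x) (h2 : x ≤ 4) :
    T 6 p x = (x + 6) ^ p - 6 * (x + 4) ^ p + 15 * (x + 2) ^ p - 20 * x ^ p + 15 * (x - 2) ^ p := by
  rw [T_expand, max_eq_right (by linarith : (0:ℝ) ≤ x + 6), max_eq_right (by linarith : (0:ℝ) ≤ x + 4),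
    max_eq_right (by linarith : (0:ℝ) ≤ x + 2), max_eq_right (by linarith : (0:ℝ) ≤ x),
    max_eq_right (by linarith : 0 ≤ x - 2), max_eq_left (by linarith : x - 4 ≤ 0),
    max_eq_left (by linarith : x - 6 ≤ 0), zero_pow hp]
  ring

theorem T_pieceC (p : ℕ) (hp : p ≠ 0) {x : ℝ} (h1 : 4 ≤ x) (h2 : x < 6) :
    T 6 p x = (x + 6) ^ p - 6 * (x + 4) ^ p + 15 * (x + 2) ^ p - 20 * x ^ p + 15 * (x - 2) ^ p
      - 6 * (x - 4) ^ p := by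
  rw [T_expand, max_eq_right (by linarith : (0:ℝ) ≤ x + 6), max_eq_right (by linarith : (0:ℝ) ≤ x + 4),
    max_eq_right (by linarith : (0:ℝ) ≤ x + 2), max_eq_right (by linarith : (0:ℝ) ≤ x),
    max_eq_right (by linarith : 0 ≤ x - 2), max_eq_right (by linarith : 0 ≤ x - 4),
    max_eq_left (by linarith : x - 6 ≤ 0), zero_pow hp]
  ring

theorem H_A {x : ℝ} (h1 : 0 ≤ x) (h2 : x ≤ 2) : H 6 x = GA x := by
  have e5 : T 6 5 x = A5 x := by rw [T_pieceA 5 (by norm_num) h1 h2]; unfold A5; ring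
  have e4 : T 6 4 x = A4 x := by rw [T_pieceA 4 (by norm_num) h1 h2]; unfold A4; ring
  have e3 : T 6 3 x = A3 x := by rw [T_pieceA 3 (by norm_num) h1 h2]; unfold A3; ring
  rw [H_eq, e5, e4, e3]; rfl

theorem H_N {x : ℝ} (h1 : 0 ≤ x) (h2 : x ≤ 2) : H 6 (-x) = GA x := by
  have e5 : T 6 5 (-x) = A5 x := by rw [T_pieceN 5 (by norm_num) h1 h2]; unfold A5; ring
  have e4 : T 6 4 (-x) = -A4 x := by rw [T_pieceN 4 (by norm_num) h1 h2]; unfold A4; ring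
  have e3 : T 6 3 (-x) = A3 x := by rw [T_pieceN 3 (by norm_num) h1 h2]; unfold A3; ring
  rw [H_eq, e5, e4, e3, neg_sq]; rfl

theorem H_B {x : ℝ} (h1 : 2 ≤ x) (h2 : x ≤ 4) : H 6 x = GB x := by
  have e5 : T 6 5 x = B5 x := by rw [T_pieceB 5 (by norm_num) h1 h2]; unfold B5; ring
  have e4 : T 6 4 x = B4 x := by rw [T_pieceB 4 (by norm_num) h1 h2]; unfold B4; ring
  have e3 : T 6 3 x = B3 x := by rw [T_pieceB 3 (by norm_num) h1 h2]; unfold B3; ring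
  rw [H_eq, e5, e4, e3]; rfl

theorem H_C {x : ℝ} (h1 : 4 ≤ x) (h2 : x < 6) : H 6 x = 5 / (6 - x) ^ 2 := by
  have e5 : T 6 5 x = (6 - x) ^ 5 := by rw [T_pieceC 5 (by norm_num) h1 h2]; ring
  have e4 : T 6 4 x = -(6 - x) ^ 4 := by rw [T_pieceC 4 (by norm_num) h1 h2]; ring
  have e3 : T 6 3 x = (6 - x) ^ 3 := by rw [T_pieceC 3 (by norm_num) h1 h2]; ring
  have h : 6 - x ≠ 0 := by intro h; linarith
  rw [H_eq, e5, e4, e3]
  field_simp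
  ring

theorem mA {y s : ℝ} (h1 : 1 / 2 ≤ y) (h2 : y ≤ s) (h3 : s ≤ 2) : H 6 y ≤ H 6 s := by
  rw [H_A (by linarith) (by linarith), H_A (by linarith) h3]
  exact monoA ⟨h1, by linarith⟩ ⟨by linarith, h3⟩ h2

theorem mB {y s : ℝ} (h1 : 2 ≤ y) (h2 : y ≤ s) (h3 : s ≤ 4) : H 6 y ≤ H 6 s := by
  rw [H_B h1 (by linarith), H_B (by linarith) h3]
  exact monoB ⟨h1, by linarith⟩ ⟨by linarith, h3⟩ h2

theorem mC {y s : ℝ} (h1 : 4 ≤ y) (h2 : y ≤ s) (h3 : s < 6) : H 6 y ≤ H 6 s := by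
  rw [H_C h1 (by linarith), H_C (by linarith) h3]
  have p1 : 0 < 6 - s := by linarith
  have p2 : 6 - s ≤ 6 - y := by linarith
  exact div_le_div_of_nonneg_left (by norm_num) (by positivity) (pow_le_pow_left₀ p1.le p2 2)

theorem m_all {y s : ℝ} (h1 : 1 / 2 ≤ y) (h2 : y ≤ s) (h3 : s < 6) : H 6 y ≤ H 6 s := by
  by_cases hs2 : s ≤ 2
  · exact mA h1 h2 hs2
  · have hs2' : 2 ≤ s := (not_le.1 hs2).le
    by_cases hs4 : s ≤ 4
    · by_cases hy2 : y ≤ 2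
      · exact (mA h1 hy2 le_rfl).trans (mB le_rfl hs2' hs4)
      · exact mB (not_le.1 hy2).le h2 hs4
    · have hs4' : 4 ≤ s := (not_le.1 hs4).le
      by_cases hy2 : y ≤ 2
      · exact ((mA h1 hy2 le_rfl).trans (mB le_rfl (by norm_num) le_rfl)).trans (mC le_rfl hs4' h3)
      · by_cases hy4 : y ≤ 4
        · exact (mB (not_le.1 hy2).le hy4 le_rfl).trans (mC le_rfl hs4' h3)
        · exact mC (not_le.1 hy4).le h2 h3

theorem m_nonneg {y s : ℝ} (h0 : 0 ≤ y) (h1 : 1 / 2 ≤ s) (h2 : y ≤ s) (h3 : s < 6) :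
    H 6 y ≤ H 6 s := by
  by_cases hy : 1 / 2 ≤ y
  · exact m_all hy h2 h3
  · have hy' : y ≤ 1 / 2 := (not_le.1 hy).le
    have a1 : H 6 y ≤ H 6 (1 / 2) := by
      rw [H_A h0 (by linarith), H_A (by norm_num) (by norm_num)]
      exact GA_half h0 hy'
    exact a1.trans (m_all le_rfl h1 h3)

theorem H6_mono (c x : ℝ) (hc : 0.5 ≤ c) (hc2 : c ≤ 1.75) (hx : 0 ≤ x) (hxc : x + c < 6) :
    H 6 (x - c) ≤ H 6 (x + c) := by
  norm_num at hc hc2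
  by_cases h : 0 ≤ x - c
  · exact m_nonneg h (by linarith) (by linarith) hxc
  · have h' : x - c ≤ 0 := (not_le.1 h).le
    have e : H 6 (x - c) = H 6 (c - x) := by
      have := H_N (x := c - x) (by linarith) (by linarith)
      rw [neg_sub] at this
      rw [this, H_A (by linarith) (by linarith)]
    rw [e]
    exact m_nonneg (by linarith) (by linarith) (by linarith) hxc

end US.S4587
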