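import Pool.Agent.Helper70.US.F9
import Pool.Agent.Helper70.US.S4584
import Pool.Agent.Helper70.US.S4585
import Pool.Agent.Helper70.US.S4586
import Pool.Agent.Helper70.US.S4587
set_option autoImplicit false
open MeasureTheory intervalIntegral Set
namespace US
open S4691

/-- the case of a large weight -/
theorem large_weight {n : ℕ} (h2 : 2 ≤ n) {M E : ℝ} (hM : 0 < M)
    (hscalar : ∀ b : ℝ, M ≤ b → b ^ 2 ≤ n → ∃ lam > 0,
      Real.log (2 * b) + 0.824 / (lam * b) + lam * (n - b ^ 2) / (12 * b) ≤ E)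
    (hE : E ≤ hn n) (a : Fin n → ℝ) (ha0 : ∀ i, 0 ≤ a i) (hs : ∑ i, a i ^ 2 = 1)
    (hbig : ∃ i, M ≤ Real.sqrt n * a i) :
    ent a ≤ ent (fun _ : Fin n => 1 / Real.sqrt n) := by
  obtain ⟨i, hi⟩ := hbig
  have hn0 : (0:ℝ) < n := by exact_mod_cast (by omega : 0 < n)
  have hsn : 0 < Real.sqrt n := Real.sqrt_pos.2 hn0
  have h1 : (Real.sqrt n * a i) ^ 2 ≤ n := by
    rw [mul_pow, Real.sq_sqrt hn0.le]
    have : a i ^ 2 ≤ ∑ i, a i ^ 2 :=
      Finset.single_le_sum (f := fun i => a i ^ 2) (fun j _ => sq_nonneg _) (Finset.mem_univ i)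
    rw [hs] at this
    nlinarith
  obtain ⟨lam, hl, hle⟩ := hscalar _ hi h1
  have h2' := ent_LW h2 a ha0 hs i rfl (lt_of_lt_of_le hM hi) hl
  rw [ent_const n h2 (1 / Real.sqrt n) (by positivity)]
  have h4 : Real.log (1 / Real.sqrt n) = - Real.log (Real.sqrt n) := by
    rw [one_div, Real.log_inv]
  rw [h4]
  linarith

theorem foldr_one {φ : ℝ → ℝ} (hφ : Continuous φ) {l' : List ℝ} {c : ℝ} (hc : c ∈ l')
    (h0 : ∀ x ∈ l', 0 ≤ x) (hcls : Cls (A c φ)) : Cls (l'.foldr A φ) := by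
  have hperm : l'.Perm (l'.erase c ++ [c]) :=
    (List.perm_cons_erase hc).trans (List.perm_append_singleton c (l'.erase c)).symm
  rw [foldr_perm hφ hperm, List.foldr_append]
  simp only [List.foldr_cons, List.foldr_nil]
  exact hcls.foldr _ (fun x hx => h0 x (List.mem_of_mem_erase hx))

theorem foldr_two {φ : ℝ → ℝ} (hφ : Continuous φ) {l' l'' : List ℝ} {c d : ℝ}
    (hp : l'.Perm (c :: d :: l'')) (h0 : ∀ x ∈ l', 0 ≤ x) (hcls : Cls (A c (A d φ))) :
    Cls (l'.foldr A φ) := by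
  have hperm : l'.Perm (l'' ++ [c, d]) := by
    refine hp.trans ?_
    exact (List.perm_append_comm (l₁ := [c, d]) (l₂ := l''))
  rw [foldr_perm hφ hperm, List.foldr_append]
  simp only [List.foldr_cons, List.foldr_nil]
  exact hcls.foldr _ (fun x hx => h0 x (hperm.mem_iff.2 (List.mem_append_left _ hx)))

theorem ssq_le_of_le {l : List ℝ} {c : ℝ} (h0 : ∀ x ∈ l, 0 ≤ x) (h : ∀ x ∈ l, x ≤ c) :
    ssq l ≤ l.length * c ^ 2 := by
  induction l with
  | nil => simp [ssq]
  | cons b l ih =>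
    rw [ssq_cons]
    have := ih (fun x hx => h0 x (List.mem_cons_of_mem _ hx)) (fun x hx => h x (List.mem_cons_of_mem _ hx))
    have hb0 := h0 b List.mem_cons_self
    have hb1 := h b List.mem_cons_self
    simp only [List.length_cons, Nat.cast_add, Nat.cast_one]
    nlinarith

/-- max of the rest: bounds -/
theorem rest_max {n : ℕ} {M a b : ℝ} {l' : List ℝ} (hb0 : 0 ≤ b) (haM : a ≤ M) (ha : 1 < a)
    (hlen : l'.length + 2 = n) (hne : l' ≠ []) (hl' : ∀ x ∈ l', b ≤ x ∧ x ≤ a)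
    (hs : a ^ 2 + b ^ 2 + ssq l' = n) :
    ∃ c ∈ l', (∀ x ∈ l', x ≤ c) ∧ (n:ℝ) - M ^ 2 ≤ (n - 1) * c ^ 2 ∧ 2 * c ^ 2 ≤ n ∧ 0 ≤ c := by
  obtain ⟨c, hc, hmax⟩ := exists_max l' hne
  have hc0 : 0 ≤ c := hb0.trans (hl' c hc).1
  refine ⟨c, hc, hmax, ?_, ?_, hc0⟩
  · have h1 := ssq_le_of_le (fun x hx => hb0.trans (hl' x hx).1) hmax
    have h2 : b ^ 2 ≤ c ^ 2 := by nlinarith [(hl' c hc).1]
    have h3 : a ^ 2 ≤ M ^ 2 := by nlinarith
    have h4 : (l'.length : ℝ) = n - 2 := by rw [← hlen]; push_cast; ring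
    rw [h4] at h1
    nlinarith
  · have h1 := ssq_perm (List.perm_cons_erase hc)
    rw [ssq_cons] at h1
    have h2 := ssq_nonneg (l'.erase c)
    have h3 : c ^ 2 ≤ a ^ 2 := by nlinarith [(hl' c hc).2]
    nlinarith [sq_nonneg b]

theorem small_assemble {n : ℕ} (h4 : 4 ≤ n) (K1 M E : ℝ) (hK1 : K1 < n) (hM1 : 1 ≤ M)
    (hgood : ∀ K : ℝ, K1 ≤ K → (n:ℝ) - 2 ≤ K → K < n → ∀ (a b : ℝ) (l' : List ℝ), 0 ≤ b → b < 1 →
      1 < a → a ≤ M → l'.length + 2 = n → (∀ x ∈ l', b ≤ x ∧ x ≤ a) → a ^ 2 + b ^ 2 + ssq l' = n →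
      Cls (l'.foldr A (phK n K)))
    (hscalar : ∀ b : ℝ, M ≤ b → b ^ 2 ≤ n → ∃ lam > 0,
      Real.log (2 * b) + 0.824 / (lam * b) + lam * (n - b ^ 2) / (12 * b) ≤ E)
    (hE : E ≤ hn n) (a : Fin n → ℝ) (ha0 : ∀ i, 0 ≤ a i) (hs : ∑ i, a i ^ 2 = 1) :
    ent a ≤ ent (fun _ : Fin n => 1 / Real.sqrt n) := by
  by_cases hbig : ∃ i, M ≤ Real.sqrt n * a i
  · exact large_weight (by omega) (by linarith) hscalar hE a ha0 hs hbig
  push Not at hbig
  apply assemble h4 K1 M hK1 _ a ha0 hs (fun i => (hbig i).le)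
  intro K hK hK2 hKn l hlen h0 hle hss
  have hn4 : (4:ℝ) ≤ n := by exact_mod_cast h4
  exact chain_cls (phK_cont h4 (by linarith) hKn) n M hM1 (hgood K hK hK2 hKn) l hlen h0 hle hss

/-- n = 6 -/
theorem main6 (hE : (1.757:ℝ) ≤ hn 6) (hscalar : ∀ b : ℝ, 2.1 ≤ b → b ^ 2 ≤ 6 → ∃ lam > 0,
      Real.log (2 * b) + 0.824 / (lam * b) + lam * (6 - b ^ 2) / (12 * b) ≤ 1.757)
    (a : Fin 6 → ℝ) (ha0 : ∀ i, 0 ≤ a i) (hs : ∑ i, a i ^ 2 = 1) :
    ent a ≤ ent (fun _ : Fin 6 => 1 / Real.sqrt (6 : ℕ)) := by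
  apply small_assemble (n := 6) (by norm_num) 0 2.1 1.757 (by norm_num) (by norm_num) _
    (by exact_mod_cast hscalar) hE a ha0 hs
  intro K hK1 hK2 hKn a b l' hb0 hb ha haM hlen hl' hs'
  push_cast at hK2 hKn
  have hne : l' ≠ [] := by rintro rfl; simp at hlen
  obtain ⟨c, hc, hmax, h1, h2, hc0⟩ := rest_max hb0 haM ha hlen hne hl' hs'
  have hc5 : 0.5 ≤ c := by norm_num at h1 ⊢; nlinarith
  have hn6 : (4:ℕ) ≤ 6 := by norm_num
  have hKn' : K < ((6:ℕ):ℝ) := by push_cast; exact hKn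
  apply foldr_one (phK_cont hn6 (by linarith) hKn') hc (fun x hx => hb0.trans (hl' x hx).1)
  apply cls_A_phK hn6 (by linarith) hKn' (by linarith)
  intro x hx
  unfold HK
  rw [abs_of_nonneg (by linarith : 0 ≤ x + c)]
  apply S4587.m_nonneg (le_min (abs_nonneg _) (by linarith)) (le_min (by linarith) (by linarith))
  · apply min_le_min_right
    rw [abs_le]; constructor <;> linarith
  · exact lt_of_le_of_lt (min_le_right _ _) (by linarith)

/-- n = 4 -/
theorem main4 (hE : (1.555:ℝ) ≤ hn 4) (hscalar : ∀ b : ℝ, 1.7 ≤ b → b ^ 2 ≤ 4 → ∃ lam > 0,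
      Real.log (2 * b) + 0.824 / (lam * b) + lam * (4 - b ^ 2) / (12 * b) ≤ 1.555)
    (a : Fin 4 → ℝ) (ha0 : ∀ i, 0 ≤ a i) (hs : ∑ i, a i ^ 2 = 1) :
    ent a ≤ ent (fun _ : Fin 4 => 1 / Real.sqrt (4 : ℕ)) := by
  apply small_assemble (n := 4) (by norm_num) 3.8 1.7 1.555 (by norm_num) (by norm_num) _
    (by exact_mod_cast hscalar) hE a ha0 hs
  intro K hK1 hK2 hKn a b l' hb0 hb ha haM hlen hl' hs'
  push_cast at hK2 hKn
  have hne : l' ≠ [] := by rintro rfl; simp at hlen
  obtain ⟨c, hc, hmax, h1, h2, hc0⟩ := rest_max hb0 haM ha hlen hne hl' hs'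
  have hc5 : 0.6 ≤ c := by norm_num at h1 ⊢; nlinarith
  have hc6 : c ≤ 1.42 := by norm_num at h2 ⊢; nlinarith
  have hn6 : (4:ℕ) ≤ 4 := le_rfl
  have hKn' : K < ((4:ℕ):ℝ) := by push_cast; exact hKn
  norm_num at hK1
  apply foldr_one (phK_cont hn6 (by linarith) hKn') hc (fun x hx => hb0.trans (hl' x hx).1)
  apply cls_A_phK hn6 (by linarith) hKn' (by linarith)
  intro x hx
  unfold HK
  rw [abs_of_nonneg (by linarith : 0 ≤ x + c)]
  have habs : |x - c| ≤ x + c := by rw [abs_le]; constructor <;> linarith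
  rcases le_or_gt (x + c) K with h | h
  · rw [min_eq_left h, min_eq_left (habs.trans h), H_abs 4 le_rfl]
    exact S4584.H4_mono c x hc5 hc6 hx (by linarith)
  · rw [min_eq_right h.le]
    have hu0 : 0 ≤ min |x - c| K := le_min (abs_nonneg _) (by linarith)
    apply S4584.main_uv hu0 (min_le_right _ _) _ (by linarith)
    · intro _ _; norm_num; linarith
    · norm_num; linarith

theorem H5_cmp {K s t : ℝ} (hK : 4.5 ≤ K) (hKn : K < 5) (ht0 : 0 ≤ t) (hts : t + 6 / 10 ≤ s) :
    H 5 (min t K) ≤ H 5 (min s K) := by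
  norm_num at hK
  rcases le_or_gt s K with h | h
  · rw [min_eq_left h, min_eq_left (by linarith)]
    exact S4586.H5_gap s t ht0 hts (by linarith)
  · rw [min_eq_right h.le]
    by_cases h2 : min t K + 6 / 10 ≤ K
    · exact S4586.H5_gap K (min t K) (le_min ht0 (by linarith)) h2 hKn
    · push Not at h2
      exact S4586.H5_mono_b K (min t K) (by linarith) (min_le_right _ _) hKn

/-- n = 5 -/
theorem main5 (hE : (1.67:ℝ) ≤ hn 5) (hscalar : ∀ b : ℝ, 1.8 ≤ b → b ^ 2 ≤ 5 → ∃ lam > 0,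
      Real.log (2 * b) + 0.824 / (lam * b) + lam * (5 - b ^ 2) / (12 * b) ≤ 1.67)
    (a : Fin 5 → ℝ) (ha0 : ∀ i, 0 ≤ a i) (hs : ∑ i, a i ^ 2 = 1) :
    ent a ≤ ent (fun _ : Fin 5 => 1 / Real.sqrt (5 : ℕ)) := by
  apply small_assemble (n := 5) (by norm_num) 4.5 1.8 1.67 (by norm_num) (by norm_num) _
    (by exact_mod_cast hscalar) hE a ha0 hs
  intro K hK1 hK2 hKn a b l' hb0 hb ha haM hlen hl' hs'
  push_cast at hK2 hKn
  have hne : l' ≠ [] := by rintro rfl; simp at hlen
  obtain ⟨c, hc, hmax, h1, h2, hc0⟩ := rest_max hb0 haM ha hlen hne hl' hs'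
  have hc5 : 0.6 ≤ c := by norm_num at h1 ⊢; nlinarith
  have hc6 : c ≤ 1.6 := by norm_num at h2 ⊢; nlinarith
  have hn6 : (4:ℕ) ≤ 5 := by norm_num
  have hKn' : K < ((5:ℕ):ℝ) := by push_cast; exact hKn
  have hK45 : (4.5:ℝ) ≤ K := hK1
  norm_num at hK1
  norm_num at hc5
  have hcpos : 0 < c := by linarith
  by_cases hcase : c ≤ 0.9 ∨ 1.15 ≤ c
  · apply foldr_one (phK_cont hn6 (by linarith) hKn') hc (fun x hx => hb0.trans (hl' x hx).1)
    apply cls_A_phK hn6 (by linarith) hKn' (by linarith)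
    intro x hx
    unfold HK
    rw [abs_of_nonneg (by linarith : 0 ≤ x + c)]
    have habs : |x - c| ≤ x + c := by rw [abs_le]; constructor <;> linarith
    rcases le_or_gt (x + c) K with h | h
    · rw [min_eq_left h, min_eq_left (habs.trans h), H_abs 5 (by norm_num)]
      apply S4585.H5_mono c x _ hx (by linarith)
      rcases hcase with h | h
      · left; exact ⟨by norm_num; linarith, h⟩
      · right; exact ⟨h, hc6⟩
    · rw [min_eq_right h.le]
      have hu0 : 0 ≤ min |x - c| K := le_min (abs_nonneg _) (by linarith)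
      by_cases h2 : min |x - c| K + 6 / 10 ≤ K
      · exact S4586.H5_gap K _ hu0 h2 hKn
      · push Not at h2
        exact S4586.H5_mono_b K _ (by linarith) (min_le_right _ _) hKn
  · push Not at hcase
    obtain ⟨hc9, hc115⟩ := hcase
    have hperm1 : l'.Perm (c :: l'.erase c) := List.perm_cons_erase hc
    have hlen1 : (l'.erase c).length = 2 := by
      rw [List.length_erase_of_mem hc]; omega
    have hne1 : l'.erase c ≠ [] := by intro h; rw [h] at hlen1; simp at hlen1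
    obtain ⟨d, hd, hdmax⟩ := exists_max (l'.erase c) hne1
    have hperm2 : (l'.erase c).Perm (d :: (l'.erase c).erase d) := List.perm_cons_erase hd
    have hdl : d ∈ l' := List.mem_of_mem_erase hd
    have hd0 : 0 ≤ d := hb0.trans (hl' d hdl).1
    have hdc : d ≤ c := hmax d hdl
    have hss := ssq_perm hperm1
    rw [ssq_cons] at hss
    have hss2 := ssq_le_of_le (l := l'.erase c) (fun x hx => hb0.trans (hl' x (List.mem_of_mem_erase hx)).1) hdmax
    rw [hlen1] at hss2
    have hbd : b ^ 2 ≤ d ^ 2 := by nlinarith [(hl' d hdl).1]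
    have hd35 : 0.35 ≤ d := by
      by_contra hcon
      push Not at hcon
      norm_num at hc115 haM hcon
      push_cast at hss2 hs'
      have e1 : a ^ 2 ≤ (9/5) ^ 2 := by
        apply pow_le_pow_left₀ (by linarith) haM
      have e2 : c ^ 2 ≤ (23/20) ^ 2 := by
        apply pow_le_pow_left₀ hc0 hc115.le
      have e3 : d ^ 2 ≤ (7/20) ^ 2 := by
        apply pow_le_pow_left₀ hd0 hcon.le
      norm_num at e1 e2 e3
      linarith
    apply foldr_two (phK_cont hn6 (by linarith) hKn') (hperm1.trans (hperm2.cons c))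
      (fun x hx => hb0.trans (hl' x hx).1)
    norm_num at hd35 hc9 hc115
    apply cls_AA_phK hn6 (by linarith) hKn' hcpos (by linarith)
    intro x hx
    rcases le_or_gt (x + c + d) K with h | h
    · rw [uK_eq' hn6 (by linarith) hKn' (x + c + d) (by rw [abs_le]; constructor <;> linarith),
        uK_eq' hn6 (by linarith) hKn' (x + c - d) (by rw [abs_le]; constructor <;> linarith),
        uK_eq' hn6 (by linarith) hKn' (x - c + d) (by rw [abs_le]; constructor <;> linarith),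
        uK_eq' hn6 (by linarith) hKn' (x - c - d) (by rw [abs_le]; constructor <;> linarith)]
      exact S4586.u5_two c d x (by norm_num; linarith) (by norm_num; linarith) (by norm_num; linarith) hdc hx (by linarith)
    · -- monotonicity of k(y) = uK(y+c) - uK(y-c) on [0.3, ∞)
      have hmono : MonotoneOn (fun y => uK 5 K (y + c) - uK 5 K (y - c)) (Ici (3 / 10)) := by
        have hder : ∀ y, HasDerivAt (fun y => uK 5 K (y + c) - uK 5 K (y - c))
            (HK 5 K (y + c) - HK 5 K (y - c)) y := by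
          intro y
          have e1 : HasDerivAt (fun x => uK 5 K (x + c)) (HK 5 K (y + c)) y := by
            simpa using (uK_deriv hn6 (by linarith) hKn' (y + c)).comp_add_const y c
          have e2 : HasDerivAt (fun x => uK 5 K (x - c)) (HK 5 K (y - c)) y := by
            simpa using (uK_deriv hn6 (by linarith) hKn' (y - c)).comp_sub_const y c
          exact e1.sub e2
        apply monotoneOn_of_deriv_nonneg (convex_Ici _)
        · intro y _; exact (hder y).continuousAt.continuousWithinAt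
        · intro y _; exact (hder y).differentiableAt.differentiableWithinAt
        · intro y hy
          rw [interior_Ici, mem_Ioi] at hy
          rw [(hder y).deriv]
          unfold HK
          rw [abs_of_nonneg (by linarith : 0 ≤ y + c), sub_nonneg]
          apply H5_cmp hK45 hKn (abs_nonneg _)
          rcases abs_cases (y - c) with ⟨h, _⟩ | ⟨h, _⟩ <;> rw [h] <;> linarith
      have := hmono (a := x - d) (b := x + d) (by simp only [mem_Ici]; linarith)
        (by simp only [mem_Ici]; linarith) (by linarith)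
      simp only at this
      have e1 : x + d + c = x + c + d := by ring
      have e2 : x + d - c = x - c + d := by ring
      have e3 : x - d + c = x + c - d := by ring
      have e4 : x - d - c = x - c - d := by ring
      rw [e1, e2, e3, e4] at this
      linarith

end US
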