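import Pool.Agent.Helper70.US.Defs
set_option autoImplicit false
namespace US.S4755

theorem LW_aux {n a0 lam L C a : ℝ} (h0 : 0 < a0) (hl : 0 < lam) (ha : 0 < a)
    (hL : Real.log (2 * a0) ≤ L)
    (hP : (1 / a0 - lam / 12) * a ^ 2 + (L - 1 - C) * a + (0.824 / lam + lam * n / 12) ≤ 0) :
    Real.log (2 * a) + 0.824 / (lam * a) + lam * (n - a ^ 2) / (12 * a) ≤ C := by
  have e1 : Real.log (2 * a) = Real.log (2 * a0) + Real.log (a / a0) := by
    rw [← Real.log_mul (by positivity) (by positivity)]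
    congr 1
    field_simp
  have e2 : Real.log (a / a0) ≤ a / a0 - 1 := Real.log_le_sub_one_of_pos (by positivity)
  have e3 : (L + (a / a0 - 1)) + 0.824 / (lam * a) + lam * (n - a ^ 2) / (12 * a) - C =
      ((1 / a0 - lam / 12) * a ^ 2 + (L - 1 - C) * a + (0.824 / lam + lam * n / 12)) / a := by
    field_simp
    ring
  have e4 : ((1 / a0 - lam / 12) * a ^ 2 + (L - 1 - C) * a + (0.824 / lam + lam * n / 12)) / a ≤ 0 :=
    div_nonpos_of_nonpos_of_nonneg hP ha.le
  linarith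

theorem log_aux {y L : ℝ} (hy : 0 < y) (hL : 0 ≤ L)
    (h : y ≤ ∑ i ∈ Finset.range 12, L ^ i / (i.factorial : ℝ)) : Real.log y ≤ L := by
  rw [Real.log_le_iff_le_exp hy]
  exact h.trans (Real.sum_le_exp_of_nonneg hL 12)

theorem LW_scalar3 (a : ℝ) (h : 1.43 ≤ a) (h2 : a ^ 2 ≤ 3) : ∃ lam > 0,
    Real.log (2 * a) + 0.824 / (lam * a) + lam * (3 - a ^ 2) / (12 * a) ≤ 1.411 := by
  have h1 : a ≤ 1.7321 := by nlinarith
  refine ⟨3.2, by norm_num, LW_aux (a0 := 1.43) (L := 1.0509) (by norm_num) (by norm_num)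
    (by linarith) (log_aux (by norm_num) (by norm_num) ?_) ?_⟩
  · norm_num [Finset.sum_range_succ, Nat.factorial]
  · have h3 := mul_nonneg (sub_nonneg.mpr h) (sub_nonneg.mpr h1)
    norm_num
    nlinarith

theorem LW_scalar4 (a : ℝ) (h : 1.7 ≤ a) (h2 : a ^ 2 ≤ 4) : ∃ lam > 0,
    Real.log (2 * a) + 0.824 / (lam * a) + lam * (4 - a ^ 2) / (12 * a) ≤ 1.555 := by
  have h1 : a ≤ 2 := by nlinarith
  refine ⟨3, by norm_num, LW_aux (a0 := 1.7) (L := 1.2238) (by norm_num) (by norm_num)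
    (by linarith) (log_aux (by norm_num) (by norm_num) ?_) ?_⟩
  · norm_num [Finset.sum_range_succ, Nat.factorial]
  · have h3 := mul_nonneg (sub_nonneg.mpr h) (sub_nonneg.mpr h1)
    norm_num
    nlinarith

theorem LW_scalar5 (a : ℝ) (h : 1.8 ≤ a) (h2 : a ^ 2 ≤ 5) : ∃ lam > 0,
    Real.log (2 * a) + 0.824 / (lam * a) + lam * (5 - a ^ 2) / (12 * a) ≤ 1.67 := by
  have h1 : a ≤ 2.2361 := by nlinarith
  rcases le_total a 2 with h4 | h4
  · refine ⟨2.4, by norm_num, LW_aux (a0 := 1.8) (L := 1.281) (by norm_num) (by norm_num)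
      (by linarith) (log_aux (by norm_num) (by norm_num) ?_) ?_⟩
    · norm_num [Finset.sum_range_succ, Nat.factorial]
    · have h3 := mul_nonneg (sub_nonneg.mpr h) (sub_nonneg.mpr h4)
      norm_num
      nlinarith
  · refine ⟨2.4, by norm_num, LW_aux (a0 := 2) (L := 1.3863) (by norm_num) (by norm_num)
      (by linarith) (log_aux (by norm_num) (by norm_num) ?_) ?_⟩
    · norm_num [Finset.sum_range_succ, Nat.factorial]
    · have h3 := mul_nonneg (sub_nonneg.mpr h4) (sub_nonneg.mpr h1)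
      norm_num
      nlinarith

theorem LW_scalar6 (a : ℝ) (h : 2.1 ≤ a) (h2 : a ^ 2 ≤ 6) : ∃ lam > 0,
    Real.log (2 * a) + 0.824 / (lam * a) + lam * (6 - a ^ 2) / (12 * a) ≤ 1.757 := by
  have h1 : a ≤ 2.4495 := by nlinarith
  refine ⟨2.5, by norm_num, LW_aux (a0 := 2.1) (L := 1.4351) (by norm_num) (by norm_num)
    (by linarith) (log_aux (by norm_num) (by norm_num) ?_) ?_⟩
  · norm_num [Finset.sum_range_succ, Nat.factorial]
  · have h3 := mul_nonneg (sub_nonneg.mpr h) (sub_nonneg.mpr h1)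
    norm_num
    nlinarith

end US.S4755
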