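import Pool.Agent.Helper70.US.Defs
set_option autoImplicit false
namespace US.S4756



theorem log_cubic (s : ℝ) (hs : -1 < s) : Real.log (1 + s) ≤ s - s ^ 2 / 2 + s ^ 3 / 3 := by
  set f : ℝ → ℝ := fun s => s - s ^ 2 / 2 + s ^ 3 / 3 - Real.log (1 + s) with hf
  have hd : ∀ x, -1 < x → HasDerivAt f (x ^ 3 / (1 + x)) x := by
    intro x hx
    have hx1 : 1 + x ≠ 0 := by linarith
    have h1 : HasDerivAt (fun s : ℝ => Real.log (1 + s)) (1 / (1 + x)) x := by
      have := ((hasDerivAt_id x).const_add 1).log hx1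
      simpa using this
    have h2 : HasDerivAt (fun s : ℝ => s - s ^ 2 / 2 + s ^ 3 / 3) (1 - x + x ^ 2) x := by
      have a1 := hasDerivAt_id x
      have a2 := (hasDerivAt_pow 2 x).div_const 2
      have a3 := (hasDerivAt_pow 3 x).div_const 3
      have a4 := (a1.sub a2).add a3
      refine a4.congr_deriv ?_
      norm_num
    refine (h2.sub h1).congr_deriv ?_
    field_simp
    ring
  have hf0 : f 0 = 0 := by simp [hf]
  have hmain : 0 ≤ f s := by
    rcases le_total 0 s with h | h
    · have hm : MonotoneOn f (Set.Icc 0 s) := by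
        apply monotoneOn_of_deriv_nonneg (convex_Icc 0 s)
        · intro x hx
          exact (hd x (by linarith [hx.1])).continuousAt.continuousWithinAt
        · intro x hx
          rw [interior_Icc] at hx
          exact (hd x (by linarith [hx.1])).differentiableAt.differentiableWithinAt
        · intro x hx
          rw [interior_Icc] at hx
          rw [(hd x (by linarith [hx.1])).deriv]
          have := hx.1
          positivity
      have := hm ⟨le_refl 0, h⟩ ⟨h, le_refl s⟩ h
      rwa [hf0] at this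
    · have hm : AntitoneOn f (Set.Icc s 0) := by
        apply antitoneOn_of_deriv_nonpos (convex_Icc s 0)
        · intro x hx
          exact (hd x (by linarith [hx.1])).continuousAt.continuousWithinAt
        · intro x hx
          rw [interior_Icc] at hx
          exact (hd x (by linarith [hx.1])).differentiableAt.differentiableWithinAt
        · intro x hx
          rw [interior_Icc] at hx
          rw [(hd x (by linarith [hx.1])).deriv]
          apply div_nonpos_of_nonpos_of_nonneg _ (by linarith [hx.1])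
          have h1 := hx.2
          have h2 : 0 ≤ x ^ 2 := sq_nonneg x
          have h3 : x ^ 3 = x ^ 2 * x := by ring
          rw [h3]
          exact mul_nonpos_of_nonneg_of_nonpos h2 h1.le
      have := hm ⟨le_refl s, h⟩ ⟨h, le_refl 0⟩ h
      rwa [hf0] at this
  have : f s = s - s ^ 2 / 2 + s ^ 3 / 3 - Real.log (1 + s) := rfl
  linarith

theorem negMulLog_low (y c : ℝ) (hy : 0 < y) (hc : 0 < c) :
    y * (-Real.log c - (y / c - 1) + (y / c - 1) ^ 2 / 2 - (y / c - 1) ^ 3 / 3) ≤
      Real.negMulLog y := by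
  have hyc : 0 < y / c := div_pos hy hc
  have h1 := log_cubic (y / c - 1) (by linarith)
  rw [add_sub_cancel, Real.log_div hy.ne' hc.ne'] at h1
  unfold Real.negMulLog
  have h2 := mul_le_mul_of_nonneg_left h1 hy.le
  linarith

/-- polynomial given by a list of coefficients -/
def ev : List ℝ → ℝ → ℝ
  | [], _ => 0
  | c :: l, x => c + x * ev l x

/-- primitive -/
noncomputable def pr : ℕ → List ℝ → ℝ → ℝ
  | _, [], _ => 0
  | k, c :: l, x => c * x ^ (k + 1) / ((k : ℝ) + 1) + pr (k + 1) l x

theorem hasDeriv_pr (l : List ℝ) : ∀ (k : ℕ) (x : ℝ), HasDerivAt (pr k l) (x ^ k * ev l x) x := by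
  induction l with
  | nil =>
    intro k x
    show HasDerivAt (fun _ => (0:ℝ)) (x ^ k * 0) x
    simpa using hasDerivAt_const x (0:ℝ)
  | cons c l ih =>
    intro k x
    have h1 := ((hasDerivAt_pow (k + 1) x).const_mul c).div_const ((k : ℝ) + 1)
    have h2 := h1.add (ih (k + 1) x)
    have hk : (k : ℝ) + 1 ≠ 0 := by positivity
    refine (h2.congr_deriv ?_).congr_of_eventuallyEq (Filter.Eventually.of_forall fun z => ?_)
    · simp only [ev, Nat.add_sub_cancel]
      push_cast
      field_simp
      ring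
    · simp only [pr, Pi.add_apply]

theorem cont_ev (l : List ℝ) : Continuous (ev l) := by
  induction l with
  | nil => exact continuous_const
  | cons c l ih => exact continuous_const.add (continuous_id.mul ih)

theorem int_ev (l : List ℝ) (a b : ℝ) : ∫ x in a..b, ev l x = pr 0 l b - pr 0 l a := by
  apply intervalIntegral.integral_eq_sub_of_hasDerivAt
  · intro x _
    have := hasDeriv_pr l 0 x
    rwa [pow_zero, one_mul] at this
  · exact (cont_ev l).intervalIntegrable _ _

theorem int_pow_log (n : ℕ) (hn : 1 ≤ n) (c T : ℝ) (hc : 0 < c) (hT : 0 < T) :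
    ∫ t in (0:ℝ)..T, Real.negMulLog (t ^ n / c) =
      -(1 / c) * (n * (T ^ (n + 1) / (n + 1) * Real.log T - T ^ (n + 1) / (n + 1) ^ 2) -
        Real.log c * T ^ (n + 1) / (n + 1)) := by
  set F : ℝ → ℝ := fun t => -(1 / c) * (n * (t ^ (n + 1) / (n + 1) * Real.log t -
    t ^ (n + 1) / (n + 1) ^ 2) - Real.log c * t ^ (n + 1) / (n + 1)) with hF
  have hn0 : (n : ℝ) + 1 ≠ 0 := by positivity
  have h0 : F 0 = 0 := by simp [hF]
  have hcont : ContinuousOn F (Set.Icc 0 T) := by
    apply Continuous.continuousOn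
    have e : F = fun t => -(1 / c) * (n * (t ^ n / (n + 1) * (t * Real.log t) -
        t ^ (n + 1) / (n + 1) ^ 2) - Real.log c * t ^ (n + 1) / (n + 1)) := by
      rw [hF]
      funext t
      congr 3
      rw [pow_succ]
      ring
    rw [e]
    have hml := Real.continuous_mul_log
    fun_prop
  have hder : ∀ x ∈ Set.Ioo 0 T, HasDerivAt F (Real.negMulLog (x ^ n / c)) x := by
    intro x hx
    have hx0 : x ≠ 0 := hx.1.ne'
    have a1 := (hasDerivAt_pow (n + 1) x).div_const ((n : ℝ) + 1)
    have a2 := a1.mul (Real.hasDerivAt_log hx0)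
    have a3 := (hasDerivAt_pow (n + 1) x).div_const (((n : ℝ) + 1) ^ 2)
    have a4 := ((a2.sub a3).const_mul (n : ℝ))
    have a5 := ((hasDerivAt_pow (n + 1) x).const_mul (Real.log c)).div_const ((n : ℝ) + 1)
    have a6 := (a4.sub a5).const_mul (-(1 / c))
    refine (a6.congr_deriv ?_).congr_of_eventuallyEq (Filter.Eventually.of_forall fun z => ?_)
    · unfold Real.negMulLog
      rw [Real.log_div (pow_ne_zero n hx0) hc.ne', Real.log_pow, Nat.add_sub_cancel]
      push_cast
      field_simp
      ring
    · simp only [hF, Pi.mul_apply, Pi.sub_apply]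
  have hint : IntervalIntegrable (fun x => Real.negMulLog (x ^ n / c)) MeasureTheory.volume 0 T := by
    apply Continuous.intervalIntegrable
    exact Real.continuous_negMulLog.comp (by fun_prop)
  rw [intervalIntegral.integral_eq_sub_of_hasDerivAt_of_le hT.le hcont hder hint, h0, sub_zero]

theorem cont_d3 : Continuous d3 := by
  unfold d3
  apply Continuous.if_le (by fun_prop) (by fun_prop) (by fun_prop) (by fun_prop)
  intro x hx
  rw [hx]
  norm_num

theorem cont_d4 : Continuous d4 := by
  unfold d4
  apply Continuous.if_le (by fun_prop) (by fun_prop) (by fun_prop) (by fun_prop)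
  intro x hx
  rw [hx]
  norm_num

theorem log3_low : 19 / 12 * Real.log 2 ≤ Real.log 3 := by
  have h1 : Real.log ((2:ℝ) ^ 19) ≤ Real.log ((3:ℝ) ^ 12) :=
    Real.log_le_log (by norm_num) (by norm_num)
  rw [Real.log_pow, Real.log_pow] at h1
  push_cast at h1
  linarith

theorem piece3 : Real.log 3 / 3 - 5 / 2304 ≤ ∫ x in (0:ℝ)..1, Real.negMulLog (d3 x) := by
  set t : ℝ := Real.log 3 with ht
  have h1 : ∫ x in (0:ℝ)..1, ev [(3/8) * t + (-181/4096), (0), (-1/8) * t + (215/1536), (0), (-45/2048), (0), (0), (0), (-9/4096)] x ≤ ∫ x in (0:ℝ)..1, Real.negMulLog (d3 x) := by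
    apply intervalIntegral.integral_mono_on (by norm_num) ((cont_ev _).intervalIntegrable _ _)
      ((Real.continuous_negMulLog.comp cont_d3).intervalIntegrable _ _)
    intro x hx
    have hd : d3 x = (3 - x ^ 2) / 8 := if_pos hx.2
    have hx2 : x ^ 2 ≤ 1 := by nlinarith [hx.1, hx.2]
    rw [Function.comp_apply, hd]
    refine le_trans (le_of_eq ?_) (negMulLog_low ((3 - x ^ 2) / 8) (1 / 3) (by linarith) (by norm_num))
    rw [one_div, Real.log_inv, neg_neg, ← ht]
    simp only [ev]
    ring
  rw [int_ev] at h1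
  refine le_trans (le_of_eq ?_) h1
  simp only [pr]
  norm_num
  try ring

theorem ent3_lower : 1.411 ≤ 2 * ∫ x in (0:ℝ)..3, Real.negMulLog (d3 x) := by
  have hc : Continuous (fun x => Real.negMulLog (d3 x)) := Real.continuous_negMulLog.comp cont_d3
  have hsplit := intervalIntegral.integral_add_adjacent_intervals
    (hc.intervalIntegrable (μ := MeasureTheory.volume) 0 1) (hc.intervalIntegrable 1 3)
  rw [← hsplit]
  have h2 : ∫ x in (1:ℝ)..3, Real.negMulLog (d3 x) =
      ∫ x in (1:ℝ)..3, (fun t => Real.negMulLog (t ^ 2 / 16)) (3 - x) := by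
    apply intervalIntegral.integral_congr
    intro x hx
    rw [Set.uIcc_of_le (by norm_num)] at hx
    have hd : d3 x = (3 - x) ^ 2 / 16 := by
      unfold d3
      split_ifs with h
      · have : x = 1 := le_antisymm h hx.1
        rw [this]; norm_num
      · rfl
    simp only [hd]
  rw [h2, intervalIntegral.integral_comp_sub_left (fun t => Real.negMulLog (t ^ 2 / 16)) 3]
  have h3 := int_pow_log 2 (by norm_num) 16 2 (by norm_num) (by norm_num)
  have h16 : Real.log 16 = 4 * Real.log 2 := by
    rw [show (16:ℝ) = 2 ^ 4 by norm_num, Real.log_pow]; norm_num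
  rw [h16] at h3
  have e1 : (3:ℝ) - 3 = 0 := by norm_num
  have e2 : (3:ℝ) - 1 = 2 := by norm_num
  rw [e1, e2, h3]
  have h4 := piece3
  have h5 := log3_low
  have h6 := Real.log_two_gt_d9
  norm_num at h6 ⊢
  linarith

theorem piece41 : (817/2048) * (2 * Real.log 2) + (-1841746369513/54412538019840) ≤ ∫ x in (0:ℝ)..(3 / 2), Real.negMulLog (d4 x) := by
  set t : ℝ := 2 * Real.log 2 with ht
  have h1 : ∫ x in (0:ℝ)..(3 / 2), ev [(1/3) * t + (-47/486), (0), (-1/8) * t + (215/1296), (1/32) * t + (-215/5184), (-5/144), (5/288), (5/768), (-5/768), (-11/3072), (187/36864), (-1/512), (1/3072), (-1/49152)] x ≤ ∫ x in (0:ℝ)..(3 / 2), Real.negMulLog (d4 x) := by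
    apply intervalIntegral.integral_mono_on (by norm_num) ((cont_ev _).intervalIntegrable _ _)
      ((Real.continuous_negMulLog.comp cont_d4).intervalIntegrable _ _)
    intro x hx
    have hd : d4 x = (32 - 12 * x ^ 2 + 3 * x ^ 3) / 96 := if_pos (by linarith [hx.2])
    have hpos : 0 < 32 - 12 * x ^ 2 + 3 * x ^ 3 := by
      have a1 := hx.1
      have a2 : x ≤ 2 := by linarith [hx.2]
      nlinarith [mul_nonneg a1 (sq_nonneg (x - 2)), mul_nonneg a1 a1]
    rw [Function.comp_apply, hd]
    refine le_trans (le_of_eq ?_) (negMulLog_low ((32 - 12 * x ^ 2 + 3 * x ^ 3) / 96) (1 / 4)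
      (by linarith) (by norm_num))
    have hl : -Real.log (1 / 4) = t := by
      rw [one_div, Real.log_inv, neg_neg, show (4:ℝ) = 2 ^ 2 by norm_num, Real.log_pow]
      norm_num [ht]
    rw [hl]
    simp only [ev]
    ring
  rw [int_ev] at h1
  refine le_trans (le_of_eq ?_) h1
  simp only [pr]
  norm_num
  try ring

theorem piece42 : (365/6144) * (3 * Real.log 2) + (8179508327/4080940351488) ≤ ∫ x in (3 / 2 : ℝ)..2, Real.negMulLog (d4 x) := by
  set t : ℝ := 3 * Real.log 2 with ht
  have h1 : ∫ x in (3 / 2 : ℝ)..2, ev [(1/3) * t + (-295/486), (0), (-1/8) * t + (1207/1296), (1/32) * t + (-1207/5184), (-47/72), (47/144), (83/384), (-37/192), (5/768), (347/9216), (-1/64), (1/384), (-1/6144)] x ≤ ∫ x in (3 / 2 : ℝ)..2, Real.negMulLog (d4 x) := by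
    apply intervalIntegral.integral_mono_on (by norm_num) ((cont_ev _).intervalIntegrable _ _)
      ((Real.continuous_negMulLog.comp cont_d4).intervalIntegrable _ _)
    intro x hx
    have hd : d4 x = (32 - 12 * x ^ 2 + 3 * x ^ 3) / 96 := if_pos (by linarith [hx.2])
    have hpos : 0 < 32 - 12 * x ^ 2 + 3 * x ^ 3 := by
      have a1 : 0 ≤ x := by linarith [hx.1]
      have a2 : x ≤ 2 := by linarith [hx.2]
      nlinarith [mul_nonneg a1 (sq_nonneg (x - 2)), mul_nonneg a1 a1]
    rw [Function.comp_apply, hd]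
    refine le_trans (le_of_eq ?_) (negMulLog_low ((32 - 12 * x ^ 2 + 3 * x ^ 3) / 96) (1 / 8)
      (by linarith) (by norm_num))
    have hl : -Real.log (1 / 8) = t := by
      rw [one_div, Real.log_inv, neg_neg, show (8:ℝ) = 2 ^ 3 by norm_num, Real.log_pow]
      norm_num [ht]
    rw [hl]
    simp only [ev]
    ring
  rw [int_ev] at h1
  refine le_trans (le_of_eq ?_) h1
  simp only [pr]
  norm_num
  try ring

theorem ent4_lower : 1.555 ≤ 2 * ∫ x in (0:ℝ)..4, Real.negMulLog (d4 x) := by
  have hc : Continuous (fun x => Real.negMulLog (d4 x)) := Real.continuous_negMulLog.comp cont_d4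
  have hsplit := intervalIntegral.integral_add_adjacent_intervals
    (hc.intervalIntegrable (μ := MeasureTheory.volume) 0 2) (hc.intervalIntegrable 2 4)
  have hsplit2 := intervalIntegral.integral_add_adjacent_intervals
    (hc.intervalIntegrable (μ := MeasureTheory.volume) 0 (3 / 2)) (hc.intervalIntegrable (3 / 2) 2)
  rw [← hsplit, ← hsplit2]
  have h2 : ∫ x in (2:ℝ)..4, Real.negMulLog (d4 x) =
      ∫ x in (2:ℝ)..4, (fun t => Real.negMulLog (t ^ 3 / 96)) (4 - x) := by
    apply intervalIntegral.integral_congr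
    intro x hx
    rw [Set.uIcc_of_le (by norm_num)] at hx
    have hd : d4 x = (4 - x) ^ 3 / 96 := by
      unfold d4
      split_ifs with h
      · have : x = 2 := le_antisymm h hx.1
        rw [this]; norm_num
      · rfl
    simp only [hd]
  rw [h2, intervalIntegral.integral_comp_sub_left (fun t => Real.negMulLog (t ^ 3 / 96)) 4]
  have h3 := int_pow_log 3 (by norm_num) 96 2 (by norm_num) (by norm_num)
  have h96 : Real.log 96 = 5 * Real.log 2 + Real.log 3 := by
    rw [show (96:ℝ) = 2 ^ 5 * 3 by norm_num, Real.log_mul (by norm_num) (by norm_num), Real.log_pow]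
    norm_num
  rw [h96] at h3
  have e1 : (4:ℝ) - 4 = 0 := by norm_num
  have e2 : (4:ℝ) - 2 = 2 := by norm_num
  rw [e1, e2, h3]
  have h4 := piece41
  have h4' := piece42
  have h5 := log3_low
  have h6 := Real.log_two_gt_d9
  norm_num at h6 h4 h4' ⊢
  linarith

end US.S4756
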