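import Pool.Agent.Helper70.US.Defs
set_option autoImplicit false
namespace US.S4757



open MeasureTheory Set

/-- polynomial of degree at most ten -/
noncomputable def Pol (c0 c1 c2 c3 c4 c5 c6 c7 c8 c9 c10 x : ℝ) : ℝ :=
  c0 + c1 * x + c2 * x ^ 2 + c3 * x ^ 3 + c4 * x ^ 4 + c5 * x ^ 5 + c6 * x ^ 6 + c7 * x ^ 7 +
    c8 * x ^ 8 + c9 * x ^ 9 + c10 * x ^ 10

/-- its antiderivative -/
noncomputable def Pint (c0 c1 c2 c3 c4 c5 c6 c7 c8 c9 c10 x : ℝ) : ℝ :=
  c0 * x + c1 / 2 * x ^ 2 + c2 / 3 * x ^ 3 + c3 / 4 * x ^ 4 + c4 / 5 * x ^ 5 + c5 / 6 * x ^ 6 +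
    c6 / 7 * x ^ 7 + c7 / 8 * x ^ 8 + c8 / 9 * x ^ 9 + c9 / 10 * x ^ 10 + c10 / 11 * x ^ 11

theorem Pint_deriv (c0 c1 c2 c3 c4 c5 c6 c7 c8 c9 c10 x : ℝ) :
    HasDerivAt (Pint c0 c1 c2 c3 c4 c5 c6 c7 c8 c9 c10)
      (Pol c0 c1 c2 c3 c4 c5 c6 c7 c8 c9 c10 x) x := by
  have h := (((((((((((hasDerivAt_id x).const_mul c0).add
    ((hasDerivAt_pow 2 x).const_mul (c1 / 2))).add
    ((hasDerivAt_pow 3 x).const_mul (c2 / 3))).add
    ((hasDerivAt_pow 4 x).const_mul (c3 / 4))).add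
    ((hasDerivAt_pow 5 x).const_mul (c4 / 5))).add
    ((hasDerivAt_pow 6 x).const_mul (c5 / 6))).add
    ((hasDerivAt_pow 7 x).const_mul (c6 / 7))).add
    ((hasDerivAt_pow 8 x).const_mul (c7 / 8))).add
    ((hasDerivAt_pow 9 x).const_mul (c8 / 9))).add
    ((hasDerivAt_pow 10 x).const_mul (c9 / 10))).add
    ((hasDerivAt_pow 11 x).const_mul (c10 / 11))
  refine HasDerivAt.congr_deriv (f := Pint c0 c1 c2 c3 c4 c5 c6 c7 c8 c9 c10) h ?_
  unfold Pol
  push_cast
  ring

theorem logb {s L : ℝ} {k : ℕ} (hs : 0 < s) (hk : (2 : ℝ) ^ k ≤ s ^ 8)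
    (hL : L ≤ k / 8 * 0.6931471803) : L ≤ Real.log s := by
  have h1 : Real.log ((2 : ℝ) ^ k) ≤ Real.log (s ^ 8) := Real.log_le_log (by positivity) hk
  rw [Real.log_pow, Real.log_pow] at h1
  have h2 := Real.log_two_gt_d9
  have h3 : (k : ℝ) * 0.6931471803 ≤ k * Real.log 2 :=
    mul_le_mul_of_nonneg_left h2.le (Nat.cast_nonneg k)
  push_cast at h1
  linarith

theorem pt {y s L : ℝ} (hy : 0 ≤ y) (hs : 0 < s) (hL : L ≤ Real.log s) :
    (1 + L) * y - s * y ^ 2 ≤ Real.negMulLog y := by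
  rcases hy.lt_or_eq with h | h
  · have h1 := Real.log_le_sub_one_of_pos (mul_pos hs h)
    rw [Real.log_mul hs.ne' h.ne'] at h1
    have h2 : L + Real.log y ≤ s * y - 1 := by linarith
    have h3 := mul_le_mul_of_nonneg_left h2 hy
    unfold Real.negMulLog
    nlinarith
  · rw [← h]
    simp [Real.negMulLog]

theorem step {φ : ℝ → ℝ} {q F G : ℝ → ℝ} {a b c s L : ℝ} (hcont : Continuous φ) (hab : a ≤ b)
    (hd : ∀ x ∈ Icc a b, φ x = q x) (hnn : ∀ x ∈ Icc a b, 0 ≤ φ x) (hq : Continuous q)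
    (hF : ∀ x, HasDerivAt F (q x) x) (hG : ∀ x, HasDerivAt G (q x ^ 2) x) (hs : 0 < s)
    (hL : L ≤ Real.log s) (h : c ≤ ∫ x in (0:ℝ)..a, Real.negMulLog (φ x)) :
    c + ((1 + L) * (F b - F a) - s * (G b - G a)) ≤ ∫ x in (0:ℝ)..b, Real.negMulLog (φ x) := by
  have hc : Continuous (fun x => Real.negMulLog (φ x)) := Real.continuous_negMulLog.comp hcont
  rw [← intervalIntegral.integral_add_adjacent_intervals (hc.intervalIntegrable 0 a)
    (hc.intervalIntegrable a b)]
  refine add_le_add h ?_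
  have hc2 : Continuous (fun x => (1 + L) * q x - s * q x ^ 2) := by fun_prop
  have h1 : ∫ x in a..b, ((1 + L) * q x - s * q x ^ 2) =
      ((1 + L) * F b - s * G b) - ((1 + L) * F a - s * G a) := by
    refine intervalIntegral.integral_eq_sub_of_hasDerivAt
      (f := fun x => (1 + L) * F x - s * G x) (fun x _ => ?_) (hc2.intervalIntegrable _ _)
    exact ((hF x).const_mul _).sub ((hG x).const_mul _)
  have h2 : (1 + L) * (F b - F a) - s * (G b - G a) =
      ((1 + L) * F b - s * G b) - ((1 + L) * F a - s * G a) := by ring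
  rw [h2, ← h1]
  refine intervalIntegral.integral_mono_on hab (hc2.intervalIntegrable _ _)
    (hc.intervalIntegrable _ _) (fun x hx => ?_)
  have h3 := pt (hnn x hx) hs hL
  rw [hd x hx] at h3 ⊢
  exact h3

theorem cont5 : Continuous d5 := by
  unfold d5
  fun_prop

theorem cont6 : Continuous d6 := by
  unfold d6
  fun_prop

noncomputable def q5A (x : ℝ) : ℝ := Pol (115/384) 0 (-5/64) 0 (1/128) 0 0 0 0 0 0 x
noncomputable def F5A (x : ℝ) : ℝ := Pint (115/384) 0 (-5/64) 0 (1/128) 0 0 0 0 0 0 x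
noncomputable def G5A (x : ℝ) : ℝ := Pint (13225/147456) 0 (-575/12288) 0 (265/24576) 0 (-5/4096) 0 (1/16384) 0 0 x
theorem hF5A (x : ℝ) : HasDerivAt F5A (q5A x) x := Pint_deriv _ _ _ _ _ _ _ _ _ _ _ x
theorem hG5A (x : ℝ) : HasDerivAt G5A (q5A x ^ 2) x := by
  have h : q5A x ^ 2 = Pol (13225/147456) 0 (-575/12288) 0 (265/24576) 0 (-5/4096) 0 (1/16384) 0 0 x := by
    unfold q5A Pol; ring
  rw [h]; exact Pint_deriv _ _ _ _ _ _ _ _ _ _ _ x
noncomputable def q5B (x : ℝ) : ℝ := Pol (55/192) (5/96) (-5/32) (5/96) (-1/192) 0 0 0 0 0 0 x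
noncomputable def F5B (x : ℝ) : ℝ := Pint (55/192) (5/96) (-5/32) (5/96) (-1/192) 0 0 0 0 0 0 x
noncomputable def G5B (x : ℝ) : ℝ := Pint (3025/36864) (275/9216) (-25/288) (125/9216) (55/2048) (-155/9216) (5/1152) (-5/9216) (1/36864) 0 0 x
theorem hF5B (x : ℝ) : HasDerivAt F5B (q5B x) x := Pint_deriv _ _ _ _ _ _ _ _ _ _ _ x
theorem hG5B (x : ℝ) : HasDerivAt G5B (q5B x ^ 2) x := by
  have h : q5B x ^ 2 = Pol (3025/36864) (275/9216) (-25/288) (125/9216) (55/2048) (-155/9216) (5/1152) (-5/9216) (1/36864) 0 0 x := by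
    unfold q5B Pol; ring
  rw [h]; exact Pint_deriv _ _ _ _ _ _ _ _ _ _ _ x
noncomputable def q5C (x : ℝ) : ℝ := Pol (625/768) (-125/192) (25/128) (-5/192) (1/768) 0 0 0 0 0 0 x
noncomputable def F5C (x : ℝ) : ℝ := Pint (625/768) (-125/192) (25/128) (-5/192) (1/768) 0 0 0 0 0 0 x
noncomputable def G5C (x : ℝ) : ℝ := Pint (390625/589824) (-78125/73728) (109375/147456) (-21875/73728) (21875/294912) (-875/73728) (175/147456) (-5/73728) (1/589824) 0 0 x
theorem hF5C (x : ℝ) : HasDerivAt F5C (q5C x) x := Pint_deriv _ _ _ _ _ _ _ _ _ _ _ x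
theorem hG5C (x : ℝ) : HasDerivAt G5C (q5C x ^ 2) x := by
  have h : q5C x ^ 2 = Pol (390625/589824) (-78125/73728) (109375/147456) (-21875/73728) (21875/294912) (-875/73728) (175/147456) (-5/73728) (1/589824) 0 0 x := by
    unfold q5C Pol; ring
  rw [h]; exact Pint_deriv _ _ _ _ _ _ _ _ _ _ _ x
theorem eq5A {x : ℝ} (h0 : 0 ≤ x) (h1 : x ≤ 1) : d5 x = q5A x := by
  unfold d5 q5A Pol
  rw [max_eq_right (by linarith), max_eq_right (by linarith), max_eq_right (by linarith)]
  ring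
theorem eq5B {x : ℝ} (h0 : 1 ≤ x) (h1 : x ≤ 3) : d5 x = q5B x := by
  unfold d5 q5B Pol
  rw [max_eq_right (by linarith : (0:ℝ) ≤ 5 - x), max_eq_right (by linarith : (0:ℝ) ≤ 3 - x),
    max_eq_left (by linarith : 1 - x ≤ 0)]
  ring
theorem eq5C {x : ℝ} (h0 : 3 ≤ x) (h1 : x ≤ 5) : d5 x = q5C x := by
  unfold d5 q5C Pol
  rw [max_eq_right (by linarith : (0:ℝ) ≤ 5 - x), max_eq_left (by linarith : 3 - x ≤ 0),
    max_eq_left (by linarith : 1 - x ≤ 0)]
  ring
theorem qc5A : Continuous q5A := by unfold q5A Pol; fun_prop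
theorem qc5B : Continuous q5B := by unfold q5B Pol; fun_prop
theorem qc5C : Continuous q5C := by unfold q5C Pol; fun_prop
theorem nn5 {x : ℝ} (h0 : 0 ≤ x) (_ : x ≤ 5) : 0 ≤ d5 x := by
  unfold d5
  have h2 : 0 ≤ max 0 (3 - x) := le_max_left _ _
  have h3 : 5 / 3 * max 0 (3 - x) ≤ max 0 (5 - x) := by
    rcases max_cases (0 : ℝ) (3 - x) with ⟨h, h'⟩ | ⟨h, h'⟩
    · rw [h, mul_zero]; exact le_max_left _ _
    · rw [h]; exact le_trans (by linarith) (le_max_right _ _)
  have h4 : (5 / 3 * max 0 (3 - x)) ^ 4 ≤ (max 0 (5 - x)) ^ 4 :=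
    pow_le_pow_left₀ (by positivity) h3 4
  have h5 : 0 ≤ (max 0 (1 - x)) ^ 4 := by positivity
  have h6 : 0 ≤ (max 0 (3 - x)) ^ 4 := by positivity
  rw [mul_pow] at h4
  apply div_nonneg _ (by norm_num)
  nlinarith
noncomputable def q6A (x : ℝ) : ℝ := Pol (11/40) 0 (-1/16) 0 (1/128) (-1/768) 0 0 0 0 0 x
noncomputable def F6A (x : ℝ) : ℝ := Pint (11/40) 0 (-1/16) 0 (1/128) (-1/768) 0 0 0 0 0 x
noncomputable def G6A (x : ℝ) : ℝ := Pint (121/1600) 0 (-11/320) 0 (21/2560) (-11/15360) (-1/1024) (1/6144) (1/16384) (-1/49152) (1/589824) x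
theorem hF6A (x : ℝ) : HasDerivAt F6A (q6A x) x := Pint_deriv _ _ _ _ _ _ _ _ _ _ _ x
theorem hG6A (x : ℝ) : HasDerivAt G6A (q6A x ^ 2) x := by
  have h : q6A x ^ 2 = Pol (121/1600) 0 (-11/320) 0 (21/2560) (-11/15360) (-1/1024) (1/6144) (1/16384) (-1/49152) (1/589824) x := by
    unfold q6A Pol; ring
  rw [h]; exact Pint_deriv _ _ _ _ _ _ _ _ _ _ _ x
noncomputable def q6B (x : ℝ) : ℝ := Pol (17/80) (5/32) (-7/32) (5/64) (-3/256) (1/1536) 0 0 0 0 0 x
noncomputable def F6B (x : ℝ) : ℝ := Pint (17/80) (5/32) (-7/32) (5/64) (-3/256) (1/1536) 0 0 0 0 0 x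
noncomputable def G6B (x : ℝ) : ℝ := Pint (289/6400) (17/256) (-351/5120) (-9/256) (689/10240) (-577/15360) (281/24576) (-13/6144) (47/196608) (-1/65536) (1/2359296) x
theorem hF6B (x : ℝ) : HasDerivAt F6B (q6B x) x := Pint_deriv _ _ _ _ _ _ _ _ _ _ _ x
theorem hG6B (x : ℝ) : HasDerivAt G6B (q6B x ^ 2) x := by
  have h : q6B x ^ 2 = Pol (289/6400) (17/256) (-351/5120) (-9/256) (689/10240) (-577/15360) (281/24576) (-13/6144) (47/196608) (-1/65536) (1/2359296) x := by
    unfold q6B Pol; ring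
  rw [h]; exact Pint_deriv _ _ _ _ _ _ _ _ _ _ _ x
noncomputable def q6C (x : ℝ) : ℝ := Pol (81/80) (-27/32) (9/32) (-3/64) (1/256) (-1/7680) 0 0 0 0 0 x
noncomputable def F6C (x : ℝ) : ℝ := Pint (81/80) (-27/32) (9/32) (-3/64) (1/256) (-1/7680) 0 0 0 0 0 x
noncomputable def G6C (x : ℝ) : ℝ := Pint (6561/6400) (-2187/1280) (6561/5120) (-729/1280) (1701/10240) (-1701/51200) (189/40960) (-9/20480) (9/327680) (-1/983040) (1/58982400) x
theorem hF6C (x : ℝ) : HasDerivAt F6C (q6C x) x := Pint_deriv _ _ _ _ _ _ _ _ _ _ _ x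
theorem hG6C (x : ℝ) : HasDerivAt G6C (q6C x ^ 2) x := by
  have h : q6C x ^ 2 = Pol (6561/6400) (-2187/1280) (6561/5120) (-729/1280) (1701/10240) (-1701/51200) (189/40960) (-9/20480) (9/327680) (-1/983040) (1/58982400) x := by
    unfold q6C Pol; ring
  rw [h]; exact Pint_deriv _ _ _ _ _ _ _ _ _ _ _ x
theorem eq6A {x : ℝ} (h0 : 0 ≤ x) (h1 : x ≤ 2) : d6 x = q6A x := by
  unfold d6 q6A Pol
  rw [max_eq_right (by linarith), max_eq_right (by linarith), max_eq_right (by linarith)]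
  ring
theorem eq6B {x : ℝ} (h0 : 2 ≤ x) (h1 : x ≤ 4) : d6 x = q6B x := by
  unfold d6 q6B Pol
  rw [max_eq_right (by linarith : (0:ℝ) ≤ 6 - x), max_eq_right (by linarith : (0:ℝ) ≤ 4 - x),
    max_eq_left (by linarith : 2 - x ≤ 0)]
  ring
theorem eq6C {x : ℝ} (h0 : 4 ≤ x) (h1 : x ≤ 6) : d6 x = q6C x := by
  unfold d6 q6C Pol
  rw [max_eq_right (by linarith : (0:ℝ) ≤ 6 - x), max_eq_left (by linarith : 4 - x ≤ 0),
    max_eq_left (by linarith : 2 - x ≤ 0)]
  ring
theorem qc6A : Continuous q6A := by unfold q6A Pol; fun_prop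
theorem qc6B : Continuous q6B := by unfold q6B Pol; fun_prop
theorem qc6C : Continuous q6C := by unfold q6C Pol; fun_prop
theorem nn6 {x : ℝ} (h0 : 0 ≤ x) (_ : x ≤ 6) : 0 ≤ d6 x := by
  unfold d6
  have h2 : 0 ≤ max 0 (4 - x) := le_max_left _ _
  have h3 : 3 / 2 * max 0 (4 - x) ≤ max 0 (6 - x) := by
    rcases max_cases (0 : ℝ) (4 - x) with ⟨h, h'⟩ | ⟨h, h'⟩
    · rw [h, mul_zero]; exact le_max_left _ _
    · rw [h]; exact le_trans (by linarith) (le_max_right _ _)
  have h4 : (3 / 2 * max 0 (4 - x)) ^ 5 ≤ (max 0 (6 - x)) ^ 5 :=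
    pow_le_pow_left₀ (by positivity) h3 5
  have h5 : 0 ≤ (max 0 (2 - x)) ^ 5 := by positivity
  have h6 : 0 ≤ (max 0 (4 - x)) ^ 5 := by positivity
  rw [mul_pow] at h4
  apply div_nonneg _ (by norm_num)
  nlinarith

theorem ent5_lower : 1.67 ≤ 2 * ∫ x in (0:ℝ)..5, Real.negMulLog (d5 x) := by
  have h0 : (0 : ℝ) ≤ ∫ x in (0:ℝ)..0, Real.negMulLog (d5 x) := by simp
  have h1 : ((1345191/6250000) : ℝ) ≤ ∫ x in (0:ℝ)..(3/5), Real.negMulLog (d5 x) :=
    le_trans (by norm_num [F5A, G5A, Pint]) (step (a := 0) (b := (3/5)) (s := (841/250))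
      (L := (48520302621/40000000000)) cont5 (by norm_num) (fun x hx => eq5A (le_trans (by norm_num) hx.1) (le_trans hx.2 (by norm_num)))
      (fun x hx => nn5 (le_trans (by norm_num) hx.1) (le_trans hx.2 (by norm_num)))
      qc5A hF5A hG5A (by norm_num) (logb (k := 14) (by norm_num) (by norm_num) (by norm_num)) h0)
  have h2 : ((7078347/20000000) : ℝ) ≤ ∫ x in (0:ℝ)..1, Real.negMulLog (d5 x) :=
    le_trans (by norm_num [F5A, G5A, Pint]) (step (a := (3/5)) (b := 1) (s := 4)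
      (L := (6931471803/5000000000)) cont5 (by norm_num) (fun x hx => eq5A (le_trans (by norm_num) hx.1) (le_trans hx.2 (by norm_num)))
      (fun x hx => nn5 (le_trans (by norm_num) hx.1) (le_trans hx.2 (by norm_num)))
      qc5A hF5A hG5A (by norm_num) (logb (k := 16) (by norm_num) (by norm_num) (by norm_num)) h1)
  have h3 : ((2824973/6250000) : ℝ) ≤ ∫ x in (0:ℝ)..(13/10), Real.negMulLog (d5 x) :=
    le_trans (by norm_num [F5B, G5B, Pint]) (step (a := 1) (b := (13/10)) (s := (4757/1000))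
      (L := (62383246227/40000000000)) cont5 (by norm_num) (fun x hx => eq5B (le_trans (by norm_num) hx.1) (le_trans hx.2 (by norm_num)))
      (fun x hx => nn5 (le_trans (by norm_num) hx.1) (le_trans hx.2 (by norm_num)))
      qc5B hF5B hG5B (by norm_num) (logb (k := 18) (by norm_num) (by norm_num) (by norm_num)) h2)
  have h4 : ((51308197/100000000) : ℝ) ≤ ∫ x in (0:ℝ)..(3/2), Real.negMulLog (d5 x) :=
    le_trans (by norm_num [F5B, G5B, Pint]) (step (a := (13/10)) (b := (3/2)) (s := (5657/1000))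
      (L := (6931471803/4000000000)) cont5 (by norm_num) (fun x hx => eq5B (le_trans (by norm_num) hx.1) (le_trans hx.2 (by norm_num)))
      (fun x hx => nn5 (le_trans (by norm_num) hx.1) (le_trans hx.2 (by norm_num)))
      qc5B hF5B hG5B (by norm_num) (logb (k := 20) (by norm_num) (by norm_num) (by norm_num)) h3)
  have h5 : ((28486947/50000000) : ℝ) ≤ ∫ x in (0:ℝ)..(17/10), Real.negMulLog (d5 x) :=
    le_trans (by norm_num [F5B, G5B, Pint]) (step (a := (3/2)) (b := (17/10)) (s := (841/125))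
      (L := (76246189833/40000000000)) cont5 (by norm_num) (fun x hx => eq5B (le_trans (by norm_num) hx.1) (le_trans hx.2 (by norm_num)))
      (fun x hx => nn5 (le_trans (by norm_num) hx.1) (le_trans hx.2 (by norm_num)))
      qc5B hF5B hG5B (by norm_num) (logb (k := 22) (by norm_num) (by norm_num) (by norm_num)) h4)
  have h6 : ((12424553/20000000) : ℝ) ≤ ∫ x in (0:ℝ)..(19/10), Real.negMulLog (d5 x) :=
    le_trans (by norm_num [F5B, G5B, Pint]) (step (a := (17/10)) (b := (19/10)) (s := 8)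
      (L := (20794415409/10000000000)) cont5 (by norm_num) (fun x hx => eq5B (le_trans (by norm_num) hx.1) (le_trans hx.2 (by norm_num)))
      (fun x hx => nn5 (le_trans (by norm_num) hx.1) (le_trans hx.2 (by norm_num)))
      qc5B hF5B hG5B (by norm_num) (logb (k := 24) (by norm_num) (by norm_num) (by norm_num)) h5)
  have h7 : ((68740687/100000000) : ℝ) ≤ ∫ x in (0:ℝ)..(11/5), Real.negMulLog (d5 x) :=
    le_trans (by norm_num [F5B, G5B, Pint]) (step (a := (19/10)) (b := (11/5)) (s := (519/50))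
      (L := (187149738681/80000000000)) cont5 (by norm_num) (fun x hx => eq5B (le_trans (by norm_num) hx.1) (le_trans hx.2 (by norm_num)))
      (fun x hx => nn5 (le_trans (by norm_num) hx.1) (le_trans hx.2 (by norm_num)))
      qc5B hF5B hG5B (by norm_num) (logb (k := 27) (by norm_num) (by norm_num) (by norm_num)) h6)
  have h8 : ((36189649/50000000) : ℝ) ≤ ∫ x in (0:ℝ)..(12/5), Real.negMulLog (d5 x) :=
    le_trans (by norm_num [F5B, G5B, Pint]) (step (a := (11/5)) (b := (12/5)) (s := (367/25))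
      (L := (214875625893/80000000000)) cont5 (by norm_num) (fun x hx => eq5B (le_trans (by norm_num) hx.1) (le_trans hx.2 (by norm_num)))
      (fun x hx => nn5 (le_trans (by norm_num) hx.1) (le_trans hx.2 (by norm_num)))
      qc5B hF5B hG5B (by norm_num) (logb (k := 31) (by norm_num) (by norm_num) (by norm_num)) h7)
  have h9 : ((3833023/5000000) : ℝ) ≤ ∫ x in (0:ℝ)..(27/10), Real.negMulLog (d5 x) :=
    le_trans (by norm_num [F5B, G5B, Pint]) (step (a := (12/5)) (b := (27/10)) (s := (83/4))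
      (L := (48520302621/16000000000)) cont5 (by norm_num) (fun x hx => eq5B (le_trans (by norm_num) hx.1) (le_trans hx.2 (by norm_num)))
      (fun x hx => nn5 (le_trans (by norm_num) hx.1) (le_trans hx.2 (by norm_num)))
      qc5B hF5B hG5B (by norm_num) (logb (k := 35) (by norm_num) (by norm_num) (by norm_num)) h8)
  have h10 : ((79648943/100000000) : ℝ) ≤ ∫ x in (0:ℝ)..3, Real.negMulLog (d5 x) :=
    le_trans (by norm_num [F5B, G5B, Pint]) (step (a := (27/10)) (b := 3) (s := (349/10))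
      (L := (284190343923/80000000000)) cont5 (by norm_num) (fun x hx => eq5B (le_trans (by norm_num) hx.1) (le_trans hx.2 (by norm_num)))
      (fun x hx => nn5 (le_trans (by norm_num) hx.1) (le_trans hx.2 (by norm_num)))
      qc5B hF5B hG5B (by norm_num) (logb (k := 41) (by norm_num) (by norm_num) (by norm_num)) h9)
  have h11 : ((81566181/100000000) : ℝ) ≤ ∫ x in (0:ℝ)..(33/10), Real.negMulLog (d5 x) :=
    le_trans (by norm_num [F5C, G5C, Pint]) (step (a := 3) (b := (33/10)) (s := 64)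
      (L := (20794415409/5000000000)) cont5 (by norm_num) (fun x hx => eq5C (le_trans (by norm_num) hx.1) (le_trans hx.2 (by norm_num)))
      (fun x hx => nn5 (le_trans (by norm_num) hx.1) (le_trans hx.2 (by norm_num)))
      qc5C hF5C hG5C (by norm_num) (logb (k := 48) (by norm_num) (by norm_num) (by norm_num)) h10)
  have h12 : ((82674241/100000000) : ℝ) ≤ ∫ x in (0:ℝ)..(18/5), Real.negMulLog (d5 x) :=
    le_trans (by norm_num [F5C, G5C, Pint]) (step (a := (33/10)) (b := (18/5)) (s := 128)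
      (L := (48520302621/10000000000)) cont5 (by norm_num) (fun x hx => eq5C (le_trans (by norm_num) hx.1) (le_trans hx.2 (by norm_num)))
      (fun x hx => nn5 (le_trans (by norm_num) hx.1) (le_trans hx.2 (by norm_num)))
      qc5C hF5C hG5C (by norm_num) (logb (k := 56) (by norm_num) (by norm_num) (by norm_num)) h11)
  have h13 : ((3329147/4000000) : ℝ) ≤ ∫ x in (0:ℝ)..(39/10), Real.negMulLog (d5 x) :=
    le_trans (by norm_num [F5C, G5C, Pint]) (step (a := (18/5)) (b := (39/10)) (s := (1396/5))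
      (L := (90109133439/16000000000)) cont5 (by norm_num) (fun x hx => eq5C (le_trans (by norm_num) hx.1) (le_trans hx.2 (by norm_num)))
      (fun x hx => nn5 (le_trans (by norm_num) hx.1) (le_trans hx.2 (by norm_num)))
      qc5C hF5C hG5C (by norm_num) (logb (k := 65) (by norm_num) (by norm_num) (by norm_num)) h12)
  have h14 : ((10439497/12500000) : ℝ) ≤ ∫ x in (0:ℝ)..5, Real.negMulLog (d5 x) :=
    le_trans (by norm_num [F5C, G5C, Pint]) (step (a := (39/10)) (b := 5) (s := (9391/10))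
      (L := (547586272437/80000000000)) cont5 (by norm_num) (fun x hx => eq5C (le_trans (by norm_num) hx.1) (le_trans hx.2 (by norm_num)))
      (fun x hx => nn5 (le_trans (by norm_num) hx.1) (le_trans hx.2 (by norm_num)))
      qc5C hF5C hG5C (by norm_num) (logb (k := 79) (by norm_num) (by norm_num) (by norm_num)) h13)
  linarith

theorem ent6_lower : 1.757 ≤ 2 * ∫ x in (0:ℝ)..6, Real.negMulLog (d6 x) := by
  have h0 : (0 : ℝ) ≤ ∫ x in (0:ℝ)..0, Real.negMulLog (d6 x) := by simp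
  have h1 : ((8685813/25000000) : ℝ) ≤ ∫ x in (0:ℝ)..1, Real.negMulLog (d6 x) :=
    le_trans (by norm_num [F6A, G6A, Pint]) (step (a := 0) (b := 1) (s := 4)
      (L := (6931471803/5000000000)) cont6 (by norm_num) (fun x hx => eq6A (le_trans (by norm_num) hx.1) (le_trans hx.2 (by norm_num)))
      (fun x hx => nn6 (le_trans (by norm_num) hx.1) (le_trans hx.2 (by norm_num)))
      qc6A hF6A hG6A (by norm_num) (logb (k := 16) (by norm_num) (by norm_num) (by norm_num)) h0)
  have h2 : ((50523073/100000000) : ℝ) ≤ ∫ x in (0:ℝ)..(3/2), Real.negMulLog (d6 x) :=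
    le_trans (by norm_num [F6A, G6A, Pint]) (step (a := 1) (b := (3/2)) (s := (1297/250))
      (L := (131697964257/80000000000)) cont6 (by norm_num) (fun x hx => eq6A (le_trans (by norm_num) hx.1) (le_trans hx.2 (by norm_num)))
      (fun x hx => nn6 (le_trans (by norm_num) hx.1) (le_trans hx.2 (by norm_num)))
      qc6A hF6A hG6A (by norm_num) (logb (k := 19) (by norm_num) (by norm_num) (by norm_num)) h1)
  have h3 : ((63979713/100000000) : ℝ) ≤ ∫ x in (0:ℝ)..2, Real.negMulLog (d6 x) :=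
    le_trans (by norm_num [F6A, G6A, Pint]) (step (a := (3/2)) (b := 2) (s := (7337/1000))
      (L := (159423851469/80000000000)) cont6 (by norm_num) (fun x hx => eq6A (le_trans (by norm_num) hx.1) (le_trans hx.2 (by norm_num)))
      (fun x hx => nn6 (le_trans (by norm_num) hx.1) (le_trans hx.2 (by norm_num)))
      qc6A hF6A hG6A (by norm_num) (logb (k := 23) (by norm_num) (by norm_num) (by norm_num)) h2)
  have h4 : ((72521627/100000000) : ℝ) ≤ ∫ x in (0:ℝ)..(12/5), Real.negMulLog (d6 x) :=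
    le_trans (by norm_num [F6B, G6B, Pint]) (step (a := 2) (b := (12/5)) (s := (283/25))
      (L := (48520302621/20000000000)) cont6 (by norm_num) (fun x hx => eq6B (le_trans (by norm_num) hx.1) (le_trans hx.2 (by norm_num)))
      (fun x hx => nn6 (le_trans (by norm_num) hx.1) (le_trans hx.2 (by norm_num)))
      qc6B hF6B hG6B (by norm_num) (logb (k := 28) (by norm_num) (by norm_num) (by norm_num)) h3)
  have h5 : ((40059129/50000000) : ℝ) ≤ ∫ x in (0:ℝ)..(29/10), Real.negMulLog (d6 x) :=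
    le_trans (by norm_num [F6B, G6B, Pint]) (step (a := (12/5)) (b := (29/10)) (s := (1903/100))
      (L := (117835020651/40000000000)) cont6 (by norm_num) (fun x hx => eq6B (le_trans (by norm_num) hx.1) (le_trans hx.2 (by norm_num)))
      (fun x hx => nn6 (le_trans (by norm_num) hx.1) (le_trans hx.2 (by norm_num)))
      qc6B hF6B hG6B (by norm_num) (logb (k := 34) (by norm_num) (by norm_num) (by norm_num)) h4)
  have h6 : ((84613977/100000000) : ℝ) ≤ ∫ x in (0:ℝ)..(17/5), Real.negMulLog (d6 x) :=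
    le_trans (by norm_num [F6B, G6B, Pint]) (step (a := (29/10)) (b := (17/5)) (s := (1903/50))
      (L := (145560907863/40000000000)) cont6 (by norm_num) (fun x hx => eq6B (le_trans (by norm_num) hx.1) (le_trans hx.2 (by norm_num)))
      (fun x hx => nn6 (le_trans (by norm_num) hx.1) (le_trans hx.2 (by norm_num)))
      qc6B hF6B hG6B (by norm_num) (logb (k := 42) (by norm_num) (by norm_num) (by norm_num)) h5)
  have h7 : ((87057117/100000000) : ℝ) ≤ ∫ x in (0:ℝ)..4, Real.negMulLog (d6 x) :=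
    le_trans (by norm_num [F6B, G6B, Pint]) (step (a := (17/5)) (b := 4) (s := (9871/100))
      (L := (367368005559/80000000000)) cont6 (by norm_num) (fun x hx => eq6B (le_trans (by norm_num) hx.1) (le_trans hx.2 (by norm_num)))
      (fun x hx => nn6 (le_trans (by norm_num) hx.1) (le_trans hx.2 (by norm_num)))
      qc6B hF6B hG6B (by norm_num) (logb (k := 53) (by norm_num) (by norm_num) (by norm_num)) h6)
  have h8 : ((1758049/2000000) : ℝ) ≤ ∫ x in (0:ℝ)..6, Real.negMulLog (d6 x) :=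
    le_trans (by norm_num [F6C, G6C, Pint]) (step (a := 4) (b := 6) (s := (2153/5))
      (L := (48520302621/8000000000)) cont6 (by norm_num) (fun x hx => eq6C (le_trans (by norm_num) hx.1) (le_trans hx.2 (by norm_num)))
      (fun x hx => nn6 (le_trans (by norm_num) hx.1) (le_trans hx.2 (by norm_num)))
      qc6C hF6C hG6C (by norm_num) (logb (k := 70) (by norm_num) (by norm_num) (by norm_num)) h7)
  linarith

end US.S4757
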