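import Pool.Agent.Helper70.US.F6
set_option autoImplicit false
open MeasureTheory
namespace US.S5422



section two

/-- uniform law -/
noncomputable def mu : Measure ℝ := ProbabilityTheory.cond (volume : Measure ℝ) (Set.Icc (-1 : ℝ) 1)

lemma vol_Icc : (volume : Measure ℝ) (Set.Icc (-1 : ℝ) 1) = 2 := by
  rw [Real.volume_Icc]; norm_num

instance mu_prob : IsProbabilityMeasure mu := by
  apply ProbabilityTheory.cond_isProbabilityMeasure_of_finite
  · rw [vol_Icc]; norm_num
  · rw [vol_Icc]; norm_num

lemma mu_apply (s : Set ℝ) : mu s = 2⁻¹ * volume (Set.Icc (-1 : ℝ) 1 ∩ s) := by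
  rw [mu, ProbabilityTheory.cond_apply measurableSet_Icc, vol_Icc]

lemma law_two (a : Fin 2 → ℝ) :
    law a = (mu.prod mu).map (fun z : ℝ × ℝ => a 0 * z.1 + a 1 * z.2) := by
  rw [← (measurePreserving_finTwoArrow mu).map_eq, Measure.map_map (by fun_prop)
    (MeasurableEquiv.measurable _)]
  rw [law]
  congr 1
  funext x
  simp [Fin.sum_univ_two]

lemma mu_lin {p : ℝ} (hp : 0 < p) (c : ℝ) (S : Set ℝ) :
    mu {x | p * x + c ∈ S} = ENNReal.ofReal (1 / (2 * p)) * volume (S ∩ {y | |y - c| ≤ p}) := by
  rw [mu_apply]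
  have h1 : Set.Icc (-1 : ℝ) 1 ∩ {x | p * x + c ∈ S} =
      (fun x => p * x) ⁻¹' ((fun x => x + c) ⁻¹' (S ∩ {y | |y - c| ≤ p})) := by
    ext x
    simp only [Set.mem_inter_iff, Set.mem_Icc, Set.mem_preimage, Set.mem_ofPred_eq,
      add_sub_cancel_right, abs_mul, abs_of_pos hp]
    have : p * |x| ≤ p ↔ (-1 ≤ x ∧ x ≤ 1) := by
      rw [← abs_le]
      constructor
      · intro h; by_contra h2; push Not at h2; nlinarith
      · intro h; nlinarith
    rw [this]
    tauto
  rw [h1, Real.volume_preimage_mul_left hp.ne', measure_preimage_add_right, ← mul_assoc]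
  congr 1
  rw [abs_of_pos (inv_pos.2 hp)]
  have : (2 : ENNReal)⁻¹ = ENNReal.ofReal (2⁻¹) := by
    rw [ENNReal.ofReal_inv_of_pos (by norm_num)]; norm_num
  rw [this, ← ENNReal.ofReal_mul (by norm_num)]
  congr 1
  rw [one_div, mul_inv]

lemma dens {p : ℝ} (hp : 0 < p) (q : ℝ) :
    (mu.prod mu).map (fun z : ℝ × ℝ => p * z.1 + q * z.2) =
      volume.withDensity (fun y => ENNReal.ofReal (1 / (2 * p)) * mu {t | |y - q * t| ≤ p}) := by
  ext S hS
  have hmeas : Measurable (fun z : ℝ × ℝ => p * z.1 + q * z.2) := by fun_prop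
  rw [Measure.map_apply hmeas hS, Measure.prod_apply_symm (hmeas hS), withDensity_apply _ hS]
  have e1 : ∀ t : ℝ, mu ((fun x => (x, t)) ⁻¹' ((fun z : ℝ × ℝ => p * z.1 + q * z.2) ⁻¹' S)) =
      ENNReal.ofReal (1 / (2 * p)) * volume (S ∩ {y | |y - q * t| ≤ p}) := by
    intro t
    exact mu_lin hp (q * t) S
  simp only [e1]
  have hA : MeasurableSet {z : ℝ × ℝ | z.1 ∈ S ∧ |z.1 - q * z.2| ≤ p} := by
    apply MeasurableSet.inter
    · exact measurable_fst hS
    · exact measurableSet_le (f := fun z : ℝ × ℝ => |z.1 - q * z.2|) (g := fun _ => p)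
        (by fun_prop) measurable_const
  have hA1 := Measure.prod_apply (μ := (volume : Measure ℝ)) (ν := mu) hA
  have hA2 := Measure.prod_apply_symm (μ := (volume : Measure ℝ)) (ν := mu) hA
  have hm1 : Measurable fun t : ℝ => (volume : Measure ℝ) (S ∩ {y | |y - q * t| ≤ p}) :=
    measurable_measure_prodMk_right hA
  have hm0 : Measurable fun y : ℝ => mu {t | |y - q * t| ≤ p} := by
    have hB : MeasurableSet {z : ℝ × ℝ | |z.1 - q * z.2| ≤ p} :=
      measurableSet_le (f := fun z : ℝ × ℝ => |z.1 - q * z.2|) (g := fun _ => p)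
        (by fun_prop) measurable_const
    exact measurable_measure_prodMk_left hB
  rw [lintegral_const_mul _ hm1, lintegral_const_mul _ hm0]
  congr 1
  have e2 : ∫⁻ y in S, mu {t | |y - q * t| ≤ p} =
      ∫⁻ y, mu (Prod.mk y ⁻¹' {z : ℝ × ℝ | z.1 ∈ S ∧ |z.1 - q * z.2| ≤ p}) := by
    rw [← lintegral_indicator hS]
    refine lintegral_congr fun y => ?_
    by_cases hy : y ∈ S
    · rw [Set.indicator_of_mem hy]
      congr 1
      ext t
      simp [hy]
    · rw [Set.indicator_of_notMem hy]
      have : Prod.mk y ⁻¹' {z : ℝ × ℝ | z.1 ∈ S ∧ |z.1 - q * z.2| ≤ p} = ∅ := by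
        ext t
        simp [hy]
      rw [this, measure_empty]
  rw [e2, ← hA1, hA2]
  rfl

/-- the trapezoid -/
noncomputable def gg (p q s : ℝ) : ℝ :=
  if s ≤ p - q then 1 / (2 * p) else if s ≤ p + q then (p + q - s) / (4 * p * q) else 0

lemma mu_Icc {s : Set ℝ} {u v : ℝ} (h : Set.Icc (-1 : ℝ) 1 ∩ s = Set.Icc u v) :
    mu s = ENNReal.ofReal ((v - u) / 2) := by
  rw [mu_apply, h, Real.volume_Icc]
  have : (2 : ENNReal)⁻¹ = ENNReal.ofReal (2⁻¹) := by
    rw [ENNReal.ofReal_inv_of_pos (by norm_num)]; norm_num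
  rw [this, ← ENNReal.ofReal_mul (by norm_num)]
  congr 1
  ring

lemma dens_eq {p q : ℝ} (hp : 0 < p) (hq : 0 ≤ q) (hqp : q ≤ p) (y : ℝ) :
    ENNReal.ofReal (1 / (2 * p)) * mu {t | |y - q * t| ≤ p} = ENNReal.ofReal (gg p q |y|) := by
  have habs : ∀ t, t ∈ {t | |y - q * t| ≤ p} ↔ (-p ≤ y - q * t ∧ y - q * t ≤ p) := by
    intro t
    rw [Set.mem_ofPred_eq, abs_le]
  unfold gg
  split_ifs with h1 h2
  · have h3 : mu {t | |y - q * t| ≤ p} = 1 := by
      have h4 : Set.Icc (-1 : ℝ) 1 ∩ {t | |y - q * t| ≤ p} = Set.Icc (-1) 1 := by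
        ext t
        rw [Set.mem_inter_iff, habs, Set.mem_Icc]
        constructor
        · exact fun h => h.1
        · intro h
          have := abs_le.1 h1
          refine ⟨h, ?_, ?_⟩ <;> nlinarith [h.1, h.2, this.1, this.2]
      rw [mu_Icc h4]
      norm_num
    rw [h3, mul_one]
  · have hq0 : 0 < q := by
      rcases hq.lt_or_eq with h | h
      · exact h
      · exfalso; rw [← h] at h1 h2; simp at h1 h2; linarith
    rcases le_total 0 y with hy | hy
    · rw [abs_of_nonneg hy] at h1 h2 ⊢
      push Not at h1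
      have h4 : Set.Icc (-1 : ℝ) 1 ∩ {t | |y - q * t| ≤ p} = Set.Icc ((y - p) / q) 1 := by
        ext t
        rw [Set.mem_inter_iff, habs, Set.mem_Icc, Set.mem_Icc, div_le_iff₀ hq0]
        constructor
        · rintro ⟨⟨h5, h6⟩, h7, h8⟩
          exact ⟨by linarith, h6⟩
        · rintro ⟨h5, h6⟩
          refine ⟨⟨?_, h6⟩, ?_, by linarith⟩
          · nlinarith
          · nlinarith
      rw [mu_Icc h4, ← ENNReal.ofReal_mul (by positivity)]
      congr 1
      field_simp
      ring
    · rw [abs_of_nonpos hy] at h1 h2 ⊢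
      push Not at h1
      have h4 : Set.Icc (-1 : ℝ) 1 ∩ {t | |y - q * t| ≤ p} = Set.Icc (-1) ((y + p) / q) := by
        ext t
        rw [Set.mem_inter_iff, habs, Set.mem_Icc, Set.mem_Icc, le_div_iff₀ hq0]
        constructor
        · rintro ⟨⟨h5, h6⟩, h7, h8⟩
          exact ⟨h5, by linarith⟩
        · rintro ⟨h5, h6⟩
          refine ⟨⟨h5, ?_⟩, by linarith, ?_⟩
          · nlinarith
          · nlinarith
      rw [mu_Icc h4, ← ENNReal.ofReal_mul (by positivity)]
      congr 1
      field_simp
      ring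
  · push Not at h1 h2
    have h3 : mu {t | |y - q * t| ≤ p} = 0 := by
      rw [mu_apply]
      have : Set.Icc (-1 : ℝ) 1 ∩ {t | |y - q * t| ≤ p} = ∅ := by
        ext t
        rw [Set.mem_inter_iff, habs, Set.mem_Icc]
        simp only [Set.mem_empty_iff_false, iff_false]
        rintro ⟨⟨h5, h6⟩, h7, h8⟩
        have h9 : |y| ≤ p + q := by
          rw [abs_le]
          constructor <;> nlinarith
        linarith
      rw [this]; simp
    rw [h3]; simp

lemma gg_measurable (p q : ℝ) : Measurable (gg p q) := by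
  unfold gg
  apply Measurable.ite (measurableSet_le measurable_id measurable_const) measurable_const
  apply Measurable.ite (measurableSet_le measurable_id measurable_const)
  · fun_prop
  · exact measurable_const

lemma gg_nonneg {p q : ℝ} (hp : 0 < p) (hq : 0 ≤ q) (s : ℝ) : 0 ≤ gg p q s := by
  unfold gg
  split_ifs with h1 h2
  · positivity
  · apply div_nonneg
    · linarith
    · positivity
  · exact le_rfl

lemma int_slope {p q : ℝ} (hp : 0 < p) (hq : 0 < q) :
    ∫ s in (p - q)..(p + q), Real.negMulLog ((p + q - s) / (4 * p * q)) =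
      q / (2 * p) * Real.log (2 * p) + q / (4 * p) := by
  set Φ : ℝ → ℝ := fun u => u / 2 * Real.negMulLog u + u ^ 2 / 4 with hΦ
  have hΦc : Continuous Φ := by
    have := Real.continuous_negMulLog
    fun_prop
  have hΦd : ∀ u : ℝ, u ≠ 0 → HasDerivAt Φ (Real.negMulLog u) u := by
    intro u hu
    have h1 := ((hasDerivAt_id u).div_const 2).mul (Real.hasDerivAt_negMulLog hu)
    have h2 := ((hasDerivAt_id u).pow 2).div_const 4
    have h3 := h1.add h2
    refine (h3.congr_deriv ?_)
    simp only [id, Real.negMulLog]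
    ring
  have hpq : 0 < 4 * p * q := by positivity
  have key := intervalIntegral.integral_eq_sub_of_hasDerivAt_of_le
    (f := fun s => -(4 * p * q) * Φ ((p + q - s) / (4 * p * q)))
    (f' := fun s => Real.negMulLog ((p + q - s) / (4 * p * q)))
    (a := p - q) (b := p + q) (by linarith) (by fun_prop) ?_ ?_
  · rw [key]
    have e1 : (p + q - (p + q)) / (4 * p * q) = 0 := by simp
    have e2 : (p + q - (p - q)) / (4 * p * q) = 1 / (2 * p) := by
      field_simp; ring
    rw [e1, e2]
    simp only [hΦ, Real.negMulLog]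
    rw [one_div, Real.log_inv]
    simp only [Real.log_zero]
    field_simp
    ring
  · intro s hs
    have hne : (p + q - s) / (4 * p * q) ≠ 0 := by
      apply div_ne_zero _ hpq.ne'
      have := hs.2
      linarith
    have h1 : HasDerivAt (fun s : ℝ => (p + q - s) / (4 * p * q)) (-1 / (4 * p * q)) s := by
      have := ((hasDerivAt_id s).const_sub (p + q)).div_const (4 * p * q)
      exact this
    have h2 := ((hΦd _ hne).comp s h1).const_mul (-(4 * p * q))
    refine h2.congr_deriv ?_
    field_simp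
  · apply Continuous.intervalIntegrable
    have := Real.continuous_negMulLog
    fun_prop

lemma ent_formula (a : Fin 2 → ℝ) {p q : ℝ} (ha : a 0 = p) (ha' : a 1 = q) (hp : 0 < p)
    (hq : 0 ≤ q) (hqp : q ≤ p) : ent a = Real.log (2 * p) + q / (2 * p) := by
  have h1 : law a = volume.withDensity (fun y => ENNReal.ofReal (gg p q |y|)) := by
    rw [law_two, ha, ha', dens hp q]
    congr 1
    funext y
    exact dens_eq hp hq hqp y
  have hmeas : Measurable (fun y : ℝ => ENNReal.ofReal (gg p q |y|)) :=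
    ((gg_measurable p q).comp (by fun_prop)).ennreal_ofReal
  have h2 := Measure.rnDeriv_withDensity (volume : Measure ℝ) hmeas
  have h3 : ent a = ∫ y : ℝ, (fun s => Real.negMulLog (gg p q s)) |y| := by
    unfold ent
    rw [h1]
    refine integral_congr_ae ?_
    filter_upwards [h2] with y hy
    rw [hy, ENNReal.toReal_ofReal (gg_nonneg hp hq _)]
  rw [h3, integral_comp_abs (f := fun s => Real.negMulLog (gg p q s))]
  -- split the half line
  have hs : ∫ s in Set.Ioi (0:ℝ), Real.negMulLog (gg p q s) =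
      (∫ s in (0:ℝ)..(p - q), Real.negMulLog (gg p q s)) +
        ∫ s in (p - q)..(p + q), Real.negMulLog (gg p q s) := by
    have hc := Real.continuous_negMulLog
    have hint : ∀ a b : ℝ, IntervalIntegrable (fun s => Real.negMulLog (gg p q s)) volume a b := by
      intro a b
      rw [intervalIntegrable_iff]
      have hb : ∀ s, |gg p q s| ≤ 1 / (2 * p) := by
        intro s
        rw [abs_of_nonneg (gg_nonneg hp hq s)]
        unfold gg
        split_ifs with h1 h2
        · exact le_rfl
        · push Not at h1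
          have hq0 : 0 < q := by
            rcases hq.lt_or_eq with h | h
            · exact h
            · exfalso; rw [← h] at h1 h2; simp at h1 h2; linarith
          rw [div_le_div_iff₀ (by positivity) (by positivity)]
          nlinarith [mul_pos hp hq0]
        · positivity
      have hM : ∃ M, ∀ u ∈ Set.Icc (0:ℝ) (1 / (2 * p)), |Real.negMulLog u| ≤ M := by
        obtain ⟨M, hM⟩ := (isCompact_Icc (a := (0:ℝ)) (b := 1 / (2 * p))).exists_bound_of_continuousOn
          hc.continuousOn
        exact ⟨M, hM⟩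
      obtain ⟨M, hM⟩ := hM
      refine Measure.integrableOn_of_bounded (M := M) ?_ ?_ ?_
      · simp
      · exact (hc.measurable.comp (gg_measurable p q)).aestronglyMeasurable
      · refine Filter.Eventually.of_forall fun s => ?_
        have h5 := hb s
        rw [abs_of_nonneg (gg_nonneg hp hq s)] at h5
        exact hM _ ⟨gg_nonneg hp hq s, h5⟩
    rw [intervalIntegral.integral_add_adjacent_intervals (hint _ _) (hint _ _),
      intervalIntegral.integral_of_le (by linarith)]
    refine setIntegral_eq_of_subset_of_forall_sdiff_eq_zero measurableSet_Ioi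
      Set.Ioc_subset_Ioi_self ?_
    rintro s ⟨hs1, hs2⟩
    have h6 : p + q < s := by
      by_contra h
      push Not at h
      exact hs2 ⟨hs1, h⟩
    have : gg p q s = 0 := by
      unfold gg
      rw [if_neg (by linarith), if_neg (by linarith)]
    rw [this]; simp
  rw [hs]
  have i1 : ∫ s in (0:ℝ)..(p - q), Real.negMulLog (gg p q s) =
      (p - q) * (1 / (2 * p) * Real.log (2 * p)) := by
    have : ∫ s in (0:ℝ)..(p - q), Real.negMulLog (gg p q s) =
        ∫ s in (0:ℝ)..(p - q), Real.negMulLog (1 / (2 * p)) := by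
      apply intervalIntegral.integral_congr_ae
      refine Filter.Eventually.of_forall fun s hs => ?_
      rw [Set.uIoc_of_le (by linarith)] at hs
      unfold gg
      rw [if_pos hs.2]
    rw [this, intervalIntegral.integral_const, Real.negMulLog, smul_eq_mul, one_div, Real.log_inv]
    ring
  rw [i1]
  rcases hq.lt_or_eq with hq0 | hq0
  · have i2 : ∫ s in (p - q)..(p + q), Real.negMulLog (gg p q s) =
        ∫ s in (p - q)..(p + q), Real.negMulLog ((p + q - s) / (4 * p * q)) := by
      apply intervalIntegral.integral_congr_ae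
      refine Filter.Eventually.of_forall fun s hs => ?_
      rw [Set.uIoc_of_le (by linarith)] at hs
      unfold gg
      rw [if_neg (by linarith [hs.1]), if_pos hs.2]
    rw [i2, int_slope hp hq0]
    field_simp
    ring
  · rw [← hq0]
    simp only [sub_zero, add_zero, intervalIntegral.integral_same]
    field_simp
    ring

lemma ent_swap (a : Fin 2 → ℝ) : ent a = ent ![a 1, a 0] := by
  have : law a = law ![a 1, a 0] := by
    rw [law_two, law_two]
    have h := Measure.prod_swap (μ := mu) (ν := mu)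
    conv_lhs => rw [← h]
    rw [Measure.map_map (by fun_prop) measurable_swap]
    congr 1
    funext z
    simp
    ring
  unfold ent
  rw [this]

lemma final_ineq {p q : ℝ} (hp : 0 < p) (hq : 0 ≤ q) (hqp : q ≤ p) (hs : p ^ 2 + q ^ 2 = 1) :
    Real.log (2 * p) + q / (2 * p) ≤ Real.log 2 - Real.log 2 / 2 + 1 / 2 := by
  -- `t = q/p`, `F t = log 2 - log (1+t²)/2 + t/2`
  set t := q / p with ht
  have ht0 : 0 ≤ t := by positivity
  have ht1 : t ≤ 1 := by rw [ht, div_le_one hp]; exact hqp
  have hq' : q = t * p := by rw [ht]; field_simp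
  have hp2 : p ^ 2 = 1 / (1 + t ^ 2) := by
    rw [hq'] at hs
    rw [eq_div_iff (by positivity)]
    nlinarith
  have hlogp : Real.log p = -(Real.log (1 + t ^ 2)) / 2 := by
    have h1 : Real.log (p ^ 2) = -Real.log (1 + t ^ 2) := by
      rw [hp2, one_div, Real.log_inv]
    rw [Real.log_pow] at h1
    push_cast at h1
    linarith
  have hF : MonotoneOn (fun t : ℝ => t / 2 - Real.log (1 + t ^ 2) / 2) (Set.Icc 0 1) := by
    have hd : ∀ x : ℝ, HasDerivAt (fun t : ℝ => t / 2 - Real.log (1 + t ^ 2) / 2)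
        (1 / 2 - (2 * x) / (1 + x ^ 2) / 2) x := by
      intro x
      have h1 : HasDerivAt (fun t : ℝ => 1 + t ^ 2) (2 * x) x := by
        have := ((hasDerivAt_id x).pow 2).const_add 1
        refine this.congr_deriv ?_
        simp
      have h2 := (h1.log (by positivity)).div_const 2
      exact ((hasDerivAt_id x).div_const 2).sub h2
    apply monotoneOn_of_deriv_nonneg (convex_Icc 0 1)
    · exact fun x _ => (hd x).continuousAt.continuousWithinAt
    · exact fun x _ => (hd x).differentiableAt.differentiableWithinAt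
    · intro x _
      rw [(hd x).deriv]
      have h3 : 1 / 2 - (2 * x) / (1 + x ^ 2) / 2 = (1 - x) ^ 2 / (2 * (1 + x ^ 2)) := by
        field_simp
        ring
      rw [h3]
      positivity
  have h4 := hF ⟨ht0, ht1⟩ ⟨zero_le_one, le_rfl⟩ ht1
  simp only at h4
  rw [Real.log_mul (by norm_num) hp.ne', hlogp]
  have h5 : q / (2 * p) = t / 2 := by rw [ht]; field_simp
  rw [h5]
  have h6 : (1:ℝ) + 1 ^ 2 = 2 := by norm_num
  rw [h6] at h4
  linarith

end two

/-- the case n = 2 -/
theorem ent_two (a : Fin 2 → ℝ) (h0 : ∀ i, 0 ≤ a i) (hs : ∑ i, a i ^ 2 = 1) :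
    ent a ≤ ent (fun _ : Fin 2 => 1 / Real.sqrt 2) := by
  have h2 : (0:ℝ) < 1 / Real.sqrt 2 := by positivity
  have hr : ent (fun _ : Fin 2 => 1 / Real.sqrt 2) = Real.log 2 - Real.log 2 / 2 + 1 / 2 := by
    rw [ent_formula (fun _ : Fin 2 => 1 / Real.sqrt 2) rfl rfl h2 h2.le le_rfl]
    have e1 : 2 * (1 / Real.sqrt 2) = Real.sqrt 2 := by
      rw [mul_one_div, Real.div_sqrt]
    have e2 : 1 / Real.sqrt 2 / (2 * (1 / Real.sqrt 2)) = 1 / 2 := by
      field_simp
    rw [e2, e1, Real.log_sqrt (by norm_num)]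
    ring
  rw [Fin.sum_univ_two] at hs
  -- ordered version
  have key : ∀ b : Fin 2 → ℝ, 0 ≤ b 1 → b 1 ≤ b 0 → b 0 ^ 2 + b 1 ^ 2 = 1 →
      ent b ≤ ent (fun _ : Fin 2 => 1 / Real.sqrt 2) := by
    intro b hb1 hb hbs
    have hb0 : 0 < b 0 := by
      rcases (hb1.trans hb).lt_or_eq with h | h
      · exact h
      · exfalso
        have : b 1 = 0 := le_antisymm (hb.trans h.symm.le) hb1
        rw [← h, this] at hbs
        norm_num at hbs
    rw [hr, ent_formula b rfl rfl hb0 hb1 hb]
    exact final_ineq hb0 hb1 hb hbs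
  rcases le_total (a 1) (a 0) with h | h
  · exact key a (h0 1) h hs
  · rw [ent_swap]
    apply key
    · simpa using h0 0
    · simpa using h
    · simp; linarith

end US.S5422
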