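import Pool.Agent.Helper70.US.Defs
set_option autoImplicit false
namespace US.S5437








/-- hypotheses proved in another job: parity and support -/
def BdFacts : Prop := (∀ m : ℕ, Continuous (Bd m 0)) ∧ (∀ m : ℕ, 2 ≤ m → ∀ x : ℝ, Bd m 0 (-x) = Bd m 0 x) ∧
  (∀ m : ℕ, 2 ≤ m → ∀ x : ℝ, (m:ℝ) ≤ x → Bd m 0 x = 0)

theorem aux_gen (h : BdFacts) (m : ℕ) (hm : 2 ≤ m) :
    ∫ x, Real.negMulLog (Bd m 0 x) = 2 * ∫ x in (0:ℝ)..m, Real.negMulLog (Bd m 0 x) := by
  obtain ⟨hc, he, hs⟩ := h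
  set g : ℝ → ℝ := fun x => Real.negMulLog (Bd m 0 x) with hg
  have hgc : Continuous g := Real.continuous_negMulLog.comp (hc m)
  have hge : ∀ x, g (-x) = g x := fun x => by simp only [hg, he m hm]
  have hm0 : (0:ℝ) ≤ m := Nat.cast_nonneg m
  have hg0 : ∀ x, (m:ℝ) ≤ x → g x = 0 := fun x hx => by simp only [hg, hs m hm x hx]; simp
  have hsupp : Function.support g ⊆ Set.Ioc (-(m:ℝ)) m := by
    intro x hx
    rw [Function.mem_support] at hx
    constructor
    · by_contra hcon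
      push Not at hcon
      apply hx
      rw [← hge]
      exact hg0 _ (by linarith)
    · by_contra hcon
      push Not at hcon
      exact hx (hg0 _ hcon.le)
  rw [← intervalIntegral.integral_eq_integral_of_support_subset hsupp]
  have hii : ∀ a b : ℝ, IntervalIntegrable g MeasureTheory.volume a b :=
    fun a b => hgc.intervalIntegrable a b
  rw [← intervalIntegral.integral_add_adjacent_intervals (hii (-(m:ℝ)) 0) (hii 0 m)]
  have h1 : ∫ x in (-(m:ℝ))..0, g x = ∫ x in (0:ℝ)..m, g x := by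
    have := intervalIntegral.integral_comp_neg (a := 0) (b := (m:ℝ)) g
    rw [neg_zero] at this
    rw [← this]
    exact intervalIntegral.integral_congr fun x _ => hge x
  rw [h1]
  ring

theorem aux_gen2 (h : BdFacts) (m : ℕ) (hm : 2 ≤ m) (d : ℝ → ℝ)
    (hd : ∀ x : ℝ, 0 ≤ x → x ≤ (m : ℝ) → Bd m 0 x = d x) :
    ∫ x, Real.negMulLog (Bd m 0 x) = 2 * ∫ x in (0:ℝ)..m, Real.negMulLog (d x) := by
  rw [aux_gen h m hm]
  congr 1
  apply intervalIntegral.integral_congr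
  intro x hx
  rw [Set.uIcc_of_le (Nat.cast_nonneg m)] at hx
  simp only [hd x hx.1 hx.2]

theorem aux3 (h : BdFacts) (x : ℝ) (h0 : 0 ≤ x) (h1 : x ≤ 3) : Bd 3 0 x = d3 x := by
  rw [← h.2.1 3 (by norm_num)]
  unfold Bd T d3
  simp only [Finset.sum_range_succ, Finset.sum_range_zero]
  norm_num [Nat.choose, Nat.factorial]
  rw [max_eq_right (by linarith : (0:ℝ) ≤ -x + 3), max_eq_left (by linarith : -x + 3 - 4 ≤ 0),
    max_eq_left (by linarith : -x + 3 - 6 ≤ 0)]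
  split_ifs with h
  · rw [max_eq_right (by linarith : (0:ℝ) ≤ -x + 3 - 2)]
    ring
  · rw [max_eq_left (by linarith : -x + 3 - 2 ≤ 0)]
    ring

theorem aux4 (h : BdFacts) (x : ℝ) (h0 : 0 ≤ x) (h1 : x ≤ 4) : Bd 4 0 x = d4 x := by
  rw [← h.2.1 4 (by norm_num)]
  unfold Bd T d4
  simp only [Finset.sum_range_succ, Finset.sum_range_zero]
  norm_num [Nat.choose, Nat.factorial]
  rw [max_eq_right (by linarith : (0:ℝ) ≤ -x + 4), max_eq_left (by linarith : -x ≤ 0),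
    max_eq_left (by linarith : -x + 4 - 6 ≤ 0), max_eq_left (by linarith : -x + 4 - 8 ≤ 0)]
  split_ifs with h
  · rw [max_eq_right (by linarith : (0:ℝ) ≤ -x + 4 - 2)]
    ring
  · rw [max_eq_left (by linarith : -x + 4 - 2 ≤ 0)]
    ring

theorem aux5 (h : BdFacts) (x : ℝ) (h0 : 0 ≤ x) : Bd 5 0 x = d5 x := by
  rw [← h.2.1 5 (by norm_num)]
  unfold Bd T d5
  simp only [Finset.sum_range_succ, Finset.sum_range_zero]
  norm_num [Nat.choose, Nat.factorial]
  rw [max_eq_left (by linarith : -x + 5 - 6 ≤ 0), max_eq_left (by linarith : -x + 5 - 8 ≤ 0),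
    max_eq_left (by linarith : -x + 5 - 10 ≤ 0)]
  rw [show -x + 5 = 5 - x by ring, show 5 - x - 2 = 3 - x by ring, show 5 - x - 4 = 1 - x by ring]
  ring

theorem aux6 (h : BdFacts) (x : ℝ) (h0 : 0 ≤ x) : Bd 6 0 x = d6 x := by
  rw [← h.2.1 6 (by norm_num)]
  unfold Bd T d6
  simp only [Finset.sum_range_succ, Finset.sum_range_zero]
  norm_num [Nat.choose, Nat.factorial]
  rw [max_eq_left (by linarith : -x ≤ 0), max_eq_left (by linarith : -x + 6 - 8 ≤ 0),
    max_eq_left (by linarith : -x + 6 - 10 ≤ 0), max_eq_left (by linarith : -x + 6 - 12 ≤ 0)]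
  rw [show -x + 6 = 6 - x by ring, show 6 - x - 2 = 4 - x by ring, show 6 - x - 4 = 2 - x by ring]
  ring

theorem hn3_eq (h : BdFacts) : ∫ x, Real.negMulLog (Bd 3 0 x) = 2 * ∫ x in (0:ℝ)..3, Real.negMulLog (d3 x) := by
  have := aux_gen2 h 3 (by norm_num) d3 (fun x h0 h1 => aux3 h x h0 (by exact_mod_cast h1))
  exact_mod_cast this

theorem hn4_eq (h : BdFacts) : ∫ x, Real.negMulLog (Bd 4 0 x) = 2 * ∫ x in (0:ℝ)..4, Real.negMulLog (d4 x) := by
  have := aux_gen2 h 4 (by norm_num) d4 (fun x h0 h1 => aux4 h x h0 (by exact_mod_cast h1))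
  exact_mod_cast this

theorem hn5_eq (h : BdFacts) : ∫ x, Real.negMulLog (Bd 5 0 x) = 2 * ∫ x in (0:ℝ)..5, Real.negMulLog (d5 x) := by
  have := aux_gen2 h 5 (by norm_num) d5 (fun x h0 _ => aux5 h x h0)
  exact_mod_cast this

theorem hn6_eq (h : BdFacts) : ∫ x, Real.negMulLog (Bd 6 0 x) = 2 * ∫ x in (0:ℝ)..6, Real.negMulLog (d6 x) := by
  have := aux_gen2 h 6 (by norm_num) d6 (fun x h0 _ => aux6 h x h0)
  exact_mod_cast this

/-- also: the 16-fold of the density for n = 3 -/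
theorem Bd3_eq (h : BdFacts) (x : ℝ) (hx : |x| ≤ 3) :
    16 * Bd 3 0 x = if |x| ≤ 1 then 2 * (3 - x ^ 2) else (3 - |x|) ^ 2 := by
  have h1 : Bd 3 0 x = Bd 3 0 |x| := by
    rcases abs_choice x with h2 | h2
    · rw [h2]
    · rw [h2, h.2.1 3 (by norm_num)]
  rw [h1, aux3 h |x| (abs_nonneg x) hx]
  unfold d3
  rw [← sq_abs x]
  split_ifs <;> ring

end US.S5437
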