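import Pool.Agent.Helper70.US.F10
import Pool.Agent.Helper70.US.S4755
import Pool.Agent.Helper70.US.S4756
import Pool.Agent.Helper70.US.S4757
import Pool.Agent.Helper70.US.S5422
import Pool.Agent.Helper70.US.S5437
set_option autoImplicit false
open MeasureTheory intervalIntegral Set
namespace US
open S4691

theorem bdFacts : S5437.BdFacts :=
  ⟨fun m => Bd_cont m 0, fun m hm x => by rw [Bd_neg m 0 (by omega)]; simp,
    fun m hm x hx => Bd_right m 0 (by omega) x hx⟩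

theorem hn3_ge : (1.411:ℝ) ≤ hn 3 := by
  rw [hn, S5437.hn3_eq bdFacts]; exact S4756.ent3_lower
theorem hn4_ge : (1.555:ℝ) ≤ hn 4 := by
  rw [hn, S5437.hn4_eq bdFacts]; exact S4756.ent4_lower
theorem hn5_ge : (1.67:ℝ) ≤ hn 5 := by
  rw [hn, S5437.hn5_eq bdFacts]; exact S4757.ent5_lower
theorem hn6_ge : (1.757:ℝ) ≤ hn 6 := by
  rw [hn, S5437.hn6_eq bdFacts]; exact S4757.ent6_lower

theorem main_4 (a : Fin 4 → ℝ) (ha0 : ∀ i, 0 ≤ a i) (hs : ∑ i, a i ^ 2 = 1) :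
    ent a ≤ ent (fun _ : Fin 4 => 1 / Real.sqrt (4 : ℕ)) :=
  main4 hn4_ge (fun b h1 h2 => S4755.LW_scalar4 b h1 h2) a ha0 hs
theorem main_5 (a : Fin 5 → ℝ) (ha0 : ∀ i, 0 ≤ a i) (hs : ∑ i, a i ^ 2 = 1) :
    ent a ≤ ent (fun _ : Fin 5 => 1 / Real.sqrt (5 : ℕ)) :=
  main5 hn5_ge (fun b h1 h2 => S4755.LW_scalar5 b h1 h2) a ha0 hs
theorem main_6 (a : Fin 6 → ℝ) (ha0 : ∀ i, 0 ≤ a i) (hs : ∑ i, a i ^ 2 = 1) :
    ent a ≤ ent (fun _ : Fin 6 => 1 / Real.sqrt (6 : ℕ)) :=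
  main6 hn6_ge (fun b h1 h2 => S4755.LW_scalar6 b h1 h2) a ha0 hs

theorem main_2 (a : Fin 2 → ℝ) (ha0 : ∀ i, 0 ≤ a i) (hs : ∑ i, a i ^ 2 = 1) :
    ent a ≤ ent (fun _ : Fin 2 => 1 / Real.sqrt (2 : ℕ)) := by
  have := S5422.ent_two a ha0 hs
  exact_mod_cast this

theorem main_1 (a : Fin 1 → ℝ) (ha0 : ∀ i, 0 ≤ a i) (hs : ∑ i, a i ^ 2 = 1) :
    ent a ≤ ent (fun _ : Fin 1 => 1 / Real.sqrt (1 : ℕ)) := by
  have h : a = fun _ => 1 / Real.sqrt (1 : ℕ) := by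
    ext i
    fin_cases i
    simp at hs ⊢
    rcases hs with h | h
    · exact h
    · have := ha0 0; rw [h] at this; linarith
  rw [← h]

/-- everything except n = 3 -/
theorem main_ne3 (n : ℕ) (h1 : 1 ≤ n) (h3 : n ≠ 3) (a : Fin n → ℝ) (ha0 : ∀ i, 0 ≤ a i)
    (hs : ∑ i, a i ^ 2 = 1) :
    ent a ≤ ent (fun _ : Fin n => 1 / Real.sqrt n) := by
  rcases le_or_gt 7 n with h7 | h7
  · exact main_ge7 n h7 a ha0 hs
  · interval_cases n
    · exact main_1 a ha0 hs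
    · exact main_2 a ha0 hs
    · exact absurd rfl h3
    · exact main_4 a ha0 hs
    · exact main_5 a ha0 hs
    · exact main_6 a ha0 hs

/-- reduction to nonnegative weights -/
theorem ent_abs {n : ℕ} (a : Fin n → ℝ) : ent (fun i => |a i|) = ent a := by
  unfold ent; rw [law_abs]

end US
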