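import Pool.Agent.Helper70.US.F11
set_option autoImplicit false
open MeasureTheory intervalIntegral Set
namespace US
open S4691

/-- `Iw φ c w = ∫_0^w x (φ(x+c) - φ(x-c)) dx` -/
noncomputable def Iw (φ : ℝ → ℝ) (c w : ℝ) : ℝ := ∫ x in (0:ℝ)..w, x * (φ (x + c) - φ (x - c))

theorem G_deriv {φ : ℝ → ℝ} (hφ : Continuous φ) {c : ℝ} (hc : 0 < c) {v : ℝ} (hv : 0 < v) :
    HasDerivAt (G (A c φ)) (Iw φ c (Real.sqrt v) / (4 * c * (Real.sqrt v) ^ 3)) v := by
  obtain ⟨Φ, hΦ⟩ := exists_prim hφ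
  have hAc : A c φ = fun x => (Φ (x + c) - Φ (x - c)) / (2 * c) := by
    ext x; exact A_eq hφ hΦ hc.ne' x
  have hψd : ∀ x, HasDerivAt (A c φ) ((φ (x + c) - φ (x - c)) / (2 * c)) x := by
    intro x
    rw [hAc]
    have e1 : HasDerivAt (fun x => Φ (x + c)) (φ (x + c)) x := by
      simpa using (hΦ (x + c)).comp_add_const x c
    have e2 : HasDerivAt (fun x => Φ (x - c)) (φ (x - c)) x := by
      simpa using (hΦ (x - c)).comp_sub_const x c
    exact (e1.sub e2).div_const _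
  have hψ : Continuous (A c φ) := A_cont hφ c
  obtain ⟨F0, hF0⟩ := exists_prim hψ
  obtain ⟨F, hF, hFz⟩ : ∃ F : ℝ → ℝ, (∀ x, HasDerivAt F (A c φ x) x) ∧ F 0 = 0 :=
    ⟨fun x => F0 x - F0 0, fun x => by simpa using (hF0 x).sub_const (F0 0), by simp⟩
  set w := Real.sqrt v with hw
  have hw0 : 0 < w := Real.sqrt_pos.2 hv
  have hN : Iw φ c w = 2 * c * (w * A c φ w - F w) := by
    have h1 : ∀ x ∈ uIcc (0:ℝ) w, HasDerivAt (fun x => 2 * c * (x * A c φ x - F x))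
        (x * (φ (x + c) - φ (x - c))) x := by
      intro x _
      have h2 := (((hasDerivAt_id x).mul (hψd x)).sub (hF x)).const_mul (2 * c)
      have e : 2 * c * (1 * A c φ x + id x * ((φ (x + c) - φ (x - c)) / (2 * c)) - A c φ x) =
          x * (φ (x + c) - φ (x - c)) := by
        simp only [id]; field_simp; ring
      rw [e] at h2
      exact h2
    unfold Iw
    rw [intervalIntegral.integral_eq_sub_of_hasDerivAt h1
      ((by fun_prop : Continuous fun x => x * (φ (x + c) - φ (x - c))).intervalIntegrable _ _)]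
    simp [hFz]
  have hder : HasDerivAt (fun v => F (Real.sqrt v) / Real.sqrt v) (Iw φ c w / (4 * c * w ^ 3)) v := by
    have h1 := (hF w).comp v (Real.hasDerivAt_sqrt hv.ne')
    have h2 := h1.div (Real.hasDerivAt_sqrt hv.ne') (by rw [← hw]; exact hw0.ne')
    have h3 : HasDerivAt (fun v => F (Real.sqrt v) / Real.sqrt v)
        ((A c φ w * (1 / (2 * w)) * w - F w * (1 / (2 * w))) / w ^ 2) v := h2
    refine h3.congr_deriv ?_
    rw [hN]
    field_simp
    ring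
  apply hder.congr_of_eventuallyEq
  filter_upwards [lt_mem_nhds hv] with y hy
  exact G_eq hψ hF hFz hy

theorem G_sym_mono {φ : ℝ → ℝ} (hφ : Continuous φ) {c : ℝ} (hc : 0 < c) {r2 S : ℝ}
    (hr : S ≤ r2)
    (hcmp : ∀ w1 w2 : ℝ, 0 < w2 → w2 ≤ w1 → w1 ^ 2 + w2 ^ 2 = 2 * r2 → w1 ^ 2 ≤ r2 + S →
      Iw φ c w2 / w2 ^ 3 ≤ Iw φ c w1 / w1 ^ 3)
    (s s' : ℝ) (h0 : 0 ≤ s) (hss : s ≤ s') (hs' : s' ≤ S) :
    G (A c φ) (r2 + s) + G (A c φ) (r2 - s) ≤ G (A c φ) (r2 + s') + G (A c φ) (r2 - s') := by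
  have hG : Continuous (G (A c φ)) := G_cont (A_cont hφ c)
  have hmono : MonotoneOn (fun s => G (A c φ) (r2 + s) + G (A c φ) (r2 - s)) (Icc 0 S) := by
    have hder : ∀ y ∈ Ioo (0:ℝ) S, HasDerivAt (fun s => G (A c φ) (r2 + s) + G (A c φ) (r2 - s))
        (Iw φ c (Real.sqrt (r2 + y)) / (4 * c * (Real.sqrt (r2 + y)) ^ 3) +
          -(Iw φ c (Real.sqrt (r2 - y)) / (4 * c * (Real.sqrt (r2 - y)) ^ 3))) y := by
      intro y hy
      have e1 : HasDerivAt (fun s => G (A c φ) (r2 + s)) _ y :=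
        (G_deriv hφ hc (v := r2 + y) (by linarith [hy.1, hy.2])).comp_const_add r2 y
      have e2 : HasDerivAt (fun s => G (A c φ) (r2 - s)) _ y :=
        (G_deriv hφ hc (v := r2 - y) (by linarith [hy.1, hy.2])).comp_const_sub r2 y
      exact e1.add e2
    apply monotoneOn_of_deriv_nonneg (convex_Icc 0 S)
    · exact (by fun_prop : Continuous fun s => G (A c φ) (r2 + s) + G (A c φ) (r2 - s)).continuousOn
    · intro y hy
      rw [interior_Icc] at hy
      exact (hder y hy).differentiableAt.differentiableWithinAt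
    · intro y hy
      rw [interior_Icc] at hy
      rw [(hder y hy).deriv]
      have hp1 : 0 < r2 + y := by linarith [hy.1, hy.2]
      have hp2 : 0 < r2 - y := by linarith [hy.1, hy.2]
      have hw1 := Real.sqrt_pos.2 hp1
      have hw2 := Real.sqrt_pos.2 hp2
      have := hcmp (Real.sqrt (r2 + y)) (Real.sqrt (r2 - y)) hw2
        (Real.sqrt_le_sqrt (by linarith [hy.1]))
        (by rw [Real.sq_sqrt hp1.le, Real.sq_sqrt hp2.le]; ring)
        (by rw [Real.sq_sqrt hp1.le]; linarith [hy.2])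
      have e : ∀ I w : ℝ, I / (4 * c * w ^ 3) = (1 / (4 * c)) * (I / w ^ 3) := by
        intro I w
        rw [div_mul_div_comm, one_mul]
      rw [e, e]
      have h4 : 0 ≤ 1 / (4 * c) := by positivity
      nlinarith [mul_le_mul_of_nonneg_left this h4]
  exact hmono ⟨h0, by linarith⟩ ⟨by linarith, hs'⟩ hss

theorem A_even {ψ : ℝ → ℝ} (hev : ∀ x, ψ (-x) = ψ x) (c x : ℝ) : A c ψ (-x) = A c ψ x := by
  unfold A
  congr 1
  have := intervalIntegral.integral_comp_neg (a := -1) (b := 1) (fun t => ψ (-x + c * t))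
  simp only [neg_neg] at this
  rw [← this]
  apply intervalIntegral.integral_congr
  intro t _
  simp only
  rw [← hev]; congr 1; ring

/-- pair step -/
theorem pair_step3 {φ : ℝ → ℝ} (hφ : Continuous φ) (hev : ∀ x, φ (-x) = φ x) {a b a' b' c : ℝ}
    (hc : 0 < c) (ha : 0 ≤ a) (hb : 0 ≤ b) (ha' : 0 ≤ a') (hb' : 0 ≤ b')
    (hr : a ^ 2 + b ^ 2 = a' ^ 2 + b' ^ 2) (hab : a * b ≤ a' * b')
    (hcmp : ∀ w1 w2 : ℝ, 0 < w2 → w2 ≤ w1 → w1 ^ 2 + w2 ^ 2 = 2 * (a ^ 2 + b ^ 2) → w1 ≤ a' + b' →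
      Iw φ c w2 / w2 ^ 3 ≤ Iw φ c w1 / w1 ^ 3) :
    A a (A b (A c φ)) 0 ≤ A a' (A b' (A c φ)) 0 := by
  apply pair_step_of_sym (A_cont hφ c) (A_even hev c) ha hb ha' hb' hr hab
  apply G_sym_mono hφ hc
  · nlinarith [sq_nonneg (a' - b')]
  · intro w1 w2 h1 h2 h3 h4
    apply hcmp w1 w2 h1 h2 h3
    have : w1 ^ 2 ≤ (a' + b') ^ 2 := by nlinarith
    exact abs_le_of_sq_le_sq' this (by linarith) |>.2

end US
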