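import Pool.Agent.Helper70.US.Defs
set_option autoImplicit false
namespace US.S4665




open Set

lemma I3u_logA {z : ℝ} (h1 : -0.155 ≤ z) (h2 : z ≤ 0.6625) :
    -2 * Real.log (1 - z) ≤ 2 * z + 1.33 * z ^ 2 - 0.95 * z ^ 3 + 2.94 * z ^ 4 := by
  let h : ℝ → ℝ := fun z => 2 * z + 1.33 * z ^ 2 - 0.95 * z ^ 3 + 2.94 * z ^ 4 + 2 * Real.log (1 - z)
  have hd : ∀ z : ℝ, z < 1 → HasDerivAt h
      (z * (0.66 - 5.51 * z + 14.61 * z ^ 2 - 11.76 * z ^ 3) / (1 - z)) z := by
    intro z hz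
    have hz1 : (1 - z) ≠ 0 := by linarith
    have e1 : HasDerivAt (fun z : ℝ => Real.log (1 - z)) ((-1) / (1 - z)) z := by
      have := ((hasDerivAt_id z).const_sub 1).log hz1
      simpa using this
    have e2 := ((((hasDerivAt_id z).const_mul 2).add ((hasDerivAt_pow 2 z).const_mul 1.33)).sub
      ((hasDerivAt_pow 3 z).const_mul 0.95)).add ((hasDerivAt_pow 4 z).const_mul 2.94)
    have e3 := e2.add (e1.const_mul 2)
    refine e3.congr_deriv ?_
    field_simp
    norm_num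
    ring
  have h0 : h 0 = 0 := by simp [h]
  have key : 0 ≤ h z := by
    rcases le_total 0 z with hz | hz
    · have hm : MonotoneOn h (Icc 0 0.6625) := by
        apply monotoneOn_of_deriv_nonneg (convex_Icc _ _)
        · intro y hy
          exact (hd y (by linarith [hy.2])).continuousAt.continuousWithinAt
        · intro y hy
          rw [interior_Icc] at hy
          exact (hd y (by linarith [hy.2])).differentiableAt.differentiableWithinAt
        · intro y hy
          rw [interior_Icc] at hy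
          rw [(hd y (by linarith [hy.2])).deriv]
          have hy1 := hy.1
          have hy2 := hy.2
          refine div_nonneg (mul_nonneg hy1.le ?_) (by linarith)
          nlinarith [mul_nonneg (by linarith : (0:ℝ) ≤ 0.6625 - y) (sq_nonneg (y - 0.29)), mul_pos hy1 (by linarith : (0:ℝ) < 0.6625 - y)]
      have := hm (left_mem_Icc.2 (by norm_num)) (show z ∈ Icc (0:ℝ) 0.6625 from ⟨hz, h2⟩) hz
      rwa [h0] at this
    · have hm : AntitoneOn h (Icc (-0.155) 0) := by
        apply antitoneOn_of_deriv_nonpos (convex_Icc _ _)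
        · intro y hy
          exact (hd y (by linarith [hy.2])).continuousAt.continuousWithinAt
        · intro y hy
          rw [interior_Icc] at hy
          exact (hd y (by linarith [hy.2])).differentiableAt.differentiableWithinAt
        · intro y hy
          rw [interior_Icc] at hy
          rw [(hd y (by linarith [hy.2])).deriv]
          have hy1 := hy.1
          have hy2 := hy.2
          have h3 : 0 ≤ 0.66 - 5.51 * y + 14.61 * y ^ 2 - 11.76 * y ^ 3 := by
            have : 0 ≤ (-y) ^ 3 := by apply pow_nonneg; linarith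
            nlinarith [sq_nonneg y]
          have h4 : y * (0.66 - 5.51 * y + 14.61 * y ^ 2 - 11.76 * y ^ 3) ≤ 0 :=
            mul_nonpos_of_nonpos_of_nonneg hy2.le h3
          exact div_nonpos_of_nonpos_of_nonneg h4 (by linarith)
      have := hm (show z ∈ Icc (-0.155:ℝ) 0 from ⟨h1, hz⟩) (right_mem_Icc.2 (by norm_num)) hz
      rwa [h0] at this
  simp only [h] at key
  linarith

lemma I3u_logB {v : ℝ} (h1 : -0.5 ≤ v) (h2 : v ≤ 0.5) :
    Real.log (1 + v) ≤ v - v ^ 2 / 3 := by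
  let h : ℝ → ℝ := fun v => v - v ^ 2 / 3 - Real.log (1 + v)
  have hd : ∀ v : ℝ, -1 < v → HasDerivAt h (v * (1 - 2 * v) / (3 * (1 + v))) v := by
    intro z hz
    have hz1 : (1 + z) ≠ 0 := by linarith
    have e1 : HasDerivAt (fun z : ℝ => Real.log (1 + z)) (1 / (1 + z)) z := by
      have := ((hasDerivAt_id z).const_add 1).log hz1
      simpa using this
    have e2 := ((hasDerivAt_id z).sub ((hasDerivAt_pow 2 z).div_const 3)).sub e1
    refine e2.congr_deriv ?_
    field_simp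
    norm_num
    ring
  have h0 : h 0 = 0 := by simp [h]
  have key : 0 ≤ h v := by
    rcases le_total 0 v with hz | hz
    · have hm : MonotoneOn h (Icc 0 0.5) := by
        apply monotoneOn_of_deriv_nonneg (convex_Icc _ _)
        · intro y hy
          exact (hd y (by linarith [hy.1])).continuousAt.continuousWithinAt
        · intro y hy
          rw [interior_Icc] at hy
          exact (hd y (by linarith [hy.1])).differentiableAt.differentiableWithinAt
        · intro y hy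
          rw [interior_Icc] at hy
          rw [(hd y (by linarith [hy.1])).deriv]
          have hy1 := hy.1
          have hy2 := hy.2
          exact div_nonneg (mul_nonneg hy1.le (by linarith)) (by linarith)
      have := hm (left_mem_Icc.2 (by norm_num)) (show v ∈ Icc (0:ℝ) 0.5 from ⟨hz, h2⟩) hz
      rwa [h0] at this
    · have hm : AntitoneOn h (Icc (-0.5) 0) := by
        apply antitoneOn_of_deriv_nonpos (convex_Icc _ _)
        · intro y hy
          exact (hd y (by linarith [hy.1])).continuousAt.continuousWithinAt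
        · intro y hy
          rw [interior_Icc] at hy
          exact (hd y (by linarith [hy.1])).differentiableAt.differentiableWithinAt
        · intro y hy
          rw [interior_Icc] at hy
          rw [(hd y (by linarith [hy.1])).deriv]
          have hy1 := hy.1
          have hy2 := hy.2
          have h4 : y * (1 - 2 * y) ≤ 0 :=
            mul_nonpos_of_nonpos_of_nonneg hy2.le (by linarith)
          exact div_nonpos_of_nonpos_of_nonneg h4 (by linarith)
      have := hm (show v ∈ Icc (-0.5:ℝ) 0 from ⟨h1, hz⟩) (right_mem_Icc.2 (by norm_num)) hz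
      rwa [h0] at this
  simp only [h] at key
  linarith

lemma g3_le {x : ℝ} (h : |x| ≤ 1) : g3 x = 2 * (3 - x ^ 2) := by simp [g3, h]

lemma g3_ge {x : ℝ} (h : 1 ≤ |x|) : g3 x = (3 - |x|) ^ 2 := by
  rcases h.lt_or_eq with h1 | h1
  · simp [g3, not_le.2 h1]
  · have h2 : |x| ≤ 1 := h1.symm.le
    rw [g3_le h2, ← sq_abs, ← h1]; norm_num

lemma g3_pos {x : ℝ} (h : |x| < 3) : 0 < g3 x := by
  rcases le_total |x| 1 with h1 | h1
  · rw [g3_le h1]
    have := (sq_le_one_iff_abs_le_one x).2 h1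
    linarith
  · rw [g3_ge h1]
    have : 0 < 3 - |x| := by linarith
    positivity

lemma g3_cont : Continuous g3 := by
  unfold g3
  refine Continuous.if_le (by fun_prop) (by fun_prop) (by fun_prop) (by fun_prop) ?_
  intro x hx
  rw [← sq_abs, hx]; norm_num

lemma ph3_cont : ContinuousOn ph3 (Ioo (-3) 3) := by
  unfold ph3
  refine ContinuousOn.neg (ContinuousOn.log g3_cont.continuousOn ?_)
  intro x hx
  exact (g3_pos (abs_lt.2 ⟨hx.1, hx.2⟩)).ne'

lemma ph3_C2 {s : ℝ} (h1 : 1 ≤ s) (h2 : s ≤ 2.325) : ph3 s ≤ -2 * Real.log 2 +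
    (2 * ((s-1)/2) + 1.33 * ((s-1)/2) ^ 2 - 0.95 * ((s-1)/2) ^ 3 + 2.94 * ((s-1)/2) ^ 4) := by
  have ha : |s| = s := abs_of_nonneg (by linarith)
  rw [ph3, g3_ge (by rw [ha]; exact h1), ha]
  have e1 : (3 - s) = 2 * (1 - (s-1)/2) := by ring
  have e2 : Real.log ((3 - s) ^ 2) = 2 * (Real.log 2 + Real.log (1 - (s-1)/2)) := by
    rw [Real.log_pow, e1, Real.log_mul (by norm_num) (by linarith)]
    norm_num
  rw [e2]
  have := I3u_logA (z := (s-1)/2) (by linarith) (by linarith)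
  linarith

lemma ph3_C1 {s : ℝ} (h1 : s ≤ 1) (h2 : 0.69 ≤ s) : ph3 s ≤ -2 * Real.log 2 +
    (2 * ((s-1)/2) + 1.33 * ((s-1)/2) ^ 2 - 0.95 * ((s-1)/2) ^ 3 + 2.94 * ((s-1)/2) ^ 4)
      + 1.01 * (1 - s) ^ 2 := by
  have ha : |s| = s := abs_of_nonneg (by linarith)
  rw [ph3, g3_le (by rw [ha]; exact h1)]
  have e1 : (3 - s) = 2 * (1 - (s-1)/2) := by ring
  have e2 : Real.log ((3 - s) ^ 2) = 2 * (Real.log 2 + Real.log (1 - (s-1)/2)) := by
    rw [Real.log_pow, e1, Real.log_mul (by norm_num) (by linarith)]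
    norm_num
  have hp : 0 < 2 * (3 - s ^ 2) := by nlinarith
  have e3 : Real.log ((3 - s) ^ 2) - Real.log (2 * (3 - s ^ 2)) ≤ 1.01 * (1 - s) ^ 2 := by
    rw [← Real.log_div (by nlinarith) hp.ne']
    have e4 : (3 - s) ^ 2 / (2 * (3 - s ^ 2)) ≤ 1 + 1.01 * (1 - s) ^ 2 := by
      rw [div_le_iff₀ hp]
      have h5 : s ^ 2 ≤ 1 := by nlinarith
      nlinarith [mul_nonneg (sq_nonneg (1 - s)) (by linarith : (0:ℝ) ≤ 1 - s ^ 2), sq_nonneg (1-s)]
    have e5 : 0 < (3 - s) ^ 2 / (2 * (3 - s ^ 2)) := by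
      have : 0 < (3 - s) ^ 2 := by apply pow_pos; linarith
      positivity
    have := Real.log_le_sub_one_of_pos e5
    linarith
  have := I3u_logA (z := (s-1)/2) (by linarith) (by linarith)
  linarith

lemma ph3_D1 {r : ℝ} (h1 : |r| ≤ 1) : - ph3 r ≤ 2 * Real.log 2 +
    ((1 - r ^ 2) / 2 - ((1 - r ^ 2) / 2) ^ 2 / 3) := by
  rw [ph3, g3_le h1, neg_neg]
  have h5 : r ^ 2 ≤ 1 := (sq_le_one_iff_abs_le_one r).2 h1
  have e1 : 2 * (3 - r ^ 2) = 2 ^ 2 * (1 + (1 - r ^ 2) / 2) := by ring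
  rw [e1, Real.log_mul (by norm_num) (by linarith), Real.log_pow]
  have := I3u_logB (v := (1 - r ^ 2) / 2) (by linarith) (by nlinarith [sq_nonneg r])
  push_cast
  linarith

lemma ph3_D2 {r : ℝ} (h1 : 1 ≤ |r|) (h2 : |r| ≤ 1.225) : - ph3 r ≤ 2 * Real.log 2 +
    ((1 - r ^ 2) / 2 - ((1 - r ^ 2) / 2) ^ 2 / 3) + 1.01 * (|r| - 1) ^ 2 := by
  rw [ph3, g3_ge h1, neg_neg]
  have hr : r ^ 2 = |r| ^ 2 := (sq_abs r).symm
  rw [hr]
  set s := |r| with hs
  have e1 : 2 * (3 - s ^ 2) = 2 ^ 2 * (1 + (1 - s ^ 2) / 2) := by ring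
  have h3 : s ^ 2 ≤ 1.225 ^ 2 := by apply pow_le_pow_left₀ (by linarith) h2
  have hp : 0 < 2 * (3 - s ^ 2) := by nlinarith
  have e3 : Real.log ((3 - s) ^ 2) - Real.log (2 * (3 - s ^ 2)) ≤ 1.01 * (s - 1) ^ 2 := by
    rw [← Real.log_div (by nlinarith) hp.ne']
    have e4 : (3 - s) ^ 2 / (2 * (3 - s ^ 2)) ≤ 1 + 1.01 * (s - 1) ^ 2 := by
      rw [div_le_iff₀ hp]
      norm_num at h3
      nlinarith [mul_nonneg (sq_nonneg (s - 1)) (by linarith : (0:ℝ) ≤ 2401/1600 - s ^ 2), sq_nonneg (s - 1)]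
    have e5 : 0 < (3 - s) ^ 2 / (2 * (3 - s ^ 2)) := by
      have : 0 < (3 - s) ^ 2 := by apply pow_pos; linarith
      positivity
    have := Real.log_le_sub_one_of_pos e5
    linarith
  have e6 : Real.log (2 * (3 - s ^ 2)) = 2 * Real.log 2 + Real.log (1 + (1 - s ^ 2) / 2) := by
    rw [e1, Real.log_mul (by norm_num) (by nlinarith), Real.log_pow]
    norm_num
  have := I3u_logB (v := (1 - s ^ 2) / 2) (by nlinarith) (by nlinarith)
  linarith

/-- majorant -/
noncomputable def fU (c x : ℝ) : ℝ := x * ((2 * ((x+c-1)/2) + 1.33 * ((x+c-1)/2) ^ 2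
  - 0.95 * ((x+c-1)/2) ^ 3 + 2.94 * ((x+c-1)/2) ^ 4) +
    ((1 - (x-c) ^ 2) / 2 - ((1 - (x-c) ^ 2) / 2) ^ 2 / 3))

lemma ptA {c w x : ℝ} (hc : 0.69 ≤ c) (hc2 : c ≤ 1.225) (hw2 : w ≤ 1.1) (hx : 0 ≤ x)
    (hxw : x ≤ w) (he : |1 - c| ≤ x) : x * (ph3 (x + c) - ph3 (x - c)) ≤ fU c x := by
  have h1 := (abs_le.1 he).1
  have h2 := (abs_le.1 he).2
  have a1 := ph3_C2 (s := x + c) (by linarith) (by linarith)
  have a2 := ph3_D1 (r := x - c) (abs_le.2 ⟨by linarith, by linarith⟩)
  unfold fU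
  exact mul_le_mul_of_nonneg_left (by linarith) hx

lemma ptB {c w x : ℝ} (hc : 0.69 ≤ c) (hc2 : c ≤ 1.225) (hw2 : w ≤ 1.1) (hx : 0 ≤ x)
    (hxw : x ≤ w) (he : x ≤ |1 - c|) : x * (ph3 (x + c) - ph3 (x - c)) ≤
      fU c x + 1.01 * (x * (|1 - c| - x) ^ 2) := by
  rcases le_total c 1 with h | h
  · rw [abs_of_nonneg (by linarith)] at he ⊢
    have a1 := ph3_C1 (s := x + c) (by linarith) (by linarith)
    have a2 := ph3_D1 (r := x - c) (abs_le.2 ⟨by linarith, by linarith⟩)
    unfold fU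
    have e1 : (1 - (x + c)) ^ 2 = (1 - c - x) ^ 2 := by ring
    rw [e1] at a1
    have := mul_le_mul_of_nonneg_left (add_le_add a1 a2) hx
    nlinarith [this]
  · rw [abs_of_nonpos (by linarith)] at he ⊢
    have a1 := ph3_C2 (s := x + c) (by linarith) (by linarith)
    have hab : |x - c| = c - x := by rw [abs_of_nonpos (by linarith)]; ring
    have a2 := ph3_D2 (r := x - c) (by rw [hab]; linarith) (by rw [hab]; linarith)
    rw [hab] at a2
    unfold fU
    have e1 : (c - x - 1) ^ 2 = (-(1 - c) - x) ^ 2 := by ring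
    rw [e1] at a2
    have := mul_le_mul_of_nonneg_left (add_le_add a1 a2) hx
    nlinarith [this]

lemma int5 (a1 a2 a3 a4 a5 p q : ℝ) :
    ∫ x in p..q, (a1 * x + a2 * x ^ 2 + a3 * x ^ 3 + a4 * x ^ 4 + a5 * x ^ 5) =
      (a1 * q ^ 2 / 2 + a2 * q ^ 3 / 3 + a3 * q ^ 4 / 4 + a4 * q ^ 5 / 5 + a5 * q ^ 6 / 6) -
      (a1 * p ^ 2 / 2 + a2 * p ^ 3 / 3 + a3 * p ^ 4 / 4 + a4 * p ^ 5 / 5 + a5 * p ^ 6 / 6) := by
  refine intervalIntegral.integral_eq_sub_of_hasDerivAt (f := fun q =>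
    a1 * q ^ 2 / 2 + a2 * q ^ 3 / 3 + a3 * q ^ 4 / 4 + a4 * q ^ 5 / 5 + a5 * q ^ 6 / 6) ?_ ?_
  · intro x _
    have := (((((hasDerivAt_pow 2 x).const_mul a1).div_const 2).add
      (((hasDerivAt_pow 3 x).const_mul a2).div_const 3)).add
      (((hasDerivAt_pow 4 x).const_mul a3).div_const 4)).add
      (((hasDerivAt_pow 5 x).const_mul a4).div_const 5) |>.add
      (((hasDerivAt_pow 6 x).const_mul a5).div_const 6)
    refine this.congr_deriv ?_
    norm_num
    ring
  · exact (Continuous.intervalIntegrable (by fun_prop) _ _)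

lemma fU_poly (c x : ℝ) : fU c x =
    (31/600 + (-121/160)*c^1 + (3499/2400)*c^2 + (-683/800)*c^3 + (241/2400)*c^4) * x +
    ((-121/160) + (5099/1200)*c^1 + (-2049/800)*c^2 + (641/600)*c^3) * x ^ 2 +
    ((3499/2400) + (-2049/800)*c^1 + (241/400)*c^2) * x ^ 3 +
    ((-683/800) + (641/600)*c^1) * x ^ 4 + (241/2400) * x ^ 5 := by
  unfold fU
  norm_num
  ring

lemma fin_ineq {c w : ℝ} (hc : 0.69 ≤ c) (hc2 : c ≤ 1.225) (hw : 0.5 ≤ w) (hw2 : w ≤ 1.1) :
    3 * (((31/600 + (-121/160)*c^1 + (3499/2400)*c^2 + (-683/800)*c^3 + (241/2400)*c^4)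
      * w ^ 2 / 2 +
    ((-121/160) + (5099/1200)*c^1 + (-2049/800)*c^2 + (641/600)*c^3) * w ^ 3 / 3 +
    ((3499/2400) + (-2049/800)*c^1 + (241/400)*c^2) * w ^ 4 / 4 +
    ((-683/800) + (641/600)*c^1) * w ^ 5 / 5 + (241/2400) * w ^ 6 / 6)
     + 1.01 * ((1 - c) ^ 4 / 12)) ≤ 0.9375 * (2 * c) * w ^ 3 := by
  obtain ⟨a, ha⟩ : ∃ a, a = (c - 69/100) / (107/200) := ⟨_, rfl⟩
  obtain ⟨b, hb⟩ : ∃ b, b = (w - 1/2) / (3/5) := ⟨_, rfl⟩
  obtain ⟨u, hu⟩ : ∃ u, u = 1 - a := ⟨_, rfl⟩
  obtain ⟨t, ht⟩ : ∃ t, t = 1 - b := ⟨_, rfl⟩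
  have ha0 : 0 ≤ a := by rw [ha]; apply div_nonneg <;> norm_num at * <;> linarith
  have hb0 : 0 ≤ b := by rw [hb]; apply div_nonneg <;> norm_num at * <;> linarith
  have hu0 : 0 ≤ u := by
    rw [hu, ha, sub_nonneg, div_le_one (by norm_num)]; norm_num at *; linarith
  have ht0 : 0 ≤ t := by
    rw [ht, hb, sub_nonneg, div_le_one (by norm_num)]; norm_num at *; linarith
  have hc' : c = 69/100 + 107/200 * a := by rw [ha]; ring
  have hw' : w = 1/2 + 3/5 * b := by rw [hb]; ring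
  have key : 0 ≤ (21294668909/1920000000000)*(a^0*u^4*(b^0*t^6)) +
      (165401109379/1600000000000)*(a^0*u^4*(b^1*t^5)) +
      (6161658687529/16000000000000)*(a^0*u^4*(b^2*t^4)) +
      (8922263294707/12000000000000)*(a^0*u^4*(b^3*t^3)) +
      (12604616149129/16000000000000)*(a^0*u^4*(b^4*t^2)) +
      (3430565839823/8000000000000)*(a^0*u^4*(b^5*t^1)) +
      (4290849306437/48000000000000)*(a^0*u^4*(b^6*t^0)) +
      (1676693641/48000000000)*(a^1*u^3*(b^0*t^6)) +
      (1659153427/5000000000)*(a^1*u^3*(b^1*t^5)) +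
      (535930837871/400000000000)*(a^1*u^3*(b^2*t^4)) +
      (6731764207/2343750000)*(a^1*u^3*(b^3*t^3)) +
      (1341074908193/400000000000)*(a^1*u^3*(b^4*t^2)) +
      (48667533641/25000000000)*(a^1*u^3*(b^5*t^1)) +
      (99344607203/240000000000)*(a^1*u^3*(b^6*t^0)) +
      (175191169/51200000000)*(a^2*u^2*(b^0*t^6)) +
      (22826400897/128000000000)*(a^2*u^2*(b^1*t^5)) +
      (1580049040167/1280000000000)*(a^2*u^2*(b^2*t^4)) +
      (1118734445531/320000000000)*(a^2*u^2*(b^3*t^3)) +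
      (6062234766951/1280000000000)*(a^2*u^2*(b^4*t^2)) +
      (1877119128261/640000000000)*(a^2*u^2*(b^5*t^1)) +
      (792785907673/1280000000000)*(a^2*u^2*(b^6*t^0)) +
      (35944429/5120000000)*(a^3*u^1*(b^0*t^6)) +
      (1845247767/12800000000)*(a^3*u^1*(b^1*t^5)) +
      (113591729247/128000000000)*(a^3*u^1*(b^2*t^4)) +
      (77508687533/32000000000)*(a^3*u^1*(b^3*t^3)) +
      (407415351507/128000000000)*(a^3*u^1*(b^4*t^2)) +
      (596927840127/320000000000)*(a^3*u^1*(b^5*t^1)) +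
      (220766510669/640000000000)*(a^3*u^1*(b^6*t^0)) +
      (180282629/49152000000)*(a^4*u^0*(b^0*t^6)) +
      (1812639619/40960000000)*(a^4*u^0*(b^1*t^5)) +
      (85900782049/409600000000)*(a^4*u^0*(b^2*t^4)) +
      (29956316567/61440000000)*(a^4*u^0*(b^3*t^3)) +
      (227103496513/409600000000)*(a^4*u^0*(b^4*t^2)) +
      (258935175691/1024000000000)*(a^4*u^0*(b^5*t^1)) +
      (89146703761/6144000000000)*(a^4*u^0*(b^6*t^0)) := by positivity
  rw [hu, ht] at key
  rw [hc', hw']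
  norm_num
  nlinarith [key]

lemma int_corr (e : ℝ) : ∫ x in (0:ℝ)..e, (x * (e - x) ^ 2) = e ^ 4 / 12 := by
  have h : ∀ x : ℝ, x * (e - x) ^ 2 = e ^ 2 * x + (-2 * e) * x ^ 2 + 1 * x ^ 3 + 0 * x ^ 4 + 0 * x ^ 5 := by
    intro x; ring
  simp_rw [h]
  rw [int5]
  ring

theorem I3_upper (c w : ℝ) (hc : 0.69 ≤ c) (hc2 : c ≤ 1.225) (hw : 0.5 ≤ w) (hw2 : w ≤ 1.1) :
    3 * I3 c w ≤ 0.9375 * (2 * c) * w ^ 3 := by
  set e := |1 - c| with he
  have he0 : 0 ≤ e := abs_nonneg _
  have he1 : e ≤ w := by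
    rw [he]; refine (abs_le.2 ⟨?_, ?_⟩) <;> norm_num at * <;> linarith
  have hcont : ContinuousOn (fun x => x * (ph3 (x + c) - ph3 (x - c))) (Icc 0 w) := by
    refine continuousOn_id.mul (ContinuousOn.sub ?_ ?_)
    · refine ph3_cont.comp (by fun_prop) ?_
      intro x hx
      have := hx.1
      have := hx.2
      constructor <;> norm_num at * <;> linarith
    · refine ph3_cont.comp (by fun_prop) ?_
      intro x hx
      have := hx.1
      have := hx.2
      constructor <;> norm_num at * <;> linarith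
  have hi1 : IntervalIntegrable (fun x => x * (ph3 (x + c) - ph3 (x - c))) MeasureTheory.volume 0 e := by
    refine ContinuousOn.intervalIntegrable ?_
    rw [uIcc_of_le he0]
    exact hcont.mono (Icc_subset_Icc_right he1)
  have hi2 : IntervalIntegrable (fun x => x * (ph3 (x + c) - ph3 (x - c))) MeasureTheory.volume e w := by
    refine ContinuousOn.intervalIntegrable ?_
    rw [uIcc_of_le he1]
    exact hcont.mono (Icc_subset_Icc_left he0)
  have hfc : Continuous (fU c) := by unfold fU; fun_prop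
  have hb1 : ∫ x in (0:ℝ)..e, x * (ph3 (x + c) - ph3 (x - c)) ≤
      ∫ x in (0:ℝ)..e, (fU c x + 1.01 * (x * (e - x) ^ 2)) := by
    refine intervalIntegral.integral_mono_on he0 hi1 (Continuous.intervalIntegrable (by fun_prop) _ _) ?_
    intro x hx
    exact ptB hc hc2 hw2 hx.1 (hx.2.trans he1) hx.2
  have hb2 : ∫ x in e..w, x * (ph3 (x + c) - ph3 (x - c)) ≤ ∫ x in e..w, fU c x := by
    refine intervalIntegral.integral_mono_on he1 hi2 (hfc.intervalIntegrable _ _) ?_
    intro x hx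
    exact ptA hc hc2 hw2 (he0.trans hx.1) hx.2 hx.1
  have h3 : I3 c w ≤ (∫ x in (0:ℝ)..w, fU c x) + 1.01 * (e ^ 4 / 12) := by
    unfold I3
    rw [← intervalIntegral.integral_add_adjacent_intervals hi1 hi2]
    rw [intervalIntegral.integral_add (hfc.intervalIntegrable _ _)
      (Continuous.intervalIntegrable (by fun_prop) _ _), intervalIntegral.integral_const_mul,
      int_corr] at hb1
    rw [← intervalIntegral.integral_add_adjacent_intervals (hfc.intervalIntegrable 0 e)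
      (hfc.intervalIntegrable e w)]
    linarith
  have h4 : e ^ 4 = (1 - c) ^ 4 := by
    rw [he]; exact (Even.pow_abs (by decide) _)
  have h5 := fin_ineq hc hc2 hw hw2
  rw [h4] at h3
  simp_rw [fU_poly] at h3
  rw [int5] at h3
  linarith

end US.S4665
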