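import Pool.Agent.Helper70.US.Defs
set_option autoImplicit false
namespace US.S4667




/-- derivative of `ph3` -/
noncomputable def U3 (x : ℝ) : ℝ := (4 * x - 6 * max (x - 1) 0 + 6 * max (-x - 1) 0) / g3 x

theorem g3_eq (x : ℝ) :
    g3 x = 6 - 2 * x ^ 2 + 3 * ((max (x - 1) 0) ^ 2 + (max (-x - 1) 0) ^ 2) := by
  unfold g3
  split_ifs with h
  · rw [abs_le] at h
    rw [max_eq_right (by linarith), max_eq_right (by linarith)]; ring
  · rcases le_total 0 x with h0 | h0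
    · rw [abs_of_nonneg h0] at h ⊢
      push Not at h
      rw [max_eq_left (by linarith), max_eq_right (by linarith)]; ring
    · rw [abs_of_nonpos h0] at h ⊢
      push Not at h
      rw [max_eq_right (by linarith), max_eq_left (by linarith)]; ring

theorem hasDerivAt_sqmax (y : ℝ) : HasDerivAt (fun y : ℝ => (max y 0) ^ 2) (2 * max y 0) y := by
  rcases lt_trichotomy y 0 with h | h | h
  · rw [max_eq_right h.le, mul_zero]
    refine (hasDerivAt_const y (0 : ℝ)).congr_of_eventuallyEq ?_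
    filter_upwards [Iio_mem_nhds h] with z hz
    rw [max_eq_right (le_of_lt hz)]; norm_num
  · subst h
    rw [max_self, mul_zero]
    have h1 : HasDerivWithinAt (fun y : ℝ => (max y 0) ^ 2) 0 (Set.Iic 0) 0 := by
      refine (hasDerivWithinAt_const (0 : ℝ) (Set.Iic 0) (0 : ℝ)).congr_of_mem ?_ (by simp)
      intro z hz
      rw [max_eq_right hz]; norm_num
    have h2 : HasDerivWithinAt (fun y : ℝ => (max y 0) ^ 2) 0 (Set.Ici 0) 0 := by
      have h3 : HasDerivWithinAt (fun y : ℝ => y ^ 2) 0 (Set.Ici 0) 0 := by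
        simpa using (hasDerivAt_pow 2 (0 : ℝ)).hasDerivWithinAt
      refine h3.congr_of_mem ?_ (by simp)
      intro z hz
      rw [max_eq_left hz]
    have h4 := h1.union h2
    rw [Set.Iic_union_Ici] at h4
    exact hasDerivWithinAt_univ.1 h4
  · rw [max_eq_left h.le]
    have h3 := hasDerivAt_pow 2 y
    simp only [Nat.cast_ofNat, Nat.add_one_sub_one, pow_one] at h3
    refine h3.congr_of_eventuallyEq ?_
    filter_upwards [Ioi_mem_nhds h] with z hz
    rw [max_eq_left (le_of_lt hz)]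

theorem g3_deriv (x : ℝ) :
    HasDerivAt g3 (-(4 * x - 6 * max (x - 1) 0 + 6 * max (-x - 1) 0)) x := by
  have e : g3 = fun x => 6 - 2 * x ^ 2 + 3 * ((max (x - 1) 0) ^ 2 + (max (-x - 1) 0) ^ 2) := by
    funext x; exact g3_eq x
  rw [e]
  have h1 : HasDerivAt (fun x : ℝ => (max (x - 1) 0) ^ 2) (2 * max (x - 1) 0) x :=
    (hasDerivAt_sqmax (x - 1)).comp_sub_const x 1
  have h2 : HasDerivAt (fun x : ℝ => (max (-x - 1) 0) ^ 2) (2 * max (-x - 1) 0 * (-1)) x :=
    HasDerivAt.comp (h₂ := fun y : ℝ => (max y 0) ^ 2) (h := fun x : ℝ => -x - 1) x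
      (hasDerivAt_sqmax (-x - 1)) ((hasDerivAt_neg x).sub_const 1)
  have h3 := (((hasDerivAt_pow 2 x).const_mul 2).const_sub 6).add ((h1.add h2).const_mul 3)
  refine h3.congr_deriv ?_
  norm_num
  ring

theorem g3_pos {x : ℝ} (h : |x| < 3) : 0 < g3 x := by
  unfold g3
  split_ifs with h1
  · rw [abs_le] at h1; nlinarith
  · have : 0 < 3 - |x| := by linarith
    positivity

theorem ph3_deriv {x : ℝ} (h : |x| < 3) : HasDerivAt ph3 (U3 x) x := by
  have h1 := ((g3_deriv x).log (g3_pos h).ne').neg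
  refine h1.congr_deriv ?_
  unfold U3
  rw [neg_div, neg_neg]

theorem g3_cont : Continuous g3 := by
  have : Differentiable ℝ g3 := fun x => (g3_deriv x).differentiableAt
  exact this.continuous

theorem U3_cont {x : ℝ} (h : |x| < 3) : ContinuousAt U3 x := by
  unfold U3
  apply ContinuousAt.div
  · fun_prop
  · exact g3_cont.continuousAt
  · exact (g3_pos h).ne'

theorem g3_neg (x : ℝ) : g3 (-x) = g3 x := by
  unfold g3; rw [abs_neg, neg_sq]

theorem U3_neg (x : ℝ) : U3 (-x) = - U3 x := by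
  unfold U3
  rw [g3_neg, neg_neg, ← neg_div]
  congr 1
  ring

theorem U3_01 {t : ℝ} (h0 : 0 ≤ t) (h1 : t ≤ 1) : U3 t = 2 * t / (3 - t ^ 2) := by
  unfold U3
  rw [max_eq_right (by linarith), max_eq_right (by linarith)]
  unfold g3
  rw [if_pos (abs_le.2 ⟨by linarith, h1⟩)]
  have : 3 - t ^ 2 ≠ 0 := by nlinarith
  field_simp
  ring

theorem U3_13 {t : ℝ} (h1 : 1 ≤ t) (h3 : t < 3) : U3 t = 2 / (3 - t) := by
  unfold U3
  rw [max_eq_left (by linarith), max_eq_right (by linarith), g3_eq,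
    max_eq_left (by linarith), max_eq_right (by linarith)]
  have h4 : 3 - t ≠ 0 := by intro h; linarith
  have h5 : 6 - 2 * t ^ 2 + 3 * ((t - 1) ^ 2 + 0 ^ 2) = (3 - t) ^ 2 := by ring
  rw [h5]
  field_simp
  ring

theorem U3_int {f : ℝ → ℝ} (hf : Continuous f) {p q : ℝ} (hp : |p| < 3) (hq : |q| < 3) :
    IntervalIntegrable (fun t => f t * U3 t) MeasureTheory.volume p q := by
  apply ContinuousOn.intervalIntegrable
  intro t ht
  have h : |t| < 3 := by
    rw [abs_lt] at hp hq ⊢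
    rcases Set.mem_uIcc.1 ht with h | h
    · exact ⟨by linarith [h.1], by linarith [h.2]⟩
    · exact ⟨by linarith [h.1], by linarith [h.2]⟩
  exact (hf.continuousAt.mul (U3_cont h)).continuousWithinAt

theorem I3_eq {c s : ℝ} (hc : 0 ≤ c) (hcs : c ≤ s) (h3 : s + c < 3) :
    I3 c s = (∫ t in (0:ℝ)..(s + c), (s ^ 2 - (t - c) ^ 2) / 2 * U3 t) -
      ∫ t in (0:ℝ)..(s - c), (s ^ 2 - (t + c) ^ 2) / 2 * U3 t := by
  have hs : 0 ≤ s := hc.trans hcs
  -- integration by parts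
  have hpd : ∀ x ∈ Set.uIcc 0 s, HasDerivAt (fun x => (x ^ 2 - s ^ 2) / 2 *
      (ph3 (x + c) - ph3 (x - c))) (x * (ph3 (x + c) - ph3 (x - c)) +
      (x ^ 2 - s ^ 2) / 2 * (U3 (x + c) - U3 (x - c))) x := by
    intro x hx
    rw [Set.uIcc_of_le hs] at hx
    have a1 : |x + c| < 3 := abs_lt.2 ⟨by linarith [hx.1], by linarith [hx.2]⟩
    have a2 : |x - c| < 3 := abs_lt.2 ⟨by linarith [hx.1], by linarith [hx.2]⟩
    have d1 : HasDerivAt (fun x => ph3 (x + c)) (U3 (x + c)) x :=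
      (ph3_deriv a1).comp_add_const x c
    have d2 : HasDerivAt (fun x => ph3 (x - c)) (U3 (x - c)) x :=
      (ph3_deriv a2).comp_sub_const x c
    have d3 : HasDerivAt (fun x : ℝ => (x ^ 2 - s ^ 2) / 2) x x := by
      have := ((hasDerivAt_pow 2 x).sub_const (s ^ 2)).div_const 2
      refine this.congr_deriv ?_
      norm_num
    have d4 := d3.mul (d1.sub d2)
    exact d4
  have hcont : ∀ x ∈ Set.uIcc 0 s, ContinuousAt (fun x => ph3 (x + c) - ph3 (x - c)) x := by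
    intro x hx
    rw [Set.uIcc_of_le hs] at hx
    have a1 : |x + c| < 3 := abs_lt.2 ⟨by linarith [hx.1], by linarith [hx.2]⟩
    have a2 : |x - c| < 3 := abs_lt.2 ⟨by linarith [hx.1], by linarith [hx.2]⟩
    have d1 : HasDerivAt (fun x => ph3 (x + c)) (U3 (x + c)) x :=
      (ph3_deriv a1).comp_add_const x c
    have d2 : HasDerivAt (fun x => ph3 (x - c)) (U3 (x - c)) x :=
      (ph3_deriv a2).comp_sub_const x c
    exact (d1.sub d2).continuousAt
  have i1 : IntervalIntegrable (fun x => x * (ph3 (x + c) - ph3 (x - c)))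
      MeasureTheory.volume 0 s := by
    apply ContinuousOn.intervalIntegrable
    intro x hx
    exact (continuousAt_id.mul (hcont x hx)).continuousWithinAt
  have i2 : IntervalIntegrable (fun x => (s ^ 2 - x ^ 2) / 2 * U3 (x + c))
      MeasureTheory.volume 0 s := by
    have := (U3_int (f := fun t => (s ^ 2 - (t - c) ^ 2) / 2) (by fun_prop)
      (p := 0 + c) (q := s + c) (abs_lt.2 ⟨by linarith, by linarith⟩)
      (abs_lt.2 ⟨by linarith, by linarith⟩)).comp_add_right c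
    simpa using this
  have i3 : IntervalIntegrable (fun x => (s ^ 2 - x ^ 2) / 2 * U3 (x - c))
      MeasureTheory.volume 0 s := by
    have := (U3_int (f := fun t => (s ^ 2 - (t + c) ^ 2) / 2) (by fun_prop)
      (p := 0 - c) (q := s - c) (abs_lt.2 ⟨by linarith, by linarith⟩)
      (abs_lt.2 ⟨by linarith, by linarith⟩)).comp_sub_right c
    simpa using this
  have i4 : IntervalIntegrable (fun x => (x ^ 2 - s ^ 2) / 2 * (U3 (x + c) - U3 (x - c)))
      MeasureTheory.volume 0 s := by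
    have := i3.sub i2
    refine this.congr ?_
    intro x _
    simp only
    ring
  have hibp := intervalIntegral.integral_eq_sub_of_hasDerivAt hpd (i1.add i4)
  rw [intervalIntegral.integral_add i1 i4] at hibp
  have h00 : ph3 (0 + c) - ph3 (0 - c) = 0 := by
    unfold ph3
    rw [zero_add, zero_sub, g3_neg, sub_self]
  rw [h00, sub_self, zero_div, zero_mul, mul_zero, sub_zero] at hibp
  have e1 : ∫ x in (0:ℝ)..s, (x ^ 2 - s ^ 2) / 2 * (U3 (x + c) - U3 (x - c)) =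
      (∫ x in (0:ℝ)..s, (s ^ 2 - x ^ 2) / 2 * U3 (x - c)) -
      ∫ x in (0:ℝ)..s, (s ^ 2 - x ^ 2) / 2 * U3 (x + c) := by
    rw [← intervalIntegral.integral_sub i3 i2]
    apply intervalIntegral.integral_congr
    intro x _
    ring
  have e2 : ∫ x in (0:ℝ)..s, (s ^ 2 - x ^ 2) / 2 * U3 (x + c) =
      ∫ t in c..(s + c), (s ^ 2 - (t - c) ^ 2) / 2 * U3 t := by
    have := intervalIntegral.integral_comp_add_right
      (fun t => (s ^ 2 - (t - c) ^ 2) / 2 * U3 t) (a := 0) (b := s) c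
    simpa using this
  have e3 : ∫ x in (0:ℝ)..s, (s ^ 2 - x ^ 2) / 2 * U3 (x - c) =
      ∫ t in (-c)..(s - c), (s ^ 2 - (t + c) ^ 2) / 2 * U3 t := by
    have := intervalIntegral.integral_comp_sub_right
      (fun t => (s ^ 2 - (t + c) ^ 2) / 2 * U3 t) (a := 0) (b := s) c
    simpa using this
  have hc3 : |c| < 3 := abs_lt.2 ⟨by linarith, by linarith⟩
  have hmc3 : |-c| < 3 := abs_lt.2 ⟨by linarith, by linarith⟩
  have hsc3 : |s - c| < 3 := abs_lt.2 ⟨by linarith, by linarith⟩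
  have hsc3' : |s + c| < 3 := abs_lt.2 ⟨by linarith, by linarith⟩
  have h03 : |(0:ℝ)| < 3 := by norm_num
  have e4 : ∫ t in (-c)..(s - c), (s ^ 2 - (t + c) ^ 2) / 2 * U3 t =
      (∫ t in (-c)..0, (s ^ 2 - (t + c) ^ 2) / 2 * U3 t) +
      ∫ t in (0:ℝ)..(s - c), (s ^ 2 - (t + c) ^ 2) / 2 * U3 t := by
    rw [intervalIntegral.integral_add_adjacent_intervals
      (U3_int (by fun_prop) hmc3 h03) (U3_int (by fun_prop) h03 hsc3)]
  have e5 : ∫ t in (-c)..0, (s ^ 2 - (t + c) ^ 2) / 2 * U3 t =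
      - ∫ t in (0:ℝ)..c, (s ^ 2 - (t - c) ^ 2) / 2 * U3 t := by
    have := intervalIntegral.integral_comp_neg
      (fun t => (s ^ 2 - (t + c) ^ 2) / 2 * U3 t) (a := 0) (b := c)
    rw [neg_zero] at this
    rw [← this, ← intervalIntegral.integral_neg]
    apply intervalIntegral.integral_congr
    intro t _
    simp only
    rw [U3_neg]
    ring
  have e6 : ∫ t in (0:ℝ)..(s + c), (s ^ 2 - (t - c) ^ 2) / 2 * U3 t =
      (∫ t in (0:ℝ)..c, (s ^ 2 - (t - c) ^ 2) / 2 * U3 t) +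
      ∫ t in c..(s + c), (s ^ 2 - (t - c) ^ 2) / 2 * U3 t := by
    rw [intervalIntegral.integral_add_adjacent_intervals
      (U3_int (by fun_prop) h03 hc3) (U3_int (by fun_prop) hc3 hsc3')]
  unfold I3
  rw [e6]
  linarith

theorem kappa : 0.277 ≤ ∫ t in (0:ℝ)..1, t * U3 t := by
  have h1 : ∫ t in (0:ℝ)..1, (2 / 3 * t ^ 2 + 2 / 9 * t ^ 4 + 2 / 27 * t ^ 6) ≤
      ∫ t in (0:ℝ)..1, t * U3 t := by
    apply intervalIntegral.integral_mono_on (by norm_num)
    · apply Continuous.intervalIntegrable; fun_prop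
    · exact U3_int continuous_id (by norm_num) (by norm_num)
    · intro t ht
      rw [U3_01 ht.1 ht.2, mul_div_assoc', le_div_iff₀ (by nlinarith [ht.1, ht.2])]
      have h2 : (2 / 3 * t ^ 2 + 2 / 9 * t ^ 4 + 2 / 27 * t ^ 6) * (3 - t ^ 2) =
          t * (2 * t) - 2 / 27 * t ^ 8 := by ring
      rw [h2]
      have h3 : 0 ≤ t ^ 8 := by positivity
      linarith
  have h2 : ∫ t in (0:ℝ)..1, (2 / 3 * t ^ 2 + 2 / 9 * t ^ 4 + 2 / 27 * t ^ 6) = 262 / 945 := by
    have hd : ∀ x ∈ Set.uIcc (0:ℝ) 1, HasDerivAt (fun t : ℝ => 2 / 9 * t ^ 3 + 2 / 45 * t ^ 5 +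
        2 / 189 * t ^ 7) (2 / 3 * x ^ 2 + 2 / 9 * x ^ 4 + 2 / 27 * x ^ 6) x := by
      intro x _
      have := (((hasDerivAt_pow 3 x).const_mul (2 / 9)).add
        ((hasDerivAt_pow 5 x).const_mul (2 / 45))).add ((hasDerivAt_pow 7 x).const_mul (2 / 189))
      refine this.congr_deriv ?_
      norm_num
      ring
    rw [intervalIntegral.integral_eq_sub_of_hasDerivAt hd
      (by apply Continuous.intervalIntegrable; fun_prop)]
    norm_num
  rw [h2] at h1
  refine le_trans ?_ h1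
  norm_num

theorem logb {e : ℝ} (he : 0 < e) :
    -(2.1192 * e + 0.0884) ≤ e * (Real.log e - Real.log 2) := by
  have h1 := Real.log_le_sub_one_of_pos (show 0 < 0.0884 / e by positivity)
  rw [Real.log_div (by norm_num) he.ne'] at h1
  have h2 : Real.log 2 - Real.log 0.0884 ≤ 3.1192 := by
    have h3 : Real.log 2 - Real.log 0.0884 = Real.log (2 / 0.0884) := by
      rw [Real.log_div (by norm_num) (by norm_num)]
    have h4 : 2 * Real.log (2 / 0.0884) ≤ 9 * Real.log 2 := by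
      have h5 : 2 * Real.log (2 / 0.0884) = Real.log ((2 / 0.0884) ^ 2) := by
        rw [Real.log_pow]; norm_num
      have h6 : 9 * Real.log 2 = Real.log (2 ^ 9) := by
        rw [Real.log_pow]; norm_num
      rw [h5, h6]
      apply Real.log_le_log (by positivity)
      norm_num
    have h7 := Real.log_two_lt_d9
    rw [h3]
    linarith
  have h3 : e * (0.0884 / e) = 0.0884 := by field_simp
  have h4 : Real.log 0.0884 - 0.0884 / e + 1 ≤ Real.log e := by linarith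
  have h5 : e * (Real.log 0.0884 - 0.0884 / e + 1 - Real.log 2) ≤ e * (Real.log e - Real.log 2) :=
    mul_le_mul_of_nonneg_left (by linarith) he.le
  have h6 : e * (Real.log 0.0884 - 0.0884 / e + 1 - Real.log 2) =
      e * (Real.log 0.0884 + 1 - Real.log 2) - 0.0884 := by
    rw [show e * (Real.log 0.0884 - 0.0884 / e + 1 - Real.log 2) =
      e * (Real.log 0.0884 + 1 - Real.log 2) - e * (0.0884 / e) by ring, h3]
  have h7 : e * (-2.1192) ≤ e * (Real.log 0.0884 + 1 - Real.log 2) :=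
    mul_le_mul_of_nonneg_left (by linarith) he.le
  linarith

theorem tail {c s : ℝ} (hc : 0 ≤ c) (hs1 : 1 ≤ s + c) (h3 : s + c < 3) (hcs : c ≤ s) :
    (6 - 2 * c) * (s + c - 1) + ((3 - s - c) ^ 2 - 4) / 2 -
      (s + 3 - c) * (2.1192 * (3 - s - c) + 0.0884) ≤
    ∫ t in (1:ℝ)..(s + c), (s ^ 2 - (t - c) ^ 2) / 2 * U3 t := by
  have hd : ∀ t ∈ Set.uIcc (1:ℝ) (s + c), HasDerivAt (fun t : ℝ => (6 - 2 * c) * t +
      (3 - t) ^ 2 / 2 + (3 - s - c) * (s + 3 - c) * Real.log (3 - t))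
      ((s ^ 2 - (t - c) ^ 2) / 2 * U3 t) t := by
    intro t ht
    rw [Set.uIcc_of_le hs1] at ht
    have h4 : 3 - t ≠ 0 := by intro h; linarith [ht.2]
    rw [U3_13 ht.1 (by linarith [ht.2])]
    have d0 : HasDerivAt (fun t : ℝ => 3 - t) (-1) t := by
      simpa using (hasDerivAt_id t).const_sub 3
    have d1 := ((hasDerivAt_id t).const_mul (6 - 2 * c)).add ((d0.pow 2).div_const 2)
    have d2 := d1.add ((d0.log h4).const_mul ((3 - s - c) * (s + 3 - c)))
    refine d2.congr_deriv ?_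
    field_simp
    norm_num
    ring
  have hint : IntervalIntegrable (fun t => (s ^ 2 - (t - c) ^ 2) / 2 * U3 t)
      MeasureTheory.volume 1 (s + c) :=
    U3_int (by fun_prop) (by norm_num) (abs_lt.2 ⟨by linarith, h3⟩)
  rw [intervalIntegral.integral_eq_sub_of_hasDerivAt hd hint]
  have he : 0 < 3 - s - c := by linarith
  have hl := logb he
  have hq : 0 ≤ s + 3 - c := by linarith
  have h5 := mul_le_mul_of_nonneg_left hl hq
  have e1 : (3 : ℝ) - (s + c) = 3 - s - c := by ring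
  have e2 : (3 : ℝ) - 1 = 2 := by norm_num
  rw [e1, e2]
  nlinarith [h5]

theorem polyA {c s : ℝ} (h1 : 0.69 ≤ c) (h2 : c ≤ 0.97) (hs : 0 < s)
    (hs2 : s ^ 2 = 5.75 - 2 * c ^ 2) :
    2 * c / 3 * s ^ 3 ≤ 2 * c * 0.277 + ((6 - 2 * c) * (s + c - 1) + ((3 - s - c) ^ 2 - 4) / 2 -
      (s + 3 - c) * (2.1192 * (3 - s - c) + 0.0884)) - 0.67 * s * (s - c - 1) ^ 2 := by
  obtain ⟨x, hx⟩ : ∃ x, x = c - 0.69 := ⟨_, rfl⟩
  obtain ⟨y, hy⟩ : ∃ y, y = 0.97 - c := ⟨_, rfl⟩
  have hx0 : 0 ≤ x := by rw [hx]; linarith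
  have hy0 : 0 ≤ y := by rw [hy]; linarith
  have hup : s ≤ (5.75 - 2 * c ^ 2 + (52 / 25) ^ 2) / (2 * (52 / 25)) := by
    rw [← hs2, le_div_iff₀ (by norm_num)]
    nlinarith [sq_nonneg (s - 52 / 25)]
  obtain ⟨Q, hQ⟩ : ∃ Q, Q = (6 - 2 * c) - (3 - c) - 0.0884 - 2 * c / 3 * (5.75 - 2 * c ^ 2)
    - 0.67 * (5.75 - 2 * c ^ 2 + (1 + c) ^ 2) := ⟨_, rfl⟩
  obtain ⟨P, hP⟩ : ∃ P, P = (6 - 2 * c) * (c - 1) - 2 + ((3 - c) ^ 2 + (5.75 - 2 * c ^ 2)) / 2
    - 2.1192 * ((3 - c) ^ 2 - (5.75 - 2 * c ^ 2)) - 0.0884 * (3 - c) + 2 * c * 0.277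
    + 1.34 * (1 + c) * (5.75 - 2 * c ^ 2) := ⟨_, rfl⟩
  have hQ0 : Q ≤ 0 := by
    rw [hQ]; nlinarith [mul_nonneg hx0 hy0, sq_nonneg c]
  have e : 2 * c * 0.277 + ((6 - 2 * c) * (s + c - 1) + ((3 - s - c) ^ 2 - 4) / 2 -
      (s + 3 - c) * (2.1192 * (3 - s - c) + 0.0884)) - 0.67 * s * (s - c - 1) ^ 2 -
      2 * c / 3 * s ^ 3 = P + Q * s := by
    have h3 : s ^ 3 = s * (5.75 - 2 * c ^ 2) := by rw [← hs2]; ring
    rw [h3, hP, hQ]
    linear_combination (1 / 2 + 2.1192 + 1.34 * (1 + c) - 0.67 * s) * hs2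
  have h4 : Q * ((5.75 - 2 * c ^ 2 + (52 / 25) ^ 2) / (2 * (52 / 25))) ≤ Q * s :=
    mul_le_mul_of_nonpos_left hup hQ0
  have h5 : 0 ≤ P + Q * ((5.75 - 2 * c ^ 2 + (52 / 25) ^ 2) / (2 * (52 / 25))) := by
    have hc : c = x + 0.69 := by rw [hx]; ring
    have hxy : x + y = 0.28 := by rw [hx, hy]; ring
    have hy' : 0.28 - x = y := by linarith
    have key : P + Q * ((5.75 - 2 * c ^ 2 + (52 / 25) ^ 2) / (2 * (52 / 25))) =
        (167236302375 / 894939136) * (x ^ 0 * (0.28 - x) ^ 5) +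
        (1181296472275 / 894939136) * (x ^ 1 * (0.28 - x) ^ 4) +
        (1426838219075 / 447469568) * (x ^ 2 * (0.28 - x) ^ 3) +
        (4711170608825 / 1342408704) * (x ^ 3 * (0.28 - x) ^ 2) +
        (4804313345225 / 2684817408) * (x ^ 4 * (0.28 - x) ^ 1) +
        (23053843475 / 68841472) * (x ^ 5 * (0.28 - x) ^ 0) := by
      rw [hP, hQ, hc]; ring
    rw [key, hy']
    positivity
  linarith

theorem polyB {c s : ℝ} (h1 : 0.96 ≤ c) (h2 : c ≤ 1.225) (hs : 0 < s)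
    (hs2 : s ^ 2 = 5.75 - 2 * c ^ 2) :
    2 * c / 3 * s ^ 3 ≤ (s ^ 2 - (1 - c) ^ 2) / 2 * 0.277 +
      ((6 - 2 * c) * (s + c - 1) + ((3 - s - c) ^ 2 - 4) / 2 -
      (s + 3 - c) * (2.1192 * (3 - s - c) + 0.0884)) := by
  obtain ⟨x, hx⟩ : ∃ x, x = c - 0.96 := ⟨_, rfl⟩
  obtain ⟨y, hy⟩ : ∃ y, y = 1.225 - c := ⟨_, rfl⟩
  have hx0 : 0 ≤ x := by rw [hx]; linarith
  have hy0 : 0 ≤ y := by rw [hy]; linarith
  have hup : s ≤ (5.75 - 2 * c ^ 2 + (9 / 5) ^ 2) / (2 * (9 / 5)) := by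
    rw [← hs2, le_div_iff₀ (by norm_num)]
    nlinarith [sq_nonneg (s - 9 / 5)]
  obtain ⟨Q, hQ⟩ : ∃ Q, Q = (6 - 2 * c) - (3 - c) - 0.0884 - 2 * c / 3 * (5.75 - 2 * c ^ 2) :=
    ⟨_, rfl⟩
  obtain ⟨P, hP⟩ : ∃ P, P = (6 - 2 * c) * (c - 1) - 2 + ((3 - c) ^ 2 + (5.75 - 2 * c ^ 2)) / 2
    - 2.1192 * ((3 - c) ^ 2 - (5.75 - 2 * c ^ 2)) - 0.0884 * (3 - c)
    + 0.277 / 2 * (5.75 - 2 * c ^ 2 - (1 - c) ^ 2) := ⟨_, rfl⟩
  have hc : c = x + 0.96 := by rw [hx]; ring
  have hxy : x + y = 0.265 := by rw [hx, hy]; ring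
  have hy' : y = 0.265 - x := by linarith
  have hQ0 : Q ≤ 0 := by
    have b0 : 0 ≤ y ^ 3 := by positivity
    have b1 : 0 ≤ x * y ^ 2 := by positivity
    have b2 : 0 ≤ x ^ 2 * y := by positivity
    have b3 : 0 ≤ x ^ 3 := by positivity
    rw [hy'] at b0 b1 b2
    rw [hQ, hc]
    nlinarith [b0, b1, b2, b3]
  have e : (s ^ 2 - (1 - c) ^ 2) / 2 * 0.277 +
      ((6 - 2 * c) * (s + c - 1) + ((3 - s - c) ^ 2 - 4) / 2 -
      (s + 3 - c) * (2.1192 * (3 - s - c) + 0.0884)) -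
      2 * c / 3 * s ^ 3 = P + Q * s := by
    have h3 : s ^ 3 = s * (5.75 - 2 * c ^ 2) := by rw [← hs2]; ring
    rw [h3, hP, hQ]
    linear_combination (1 / 2 + 2.1192 + 0.277 / 2) * hs2
  have h4 : Q * ((5.75 - 2 * c ^ 2 + (9 / 5) ^ 2) / (2 * (9 / 5))) ≤ Q * s :=
    mul_le_mul_of_nonpos_left hup hQ0
  have h5 : 0 ≤ P + Q * ((5.75 - 2 * c ^ 2 + (9 / 5) ^ 2) / (2 * (9 / 5))) := by
    have key : P + Q * ((5.75 - 2 * c ^ 2 + (9 / 5) ^ 2) / (2 * (9 / 5))) =
        (1734242040320 / 3763759437) * (x ^ 0 * (0.265 - x) ^ 5) +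
        (22773081708800 / 11291278311) * (x ^ 1 * (0.265 - x) ^ 4) +
        (38991292296800 / 11291278311) * (x ^ 2 * (0.265 - x) ^ 3) +
        (32232112493600 / 11291278311) * (x ^ 3 * (0.265 - x) ^ 2) +
        (4139182364000 / 3763759437) * (x ^ 4 * (0.265 - x) ^ 1) +
        (177556377500 / 1254586479) * (x ^ 5 * (0.265 - x) ^ 0) := by
      rw [hP, hQ, hc]; ring
    rw [key, ← hy']
    positivity
  linarith

theorem U3_nonneg {t : ℝ} (h0 : 0 ≤ t) (h3 : t < 3) : 0 ≤ U3 t := by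
  rcases le_total t 1 with h | h
  · rw [U3_01 h0 h]
    apply div_nonneg (by linarith)
    nlinarith
  · rw [U3_13 h h3]
    apply div_nonneg (by norm_num)
    linarith

theorem I3_lower2 (c s : ℝ) (hc : 0.69 ≤ c) (hc2 : c ≤ 1.225) (hs : 0 < s)
    (hs2 : s ^ 2 = 2 * (3 - c ^ 2) - 0.25) :
    (2 * c) * s ^ 3 ≤ 3 * I3 c s := by
  have hs2' : s ^ 2 = 5.75 - 2 * c ^ 2 := by rw [hs2]; ring
  have hc0 : 0 < c := by linarith
  have hcs : c ≤ s := by
    by_contra hcon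
    push Not at hcon
    nlinarith
  have h3 : s + c < 3 := by
    by_contra hcon
    push Not at hcon
    nlinarith [sq_nonneg (c - 0.98)]
  have hs1 : 1 ≤ s + c := by nlinarith
  have i1 : |(1:ℝ)| < 3 := by norm_num
  have i0 : |(0:ℝ)| < 3 := by norm_num
  have iv : |s - c| < 3 := abs_lt.2 ⟨by linarith, by linarith⟩
  have isc : |s + c| < 3 := abs_lt.2 ⟨by linarith, h3⟩
  have ht := tail hc0.le hs1 h3 hcs
  have hk := kappa
  rw [I3_eq hc0.le hcs h3]
  have a1 : (∫ t in (0:ℝ)..(s + c), (s ^ 2 - (t - c) ^ 2) / 2 * U3 t) =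
      (∫ t in (0:ℝ)..1, (s ^ 2 - (t - c) ^ 2) / 2 * U3 t) +
      ∫ t in (1:ℝ)..(s + c), (s ^ 2 - (t - c) ^ 2) / 2 * U3 t :=
    (intervalIntegral.integral_add_adjacent_intervals
      (U3_int (by fun_prop) i0 i1) (U3_int (by fun_prop) i1 isc)).symm
  rw [a1]
  rcases le_total 1 (s - c) with hv | hv
  · -- case A
    have hc97 : c ≤ 0.97 := by
      by_contra hcon
      push Not at hcon
      nlinarith
    have hp := polyA hc hc97 hs hs2'
    have hv2 : s - c ≤ 1.501 := by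
      by_contra hcon
      push Not at hcon
      nlinarith
    have a2 : (∫ t in (0:ℝ)..(s - c), (s ^ 2 - (t + c) ^ 2) / 2 * U3 t) =
        (∫ t in (0:ℝ)..1, (s ^ 2 - (t + c) ^ 2) / 2 * U3 t) +
        ∫ t in (1:ℝ)..(s - c), (s ^ 2 - (t + c) ^ 2) / 2 * U3 t :=
      (intervalIntegral.integral_add_adjacent_intervals
        (U3_int (by fun_prop) i0 i1) (U3_int (by fun_prop) i1 iv)).symm
    have a3 : (∫ t in (0:ℝ)..1, (s ^ 2 - (t - c) ^ 2) / 2 * U3 t) -
        (∫ t in (0:ℝ)..1, (s ^ 2 - (t + c) ^ 2) / 2 * U3 t) =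
        2 * c * ∫ t in (0:ℝ)..1, t * U3 t := by
      rw [← intervalIntegral.integral_sub (U3_int (by fun_prop) i0 i1)
        (U3_int (by fun_prop) i0 i1), ← intervalIntegral.integral_const_mul]
      apply intervalIntegral.integral_congr
      intro t _
      ring
    have a4 : ∫ t in (1:ℝ)..(s - c), (s ^ 2 - (t + c) ^ 2) / 2 * U3 t ≤
        ∫ t in (1:ℝ)..(s - c), 1.34 * s * (s - c - t) := by
      apply intervalIntegral.integral_mono_on hv (U3_int (by fun_prop) i1 iv)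
        (by apply Continuous.intervalIntegrable; fun_prop)
      intro t ht
      rw [U3_13 ht.1 (by linarith [ht.2])]
      have b1 : 2 / (3 - t) ≤ 1.34 := by
        rw [div_le_iff₀ (by linarith [ht.2])]
        linarith [ht.2]
      have b2 : (s ^ 2 - (t + c) ^ 2) / 2 ≤ s * (s - c - t) := by
        nlinarith [ht.2, mul_nonneg (sub_nonneg.2 ht.2) (sub_nonneg.2 ht.2)]
      have b3 : 0 ≤ (s ^ 2 - (t + c) ^ 2) / 2 := by
        have : 0 ≤ (s - c - t) * (s + c + t) :=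
          mul_nonneg (by linarith [ht.2]) (by linarith [ht.1])
        nlinarith
      have b4 : 0 < 2 / (3 - t) := div_pos (by norm_num) (by linarith [ht.2])
      calc (s ^ 2 - (t + c) ^ 2) / 2 * (2 / (3 - t)) ≤ (s ^ 2 - (t + c) ^ 2) / 2 * 1.34 :=
            mul_le_mul_of_nonneg_left b1 b3
        _ ≤ s * (s - c - t) * 1.34 := mul_le_mul_of_nonneg_right b2 (by norm_num)
        _ = _ := by ring
    have a5 : ∫ t in (1:ℝ)..(s - c), 1.34 * s * (s - c - t) = 0.67 * s * (s - c - 1) ^ 2 := by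
      have hd : ∀ t ∈ Set.uIcc (1:ℝ) (s - c), HasDerivAt (fun t : ℝ => -0.67 * s * (s - c - t) ^ 2)
          (1.34 * s * (s - c - t)) t := by
        intro t _
        have d0 : HasDerivAt (fun t : ℝ => s - c - t) (-1) t := by
          simpa using (hasDerivAt_id t).const_sub (s - c)
        refine ((d0.pow 2).const_mul (-0.67 * s)).congr_deriv ?_
        norm_num
        ring
      rw [intervalIntegral.integral_eq_sub_of_hasDerivAt hd
        (by apply Continuous.intervalIntegrable; fun_prop)]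
      ring
    rw [a5] at a4
    rw [a2]
    have a6 : 2 * c * 0.277 ≤ 2 * c * ∫ t in (0:ℝ)..1, t * U3 t :=
      mul_le_mul_of_nonneg_left hk (by linarith)
    linarith
  · -- case B
    have hc96 : 0.96 ≤ c := by
      by_contra hcon
      push Not at hcon
      nlinarith
    have hp := polyB hc96 hc2 hs hs2'
    have hv0 : 0 ≤ s - c := by linarith
    have a2 : (∫ t in (0:ℝ)..1, (s ^ 2 - (t - c) ^ 2) / 2 * U3 t) =
        (∫ t in (0:ℝ)..(s - c), (s ^ 2 - (t - c) ^ 2) / 2 * U3 t) +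
        ∫ t in (s - c)..1, (s ^ 2 - (t - c) ^ 2) / 2 * U3 t :=
      (intervalIntegral.integral_add_adjacent_intervals
        (U3_int (by fun_prop) i0 iv) (U3_int (by fun_prop) iv i1)).symm
    have a3 : (∫ t in (0:ℝ)..(s - c), (s ^ 2 - (t - c) ^ 2) / 2 * U3 t) -
        (∫ t in (0:ℝ)..(s - c), (s ^ 2 - (t + c) ^ 2) / 2 * U3 t) =
        ∫ t in (0:ℝ)..(s - c), 2 * c * t * U3 t := by
      rw [← intervalIntegral.integral_sub (U3_int (by fun_prop) i0 iv)
        (U3_int (by fun_prop) i0 iv)]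
      apply intervalIntegral.integral_congr
      intro t _
      ring
    obtain ⟨W1, hW1⟩ : ∃ W1, W1 = (s ^ 2 - (1 - c) ^ 2) / 2 := ⟨_, rfl⟩
    have hW1c : W1 ≤ 2 * c := by rw [hW1]; nlinarith
    have hW0 : 0 ≤ W1 := by
      rw [hW1]
      have : 0 ≤ (s - (1 - c)) * (s + (1 - c)) := mul_nonneg (by linarith) (by linarith)
      nlinarith
    have a4 : ∫ t in (0:ℝ)..(s - c), W1 * t * U3 t ≤ ∫ t in (0:ℝ)..(s - c), 2 * c * t * U3 t := by
      apply intervalIntegral.integral_mono_on hv0 (U3_int (by fun_prop) i0 iv)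
        (U3_int (by fun_prop) i0 iv)
      intro t ht
      apply mul_le_mul_of_nonneg_right _ (U3_nonneg ht.1 (by linarith [ht.2]))
      exact mul_le_mul_of_nonneg_right hW1c ht.1
    have a5 : ∫ t in (s - c)..1, W1 * t * U3 t ≤
        ∫ t in (s - c)..1, (s ^ 2 - (t - c) ^ 2) / 2 * U3 t := by
      apply intervalIntegral.integral_mono_on hv (U3_int (by fun_prop) iv i1)
        (U3_int (by fun_prop) iv i1)
      intro t ht
      apply mul_le_mul_of_nonneg_right _ (U3_nonneg (by linarith [ht.1]) (by linarith [ht.2]))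
      rw [hW1]
      have b1 : 0 ≤ (1 - t) * (s ^ 2 - c ^ 2 + t) :=
        mul_nonneg (by linarith [ht.2]) (by nlinarith [ht.1])
      nlinarith
    have a6 : (∫ t in (0:ℝ)..(s - c), W1 * t * U3 t) + ∫ t in (s - c)..1, W1 * t * U3 t =
        W1 * ∫ t in (0:ℝ)..1, t * U3 t := by
      rw [intervalIntegral.integral_add_adjacent_intervals
        (U3_int (by fun_prop) i0 iv) (U3_int (by fun_prop) iv i1),
        ← intervalIntegral.integral_const_mul]
      apply intervalIntegral.integral_congr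
      intro t _
      ring
    have a7 : W1 * 0.277 ≤ W1 * ∫ t in (0:ℝ)..1, t * U3 t := mul_le_mul_of_nonneg_left hk hW0
    rw [← hW1] at hp
    linarith

end US.S4667
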