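import Pool.Agent.Helper70.US.Defs
set_option autoImplicit false
namespace US.S4668




namespace J4668
open Set MeasureTheory intervalIntegral

theorem sqd (y : ℝ) : HasDerivAt (fun y : ℝ => (max y 0) ^ 2) (2 * max y 0) y := by
  rcases lt_trichotomy y 0 with h | h | h
  · have h1 : (fun y : ℝ => (max y 0) ^ 2) =ᶠ[nhds y] fun _ => 0 := by
      filter_upwards [Iio_mem_nhds h] with x hx
      rw [max_eq_right (le_of_lt hx)]; norm_num
    rw [max_eq_right h.le, mul_zero]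
    exact (hasDerivAt_const y (0 : ℝ)).congr_of_eventuallyEq h1
  · subst h
    rw [max_self, mul_zero]
    have h1 : HasDerivWithinAt (fun y : ℝ => (max y 0) ^ 2) 0 (Iic 0) 0 := by
      refine (hasDerivWithinAt_const (0 : ℝ) (Iic 0) (0 : ℝ)).congr ?_ ?_
      · intro x hx
        rw [max_eq_right hx]; norm_num
      · rw [max_self]; norm_num
    have h2 : HasDerivWithinAt (fun y : ℝ => (max y 0) ^ 2) 0 (Ici 0) 0 := by
      have h3 : HasDerivWithinAt (fun y : ℝ => y ^ 2) 0 (Ici 0) 0 := by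
        have := (hasDerivAt_pow 2 (0 : ℝ)).hasDerivWithinAt (s := Ici 0)
        simpa using this
      refine h3.congr ?_ ?_
      · intro x hx
        rw [max_eq_left hx]
      · rw [max_self]
    have h4 := h1.union h2
    rwa [Iic_union_Ici, hasDerivWithinAt_univ] at h4
  · have h1 : (fun y : ℝ => (max y 0) ^ 2) =ᶠ[nhds y] fun y => y ^ 2 := by
      filter_upwards [Ioi_mem_nhds h] with x hx
      rw [max_eq_left (le_of_lt hx)]
    rw [max_eq_left h.le]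
    have := (hasDerivAt_pow 2 y).congr_of_eventuallyEq h1
    simpa using this

theorem g3_eq {t : ℝ} (ht : -1 ≤ t) : g3 t = 6 - 2 * t ^ 2 + 3 * (max (t - 1) 0) ^ 2 := by
  unfold g3
  split_ifs with h
  · rw [abs_le] at h
    rw [max_eq_right (by linarith)]; ring
  · have h1 : 1 < t := by
      by_contra hcon
      exact h (abs_le.2 ⟨ht, by linarith⟩)
    rw [max_eq_left (by linarith), abs_of_pos (by linarith)]; ring

theorem g3_pos {t : ℝ} (ht : |t| < 3) : 0 < g3 t := by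
  unfold g3
  split_ifs with h
  · rw [abs_le] at h
    nlinarith
  · have : 0 < 3 - |t| := by linarith
    positivity

/-- derivative on `[0,3)` -/
noncomputable def u0 (t : ℝ) : ℝ := if t ≤ 1 then 2 * t / (3 - t ^ 2) else 2 / (3 - t)

/-- derivative -/
noncomputable def U (t : ℝ) : ℝ := if 0 ≤ t then u0 t else - u0 (-t)

theorem U_neg (t : ℝ) : U (-t) = - U t := by
  have h0 : u0 0 = 0 := by unfold u0; simp
  unfold U
  rcases lt_trichotomy t 0 with h | h | h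
  · rw [if_pos (by linarith), if_neg (by linarith), neg_neg]
  · subst h; simp [h0]
  · rw [if_neg (by linarith), if_pos h.le, neg_neg]

theorem ph3_neg (t : ℝ) : ph3 (-t) = ph3 t := by
  unfold ph3 g3
  rw [abs_neg, neg_sq]

theorem ph3_der0 {t : ℝ} (h0 : 0 ≤ t) (h3 : t < 3) : HasDerivAt ph3 (u0 t) t := by
  have h1 : ph3 =ᶠ[nhds t] fun x => - Real.log (6 - 2 * x ^ 2 + 3 * (max (x - 1) 0) ^ 2) := by
    filter_upwards [Ioi_mem_nhds (show (-1 : ℝ) < t by linarith)] with x hx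
    rw [ph3, g3_eq (le_of_lt hx)]
  have hd : HasDerivAt (fun x : ℝ => 6 - 2 * x ^ 2 + 3 * (max (x - 1) 0) ^ 2)
      (-(2 * (2 * t)) + 3 * (2 * max (t - 1) 0)) t := by
    have a1 := ((hasDerivAt_pow 2 t).const_mul 2).const_sub 6
    have a2 := ((sqd (t - 1)).comp_sub_const t 1).const_mul 3
    have a3 := a1.add a2
    exact a3.congr_deriv (by simp)
  have hg : 0 < g3 t := g3_pos (by rw [abs_of_nonneg h0]; exact h3)
  have hne : 6 - 2 * t ^ 2 + 3 * (max (t - 1) 0) ^ 2 ≠ 0 := by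
    rw [← g3_eq (by linarith)]; exact hg.ne'
  have h2 := (hd.log hne).neg
  have h4 : HasDerivAt ph3 (-((-(2 * (2 * t)) + 3 * (2 * max (t - 1) 0)) /
      (6 - 2 * t ^ 2 + 3 * (max (t - 1) 0) ^ 2))) t := h2.congr_of_eventuallyEq h1
  refine h4.congr_deriv (Eq.symm ?_)
  unfold u0
  split_ifs with h
  · rw [max_eq_right (by linarith)]
    have : 3 - t ^ 2 ≠ 0 := by nlinarith
    have h5 : 6 - 2 * t ^ 2 + 3 * (0 : ℝ) ^ 2 ≠ 0 := by
      have : 0 < 3 - t ^ 2 := by nlinarith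
      intro h; linarith
    rw [← neg_div, div_eq_div_iff this h5]
    ring
  · rw [max_eq_left (by linarith)]
    have h5 : 3 - t ≠ 0 := by linarith
    have h6 : 6 - 2 * t ^ 2 + 3 * (t - 1) ^ 2 = (3 - t) ^ 2 := by ring
    rw [h6, ← neg_div, div_eq_div_iff h5 (pow_ne_zero 2 h5)]
    ring

theorem ph3_der {t : ℝ} (h : |t| < 3) : HasDerivAt ph3 (U t) t := by
  rw [abs_lt] at h
  unfold U
  split_ifs with h0
  · exact ph3_der0 h0 h.2
  · have h1 := ph3_der0 (t := -t) (by linarith) (by linarith)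
    have h2 : HasDerivAt (fun x => ph3 (-x)) (u0 (-t) * (-1)) t :=
      h1.comp t (hasDerivAt_neg t)
    have h3 : (fun x => ph3 (-x)) = ph3 := by funext x; exact ph3_neg x
    rw [h3] at h2
    exact h2.congr_deriv (by ring)

theorem mono_of_der {f f' : ℝ → ℝ} {a b : ℝ} (h : ∀ x ∈ Icc a b, HasDerivAt f (f' x) x)
    (h0 : ∀ x ∈ Icc a b, 0 ≤ f' x) : ∀ s t, a ≤ s → s ≤ t → t ≤ b → f s ≤ f t := by
  have hm : MonotoneOn f (Icc a b) := by
    refine monotoneOn_of_deriv_nonneg (convex_Icc a b) (fun x hx => (h x hx).continuousAt.continuousWithinAt)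
      (fun x hx => (h x (interior_subset hx)).differentiableAt.differentiableWithinAt) (fun x hx => ?_)
    rw [(h x (interior_subset hx)).deriv]
    exact h0 x (interior_subset hx)
  intro s t h1 h2 h3
  exact hm ⟨h1, h2.trans h3⟩ ⟨h1.trans h2, h3⟩ h2

theorem d1 {t : ℝ} (h : t ^ 2 < 3) : HasDerivAt (fun t : ℝ => 2 * t / (3 - t ^ 2)) ((6 + 2 * t ^ 2) / (3 - t ^ 2) ^ 2) t := by
  have a1 := (hasDerivAt_id t).const_mul 2
  have a2 := (hasDerivAt_pow 2 t).const_sub 3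
  have a3 := a1.div a2 (sub_ne_zero.2 h.ne')
  exact a3.congr_deriv (by simp; ring)

theorem d2 {t : ℝ} (h : t < 3) : HasDerivAt (fun t : ℝ => 2 / (3 - t)) (2 / (3 - t) ^ 2) t := by
  have a2 := (hasDerivAt_id t).const_sub 3
  have a3 := (hasDerivAt_const t (2 : ℝ)).div a2 (sub_ne_zero.2 h.ne')
  exact a3.congr_deriv (by simp)

theorem pd (a0 a1 a2 a3 a4 a5 a6 x : ℝ) :
    HasDerivAt (fun x : ℝ => a0 + a1 * x + a2 * x ^ 2 + a3 * x ^ 3 + a4 * x ^ 4 + a5 * x ^ 5 + a6 * x ^ 6)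
      (a1 + 2 * a2 * x + 3 * a3 * x ^ 2 + 4 * a4 * x ^ 3 + 5 * a5 * x ^ 4 + 6 * a6 * x ^ 5) x := by
  have h1 := (hasDerivAt_id x).const_mul a1
  have h2 := (hasDerivAt_pow 2 x).const_mul a2
  have h3 := (hasDerivAt_pow 3 x).const_mul a3
  have h4 := (hasDerivAt_pow 4 x).const_mul a4
  have h5 := (hasDerivAt_pow 5 x).const_mul a5
  have h6 := (hasDerivAt_pow 6 x).const_mul a6
  have h := ((((((hasDerivAt_const x a0).add h1).add h2).add h3).add h4).add h5).add h6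
  exact h.congr_deriv (by simp; ring)

/-- comparison on a piece inside `[0,1]` -/
theorem inc1 {a b : ℝ} (ha : 0 ≤ a) (hb : b ≤ 1) {q q' : ℝ → ℝ} (hq : ∀ x, HasDerivAt q (q' x) x)
    (h : ∀ x ∈ Icc a b, q' x ≤ (6 + 2 * x ^ 2) / (3 - x ^ 2) ^ 2) :
    ∀ s t, a ≤ s → s ≤ t → t ≤ b → q t - q s ≤ u0 t - u0 s := by
  intro s t h1 h2 h3
  have key := mono_of_der (f := fun x => 2 * x / (3 - x ^ 2) - q x)
    (f' := fun x => (6 + 2 * x ^ 2) / (3 - x ^ 2) ^ 2 - q' x) (a := a) (b := b)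
    (fun x hx => (d1 (by nlinarith [hx.1, hx.2])).sub (hq x))
    (fun x hx => sub_nonneg.2 (h x hx)) s t h1 h2 h3
  unfold u0
  rw [if_pos (h3.trans hb), if_pos ((h2.trans h3).trans hb)]
  linarith

theorem inc1' {a b : ℝ} (ha : 0 ≤ a) (hb : b ≤ 1) {q q' : ℝ → ℝ} (hq : ∀ x, HasDerivAt q (q' x) x)
    (h : ∀ x ∈ Icc a b, (6 + 2 * x ^ 2) / (3 - x ^ 2) ^ 2 ≤ q' x) :
    ∀ s t, a ≤ s → s ≤ t → t ≤ b → u0 t - u0 s ≤ q t - q s := by
  intro s t h1 h2 h3
  have key := mono_of_der (f := fun x => q x - 2 * x / (3 - x ^ 2))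
    (f' := fun x => q' x - (6 + 2 * x ^ 2) / (3 - x ^ 2) ^ 2) (a := a) (b := b)
    (fun x hx => (hq x).sub (d1 (by nlinarith [hx.1, hx.2])))
    (fun x hx => sub_nonneg.2 (h x hx)) s t h1 h2 h3
  unfold u0
  rw [if_pos (h3.trans hb), if_pos ((h2.trans h3).trans hb)]
  linarith

theorem u0_ge {t : ℝ} (h : 1 ≤ t) : u0 t = 2 / (3 - t) := by
  unfold u0
  split_ifs with h1
  · have : t = 1 := le_antisymm h1 h
    subst this; norm_num
  · rfl

/-- comparison on a piece inside `[1,3)` -/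
theorem inc2 {a b : ℝ} (ha : 1 ≤ a) (hb : b < 3) {q q' : ℝ → ℝ} (hq : ∀ x, HasDerivAt q (q' x) x)
    (h : ∀ x ∈ Icc a b, q' x ≤ 2 / (3 - x) ^ 2) :
    ∀ s t, a ≤ s → s ≤ t → t ≤ b → q t - q s ≤ u0 t - u0 s := by
  intro s t h1 h2 h3
  have key := mono_of_der (f := fun x => 2 / (3 - x) - q x)
    (f' := fun x => 2 / (3 - x) ^ 2 - q' x) (a := a) (b := b)
    (fun x hx => (d2 (lt_of_le_of_lt hx.2 hb)).sub (hq x))
    (fun x hx => sub_nonneg.2 (h x hx)) s t h1 h2 h3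
  rw [u0_ge (ha.trans h1), u0_ge ((ha.trans h1).trans h2)]
  linarith

theorem inc2' {a b : ℝ} (ha : 1 ≤ a) (hb : b < 3) {q q' : ℝ → ℝ} (hq : ∀ x, HasDerivAt q (q' x) x)
    (h : ∀ x ∈ Icc a b, 2 / (3 - x) ^ 2 ≤ q' x) :
    ∀ s t, a ≤ s → s ≤ t → t ≤ b → u0 t - u0 s ≤ q t - q s := by
  intro s t h1 h2 h3
  have key := mono_of_der (f := fun x => q x - 2 / (3 - x))
    (f' := fun x => q' x - 2 / (3 - x) ^ 2) (a := a) (b := b)
    (fun x hx => (hq x).sub (d2 (lt_of_le_of_lt hx.2 hb)))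
    (fun x hx => sub_nonneg.2 (h x hx)) s t h1 h2 h3
  rw [u0_ge (ha.trans h1), u0_ge ((ha.trans h1).trans h2)]
  linarith

noncomputable def FF (t : ℝ) : ℝ := (t - 1) / 2 + (t - 1) ^ 2 / 5 + 7 / 30 * (t - 1) ^ 3 - 3 / 5 * max (1 - t) 0
noncomputable def FF2 (t : ℝ) : ℝ :=
  (t - 1) ^ 2 / 4 + (t - 1) ^ 3 / 15 + 7 / 120 * (t - 1) ^ 4 + 3 / 10 * (max (1 - t) 0) ^ 2
noncomputable def EE (s : ℝ) : ℝ := 2 / 3 * (s + s ^ 3 / 3 + s ^ 5 / 5)
noncomputable def EE2 (s : ℝ) : ℝ := s ^ 2 / 3 + s ^ 4 / 18 + s ^ 6 / 45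

theorem FF2_der (t : ℝ) : HasDerivAt FF2 (FF t) t := by
  have h1 := (pd 0 0 (1 / 4) (1 / 15) (7 / 120) 0 0 (t - 1)).comp_sub_const t 1
  have h2 : HasDerivAt (fun t : ℝ => (max (1 - t) 0) ^ 2) (2 * max (1 - t) 0 * (-1)) t := by
    have h3 : HasDerivAt (fun t : ℝ => 1 - t) (-1) t := by
      simpa using (hasDerivAt_id t).const_sub 1
    exact (sqd (1 - t)).comp t h3
  have h4 := h1.add (h2.const_mul (3 / 10))
  have e : FF2 = fun x : ℝ => (0 + 0 * (x - 1) + 1 / 4 * (x - 1) ^ 2 + 1 / 15 * (x - 1) ^ 3 + 7 / 120 * (x - 1) ^ 4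
      + 0 * (x - 1) ^ 5 + 0 * (x - 1) ^ 6) + 3 / 10 * (max (1 - x) 0) ^ 2 := by
    funext x; unfold FF2; ring
  rw [e]
  exact h4.congr_deriv (by unfold FF; ring)

theorem EE2_der (t : ℝ) : HasDerivAt EE2 (EE t) t := by
  have h1 := pd 0 0 (1 / 3) 0 (1 / 18) 0 (1 / 45) t
  have e : EE2 = fun x : ℝ => (0 + 0 * x + 1 / 3 * x ^ 2 + 0 * x ^ 3 + 1 / 18 * x ^ 4
      + 0 * x ^ 5 + 1 / 45 * x ^ 6) := by
    funext x; unfold EE2; ring
  rw [e]
  exact h1.congr_deriv (by unfold EE; ring)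

theorem EE_der (t : ℝ) : HasDerivAt EE (2 / 3 * (1 + t ^ 2 + t ^ 4)) t := by
  have h1 := pd 0 (2 / 3) 0 (2 / 9) 0 (2 / 15) 0 t
  have e : EE = fun x : ℝ => (0 + 2 / 3 * x + 0 * x ^ 2 + 2 / 9 * x ^ 3 + 0 * x ^ 4
      + 2 / 15 * x ^ 5 + 0 * x ^ 6) := by
    funext x; unfold EE; ring
  rw [e]
  exact h1.congr_deriv (by ring)

theorem lin_der (a t : ℝ) : HasDerivAt (fun x : ℝ => a * x) a t := by
  simpa using (hasDerivAt_id t).const_mul a

theorem mA : ∀ s t : ℝ, 0.69 ≤ s → s ≤ t → t ≤ 2.325 → FF t - FF s ≤ u0 t - u0 s := by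
  -- left piece
  have hl : ∀ s t : ℝ, 0.69 ≤ s → s ≤ t → t ≤ 1 → FF t - FF s ≤ u0 t - u0 s := by
    intro s t h1 h2 h3
    have key := inc1 (a := 0.69) (b := 1) (by norm_num) le_rfl
      (q := fun x => 0 + (11 / 10) * (x - 1) + 1 / 5 * (x - 1) ^ 2 + 7 / 30 * (x - 1) ^ 3 + 0 * (x - 1) ^ 4
        + 0 * (x - 1) ^ 5 + 0 * (x - 1) ^ 6)
      (fun x => (pd 0 (11 / 10) (1 / 5) (7 / 30) 0 0 0 (x - 1)).comp_sub_const x 1) ?_ s t h1 h2 h3
    · unfold FF
      rw [max_eq_left (by linarith), max_eq_left (by linarith)]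
      linarith
    · intro x hx
      obtain ⟨hx1, hx2⟩ := hx
      have hp : 0 < 3 - x ^ 2 := by nlinarith
      rw [le_div_iff₀ (by positivity)]
      have e : (11 / 10 + 2 * (1 / 5) * (x - 1) + 3 * (7 / 30) * (x - 1) ^ 2 + 4 * 0 * (x - 1) ^ 3 +
        5 * 0 * (x - 1) ^ 4 + 6 * 0 * (x - 1) ^ 5) ≤ 11 / 10 + 183 / 1000 * (x - 1) := by
        nlinarith
      have e2 : (3 - x ^ 2) ^ 2 ≥ 0 := by positivity
      refine (mul_le_mul_of_nonneg_right e e2).trans ?_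
      have hx1' : 0.69 ≤ x := hx1
      nlinarith [mul_nonneg (sub_nonneg.2 hx1') (sub_nonneg.2 hx2), mul_nonneg (mul_nonneg (sub_nonneg.2 hx1') (sub_nonneg.2 hx2)) (sub_nonneg.2 hx1'),
        mul_nonneg (mul_nonneg (sub_nonneg.2 hx1') (sub_nonneg.2 hx2)) (sub_nonneg.2 hx2),
        mul_nonneg (mul_nonneg (mul_nonneg (sub_nonneg.2 hx1') (sub_nonneg.2 hx2)) (sub_nonneg.2 hx2)) (sub_nonneg.2 hx2),
        mul_nonneg (mul_nonneg (mul_nonneg (sub_nonneg.2 hx1') (sub_nonneg.2 hx2)) (sub_nonneg.2 hx2)) (sub_nonneg.2 hx1'),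
        pow_nonneg (sub_nonneg.2 hx1') 3, pow_nonneg (sub_nonneg.2 hx2) 3, pow_nonneg (sub_nonneg.2 hx1') 4, pow_nonneg (sub_nonneg.2 hx2) 4,
        pow_nonneg (sub_nonneg.2 hx1') 5, pow_nonneg (sub_nonneg.2 hx2) 5]
  have hr : ∀ s t : ℝ, 1 ≤ s → s ≤ t → t ≤ 2.325 → FF t - FF s ≤ u0 t - u0 s := by
    intro s t h1 h2 h3
    have key := inc2 (a := 1) (b := 2.325) le_rfl (by norm_num)
      (q := fun x => 0 + (1 / 2) * (x - 1) + 1 / 5 * (x - 1) ^ 2 + 7 / 30 * (x - 1) ^ 3 + 0 * (x - 1) ^ 4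
        + 0 * (x - 1) ^ 5 + 0 * (x - 1) ^ 6)
      (fun x => (pd 0 (1 / 2) (1 / 5) (7 / 30) 0 0 0 (x - 1)).comp_sub_const x 1) ?_ s t h1 h2 h3
    · unfold FF
      rw [max_eq_right (by linarith), max_eq_right (by linarith)]
      linarith
    · intro x hx
      obtain ⟨hx1, hx2⟩ := hx
      have hp : 0 < 3 - x := by norm_num at hx2; linarith
      rw [le_div_iff₀ (by positivity)]
      obtain ⟨z, hz⟩ : ∃ z, z = x - 1 := ⟨_, rfl⟩
      have hz0 : 0 ≤ z := by linarith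
      have hz1 : z ≤ 1.325 := by norm_num at hx2 ⊢; linarith
      have e : (1 / 2 + 2 * (1 / 5) * (x - 1) + 3 * (7 / 30) * (x - 1) ^ 2 + 4 * 0 * (x - 1) ^ 3 +
        5 * 0 * (x - 1) ^ 4 + 6 * 0 * (x - 1) ^ 5) * (3 - x) ^ 2 = 2 - z * (0.4 - 1.7 * z + 2.4 * z ^ 2 - 0.7 * z ^ 3) := by
        rw [hz]; ring
      rw [e]
      have e3 : 0 ≤ 0.4 - 1.7 * z + 2.4 * z ^ 2 - 0.7 * z ^ 3 := by
        nlinarith [mul_nonneg (sub_nonneg.2 hz1) (sq_nonneg (z - 0.45)), sq_nonneg (z - 0.43)]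
      have := mul_nonneg hz0 e3
      linarith
  intro s t h1 h2 h3
  rcases le_total t 1 with h | h
  · exact hl s t h1 h2 h
  · rcases le_total 1 s with h' | h'
    · exact hr s t h' h2 h3
    · have k1 := hl s 1 h1 h' le_rfl
      have k2 := hr 1 t le_rfl h h3
      linarith

theorem mB0 : ∀ s t : ℝ, 0 ≤ s → s ≤ t → t ≤ 1.225 → u0 t - u0 s ≤ EE t - EE s := by
  have hl : ∀ s t : ℝ, 0 ≤ s → s ≤ t → t ≤ 1 → u0 t - u0 s ≤ EE t - EE s := by
    refine inc1' (a := 0) (b := 1) le_rfl le_rfl EE_der ?_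
    intro x hx
    obtain ⟨hx1, hx2⟩ := hx
    have hp : 0 < 3 - x ^ 2 := by nlinarith
    rw [div_le_iff₀ (by positivity)]
    have hv : x ^ 2 ≤ 1 := by nlinarith
    have : 0 ≤ (x ^ 2) ^ 2 * ((1 - x ^ 2) * (4 - x ^ 2)) := by
      have a1 : 0 ≤ 1 - x ^ 2 := by linarith
      have a2 : 0 ≤ 4 - x ^ 2 := by linarith
      positivity
    nlinarith
  have hr : ∀ s t : ℝ, 1 ≤ s → s ≤ t → t ≤ 1.225 → u0 t - u0 s ≤ EE t - EE s := by
    refine inc2' (a := 1) (b := 1.225) le_rfl (by norm_num) EE_der ?_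
    intro x hx
    obtain ⟨hx1, hx2⟩ := hx
    have hp : 1.7 ≤ 3 - x := by norm_num at hx2 ⊢; linarith
    have hp2 : 1 ≤ (3 - x) ^ 2 := by nlinarith
    rw [div_le_iff₀ (by positivity)]
    have h2 : 2 ≤ 2 / 3 * (1 + x ^ 2 + x ^ 4) := by
      have a1 : 1 ≤ x ^ 2 := one_le_pow₀ hx1
      have a2 : 1 ≤ x ^ 4 := one_le_pow₀ hx1
      linarith
    nlinarith
  intro s t h1 h2 h3
  rcases le_total t 1 with h | h
  · exact hl s t h1 h2 h
  · rcases le_total 1 s with h' | h'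
    · exact hr s t h' h2 h3
    · have k1 := hl s 1 h1 h' le_rfl
      have k2 := hr 1 t le_rfl h h3
      linarith

/-- odd extension of a comparison -/
theorem odd_ext {q : ℝ → ℝ} (hq : ∀ x, q (-x) = - q x) {b : ℝ}
    (h : ∀ s t : ℝ, 0 ≤ s → s ≤ t → t ≤ b → u0 t - u0 s ≤ q t - q s) :
    ∀ s t : ℝ, -b ≤ s → s ≤ t → t ≤ b → U t - U s ≤ q t - q s := by
  have h0 : u0 0 = 0 := by unfold u0; simp
  have q0 : q 0 = 0 := by have := hq 0; rw [neg_zero] at this; linarith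
  have Upos : ∀ x, 0 ≤ x → U x = u0 x := fun x hx => by unfold U; rw [if_pos hx]
  have Uneg : ∀ x, x ≤ 0 → U x = - u0 (-x) := fun x hx => by
    have := U_neg (-x)
    rw [neg_neg] at this
    rw [this, Upos (-x) (by linarith)]
  intro s t h1 h2 h3
  rcases le_total 0 s with hs | hs
  · rw [Upos s hs, Upos t (hs.trans h2)]
    exact h s t hs h2 h3
  · rcases le_total t 0 with ht | ht
    · rw [Uneg s hs, Uneg t ht]
      have := h (-t) (-s) (by linarith) (by linarith) (by linarith)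
      rw [hq, hq] at this
      linarith
    · rw [Uneg s hs, Upos t ht]
      have k1 := h 0 (-s) le_rfl (by linarith) (by linarith)
      have k2 := h 0 t le_rfl ht h3
      rw [hq] at k1
      linarith

theorem mB : ∀ s t : ℝ, -1.225 ≤ s → s ≤ t → t ≤ 1.225 → U t - U s ≤ EE t - EE s := by
  refine odd_ext ?_ mB0
  intro x; unfold EE; ring

theorem h4 : ∀ s t : ℝ, -1.62 ≤ s → s ≤ t → t ≤ 1.62 → U t - U s ≤ 2 * t - 2 * s := by
  refine odd_ext (q := fun x => 2 * x) (fun x => by ring) ?_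
  have hl : ∀ s t : ℝ, 0 ≤ s → s ≤ t → t ≤ 1 → u0 t - u0 s ≤ 2 * t - 2 * s := by
    refine inc1' (a := 0) (b := 1) le_rfl le_rfl (lin_der 2) ?_
    intro x hx
    obtain ⟨hx1, hx2⟩ := hx
    have hp : 0 < 3 - x ^ 2 := by nlinarith
    rw [div_le_iff₀ (by positivity)]
    have hv : x ^ 2 ≤ 1 := by nlinarith
    have : 0 ≤ (1 - x ^ 2) * (6 - x ^ 2) := by
      have a1 : 0 ≤ 1 - x ^ 2 := by linarith
      have a2 : 0 ≤ 6 - x ^ 2 := by linarith
      positivity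
    nlinarith
  have hr : ∀ s t : ℝ, 1 ≤ s → s ≤ t → t ≤ 1.62 → u0 t - u0 s ≤ 2 * t - 2 * s := by
    refine inc2' (a := 1) (b := 1.62) le_rfl (by norm_num) (lin_der 2) ?_
    intro x hx
    obtain ⟨hx1, hx2⟩ := hx
    have hp : 1 ≤ 3 - x := by norm_num at hx2; linarith
    have hp2 : 1 ≤ (3 - x) ^ 2 := by nlinarith
    rw [div_le_iff₀ (by positivity)]
    nlinarith
  intro s t h1 h2 h3
  rcases le_total t 1 with h | h
  · exact hl s t h1 h2 h
  · rcases le_total 1 s with h' | h'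
    · exact hr s t h' h2 h3
    · have k1 := hl s 1 h1 h' le_rfl
      have k2 := hr 1 t le_rfl h h3
      linarith

theorem h2 : ∀ s t : ℝ, 0 ≤ s → s ≤ t → t ≤ 0.62 → U t - U s ≤ t - s := by
  intro s t h1 h2 h3
  have key := inc1' (a := 0) (b := 0.62) le_rfl (by norm_num) (lin_der 1) (by
    intro x hx
    obtain ⟨hx1, hx2⟩ := hx
    have hx2' : x ≤ 0.62 := hx2
    have hv : x ^ 2 ≤ 0.3844 := by nlinarith
    have hp : 0 < 3 - x ^ 2 := by linarith
    rw [div_le_iff₀ (by positivity)]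
    nlinarith [sq_nonneg (x ^ 2)]) s t h1 h2 h3
  unfold U
  rw [if_pos h1, if_pos (h1.trans h2)]
  simp only [one_mul] at key
  exact key

theorem h1 : ∀ s t : ℝ, 1.59 ≤ s → s ≤ t → t < 3 → t - s ≤ U t - U s := by
  intro s t h1 h2 h3
  have key := inc2 (a := 1.59) (b := t) (by norm_num) h3 (lin_der 1) (by
    intro x hx
    obtain ⟨hx1, hx2⟩ := hx
    have hx1' : 1.59 ≤ x := hx1
    have hp : 0 < 3 - x := by linarith
    rw [le_div_iff₀ (by positivity)]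
    nlinarith) s t h1 h2 le_rfl
  have hs0 : (0 : ℝ) ≤ s := le_trans (by norm_num) h1
  unfold U
  rw [if_pos hs0, if_pos (hs0.trans h2)]
  simp only [one_mul] at key
  exact key

theorem h3 : ∀ s t : ℝ, 2 ≤ s → s ≤ t → t < 3 → 2 * t - 2 * s ≤ U t - U s := by
  intro s t h1 h2 h3
  have key := inc2 (a := 2) (b := t) (by norm_num) h3 (lin_der 2) (by
    intro x hx
    obtain ⟨hx1, hx2⟩ := hx
    have hp : 0 < 3 - x := by linarith
    rw [le_div_iff₀ (by positivity)]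
    nlinarith) s t h1 h2 le_rfl
  have hs0 : (0 : ℝ) ≤ s := le_trans (by norm_num) h1
  unfold U
  rw [if_pos hs0, if_pos (hs0.trans h2)]
  exact key

theorem mC {c : ℝ} (hc : 0.69 ≤ c) (hc2 : c ≤ 1.225) : ∀ x y : ℝ, 1.1 ≤ x → x ≤ y → y + c < 3 →
    U (x + c) - U (x - c) ≤ U (y + c) - U (y - c) := by
  have A : ∀ x y : ℝ, 1.1 ≤ x → x ≤ y → y + c ≤ 2 → U (x + c) - U (x - c) ≤ U (y + c) - U (y - c) := by
    intro x y hx hxy hy
    have k1 := h1 (x + c) (y + c) (by norm_num at hx hc ⊢; linarith) (by linarith) (by linarith)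
    have k2 := h2 (x - c) (y - c) (by norm_num at hx hc ⊢; linarith) (by linarith) (by norm_num at hx hc ⊢; linarith)
    linarith
  have B : ∀ x y : ℝ, 1.1 ≤ x → 2 ≤ x + c → x ≤ y → y + c < 3 → U (x + c) - U (x - c) ≤ U (y + c) - U (y - c) := by
    intro x y hx hx2 hxy hy
    have k1 := h3 (x + c) (y + c) hx2 (by linarith) hy
    have k2 := h4 (x - c) (y - c) (by norm_num at hx hc2 ⊢; linarith) (by linarith) (by norm_num at hc ⊢; linarith)
    linarith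
  intro x y hx hxy hy
  rcases le_total (y + c) 2 with h | h
  · exact A x y hx hxy h
  · rcases le_total 2 (x + c) with h' | h'
    · exact B x y hx h' hxy hy
    · have k1 := A x (2 - c) hx (by linarith) (by linarith)
      have k2 := B (2 - c) y (by linarith) (by linarith) (by linarith) hy
      linarith

theorem Qa {f f' : ℝ → ℝ} {a b : ℝ} (h : ∀ x ∈ Icc a b, HasDerivAt f (f' x) x)
    (hm : ∀ x y, a ≤ x → x ≤ y → y ≤ b → f' x ≤ f' y) (ha : 0 ≤ a) (h0 : f a ≤ a * f' a) :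
    ∀ x ∈ Icc a b, f x ≤ x * f' x := by
  intro x hx
  have key := mono_of_der (f := fun t => f' x * t - f t) (f' := fun t => f' x - f' t) (a := a) (b := x)
    (fun t ht => (lin_der (f' x) t).sub (h t ⟨ht.1, ht.2.trans hx.2⟩))
    (fun t ht => sub_nonneg.2 (hm t x ht.1 ht.2 hx.2)) a x le_rfl hx.1 le_rfl
  have h1 := hm a x le_rfl hx.1 hx.2
  have h2 := mul_le_mul_of_nonneg_left h1 ha
  nlinarith

theorem Qb {f f' : ℝ → ℝ} {a b : ℝ} (h : ∀ x ∈ Icc a b, HasDerivAt f (f' x) x)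
    (hm : ∀ x y, a ≤ x → x ≤ y → y ≤ b → f' x ≤ f' y) (ha : 0 ≤ a) (h0 : f a ≤ a * f' a) :
    ∀ x y, a ≤ x → 0 < x → x ≤ y → y ≤ b → f x * y ≤ f y * x := by
  intro x y hx hx0 hxy hy
  have hQ := Qa h hm ha h0
  have key := mono_of_der (f := fun t => f t / t) (f' := fun t => (f' t * t - f t * 1) / t ^ 2) (a := x) (b := y)
    (fun t ht => (h t ⟨hx.trans ht.1, ht.2.trans hy⟩).div (hasDerivAt_id t) (lt_of_lt_of_le hx0 ht.1).ne')
    (fun t ht => div_nonneg (by have := hQ t ⟨hx.trans ht.1, ht.2.trans hy⟩; linarith) (sq_nonneg t))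
    x y le_rfl hxy le_rfl
  rwa [div_le_div_iff₀ hx0 (lt_of_lt_of_le hx0 hxy)] at key

theorem cub (y : ℝ) : HasDerivAt (fun y : ℝ => (max y 0) ^ 3) (3 * (max y 0) ^ 2) y := by
  have e : (fun y : ℝ => (max y 0) ^ 3) = fun y => y * (max y 0) ^ 2 := by
    funext y
    rcases le_total y 0 with h | h
    · rw [max_eq_right h]; ring
    · rw [max_eq_left h]; ring
  rw [e]
  have h := (hasDerivAt_id y).mul (sqd y)
  refine h.congr_deriv ?_
  simp only [id]
  rcases le_total y 0 with h | h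
  · rw [max_eq_right h]; ring
  · rw [max_eq_left h]; ring

/-- antiderivative of `x * (max (1-(x+c)) 0)^2` -/
theorem psi_der (c x : ℝ) : HasDerivAt (fun x : ℝ => -(x * (max (1 - (x + c)) 0) ^ 3 / 3 + ((max (1 - (x + c)) 0) ^ 2) ^ 2 / 12))
    (x * (max (1 - (x + c)) 0) ^ 2) x := by
  have h0 : HasDerivAt (fun x : ℝ => 1 - (x + c)) (-1) x := by
    simpa using ((hasDerivAt_id x).add_const c).const_sub 1
  have h1 : HasDerivAt (fun x : ℝ => (max (1 - (x + c)) 0) ^ 3) (3 * (max (1 - (x + c)) 0) ^ 2 * (-1)) x :=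
    HasDerivAt.comp (h₂ := fun y : ℝ => (max y 0) ^ 3) (h := fun x : ℝ => 1 - (x + c)) x (cub (1 - (x + c))) h0
  have h2 : HasDerivAt (fun x : ℝ => (max (1 - (x + c)) 0) ^ 2) (2 * max (1 - (x + c)) 0 * (-1)) x :=
    HasDerivAt.comp (h₂ := fun y : ℝ => (max y 0) ^ 2) (h := fun x : ℝ => 1 - (x + c)) x (sqd (1 - (x + c))) h0
  have h3 := ((((hasDerivAt_id x).mul h1).div_const 3).add ((h2.pow 2).div_const 12)).neg
  refine h3.congr_deriv ?_
  simp only [id]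
  push_cast
  ring

noncomputable def HH (c x : ℝ) : ℝ := ph3 (x + c) - ph3 (x - c)
noncomputable def PP (c x : ℝ) : ℝ := FF2 (x + c) - EE2 (x - c) - (FF2 c - EE2 c)

theorem HH_der {c x : ℝ} (h1 : |x + c| < 3) (h2 : |x - c| < 3) :
    HasDerivAt (HH c) (U (x + c) - U (x - c)) x :=
  ((ph3_der h1).comp_add_const x c).sub ((ph3_der h2).comp_sub_const x c)

theorem PP_der (c x : ℝ) : HasDerivAt (PP c) (FF (x + c) - EE (x - c)) x :=
  (((FF2_der (x + c)).comp_add_const x c).sub ((EE2_der (x - c)).comp_sub_const x c)).sub_const _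

theorem PP_cont (c : ℝ) : Continuous (PP c) :=
  continuous_iff_continuousAt.2 fun x => (PP_der c x).continuousAt

/-- coefficients -/
noncomputable def QQ (c x : ℝ) : ℝ :=
  -(3 / 20) * (max (1 - c) 0) ^ 2
  + ((-8 / 15) + (22 / 15) * c + (-1 / 2) * c ^ 2 + (41 / 90) * c ^ 3 + (2 / 15) * c ^ 5) / 3 * x
  + ((1 / 15) + (-1 / 2) * c + (1 / 60) * c ^ 2 + (-1 / 3) * c ^ 4) / 4 * x ^ 2
  + ((-1 / 6) + (41 / 90) * c + (4 / 9) * c ^ 3) / 5 * x ^ 3
  + ((1 / 360) + (-1 / 3) * c ^ 2) / 6 * x ^ 4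
  + ((2 / 15) * c) / 7 * x ^ 5
  + (-1 / 45) / 8 * x ^ 6

theorem int_der (c x : ℝ) : HasDerivAt (fun x : ℝ => x ^ 2 * QQ c x +
    3 / 10 * (-(x * (max (1 - (x + c)) 0) ^ 3 / 3 + ((max (1 - (x + c)) 0) ^ 2) ^ 2 / 12))) (x * PP c x) x := by
  have h1 := pd (-(3 / 20) * (max (1 - c) 0) ^ 2)
    (((-8 / 15) + (22 / 15) * c + (-1 / 2) * c ^ 2 + (41 / 90) * c ^ 3 + (2 / 15) * c ^ 5) / 3)
    (((1 / 15) + (-1 / 2) * c + (1 / 60) * c ^ 2 + (-1 / 3) * c ^ 4) / 4)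
    (((-1 / 6) + (41 / 90) * c + (4 / 9) * c ^ 3) / 5)
    (((1 / 360) + (-1 / 3) * c ^ 2) / 6)
    (((2 / 15) * c) / 7)
    ((-1 / 45) / 8) x
  have h2 := ((hasDerivAt_pow 2 x).mul h1).add ((psi_der c x).const_mul (3 / 10))
  refine h2.congr_deriv ?_
  unfold PP FF2 EE2
  push_cast
  ring

theorem int_PP (c : ℝ) (hc : 0.69 ≤ c) : ∫ x in (0 : ℝ)..1.1, x * PP c x =
    1.1 ^ 2 * QQ c 1.1 + 3 / 10 * ((max (1 - c) 0) ^ 4 / 12) := by
  have h := integral_eq_sub_of_hasDerivAt (a := 0) (b := 1.1) (fun x _ => int_der c x)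
    ((continuous_id.mul (PP_cont c)).intervalIntegrable _ _)
  have h' : ∫ x in (0 : ℝ)..1.1, x * PP c x = _ := h
  rw [h']
  have e : max (1 - (1.1 + c)) 0 = 0 := max_eq_right (by norm_num at hc ⊢; linarith)
  rw [e]
  simp only [zero_add]
  ring

theorem polyI (c : ℝ) (hc : 0.69 ≤ c) (hc2 : c ≤ 1.225) :
    3 * ∫ x in (0 : ℝ)..1.1, x * PP c x ≤ 1.21 * PP c 1.1 := by
  rw [int_PP c hc]
  unfold QQ PP FF2 EE2
  have e : max (1 - (1.1 + c)) 0 = 0 := max_eq_right (by norm_num at hc ⊢; linarith)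
  rw [e]
  rcases le_total c 1 with h | h
  · rw [max_eq_left (by linarith : (0 : ℝ) ≤ 1 - c)]
    have p0 : 0 ≤ c - 0.69 := sub_nonneg.2 hc
    have q0 : 0 ≤ 1 - c := sub_nonneg.2 h
    have b0 := pow_nonneg q0 4
    have b1 := mul_nonneg p0 (pow_nonneg q0 3)
    have b2 := mul_nonneg (pow_nonneg p0 2) (pow_nonneg q0 2)
    have b3 := mul_nonneg (pow_nonneg p0 3) q0
    have b4 := pow_nonneg p0 4
    norm_num at p0 b0 b1 b2 b3 b4 ⊢
    linarith
  · rw [max_eq_right (by linarith : 1 - c ≤ 0)]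
    have p0 : 0 ≤ c - 1 := sub_nonneg.2 h
    have q0 : 0 ≤ 1.225 - c := sub_nonneg.2 hc2
    have b0 := pow_nonneg q0 4
    have b1 := mul_nonneg p0 (pow_nonneg q0 3)
    have b2 := mul_nonneg (pow_nonneg p0 2) (pow_nonneg q0 2)
    have b3 := mul_nonneg (pow_nonneg p0 3) q0
    have b4 := pow_nonneg p0 4
    norm_num at q0 b0 b1 b2 b3 b4 ⊢
    linarith

theorem polyII (c : ℝ) (hc : 0.69 ≤ c) (hc2 : c ≤ 1.225) :
    PP c 1.1 ≤ 1.1 * (FF (1.1 + c) - EE (1.1 - c)) := by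
  unfold PP FF2 EE2 FF EE
  have e : max (1 - (1.1 + c)) 0 = 0 := max_eq_right (by norm_num at hc ⊢; linarith)
  rw [e]
  rcases le_total c 1 with h | h
  · rw [max_eq_left (by linarith : (0 : ℝ) ≤ 1 - c)]
    have p0 : 0 ≤ c - 0.69 := sub_nonneg.2 hc
    have q0 : 0 ≤ 1 - c := sub_nonneg.2 h
    have b0 := pow_nonneg q0 4
    have b1 := mul_nonneg p0 (pow_nonneg q0 3)
    have b2 := mul_nonneg (pow_nonneg p0 2) (pow_nonneg q0 2)
    have b3 := mul_nonneg (pow_nonneg p0 3) q0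
    have b4 := pow_nonneg p0 4
    norm_num at p0 b0 b1 b2 b3 b4 ⊢
    linarith
  · rw [max_eq_right (by linarith : 1 - c ≤ 0)]
    have p0 : 0 ≤ c - 1 := sub_nonneg.2 h
    have q0 : 0 ≤ 1.225 - c := sub_nonneg.2 hc2
    have b0 := pow_nonneg q0 4
    have b1 := mul_nonneg p0 (pow_nonneg q0 3)
    have b2 := mul_nonneg (pow_nonneg p0 2) (pow_nonneg q0 2)
    have b3 := mul_nonneg (pow_nonneg p0 3) q0
    have b4 := pow_nonneg p0 4
    norm_num at q0 b0 b1 b2 b3 b4 ⊢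
    linarith

theorem U_eq_u0 {t : ℝ} (h : 0 ≤ t) : U t = u0 t := by unfold U; rw [if_pos h]

theorem main (c w : ℝ) (hc : 0.69 ≤ c) (hc2 : c ≤ 1.225) (hw : 1.1 ≤ w) (hw2 : w + c < 3) :
    3 * ∫ x in (0 : ℝ)..w, x * HH c x ≤ w ^ 2 * HH c w := by
  have hc' : (69 / 100 : ℝ) ≤ c := by norm_num at hc; exact hc
  have hc2' : c ≤ (49 / 40 : ℝ) := by norm_num at hc2; exact hc2
  have hw' : (11 / 10 : ℝ) ≤ w := by norm_num at hw; exact hw
  have hder : ∀ x ∈ Icc 0 w, HasDerivAt (HH c) (U (x + c) - U (x - c)) x := by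
    intro x hx
    refine HH_der ?_ ?_
    · rw [abs_lt]; constructor <;> linarith [hx.1, hx.2]
    · rw [abs_lt]; constructor <;> linarith [hx.1, hx.2]
  have hcont : ContinuousOn (HH c) (Icc 0 w) := fun x hx => (hder x hx).continuousAt.continuousWithinAt
  -- K on [0,1.1]
  have kder : ∀ x ∈ Icc (0 : ℝ) 1.1, HasDerivAt (fun x => HH c x - PP c x)
      ((U (x + c) - U (x - c)) - (FF (x + c) - EE (x - c))) x := fun x hx =>
    (hder x ⟨hx.1, hx.2.trans hw⟩).sub (PP_der c x)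
  have kmono : ∀ x y : ℝ, 0 ≤ x → x ≤ y → y ≤ 1.1 → (U (x + c) - U (x - c)) - (FF (x + c) - EE (x - c)) ≤
      (U (y + c) - U (y - c)) - (FF (y + c) - EE (y - c)) := by
    intro x y hx hxy hy
    have hy' : y ≤ 11 / 10 := by norm_num at hy; exact hy
    have a1 := mA (x + c) (y + c) (by norm_num; linarith) (by linarith) (by norm_num; linarith)
    have a2 := mB (x - c) (y - c) (by norm_num; linarith) (by linarith) (by norm_num; linarith)
    rw [U_eq_u0 (by linarith : 0 ≤ x + c), U_eq_u0 (by linarith : 0 ≤ y + c)]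
    linarith
  have k0 : HH c 0 - PP c 0 = 0 := by
    unfold HH PP EE2
    rw [zero_add, zero_sub, ph3_neg]
    ring
  have kQa := Qa kder kmono le_rfl (by rw [k0, zero_mul])
  have kQb := Qb kder kmono le_rfl (by rw [k0, zero_mul])
  have S0 : ∀ x ∈ Icc (0 : ℝ) 1.1, x * (HH c x - PP c x) ≤ x ^ 2 * ((HH c 1.1 - PP c 1.1) / 1.1) := by
    intro x hx
    rcases eq_or_lt_of_le hx.1 with h | h
    · rw [← h]; norm_num
    · have := kQb x 1.1 hx.1 h hx.2 le_rfl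
      have h11 : (0 : ℝ) < 1.1 := by norm_num
      have h2 : HH c x - PP c x ≤ (HH c 1.1 - PP c 1.1) * x / 1.1 := by
        rw [le_div_iff₀ h11]; exact this
      calc x * (HH c x - PP c x) ≤ x * ((HH c 1.1 - PP c 1.1) * x / 1.1) :=
            mul_le_mul_of_nonneg_left h2 hx.1
        _ = _ := by ring
  have iH1 : IntervalIntegrable (fun x => x * HH c x) volume 0 1.1 := by
    refine ContinuousOn.intervalIntegrable ?_
    rw [uIcc_of_le (by norm_num)]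
    exact continuousOn_id.mul (hcont.mono (Icc_subset_Icc le_rfl hw))
  have iH2 : IntervalIntegrable (fun x => x * HH c x) volume 1.1 w := by
    refine ContinuousOn.intervalIntegrable ?_
    rw [uIcc_of_le hw]
    exact continuousOn_id.mul (hcont.mono (Icc_subset_Icc (by norm_num) le_rfl))
  have iP : IntervalIntegrable (fun x => x * PP c x) volume 0 1.1 :=
    (continuous_id.mul (PP_cont c)).intervalIntegrable _ _
  have S1 : 3 * ∫ x in (0 : ℝ)..1.1, x * HH c x ≤ 1.21 * HH c 1.1 := by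
    have e1 : ∫ x in (0 : ℝ)..1.1, x * (HH c x - PP c x) ≤
        ∫ x in (0 : ℝ)..1.1, x ^ 2 * ((HH c 1.1 - PP c 1.1) / 1.1) := by
      refine integral_mono_on (by norm_num) ?_ ?_ S0
      · have := iH1.sub iP
        refine this.congr ?_
        intro x _
        show x * HH c x - x * PP c x = x * (HH c x - PP c x)
        ring
      · exact Continuous.intervalIntegrable (by fun_prop) _ _
    have e2 : ∫ x in (0 : ℝ)..1.1, x * (HH c x - PP c x) =
        (∫ x in (0 : ℝ)..1.1, x * HH c x) - ∫ x in (0 : ℝ)..1.1, x * PP c x := by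
      rw [← integral_sub iH1 iP]
      refine integral_congr fun x _ => ?_
      show x * (HH c x - PP c x) = x * HH c x - x * PP c x
      ring
    have e3 : ∫ x in (0 : ℝ)..1.1, x ^ 2 * ((HH c 1.1 - PP c 1.1) / 1.1) =
        1.1 ^ 3 / 3 * ((HH c 1.1 - PP c 1.1) / 1.1) := by
      rw [intervalIntegral.integral_mul_const, integral_pow]
      norm_num
    have e4 := polyI c hc hc2
    rw [e2, e3] at e1
    have e5 : (1.1 : ℝ) ^ 3 / 3 * ((HH c 1.1 - PP c 1.1) / 1.1) = 1.21 / 3 * (HH c 1.1 - PP c 1.1) := by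
      norm_num
      ring
    rw [e5] at e1
    linarith
  have S2 : HH c 1.1 ≤ 1.1 * (U (1.1 + c) - U (1.1 - c)) := by
    have := kQa 1.1 ⟨by norm_num, le_rfl⟩
    have e := polyII c hc hc2
    linarith
  have S3 := Qb (f := HH c) (f' := fun x => U (x + c) - U (x - c)) (a := 1.1) (b := w)
    (fun x hx => hder x ⟨le_trans (by norm_num) hx.1, hx.2⟩)
    (fun x y hx hxy hy => mC hc hc2 x y hx hxy (by linarith)) (by norm_num) S2
  have hw0 : 0 < w := lt_of_lt_of_le (by norm_num) hw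
  have S4 : ∫ x in (1.1 : ℝ)..w, x * HH c x ≤ (w ^ 3 - 1.1 ^ 3) / 3 * (HH c w / w) := by
    have e1 : ∫ x in (1.1 : ℝ)..w, x * HH c x ≤ ∫ x in (1.1 : ℝ)..w, x ^ 2 * (HH c w / w) := by
      refine integral_mono_on hw iH2 ?_ ?_
      · exact Continuous.intervalIntegrable (by fun_prop) _ _
      · intro x hx
        have hx0 : 0 < x := lt_of_lt_of_le (by norm_num) hx.1
        have := S3 x w hx.1 hx0 hx.2 le_rfl
        have h2 : HH c x ≤ HH c w * x / w := by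
          rw [le_div_iff₀ hw0]; exact this
        calc x * HH c x ≤ x * (HH c w * x / w) := mul_le_mul_of_nonneg_left h2 hx0.le
          _ = _ := by ring
    have e3 : ∫ x in (1.1 : ℝ)..w, x ^ 2 * (HH c w / w) = (w ^ 3 - 1.1 ^ 3) / 3 * (HH c w / w) := by
      rw [intervalIntegral.integral_mul_const, integral_pow]
      norm_num
    rw [e3] at e1
    exact e1
  have S5 : 1.21 * HH c 1.1 ≤ 1.331 * (HH c w / w) := by
    have := S3 1.1 w le_rfl (by norm_num) hw le_rfl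
    have h2 : HH c 1.1 ≤ HH c w * 1.1 / w := by
      rw [le_div_iff₀ hw0]; exact this
    have h3 : (1.331 : ℝ) * (HH c w / w) = 1.21 * (HH c w * 1.1 / w) := by
      norm_num
      ring
    rw [h3]
    exact mul_le_mul_of_nonneg_left h2 (by norm_num)
  have S6 : ∫ x in (0 : ℝ)..w, x * HH c x = (∫ x in (0 : ℝ)..1.1, x * HH c x) + ∫ x in (1.1 : ℝ)..w, x * HH c x :=
    (integral_add_adjacent_intervals iH1 iH2).symm
  rw [S6]
  have S7 : w ^ 2 * HH c w = w ^ 3 * (HH c w / w) := by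
    field_simp
  rw [S7]
  have S8 : (w ^ 3 - 1.1 ^ 3) / 3 * (HH c w / w) * 3 = w ^ 3 * (HH c w / w) - 1.331 * (HH c w / w) := by
    norm_num
    ring
  linarith

end J4668

theorem I3_incr (c w : ℝ) (hc : 0.69 ≤ c) (hc2 : c ≤ 1.225) (hw : 1.1 ≤ w) (hw2 : w + c < 3) :
    3 * I3 c w ≤ w ^ 2 * (ph3 (w + c) - ph3 (w - c)) := by
  exact J4668.main c w hc hc2 hw hw2

end US.S4668
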