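import Pool.Agent.Helper70.US.Defs
set_option autoImplicit false
open MeasureTheory
namespace US.S5778




theorem g3_cont : Continuous g3 := by
  unfold g3
  refine Continuous.if_le (by fun_prop) (by fun_prop) (by fun_prop) (by fun_prop) ?_
  intro x hx
  have h2 : x ^ 2 = 1 := by rw [← sq_abs, hx]; norm_num
  rw [h2, hx]; norm_num

theorem g3_pos {x : ℝ} (h1 : -3 < x) (h2 : x < 3) : 0 < g3 x := by
  unfold g3
  split_ifs with h
  · have : x ^ 2 ≤ 1 := by rw [← sq_abs]; nlinarith [abs_nonneg x]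
    linarith
  · have : |x| < 3 := abs_lt.2 ⟨h1, h2⟩
    have h3 : 0 < 3 - |x| := by linarith
    positivity

theorem ph3_contAt {x : ℝ} (h1 : -3 < x) (h2 : x < 3) : ContinuousAt ph3 x :=
  (g3_cont.continuousAt.log (g3_pos h1 h2).ne').neg

theorem F_contAt {c x : ℝ} (hc : 0 ≤ c) (h1 : c - 3 < x) (h2 : x < 3 - c) :
    ContinuousAt (fun x => x * (ph3 (x + c) - ph3 (x - c))) x := by
  have e1 : ContinuousAt (fun x => ph3 (x + c)) x := by
    have : ContinuousAt ph3 (x + c) := ph3_contAt (by linarith) (by linarith)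
    exact ContinuousAt.comp (f := fun x => x + c) this (by fun_prop)
  have e2 : ContinuousAt (fun x => ph3 (x - c)) x := by
    have : ContinuousAt ph3 (x - c) := ph3_contAt (by linarith) (by linarith)
    exact ContinuousAt.comp (f := fun x => x - c) this (by fun_prop)
  exact continuousAt_id.mul (e1.sub e2)

theorem I3_deriv {c w : ℝ} (hc : 0 ≤ c) (hc3 : c < 3) (hw : 0 ≤ w) (hw2 : w + c < 3) :
    HasDerivAt (fun w => I3 c w) (w * (ph3 (w + c) - ph3 (w - c))) w := by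
  unfold I3
  refine intervalIntegral.integral_hasDerivAt_right ?_ ?_ (F_contAt hc (by linarith) (by linarith))
  · apply ContinuousOn.intervalIntegrable
    intro x hx
    rw [Set.uIcc_of_le hw] at hx
    exact (F_contAt hc (by linarith [hx.1]) (by linarith [hx.2])).continuousWithinAt
  · have hopen : IsOpen (Set.Ioo (c - 3) (3 - c)) := isOpen_Ioo
    have hcon : ContinuousOn (fun x => x * (ph3 (x + c) - ph3 (x - c))) (Set.Ioo (c - 3) (3 - c)) :=
      fun x hx => (F_contAt hc hx.1 hx.2).continuousWithinAt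
    exact hcon.stronglyMeasurableAtFilter hopen w ⟨by linarith, by linarith⟩

theorem E_mono
    (hincr : ∀ c w : ℝ, 0.69 ≤ c → c ≤ 1.225 → 1.1 ≤ w → w + c < 3 →
      3 * I3 c w ≤ w ^ 2 * (ph3 (w + c) - ph3 (w - c))) (c w1 w2 : ℝ) (hc1 : 0.69 ≤ c) (hc2 : c ≤ 1.225)
    (h1 : 1.1 ≤ w2) (h2 : w2 ≤ w1) (h3 : w1 + c < 3) : I3 c w2 / w2 ^ 3 ≤ I3 c w1 / w1 ^ 3 := by
  have hd : ∀ w ∈ Set.Icc (1.1 : ℝ) w1, HasDerivAt (fun w => I3 c w / w ^ 3)
      ((w * (ph3 (w + c) - ph3 (w - c)) * w ^ 3 - I3 c w * (3 * w ^ 2)) / (w ^ 3) ^ 2) w := by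
    intro w hw
    have hw0 : 0 < w := by linarith [hw.1]
    have e1 := I3_deriv (c := c) (w := w) (by linarith) (by linarith) hw0.le (by linarith [hw.2])
    have e2 : HasDerivAt (fun w : ℝ => w ^ 3) (3 * w ^ 2) w := by
      have := hasDerivAt_pow 3 w
      simpa using this
    exact e1.div e2 (by positivity)
  have hm : MonotoneOn (fun w => I3 c w / w ^ 3) (Set.Icc 1.1 w1) := by
    apply monotoneOn_of_deriv_nonneg (convex_Icc _ _)
    · exact fun w hw => (hd w hw).continuousAt.continuousWithinAt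
    · intro w hw
      rw [interior_Icc] at hw
      exact (hd w ⟨hw.1.le, hw.2.le⟩).differentiableAt.differentiableWithinAt
    · intro w hw
      rw [interior_Icc] at hw
      rw [(hd w ⟨hw.1.le, hw.2.le⟩).deriv]
      have h4 := hincr c w hc1 hc2 hw.1.le (by linarith [hw.2])
      have e : w * (ph3 (w + c) - ph3 (w - c)) * w ^ 3 - I3 c w * (3 * w ^ 2) =
          w ^ 2 * (w ^ 2 * (ph3 (w + c) - ph3 (w - c)) - 3 * I3 c w) := by ring
      rw [e]
      exact div_nonneg (mul_nonneg (sq_nonneg _) (by linarith)) (sq_nonneg _)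
  exact hm ⟨h1, h2⟩ ⟨by linarith, le_rfl⟩ h2

/-- `I3 c w / w^3` comparison. Hint: (i) `w ↦ I3 c w / w^3` is monotone on `[1.1, 3-c)` by `hincr`
(the integrand is continuous as ph3 is continuous on (-3,3)); (ii) if w2 ≥ 1.1 this is it;
(iii) if .5 ≤ w2 ≤ 1.1: I3 c w2/w2^3 ≤ .9375*2c/3 ≤ I3 c s/s^3 ≤ I3 c w1/w1^3 with s^2 = 2(3-c^2)-1.21, 1.1 ≤ s ≤ w1;
(iv) if w2 ≤ .5: the same with s^2 = 2(3-c^2)-.25 and hsmall. -/
theorem E_compare
    (hincr : ∀ c w : ℝ, 0.69 ≤ c → c ≤ 1.225 → 1.1 ≤ w → w + c < 3 →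
      3 * I3 c w ≤ w ^ 2 * (ph3 (w + c) - ph3 (w - c)))
    (hup : ∀ c w : ℝ, 0.69 ≤ c → c ≤ 1.225 → 0.5 ≤ w → w ≤ 1.1 → 3 * I3 c w ≤ 0.9375 * (2 * c) * w ^ 3)
    (hsmall : ∀ c w : ℝ, 0.69 ≤ c → c ≤ 1.225 → 0 < w → w ≤ 0.5 → 3 * I3 c w ≤ (2 * c) * w ^ 3)
    (hlow1 : ∀ c s : ℝ, 0.69 ≤ c → c ≤ 1.225 → 0 < s → s ^ 2 = 2 * (3 - c ^ 2) - 1.21 →
      0.9375 * (2 * c) * s ^ 3 ≤ 3 * I3 c s)
    (hlow2 : ∀ c s : ℝ, 0.69 ≤ c → c ≤ 1.225 → 0 < s → s ^ 2 = 2 * (3 - c ^ 2) - 0.25 →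
      (2 * c) * s ^ 3 ≤ 3 * I3 c s) :
    ∀ c w1 w2 : ℝ, 0.69 ≤ c → c ≤ 1.225 → 0 < w2 → w2 ≤ w1 → w1 ^ 2 + w2 ^ 2 = 2 * (3 - c ^ 2) →
      w1 + c < 3 → I3 c w2 / w2 ^ 3 ≤ I3 c w1 / w1 ^ 3 := by
  intro c w1 w2 hc1 hc2 hw2 hw hsum hw1
  have hw10 : 0 < w1 := by linarith
  rcases le_total 1.1 w2 with h1 | h1
  · exact E_mono hincr c w1 w2 hc1 hc2 h1 hw hw1
  · rcases le_total 0.5 w2 with h5 | h5
    · set s := Real.sqrt (2 * (3 - c ^ 2) - 1.21) with hs
      have hpos : 1.21 ≤ 2 * (3 - c ^ 2) - 1.21 := by nlinarith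
      have hs2 : s ^ 2 = 2 * (3 - c ^ 2) - 1.21 := Real.sq_sqrt (by linarith)
      have hs1 : 1.1 ≤ s := Real.le_sqrt_of_sq_le (by norm_num at *; linarith)
      have hs0 : 0 < s := by linarith
      have hsw : s ≤ w1 := by
        apply Real.sqrt_le_iff.2
        refine ⟨hw10.le, ?_⟩
        nlinarith
      have e1 := E_mono hincr c w1 s hc1 hc2 hs1 hsw hw1
      refine le_trans ?_ e1
      have e2 := hup c w2 hc1 hc2 h5 h1
      have e3 := hlow1 c s hc1 hc2 hs0 hs2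
      have e4 : I3 c w2 / w2 ^ 3 ≤ 0.9375 * (2 * c) / 3 := by
        rw [div_le_iff₀ (by positivity)]
        linarith
      have e5 : 0.9375 * (2 * c) / 3 ≤ I3 c s / s ^ 3 := by
        rw [le_div_iff₀ (by positivity)]
        linarith
      exact e4.trans e5
    · set s := Real.sqrt (2 * (3 - c ^ 2) - 0.25) with hs
      have hpos : 1.21 ≤ 2 * (3 - c ^ 2) - 0.25 := by nlinarith
      have hs2 : s ^ 2 = 2 * (3 - c ^ 2) - 0.25 := Real.sq_sqrt (by linarith)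
      have hs1 : 1.1 ≤ s := Real.le_sqrt_of_sq_le (by norm_num at *; linarith)
      have hs0 : 0 < s := by linarith
      have hsw : s ≤ w1 := by
        apply Real.sqrt_le_iff.2
        refine ⟨hw10.le, ?_⟩
        nlinarith
      have e1 := E_mono hincr c w1 s hc1 hc2 hs1 hsw hw1
      refine le_trans ?_ e1
      have e2 := hsmall c w2 hc1 hc2 hw2 h5
      have e3 := hlow2 c s hc1 hc2 hs0 hs2
      have e4 : I3 c w2 / w2 ^ 3 ≤ (2 * c) / 3 := by
        rw [div_le_iff₀ (by positivity)]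
        linarith
      have e5 : (2 * c) / 3 ≤ I3 c s / s ^ 3 := by
        rw [le_div_iff₀ (by positivity)]
        linarith
      exact e4.trans e5

end US.S5778
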