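import Pool.Agent.Helper70.US.Defs
set_option autoImplicit false
open MeasureTheory
namespace US.S5779




theorem ph3_neg (x : ℝ) : ph3 (-x) = ph3 x := by
  simp [ph3, g3, abs_neg]

theorem ph3_lo {s t : ℝ} (hs : 0 ≤ s) (hst : s ≤ t) (ht : t ≤ 1) :
    ph3 t - ph3 s ≤ (t ^ 2 - s ^ 2) / 2 := by
  have h1 : ph3 t = - Real.log (2 * (3 - t ^ 2)) := by
    unfold ph3 g3; rw [if_pos]; rw [abs_of_nonneg (by linarith)]; exact ht
  have h2 : ph3 s = - Real.log (2 * (3 - s ^ 2)) := by
    unfold ph3 g3; rw [if_pos]; rw [abs_of_nonneg hs]; linarith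
  have ht2 : t ^ 2 ≤ 1 := by nlinarith
  have hs2 : s ^ 2 ≤ t ^ 2 := by nlinarith
  have h3 : (0:ℝ) < 2 * (3 - t ^ 2) := by linarith
  have h4 : (0:ℝ) < 2 * (3 - s ^ 2) := by linarith
  have h5 : ph3 t - ph3 s = Real.log ((2 * (3 - s ^ 2)) / (2 * (3 - t ^ 2))) := by
    rw [h1, h2, Real.log_div h4.ne' h3.ne']; ring
  rw [h5]
  refine (Real.log_le_sub_one_of_pos (by positivity)).trans ?_
  rw [div_sub_one h3.ne', div_le_iff₀ h3]
  nlinarith

theorem ph3_hi {s t : ℝ} (hs : 1 ≤ s) (hst : s ≤ t) (ht : t ≤ 2) :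
    ph3 t - ph3 s ≤ (t ^ 2 - s ^ 2) / 2 := by
  have key : ∀ u : ℝ, 1 ≤ u → u ≤ 2 → ph3 u = - (2 * Real.log (3 - u)) := by
    intro u hu hu2
    unfold ph3 g3
    split_ifs with h
    · have : u = 1 := le_antisymm ((abs_of_nonneg (by linarith : (0:ℝ) ≤ u)) ▸ h) hu
      subst this
      norm_num
      rw [show (4:ℝ) = 2 ^ 2 by norm_num, Real.log_pow]; push_cast; ring
    · rw [abs_of_nonneg (by linarith : (0:ℝ) ≤ u), Real.log_pow]; push_cast; ring
  have hmono : MonotoneOn (fun u : ℝ => u ^ 2 / 2 + 2 * Real.log (3 - u)) (Set.Icc 1 2) := by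
    have hd : ∀ u : ℝ, u < 3 → HasDerivAt (fun u : ℝ => u ^ 2 / 2 + 2 * Real.log (3 - u))
        (u - 2 / (3 - u)) u := by
      intro u hu
      have h3 : (3 - u) ≠ 0 := by linarith
      have ha : HasDerivAt (fun u : ℝ => u ^ 2 / 2) u u := by
        have h := (hasDerivAt_pow 2 u).div_const 2
        exact h.congr_deriv (by norm_num)
      have hb : HasDerivAt (fun u : ℝ => 2 * Real.log (3 - u)) (-(2 / (3 - u))) u := by
        have h := (((hasDerivAt_id' u).const_sub 3).log h3).const_mul 2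
        exact h.congr_deriv (by ring)
      exact (ha.add hb).congr_deriv (by ring)
    apply monotoneOn_of_deriv_nonneg (convex_Icc 1 2)
    · intro u hu
      exact (hd u (by linarith [hu.2])).continuousAt.continuousWithinAt
    · intro u hu
      rw [interior_Icc] at hu
      exact (hd u (by linarith [hu.2])).differentiableAt.differentiableWithinAt
    · intro u hu
      rw [interior_Icc] at hu
      rw [(hd u (by linarith [hu.2])).deriv]
      have h3 : 0 < 3 - u := by linarith [hu.2]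
      rw [sub_nonneg, div_le_iff₀ h3]
      nlinarith [hu.1, hu.2, mul_nonneg (sub_nonneg.2 hu.1.le) (sub_nonneg.2 hu.2.le)]
  have h := hmono ⟨hs, by linarith⟩ ⟨by linarith, ht⟩ hst
  simp only at h
  rw [key t (by linarith) ht, key s hs (by linarith)]
  linarith

theorem ph3_diff {s t : ℝ} (hs : 0 ≤ s) (hst : s ≤ t) (ht : t ≤ 2) :
    ph3 t - ph3 s ≤ (t ^ 2 - s ^ 2) / 2 := by
  rcases le_total t 1 with h | h
  · exact ph3_lo hs hst h
  · rcases le_total s 1 with h' | h'
    · have h1 := ph3_lo hs h' le_rfl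
      have h2 := ph3_hi le_rfl h ht
      linarith
    · exact ph3_hi h' hst ht

/-- small w. Hint: for 0 ≤ x ≤ 1/2, `ph3 (x+c) - ph3 (x-c) = ph3 (c+x) - ph3 (c-x) ≤ ((c+x)^2-(c-x)^2)/2 = 2*c*x`
because ph3 is even and `t ↦ t^2/2 - ph3 t` is nondecreasing on [0,2]
(`ph3' t = 2t/(3-t^2) ≤ t` on [0,1], `ph3' t = 2/(3-t) ≤ t` on [1,2]); then integrate x*(2cx). -/
theorem I3_small (c w : ℝ) (hc : 0.69 ≤ c) (hc2 : c ≤ 1.225) (hw : 0 < w) (hw2 : w ≤ 0.5) :
    3 * I3 c w ≤ (2 * c) * w ^ 3 := by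
  have hc0 : (0:ℝ) < c := by norm_num at hc; linarith
  by_cases hint : IntervalIntegrable (fun x => x * (ph3 (x + c) - ph3 (x - c))) volume 0 w
  · have h1 : I3 c w ≤ ∫ x in (0:ℝ)..w, (2 * c) * x ^ 2 := by
      unfold I3
      apply intervalIntegral.integral_mono_on hw.le hint
      · apply Continuous.intervalIntegrable
        fun_prop
      · intro x hx
        have hx0 := hx.1
        have hx1 : x ≤ 0.5 := hx.2.trans hw2
        have h2 : ph3 (x - c) = ph3 (c - x) := by rw [← ph3_neg, neg_sub]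
        have h3 := ph3_diff (s := c - x) (t := x + c) (by norm_num at *; linarith) (by linarith)
          (by norm_num at *; linarith)
        rw [h2]
        have h4 : x * (ph3 (x + c) - ph3 (c - x)) ≤ x * (((x + c) ^ 2 - (c - x) ^ 2) / 2) :=
          mul_le_mul_of_nonneg_left h3 hx0
        nlinarith
    rw [intervalIntegral.integral_const_mul, integral_pow] at h1
    norm_num at h1
    linarith
  · have h1 : I3 c w = 0 := intervalIntegral.integral_undef hint
    rw [h1]
    have : 0 < w ^ 3 := by positivity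
    nlinarith

end US.S5779
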