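import Pool.Agent.Helper70.US.Defs
set_option autoImplicit false
open MeasureTheory
namespace US.S5780




/-- explicit form of the integrand -/
noncomputable def Hend (x : ℝ) : ℝ :=
  x * (Real.log (2 * (3 - (x - 1) ^ 2)) - Real.log ((2 - x) ^ 2))

theorem Hend_eq {x : ℝ} (h0 : 0 ≤ x) (h2 : x < 2) : x * (ph3 (x + 1) - ph3 (x - 1)) = Hend x := by
  have h1 : g3 (x - 1) = 2 * (3 - (x - 1) ^ 2) := by
    unfold g3
    rw [if_pos]
    rw [abs_le]
    constructor <;> linarith
  have h3 : g3 (x + 1) = (2 - x) ^ 2 := by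
    unfold g3
    rw [abs_of_nonneg (by linarith)]
    split_ifs with h
    · have : x = 0 := by linarith
      rw [this]
      norm_num
    · ring
  unfold ph3 Hend
  rw [h1, h3]
  ring

theorem Hend_cont {w : ℝ} (hw : w < 2) : ContinuousOn Hend (Set.Icc 0 w) := by
  unfold Hend
  apply ContinuousOn.mul continuousOn_id
  apply ContinuousOn.sub
  · apply ContinuousOn.log (by fun_prop)
    intro x hx
    have h1 : (x - 1) ^ 2 ≤ 1 := by
      have := hx.1
      have := hx.2
      nlinarith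
    linarith
  · apply ContinuousOn.log (by fun_prop)
    intro x hx
    have : 0 < 2 - x := by linarith [hx.2]
    positivity

theorem I3_eq {w : ℝ} (h0 : 0 ≤ w) (hw : w < 2) : I3 1 w = ∫ x in (0:ℝ)..w, Hend x := by
  unfold I3
  apply intervalIntegral.integral_congr
  intro x hx
  rw [Set.uIcc_of_le h0] at hx
  exact Hend_eq hx.1 (by linarith [hx.2])

/-- near the end. Numerically I3 1 1.99 = 6.31, I3 1 √3.75 = 5.44 (√3.75 = 1.9365).
Hint: with s = √3.75 (hlow gives I3 1 s ≥ (2/3) s^3 ≥ 4.84), `I3 1 w = I3 1 s + ∫_s^w x (ph3 (x+1) - ph3 (x-1))`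
and for x in [s,w], x ≥ 1.936 and ph3 (x+1) - ph3 (x-1) = log (2(3-(x-1)^2)/(2-x)^2) ≥ 4.75 (indeed ≥ 6.9,
e.g. 2(3-(x-1)^2) ≥ 4, 2-x ≤ 1/15, 900 ≥ 512 = 2^9, 9 log 2 > 6); then 4.84 + (1.99-1.9365)*1.936*6 > 16/3.
The integrand is nonnegative on [0,2) so I3 1 w is monotone in w. -/
theorem I3_end
    (hlow : ∀ s : ℝ, 0 < s → s ^ 2 = 3.75 → 2 * s ^ 3 ≤ 3 * I3 1 s) :
    ∀ w : ℝ, 1.99 ≤ w → w < 2 → 16 / 3 ≤ I3 1 w := by
  intro w hw1 hw2
  obtain ⟨s, hs⟩ : ∃ s, s = Real.sqrt 3.75 := ⟨_, rfl⟩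
  have hs0 : 0 < s := by rw [hs]; positivity
  have hs2 : s ^ 2 = 3.75 := by rw [hs]; exact Real.sq_sqrt (by norm_num)
  have hsl : 1.936 ≤ s := by
    by_contra h
    push Not at h
    nlinarith
  have hsu : s ≤ 1.937 := by
    by_contra h
    push Not at h
    nlinarith
  have h1 := hlow s hs0 hs2
  have h2 : 4.84 ≤ I3 1 s := by
    have : s ^ 3 = 3.75 * s := by rw [← hs2]; ring
    rw [this] at h1
    linarith
  rw [I3_eq (by linarith) hw2]
  rw [I3_eq hs0.le (by linarith)] at h2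
  have i1 : IntervalIntegrable Hend volume 0 s := by
    apply ContinuousOn.intervalIntegrable
    rw [Set.uIcc_of_le hs0.le]
    exact Hend_cont (by linarith)
  have i2 : IntervalIntegrable Hend volume s w := by
    apply ContinuousOn.intervalIntegrable
    rw [Set.uIcc_of_le (by linarith)]
    exact (Hend_cont hw2).mono (Set.Icc_subset_Icc_left hs0.le)
  rw [← intervalIntegral.integral_add_adjacent_intervals i1 i2]
  have h3 : ∫ _ in s..w, (11.6 : ℝ) ≤ ∫ x in s..w, Hend x := by
    apply intervalIntegral.integral_mono_on (by linarith) (by simp) i2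
    intro x hx
    have hx1 := hx.1
    have hx2 := hx.2
    have hb : 0 < (2 - x) ^ 2 := by
      have : 0 < 2 - x := by linarith
      positivity
    have hb2 : 512 * (2 - x) ^ 2 ≤ 2 * (3 - (x - 1) ^ 2) := by
      have e1 : (2 - x) ^ 2 ≤ 0.064 ^ 2 := pow_le_pow_left₀ (by linarith) (by linarith) 2
      have e2 : (x - 1) ^ 2 ≤ 1 := by nlinarith
      norm_num at e1
      linarith
    have hlog : 6 ≤ Real.log (2 * (3 - (x - 1) ^ 2)) - Real.log ((2 - x) ^ 2) := by
      have e1 : Real.log (512 * (2 - x) ^ 2) ≤ Real.log (2 * (3 - (x - 1) ^ 2)) :=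
        Real.log_le_log (by positivity) hb2
      rw [Real.log_mul (by norm_num) hb.ne', show (512 : ℝ) = 2 ^ 9 by norm_num,
        Real.log_pow] at e1
      have := Real.log_two_gt_d9
      push_cast at e1
      linarith
    unfold Hend
    nlinarith
  rw [intervalIntegral.integral_const, smul_eq_mul] at h3
  nlinarith

end US.S5780
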