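import Pool.Agent.Helper70.US.F12
import Pool.Agent.Helper70.US.S4665
import Pool.Agent.Helper70.US.S4666
import Pool.Agent.Helper70.US.S4667
import Pool.Agent.Helper70.US.S4668
import Pool.Agent.Helper70.US.S5778
import Pool.Agent.Helper70.US.S5779
import Pool.Agent.Helper70.US.S5780
set_option autoImplicit false
open MeasureTheory intervalIntegral Set
namespace US
open S4691

/-- truncated `φ_3` -/
noncomputable def pK (K x : ℝ) : ℝ := ph 3 (min |x| K)

theorem ph3_rel (x : ℝ) (hx : |x| < 3) : ph 3 x = ph3 x + Real.log 16 := by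
  have h1 := S5437.Bd3_eq bdFacts x hx.le
  have h2 := Bd_pos 3 (by norm_num) x (by exact_mod_cast hx)
  have h3 : g3 x = 16 * Bd 3 0 x := h1.symm
  unfold ph ph3
  rw [h3, Real.log_mul (by norm_num) h2.ne']
  ring

theorem d3_anti {x y : ℝ} (hx : 0 ≤ x) (hxy : x ≤ y) (hy : y ≤ 3) : d3 y ≤ d3 x := by
  unfold d3
  split_ifs <;> nlinarith

theorem ph3_mono {x y : ℝ} (hx : 0 ≤ x) (hxy : x ≤ y) (hy : y < 3) : ph 3 x ≤ ph 3 y := by
  unfold ph
  have h1 := Bd_pos 3 (by norm_num) y (by rw [abs_of_nonneg (hx.trans hxy)]; exact_mod_cast hy)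
  rw [neg_le_neg_iff]
  apply Real.log_le_log h1
  rw [S5437.aux3 bdFacts x hx (by linarith), S5437.aux3 bdFacts y (by linarith) hy.le]
  exact d3_anti hx hxy hy.le

section
variable {K : ℝ} (hK0 : 0 ≤ K) (hK : K < 3)
include hK0 hK

theorem pK_cont : Continuous (pK K) := by
  rw [continuous_iff_continuousAt]
  intro x
  have h1 : |min |x| K| < ((3:ℕ):ℝ) := by
    rw [abs_of_nonneg (le_min (abs_nonneg _) hK0)]
    push_cast
    exact lt_of_le_of_lt (min_le_right _ _) hK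
  have h2 : ContinuousAt (ph 3) (min |x| K) := (ph_deriv 3 le_rfl _ h1).continuousAt
  exact ContinuousAt.comp (f := fun x => min |x| K) h2 (by fun_prop)

theorem pK_even (x : ℝ) : pK K (-x) = pK K x := by unfold pK; rw [abs_neg]

theorem pK_eq (x : ℝ) (hx : |x| ≤ K) : pK K x = ph 3 x := by
  unfold pK
  rw [min_eq_left hx]
  rcases abs_choice x with h | h <;> rw [h]
  exact ph_neg 3 (by norm_num) x

theorem pK_mono {x y : ℝ} (h : |x| ≤ |y|) : pK K x ≤ pK K y := by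
  unfold pK
  exact ph3_mono (le_min (abs_nonneg _) hK0) (min_le_min_right _ h)
    (lt_of_le_of_lt (min_le_right _ _) hK)

theorem pK_le (x : ℝ) (hx : |x| < 3) : pK K x ≤ ph 3 x := by
  have h1 : ph 3 |x| = ph 3 x := by
    rcases abs_choice x with h | h <;> rw [h]
    exact ph_neg 3 (by norm_num) x
  rw [← h1]
  unfold pK
  exact ph3_mono (le_min (abs_nonneg _) hK0) (min_le_left _ _) hx

theorem Iw_eq {c w : ℝ} (hc : 0 ≤ c) (hw : 0 ≤ w) (h : w + c ≤ K) : Iw (pK K) c w = I3 c w := by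
  unfold Iw I3
  apply intervalIntegral.integral_congr
  intro x hx
  rw [uIcc_of_le hw] at hx
  simp only
  have e1 : |x + c| ≤ K := by rw [abs_of_nonneg (by linarith [hx.1])]; linarith [hx.2]
  have e2 : |x - c| ≤ K := by rw [abs_le]; constructor <;> linarith [hx.1, hx.2]
  rw [pK_eq hK0 hK _ e1, pK_eq hK0 hK _ e2, ph3_rel _ (by linarith), ph3_rel _ (by linarith)]
  ring

theorem cmp1 {c : ℝ} (hc : 0.69 ≤ c) (hc2 : c ≤ 1.225) (w1 w2 : ℝ) (h2 : 0 < w2) (h21 : w2 ≤ w1)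
    (hsq : w1 ^ 2 + w2 ^ 2 = 2 * (3 - c ^ 2)) (hw : w1 + c ≤ K) :
    Iw (pK K) c w2 / w2 ^ 3 ≤ Iw (pK K) c w1 / w1 ^ 3 := by
  have hc0 : 0 ≤ c := by norm_num at hc; linarith
  rw [Iw_eq hK0 hK hc0 h2.le (by linarith), Iw_eq hK0 hK hc0 (by linarith) hw]
  exact S5778.E_compare S4668.I3_incr S4665.I3_upper S5779.I3_small S4666.I3_lower1 S4667.I3_lower2
    c w1 w2 hc hc2 h2 h21 hsq (by linarith)

theorem cmp2 (hK2 : 2.99 ≤ K) (w1 w2 : ℝ) (h2 : 0 < w2) (h21 : w2 ≤ w1)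
    (hsq : w1 ^ 2 + w2 ^ 2 = 4) :
    Iw (pK K) 1 w2 / w2 ^ 3 ≤ Iw (pK K) 1 w1 / w1 ^ 3 := by
  have hK299 : (299 / 100 : ℝ) ≤ K := by norm_num at hK2; exact hK2
  rcases le_or_gt (w1 + 1) K with h | h
  · exact cmp1 hK0 hK (by norm_num) (by norm_num) w1 w2 h2 h21 (by rw [hsq]; norm_num) h
  · have hw1 : 199 / 100 < w1 := by linarith
    have hw1' : w1 ≤ 2 := by nlinarith
    have hw2 : w2 ≤ 1 / 2 := by
      by_contra hcon
      push Not at hcon
      nlinarith
    have hs := S5779.I3_small 1 w2 (by norm_num) (by norm_num) h2 (by norm_num; exact hw2)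
    have hI2 : Iw (pK K) 1 w2 / w2 ^ 3 ≤ 2 / 3 := by
      rw [Iw_eq hK0 hK (by norm_num) h2.le (by linarith)]
      rw [div_le_iff₀ (by positivity)]
      linarith
    have hend := S5780.I3_end (fun s hs0 hs1 => by
      have := S4667.I3_lower2 1 s (by norm_num) (by norm_num) hs0 (by rw [hs1]; norm_num)
      linarith) (K - 1) (by norm_num; linarith) (by linarith)
    have hcont : Continuous fun x => x * (pK K (x + 1) - pK K (x - 1)) := by
      have := pK_cont hK0 hK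
      fun_prop
    have hI1 : 16 / 3 ≤ Iw (pK K) 1 w1 := by
      refine hend.trans ?_
      rw [← Iw_eq hK0 hK (by norm_num) (by linarith) (by linarith : K - 1 + 1 ≤ K)]
      unfold Iw
      rw [← intervalIntegral.integral_add_adjacent_intervals (a := 0) (b := K - 1) (c := w1)
        (hcont.intervalIntegrable _ _) (hcont.intervalIntegrable _ _)]
      have : 0 ≤ ∫ x in (K - 1)..w1, x * (pK K (x + 1) - pK K (x - 1)) := by
        apply intervalIntegral.integral_nonneg (by linarith)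
        intro x hx
        have hx0 : 0 ≤ x := by linarith [hx.1]
        apply mul_nonneg hx0
        rw [sub_nonneg]
        apply pK_mono hK0 hK
        rw [abs_of_nonneg (by linarith : 0 ≤ x + 1), abs_le]
        constructor <;> linarith
      linarith
    refine hI2.trans ?_
    rw [le_div_iff₀ (by positivity)]
    have : w1 ^ 3 ≤ 2 ^ 3 := pow_le_pow_left₀ (by linarith) hw1' 3
    linarith

/-- last step -/
theorem last_step (hK2 : 2.99 ≤ K) {a b : ℝ} (ha : 0 ≤ a) (hb : 0 ≤ b) (hs : a ^ 2 + b ^ 2 = 2) :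
    A a (A b (A 1 (pK K))) 0 ≤ A 1 (A 1 (A 1 (pK K))) 0 := by
  apply pair_step3 (pK_cont hK0 hK) (pK_even hK0 hK) one_pos ha hb one_pos.le one_pos.le
    (by rw [hs]; norm_num) (by nlinarith [sq_nonneg (a - b)])
  intro w1 w2 h1 h2 h3 h4
  exact cmp2 hK0 hK hK2 w1 w2 h1 h2 (by rw [h3, hs]; norm_num)

/-- first step -/
theorem first_step {a b c : ℝ} (hc : 0.69 ≤ c) (hc2 : c ≤ 1.225) (ha : 1 < a) (hb : 0 ≤ b)
    (hb1 : b < 1) (hs : a ^ 2 + b ^ 2 + c ^ 2 = 3)
    (hsum : 1 + Real.sqrt (a ^ 2 + b ^ 2 - 1) + c ≤ K) :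
    A a (A b (A c (pK K))) 0 ≤ A 1 (A (Real.sqrt (a ^ 2 + b ^ 2 - 1)) (A c (pK K))) 0 := by
  have hc0 : 0 < c := by norm_num at hc; linarith
  have hq : 0 ≤ a ^ 2 + b ^ 2 - 1 := by nlinarith
  apply pair_step3 (pK_cont hK0 hK) (pK_even hK0 hK) hc0 (by linarith) hb one_pos.le (Real.sqrt_nonneg _)
    (by rw [Real.sq_sqrt hq]; ring) (step_prod ha hb hb1)
  intro w1 w2 h1 h2 h3 h4
  exact cmp1 hK0 hK hc hc2 w1 w2 h1 h2 (by rw [h3]; linarith) (by linarith)

end

theorem three {a b c : ℝ} (ha : 1 < a) (haM : a ≤ 1.43) (hb : 0 ≤ b) (hb1 : b < 1)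
    (hbc : b ≤ c) (hca : c ≤ a) (hs : a ^ 2 + b ^ 2 + c ^ 2 = 3) :
    ∃ K : ℝ, 0 ≤ K ∧ K < 3 ∧ 2.99 ≤ K ∧ a + b + c ≤ K ∧
      A a (A b (A c (pK K))) 0 ≤ A 1 (A 1 (A 1 (pK K))) 0 := by
  have haM' : a ≤ 143 / 100 := by norm_num at haM; exact haM
  have hc0 : 0 ≤ c := hb.trans hbc
  have hbc2 : b ^ 2 ≤ c ^ 2 := pow_le_pow_left₀ hb hbc 2
  have hca2 : c ^ 2 ≤ a ^ 2 := pow_le_pow_left₀ hc0 hca 2
  have ha2 : a ^ 2 ≤ (143 / 100) ^ 2 := pow_le_pow_left₀ (by linarith) haM' 2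
  have hc1 : 0.69 ≤ c := by
    norm_num
    by_contra hcon
    push Not at hcon
    have : c ^ 2 ≤ (69 / 100) ^ 2 := pow_le_pow_left₀ hc0 hcon.le 2
    norm_num at this ha2
    linarith
  have hc2 : c ≤ 1.225 := by
    norm_num
    by_contra hcon
    push Not at hcon
    have : (49 / 40) ^ 2 ≤ c ^ 2 := pow_le_pow_left₀ (by norm_num) hcon.le 2
    norm_num at this
    nlinarith [sq_nonneg b]
  have habc : a + b + c < 3 := by
    by_contra hcon
    push Not at hcon
    nlinarith [sq_nonneg (a - 1), sq_nonneg (b - 1), sq_nonneg (c - 1), mul_pos (sub_pos.2 ha) (sub_pos.2 ha)]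
  by_cases h1 : c = 1
  · refine ⟨max 2.99 (a + b + c), le_trans (by norm_num) (le_max_left _ _),
      max_lt (by norm_num) habc, le_max_left _ _, le_max_right _ _, ?_⟩
    have hK0 : (0:ℝ) ≤ max 2.99 (a + b + c) := le_trans (by norm_num) (le_max_left _ _)
    have hK : max 2.99 (a + b + c) < 3 := max_lt (by norm_num) habc
    rw [h1] at hs ⊢
    rw [h1] at hK0 hK
    exact last_step hK0 hK (le_max_left _ _) (by linarith) hb (by linarith)
  · set q := Real.sqrt (a ^ 2 + b ^ 2 - 1) with hq'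
    have hq : 0 ≤ a ^ 2 + b ^ 2 - 1 := by nlinarith
    have hq0 : 0 ≤ q := Real.sqrt_nonneg _
    have hq2 : q ^ 2 = a ^ 2 + b ^ 2 - 1 := Real.sq_sqrt hq
    have hsum : 1 + q + c < 3 := by
      by_contra hcon
      push Not at hcon
      have h5 : 0 < (c - 1) ^ 2 := by
        have : c - 1 ≠ 0 := sub_ne_zero.2 h1
        positivity
      nlinarith [sq_nonneg (q - 1)]
    set K := max 2.99 (max (a + b + c) (1 + q + c)) with hKdef
    have hK0 : 0 ≤ K := le_trans (by norm_num) (le_max_left _ _)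
    have hK : K < 3 := max_lt (by norm_num) (max_lt habc hsum)
    have hK1 : a + b + c ≤ K := (le_max_left _ _).trans (le_max_right _ _)
    have hK2 : 1 + q + c ≤ K := (le_max_right _ _).trans (le_max_right _ _)
    have hK3 : 2.99 ≤ K := le_max_left _ _
    refine ⟨K, hK0, hK, hK3, hK1, ?_⟩
    have s1 := first_step hK0 hK hc1 hc2 ha hb hb1 hs hK2
    refine s1.trans ?_
    have hcont := pK_cont hK0 hK
    rw [← hq']
    rw [A_comm (A_cont hcont c) 1 q, A_comm hcont 1 c]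
    exact last_step hK0 hK hK3 hq0 hc0 (by rw [hq2]; linarith)

theorem main_3 (a : Fin 3 → ℝ) (ha0 : ∀ i, 0 ≤ a i) (hs : ∑ i, a i ^ 2 = 1) :
    ent a ≤ ent (fun _ : Fin 3 => 1 / Real.sqrt (3 : ℕ)) := by
  by_cases hbig : ∃ i, 1.43 ≤ Real.sqrt (3 : ℕ) * a i
  · exact large_weight (n := 3) (by norm_num) (by norm_num)
      (fun b h1 h2 => by exact_mod_cast S4755.LW_scalar3 b h1 (by exact_mod_cast h2)) hn3_ge a ha0 hs hbig
  push Not at hbig
  have hn0 : (0:ℝ) < (3:ℕ) := by norm_num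
  have hsn : 0 < Real.sqrt (3:ℕ) := Real.sqrt_pos.2 hn0
  set l := (List.ofFn a).map (fun c => Real.sqrt (3:ℕ) * c) with hl'
  have hlen : l.length = 3 := by rw [hl']; simp
  have hmem : ∀ x ∈ l, ∃ i, x = Real.sqrt (3:ℕ) * a i := by
    intro x hx
    rw [hl', List.mem_map] at hx
    obtain ⟨c, hc, rfl⟩ := hx
    rw [List.mem_ofFn] at hc
    obtain ⟨i, rfl⟩ := hc
    exact ⟨i, rfl⟩
  have hl0 : ∀ x ∈ l, 0 ≤ x := by
    intro x hx; obtain ⟨i, rfl⟩ := hmem x hx; exact mul_nonneg hsn.le (ha0 i)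
  have hlM : ∀ x ∈ l, x ≤ 1.43 := by
    intro x hx; obtain ⟨i, rfl⟩ := hmem x hx; exact (hbig i).le
  have hssq : ssq l = (3:ℕ) := by
    rw [hl']; unfold ssq
    rw [List.map_map, List.map_ofFn, List.sum_ofFn]
    simp only [Function.comp, mul_pow, Real.sq_sqrt hn0.le]
    rw [← Finset.mul_sum, hs, mul_one]
  by_cases hne : l = List.replicate l.length 1
  · have : a = fun _ => 1 / Real.sqrt (3:ℕ) := by
      ext i
      have hi : Real.sqrt (3:ℕ) * a i ∈ l := by
        rw [hl', List.mem_map]; exact ⟨a i, by rw [List.mem_ofFn]; exact ⟨i, rfl⟩, rfl⟩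
      rw [hne] at hi
      have := List.eq_of_mem_replicate hi
      field_simp
      linarith
    rw [this]
  obtain ⟨p, q, l', hperm, hp, hq, hq0, hl''⟩ := split_list hl0 (by rw [hssq, hlen]) hne
  have hlen' : l'.length = 1 := by
    have := hperm.length_eq
    simp at this; omega
  obtain ⟨c, rfl⟩ := List.length_eq_one_iff.1 hlen'
  have hc := hl'' c (by simp)
  have hpM : p ≤ 1.43 := hlM p (hperm.mem_iff.2 List.mem_cons_self)
  have hss : p ^ 2 + q ^ 2 + c ^ 2 = 3 := by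
    have := ssq_perm hperm
    rw [hssq, ssq_cons, ssq_cons, ssq_cons] at this
    simp [ssq] at this
    linarith
  have hsumeq : l.sum = p + q + c := by
    rw [hperm.sum_eq]; simp; ring
  obtain ⟨K, hK0, hK3, hK299, hKs, hK⟩ := three hp hpM hq0 hq hc.1 hc.2 hss
  rw [← hsumeq] at hKs
  have hsum2 : l.sum = Real.sqrt (3:ℕ) * ∑ i, |a i| := by
    rw [hl', List.map_ofFn, List.sum_ofFn, Finset.mul_sum]
    apply Finset.sum_congr rfl
    intro i _
    simp only [Function.comp]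
    rw [abs_of_nonneg (ha0 i)]
  have hex : ∃ i, a i ≠ 0 := by
    by_contra h
    push Not at h
    simp [h] at hs
  have hcont := pK_cont hK0 hK3
  have h1 := ent_le a hex hsn (Bd_cont 3 0).measurable (Bd_nonneg 3 (by omega))
    (Bd_integrable 3 (by omega)) (Bd_total 3 (by omega)) hcont (by
      intro x hx
      rw [← hsum2] at hx
      have hxK : |x| ≤ K := hx.trans hKs
      refine ⟨Bd_pos 3 (by omega) x (by push_cast; linarith), ?_⟩
      rw [pK_eq hK0 hK3 x hxK]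
      rfl)
  have h2 : l.foldr A (pK K) 0 ≤ (List.replicate 3 1).foldr A (pK K) 0 := by
    rw [foldr_perm hcont hperm]
    exact hK
  have h3 := foldr_ones_le 3 (by omega) hcont (fun x hx => pK_le hK0 hK3 x (by exact_mod_cast hx))
  rw [ent_const 3 (by omega) (1 / Real.sqrt (3:ℕ)) (by positivity)]
  have h4 : Real.log (1 / Real.sqrt (3:ℕ)) = - Real.log (Real.sqrt (3:ℕ)) := by
    rw [one_div, Real.log_inv]
  rw [h4]
  linarith

/-- the theorem for nonnegative weights -/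
theorem main_nonneg (n : ℕ) (h1 : 1 ≤ n) (a : Fin n → ℝ) (ha0 : ∀ i, 0 ≤ a i)
    (hs : ∑ i, a i ^ 2 = 1) :
    ent a ≤ ent (fun _ : Fin n => 1 / Real.sqrt n) := by
  by_cases h3 : n = 3
  · subst h3; exact main_3 a ha0 hs
  · exact main_ne3 n h1 h3 a ha0 hs

/-- the theorem -/
theorem main_all (n : ℕ) (h1 : 1 ≤ n) (a : Fin n → ℝ) (hs : ∑ i, a i ^ 2 = 1) :
    ent a ≤ ent (fun _ : Fin n => 1 / Real.sqrt n) := by
  rw [← ent_abs a]
  exact main_nonneg n h1 _ (fun i => abs_nonneg _) (by simpa [sq_abs] using hs)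

end US
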