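import Pool.Agent.Helper70.US.F1
set_option autoImplicit false
open MeasureTheory intervalIntegral Set
namespace US

/-- increments of an odd function which is convex on `[0,∞)` -/
theorem odd_convex_incr {u : ℝ → ℝ} (hodd : ∀ x, u (-x) = - u x) (hc : ConvexOn ℝ (Ici 0) u)
    {x y h : ℝ} (hx : 0 ≤ x) (hxy : x ≤ y) (hh : 0 ≤ h) :
    u (x + h) - u (x - h) ≤ u (y + h) - u (y - h) := by
  have h0 : u 0 = 0 := by have := hodd 0; simp at this; linarith
  -- increments: for 0 ≤ p ≤ q, δ ≥ 0 : u (p+δ) - u p ≤ u (q+δ) - u q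
  have incr : ∀ p q δ : ℝ, 0 ≤ p → p ≤ q → 0 ≤ δ → u (p + δ) - u p ≤ u (q + δ) - u q := by
    intro p q δ hp hpq hδ
    rcases eq_or_lt_of_le hδ with rfl | hδ
    · simp
    rcases eq_or_lt_of_le hpq with rfl | hpq
    · exact le_rfl
    -- p < p+δ, q < q+δ
    have hL : 0 < q + δ - p := by linarith
    have e1 : p + δ = (1 - δ / (q + δ - p)) • p + (δ / (q + δ - p)) • (q + δ) := by
      simp only [smul_eq_mul]; field_simp; ring
    have e2 : q = (δ / (q + δ - p)) • p + (1 - δ / (q + δ - p)) • (q + δ) := by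
      simp only [smul_eq_mul]; field_simp; ring
    have hb0 : 0 ≤ δ / (q + δ - p) := by positivity
    have hb1 : 0 ≤ 1 - δ / (q + δ - p) := by
      rw [sub_nonneg, div_le_one hL]; linarith
    have m1 : p ∈ Ici (0:ℝ) := hp
    have m2 : q + δ ∈ Ici (0:ℝ) := by simp only [mem_Ici]; linarith
    have i1 := hc.2 m1 m2 hb1 hb0 (by ring)
    have i2 := hc.2 m1 m2 hb0 hb1 (by ring)
    rw [← e1] at i1
    rw [← e2] at i2
    simp only [smul_eq_mul] at i1 i2
    nlinarith
  rcases le_total h x with h1 | h1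
  · have := incr (x - h) (x + h) (y - x) (by linarith) (by linarith) (by linarith)
    have e1 : x - h + (y - x) = y - h := by ring
    have e2 : x + h + (y - x) = y + h := by ring
    rw [e1, e2] at this
    linarith
  · rcases le_total y h with h2 | h2
    · have := incr (h - y) (x + h) (y - x) (by linarith) (by linarith) (by linarith)
      have e1 : h - y + (y - x) = h - x := by ring
      have e2 : x + h + (y - x) = y + h := by ring
      rw [e1, e2] at this
      have f1 : u (y - h) = - u (h - y) := by rw [← hodd]; congr 1; ring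
      have f2 : u (x - h) = - u (h - x) := by rw [← hodd]; congr 1; ring
      rw [f1, f2]; linarith
    · -- x ≤ h ≤ y
      have f2 : u (x - h) = - u (h - x) := by rw [← hodd]; congr 1; ring
      have s1 := incr 0 (y - h) (h - x) le_rfl (by linarith) (by linarith)
      have s2 := incr 0 (x + h) (y - x) le_rfl (by linarith) (by linarith)
      have e1 : y - h + (h - x) = y - x := by ring
      have e2 : x + h + (y - x) = y + h := by ring
      simp only [zero_add, h0, sub_zero, e1, e2] at s1 s2
      rw [f2]; linarith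

/-- `φ` is even, `C^1`, with derivative convex on `[0,∞)` -/
def Cls (φ : ℝ → ℝ) : Prop :=
  ∃ u : ℝ → ℝ, Continuous u ∧ (∀ x, HasDerivAt φ (u x) x) ∧ (∀ x, u (-x) = - u x) ∧
    ConvexOn ℝ (Ici 0) u

theorem Cls.cont {φ : ℝ → ℝ} (h : Cls φ) : Continuous φ := by
  obtain ⟨u, _, hd, _⟩ := h
  exact continuous_iff_continuousAt.2 fun x => (hd x).continuousAt

theorem A_odd {u : ℝ → ℝ} (hodd : ∀ x, u (-x) = - u x) (c x : ℝ) : A c u (-x) = - A c u x := by
  unfold A
  rw [← mul_neg, ← intervalIntegral.integral_neg]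
  congr 1
  have := intervalIntegral.integral_comp_neg (a := -1) (b := 1) (fun t => u (-x + c * t))
  rw [neg_neg] at this
  rw [← this]
  congr 1
  ext t
  rw [← hodd]; congr 1; ring

theorem Cls.A {φ : ℝ → ℝ} (h : Cls φ) {c : ℝ} (hc : 0 ≤ c) : Cls (A c φ) := by
  obtain ⟨u, hu, hd, hodd, hconv⟩ := h
  rcases eq_or_lt_of_le hc with rfl | hc
  · rw [A_zero]; exact ⟨u, hu, hd, hodd, hconv⟩
  refine ⟨US.A c u, A_cont hu c, fun x => A_deriv hu hd c x, A_odd hodd c, ?_⟩
  obtain ⟨U, hU⟩ := exists_prim hu
  have h1 : US.A c u = fun x => (U (x + c) - U (x - c)) / (2 * c) := by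
    ext x; exact A_eq hu hU hc.ne' x
  have hder : ∀ x, HasDerivAt (US.A c u) ((u (x + c) - u (x - c)) / (2 * c)) x := by
    intro x
    rw [h1]
    have e1 : HasDerivAt (fun x => U (x + c)) (u (x + c)) x := by
      simpa using (hU (x + c)).comp_add_const x c
    have e2 : HasDerivAt (fun x => U (x - c)) (u (x - c)) x := by
      simpa using (hU (x - c)).comp_sub_const x c
    exact (e1.sub e2).div_const _
  apply MonotoneOn.convexOn_of_deriv (convex_Ici 0) (A_cont hu c).continuousOn
  · intro x _; exact (hder x).differentiableAt.differentiableWithinAt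
  · intro x hx y hy hxy
    simp only [interior_Ici, mem_Ioi] at hx hy
    rw [(hder x).deriv, (hder y).deriv]
    apply div_le_div_of_nonneg_right _ (by positivity)
    exact odd_convex_incr hodd hconv hx.le hxy hc.le

theorem Cls.foldr {φ : ℝ → ℝ} (h : Cls φ) (l : List ℝ) (hl : ∀ x ∈ l, 0 ≤ x) :
    Cls (l.foldr US.A φ) := by
  induction l with
  | nil => simpa using h
  | cons a l ih =>
    simp only [List.foldr_cons]
    exact Cls.A (ih fun x hx => hl x (List.mem_cons_of_mem _ hx)) (hl a List.mem_cons_self)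

end US
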