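import Pool.Agent.Helper70.US.F2
set_option autoImplicit false
open MeasureTheory intervalIntegral Set
namespace US

/-- `G ψ v = E ψ(√v X)` (ψ even) -/
noncomputable def G (ψ : ℝ → ℝ) (v : ℝ) : ℝ := ∫ t in (0:ℝ)..1, ψ (Real.sqrt v * t)

theorem G_cont {ψ : ℝ → ℝ} (hψ : Continuous ψ) : Continuous (G ψ) := by
  unfold G
  exact intervalIntegral.continuous_parametric_intervalIntegral_of_continuous'
    (by fun_prop) _ _

theorem even_prim {ψ F : ℝ → ℝ} (hev : ∀ x, ψ (-x) = ψ x) (hF : ∀ x, HasDerivAt F (ψ x) x)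
    (h0 : F 0 = 0) (x : ℝ) : F (-x) = - F x := by
  have h : ∀ x, HasDerivAt (fun x => F (-x) + F x) 0 x := by
    intro x
    have h1 : HasDerivAt (fun x => F (-x)) (-(ψ (-x))) x := by
      have h2 := (hF (-x)).comp x (hasDerivAt_neg x)
      simpa [Function.comp_def] using h2
    have := h1.fun_add (hF x)
    rw [hev] at this
    simpa using this
  have := is_const_of_deriv_eq_zero (fun x => (h x).differentiableAt) (fun x => (h x).deriv) x 0
  simp [h0] at this
  linarith

theorem odd_prim {ψ F : ℝ → ℝ} (hodd : ∀ x, ψ (-x) = - ψ x) (hF : ∀ x, HasDerivAt F (ψ x) x)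
    (x : ℝ) : F (-x) = F x := by
  have h : ∀ x, HasDerivAt (fun x => F (-x) - F x) 0 x := by
    intro x
    have h1 : HasDerivAt (fun x => F (-x)) (-(ψ (-x))) x := by
      have h2 := (hF (-x)).comp x (hasDerivAt_neg x)
      simpa [Function.comp_def] using h2
    have := h1.fun_sub (hF x)
    rw [hodd] at this
    simpa using this
  have := is_const_of_deriv_eq_zero (fun x => (h x).differentiableAt) (fun x => (h x).deriv) x 0
  simp at this
  linarith

theorem G_eq {ψ F : ℝ → ℝ} (hψ : Continuous ψ) (hF : ∀ x, HasDerivAt F (ψ x) x) (h0 : F 0 = 0)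
    {v : ℝ} (hv : 0 < v) : G ψ v = F (Real.sqrt v) / Real.sqrt v := by
  unfold G
  have hs : 0 < Real.sqrt v := Real.sqrt_pos.2 hv
  have h : ∀ t ∈ uIcc (0:ℝ) 1,
      HasDerivAt (fun t => F (Real.sqrt v * t) / Real.sqrt v) (ψ (Real.sqrt v * t)) t := by
    intro t _
    have h1 : HasDerivAt (fun t => Real.sqrt v * t) (Real.sqrt v) t := by
      simpa using (hasDerivAt_id t).const_mul (Real.sqrt v)
    have := ((hF (Real.sqrt v * t)).comp t h1).div_const (Real.sqrt v)
    simpa [mul_div_assoc, div_self hs.ne'] using this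
  rw [intervalIntegral.integral_eq_sub_of_hasDerivAt h
    ((by fun_prop : Continuous fun t => ψ (Real.sqrt v * t)).intervalIntegrable _ _)]
  simp [h0]

theorem pair_formula {ψ : ℝ → ℝ} (hψ : Continuous ψ) (hev : ∀ x, ψ (-x) = ψ x) {a b : ℝ}
    (ha : 0 ≤ a) (hb : 0 ≤ b) :
    A a (A b ψ) 0 = (1 / 2) * ∫ τ in (-1:ℝ)..1, G ψ (a ^ 2 + b ^ 2 + 2 * (a * b) * τ) := by
  have key0 : ∀ a : ℝ, 0 ≤ a → A a ψ 0 = G ψ (a ^ 2) := by
    intro a ha
    unfold A G
    rw [Real.sqrt_sq ha]
    simp only [zero_add]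
    have h1 : ∫ t in (-1:ℝ)..1, ψ (a * t) = (∫ t in (-1:ℝ)..0, ψ (a * t)) + ∫ t in (0:ℝ)..1, ψ (a * t) := by
      rw [intervalIntegral.integral_add_adjacent_intervals] <;>
        exact (by fun_prop : Continuous fun t => ψ (a * t)).intervalIntegrable _ _
    have h2 : ∫ t in (-1:ℝ)..0, ψ (a * t) = ∫ t in (0:ℝ)..1, ψ (a * t) := by
      have := intervalIntegral.integral_comp_neg (a := 0) (b := 1) (fun t => ψ (a * t))
      simp only [neg_zero] at this
      rw [← this]
      congr 1; ext t; rw [← hev]; congr 1; ring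
    rw [h1, h2]; ring
  rcases eq_or_lt_of_le hb with rfl | hb
  · rw [A_zero, key0 a ha]; simp; ring
  rcases eq_or_lt_of_le ha with rfl | ha
  · rw [A_zero, key0 b hb.le]; simp; ring
  obtain ⟨F0, hF0⟩ := exists_prim hψ
  -- normalise so that F 0 = 0
  obtain ⟨F, hF, hFz⟩ : ∃ F : ℝ → ℝ, (∀ x, HasDerivAt F (ψ x) x) ∧ F 0 = 0 :=
    ⟨fun x => F0 x - F0 0, fun x => by simpa using (hF0 x).sub_const (F0 0), by simp⟩
  have hFc : Continuous F := continuous_iff_continuousAt.2 fun x => (hF x).continuousAt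
  have hFodd := even_prim hev hF hFz
  obtain ⟨P, hP⟩ := exists_prim hFc
  have hPc : Continuous P := continuous_iff_continuousAt.2 fun x => (hP x).continuousAt
  have hPev := odd_prim hFodd hP
  have hAb : A b ψ = fun x => (F (x + b) - F (x - b)) / (2 * b) := by
    ext x; exact A_eq hψ hF hb.ne' x
  have hprim : ∀ x, HasDerivAt (fun x => (P (x + b) - P (x - b)) / (2 * b)) (A b ψ x) x := by
    intro x
    rw [hAb]
    have e1 : HasDerivAt (fun x => P (x + b)) (F (x + b)) x := by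
      simpa using (hP (x + b)).comp_add_const x b
    have e2 : HasDerivAt (fun x => P (x - b)) (F (x - b)) x := by
      simpa using (hP (x - b)).comp_sub_const x b
    exact (e1.sub e2).div_const _
  have hL : A a (A b ψ) 0 = (P (a + b) - P (a - b)) / (2 * a * b) := by
    rw [A_eq (A_cont hψ b) hprim ha.ne']
    have e1 : P (0 - a + b) = P (a - b) := by rw [← hPev]; congr 1; ring
    have e2 : P (0 - a - b) = P (a + b) := by rw [← hPev]; congr 1; ring
    rw [e1, e2, zero_add]
    field_simp; ring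
  -- right side
  set r2 := a ^ 2 + b ^ 2 with hr2
  have hab : 0 < a * b := mul_pos ha hb
  have hsub : ∫ τ in (-1:ℝ)..1, G ψ (r2 + 2 * (a * b) * τ) =
      (1 / (2 * (a * b))) * ∫ v in (r2 - 2 * (a * b))..(r2 + 2 * (a * b)), G ψ v := by
    have := intervalIntegral.integral_comp_add_mul (a := -1) (b := 1) (G ψ)
      (c := 2 * (a * b)) (by positivity) r2
    rw [this]
    simp only [smul_eq_mul, one_div]
    congr 2
    · ring
    · ring
  have hlo : (a - b) ^ 2 = r2 - 2 * (a * b) := by rw [hr2]; ring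
  have hhi : (a + b) ^ 2 = r2 + 2 * (a * b) := by rw [hr2]; ring
  have hftc : ∫ v in (r2 - 2 * (a * b))..(r2 + 2 * (a * b)), G ψ v =
      2 * P (Real.sqrt (r2 + 2 * (a * b))) - 2 * P (Real.sqrt (r2 - 2 * (a * b))) := by
    apply intervalIntegral.integral_eq_sub_of_hasDerivAt_of_le (by linarith)
      (f := fun v => 2 * P (Real.sqrt v))
    · exact (continuous_const.mul (hPc.comp Real.continuous_sqrt)).continuousOn
    · intro v hv
      have hv0 : 0 < v := lt_of_le_of_lt (by rw [← hlo]; positivity) hv.1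
      have hs : 0 < Real.sqrt v := Real.sqrt_pos.2 hv0
      rw [G_eq hψ hF hFz hv0]
      have h1 := ((hP (Real.sqrt v)).comp v (Real.hasDerivAt_sqrt hv0.ne')).const_mul 2
      have e : 2 * (F (Real.sqrt v) * (1 / (2 * Real.sqrt v))) = F (Real.sqrt v) / Real.sqrt v := by
        field_simp
      rw [e] at h1
      exact h1
    · exact (G_cont hψ).intervalIntegrable _ _
  rw [hL, hsub, hftc, ← hlo, ← hhi, Real.sqrt_sq (by positivity), Real.sqrt_sq_eq_abs]
  have habs : P |a - b| = P (a - b) := by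
    rcases abs_choice (a - b) with h | h
    · rw [h]
    · rw [h, hPev]
  rw [habs]
  field_simp

/-- pair step from the symmetric monotonicity of `G` -/
theorem pair_step_of_sym {ψ : ℝ → ℝ} (hψ : Continuous ψ) (hev : ∀ x, ψ (-x) = ψ x)
    {a b a' b' : ℝ} (ha : 0 ≤ a) (hb : 0 ≤ b) (ha' : 0 ≤ a') (hb' : 0 ≤ b')
    (hr : a ^ 2 + b ^ 2 = a' ^ 2 + b' ^ 2) (hab : a * b ≤ a' * b')
    (hsym : ∀ s s' : ℝ, 0 ≤ s → s ≤ s' → s' ≤ 2 * (a' * b') →
      G ψ (a ^ 2 + b ^ 2 + s) + G ψ (a ^ 2 + b ^ 2 - s) ≤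
      G ψ (a ^ 2 + b ^ 2 + s') + G ψ (a ^ 2 + b ^ 2 - s')) :
    A a (A b ψ) 0 ≤ A a' (A b' ψ) 0 := by
  rw [pair_formula hψ hev ha hb, pair_formula hψ hev ha' hb', ← hr]
  set r2 := a ^ 2 + b ^ 2
  have hab0 : 0 ≤ a * b := mul_nonneg ha hb
  have hG := G_cont hψ
  have key : ∀ q : ℝ, ∫ τ in (-1:ℝ)..1, G ψ (r2 + 2 * q * τ) =
      ∫ τ in (0:ℝ)..1, (G ψ (r2 + 2 * q * τ) + G ψ (r2 - 2 * q * τ)) := by
    intro q
    have hc1 : Continuous fun τ => G ψ (r2 + 2 * q * τ) := by fun_prop
    have hc2 : Continuous fun τ => G ψ (r2 - 2 * q * τ) := by fun_prop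
    have h1 : ∫ τ in (-1:ℝ)..1, G ψ (r2 + 2 * q * τ) =
        (∫ τ in (-1:ℝ)..0, G ψ (r2 + 2 * q * τ)) + ∫ τ in (0:ℝ)..1, G ψ (r2 + 2 * q * τ) := by
      rw [intervalIntegral.integral_add_adjacent_intervals] <;> exact hc1.intervalIntegrable _ _
    have h2 : ∫ τ in (-1:ℝ)..0, G ψ (r2 + 2 * q * τ) = ∫ τ in (0:ℝ)..1, G ψ (r2 - 2 * q * τ) := by
      have := intervalIntegral.integral_comp_neg (a := 0) (b := 1) (fun τ => G ψ (r2 + 2 * q * τ))
      simp only [neg_zero] at this
      rw [← this]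
      congr 1; ext t; congr 1; ring
    rw [h1, h2, intervalIntegral.integral_add (hc1.intervalIntegrable _ _) (hc2.intervalIntegrable _ _)]
    ring
  rw [key, key]
  apply mul_le_mul_of_nonneg_left _ (by norm_num)
  apply intervalIntegral.integral_mono_on (by norm_num)
  · exact (by fun_prop : Continuous fun τ => G ψ (r2 + 2 * (a * b) * τ) + G ψ (r2 - 2 * (a * b) * τ)).intervalIntegrable _ _
  · exact (by fun_prop : Continuous fun τ => G ψ (r2 + 2 * (a' * b') * τ) + G ψ (r2 - 2 * (a' * b') * τ)).intervalIntegrable _ _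
  · intro τ hτ
    apply hsym
    · exact mul_nonneg (by positivity) hτ.1
    · exact mul_le_mul_of_nonneg_right (by linarith) hτ.1
    · have : 2 * (a' * b') * τ ≤ 2 * (a' * b') * 1 :=
        mul_le_mul_of_nonneg_left hτ.2 (by positivity)
      linarith

theorem Cls.even {φ : ℝ → ℝ} (h : Cls φ) (x : ℝ) : φ (-x) = φ x := by
  obtain ⟨u, _, hd, hodd, _⟩ := h
  exact odd_prim hodd hd x

theorem Cls.G_convex {ψ : ℝ → ℝ} (h : Cls ψ) : ConvexOn ℝ (Ici 0) (G ψ) := by
  have hψ := h.cont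
  obtain ⟨u, hu, hd, hodd, hconv⟩ := h
  have h0 : u 0 = 0 := by have := hodd 0; simp at this; linarith
  -- u x / x is monotone
  have hmono : ∀ x y : ℝ, 0 < x → x ≤ y → u x / x ≤ u y / y := by
    intro x y hx hxy
    have hy : 0 < y := lt_of_lt_of_le hx hxy
    have hr0 : 0 ≤ x / y := by positivity
    have hr1 : 0 ≤ 1 - x / y := by rw [sub_nonneg, div_le_one hy]; exact hxy
    have := hconv.2 (x := 0) (by simp) (y := y) (by simp [hy.le]) hr1 hr0 (by ring)
    simp only [smul_eq_mul, mul_zero, zero_add, h0] at this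
    rw [div_mul_cancel₀ x hy.ne'] at this
    rw [div_le_div_iff₀ hx hy]
    have h2 : x / y * u y * y = x * u y := by field_simp
    nlinarith [mul_le_mul_of_nonneg_right this hy.le]
  have hg : ConvexOn ℝ (Ici 0) (fun v => ψ (Real.sqrt v)) := by
    apply MonotoneOn.convexOn_of_deriv (convex_Ici 0)
    · exact (hψ.comp Real.continuous_sqrt).continuousOn
    · intro v hv
      simp only [interior_Ici, mem_Ioi] at hv
      exact ((hd _).comp v (Real.hasDerivAt_sqrt hv.ne')).differentiableAt.differentiableWithinAt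
    · intro v hv w hw hvw
      simp only [interior_Ici, mem_Ioi] at hv hw
      have e1 : deriv (fun v => ψ (Real.sqrt v)) v = u (Real.sqrt v) * (1 / (2 * Real.sqrt v)) :=
        ((hd _).comp v (Real.hasDerivAt_sqrt hv.ne')).deriv
      have e2 : deriv (fun v => ψ (Real.sqrt v)) w = u (Real.sqrt w) * (1 / (2 * Real.sqrt w)) :=
        ((hd _).comp w (Real.hasDerivAt_sqrt hw.ne')).deriv
      rw [e1, e2]
      have := hmono _ _ (Real.sqrt_pos.2 hv) (Real.sqrt_le_sqrt hvw)
      have hsv : 0 < Real.sqrt v := Real.sqrt_pos.2 hv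
      have hsw : 0 < Real.sqrt w := Real.sqrt_pos.2 hw
      have f1 : u (Real.sqrt v) * (1 / (2 * Real.sqrt v)) = (u (Real.sqrt v) / Real.sqrt v) / 2 := by
        field_simp
      have f2 : u (Real.sqrt w) * (1 / (2 * Real.sqrt w)) = (u (Real.sqrt w) / Real.sqrt w) / 2 := by
        field_simp
      rw [f1, f2]; linarith
  refine ⟨convex_Ici 0, ?_⟩
  intro v hv w hw α β hα hβ hαβ
  simp only [smul_eq_mul, mem_Ici] at *
  unfold G
  rw [← intervalIntegral.integral_const_mul, ← intervalIntegral.integral_const_mul,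
    ← intervalIntegral.integral_add]
  · apply intervalIntegral.integral_mono_on (by norm_num)
    · exact (by fun_prop : Continuous fun t => ψ (Real.sqrt (α * v + β * w) * t)).intervalIntegrable _ _
    · exact (by fun_prop : Continuous fun t => α * ψ (Real.sqrt v * t) + β * ψ (Real.sqrt w * t)).intervalIntegrable _ _
    · intro t ht
      have e : ∀ v : ℝ, Real.sqrt v * t = Real.sqrt (t ^ 2 * v) := by
        intro v
        rw [Real.sqrt_mul (by positivity), Real.sqrt_sq ht.1, mul_comm]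
      rw [e, e, e]
      have hv' : t ^ 2 * v ∈ Ici (0:ℝ) := by simp only [mem_Ici]; positivity
      have hw' : t ^ 2 * w ∈ Ici (0:ℝ) := by simp only [mem_Ici]; positivity
      have := hg.2 hv' hw' hα hβ hαβ
      simp only [smul_eq_mul] at this
      have e3 : t ^ 2 * (α * v + β * w) = α * (t ^ 2 * v) + β * (t ^ 2 * w) := by ring
      rw [e3]
      exact this
  · exact (by fun_prop : Continuous fun t => α * ψ (Real.sqrt v * t)).intervalIntegrable _ _
  · exact (by fun_prop : Continuous fun t => β * ψ (Real.sqrt w * t)).intervalIntegrable _ _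

theorem Cls.pair_step {ψ : ℝ → ℝ} (h : Cls ψ)
    {a b a' b' : ℝ} (ha : 0 ≤ a) (hb : 0 ≤ b) (ha' : 0 ≤ a') (hb' : 0 ≤ b')
    (hr : a ^ 2 + b ^ 2 = a' ^ 2 + b' ^ 2) (hab : a * b ≤ a' * b') :
    US.A a (US.A b ψ) 0 ≤ US.A a' (US.A b' ψ) 0 := by
  apply pair_step_of_sym h.cont h.even ha hb ha' hb' hr hab
  intro s s' hs hss hs'
  have hG := h.G_convex
  set r2 := a ^ 2 + b ^ 2
  have hr2 : 2 * (a' * b') ≤ r2 := by rw [hr]; nlinarith [sq_nonneg (a' - b')]
  rcases eq_or_lt_of_le (hs.trans hss) with h0 | h0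
  · have : s = 0 := by linarith
    subst this
    rw [← h0]
  -- r2 ± s are convex combinations of r2 ± s'
  have m1 : r2 + s' ∈ Ici (0:ℝ) := by simp only [mem_Ici]; linarith
  have m2 : r2 - s' ∈ Ici (0:ℝ) := by simp only [mem_Ici]; linarith
  have hα : 0 ≤ (s' + s) / (2 * s') := by positivity
  have hβ : 0 ≤ (s' - s) / (2 * s') := div_nonneg (by linarith) (by linarith)
  have hsum : (s' + s) / (2 * s') + (s' - s) / (2 * s') = 1 := by field_simp; ring
  have i1 := hG.2 m1 m2 hα hβ hsum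
  have i2 := hG.2 m1 m2 hβ hα (by rw [add_comm]; exact hsum)
  have e1 : ((s' + s) / (2 * s')) • (r2 + s') + ((s' - s) / (2 * s')) • (r2 - s') = r2 + s := by
    simp only [smul_eq_mul]; field_simp; ring
  have e2 : ((s' - s) / (2 * s')) • (r2 + s') + ((s' + s) / (2 * s')) • (r2 - s') = r2 - s := by
    simp only [smul_eq_mul]; field_simp; ring
  rw [e1] at i1
  rw [e2] at i2
  simp only [smul_eq_mul] at i1 i2
  have e3 : (s' + s) / (2 * s') = 1 - (s' - s) / (2 * s') := by linarith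
  rw [e3] at i1 i2
  nlinarith

end US
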