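import Pool.Agent.Helper70.US.F3
set_option autoImplicit false
open MeasureTheory intervalIntegral Set
namespace US

/-- sum of squares of a list -/
noncomputable def ssq (l : List ℝ) : ℝ := (l.map (fun c => c ^ 2)).sum

theorem ssq_cons (a : ℝ) (l : List ℝ) : ssq (a :: l) = a ^ 2 + ssq l := by simp [ssq]

theorem ssq_perm {l l' : List ℝ} (h : l.Perm l') : ssq l = ssq l' := by
  unfold ssq; exact (h.map _).sum_eq

theorem ssq_nonneg (l : List ℝ) : 0 ≤ ssq l := by
  unfold ssq
  apply List.sum_nonneg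
  intro x hx
  simp only [List.mem_map] at hx
  obtain ⟨c, _, rfl⟩ := hx
  positivity

/-- if all entries are ≤ 1 (≥ 0) and the sum of the squares is the length, all are 1 -/
theorem all_one_of_le {l : List ℝ} (h0 : ∀ x ∈ l, 0 ≤ x) (h1 : ∀ x ∈ l, x ≤ 1)
    (hs : ssq l = l.length) : l = List.replicate l.length 1 := by
  induction l with
  | nil => simp
  | cons a l ih =>
    have hle : ∀ l : List ℝ, (∀ x ∈ l, 0 ≤ x) → (∀ x ∈ l, x ≤ 1) → ssq l ≤ l.length := by
      intro l
      induction l with
      | nil => intro _ _; simp [ssq]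
      | cons b l ih =>
        intro h0 h1
        rw [ssq_cons]
        have := ih (fun x hx => h0 x (List.mem_cons_of_mem _ hx)) (fun x hx => h1 x (List.mem_cons_of_mem _ hx))
        have hb0 := h0 b List.mem_cons_self
        have hb1 := h1 b List.mem_cons_self
        simp only [List.length_cons, Nat.cast_add, Nat.cast_one]
        nlinarith
    have h2 := hle l (fun x hx => h0 x (List.mem_cons_of_mem _ hx)) (fun x hx => h1 x (List.mem_cons_of_mem _ hx))
    have ha0 := h0 a List.mem_cons_self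
    have ha1 := h1 a List.mem_cons_self
    rw [ssq_cons] at hs
    simp only [List.length_cons, Nat.cast_add, Nat.cast_one] at hs
    have ha : a = 1 := by nlinarith
    subst ha
    have h3 : ssq l = l.length := by linarith
    have := ih (fun x hx => h0 x (List.mem_cons_of_mem _ hx)) (fun x hx => h1 x (List.mem_cons_of_mem _ hx)) h3
    rw [List.length_cons, List.replicate_succ, ← this]

theorem ssq_lt_of_ge {l : List ℝ} (h1 : ∀ x ∈ l, 1 ≤ x) : (l.length : ℝ) ≤ ssq l := by
  induction l with
  | nil => simp [ssq]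
  | cons b l ih =>
    rw [ssq_cons]
    have := ih (fun x hx => h1 x (List.mem_cons_of_mem _ hx))
    have hb1 := h1 b List.mem_cons_self
    simp only [List.length_cons, Nat.cast_add, Nat.cast_one]
    nlinarith

/-- number of entries different from 1 -/
noncomputable def nne (l : List ℝ) : ℕ := l.countP (fun x => decide (x ≠ 1))

theorem nne_perm {l l' : List ℝ} (h : l.Perm l') : nne l = nne l' := by
  unfold nne; exact h.countP_eq _

theorem exists_max (l : List ℝ) (hl : l ≠ []) : ∃ m ∈ l, ∀ x ∈ l, x ≤ m := by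
  induction l with
  | nil => exact absurd rfl hl
  | cons a l ih =>
    rcases eq_or_ne l [] with rfl | h
    · exact ⟨a, by simp, by simp⟩
    · obtain ⟨m, hm, hmx⟩ := ih h
      rcases le_total a m with h1 | h1
      · exact ⟨m, List.mem_cons_of_mem _ hm, by
          intro x hx; rcases List.mem_cons.1 hx with rfl | hx
          · exact h1
          · exact hmx x hx⟩
      · exact ⟨a, List.mem_cons_self, by
          intro x hx; rcases List.mem_cons.1 hx with rfl | hx
          · exact le_rfl
          · exact (hmx x hx).trans h1⟩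

theorem exists_min (l : List ℝ) (hl : l ≠ []) : ∃ m ∈ l, ∀ x ∈ l, m ≤ x := by
  induction l with
  | nil => exact absurd rfl hl
  | cons a l ih =>
    rcases eq_or_ne l [] with rfl | h
    · exact ⟨a, by simp, by simp⟩
    · obtain ⟨m, hm, hmx⟩ := ih h
      rcases le_total m a with h1 | h1
      · exact ⟨m, List.mem_cons_of_mem _ hm, by
          intro x hx; rcases List.mem_cons.1 hx with rfl | hx
          · exact h1
          · exact hmx x hx⟩
      · exact ⟨a, List.mem_cons_self, by
          intro x hx; rcases List.mem_cons.1 hx with rfl | hx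
          · exact le_rfl
          · exact h1.trans (hmx x hx)⟩

/-- a list with mean square 1 which is not constant can be rearranged with a maximal entry > 1
first and a minimal entry < 1 second -/
theorem split_list {l : List ℝ} (h0 : ∀ x ∈ l, 0 ≤ x) (hs : ssq l = l.length)
    (hne : l ≠ List.replicate l.length 1) :
    ∃ a b l', l.Perm (a :: b :: l') ∧ 1 < a ∧ b < 1 ∧ 0 ≤ b ∧ ∀ x ∈ l', b ≤ x ∧ x ≤ a := by
  have hl : l ≠ [] := by rintro rfl; simp at hne
  obtain ⟨a, ha, hmax⟩ := exists_max l hl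
  have ha1 : 1 < a := by
    by_contra h
    push Not at h
    exact hne (all_one_of_le h0 (fun x hx => (hmax x hx).trans h) hs)
  have hp1 : l.Perm (a :: l.erase a) := List.perm_cons_erase ha
  have hl1 : l.erase a ≠ [] := by
    intro h
    rw [h] at hp1
    have e1 := ssq_perm hp1
    have e2 := hp1.length_eq
    rw [e1, e2] at hs
    simp [ssq] at hs
    rcases hs with h | h <;> linarith
  obtain ⟨b, hb, hmin⟩ := exists_min (l.erase a) hl1
  have hbl : b ∈ l := hp1.mem_iff.2 (List.mem_cons_of_mem _ hb)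
  have hb1 : b < 1 := by
    by_contra h
    push Not at h
    have h2 := ssq_lt_of_ge (l := l.erase a) (fun x hx => h.trans (hmin x hx))
    have e1 := ssq_perm hp1
    have e2 := hp1.length_eq
    rw [e1, ssq_cons, e2] at hs
    simp only [List.length_cons, Nat.cast_add, Nat.cast_one] at hs
    nlinarith
  have hp2 : (l.erase a).Perm (b :: (l.erase a).erase b) := List.perm_cons_erase hb
  refine ⟨a, b, (l.erase a).erase b, hp1.trans (hp2.cons a), ha1, hb1, h0 b hbl, ?_⟩
  intro x hx
  have hx1 : x ∈ l.erase a := List.mem_of_mem_erase hx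
  exact ⟨hmin x hx1, hmax x (hp1.mem_iff.2 (List.mem_cons_of_mem _ hx1))⟩

/-- the chain of pair steps -/
theorem chain {φ : ℝ → ℝ} (hφ : Continuous φ) (n : ℕ) (M : ℝ) (hM : 1 ≤ M)
    (hstep : ∀ (a b : ℝ) (l' : List ℝ), 0 ≤ b → b < 1 → 1 < a → a ≤ M → l'.length + 2 = n →
      (∀ x ∈ l', b ≤ x ∧ x ≤ a) → a ^ 2 + b ^ 2 + ssq l' = n →
      A a (A b (l'.foldr A φ)) 0 ≤ A 1 (A (Real.sqrt (a ^ 2 + b ^ 2 - 1)) (l'.foldr A φ)) 0) :
    ∀ l : List ℝ, l.length = n → (∀ x ∈ l, 0 ≤ x) → (∀ x ∈ l, x ≤ M) → ssq l = n →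
      l.foldr A φ 0 ≤ (List.replicate n 1).foldr A φ 0 := by
  intro l
  induction' hk : nne l using Nat.strong_induction_on with k ih generalizing l
  intro hlen h0 hle hs
  by_cases hne : l = List.replicate l.length 1
  · rw [hlen] at hne; rw [← hne]
  obtain ⟨a, b, l', hperm, ha, hb, hb0, hl'⟩ := split_list h0 (by rw [hs, hlen]) hne
  have hlen' : l'.length + 2 = n := by
    rw [← hlen, hperm.length_eq]; simp
  have hs' : a ^ 2 + b ^ 2 + ssq l' = n := by
    rw [← hs, ssq_perm hperm, ssq_cons, ssq_cons]; ring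
  have haM : a ≤ M := hle a (hperm.mem_iff.2 List.mem_cons_self)
  have step := hstep a b l' hb0 hb ha haM hlen' hl' hs'
  rw [foldr_perm hφ hperm]
  simp only [List.foldr_cons]
  refine step.trans ?_
  have hq : 0 ≤ a ^ 2 + b ^ 2 - 1 := by nlinarith
  have hba : Real.sqrt (a ^ 2 + b ^ 2 - 1) ≤ a := by
    rw [Real.sqrt_le_left (by linarith)]; nlinarith
  have := ih (nne (1 :: Real.sqrt (a ^ 2 + b ^ 2 - 1) :: l')) ?_
    (1 :: Real.sqrt (a ^ 2 + b ^ 2 - 1) :: l') rfl ?_ ?_ ?_ ?_
  · simpa only [List.foldr_cons] using this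
  · rw [← hk, nne_perm hperm]
    unfold nne
    simp only [List.countP_cons]
    have e1 : (decide (a ≠ 1)) = true := by simp; linarith
    have e2 : (decide (b ≠ 1)) = true := by simp; linarith
    simp only [e1, e2, ne_eq, not_true_eq_false, decide_false]
    split_ifs <;> simp_all <;> omega
  · simp; omega
  · intro x hx
    simp only [List.mem_cons] at hx
    rcases hx with rfl | rfl | hx
    · norm_num
    · exact Real.sqrt_nonneg _
    · exact hb0.trans (hl' x hx).1
  · intro x hx
    simp only [List.mem_cons] at hx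
    rcases hx with rfl | rfl | hx
    · exact hM
    · exact hba.trans haM
    · exact (hl' x hx).2.trans haM
  · rw [ssq_cons, ssq_cons, Real.sq_sqrt hq]; linarith

/-- product comparison used in every step -/
theorem step_prod {a b : ℝ} (ha : 1 < a) (hb0 : 0 ≤ b) (hb : b < 1) :
    a * b ≤ 1 * Real.sqrt (a ^ 2 + b ^ 2 - 1) := by
  rw [one_mul]
  apply Real.le_sqrt_of_sq_le
  have h1 : 0 < a ^ 2 - 1 := by nlinarith
  have h2 : 0 < 1 - b ^ 2 := by nlinarith
  nlinarith [mul_pos h1 h2]

/-- chain when the rest function is in the class -/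
theorem chain_cls {φ : ℝ → ℝ} (hφ : Continuous φ) (n : ℕ) (M : ℝ) (hM : 1 ≤ M)
    (hgood : ∀ (a b : ℝ) (l' : List ℝ), 0 ≤ b → b < 1 → 1 < a → a ≤ M → l'.length + 2 = n →
      (∀ x ∈ l', b ≤ x ∧ x ≤ a) → a ^ 2 + b ^ 2 + ssq l' = n → Cls (l'.foldr A φ)) :
    ∀ l : List ℝ, l.length = n → (∀ x ∈ l, 0 ≤ x) → (∀ x ∈ l, x ≤ M) → ssq l = n →
      l.foldr A φ 0 ≤ (List.replicate n 1).foldr A φ 0 := by
  apply chain hφ n M hM
  intro a b l' hb0 hb ha haM hlen hl' hs
  have hq : 0 ≤ a ^ 2 + b ^ 2 - 1 := by nlinarith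
  apply (hgood a b l' hb0 hb ha haM hlen hl' hs).pair_step (by linarith) hb0 (by norm_num)
    (Real.sqrt_nonneg _)
  · rw [Real.sq_sqrt hq]; ring
  · exact step_prod ha hb0 hb

end US
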