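import Pool.Agent.Helper70.US.Defs
set_option autoImplicit false
namespace US.S4691




/-- weighted alternating sum -/
noncomputable def DD (m : ℕ) (g : ℝ → ℝ) (x : ℝ) : ℝ :=
  ∑ j ∈ Finset.range (m + 1), (-1 : ℝ) ^ j * (m.choose j) * g (x + m - 2 * j)

theorem T_eq (m p : ℕ) : T m p = DD m (fun y => (max 0 y) ^ p) := rfl

theorem alt_h1 (m : ℕ) (g : ℕ → ℝ) :
    ∑ j ∈ Finset.range (m + 1), (-1 : ℝ) ^ j * (m.choose j) * g j =
      ∑ j ∈ Finset.range (m + 1), (-1 : ℝ) ^ (j + 1) * (m.choose (j + 1)) * g (j + 1) + g 0 := by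
  have h : ∑ j ∈ Finset.range (m + 1), (-1 : ℝ) ^ j * (m.choose j) * g j =
      ∑ j ∈ Finset.range (m + 2), (-1 : ℝ) ^ j * (m.choose j) * g j := by
    rw [Finset.sum_range_succ _ (m + 1), Nat.choose_succ_self]
    simp
  rw [h, Finset.sum_range_succ']
  simp

theorem alt_sum (m : ℕ) (g : ℕ → ℝ) :
    ∑ j ∈ Finset.range (m + 1 + 1), (-1 : ℝ) ^ j * ((m + 1).choose j) * g j =
      ∑ j ∈ Finset.range (m + 1), (-1 : ℝ) ^ j * (m.choose j) * g j -
      ∑ j ∈ Finset.range (m + 1), (-1 : ℝ) ^ j * (m.choose j) * g (j + 1) := by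
  rw [Finset.sum_range_succ' _ (m + 1), alt_h1 m g]
  have h : ∀ j ∈ Finset.range (m + 1), (-1 : ℝ) ^ (j + 1) * ((m + 1).choose (j + 1)) * g (j + 1) =
      (-1 : ℝ) ^ (j + 1) * (m.choose (j + 1)) * g (j + 1) -
        (-1 : ℝ) ^ j * (m.choose j) * g (j + 1) := by
    intro j _
    rw [Nat.choose_succ_succ]
    push_cast
    ring
  rw [Finset.sum_congr rfl h, Finset.sum_sub_distrib]
  simp
  ring

theorem alt_sum2 (m : ℕ) (g : ℕ → ℝ) :
    ∑ j ∈ Finset.range (m + 1 + 1), (-1 : ℝ) ^ j * ((m + 1).choose j) *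
        (((m : ℝ) + 1 - 2 * j) * g j) =
      (m + 1) * (∑ j ∈ Finset.range (m + 1), (-1 : ℝ) ^ j * (m.choose j) * g j +
      ∑ j ∈ Finset.range (m + 1), (-1 : ℝ) ^ j * (m.choose j) * g (j + 1)) := by
  rw [Finset.sum_range_succ' _ (m + 1), alt_h1 m g]
  have h : ∀ j ∈ Finset.range (m + 1), (-1 : ℝ) ^ (j + 1) * ((m + 1).choose (j + 1)) *
      (((m : ℝ) + 1 - 2 * ((j + 1 : ℕ) : ℝ)) * g (j + 1)) =
      (m + 1) * ((-1 : ℝ) ^ (j + 1) * (m.choose (j + 1)) * g (j + 1)) +
        (m + 1) * ((-1 : ℝ) ^ j * (m.choose j) * g (j + 1)) := by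
    intro j _
    have h1 : ((m : ℝ) + 1) * (m.choose j) = ((m + 1).choose (j + 1)) * ((j : ℝ) + 1) := by
      exact_mod_cast Nat.add_one_mul_choose_eq m j
    have h2 : (((m + 1).choose (j + 1) : ℕ) : ℝ) = m.choose j + m.choose (j + 1) := by
      rw [Nat.choose_succ_succ]; push_cast; ring
    push_cast
    have e1 : (-1 : ℝ) ^ (j + 1) * ((m + 1).choose (j + 1)) *
        (((m : ℝ) + 1 - 2 * ((j : ℝ) + 1)) * g (j + 1)) =
        (-1 : ℝ) ^ (j + 1) * (((m : ℝ) + 1) * ((m + 1).choose (j + 1)) -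
          2 * (((m + 1).choose (j + 1)) * ((j : ℝ) + 1))) * g (j + 1) := by ring
    rw [e1, ← h1, h2]
    ring
  rw [Finset.sum_congr rfl h, Finset.sum_add_distrib, ← Finset.mul_sum, ← Finset.mul_sum]
  simp
  ring

theorem DD_succ (m : ℕ) (g : ℝ → ℝ) (x : ℝ) :
    DD (m + 1) g x = DD m g (x + 1) - DD m g (x - 1) := by
  unfold DD
  have h := alt_sum m (fun j => g (x + ((m + 1 : ℕ) : ℝ) - 2 * j))
  rw [h]
  congr 1
  · refine Finset.sum_congr rfl fun j _ => ?_
    congr 2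
    push_cast
    ring
  · refine Finset.sum_congr rfl fun j _ => ?_
    congr 2
    push_cast
    ring

theorem DD_mul (m : ℕ) (g : ℝ → ℝ) (x : ℝ) :
    DD (m + 1) (fun y => y * g y) x =
      x * DD (m + 1) g x + (m + 1) * (DD m g (x + 1) + DD m g (x - 1)) := by
  have h := alt_sum2 m (fun j => g (x + ((m + 1 : ℕ) : ℝ) - 2 * j))
  have e1 : DD (m + 1) (fun y => y * g y) x = x * DD (m + 1) g x +
      ∑ j ∈ Finset.range (m + 1 + 1), (-1 : ℝ) ^ j * ((m + 1).choose j) *
        (((m : ℝ) + 1 - 2 * j) * g (x + ((m + 1 : ℕ) : ℝ) - 2 * j)) := by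
    unfold DD
    rw [Finset.mul_sum, ← Finset.sum_add_distrib]
    refine Finset.sum_congr rfl fun j _ => ?_
    push_cast
    ring
  rw [e1, h]
  unfold DD
  congr 3
  · refine Finset.sum_congr rfl fun j _ => ?_
    congr 2
    push_cast
    ring
  · refine Finset.sum_congr rfl fun j _ => ?_
    congr 2
    push_cast
    ring

theorem DD_zero (m : ℕ) : ∀ p, p < m → ∀ x, DD m (fun y => y ^ p) x = 0 := by
  induction m with
  | zero =>
    intro p hp
    omega
  | succ m ih =>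
    intro p
    induction p with
    | zero =>
      intro _ x
      rw [DD_succ]
      unfold DD
      simp
    | succ p ihp =>
      intro hp x
      have e : (fun y : ℝ => y ^ (p + 1)) = fun y => y * y ^ p := by
        funext y
        rw [pow_succ']
      rw [e, DD_mul, ihp (by omega), ih p (by omega), ih p (by omega)]
      ring

theorem DD_top (m : ℕ) : ∀ x, DD m (fun y => y ^ m) x = 2 ^ m * m.factorial := by
  induction m with
  | zero =>
    intro x
    unfold DD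
    simp
  | succ m ih =>
    intro x
    have e : (fun y : ℝ => y ^ (m + 1)) = fun y => y * y ^ m := by
      funext y
      rw [pow_succ']
    rw [e, DD_mul, DD_zero (m + 1) m (by omega), ih, ih, Nat.factorial_succ]
    push_cast
    ring

theorem mx_step {p : ℕ} (hp : 1 ≤ p) (y : ℝ) : (max 0 y) ^ (p + 1) = y * (max 0 y) ^ p := by
  rcases le_total y 0 with h | h
  · rw [max_eq_left h, zero_pow (by omega), zero_pow (by omega), mul_zero]
  · rw [max_eq_right h, pow_succ']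

theorem mx_deriv {p : ℕ} (hp : 1 ≤ p) (y : ℝ) :
    HasDerivAt (fun y : ℝ => (max 0 y) ^ (p + 1)) ((p + 1) * (max 0 y) ^ p) y := by
  have hc : ∀ q : ℕ, Continuous fun y : ℝ => (max 0 y) ^ q := by
    intro q; fun_prop
  refine hasDerivAt_of_hasDerivAt_of_ne' (x := 0) (g := fun y : ℝ => (p + 1) * (max 0 y) ^ p)
    ?_ (hc _).continuousAt ((continuous_const.mul (hc p)).continuousAt) y
  intro z hz
  rcases lt_or_gt_of_ne hz with h | h
  · have e : (fun y : ℝ => (max 0 y) ^ (p + 1)) =ᶠ[nhds z] fun _ => 0 := by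
      filter_upwards [Iio_mem_nhds h] with w hw
      rw [max_eq_left (le_of_lt hw), zero_pow (by omega)]
    have h1 := (hasDerivAt_const z (0 : ℝ)).congr_of_eventuallyEq e
    refine h1.congr_deriv ?_
    rw [max_eq_left h.le, zero_pow (by omega), mul_zero]
  · have e : (fun y : ℝ => (max 0 y) ^ (p + 1)) =ᶠ[nhds z] fun y => y ^ (p + 1) := by
      filter_upwards [Ioi_mem_nhds h] with w hw
      rw [max_eq_right (le_of_lt hw)]
    have h1 := (hasDerivAt_pow (p + 1) z).congr_of_eventuallyEq e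
    refine h1.congr_deriv ?_
    rw [max_eq_right h.le]
    push_cast
    simp

theorem T_deriv (m p : ℕ) (hp : 1 ≤ p) (x : ℝ) :
    HasDerivAt (T m (p + 1)) ((p + 1) * T m p x) x := by
  unfold T
  rw [Finset.mul_sum]
  refine HasDerivAt.fun_sum fun j _ => ?_
  have h1 : HasDerivAt (fun y : ℝ => y + (m : ℝ) - 2 * j) 1 x :=
    ((hasDerivAt_id x).add_const (m : ℝ)).sub_const (2 * (j : ℝ))
  have h2 := (mx_deriv hp (x + m - 2 * j)).comp x h1
  have h3 := h2.const_mul ((-1 : ℝ) ^ j * (m.choose j))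
  refine h3.congr_deriv ?_
  ring

/-- normalised truncated power sum -/
noncomputable def Kf (m p : ℕ) (x : ℝ) : ℝ := T m p x / (2 ^ m * p.factorial)

theorem Bd_eq (m k : ℕ) : Bd m k = Kf m (m - 1 - k) := rfl

theorem Kf_deriv (m p : ℕ) (hp : 1 ≤ p) (x : ℝ) : HasDerivAt (Kf m (p + 1)) (Kf m p x) x := by
  have h1 := (T_deriv m p hp x).div_const (2 ^ m * ((p + 1).factorial : ℝ))
  refine h1.congr_deriv ?_
  unfold Kf
  have h2 : ((p.factorial : ℕ) : ℝ) ≠ 0 := by exact_mod_cast p.factorial_ne_zero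
  have h3 : ((p : ℝ) + 1) ≠ 0 := by positivity
  rw [Nat.factorial_succ]
  push_cast
  field_simp

theorem Kf_cont (m p : ℕ) : Continuous (Kf m p) := by
  unfold Kf T
  fun_prop

theorem T_succ (m p : ℕ) (x : ℝ) : T (m + 1) p x = T m p (x + 1) - T m p (x - 1) :=
  DD_succ m (fun y => (max 0 y) ^ p) x

theorem Kf_succ (m p : ℕ) (x : ℝ) : Kf (m + 1) p x = (Kf m p (x + 1) - Kf m p (x - 1)) / 2 := by
  unfold Kf
  rw [T_succ, pow_succ]
  have h2 : ((p.factorial : ℕ) : ℝ) ≠ 0 := by exact_mod_cast p.factorial_ne_zero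
  field_simp

theorem Kf_left (m p : ℕ) (hp : 1 ≤ p) (x : ℝ) (hx : x ≤ -m) : Kf m p x = 0 := by
  unfold Kf T
  rw [Finset.sum_eq_zero, zero_div]
  intro j _
  have h : x + m - 2 * (j : ℝ) ≤ 0 := by
    have : (0 : ℝ) ≤ j := Nat.cast_nonneg j
    linarith
  rw [max_eq_left h, zero_pow (by omega), mul_zero]

theorem T_right (m p : ℕ) (x : ℝ) (hx : (m : ℝ) ≤ x) : T m p x = DD m (fun y => y ^ p) x := by
  unfold T DD
  refine Finset.sum_congr rfl fun j hj => ?_
  have h : 0 ≤ x + m - 2 * (j : ℝ) := by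
    have h1 : j ≤ m := by
      have := Finset.mem_range.1 hj
      omega
    have : (j : ℝ) ≤ m := by exact_mod_cast h1
    linarith
  rw [max_eq_right h]

theorem Kf_right (m p : ℕ) (hp : p < m) (x : ℝ) (hx : (m : ℝ) ≤ x) : Kf m p x = 0 := by
  unfold Kf
  rw [T_right m p x hx, DD_zero m p hp, zero_div]

theorem Kf_top (m : ℕ) (x : ℝ) (hx : (m : ℝ) ≤ x) : Kf m m x = 1 := by
  unfold Kf
  rw [T_right m m x hx, DD_top]
  have h2 : ((m.factorial : ℕ) : ℝ) ≠ 0 := by exact_mod_cast m.factorial_ne_zero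
  exact div_self (by positivity)

theorem T_MI (m p : ℕ) (hp : 1 ≤ p) (x : ℝ) : T (m + 1) (p + 1) x =
    x * T (m + 1) p x + (m + 1) * (T m p (x + 1) + T m p (x - 1)) := by
  have e : T (m + 1) (p + 1) = DD (m + 1) (fun y => y * (max 0 y) ^ p) := by
    rw [T_eq]
    congr 1
    funext y
    exact mx_step hp y
  rw [e, DD_mul]
  rfl

theorem Kf_MI (m p : ℕ) (hp : 1 ≤ p) (x : ℝ) : 2 * (p + 1) * Kf (m + 1) (p + 1) x =
    2 * x * Kf (m + 1) p x + (m + 1) * (Kf m p (x + 1) + Kf m p (x - 1)) := by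
  unfold Kf
  have h2 : ((p.factorial : ℕ) : ℝ) ≠ 0 := by exact_mod_cast p.factorial_ne_zero
  have h3 : ((p : ℝ) + 1) ≠ 0 := by positivity
  rw [T_MI m p hp x, Nat.factorial_succ, pow_succ]
  push_cast
  field_simp

theorem Bd_deriv (m k : ℕ) (h : k + 3 ≤ m) (x : ℝ) : HasDerivAt (Bd m k) (Bd m (k + 1) x) x := by
  obtain ⟨r, rfl⟩ := Nat.exists_eq_add_of_le h
  have e1 : k + 3 + r - 1 - k = r + 1 + 1 := by omega
  have e2 : k + 3 + r - 1 - (k + 1) = r + 1 := by omega
  rw [Bd_eq, Bd_eq, e1, e2]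
  exact Kf_deriv _ _ (by omega) x

theorem Bd_cont (m k : ℕ) : Continuous (Bd m k) := by
  rw [Bd_eq]
  exact Kf_cont _ _

theorem Bd_succ (m k : ℕ) (h : k + 1 ≤ m) (x : ℝ) :
    Bd (m + 1) (k + 1) x = (Bd m k (x + 1) - Bd m k (x - 1)) / 2 := by
  have e1 : m + 1 - 1 - (k + 1) = m - 1 - k := by omega
  rw [Bd_eq, Bd_eq, e1]
  exact Kf_succ _ _ x

theorem Bd_left (m k : ℕ) (h : k + 2 ≤ m) (x : ℝ) (hx : x ≤ -m) : Bd m k x = 0 := by
  rw [Bd_eq]
  exact Kf_left _ _ (by omega) x hx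

theorem Bd_right (m k : ℕ) (h : k + 2 ≤ m) (x : ℝ) (hx : (m : ℝ) ≤ x) : Bd m k x = 0 := by
  rw [Bd_eq]
  exact Kf_right _ _ (by omega) x hx

theorem mx_neg {p : ℕ} (hp : 1 ≤ p) (y : ℝ) :
    (max 0 (-y)) ^ p = (-1) ^ p * (y ^ p - (max 0 y) ^ p) := by
  have h1 : ((-1 : ℝ) ^ p) * (-1) ^ p = 1 := by
    rw [← mul_pow]; norm_num
  rcases le_total y 0 with h | h
  · rw [max_eq_right (by linarith), max_eq_left h, zero_pow (by omega), sub_zero, ← mul_pow]
    congr 1
    ring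
  · rw [max_eq_left (by linarith), max_eq_right h, sub_self, mul_zero, zero_pow (by omega)]

theorem T_neg (m p : ℕ) (hp : 1 ≤ p) (hpm : p < m) (x : ℝ) :
    T m p (-x) = - ((-1) ^ (m + p) * T m p x) := by
  have h1 : T m p (-x) = ∑ j ∈ Finset.range (m + 1), (-1 : ℝ) ^ (m + p) *
      ((-1 : ℝ) ^ j * (m.choose j) * (x + m - 2 * j) ^ p -
        (-1 : ℝ) ^ j * (m.choose j) * (max 0 (x + m - 2 * j)) ^ p) := by
    unfold T
    rw [← Finset.sum_range_reflect]
    refine Finset.sum_congr rfl fun j hj => ?_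
    have hj' : j ≤ m := by
      have := Finset.mem_range.1 hj
      omega
    have e1 : m + 1 - 1 - j = m - j := by omega
    rw [e1, Nat.choose_symm hj', Nat.cast_sub hj']
    have e2 : -x + (m : ℝ) - 2 * ((m : ℝ) - j) = -(x + m - 2 * j) := by ring
    rw [e2, mx_neg hp]
    have e3 : (-1 : ℝ) ^ (m - j) = (-1) ^ m * (-1) ^ j := by
      have h2 : (-1 : ℝ) ^ (m - j) * (-1) ^ j = (-1) ^ m := by
        rw [← pow_add]; congr 1; omega
      have h3 : ((-1 : ℝ) ^ j) * (-1) ^ j = 1 := by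
        rw [← mul_pow]; norm_num
      rw [← h2, mul_assoc, h3, mul_one]
    rw [e3, pow_add]
    ring
  rw [h1, ← Finset.mul_sum, Finset.sum_sub_distrib]
  have h2 : ∑ j ∈ Finset.range (m + 1), (-1 : ℝ) ^ j * (m.choose j) * (x + m - 2 * j) ^ p = 0 :=
    DD_zero m p hpm x
  rw [h2]
  unfold T
  ring

theorem Bd_neg (m k : ℕ) (h : k + 2 ≤ m) (x : ℝ) : Bd m k (-x) = (-1) ^ k * Bd m k x := by
  obtain ⟨r, rfl⟩ := Nat.exists_eq_add_of_le h
  have e1 : k + 2 + r - 1 - k = r + 1 := by omega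
  rw [Bd_eq, e1]
  unfold Kf
  rw [T_neg _ _ (by omega) (by omega)]
  have e2 : (-1 : ℝ) ^ (k + 2 + r + (r + 1)) = - (-1) ^ k := by
    have : k + 2 + r + (r + 1) = k + 1 + 2 * (r + 1) := by ring
    rw [this, pow_add, pow_mul]
    norm_num
    ring
  rw [e2]
  ring

theorem Kf_int (m : ℕ) (h : 2 ≤ m) (u v : ℝ) :
    ∫ t in u..v, Kf m (m - 1) t = Kf m m v - Kf m m u := by
  obtain ⟨r, rfl⟩ := Nat.exists_eq_add_of_le h
  have e1 : 2 + r - 1 = r + 1 := by omega
  have e2 : Kf (2 + r) (2 + r) = Kf (2 + r) (r + 1 + 1) := by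
    have : 2 + r = r + 1 + 1 := by omega
    rw [← this]
  rw [e1, e2]
  refine intervalIntegral.integral_eq_sub_of_hasDerivAt (fun t _ => Kf_deriv _ _ (by omega) t) ?_
  exact (Kf_cont _ _).intervalIntegrable _ _

theorem Bd_int (m : ℕ) (h : 2 ≤ m) (x : ℝ) :
    (1 / 2) * ∫ t in (x - 1)..(x + 1), Bd m 0 t = Bd (m + 1) 0 x := by
  have e1 : m + 1 - 1 - 0 = m := by omega
  have e2 : m - 1 - 0 = m - 1 := by omega
  rw [Bd_eq, Bd_eq, e1, e2, Kf_int m h, Kf_succ]
  ring

theorem Kf21 (z : ℝ) : Kf 2 1 z = (max 0 (z + 2) - 2 * max 0 z + max 0 (z - 2)) / 4 := by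
  unfold Kf T
  simp [Finset.sum_range_succ]
  norm_num
  have e1 : z + 2 - 4 = z - 2 := by ring
  rw [e1]
  ring

theorem Kf21_pos {z : ℝ} (h0 : 0 ≤ z) (h : z ≤ 2) : Kf 2 1 z = (2 - z) / 4 := by
  rw [Kf21, max_eq_right (by linarith), max_eq_right h0, max_eq_left (by linarith)]
  ring

theorem Kf21_neg {z : ℝ} (h0 : z ≤ 0) (h : -2 ≤ z) : Kf 2 1 z = (2 + z) / 4 := by
  rw [Kf21, max_eq_right (by linarith), max_eq_left h0, max_eq_left (by linarith)]
  ring

theorem Bd_pos (m : ℕ) (h : 2 ≤ m) (x : ℝ) (hx : |x| < m) : 0 < Bd m 0 x := by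
  induction m, h using Nat.le_induction generalizing x with
  | base =>
    have e1 : 2 - 1 - 0 = 1 := by norm_num
    rw [Bd_eq, e1]
    rw [abs_lt] at hx
    push_cast at hx
    rcases le_total x 0 with h0 | h0
    · rw [Kf21_neg h0 hx.1.le]
      have := hx.1
      linarith
    · rw [Kf21_pos h0 hx.2.le]
      have := hx.2
      linarith
  | succ m hm ih =>
    rw [← Bd_int m hm x]
    have hnn : ∀ t, 0 ≤ Bd m 0 t := by
      intro t
      by_cases ht : |t| < m
      · exact (ih t ht).le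
      · push Not at ht
        rcases le_abs.1 ht with h1 | h1
        · rw [Bd_right m 0 (by omega) t h1]
        · rw [Bd_left m 0 (by omega) t (by linarith)]
    have hm0 : (0 : ℝ) < m := by
      have : 0 < m := by omega
      exact_mod_cast this
    have hpos : 0 < ∫ t in (x - 1)..(x + 1), Bd m 0 t := by
      refine intervalIntegral.integral_pos (by linarith) (Bd_cont m 0).continuousOn
        (fun t _ => hnn t) ⟨x * (m / (m + 1)), ?_, ?_⟩
      · push_cast at hx
        have e1 : x * ((m : ℝ) / (m + 1)) = x - x / (m + 1) := by field_simp; ring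
        have e2 : |x / ((m : ℝ) + 1)| ≤ 1 := by
          rw [abs_div, abs_of_pos (by positivity : (0 : ℝ) < m + 1), div_le_one (by positivity)]
          exact hx.le
        rw [abs_le] at e2
        rw [e1]
        exact ⟨by linarith [e2.2], by linarith [e2.1]⟩
      · apply ih
        push_cast at hx
        rw [abs_mul, abs_of_pos (by positivity : (0 : ℝ) < (m : ℝ) / (m + 1))]
        calc |x| * ((m : ℝ) / (m + 1)) < (m + 1) * ((m : ℝ) / (m + 1)) :=
              mul_lt_mul_of_pos_right hx (by positivity)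
          _ = m := by field_simp
    linarith

/-- B-spline recursion -/
theorem Bd_rec (m : ℕ) (h : 2 ≤ m) (x : ℝ) :
    2 * m * Bd (m + 1) 0 x = (m + 1 + x) * Bd m 0 (x + 1) + (m + 1 - x) * Bd m 0 (x - 1) := by
  obtain ⟨r, rfl⟩ := Nat.exists_eq_add_of_le h
  have e1 : 2 + r + 1 - 1 - 0 = r + 1 + 1 := by omega
  have e2 : 2 + r - 1 - 0 = r + 1 := by omega
  rw [Bd_eq, Bd_eq, e1, e2]
  have h1 := Kf_MI (2 + r) (r + 1) (by omega) x
  have h2 := Kf_succ (2 + r) (r + 1) x
  rw [h2] at h1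
  push_cast at h1 ⊢
  linear_combination h1

theorem Bd_mean (m : ℕ) (h : 2 ≤ m) (x : ℝ) :
    x * Bd (m + 1) 0 x = ((m + 1) / 2) * ∫ z in (-1:ℝ)..1, z * Bd m 0 (x - z) := by
  obtain ⟨r, rfl⟩ := Nat.exists_eq_add_of_le h
  have e1 : 2 + r + 1 - 1 - 0 = r + 1 + 1 := by omega
  have e2 : 2 + r - 1 - 0 = r + 1 := by omega
  rw [Bd_eq, Bd_eq, e1, e2]
  have hd : ∀ z ∈ Set.uIcc (-1 : ℝ) 1, HasDerivAt
      (fun z => -(z * Kf (2 + r) (r + 1 + 1) (x - z)) - Kf (2 + r) (r + 1 + 1 + 1) (x - z))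
      (z * Kf (2 + r) (r + 1) (x - z)) z := by
    intro z _
    have hz : HasDerivAt (fun z : ℝ => x - z) (-1) z := (hasDerivAt_id z).const_sub x
    have h1 := (Kf_deriv (2 + r) (r + 1) (by omega) (x - z)).comp z hz
    have h2 := (Kf_deriv (2 + r) (r + 1 + 1) (by omega) (x - z)).comp z hz
    have h3 := (((hasDerivAt_id z).mul h1).neg).sub h2
    refine h3.congr_deriv ?_
    simp only [Function.comp, id]
    ring
  have hcont : Continuous fun z => z * Kf (2 + r) (r + 1) (x - z) :=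
    continuous_id.mul ((Kf_cont _ _).comp (continuous_const.sub continuous_id))
  rw [intervalIntegral.integral_eq_sub_of_hasDerivAt hd (hcont.intervalIntegrable _ _)]
  have h1 := Kf_MI (2 + r) (r + 1 + 1) (by omega) x
  have h2 := Kf_succ (2 + r) (r + 1 + 1 + 1) x
  rw [h2] at h1
  have e3 : x - -1 = x + 1 := by ring
  rw [e3]
  push_cast at h1 ⊢
  linear_combination (-1 / 2) * h1

theorem Kf_supp {a : ℕ} (ha : 2 ≤ a) (x z : ℝ) (g : ℝ → ℝ)
    (hz : z ∈ Function.support (fun z => Kf a (a - 1) (x - z) * g z)) :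
    z ∈ Set.Ioc (x - a) (x + a) := by
  by_contra hcon
  apply hz
  have : Kf a (a - 1) (x - z) = 0 := by
    rw [Set.mem_Ioc, not_and_or] at hcon
    rcases hcon with h | h
    · push Not at h
      exact Kf_right _ _ (by omega) _ (by linarith)
    · push Not at h
      exact Kf_left _ _ (by omega) _ (by linarith)
  show Kf a (a - 1) (x - z) * g z = 0
  rw [this, zero_mul]

theorem Kf_conv2 (a : ℕ) (ha : 2 ≤ a) (x : ℝ) :
    ∫ z, Kf a (a - 1) (x - z) * Kf 2 1 z = Kf (a + 2) (a + 1) x := by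
  have hsupp : Function.support (fun z => Kf a (a - 1) (x - z) * Kf 2 1 z) ⊆
      Set.Ioc (-2 : ℝ) 2 := by
    intro z hz
    by_contra hcon
    apply hz
    have : Kf 2 1 z = 0 := by
      rw [Set.mem_Ioc, not_and_or] at hcon
      rcases hcon with h | h
      · push Not at h
        exact Kf_left _ _ (by omega) _ (by push_cast; linarith)
      · push Not at h
        exact Kf_right _ _ (by omega) _ (by push_cast; linarith)
    show Kf a (a - 1) (x - z) * Kf 2 1 z = 0
    rw [this, mul_zero]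
  rw [← intervalIntegral.integral_eq_integral_of_support_subset hsupp]
  have hcont : Continuous fun z => Kf a (a - 1) (x - z) * Kf 2 1 z :=
    ((Kf_cont _ _).comp (continuous_const.sub continuous_id)).mul (Kf_cont _ _)
  rw [← intervalIntegral.integral_add_adjacent_intervals (b := 0)
    (hcont.intervalIntegrable _ _) (hcont.intervalIntegrable _ _)]
  obtain ⟨r, rfl⟩ := Nat.exists_eq_add_of_le ha
  have e0 : 2 + r - 1 = r + 1 := by omega
  rw [e0]
  have hz : ∀ z : ℝ, HasDerivAt (fun z : ℝ => x - z) (-1) z :=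
    fun z => (hasDerivAt_id z).const_sub x
  have hF : ∀ z : ℝ, HasDerivAt (fun z => Kf (2 + r) (r + 1 + 1) (x - z))
      (-Kf (2 + r) (r + 1) (x - z)) z := by
    intro z
    have h1 := (Kf_deriv (2 + r) (r + 1) (by omega) (x - z)).comp z (hz z)
    refine h1.congr_deriv ?_
    ring
  have hG : ∀ z : ℝ, HasDerivAt (fun z => Kf (2 + r) (r + 1 + 1 + 1) (x - z))
      (-Kf (2 + r) (r + 1 + 1) (x - z)) z := by
    intro z
    have h1 := (Kf_deriv (2 + r) (r + 1 + 1) (by omega) (x - z)).comp z (hz z)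
    refine h1.congr_deriv ?_
    ring
  have hcf : Continuous fun z => Kf (2 + r) (r + 1) (x - z) :=
    (Kf_cont _ _).comp (continuous_const.sub continuous_id)
  have hA : ∫ z in (-2 : ℝ)..0, Kf (2 + r) (r + 1) (x - z) * Kf 2 1 z =
      (-2 * Kf (2 + r) (r + 1 + 1) x - Kf (2 + r) (r + 1 + 1 + 1) x +
        Kf (2 + r) (r + 1 + 1 + 1) (x + 2)) / 4 := by
    have e1 : ∫ z in (-2 : ℝ)..0, Kf (2 + r) (r + 1) (x - z) * Kf 2 1 z =
        ∫ z in (-2 : ℝ)..0, Kf (2 + r) (r + 1) (x - z) * ((2 + z) / 4) := by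
      refine intervalIntegral.integral_congr fun z hz => ?_
      rw [Set.uIcc_of_le (by norm_num)] at hz
      show Kf (2 + r) (r + 1) (x - z) * Kf 2 1 z = _
      rw [Kf21_neg hz.2 hz.1]
    rw [e1]
    have hd : ∀ z ∈ Set.uIcc (-2 : ℝ) 0, HasDerivAt
        (fun z => (-((2 + z) * Kf (2 + r) (r + 1 + 1) (x - z)) -
          Kf (2 + r) (r + 1 + 1 + 1) (x - z)) / 4)
        (Kf (2 + r) (r + 1) (x - z) * ((2 + z) / 4)) z := by
      intro z _
      have h3 := (((((hasDerivAt_id z).const_add 2).mul (hF z)).neg).sub (hG z)).div_const 4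
      refine h3.congr_deriv ?_
      simp only [id]
      ring
    rw [intervalIntegral.integral_eq_sub_of_hasDerivAt hd
      ((hcf.mul (by fun_prop)).intervalIntegrable _ _)]
    have e3 : x - -2 = x + 2 := by ring
    rw [e3, sub_zero]
    ring
  have hB : ∫ z in (0 : ℝ)..2, Kf (2 + r) (r + 1) (x - z) * Kf 2 1 z =
      (Kf (2 + r) (r + 1 + 1 + 1) (x - 2) + 2 * Kf (2 + r) (r + 1 + 1) x -
        Kf (2 + r) (r + 1 + 1 + 1) x) / 4 := by
    have e1 : ∫ z in (0 : ℝ)..2, Kf (2 + r) (r + 1) (x - z) * Kf 2 1 z =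
        ∫ z in (0 : ℝ)..2, Kf (2 + r) (r + 1) (x - z) * ((2 - z) / 4) := by
      refine intervalIntegral.integral_congr fun z hz => ?_
      rw [Set.uIcc_of_le (by norm_num)] at hz
      show Kf (2 + r) (r + 1) (x - z) * Kf 2 1 z = _
      rw [Kf21_pos hz.1 hz.2]
    rw [e1]
    have hd : ∀ z ∈ Set.uIcc (0 : ℝ) 2, HasDerivAt
        (fun z => (-((2 - z) * Kf (2 + r) (r + 1 + 1) (x - z)) +
          Kf (2 + r) (r + 1 + 1 + 1) (x - z)) / 4)
        (Kf (2 + r) (r + 1) (x - z) * ((2 - z) / 4)) z := by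
      intro z _
      have h3 := (((((hasDerivAt_id z).const_sub 2).mul (hF z)).neg).add (hG z)).div_const 4
      refine h3.congr_deriv ?_
      simp only [id]
      ring
    rw [intervalIntegral.integral_eq_sub_of_hasDerivAt hd
      ((hcf.mul (by fun_prop)).intervalIntegrable _ _)]
    rw [sub_zero]
    ring
  rw [hA, hB]
  have e5 : 2 + r + 1 = r + 1 + 1 + 1 := by omega
  have e4 : Kf (2 + r + 2) (2 + r + 1) x = (Kf (2 + r) (r + 1 + 1 + 1) (x + 2) -
      2 * Kf (2 + r) (r + 1 + 1 + 1) x + Kf (2 + r) (r + 1 + 1 + 1) (x - 2)) / 4 := by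
    have h1 : Kf (2 + r + 2) (2 + r + 1) x = Kf (2 + r + 1 + 1) (r + 1 + 1 + 1) x :=
      congrArg (fun q => Kf (2 + r + 1 + 1) q x) e5
    rw [h1, Kf_succ, Kf_succ, Kf_succ]
    have a1 : x + 1 + 1 = x + 2 := by ring
    have a2 : x + 1 - 1 = x := by ring
    have a3 : x - 1 + 1 = x := by ring
    have a4 : x - 1 - 1 = x - 2 := by ring
    rw [a1, a2, a3, a4]
    ring
  rw [e4]
  ring

theorem Bd_conv (a b : ℕ) (ha : 2 ≤ a) (hb : 2 ≤ b) (x : ℝ) :
    ∫ z, Bd a 0 (x - z) * Bd b 0 z = Bd (a + b) 0 x := by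
  induction b, hb using Nat.le_induction generalizing x with
  | base =>
    have e1 : a - 1 - 0 = a - 1 := by omega
    have e2 : 2 - 1 - 0 = 1 := by norm_num
    have e3 : a + 2 - 1 - 0 = a + 1 := by omega
    rw [Bd_eq, Bd_eq, Bd_eq, e1, e2, e3]
    exact Kf_conv2 a ha x
  | succ b hb ih =>
    have hfa : ∀ (g : ℝ → ℝ) (x : ℝ), ∫ z, Bd a 0 (x - z) * g z =
        ∫ z in (x - a)..(x + a), Bd a 0 (x - z) * g z := by
      intro g x
      symm
      refine intervalIntegral.integral_eq_integral_of_support_subset ?_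
      intro z hz
      have e1 : a - 1 - 0 = a - 1 := by omega
      rw [Bd_eq, e1] at hz
      exact Kf_supp ha x z g hz
    have hca : Continuous (Bd a 0) := Bd_cont a 0
    have hcb : Continuous (Bd b 0) := Bd_cont b 0
    have h1 : ∀ z, Bd (b + 1) 0 z = (1 / 2) * ∫ s in (-1 : ℝ)..1, Bd b 0 (z + s) := by
      intro z
      rw [← Bd_int b hb z, intervalIntegral.integral_comp_add_left (fun t => Bd b 0 t) z]
      rfl
    rw [hfa]
    have h2 : ∫ z in (x - a)..(x + a), Bd a 0 (x - z) * Bd (b + 1) 0 z =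
        (1 / 2) * ∫ z in (x - a)..(x + a), ∫ s in (-1 : ℝ)..1,
          Bd a 0 (x - z) * Bd b 0 (z + s) := by
      rw [← intervalIntegral.integral_const_mul]
      refine intervalIntegral.integral_congr fun z _ => ?_
      show Bd a 0 (x - z) * Bd (b + 1) 0 z = _
      rw [h1, intervalIntegral.integral_const_mul]
      ring
    have h3 : ∫ z in (x - a)..(x + a), ∫ s in (-1 : ℝ)..1, Bd a 0 (x - z) * Bd b 0 (z + s) =
        ∫ s in (-1 : ℝ)..1, ∫ z in (x - a)..(x + a), Bd a 0 (x - z) * Bd b 0 (z + s) := by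
      apply MeasureTheory.intervalIntegral_intervalIntegral_swap
      have hc : Continuous (Function.uncurry fun z s : ℝ => Bd a 0 (x - z) * Bd b 0 (z + s)) := by
        unfold Function.uncurry
        exact (hca.comp (continuous_const.sub continuous_fst)).mul
          (hcb.comp (continuous_fst.add continuous_snd))
      refine (hc.continuousOn.integrableOn_compact
        ((isCompact_uIcc (a := x - a) (b := x + a)).prod
          (isCompact_uIcc (a := (-1 : ℝ)) (b := 1)))).mono_set ?_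
      exact Set.prod_mono Set.uIoc_subset_uIcc Set.uIoc_subset_uIcc
    have h4 : ∀ s : ℝ, ∫ z in (x - a)..(x + a), Bd a 0 (x - z) * Bd b 0 (z + s) =
        Bd (a + b) 0 (x + s) := by
      intro s
      rw [← hfa (fun z => Bd b 0 (z + s)) x, ← ih (x + s)]
      rw [← MeasureTheory.integral_add_right_eq_self
        (fun z => Bd a 0 (x + s - z) * Bd b 0 z) s]
      congr 1
      funext z
      have : x + s - (z + s) = x - z := by ring
      rw [this]
    rw [h2, h3]
    simp only [h4]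
    have h5 := Bd_int (a + b) (by omega) x
    rw [← add_assoc, ← h5, intervalIntegral.integral_comp_add_left (fun t => Bd (a + b) 0 t) x]
    rfl

theorem Bd_total (m : ℕ) (h : 2 ≤ m) : ∫ x, Bd m 0 x = 1 := by
  have hs : Function.support (Bd m 0) ⊆ Set.Ioc (-(m : ℝ)) m := by
    intro z hz
    by_contra hcon
    apply hz
    rw [Set.mem_Ioc, not_and_or] at hcon
    rcases hcon with h1 | h1
    · push Not at h1
      exact Bd_left m 0 (by omega) z h1
    · push Not at h1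
      exact Bd_right m 0 (by omega) z h1.le
  rw [← intervalIntegral.integral_eq_integral_of_support_subset hs]
  have e1 : m - 1 - 0 = m - 1 := by omega
  rw [Bd_eq, e1, Kf_int m h, Kf_top m m le_rfl, Kf_left m m (by omega) _ le_rfl, sub_zero]

end US.S4691
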