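import Pool.Agent.Helper70.US.F4
import Pool.Agent.Helper70.US.S4691
set_option autoImplicit false
open MeasureTheory intervalIntegral Set
namespace US
open S4691

/-- `φ_n = -log f_n` -/
noncomputable def ph (n : ℕ) (x : ℝ) : ℝ := - Real.log (Bd n 0 x)

theorem ph_neg (n : ℕ) (hn : 2 ≤ n) (x : ℝ) : ph n (-x) = ph n x := by
  unfold ph; rw [Bd_neg n 0 (by omega) x]; simp

theorem u_neg (n : ℕ) (hn : 3 ≤ n) (x : ℝ) : u n (-x) = - u n x := by
  unfold u
  rw [Bd_neg n 0 (by omega) x, Bd_neg n 1 (by omega) x]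
  simp [neg_div]

theorem H_neg (n : ℕ) (hn : 4 ≤ n) (x : ℝ) : H n (-x) = H n x := by
  unfold H
  rw [Bd_neg n 0 (by omega) x, Bd_neg n 1 (by omega) x, Bd_neg n 2 (by omega) x]
  simp

theorem H_abs (n : ℕ) (hn : 4 ≤ n) (x : ℝ) : H n |x| = H n x := by
  rcases abs_choice x with h | h <;> rw [h]
  exact H_neg n hn x

theorem ph_deriv (n : ℕ) (hn : 3 ≤ n) (x : ℝ) (hx : |x| < n) : HasDerivAt (ph n) (u n x) x := by
  have h0 := Bd_pos n (by omega) x hx
  have h1 := (Bd_deriv n 0 (by omega) x).log h0.ne'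
  have := h1.neg
  unfold u ph
  rw [neg_div]
  exact this

theorem u_deriv (n : ℕ) (hn : 4 ≤ n) (x : ℝ) (hx : |x| < n) : HasDerivAt (u n) (H n x) x := by
  have h0 := Bd_pos n (by omega) x hx
  have h1 := ((Bd_deriv n 1 (by omega) x).neg).div (Bd_deriv n 0 (by omega) x) h0.ne'
  have e : H n x = ((-Bd n (1 + 1) x) * Bd n 0 x - (-Bd n 1 x) * Bd n (0 + 1) x) / (Bd n 0 x) ^ 2 := by
    unfold H; ring
  rw [e]
  exact h1

theorem H_contOn (n : ℕ) (hn : 2 ≤ n) : ContinuousOn (H n) (Ioo (-(n:ℝ)) n) := by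
  unfold H
  apply ContinuousOn.div
  · exact (((Bd_cont n 1).pow 2).sub ((Bd_cont n 0).mul (Bd_cont n 2))).continuousOn
  · exact ((Bd_cont n 0).pow 2).continuousOn
  · intro x hx
    have := Bd_pos n hn x (abs_lt.2 hx)
    positivity

theorem u_zero (n : ℕ) (hn : 3 ≤ n) : u n 0 = 0 := by
  have := u_neg n hn 0; simp at this; linarith

/-- values near the right end -/
theorem Bd_end (n k : ℕ) (h : k + 2 ≤ n) (x : ℝ) (h1 : (n:ℝ) - 2 ≤ x) (h2 : x ≤ n) :
    Bd n k x = (-1) ^ k * ((n - x) ^ (n - 1 - k) / (2 ^ n * (n - 1 - k).factorial)) := by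
  have e : x = -(-x) := by ring
  rw [e, Bd_neg n k h (-x)]
  congr 1
  unfold Bd T
  rw [Finset.sum_range_succ']
  have hz : ∑ j ∈ Finset.range n, (-1 : ℝ) ^ (j + 1) * (n.choose (j + 1)) *
      (max 0 (-x + n - 2 * ((j + 1 : ℕ) : ℝ))) ^ (n - 1 - k) = 0 := by
    apply Finset.sum_eq_zero
    intro j _
    have : max 0 (-x + n - 2 * ((j + 1 : ℕ) : ℝ)) = 0 := by
      apply max_eq_left
      push_cast
      have : (0:ℝ) ≤ j := by positivity
      linarith
    rw [this, zero_pow (by omega), mul_zero]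
  rw [hz]
  have hm : max 0 (-x + (n:ℝ) - 2 * ((0:ℕ):ℝ)) = n - x := by
    rw [max_eq_right (by push_cast; linarith)]
    push_cast; ring
  rw [hm]
  simp

theorem u_end (n : ℕ) (hn : 3 ≤ n) (x : ℝ) (h1 : (n:ℝ) - 2 ≤ x) (h2 : x < n) :
    u n x = (n - 1) / (n - x) := by
  unfold u
  rw [Bd_end n 0 (by omega) x h1 h2.le, Bd_end n 1 (by omega) x h1 h2.le]
  have hp : (0:ℝ) < n - x := by linarith
  obtain ⟨m, rfl⟩ : ∃ m, n = m + 2 := ⟨n - 2, by omega⟩
  have e1 : m + 2 - 1 - 0 = m + 1 := by omega
  have e2 : m + 2 - 1 - 1 = m := by omega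
  rw [e1, e2, Nat.factorial_succ, pow_succ]
  have hf : (m.factorial : ℝ) ≠ 0 := by positivity
  have hpm := (pow_pos hp m).ne'
  have hp' := hp.ne'
  push_cast at *
  field_simp
  ring

theorem H_end (n : ℕ) (hn : 4 ≤ n) (x : ℝ) (h1 : (n:ℝ) - 2 ≤ x) (h2 : x < n) :
    H n x = (n - 1) / (n - x) ^ 2 := by
  unfold H
  rw [Bd_end n 0 (by omega) x h1 h2.le, Bd_end n 1 (by omega) x h1 h2.le,
    Bd_end n 2 (by omega) x h1 h2.le]
  have hp : (0:ℝ) < n - x := by linarith
  obtain ⟨m, rfl⟩ : ∃ m, n = m + 3 := ⟨n - 3, by omega⟩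
  have e1 : m + 3 - 1 - 0 = m + 2 := by omega
  have e2 : m + 3 - 1 - 1 = m + 1 := by omega
  have e3 : m + 3 - 1 - 2 = m := by omega
  have hf2 : ((m + 2).factorial : ℝ) = (m + 2) * (m + 1) * m.factorial := by
    rw [Nat.factorial_succ, Nat.factorial_succ]; push_cast; ring
  have hf1 : ((m + 1).factorial : ℝ) = (m + 1) * m.factorial := by
    rw [Nat.factorial_succ]; push_cast; ring
  rw [e1, e2, e3, hf2, hf1]
  have hf : (m.factorial : ℝ) ≠ 0 := by positivity
  have hpm := (pow_pos hp m).ne'
  have hp' := hp.ne'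
  have q1 : ((↑(m + 3) : ℝ) - x) ^ (m + 2) = ((↑(m + 3) : ℝ) - x) ^ m * ((↑(m + 3) : ℝ) - x) ^ 2 := pow_add _ _ _
  have q2 : ((↑(m + 3) : ℝ) - x) ^ (m + 1) = ((↑(m + 3) : ℝ) - x) ^ m * ((↑(m + 3) : ℝ) - x) := pow_succ _ _
  rw [q1, q2]
  generalize hP : ((↑(m + 3) : ℝ) - x) ^ m = P at *
  generalize hQ : ((↑(m + 3) : ℝ) - x) = Q at *
  have : (m:ℝ) + 1 ≠ 0 := by positivity
  have h3 : (m:ℝ) + 2 ≠ 0 := by positivity
  push_cast
  field_simp
  ring

theorem H_end_mono (n : ℕ) (hn : 4 ≤ n) {x y : ℝ} (h1 : (n:ℝ) - 2 ≤ x) (hxy : x ≤ y) (h2 : y < n) :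
    H n x ≤ H n y := by
  rw [H_end n hn x h1 (by linarith), H_end n hn y (by linarith) h2]
  have hn1 : (1:ℝ) ≤ n := by exact_mod_cast (by omega : 1 ≤ n)
  apply div_le_div_of_nonneg_left (by linarith) (by apply pow_pos; linarith)
  apply pow_le_pow_left₀ (by linarith)
  linarith

/-- truncated second derivative -/
noncomputable def HK (n : ℕ) (K x : ℝ) : ℝ := H n (min |x| K)

theorem HK_cont (n : ℕ) (hn : 2 ≤ n) {K : ℝ} (hK0 : 0 ≤ K) (hK : K < n) : Continuous (HK n K) := by
  unfold HK
  apply (H_contOn n hn).comp_continuous (by fun_prop)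
  intro x
  have : 0 ≤ min |x| K := le_min (abs_nonneg x) hK0
  have h2 : min |x| K ≤ K := min_le_right _ _
  have hn0 : (0:ℝ) < n := by exact_mod_cast (by omega : 0 < n)
  exact ⟨by linarith, by linarith⟩

noncomputable def uK (n : ℕ) (K x : ℝ) : ℝ := ∫ t in (0:ℝ)..x, HK n K t

noncomputable def phK (n : ℕ) (K x : ℝ) : ℝ := ph n 0 + ∫ t in (0:ℝ)..x, uK n K t

section
variable {n : ℕ} (hn : 4 ≤ n) {K : ℝ} (hK0 : 0 ≤ K) (hK : K < n)
include hn hK0 hK

theorem uK_deriv (x : ℝ) : HasDerivAt (uK n K) (HK n K x) x := by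
  have hc := HK_cont n (by omega) hK0 hK
  exact intervalIntegral.integral_hasDerivAt_right (hc.intervalIntegrable _ _)
    (hc.stronglyMeasurableAtFilter _ _) hc.continuousAt

theorem uK_cont : Continuous (uK n K) :=
  continuous_iff_continuousAt.2 fun x => (uK_deriv hn hK0 hK x).continuousAt

theorem phK_deriv (x : ℝ) : HasDerivAt (phK n K) (uK n K x) x := by
  have hc := uK_cont hn hK0 hK
  exact (intervalIntegral.integral_hasDerivAt_right (hc.intervalIntegrable _ _)
    (hc.stronglyMeasurableAtFilter _ _) hc.continuousAt).const_add _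

theorem phK_cont : Continuous (phK n K) :=
  continuous_iff_continuousAt.2 fun x => (phK_deriv hn hK0 hK x).continuousAt

omit hn hK0 hK in
theorem HK_neg (x : ℝ) : HK n K (-x) = HK n K x := by
  unfold HK; rw [abs_neg]

theorem uK_odd (x : ℝ) : uK n K (-x) = - uK n K x :=
  even_prim (fun x => HK_neg x) (uK_deriv hn hK0 hK) (by simp [uK]) x

theorem phK_even (x : ℝ) : phK n K (-x) = phK n K x :=
  odd_prim (uK_odd hn hK0 hK) (phK_deriv hn hK0 hK) x

theorem uK_eq (x : ℝ) (hx0 : 0 ≤ x) (hx : x ≤ K) : uK n K x = u n x := by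
  unfold uK
  have h1 : ∫ t in (0:ℝ)..x, HK n K t = ∫ t in (0:ℝ)..x, H n t := by
    apply intervalIntegral.integral_congr
    intro t ht
    rw [uIcc_of_le hx0] at ht
    simp only [HK]
    rw [abs_of_nonneg ht.1, min_eq_left (by linarith [ht.2])]
  rw [h1, intervalIntegral.integral_eq_sub_of_hasDerivAt (f := u n), u_zero n (by omega), sub_zero]
  · intro t ht
    rw [uIcc_of_le hx0] at ht
    apply u_deriv n hn
    rw [abs_of_nonneg ht.1]; linarith [ht.2]
  · apply ContinuousOn.intervalIntegrable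
    apply (H_contOn n (by omega)).mono
    intro t ht
    rw [uIcc_of_le hx0] at ht
    have hn0 : (0:ℝ) < n := by exact_mod_cast (by omega : 0 < n)
    exact ⟨by linarith [ht.1], by linarith [ht.2]⟩

theorem uK_eq' (x : ℝ) (hx : |x| ≤ K) : uK n K x = u n x := by
  rcases le_total 0 x with h | h
  · rw [abs_of_nonneg h] at hx; exact uK_eq hn hK0 hK x h hx
  · rw [abs_of_nonpos h] at hx
    have := uK_eq hn hK0 hK (-x) (by linarith) hx
    rw [uK_odd hn hK0 hK, u_neg n (by omega)] at this
    linarith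

theorem phK_eq (x : ℝ) (hx : |x| ≤ K) : phK n K x = ph n x := by
  have key : ∀ x, 0 ≤ x → x ≤ K → phK n K x = ph n x := by
    intro x hx0 hx
    unfold phK
    have h1 : ∫ t in (0:ℝ)..x, uK n K t = ∫ t in (0:ℝ)..x, u n t := by
      apply intervalIntegral.integral_congr
      intro t ht
      rw [uIcc_of_le hx0] at ht
      exact uK_eq hn hK0 hK t ht.1 (by linarith [ht.2])
    rw [h1, intervalIntegral.integral_eq_sub_of_hasDerivAt (f := ph n)]
    · ring
    · intro t ht
      rw [uIcc_of_le hx0] at ht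
      apply ph_deriv n (by omega)
      rw [abs_of_nonneg ht.1]; linarith [ht.2]
    · apply ContinuousOn.intervalIntegrable
      intro t ht
      rw [uIcc_of_le hx0] at ht
      apply (u_deriv n hn t _).continuousAt.continuousWithinAt
      rw [abs_of_nonneg ht.1]; linarith [ht.2]
  rcases le_total 0 x with h | h
  · rw [abs_of_nonneg h] at hx; exact key x h hx
  · rw [abs_of_nonpos h] at hx
    have := key (-x) (by linarith) hx
    rw [phK_even hn hK0 hK, ph_neg n (by omega)] at this
    exact this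

/-- the truncated function is below `φ_n` -/
theorem phK_le (hK2 : (n:ℝ) - 2 ≤ K) (x : ℝ) (hx : |x| < n) : phK n K x ≤ ph n x := by
  have key : ∀ x : ℝ, 0 ≤ x → x < n → phK n K x ≤ ph n x := by
    intro x hx0 hx
    rcases le_total x K with h | h
    · rw [phK_eq hn hK0 hK x (by rw [abs_of_nonneg hx0]; exact h)]
    -- derivative comparison on [K, x]
    have hu : ∀ t, K ≤ t → t ≤ x → uK n K t ≤ u n t := by
      intro t ht1 ht2
      have hmono : MonotoneOn (fun t => u n t - uK n K t) (Icc K x) := by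
        apply monotoneOn_of_deriv_nonneg (convex_Icc _ _)
        · intro s hs
          apply ContinuousAt.continuousWithinAt
          apply ContinuousAt.sub
          · apply (u_deriv n hn s _).continuousAt
            rw [abs_of_nonneg (by linarith [hs.1])]; linarith [hs.2]
          · exact (uK_deriv hn hK0 hK s).continuousAt
        · intro s hs
          rw [interior_Icc] at hs
          apply DifferentiableAt.differentiableWithinAt
          apply DifferentiableAt.sub
          · apply (u_deriv n hn s _).differentiableAt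
            rw [abs_of_nonneg (by linarith [hs.1])]; linarith [hs.2]
          · exact (uK_deriv hn hK0 hK s).differentiableAt
        · intro s hs
          rw [interior_Icc] at hs
          have h1 := (u_deriv n hn s (by rw [abs_of_nonneg (by linarith [hs.1])]; linarith [hs.2])).fun_sub
            (uK_deriv hn hK0 hK s)
          rw [h1.deriv]
          unfold HK
          rw [abs_of_nonneg (by linarith [hs.1]), min_eq_right hs.1.le]
          linarith [H_end_mono n hn hK2 hs.1.le (by linarith [hs.2])]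
      have := hmono (left_mem_Icc.2 h) ⟨ht1, ht2⟩ ht1
      simp only [uK_eq hn hK0 hK K hK0 le_rfl] at this
      linarith
    have hmono : MonotoneOn (fun t => ph n t - phK n K t) (Icc K x) := by
      apply monotoneOn_of_deriv_nonneg (convex_Icc _ _)
      · intro s hs
        apply ContinuousAt.continuousWithinAt
        apply ContinuousAt.sub
        · apply (ph_deriv n (by omega) s _).continuousAt
          rw [abs_of_nonneg (by linarith [hs.1])]; linarith [hs.2]
        · exact (phK_deriv hn hK0 hK s).continuousAt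
      · intro s hs
        rw [interior_Icc] at hs
        apply DifferentiableAt.differentiableWithinAt
        apply DifferentiableAt.sub
        · apply (ph_deriv n (by omega) s _).differentiableAt
          rw [abs_of_nonneg (by linarith [hs.1])]; linarith [hs.2]
        · exact (phK_deriv hn hK0 hK s).differentiableAt
      · intro s hs
        rw [interior_Icc] at hs
        have h1 := (ph_deriv n (by omega) s (by rw [abs_of_nonneg (by linarith [hs.1])]; linarith [hs.2])).fun_sub
          (phK_deriv hn hK0 hK s)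
        rw [h1.deriv]
        linarith [hu s hs.1.le hs.2.le]
    have := hmono (left_mem_Icc.2 h) (right_mem_Icc.2 h) h
    simp only [phK_eq hn hK0 hK K (by rw [abs_of_nonneg hK0])] at this
    linarith
  rcases le_total 0 x with h | h
  · rw [abs_of_nonneg h] at hx; exact key x h hx
  · rw [abs_of_nonpos h] at hx
    have := key (-x) (by linarith) hx
    rw [phK_even hn hK0 hK, ph_neg n (by omega)] at this
    exact this

/-- membership in the class when `H` is nondecreasing -/
theorem cls_phK (hmono : ∀ x y, 0 ≤ x → x ≤ y → y ≤ K → H n x ≤ H n y) : Cls (phK n K) := by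
  refine ⟨uK n K, uK_cont hn hK0 hK, phK_deriv hn hK0 hK, uK_odd hn hK0 hK, ?_⟩
  apply MonotoneOn.convexOn_of_deriv (convex_Ici 0) (uK_cont hn hK0 hK).continuousOn
  · intro x _; exact (uK_deriv hn hK0 hK x).differentiableAt.differentiableWithinAt
  · intro x hx y hy hxy
    simp only [interior_Ici, mem_Ioi] at hx hy
    rw [(uK_deriv hn hK0 hK x).deriv, (uK_deriv hn hK0 hK y).deriv]
    unfold HK
    rw [abs_of_pos hx, abs_of_pos hy]
    exact hmono _ _ (le_min hx.le hK0) (min_le_min_right _ hxy) (min_le_right _ _)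

/-- one good weight -/
theorem cls_A_phK {c : ℝ} (hc : 0 < c) (hgood : ∀ x, 0 ≤ x → HK n K (x - c) ≤ HK n K (x + c)) :
    Cls (A c (phK n K)) := by
  have hu := uK_cont hn hK0 hK
  have hH := HK_cont n (by omega) hK0 hK
  refine ⟨A c (uK n K), A_cont hu c, fun x => A_deriv hu (phK_deriv hn hK0 hK) c x,
    A_odd (uK_odd hn hK0 hK) c, ?_⟩
  have hd1 : ∀ x, HasDerivAt (A c (uK n K)) (A c (HK n K) x) x :=
    fun x => A_deriv hH (uK_deriv hn hK0 hK) c x
  have hd2 : ∀ x, HasDerivAt (A c (HK n K)) ((HK n K (x + c) - HK n K (x - c)) / (2 * c)) x := by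
    intro x
    have h1 : A c (HK n K) = fun x => (uK n K (x + c) - uK n K (x - c)) / (2 * c) := by
      ext x; exact A_eq hH (uK_deriv hn hK0 hK) hc.ne' x
    rw [h1]
    have e1 : HasDerivAt (fun x => uK n K (x + c)) (HK n K (x + c)) x := by
      simpa using (uK_deriv hn hK0 hK (x + c)).comp_add_const x c
    have e2 : HasDerivAt (fun x => uK n K (x - c)) (HK n K (x - c)) x := by
      simpa using (uK_deriv hn hK0 hK (x - c)).comp_sub_const x c
    exact (e1.sub e2).div_const _
  apply MonotoneOn.convexOn_of_deriv (convex_Ici 0) (A_cont hu c).continuousOn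
  · intro x _; exact (hd1 x).differentiableAt.differentiableWithinAt
  · have hm : MonotoneOn (A c (HK n K)) (Ici 0) := by
      apply monotoneOn_of_deriv_nonneg (convex_Ici 0) (A_cont hH c).continuousOn
      · intro x _; exact (hd2 x).differentiableAt.differentiableWithinAt
      · intro x hx
        rw [interior_Ici, mem_Ioi] at hx
        rw [(hd2 x).deriv]
        apply div_nonneg _ (by positivity)
        linarith [hgood x hx.le]
    intro x hx y hy hxy
    rw [(hd1 x).deriv, (hd1 y).deriv]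
    exact hm (interior_subset hx) (interior_subset hy) hxy

/-- two good weights -/
theorem cls_AA_phK {c d : ℝ} (hc : 0 < c) (hd : 0 < d)
    (hgood : ∀ x, 0 ≤ x → 0 ≤ uK n K (x + c + d) - uK n K (x + c - d) - uK n K (x - c + d) +
      uK n K (x - c - d)) :
    Cls (A c (A d (phK n K))) := by
  have hu := uK_cont hn hK0 hK
  have hH := HK_cont n (by omega) hK0 hK
  have hu1 := A_cont hu d
  have hH1 := A_cont hH d
  refine ⟨A c (A d (uK n K)), A_cont hu1 c,
    fun x => A_deriv hu1 (fun x => A_deriv hu (phK_deriv hn hK0 hK) d x) c x,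
    A_odd (A_odd (uK_odd hn hK0 hK) d) c, ?_⟩
  have hd0 : ∀ x, HasDerivAt (A d (uK n K)) (A d (HK n K) x) x :=
    fun x => A_deriv hH (uK_deriv hn hK0 hK) d x
  have hd1 : ∀ x, HasDerivAt (A c (A d (uK n K))) (A c (A d (HK n K)) x) x :=
    fun x => A_deriv hH1 hd0 c x
  have hd2 : ∀ x, HasDerivAt (A c (A d (HK n K)))
      ((A d (HK n K) (x + c) - A d (HK n K) (x - c)) / (2 * c)) x := by
    intro x
    have h1 : A c (A d (HK n K)) = fun x => (A d (uK n K) (x + c) - A d (uK n K) (x - c)) / (2 * c) := by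
      ext x; exact A_eq hH1 hd0 hc.ne' x
    rw [h1]
    have e1 : HasDerivAt (fun x => A d (uK n K) (x + c)) (A d (HK n K) (x + c)) x := by
      simpa using (hd0 (x + c)).comp_add_const x c
    have e2 : HasDerivAt (fun x => A d (uK n K) (x - c)) (A d (HK n K) (x - c)) x := by
      simpa using (hd0 (x - c)).comp_sub_const x c
    exact (e1.sub e2).div_const _
  apply MonotoneOn.convexOn_of_deriv (convex_Ici 0) (A_cont hu1 c).continuousOn
  · intro x _; exact (hd1 x).differentiableAt.differentiableWithinAt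
  · have hm : MonotoneOn (A c (A d (HK n K))) (Ici 0) := by
      apply monotoneOn_of_deriv_nonneg (convex_Ici 0) (A_cont hH1 c).continuousOn
      · intro x _; exact (hd2 x).differentiableAt.differentiableWithinAt
      · intro x hx
        rw [interior_Ici, mem_Ioi] at hx
        rw [(hd2 x).deriv]
        apply div_nonneg _ (by positivity)
        rw [A_eq hH (uK_deriv hn hK0 hK) hd.ne', A_eq hH (uK_deriv hn hK0 hK) hd.ne', ← sub_div]
        apply div_nonneg _ (by positivity)
        linarith [hgood x hx.le]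
    intro x hx y hy hxy
    rw [(hd1 x).deriv, (hd1 y).deriv]
    exact hm (interior_subset hx) (interior_subset hy) hxy

end

end US
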