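import Pool.Agent.Helper70.US.Defs
set_option autoImplicit false
open MeasureTheory
namespace US.S4883

/-- Gibbs' inequality -/
theorem gibbs (μ : Measure ℝ) [IsProbabilityMeasure μ] (C R : ℝ) (hC : μ ≤ ENNReal.ofReal C • volume)
    (hR : μ (Set.Icc (-R) R)ᶜ = 0) (q : ℝ → ℝ) (hq : Measurable q) (hq0 : ∀ x, 0 ≤ q x)
    (hqi : Integrable q) (hq1 : ∫ x, q x = 1) (hpos : ∀ᵐ x ∂μ, 0 < q x)
    (hint : Integrable (fun x => Real.log (q x)) μ) :
    ∫ y, Real.negMulLog ((μ.rnDeriv volume y).toReal) ≤ ∫ x, - Real.log (q x) ∂μ := by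
  have hac : μ ≪ volume := Measure.absolutelyContinuous_of_le_smul hC
  have hpm : Measurable (μ.rnDeriv volume) := Measure.measurable_rnDeriv _ _
  have hset : ∀ s, MeasurableSet s → ∫⁻ x in s, μ.rnDeriv volume x = μ s := fun s hs =>
    Measure.setLIntegral_rnDeriv hac s
  have hle : ∀ᵐ x ∂(volume : Measure ℝ), μ.rnDeriv volume x ≤ ENNReal.ofReal C := by
    apply ae_le_of_forall_setLIntegral_le_of_sigmaFinite hpm
    intro s hs _
    rw [hset s hs, setLIntegral_const]
    have := hC s
    simpa using this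
  have hoff : ∀ᵐ x ∂(volume : Measure ℝ), x ∈ (Set.Icc (-R) R)ᶜ → μ.rnDeriv volume x = 0 := by
    have h1 : ∫⁻ x in (Set.Icc (-R) R)ᶜ, μ.rnDeriv volume x = 0 := by
      rw [hset _ measurableSet_Icc.compl, hR]
    rw [lintegral_eq_zero_iff hpm] at h1
    exact (ae_restrict_iff' measurableSet_Icc.compl).1 h1
  have htop : ∀ᵐ x ∂(volume : Measure ℝ), μ.rnDeriv volume x < ⊤ := Measure.rnDeriv_lt_top _ _
  have hposv : ∀ᵐ x ∂(volume : Measure ℝ), μ.rnDeriv volume x ≠ 0 → 0 < q x := by
    have h1 : ∀ᵐ x ∂(volume.withDensity (μ.rnDeriv volume)), 0 < q x := by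
      rw [Measure.withDensity_rnDeriv_eq _ _ hac]; exact hpos
    exact (ae_withDensity_iff hpm).1 h1
  have hpint : Integrable (fun x => (μ.rnDeriv volume x).toReal) volume :=
    Measure.integrable_toReal_rnDeriv
  have hp1 : ∫ x, (μ.rnDeriv volume x).toReal = 1 := by
    rw [Measure.integral_toReal_rnDeriv hac]; simp
  have hplq : Integrable (fun x => (μ.rnDeriv volume x).toReal • Real.log (q x)) volume :=
    (integrable_rnDeriv_smul_iff hac).2 hint
  have hnm : Integrable (fun x => Real.negMulLog ((μ.rnDeriv volume x).toReal)) volume := by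
    obtain ⟨K, hK⟩ := (isCompact_Icc (a := (0:ℝ)) (b := max C 0)).exists_bound_of_continuousOn
      Real.continuous_negMulLog.continuousOn
    have hind : Integrable (Set.indicator (Set.Icc (-R) R) (fun _ => K)) (volume : Measure ℝ) :=
      (integrable_indicator_iff measurableSet_Icc).2
        ((integrableOn_const_iff).2 (Or.inr (by simp)))
    refine hind.mono' (Real.continuous_negMulLog.measurable.comp hpm.ennreal_toReal).aestronglyMeasurable ?_
    filter_upwards [hle, hoff] with x h1 h2
    by_cases hx : x ∈ Set.Icc (-R) R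
    · rw [Set.indicator_of_mem hx]
      apply hK
      refine ⟨ENNReal.toReal_nonneg, ?_⟩
      have h3 := ENNReal.toReal_mono ENNReal.ofReal_ne_top h1
      rwa [ENNReal.toReal_ofReal'] at h3
    · rw [Set.indicator_of_notMem hx, h2 hx]
      simp
  have hmain : ∫ y, Real.negMulLog ((μ.rnDeriv volume y).toReal) ≤
      ∫ y, (-((μ.rnDeriv volume y).toReal • Real.log (q y)) + (q y - (μ.rnDeriv volume y).toReal)) := by
    apply integral_mono_ae hnm (hplq.neg.add (hqi.sub hpint))
    filter_upwards [hposv, htop] with x h1 h2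
    by_cases h0 : μ.rnDeriv volume x = 0
    · simp [h0, hq0 x]
    · have hqx := h1 h0
      have hpx : 0 < (μ.rnDeriv volume x).toReal := ENNReal.toReal_pos h0 h2.ne
      set a := (μ.rnDeriv volume x).toReal with ha
      show Real.negMulLog a ≤ -(a • Real.log (q x)) + (q x - a)
      have h3 : Real.log (q x / a) ≤ q x / a - 1 := Real.log_le_sub_one_of_pos (div_pos hqx hpx)
      rw [Real.log_div hqx.ne' hpx.ne'] at h3
      have h4 : a * (Real.log (q x) - Real.log a) ≤ a * (q x / a - 1) :=
        mul_le_mul_of_nonneg_left h3 hpx.le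
      have h5 : a * (q x / a - 1) = q x - a := by field_simp
      rw [h5] at h4
      simp only [Real.negMulLog, smul_eq_mul]
      linarith
  have heq : ∫ y, (-((μ.rnDeriv volume y).toReal • Real.log (q y)) + (q y - (μ.rnDeriv volume y).toReal))
      = ∫ x, - Real.log (q x) ∂μ := by
    have hsub : Integrable (fun x => q x - (μ.rnDeriv volume x).toReal) volume := hqi.sub hpint
    have hneg : Integrable (fun x => -((μ.rnDeriv volume x).toReal • Real.log (q x))) volume :=
      hplq.neg
    have e1 := integral_add hneg hsub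
    have e2 := integral_sub hqi hpint
    have e3 := integral_rnDeriv_smul hac (f := fun x => Real.log (q x))
    rw [integral_neg] at e1
    rw [integral_neg]
    rw [e1, e2, e3, hq1, hp1]
    ring
  linarith

/-- equality case -/
theorem gibbs_eq (q : ℝ → ℝ) (hq : Measurable q) (hq0 : ∀ x, 0 ≤ q x) :
    ∫ y, Real.negMulLog (((volume.withDensity (fun x => ENNReal.ofReal (q x))).rnDeriv volume y).toReal)
      = ∫ x, - Real.log (q x) ∂(volume.withDensity (fun x => ENNReal.ofReal (q x))) := by
  rw [integral_withDensity_eq_integral_toReal_smul hq.ennreal_ofReal (by simp)]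
  apply integral_congr_ae
  filter_upwards [Measure.rnDeriv_withDensity volume hq.ennreal_ofReal] with x hx
  rw [hx, ENNReal.toReal_ofReal (hq0 x)]
  simp [Real.negMulLog]

end US.S4883
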