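import Pool.Agent.Helper70.US.Defs
set_option autoImplicit false
open MeasureTheory
namespace US.S4884



/-- the uniform law on [-1,1] -/
noncomputable def P : Measure ℝ := ProbabilityTheory.cond (volume : Measure ℝ) (Set.Icc (-1 : ℝ) 1)

theorem P_eq : P = (2 : ENNReal)⁻¹ • (volume : Measure ℝ).restrict (Set.Icc (-1 : ℝ) 1) := by
  unfold P ProbabilityTheory.cond
  rw [Real.volume_Icc]
  norm_num

instance P_prob : IsProbabilityMeasure P := by
  rw [P_eq]
  constructor
  simp only [Measure.smul_apply, Measure.restrict_apply MeasurableSet.univ, Set.univ_inter,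
    Real.volume_Icc, smul_eq_mul]
  norm_num
  exact ENNReal.inv_mul_cancel (by norm_num) (by norm_num)

theorem P_supp : ∀ᵐ x ∂P, x ∈ Set.Icc (-1 : ℝ) 1 := by
  rw [P_eq]
  apply Measure.ae_smul_measure
  exact ae_restrict_mem measurableSet_Icc

theorem P_integral (g : ℝ → ℝ) : ∫ t, g t ∂P = (1 / 2) * ∫ t in (-1:ℝ)..1, g t := by
  rw [P_eq, integral_smul_measure, intervalIntegral.integral_of_le (by norm_num),
    ← integral_Icc_eq_integral_Ioc]
  simp

theorem law_eq {n : ℕ} (a : Fin n → ℝ) : law a = (Measure.pi (fun _ : Fin n => P)).map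
    (fun x : Fin n → ℝ => ∑ i, a i * x i) := rfl

theorem meas_lin {n : ℕ} (a : Fin n → ℝ) : Measurable (fun x : Fin n → ℝ => ∑ i, a i * x i) := by
  fun_prop

theorem law_prob {n : ℕ} (a : Fin n → ℝ) : IsProbabilityMeasure (law a) := by
  rw [law_eq]
  exact Measure.isProbabilityMeasure_map (meas_lin a).aemeasurable

theorem P_aff (c w : ℝ) (hc : c ≠ 0) (S : Set ℝ) :
    P {t | c * t + w ∈ S} ≤ ENNReal.ofReal (1 / (2 * |c|)) * volume S := by
  rw [P_eq, Measure.smul_apply, smul_eq_mul]
  calc (2 : ENNReal)⁻¹ * (volume.restrict (Set.Icc (-1 : ℝ) 1)) {t | c * t + w ∈ S}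
      ≤ (2 : ENNReal)⁻¹ * volume {t | c * t + w ∈ S} := by
        gcongr
        exact Measure.restrict_le_self
    _ = (2 : ENNReal)⁻¹ * (ENNReal.ofReal |c⁻¹| * volume S) := by
        congr 1
        have h1 : {t | c * t + w ∈ S} = (fun t => c * t) ⁻¹' ((fun t => t + w) ⁻¹' S) := rfl
        rw [h1, Real.volume_preimage_mul_left hc, measure_preimage_add_right]
    _ = ENNReal.ofReal (1 / (2 * |c|)) * volume S := by
        rw [← mul_assoc]
        congr 1
        have : (2 : ENNReal)⁻¹ = ENNReal.ofReal (1/2) := by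
          rw [one_div, ENNReal.ofReal_inv_of_pos (by norm_num)]
          norm_num
        rw [this, ← ENNReal.ofReal_mul (by norm_num)]
        congr 1
        rw [abs_inv]
        field_simp

theorem law_le {n : ℕ} (a : Fin n → ℝ) (i : Fin n) (h : a i ≠ 0) :
    law a ≤ ENNReal.ofReal (1 / (2 * |a i|)) • volume := by
  cases n with
  | zero => exact i.elim0
  | succ n =>
    refine Measure.le_iff.2 fun S hS => ?_
    rw [law_eq, Measure.map_apply (meas_lin a) hS]
    have hmp := measurePreserving_piFinSuccAbove (fun _ : Fin (n+1) => P) i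
    have hT : MeasurableSet {p : ℝ × (Fin n → ℝ) | a i * p.1 + ∑ j, a (i.succAbove j) * p.2 j ∈ S} := by
      apply measurableSet_preimage _ hS
      fun_prop
    have hpre : (fun x : Fin (n+1) → ℝ => ∑ i, a i * x i) ⁻¹' S =
        (MeasurableEquiv.piFinSuccAbove (fun _ : Fin (n+1) => ℝ) i) ⁻¹'
          {p : ℝ × (Fin n → ℝ) | a i * p.1 + ∑ j, a (i.succAbove j) * p.2 j ∈ S} := by
      ext x
      simp only [Set.mem_preimage, Set.mem_ofPred_eq, MeasurableEquiv.piFinSuccAbove_apply]
      rw [Fin.sum_univ_succAbove _ i]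
      rfl
    rw [hpre, hmp.measure_preimage hT.nullMeasurableSet]
    rw [Measure.prod_apply_symm hT]
    calc ∫⁻ y, P ((fun x => (x, y)) ⁻¹' {p : ℝ × (Fin n → ℝ) | a i * p.1 + ∑ j, a (i.succAbove j) * p.2 j ∈ S})
            ∂(Measure.pi fun _ => P)
        ≤ ∫⁻ _y, ENNReal.ofReal (1 / (2 * |a i|)) * volume S ∂(Measure.pi fun _ : Fin n => P) := by
          apply lintegral_mono
          intro y
          exact P_aff (a i) (∑ j, a (i.succAbove j) * y j) h S
      _ = (ENNReal.ofReal (1 / (2 * |a i|)) • volume) S := by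
          rw [lintegral_const, measure_univ, mul_one, Measure.smul_apply, smul_eq_mul]

theorem pi_supp (n : ℕ) : ∀ᵐ x ∂(Measure.pi (fun _ : Fin n => P)), ∀ i, |x i| ≤ 1 := by
  rw [ae_all_iff]
  intro i
  have h := (measurePreserving_eval (fun _ : Fin n => P) i).quasiMeasurePreserving.ae P_supp
  filter_upwards [h] with x hx
  exact abs_le.2 hx

theorem law_supp' {n : ℕ} (a : Fin n → ℝ) : ∀ᵐ x ∂(Measure.pi (fun _ : Fin n => P)),
    |∑ i, a i * x i| ≤ ∑ i, |a i| := by
  filter_upwards [pi_supp n] with x hx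
  refine (Finset.abs_sum_le_sum_abs _ _).trans (Finset.sum_le_sum fun i _ => ?_)
  rw [abs_mul]
  exact mul_le_of_le_one_right (abs_nonneg _) (hx i)

theorem law_supp {n : ℕ} (a : Fin n → ℝ) : law a (Set.Icc (-(∑ i, |a i|)) (∑ i, |a i|))ᶜ = 0 := by
  rw [law_eq, Measure.map_apply (meas_lin a) measurableSet_Icc.compl]
  have h := law_supp' a
  rw [ae_iff] at h
  convert h using 2
  ext x
  simp only [Set.mem_preimage, Set.mem_compl_iff, Set.mem_Icc, Set.mem_ofPred_eq, abs_le]

theorem integral_law_aux (f : ℝ → ℝ) (hf : Continuous f) : ∀ (n : ℕ) (a : Fin n → ℝ) (x : ℝ),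
    ∫ y : Fin n → ℝ, f (x + ∑ i, a i * y i) ∂(Measure.pi (fun _ : Fin n => P)) =
      (List.ofFn a).foldr A f x := by
  intro n
  induction n with
  | zero =>
    intro a x
    simp
  | succ n ih =>
    intro a x
    rw [List.ofFn_succ, List.foldr_cons]
    change _ = (1 / 2) * ∫ t in (-1:ℝ)..1, (List.ofFn fun i => a (Fin.succ i)).foldr A f (x + a 0 * t)
    rw [← P_integral]
    have hmp := measurePreserving_piFinSuccAbove (fun _ : Fin (n+1) => P) 0
    have h1 : ∀ y : Fin (n+1) → ℝ, f (x + ∑ i, a i * y i) =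
        (fun p : ℝ × (Fin n → ℝ) => f (x + (a 0 * p.1 + ∑ j, a j.succ * p.2 j)))
          (MeasurableEquiv.piFinSuccAbove (fun _ : Fin (n+1) => ℝ) 0 y) := by
      intro y
      rw [Fin.sum_univ_succ]
      rfl
    simp_rw [h1]
    rw [hmp.integral_comp' (g := (fun p : ℝ × (Fin n → ℝ) => f (x + (a 0 * p.1 + ∑ j, a j.succ * p.2 j))))]
    have hint : Integrable (fun p : ℝ × (Fin n → ℝ) => f (x + (a 0 * p.1 + ∑ j, a j.succ * p.2 j)))
        (P.prod (Measure.pi fun _ => P)) := by
      set R : ℝ := |x| + (|a 0| + ∑ j : Fin n, |a j.succ|) with hR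
      obtain ⟨C, hC⟩ := (isCompact_Icc (a := -R) (b := R)).exists_bound_of_continuousOn hf.continuousOn
      refine Integrable.of_bound (C := C) ?_ ?_
      · apply Continuous.aestronglyMeasurable
        fun_prop
      · have e1 : ∀ᵐ p ∂(P.prod (Measure.pi fun _ : Fin n => P)), p.1 ∈ Set.Icc (-1:ℝ) 1 :=
          Measure.quasiMeasurePreserving_fst.ae P_supp
        have e2 : ∀ᵐ p ∂(P.prod (Measure.pi fun _ : Fin n => P)),
            |∑ i, a (Fin.succ i) * p.2 i| ≤ ∑ i, |a (Fin.succ i)| :=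
          Measure.quasiMeasurePreserving_snd.ae (law_supp' (fun i => a (Fin.succ i)))
        filter_upwards [e1, e2] with p h1 h2
        apply hC
        have h3 : |x + (a 0 * p.1 + ∑ j, a j.succ * p.2 j)| ≤ R := by
          refine (abs_add_le _ _).trans ?_
          refine add_le_add le_rfl ((abs_add_le _ _).trans (add_le_add ?_ h2))
          rw [abs_mul]
          exact mul_le_of_le_one_right (abs_nonneg _) (abs_le.2 h1)
        exact abs_le.1 h3
    rw [integral_prod _ hint]
    congr 1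
    ext t
    rw [← ih (fun j => a j.succ) (x + a 0 * t)]
    simp only [add_assoc]

theorem integral_law {n : ℕ} (a : Fin n → ℝ) (f : ℝ → ℝ) (hf : Continuous f) :
    ∫ y, f y ∂(law a) = (List.ofFn a).foldr A f 0 := by
  rw [law_eq, integral_map (meas_lin a).aemeasurable hf.aestronglyMeasurable,
    ← integral_law_aux f hf n a 0]
  simp

end US.S4884
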