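import Pool.Agent.Helper70.US.Defs
set_option autoImplicit false
namespace US.S4885




open MeasureTheory


open scoped ENNReal

noncomputable def J85_mu : Measure ℝ := ProbabilityTheory.cond (volume : Measure ℝ) (Set.Icc (-1 : ℝ) 1)

theorem J85_mu_eq : J85_mu = (2 : ℝ≥0∞)⁻¹ • (volume : Measure ℝ).restrict (Set.Icc (-1 : ℝ) 1) := by
  unfold J85_mu ProbabilityTheory.cond
  rw [Real.volume_Icc]
  congr 2
  norm_num

instance J85_prob : IsProbabilityMeasure J85_mu := by
  unfold J85_mu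
  apply ProbabilityTheory.cond_isProbabilityMeasure_of_finite
  · rw [Real.volume_Icc]
    norm_num
  · rw [Real.volume_Icc]
    exact ENNReal.ofReal_ne_top

theorem J85_lint (f : ℝ → ℝ≥0∞) : ∫⁻ t, f t ∂J85_mu = 2⁻¹ * ∫⁻ t in Set.Icc (-1 : ℝ) 1, f t := by
  rw [J85_mu_eq, lintegral_smul_measure, smul_eq_mul]

theorem J85_succ (n : ℕ) (f : ℝ → ℝ≥0∞) (hf : Measurable f) :
    ∫⁻ x, f (∑ i, x i) ∂(Measure.pi (fun _ : Fin (n + 1) => J85_mu)) =
      ∫⁻ t, ∫⁻ x, f (t + ∑ i, x i) ∂(Measure.pi (fun _ : Fin n => J85_mu)) ∂J85_mu := by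
  have hmp := measurePreserving_piFinSuccAbove (fun _ : Fin (n + 1) => J85_mu) 0
  have hm : Measurable (fun p : ℝ × (Fin n → ℝ) => f (p.1 + ∑ i, p.2 i)) := by
    apply hf.comp
    exact measurable_fst.add (Finset.measurable_sum _ fun i _ =>
      (measurable_pi_apply i).comp measurable_snd)
  have h1 := hmp.lintegral_comp hm
  rw [lintegral_prod _ hm.aemeasurable] at h1
  rw [← h1]
  apply lintegral_congr
  intro x
  congr 1
  rw [Fin.sum_univ_succ]
  rfl

theorem J85_step (n : ℕ) (g : ℝ → ℝ≥0∞) (hg : Measurable g)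
    (h : ∀ f : ℝ → ℝ≥0∞, Measurable f →
      ∫⁻ x, f (∑ i, x i) ∂(Measure.pi (fun _ : Fin n => J85_mu)) = ∫⁻ y, f y * g y)
    (f : ℝ → ℝ≥0∞) (hf : Measurable f) :
    ∫⁻ x, f (∑ i, x i) ∂(Measure.pi (fun _ : Fin (n + 1) => J85_mu)) =
      ∫⁻ y, f y * (2⁻¹ * ∫⁻ t in Set.Icc (-1 : ℝ) 1, g (y - t)) := by
  rw [J85_succ n f hf]
  have h1 : ∀ t : ℝ, ∫⁻ x, f (t + ∑ i, x i) ∂(Measure.pi (fun _ : Fin n => J85_mu)) =
      ∫⁻ y, f y * g (y - t) := by
    intro t
    rw [h (fun y => f (t + y)) (hf.comp (measurable_const.add measurable_id))]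
    rw [← lintegral_sub_right_eq_self (fun y => f (t + y) * g y) t]
    apply lintegral_congr
    intro y
    rw [add_sub_cancel]
  simp only [h1]
  have hjoint : Measurable (fun p : ℝ × ℝ => f p.2 * g (p.2 - p.1)) :=
    (hf.comp measurable_snd).mul (hg.comp (measurable_snd.sub measurable_fst))
  rw [lintegral_lintegral_swap hjoint.aemeasurable]
  apply lintegral_congr
  intro y
  have hgm : Measurable (fun t : ℝ => g (y - t)) := hg.comp (measurable_const.sub measurable_id)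
  rw [lintegral_const_mul _ hgm, J85_lint]

theorem J85_one (f : ℝ → ℝ≥0∞) (hf : Measurable f) :
    ∫⁻ x, f (∑ i, x i) ∂(Measure.pi (fun _ : Fin 1 => J85_mu)) =
      ∫⁻ y, f y * (Set.Icc (-1 : ℝ) 1).indicator (fun _ => (2 : ℝ≥0∞)⁻¹) y := by
  rw [J85_succ 0 f hf]
  simp only [Finset.univ_eq_empty, Finset.sum_empty, add_zero, lintegral_const, measure_univ, mul_one]
  rw [J85_lint, ← lintegral_indicator measurableSet_Icc, ← lintegral_const_mul _ (hf.indicator measurableSet_Icc)]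
  apply lintegral_congr
  intro y
  by_cases hy : y ∈ Set.Icc (-1 : ℝ) 1
  · rw [Set.indicator_of_mem hy, Set.indicator_of_mem hy, mul_comm]
  · rw [Set.indicator_of_notMem hy, Set.indicator_of_notMem hy, mul_zero, mul_zero]

theorem J85_B2 (x : ℝ) : Bd 2 0 x = max 0 (2 - |x|) / 4 := by
  unfold Bd T
  norm_num [Finset.sum_range_succ]
  rcases le_total 0 x with h | h
  · rw [abs_of_nonneg h, max_eq_right h, max_eq_right (by linarith : 0 ≤ x + 2)]
    rcases le_total 2 x with h2 | h2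
    · rw [max_eq_right (by linarith : 0 ≤ x + 2 - 4), max_eq_left (by linarith : 2 - x ≤ 0)]; ring
    · rw [max_eq_left (by linarith : x + 2 - 4 ≤ 0), max_eq_right (by linarith : 0 ≤ 2 - x)]; ring
  · rw [abs_of_nonpos h, max_eq_left h, max_eq_left (by linarith : x + 2 - 4 ≤ 0)]
    rcases le_total (-2) x with h2 | h2
    · rw [max_eq_right (by linarith : 0 ≤ x + 2), max_eq_right (by linarith : 0 ≤ 2 - -x)]; ring
    · rw [max_eq_left (by linarith : x + 2 ≤ 0), max_eq_left (by linarith : 2 - -x ≤ 0)]; ring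

theorem J85_base (f : ℝ → ℝ≥0∞) (hf : Measurable f) :
    ∫⁻ x, f (∑ i, x i) ∂(Measure.pi (fun _ : Fin 2 => J85_mu)) =
      ∫⁻ y, f y * ENNReal.ofReal (Bd 2 0 y) := by
  rw [J85_step 1 _ (measurable_const.indicator measurableSet_Icc) J85_one f hf]
  apply lintegral_congr
  intro y
  congr 1
  have h1 : ∫⁻ t in Set.Icc (-1 : ℝ) 1, (Set.Icc (-1 : ℝ) 1).indicator (fun _ => (2 : ℝ≥0∞)⁻¹) (y - t) =
      2⁻¹ * ENNReal.ofReal (2 - |y|) := by
    have h2 : ∀ t : ℝ, (Set.Icc (-1 : ℝ) 1).indicator (fun _ => (2 : ℝ≥0∞)⁻¹) (y - t) =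
        (Set.Icc (y - 1) (y + 1)).indicator (fun _ => (2 : ℝ≥0∞)⁻¹) t := by
      intro t
      by_cases ht : t ∈ Set.Icc (y - 1) (y + 1)
      · have : y - t ∈ Set.Icc (-1 : ℝ) 1 := ⟨by linarith [ht.2], by linarith [ht.1]⟩
        rw [Set.indicator_of_mem ht, Set.indicator_of_mem this]
      · have : y - t ∉ Set.Icc (-1 : ℝ) 1 := fun h => ht ⟨by linarith [h.2], by linarith [h.1]⟩
        rw [Set.indicator_of_notMem ht, Set.indicator_of_notMem this]
    simp only [h2]
    rw [lintegral_indicator measurableSet_Icc, lintegral_const, Measure.restrict_restrict measurableSet_Icc,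
      Measure.restrict_apply_univ, Set.Icc_inter_Icc, Real.volume_Icc]
    congr 2
    rcases le_total 0 y with h | h
    · rw [abs_of_nonneg h, inf_eq_right.2 (by linarith : (1 : ℝ) ≤ y + 1), sup_eq_left.2 (by linarith : (-1 : ℝ) ≤ y - 1)]
      ring
    · rw [abs_of_nonpos h, inf_eq_left.2 (by linarith : y + 1 ≤ (1 : ℝ)), sup_eq_right.2 (by linarith : y - 1 ≤ (-1 : ℝ))]
      ring
  rw [h1, J85_B2]
  have h3 : ENNReal.ofReal (max 0 (2 - |y|) / 4) = ENNReal.ofReal (2 - |y|) / 4 := by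
    rw [ENNReal.ofReal_div_of_pos (by norm_num)]
    congr 1
    · rcases le_total 0 (2 - |y|) with h | h
      · rw [max_eq_right h]
      · rw [max_eq_left h, ENNReal.ofReal_of_nonpos h, ENNReal.ofReal_zero]
    · norm_num
  rw [h3, ← mul_assoc, ← ENNReal.mul_inv (by norm_num) (by norm_num), ENNReal.div_eq_inv_mul]
  norm_num

theorem J85_all (Hcont : ∀ m, Continuous (Bd m 0)) (Hnn : ∀ m, 2 ≤ m → ∀ x, 0 ≤ Bd m 0 x)
    (Hint : ∀ m, 2 ≤ m → ∀ x, (1 / 2) * ∫ t in (x - 1)..(x + 1), Bd m 0 t = Bd (m + 1) 0 x)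
    (n : ℕ) (hn : 2 ≤ n) : ∀ (f : ℝ → ℝ≥0∞), Measurable f →
    ∫⁻ x, f (∑ i, x i) ∂(Measure.pi (fun _ : Fin n => J85_mu)) =
      ∫⁻ y, f y * ENNReal.ofReal (Bd n 0 y) := by
  induction n, hn using Nat.le_induction with
  | base => exact J85_base
  | succ n hn ih =>
    intro f hf
    rw [J85_step n _ (Hcont n).measurable.ennreal_ofReal ih f hf]
    apply lintegral_congr
    intro y
    congr 1
    have hc : Continuous (fun t : ℝ => Bd n 0 (y - t)) :=
      (Hcont n).comp (continuous_const.sub continuous_id)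
    rw [← ofReal_integral_eq_lintegral_ofReal (hc.integrableOn_Icc)
      (Filter.Eventually.of_forall fun t => Hnn n hn _)]
    rw [integral_Icc_eq_integral_Ioc, ← intervalIntegral.integral_of_le (by norm_num)]
    rw [intervalIntegral.integral_comp_sub_left (fun t => Bd n 0 t) y, ← Hint n hn y,
      ENNReal.ofReal_mul (by norm_num)]
    congr 1
    · rw [one_div, ENNReal.ofReal_inv_of_pos (by norm_num)]; norm_num
    · congr 2; ring

/-- the law of `c (X_1+...+X_n)` has density `f_n(y/c)/c`. The hypotheses are proved in another job. -/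
theorem law_const (Hcont : ∀ m, Continuous (Bd m 0)) (Hnn : ∀ m, 2 ≤ m → ∀ x, 0 ≤ Bd m 0 x)
    (Hint : ∀ m, 2 ≤ m → ∀ x, (1 / 2) * ∫ t in (x - 1)..(x + 1), Bd m 0 t = Bd (m + 1) 0 x)
    (n : ℕ) (hn : 2 ≤ n) (c : ℝ) (hc : 0 < c) :
    law (fun _ : Fin n => c) =
      volume.withDensity (fun y => ENNReal.ofReal (Bd n 0 (y / c) / c)) := by
  have hmeas : Measurable (fun x : Fin n → ℝ => ∑ i, c * x i) :=
    Finset.measurable_sum _ fun i _ => measurable_const.mul (measurable_pi_apply i)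
  ext s hs
  have h1 : law (fun _ : Fin n => c) s =
      ∫⁻ x, s.indicator (1 : ℝ → ℝ≥0∞) (c * ∑ i, x i) ∂(Measure.pi (fun _ : Fin n => J85_mu)) := by
    unfold law
    rw [← lintegral_indicator_one hs, lintegral_map (measurable_one.indicator hs) hmeas]
    apply lintegral_congr
    intro x
    rw [Finset.mul_sum]
  have hind : Measurable (fun y : ℝ => s.indicator (1 : ℝ → ℝ≥0∞) (c * y)) :=
    (measurable_one.indicator hs).comp (measurable_id.const_mul c)
  rw [h1, J85_all Hcont Hnn Hint n hn (fun y => s.indicator (1 : ℝ → ℝ≥0∞) (c * y)) hind]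
  have hF : Measurable (fun u : ℝ => s.indicator (1 : ℝ → ℝ≥0∞) u * ENNReal.ofReal (Bd n 0 (u / c))) :=
    (measurable_one.indicator hs).mul ((Hcont n).measurable.comp (measurable_id.div_const c)).ennreal_ofReal
  have h2 : ∫⁻ y : ℝ, s.indicator (1 : ℝ → ℝ≥0∞) (c * y) * ENNReal.ofReal (Bd n 0 y) =
      ENNReal.ofReal (|c⁻¹|) * ∫⁻ u : ℝ, s.indicator (1 : ℝ → ℝ≥0∞) u * ENNReal.ofReal (Bd n 0 (u / c)) := by
    rw [← smul_eq_mul, ← lintegral_smul_measure, ← Real.map_volume_mul_left hc.ne',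
      lintegral_map hF (measurable_const_mul c)]
    apply lintegral_congr
    intro y
    rw [mul_div_cancel_left₀ _ hc.ne']
  rw [h2, withDensity_apply _ hs, ← lintegral_indicator hs, ← lintegral_const_mul _ hF]
  apply lintegral_congr
  intro u
  by_cases hu : u ∈ s
  · rw [Set.indicator_of_mem hu, Set.indicator_of_mem hu, Pi.one_apply, one_mul,
      abs_of_pos (inv_pos.2 hc), ← ENNReal.ofReal_mul (inv_pos.2 hc).le, div_eq_inv_mul (Bd n 0 (u / c))]
  · rw [Set.indicator_of_notMem hu, Set.indicator_of_notMem hu, zero_mul, mul_zero]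

end US.S4885
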