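import Pool.Agent.Helper70.US.F5
import Pool.Agent.Helper70.US.S4883
import Pool.Agent.Helper70.US.S4884
import Pool.Agent.Helper70.US.S4885
set_option autoImplicit false
open MeasureTheory intervalIntegral Set
namespace US
open S4691

/-- differential entropy of the law of `∑ a_i X_i` -/
noncomputable def ent {n : ℕ} (a : Fin n → ℝ) : ℝ :=
  ∫ y, Real.negMulLog (((law a).rnDeriv volume y).toReal)

theorem A_scale (s c : ℝ) (f : ℝ → ℝ) (x : ℝ) :
    A c (fun y => f (s * y)) x = A (s * c) f (s * x) := by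
  unfold A
  congr 1
  apply intervalIntegral.integral_congr
  intro t _
  simp only
  congr 1; ring

theorem foldr_scale (s : ℝ) (f : ℝ → ℝ) (l : List ℝ) (x : ℝ) :
    l.foldr A (fun y => f (s * y)) x = (l.map (fun c => s * c)).foldr A f (s * x) := by
  induction l generalizing x with
  | nil => simp
  | cons a l ih =>
    simp only [List.foldr_cons, List.map_cons]
    have : l.foldr A (fun y => f (s * y)) = fun y => ((l.map (fun c => s * c)).foldr A f) (s * y) := by
      ext y; exact ih y
    rw [this, A_scale]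

theorem law_abs {n : ℕ} (a : Fin n → ℝ) : law (fun i => |a i|) = law a := by
  set P := ProbabilityTheory.cond (volume : Measure ℝ) (Set.Icc (-1 : ℝ) 1) with hP
  have hneg : MeasurePreserving (fun x : ℝ => -x) P P := by
    refine ⟨measurable_neg, ?_⟩
    ext s hs
    rw [Measure.map_apply measurable_neg hs, hP, ProbabilityTheory.cond_apply measurableSet_Icc,
      ProbabilityTheory.cond_apply measurableSet_Icc]
    congr 1
    have h1 : Icc (-1:ℝ) 1 ∩ (fun x : ℝ => -x) ⁻¹' s = (fun x : ℝ => -x) ⁻¹' (Icc (-1:ℝ) 1 ∩ s) := by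
      ext x; simp only [mem_inter_iff, mem_Icc, mem_preimage]
      constructor
      · rintro ⟨⟨h1, h2⟩, h3⟩; exact ⟨⟨by linarith, by linarith⟩, h3⟩
      · rintro ⟨⟨h1, h2⟩, h3⟩; exact ⟨⟨by linarith, by linarith⟩, h3⟩
    rw [h1]
    exact (Measure.measurePreserving_neg (volume : Measure ℝ)).measure_preimage
      (measurableSet_Icc.inter hs).nullMeasurableSet
  have hprob : IsProbabilityMeasure P := S4884.P_prob
  have hmp : MeasurePreserving (fun (x : Fin n → ℝ) i => if a i < 0 then - x i else x i)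
      (Measure.pi fun _ => P) (Measure.pi fun _ => P) := by
    apply measurePreserving_pi (fun _ => P) (fun _ => P) (f := fun i x => if a i < 0 then -x else x)
    intro i
    by_cases h : a i < 0
    · simpa only [h, if_true] using hneg
    · simp only [h, if_false]; exact MeasurePreserving.id P
  unfold law
  rw [← hP]
  have h2 : (fun x : Fin n → ℝ => ∑ i, |a i| * x i) =
      (fun x : Fin n → ℝ => ∑ i, a i * x i) ∘ (fun (x : Fin n → ℝ) i => if a i < 0 then - x i else x i) := by
    ext x
    simp only [Function.comp]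
    apply Finset.sum_congr rfl
    intro i _
    split_ifs with h
    · rw [abs_of_neg h]; ring
    · rw [abs_of_nonneg (not_lt.1 h)]
  rw [h2, ← Measure.map_map (S4884.meas_lin a) hmp.measurable, hmp.map_eq]

theorem integrable_law {n : ℕ} (a : Fin n → ℝ) {f : ℝ → ℝ} (hf : Continuous f) :
    Integrable f (law a) := by
  have := S4884.law_prob a
  have h1 : IntegrableOn f (Icc (-(∑ i, |a i|)) (∑ i, |a i|)) (law a) :=
    hf.continuousOn.integrableOn_compact isCompact_Icc
  rw [IntegrableOn, Measure.restrict_eq_self_of_ae_mem] at h1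
  · exact h1
  · exact mem_ae_iff.2 (S4884.law_supp a)

/-- Gibbs' inequality for weighted sums of uniforms -/
theorem ent_le {n : ℕ} (a : Fin n → ℝ) (ha : ∃ i, a i ≠ 0) {s : ℝ} (hs : 0 < s) {g : ℝ → ℝ}
    (hg : Measurable g) (hg0 : ∀ x, 0 ≤ g x) (hgi : Integrable g) (hg1 : ∫ x, g x = 1)
    {Φ : ℝ → ℝ} (hΦ : Continuous Φ)
    (hR : ∀ x, |x| ≤ s * ∑ i, |a i| → 0 < g x ∧ Φ x = - Real.log (g x)) :
    ent a ≤ - Real.log s + ((List.ofFn a).map (fun c => s * c)).foldr A Φ 0 := by
  obtain ⟨i, hi⟩ := ha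
  have := S4884.law_prob a
  have hae : ∀ᵐ x ∂(law a), |x| ≤ ∑ i, |a i| := by
    have h1 : ∀ᵐ x ∂(law a), x ∈ Icc (-(∑ i, |a i|)) (∑ i, |a i|) := mem_ae_iff.2 (S4884.law_supp a)
    filter_upwards [h1] with x hx
    exact abs_le.2 hx
  have hae2 : ∀ᵐ x ∂(law a), |s * x| ≤ s * ∑ i, |a i| := by
    filter_upwards [hae] with x hx
    rw [abs_mul, abs_of_pos hs]
    exact mul_le_mul_of_nonneg_left hx hs.le
  have hΦs : Continuous (fun x => Φ (s * x)) := by fun_prop
  have hlog : ∀ᵐ x ∂(law a), Real.log (s * g (s * x)) = Real.log s - Φ (s * x) := by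
    filter_upwards [hae2] with x hx
    obtain ⟨h1, h2⟩ := hR _ hx
    rw [Real.log_mul hs.ne' h1.ne', h2]; ring
  have hI : Integrable (fun x => Real.log s - Φ (s * x)) (law a) :=
    (integrable_const _).sub (integrable_law a hΦs)
  have h1 := S4883.gibbs (law a) (1 / (2 * |a i|)) (∑ i, |a i|) (S4884.law_le a i hi)
    (S4884.law_supp a) (fun x => s * g (s * x)) (by fun_prop)
    (fun x => mul_nonneg hs.le (hg0 _))
    ((hgi.comp_mul_left' hs.ne').const_mul s)
    (by
      rw [MeasureTheory.integral_const_mul, Measure.integral_comp_mul_left, hg1, abs_of_pos (by positivity)]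
      simp [hs.ne'])
    (by filter_upwards [hae2] with x hx; exact mul_pos hs (hR _ hx).1)
    (hI.congr (by filter_upwards [hlog] with x hx; rw [hx]))
  refine h1.trans (le_of_eq ?_)
  have h2 : ∫ x, - Real.log (s * g (s * x)) ∂(law a) = ∫ x, (- Real.log s + Φ (s * x)) ∂(law a) := by
    apply MeasureTheory.integral_congr_ae
    filter_upwards [hlog] with x hx
    rw [hx]; ring
  rw [h2, MeasureTheory.integral_add (integrable_const _) (integrable_law a hΦs)]
  simp only [MeasureTheory.integral_const, probReal_univ, one_smul]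
  rw [S4884.integral_law a _ hΦs, foldr_scale, mul_zero]

theorem Bd_nonneg (m : ℕ) (h : 2 ≤ m) (x : ℝ) : 0 ≤ Bd m 0 x := by
  rcases lt_or_ge |x| m with h1 | h1
  · exact (Bd_pos m h x h1).le
  · rcases le_abs.1 h1 with h2 | h2
    · rw [Bd_right m 0 (by omega) x h2]
    · rw [Bd_left m 0 (by omega) x (by linarith)]

theorem law_const' (n : ℕ) (hn : 2 ≤ n) (c : ℝ) (hc : 0 < c) :
    law (fun _ : Fin n => c) = volume.withDensity (fun y => ENNReal.ofReal (Bd n 0 (y / c) / c)) :=
  S4885.law_const (fun m => Bd_cont m 0) Bd_nonneg Bd_int n hn c hc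

/-- entropy of `X_1+...+X_n` -/
noncomputable def hn (n : ℕ) : ℝ := ∫ x, Real.negMulLog (Bd n 0 x)

theorem Bd_supp (n : ℕ) (hn : 2 ≤ n) (x : ℝ) (hx : x ∉ Icc (-(n:ℝ)) n) : Bd n 0 x = 0 := by
  rw [mem_Icc, not_and_or] at hx
  rcases hx with h | h
  · exact Bd_left n 0 (by omega) x (by linarith)
  · exact Bd_right n 0 (by omega) x (by linarith)

theorem Bd_integrable (n : ℕ) (hn : 2 ≤ n) : Integrable (Bd n 0) := by
  apply (Bd_cont n 0).integrable_of_hasCompactSupport
  exact HasCompactSupport.intro isCompact_Icc (Bd_supp n hn)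

theorem hn_integrable (n : ℕ) (hn : 2 ≤ n) : Integrable (fun x => Real.negMulLog (Bd n 0 x)) := by
  apply (Real.continuous_negMulLog.comp (Bd_cont n 0)).integrable_of_hasCompactSupport
  apply HasCompactSupport.intro isCompact_Icc (K := Icc (-(n:ℝ)) n)
  intro x hx
  simp [Bd_supp n hn x hx]

/-- entropy of the normalised equal weight sum -/
theorem ent_const (n : ℕ) (h2 : 2 ≤ n) (c : ℝ) (hc : 0 < c) :
    ent (fun _ : Fin n => c) = hn n + Real.log c := by
  unfold ent
  rw [law_const' n h2 c hc]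
  have hm : Measurable (fun y => ENNReal.ofReal (Bd n 0 (y / c) / c)) := by
    have := (Bd_cont n 0).measurable
    fun_prop
  have h1 : ∫ y, Real.negMulLog (((volume.withDensity (fun y => ENNReal.ofReal (Bd n 0 (y / c) / c))).rnDeriv
      volume y).toReal) = ∫ y, Real.negMulLog (Bd n 0 (y / c) / c) := by
    apply MeasureTheory.integral_congr_ae
    filter_upwards [Measure.rnDeriv_withDensity volume hm] with x hx
    rw [hx, ENNReal.toReal_ofReal (div_nonneg (Bd_nonneg n h2 _) hc.le)]
  rw [h1]
  have h3 : ∀ y, Real.negMulLog (Bd n 0 (y / c) / c) =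
      c⁻¹ * (Real.negMulLog (Bd n 0 (y / c)) + Real.log c * Bd n 0 (y / c)) := by
    intro y
    rcases (Bd_nonneg n h2 (y / c)).eq_or_lt with h | h
    · simp [← h]
    · simp only [Real.negMulLog]
      rw [Real.log_div h.ne' hc.ne']
      field_simp
      ring
  simp only [h3]
  rw [MeasureTheory.integral_const_mul]
  have h4 : ∫ y, (Real.negMulLog (Bd n 0 (y / c)) + Real.log c * Bd n 0 (y / c)) =
      |c| • ∫ y, (Real.negMulLog (Bd n 0 y) + Real.log c * Bd n 0 y) :=
    Measure.integral_comp_div (fun y => Real.negMulLog (Bd n 0 y) + Real.log c * Bd n 0 y) c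
  rw [h4, MeasureTheory.integral_add (hn_integrable n h2) ((Bd_integrable n h2).const_mul _),
    MeasureTheory.integral_const_mul, Bd_total n h2, abs_of_pos hc]
  unfold hn
  simp only [smul_eq_mul]
  field_simp

/-- final step: compare `E Φ(X_1+...+X_n)` with the entropy -/
theorem foldr_ones_le (n : ℕ) (h2 : 2 ≤ n) {Φ : ℝ → ℝ} (hΦ : Continuous Φ)
    (hle : ∀ x : ℝ, |x| < n → Φ x ≤ ph n x) : (List.replicate n (1:ℝ)).foldr A Φ 0 ≤ hn n := by
  have h1 := S4884.integral_law (fun _ : Fin n => (1:ℝ)) Φ hΦ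
  rw [List.ofFn_const] at h1
  rw [← h1, law_const' n h2 1 one_pos]
  have hm : Measurable (fun y => ENNReal.ofReal (Bd n 0 (y / 1) / 1)) := by
    have := (Bd_cont n 0).measurable
    fun_prop
  rw [integral_withDensity_eq_integral_toReal_smul hm (by simp)]
  unfold hn
  have hc : Continuous fun x => Bd n 0 x * Φ x := (Bd_cont n 0).mul hΦ
  have hint : Integrable fun x => Bd n 0 x * Φ x := by
    apply hc.integrable_of_hasCompactSupport
    apply HasCompactSupport.intro isCompact_Icc (K := Icc (-(n:ℝ)) n)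
    intro x hx
    simp [Bd_supp n h2 x hx]
  have e : ∀ x, (ENNReal.ofReal (Bd n 0 (x / 1) / 1)).toReal • Φ x = Bd n 0 x * Φ x := by
    intro x
    rw [div_one, div_one, ENNReal.toReal_ofReal (Bd_nonneg n h2 _), smul_eq_mul]
  simp only [e]
  apply integral_mono hint (hn_integrable n h2)
  intro x
  simp only
  rcases lt_or_ge |x| n with hx | hx
  · have hp := Bd_pos n h2 x hx
    have := hle x hx
    unfold ph at this
    simp only [Real.negMulLog]
    nlinarith
  · have : Bd n 0 x = 0 := by
      apply le_antisymm _ (Bd_nonneg n h2 x)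
      rcases le_abs.1 hx with h | h
      · rw [Bd_right n 0 (by omega) x h]
      · rw [Bd_left n 0 (by omega) x (by linarith)]
    simp [this]

end US
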