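import Pool.Agent.Helper70.US.Defs
set_option autoImplicit false
open MeasureTheory
namespace US.S4754

theorem LWx_cont (lam a : ℝ) : Continuous (fun x : ℝ => Real.log (1 + Real.exp (lam * (|x| - a)))) := by
  refine Continuous.log (by fun_prop) ?_
  intro x
  positivity

theorem LWx_cont2 (lam : ℝ) : Continuous (fun x : ℝ => Real.log (1 + Real.exp (-(lam * x)))) := by
  refine Continuous.log (by fun_prop) ?_
  intro x
  positivity

theorem LWx_diff {a lam : ℝ} (hl : 0 < lam) {s : ℝ} (hs : 0 ≤ s) (ha : 0 < a) :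
    Real.log (1 + Real.exp (lam * (|a + s| - a))) - Real.log (1 + Real.exp (lam * (|-a + s| - a))) ≤
      lam * s := by
  have h1 : |a + s| = a + s := abs_of_nonneg (by linarith)
  have h2 : -s ≤ |-a + s| - a := by
    have := neg_abs_le (-a + s)
    have := neg_le_abs (-a + s)
    linarith
  have h3 : Real.log (1 + Real.exp (lam * (-s))) ≤ Real.log (1 + Real.exp (lam * (|-a + s| - a))) := by
    refine Real.log_le_log (by positivity) ?_
    have : lam * (-s) ≤ lam * (|-a + s| - a) := mul_le_mul_of_nonneg_left h2 hl.le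
    have := Real.exp_le_exp.2 this
    linarith
  have h4 : Real.log (1 + Real.exp (lam * (a + s - a))) = lam * s + Real.log (1 + Real.exp (lam * (-s))) := by
    have h5 : 1 + Real.exp (lam * (a + s - a)) = Real.exp (lam * s) * (1 + Real.exp (lam * (-s))) := by
      rw [mul_add, mul_one, ← Real.exp_add]
      have : lam * s + lam * -s = 0 := by ring
      rw [this, Real.exp_zero]
      have : a + s - a = s := by ring
      rw [this]
      ring
    rw [h5, Real.log_mul (Real.exp_ne_zero _) (by positivity), Real.log_exp]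
  rw [h1, h4]
  linarith

theorem LWx_pos {a lam : ℝ} (ha : 0 < a) (hl : 0 < lam) (z : ℝ) (hz : 0 ≤ z) :
    (1 / 2) * ∫ t in (-1:ℝ)..1, Real.log (1 + Real.exp (lam * (|a * t + z| - a))) ≤
      (1 / a) * (∫ s in (0:ℝ)..a, Real.log (1 + Real.exp (-(lam * s)))) + lam * z ^ 2 / (4 * a) := by
  set F : ℝ → ℝ := fun x => Real.log (1 + Real.exp (lam * (|x| - a))) with hF
  have hFc : Continuous F := LWx_cont lam a
  have hFi : ∀ u v, IntervalIntegrable F volume u v := fun u v => hFc.intervalIntegrable _ _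
  have e1 : ∫ t in (-1:ℝ)..1, Real.log (1 + Real.exp (lam * (|a * t + z| - a))) =
      a⁻¹ * ∫ x in (-a + z)..(a + z), F x := by
    have := intervalIntegral.integral_comp_mul_add (a := -1) (b := 1) F ha.ne' z
    simp only [hF, smul_eq_mul, mul_neg, mul_one] at this ⊢
    exact this
  have e2 : ∫ x in (-a + z)..(a + z), F x = (∫ x in (-a)..a, F x) + ((∫ x in a..(a + z), F x) - ∫ x in (-a)..(-a + z), F x) := by
    have h1 := intervalIntegral.integral_add_adjacent_intervals (hFi (-a) (-a + z)) (hFi (-a + z) (a + z))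
    have h2 := intervalIntegral.integral_add_adjacent_intervals (hFi (-a) a) (hFi a (a + z))
    linarith
  have e3 : ∫ x in a..(a + z), F x = ∫ s in (0:ℝ)..z, F (a + s) := by
    rw [intervalIntegral.integral_comp_add_left]; simp
  have e4 : ∫ x in (-a)..(-a + z), F x = ∫ s in (0:ℝ)..z, F (-a + s) := by
    rw [intervalIntegral.integral_comp_add_left]; simp
  have e5 : (∫ x in a..(a + z), F x) - ∫ x in (-a)..(-a + z), F x ≤ lam * z ^ 2 / 2 := by
    rw [e3, e4, ← intervalIntegral.integral_sub]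
    · have h1 : ∫ s in (0:ℝ)..z, (F (a + s) - F (-a + s)) ≤ ∫ s in (0:ℝ)..z, lam * s := by
        refine intervalIntegral.integral_mono_on hz ?_ ?_ ?_
        · exact ((hFc.comp (by fun_prop)).sub (hFc.comp (by fun_prop))).intervalIntegrable _ _
        · exact (by fun_prop : Continuous fun s : ℝ => lam * s).intervalIntegrable _ _
        · intro s hs
          exact LWx_diff hl hs.1 ha
      refine h1.trans (le_of_eq ?_)
      rw [intervalIntegral.integral_const_mul, integral_id]
      ring
    · exact (hFc.comp (by fun_prop)).intervalIntegrable _ _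
    · exact (hFc.comp (by fun_prop)).intervalIntegrable _ _
  have e6 : ∫ x in (-a)..a, F x = 2 * ∫ s in (0:ℝ)..a, Real.log (1 + Real.exp (-(lam * s))) := by
    have h1 := intervalIntegral.integral_add_adjacent_intervals (hFi (-a) 0) (hFi 0 a)
    have h2 : ∫ x in (-a)..0, F x = ∫ x in (0:ℝ)..a, F x := by
      have h3 := intervalIntegral.integral_comp_neg (a := 0) (b := a) F
      simp only [neg_zero] at h3
      rw [← h3]
      refine intervalIntegral.integral_congr fun x _ => ?_
      simp only [hF, abs_neg]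
    have h4 : ∫ x in (0:ℝ)..a, F x = ∫ s in (0:ℝ)..a, Real.log (1 + Real.exp (-(lam * s))) := by
      have h5 := intervalIntegral.integral_comp_sub_left (a := 0) (b := a) F a
      simp only [sub_self, sub_zero] at h5
      rw [← h5]
      refine intervalIntegral.integral_congr fun x hx => ?_
      rw [Set.uIcc_of_le ha.le] at hx
      simp only [hF]
      rw [abs_of_nonneg (by linarith [hx.2])]
      congr 3
      ring
    rw [← h1, h2, h4]; ring
  rw [e1, e2, e6]
  have h7 : a⁻¹ * (2 * (∫ s in (0:ℝ)..a, Real.log (1 + Real.exp (-(lam * s)))) + ((∫ x in a..(a + z), F x) - ∫ x in (-a)..(-a + z), F x))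
      ≤ a⁻¹ * (2 * (∫ s in (0:ℝ)..a, Real.log (1 + Real.exp (-(lam * s)))) + lam * z ^ 2 / 2) := by
    refine mul_le_mul_of_nonneg_left ?_ (by positivity)
    linarith
  have h8 : (1 / 2) * (a⁻¹ * (2 * (∫ s in (0:ℝ)..a, Real.log (1 + Real.exp (-(lam * s)))) + lam * z ^ 2 / 2)) =
      (1 / a) * (∫ s in (0:ℝ)..a, Real.log (1 + Real.exp (-(lam * s)))) + lam * z ^ 2 / (4 * a) := by
    field_simp
    ring
  rw [← h8]
  linarith

theorem LW_pointwise {a lam : ℝ} (ha : 0 < a) (hl : 0 < lam) (z : ℝ) :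
    (1 / 2) * ∫ t in (-1:ℝ)..1, Real.log (1 + Real.exp (lam * (|a * t + z| - a))) ≤
      (1 / a) * (∫ s in (0:ℝ)..a, Real.log (1 + Real.exp (-(lam * s)))) + lam * z ^ 2 / (4 * a) := by
  rcases le_total 0 z with hz | hz
  · exact LWx_pos ha hl z hz
  · have h := LWx_pos ha hl (-z) (by linarith)
    rw [neg_sq] at h
    refine le_trans (le_of_eq ?_) h
    congr 1
    have h1 := intervalIntegral.integral_comp_neg (a := -1) (b := 1)
      (fun t : ℝ => Real.log (1 + Real.exp (lam * (|a * t + z| - a))))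
    simp only [neg_neg] at h1
    rw [← h1]
    refine intervalIntegral.integral_congr fun x _ => ?_
    have : |a * -x + z| = |a * x + -z| := by
      rw [← abs_neg]; congr 1; ring
    rw [this]

theorem LWx_lim {lam : ℝ} (a : ℝ) (hl : 0 < lam) :
    Filter.Tendsto (fun x : ℝ => x - Real.log (1 + Real.exp (lam * (x - a))) / lam) Filter.atTop (nhds a) := by
  have h0 : ∀ x : ℝ, x - Real.log (1 + Real.exp (lam * (x - a))) / lam =
      a - Real.log (1 + Real.exp (-(lam * (x - a)))) / lam := by
    intro x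
    have h5 : 1 + Real.exp (lam * (x - a)) = Real.exp (lam * (x - a)) * (1 + Real.exp (-(lam * (x - a)))) := by
      rw [mul_add, mul_one, ← Real.exp_add]
      simp
      ring
    rw [h5, Real.log_mul (Real.exp_ne_zero _) (by positivity), Real.log_exp]
    field_simp
    ring
  simp only [h0]
  have h1 : Filter.Tendsto (fun x : ℝ => -(lam * (x - a))) Filter.atTop Filter.atBot := by
    refine Filter.tendsto_neg_atTop_atBot.comp ?_
    refine Filter.Tendsto.const_mul_atTop hl ?_
    exact Filter.tendsto_atTop_add_const_right _ _ Filter.tendsto_id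
  have h2 : Filter.Tendsto (fun x : ℝ => Real.exp (-(lam * (x - a)))) Filter.atTop (nhds 0) :=
    Real.tendsto_exp_atBot.comp h1
  have h3 : Filter.Tendsto (fun x : ℝ => Real.log (1 + Real.exp (-(lam * (x - a))))) Filter.atTop (nhds (Real.log (1 + 0))) := by
    refine (Real.continuousAt_log (by norm_num)).tendsto.comp ?_
    exact tendsto_const_nhds.add h2
  have h4 := tendsto_const_nhds (x := a) (f := (Filter.atTop : Filter ℝ)) |>.sub (h3.div_const lam)
  simpa using h4

theorem LWx_deriv {a lam : ℝ} (hl : 0 < lam) (x : ℝ) :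
    HasDerivAt (fun x : ℝ => x - Real.log (1 + Real.exp (lam * (x - a))) / lam)
      (1 / (1 + Real.exp (lam * (x - a)))) x := by
  have h1 : HasDerivAt (fun x : ℝ => lam * (x - a)) (lam * 1) x :=
    ((hasDerivAt_id x).sub_const a).const_mul lam
  have h2 := (h1.exp.const_add 1).log (by positivity)
  have h3 := (hasDerivAt_id x).sub (h2.div_const lam)
  refine h3.congr_deriv ?_
  have : (0 : ℝ) < 1 + Real.exp (lam * (x - a)) := by positivity
  field_simp
  ring

theorem LWx_Ioi {a lam : ℝ} (hl : 0 < lam) :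
    IntegrableOn (fun x : ℝ => 1 / (1 + Real.exp (lam * (x - a)))) (Set.Ioi 0) ∧
    ∫ x in Set.Ioi (0:ℝ), 1 / (1 + Real.exp (lam * (x - a))) = a + (1 / lam) * Real.log (1 + Real.exp (-(lam * a))) := by
  have h1 : ∀ x ∈ Set.Ici (0:ℝ), HasDerivAt (fun x : ℝ => x - Real.log (1 + Real.exp (lam * (x - a))) / lam)
      (1 / (1 + Real.exp (lam * (x - a)))) x := fun x _ => LWx_deriv hl x
  have h2 : ∀ x ∈ Set.Ioi (0:ℝ), 0 ≤ 1 / (1 + Real.exp (lam * (x - a))) := fun x _ => by positivity
  refine ⟨integrableOn_Ioi_deriv_of_nonneg' h1 h2 (LWx_lim a hl), ?_⟩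
  rw [integral_Ioi_of_hasDerivAt_of_nonneg' h1 h2 (LWx_lim a hl)]
  simp only [zero_sub, mul_neg]
  ring

theorem LW_integrable {a lam : ℝ} (ha : 0 < a) (hl : 0 < lam) :
    Integrable (fun x : ℝ => 1 / (1 + Real.exp (lam * (|x| - a)))) := by
  have h1 : IntegrableOn (fun x : ℝ => 1 / (1 + Real.exp (lam * (|x| - a)))) (Set.Ioi 0) := by
    refine (LWx_Ioi (a := a) hl).1.congr_fun ?_ measurableSet_Ioi
    intro x hx
    simp only [abs_of_pos (Set.mem_Ioi.1 hx)]
  have h2 : IntegrableOn (fun x : ℝ => 1 / (1 + Real.exp (lam * (|x| - a)))) (Set.Iio 0) := by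
    have h3 := (Measure.measurePreserving_neg (volume : Measure ℝ)).integrableOn_comp_preimage
      (MeasurableEquiv.neg ℝ).measurableEmbedding (f := fun x : ℝ => 1 / (1 + Real.exp (lam * (|x| - a)))) (s := Set.Ioi 0)
    have h4 := h3.2 h1
    have e1 : (Neg.neg ⁻¹' Set.Ioi (0:ℝ)) = Set.Iio 0 := by ext x; simp
    rw [e1] at h4
    refine h4.congr_fun ?_ measurableSet_Iio
    intro x _
    simp
  have h3 : IntegrableOn (fun x : ℝ => 1 / (1 + Real.exp (lam * (|x| - a)))) (Set.Iic 0) := by
    rw [integrableOn_Iic_iff_integrableOn_Iio]; exact h2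
  have h4 := h3.union h1
  rwa [Set.Iic_union_Ioi, integrableOn_univ] at h4

theorem LW_int {a lam : ℝ} (ha : 0 < a) (hl : 0 < lam) :
    ∫ x : ℝ, 1 / (1 + Real.exp (lam * (|x| - a))) =
      2 * a + (2 / lam) * Real.log (1 + Real.exp (-(lam * a))) := by
  rw [integral_comp_abs (f := fun x : ℝ => 1 / (1 + Real.exp (lam * (x - a)))), (LWx_Ioi hl).2]
  ring

/-- polynomial upper bound for the logarithm -/
noncomputable def LWP (x : ℝ) : ℝ := ∑ k ∈ Finset.range 19, (-1 : ℝ) ^ k * x ^ (k + 1) / ((k : ℝ) + 1)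

theorem LWx_logle {x : ℝ} (hx : 0 ≤ x) : Real.log (1 + x) ≤ LWP x := by
  have hder : ∀ y ∈ Set.Ici (0:ℝ), HasDerivAt (fun y => LWP y - Real.log (1 + y)) (y ^ 19 / (1 + y)) y := by
    intro y hy
    have hy0 : (0:ℝ) ≤ y := hy
    have h1 : HasDerivAt LWP (∑ k ∈ Finset.range 19, (-y) ^ k) y := by
      unfold LWP
      have : ∀ k ∈ Finset.range 19, HasDerivAt (fun x : ℝ => (-1 : ℝ) ^ k * x ^ (k + 1) / ((k : ℝ) + 1)) ((-y) ^ k) y := by
        intro k _
        have h2 := ((hasDerivAt_pow (k + 1) y).const_mul ((-1 : ℝ) ^ k)).div_const ((k : ℝ) + 1)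
        refine h2.congr_deriv ?_
        have : ((k : ℝ) + 1) ≠ 0 := by positivity
        push_cast
        rw [neg_pow y k]
        try simp only [Nat.add_sub_cancel]
        field_simp
      exact HasDerivAt.fun_sum this
    have h2 : HasDerivAt (fun y : ℝ => Real.log (1 + y)) (1 / (1 + y)) y :=
      ((hasDerivAt_id y).const_add 1).log (by positivity)
    have h3 := h1.sub h2
    refine h3.congr_deriv ?_
    rw [geom_sum_eq (by linarith)]
    have : (1 + y) ≠ 0 := by positivity
    have h5 : -y - 1 ≠ 0 := by linarith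
    have h6 : (-y) ^ 19 = - y ^ 19 := by ring
    rw [h6]
    field_simp
    ring
  have hmono : MonotoneOn (fun y => LWP y - Real.log (1 + y)) (Set.Ici 0) := by
    refine monotoneOn_of_deriv_nonneg (convex_Ici 0) ?_ ?_ ?_
    · intro y hy; exact (hder y hy).continuousAt.continuousWithinAt
    · intro y hy; rw [interior_Ici] at hy; exact (hder y (Set.mem_Ici.2 (le_of_lt (Set.mem_Ioi.1 hy)))).differentiableAt.differentiableWithinAt
    · intro y hy
      rw [interior_Ici] at hy
      rw [(hder y (Set.mem_Ici.2 (le_of_lt (Set.mem_Ioi.1 hy)))).deriv]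
      have : (0:ℝ) < y := hy
      positivity
  have h7 := hmono (Set.self_mem_Ici) hx hx
  have h8 : LWP 0 - Real.log (1 + 0) = 0 := by
    unfold LWP
    simp
  simp only at h7
  rw [h8] at h7
  linarith

theorem LWx_main {b : ℝ} (hb : 0 < b) :
    Real.log (1 + Real.exp (-b)) + ∫ u in (0:ℝ)..b, Real.log (1 + Real.exp (-u)) ≤ 0.824 := by
  have h1 : ∫ u in (0:ℝ)..b, Real.log (1 + Real.exp (-u)) ≤ ∫ u in (0:ℝ)..b, LWP (Real.exp (-u)) := by
    refine intervalIntegral.integral_mono_on hb.le ?_ ?_ ?_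
    · have := LWx_cont2 1
      simp only [one_mul] at this
      exact this.intervalIntegrable _ _
    · have : Continuous fun u : ℝ => LWP (Real.exp (-u)) := by
        unfold LWP; fun_prop
      exact this.intervalIntegrable _ _
    · intro u _
      exact LWx_logle (Real.exp_pos _).le
  have h2 : ∫ u in (0:ℝ)..b, LWP (Real.exp (-u)) =
      ∑ k ∈ Finset.range 19, (-1 : ℝ) ^ k * (1 - Real.exp (-b) ^ (k + 1)) / ((k : ℝ) + 1) ^ 2 := by
    unfold LWP
    rw [intervalIntegral.integral_finsetSum]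
    · refine Finset.sum_congr rfl fun k _ => ?_
      have hk : ((k : ℝ) + 1) ≠ 0 := by positivity
      have h3 : ∀ u : ℝ, HasDerivAt (fun u : ℝ => -((-1 : ℝ) ^ k * Real.exp (-u) ^ (k + 1) / ((k : ℝ) + 1) ^ 2))
          ((-1 : ℝ) ^ k * Real.exp (-u) ^ (k + 1) / ((k : ℝ) + 1)) u := by
        intro u
        have h4 : HasDerivAt (fun u : ℝ => Real.exp (-u)) (Real.exp (-u) * (-1)) u := (hasDerivAt_neg u).exp
        have h5 := (((h4.pow (k + 1)).const_mul ((-1 : ℝ) ^ k)).div_const (((k : ℝ) + 1) ^ 2)).neg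
        refine h5.congr_deriv ?_
        push_cast
        try simp only [Nat.add_sub_cancel]
        field_simp
        ring
      rw [intervalIntegral.integral_eq_sub_of_hasDerivAt (fun u _ => h3 u)]
      · simp only [neg_zero, Real.exp_zero, one_pow]
        ring
      · have : Continuous fun u : ℝ => (-1 : ℝ) ^ k * Real.exp (-u) ^ (k + 1) / ((k : ℝ) + 1) := by fun_prop
        exact this.intervalIntegrable _ _
    · intro k _
      have : Continuous fun u : ℝ => (-1 : ℝ) ^ k * Real.exp (-u) ^ (k + 1) / ((k : ℝ) + 1) := by fun_prop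
      exact this.intervalIntegrable _ _
  have h3 : Real.log (1 + Real.exp (-b)) ≤ LWP (Real.exp (-b)) := LWx_logle (Real.exp_pos _).le
  set q := Real.exp (-b) with hq
  have hq0 : 0 < q := Real.exp_pos _
  have hq1 : q ≤ 1 := by rw [hq]; exact Real.exp_le_one_iff.2 (by linarith)
  rw [h2] at h1
  unfold LWP at h3
  have hp : ∀ m : ℕ, q ^ (m + 1) ≤ q ^ m := fun m => pow_le_pow_of_le_one hq0.le hq1 (Nat.le_succ m)
  have hp0 : ∀ m : ℕ, 0 ≤ q ^ m := fun m => by positivity
  have key : LWP q + ∑ k ∈ Finset.range 19, (-1 : ℝ) ^ k * (1 - q ^ (k + 1)) / ((k : ℝ) + 1) ^ 2 ≤ 0.824 := by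
    unfold LWP
    simp only [Finset.sum_range_succ, Finset.sum_range_zero]
    norm_num
    have g1 := hp 2; have g2 := hp 4; have g3 := hp 6; have g4 := hp 8; have g5 := hp 10
    have g6 := hp 12; have g7 := hp 14; have g8 := hp 16; have g9 := hp 18
    have f1 := hp0 2; have f2 := hp0 4; have f3 := hp0 6; have f4 := hp0 8; have f5 := hp0 10
    have f6 := hp0 12; have f7 := hp0 14; have f8 := hp0 16; have f9 := hp0 18
    norm_num at g1 g2 g3 g4 g5 g6 g7 g8 g9
    linarith
  unfold LWP at key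
  linarith

theorem LW_norm {a lam : ℝ} (ha : 0 < a) (hl : 0 < lam) :
    Real.log (2 * a + (2 / lam) * Real.log (1 + Real.exp (-(lam * a)))) +
      (1 / a) * (∫ s in (0:ℝ)..a, Real.log (1 + Real.exp (-(lam * s)))) ≤
      Real.log (2 * a) + 0.824 / (lam * a) := by
  set T := Real.log (1 + Real.exp (-(lam * a))) with hT
  have hT0 : 0 < T := Real.log_pos (by linarith [Real.exp_pos (-(lam * a))])
  have h1 : 2 * a + (2 / lam) * T = 2 * a * (1 + T / (lam * a)) := by
    field_simp
  have h2 : Real.log (1 + T / (lam * a)) ≤ T / (lam * a) := by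
    have := Real.log_le_sub_one_of_pos (show 0 < 1 + T / (lam * a) by positivity)
    linarith
  rw [h1, Real.log_mul (by positivity) (by positivity)]
  have h3 : ∫ s in (0:ℝ)..a, Real.log (1 + Real.exp (-(lam * s))) =
      lam⁻¹ * ∫ u in (0:ℝ)..(lam * a), Real.log (1 + Real.exp (-u)) := by
    have := intervalIntegral.integral_comp_mul_left (a := 0) (b := a) (fun u : ℝ => Real.log (1 + Real.exp (-u))) hl.ne'
    simpa using this
  have h4 := LWx_main (mul_pos hl ha)
  rw [h3]
  have h5 : T / (lam * a) + (1 / a) * (lam⁻¹ * ∫ u in (0:ℝ)..(lam * a), Real.log (1 + Real.exp (-u))) =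
      (T + ∫ u in (0:ℝ)..(lam * a), Real.log (1 + Real.exp (-u))) / (lam * a) := by
    field_simp
  have h6 : (T + ∫ u in (0:ℝ)..(lam * a), Real.log (1 + Real.exp (-u))) / (lam * a) ≤ 0.824 / (lam * a) :=
    div_le_div_of_nonneg_right h4 (by positivity)
  linarith

end US.S4754
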