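import Pool.Agent.Helper70.US.F6
import Pool.Agent.Helper70.US.S4754
import Pool.Agent.Helper70.US.S4755
set_option autoImplicit false
open MeasureTheory intervalIntegral Set
namespace US

/-- logistic Gibbs bound in terms of one weight -/
theorem ent_LW {n : ℕ} (hn : 2 ≤ n) (a : Fin n → ℝ) (ha0 : ∀ i, 0 ≤ a i) (hs : ∑ i, a i ^ 2 = 1)
    (i : Fin n) {b lam : ℝ} (hb : b = Real.sqrt n * a i) (hb0 : 0 < b) (hl : 0 < lam) :
    ent a ≤ - Real.log (Real.sqrt n) +
      (Real.log (2 * b) + 0.824 / (lam * b) + lam * (n - b ^ 2) / (12 * b)) := by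
  have hn0 : (0:ℝ) < n := by exact_mod_cast (by omega : 0 < n)
  have hsn : 0 < Real.sqrt n := Real.sqrt_pos.2 hn0
  have hai : a i ≠ 0 := by
    rintro h; rw [h, mul_zero] at hb; linarith
  set N : ℝ := 2 * b + (2 / lam) * Real.log (1 + Real.exp (-(lam * b))) with hN
  have hlog0 : 0 ≤ Real.log (1 + Real.exp (-(lam * b))) := by
    apply Real.log_nonneg; linarith [Real.exp_pos (-(lam * b))]
  have hN0 : 0 < N := by
    have : 0 ≤ (2 / lam) * Real.log (1 + Real.exp (-(lam * b))) := by positivity
    linarith
  set g : ℝ → ℝ := fun x => (1 / N) * (1 / (1 + Real.exp (lam * (|x| - b)))) with hg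
  set L : ℝ → ℝ := fun x => Real.log (1 + Real.exp (lam * (|x| - b))) with hL
  have hLc : Continuous L := by
    rw [hL]
    apply Continuous.log (by fun_prop)
    intro x; positivity
  have hgpos : ∀ x, 0 < g x := fun x => by rw [hg]; simp only; positivity
  have hgm : Measurable g := by
    have : Continuous g := by
      rw [hg]
      apply continuous_const.mul
      apply continuous_const.div (by fun_prop)
      intro x; positivity
    exact this.measurable
  have hgi : Integrable g := (S4754.LW_integrable hb0 hl).const_mul _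
  have hg1 : ∫ x, g x = 1 := by
    rw [hg]
    simp only
    rw [MeasureTheory.integral_const_mul, S4754.LW_int hb0 hl, ← hN]
    field_simp
  have h1 := ent_le a ⟨i, hai⟩ hsn hgm (fun x => (hgpos x).le) hgi hg1
    (Φ := fun x => Real.log N + L x) (by fun_prop) (by
      intro x _
      refine ⟨hgpos x, ?_⟩
      have hp : 0 < 1 + Real.exp (lam * (|x| - b)) := by positivity
      rw [hg, hL]
      simp only
      rw [Real.log_mul (by positivity) (by positivity), one_div, one_div, Real.log_inv, Real.log_inv]
      ring)
  refine h1.trans ?_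
  have hΦc : Continuous (fun x => Real.log N + L x) := by fun_prop
  -- bring b to the end
  set l := (List.ofFn a).map (fun c => Real.sqrt n * c) with hl'
  have hbl : b ∈ l := by
    rw [hl', List.mem_map]
    exact ⟨a i, by rw [List.mem_ofFn]; exact ⟨i, rfl⟩, hb.symm⟩
  have hperm : l.Perm (l.erase b ++ [b]) := by
    refine (List.perm_cons_erase hbl).trans ?_
    exact (List.perm_append_singleton b (l.erase b)).symm
  rw [foldr_perm hΦc hperm, List.foldr_append]
  simp only [List.foldr_cons, List.foldr_nil]
  have hssq : ssq l = n := by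
    rw [hl']; unfold ssq
    rw [List.map_map, List.map_ofFn, List.sum_ofFn]
    simp only [Function.comp, mul_pow, Real.sq_sqrt hn0.le]
    rw [← Finset.mul_sum, hs, mul_one]
  have hssq2 : ssq (l.erase b) = n - b ^ 2 := by
    have := ssq_perm (List.perm_cons_erase hbl)
    rw [ssq_cons, hssq] at this
    linarith
  -- pointwise bound
  set C : ℝ := Real.log N + (1 / b) * (∫ s in (0:ℝ)..b, Real.log (1 + Real.exp (-(lam * s)))) with hC
  have hpt : ∀ z, A b (fun x => Real.log N + L x) z ≤ C + (lam / (4 * b)) * z ^ 2 := by
    intro z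
    have h2 := S4754.LW_pointwise hb0 hl z
    unfold A
    rw [intervalIntegral.integral_add]
    · simp only [intervalIntegral.integral_const, smul_eq_mul]
      have e : ∫ t in (-1:ℝ)..1, L (z + b * t) =
          ∫ t in (-1:ℝ)..1, Real.log (1 + Real.exp (lam * (|b * t + z| - b))) := by
        congr 1; ext t; rw [hL]; simp only; rw [add_comm z (b * t)]
      rw [e, hC]
      have e2 : lam * z ^ 2 / (4 * b) = lam / (4 * b) * z ^ 2 := by ring
      linarith
    · exact intervalIntegrable_const
    · exact (by fun_prop : Continuous fun t => L (z + b * t)).intervalIntegrable _ _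
  have h3 := foldr_mono (A_cont hΦc b) (by fun_prop : Continuous fun z => C + (lam / (4 * b)) * z ^ 2)
    hpt (l.erase b) 0
  rw [foldr_quad] at h3
  have h4 := S4754.LW_norm hb0 hl
  rw [← hN] at h4
  have e3 : lam / (4 * b) * ((l.erase b).map (fun c => c ^ 2)).sum / 3 = lam * (n - b ^ 2) / (12 * b) := by
    have : ((l.erase b).map (fun c => c ^ 2)).sum = n - b ^ 2 := hssq2
    rw [this]; field_simp; ring
  rw [e3] at h3
  simp only [ne_eq, OfNat.ofNat_ne_zero, not_false_eq_true, zero_pow, mul_zero, add_zero] at h3
  linarith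

end US
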