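import Pool.Agent.Helper70.US.Defs
set_option autoImplicit false
namespace US.S4578




namespace ECTAux

/-- the jets of the quotient `g / g0` -/
noncomputable def Q (g g0 : ℕ → ℝ → ℝ) (n : ℕ) (z : ℝ) : ℝ :=
  (g n z - ∑ j : Fin n, (n.choose j : ℝ) * Q g g0 j z * g0 (n - j) z) / g0 0 z
termination_by n
decreasing_by exact j.2

theorem Q_eq (g g0 : ℕ → ℝ → ℝ) (n : ℕ) (z : ℝ) :
    Q g g0 n z = (g n z - ∑ j ∈ Finset.range n, (n.choose j : ℝ) * Q g g0 j z * g0 (n - j) z)
      / g0 0 z := by
  rw [Q]
  rw [← Fin.sum_univ_eq_sum_range (fun j => (n.choose j : ℝ) * Q g g0 j z * g0 (n - j) z)]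

theorem Q_leib (g g0 : ℕ → ℝ → ℝ) (n : ℕ) (z : ℝ) (h0 : g0 0 z ≠ 0) :
    g n z = ∑ j ∈ Finset.range (n + 1), (n.choose j : ℝ) * Q g g0 j z * g0 (n - j) z := by
  rw [Finset.sum_range_succ]
  simp only [Nat.choose_self, Nat.cast_one, one_mul, Nat.sub_self]
  rw [Q_eq g g0 n z]
  field_simp
  ring

theorem Q_zero (g g0 : ℕ → ℝ → ℝ) (z : ℝ) : Q g g0 0 z = g 0 z / g0 0 z := by
  rw [Q_eq]; simp

theorem Q_self_succ (g0 : ℕ → ℝ → ℝ) (n : ℕ) (z : ℝ) (h0 : g0 0 z ≠ 0) :
    Q g0 g0 (n + 1) z = 0 := by
  induction n using Nat.strong_induction_on with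
  | _ n ih =>
    rw [Q_eq]
    rw [Finset.sum_range_succ']
    rw [Finset.sum_eq_zero]
    · rw [Q_zero]
      simp [h0]
    · intro j hj
      rw [ih j (Finset.mem_range.1 hj)]
      ring

theorem Q_deriv (g g0 : ℕ → ℝ → ℝ) (z : ℝ) (h0 : g0 0 z ≠ 0) (n : ℕ)
    (hg : ∀ j ≤ n, HasDerivAt (g j) (g (j + 1) z) z)
    (hg0 : ∀ j ≤ n, HasDerivAt (g0 j) (g0 (j + 1) z) z) :
    HasDerivAt (Q g g0 n) (Q g g0 (n + 1) z) z := by
  induction n using Nat.strong_induction_on with
  | _ n ih =>
    have hN : HasDerivAt (fun z => g n z - ∑ j ∈ Finset.range n,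
        (n.choose j : ℝ) * Q g g0 j z * g0 (n - j) z)
        (g (n + 1) z - ∑ j ∈ Finset.range n,
          ((n.choose j : ℝ) * Q g g0 (j + 1) z * g0 (n - j) z
            + (n.choose j : ℝ) * Q g g0 j z * g0 (n - j + 1) z)) z := by
      refine (hg n le_rfl).sub ?_
      refine HasDerivAt.fun_sum ?_
      intro j hj
      have hj' := Finset.mem_range.1 hj
      have h1 := ih j hj' (fun i hi => hg i (by omega)) (fun i hi => hg0 i (by omega))
      have h2 := hg0 (n - j) (by omega)
      exact (h1.const_mul (n.choose j : ℝ)).mul h2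
    have hD := hN.div (hg0 0 (Nat.zero_le _)) h0
    have hfun : Q g g0 n = (fun z => (g n z - ∑ j ∈ Finset.range n,
        (n.choose j : ℝ) * Q g g0 j z * g0 (n - j) z) / g0 0 z) := by
      funext w
      exact Q_eq g g0 n w
    rw [hfun]
    refine hD.congr_deriv ?_
    have hQn : (g n z - ∑ j ∈ Finset.range n,
        (n.choose j : ℝ) * Q g g0 j z * g0 (n - j) z) = Q g g0 n z * g0 0 z := by
      rw [Q_eq g g0 n z]
      field_simp
    rw [hQn, Q_eq g g0 (n + 1) z]
    have key : ∑ j ∈ Finset.range (n + 1), ((n + 1).choose j : ℝ) * Q g g0 j z * g0 (n + 1 - j) z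
        = ∑ j ∈ Finset.range n,
          ((n.choose j : ℝ) * Q g g0 (j + 1) z * g0 (n - j) z
            + (n.choose j : ℝ) * Q g g0 j z * g0 (n - j + 1) z) + Q g g0 n z * g0 1 z := by
      rw [Finset.sum_range_succ']
      have e1 : ∀ j ∈ Finset.range n, ((n + 1).choose (j + 1) : ℝ) * Q g g0 (j + 1) z
          * g0 (n + 1 - (j + 1)) z = (n.choose j : ℝ) * Q g g0 (j + 1) z * g0 (n - j) z
            + (n.choose (j + 1) : ℝ) * Q g g0 (j + 1) z * g0 (n - j) z := by
        intro j _
        rw [Nat.choose_succ_succ, Nat.add_sub_add_right]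
        push_cast
        ring
      rw [Finset.sum_congr rfl e1, Finset.sum_add_distrib, Finset.sum_add_distrib]
      have e2 : ∑ j ∈ Finset.range n, (n.choose (j + 1) : ℝ) * Q g g0 (j + 1) z * g0 (n - j) z
          + ((n + 1).choose 0 : ℝ) * Q g g0 0 z * g0 (n + 1 - 0) z
          = ∑ j ∈ Finset.range n, (n.choose j : ℝ) * Q g g0 j z * g0 (n - j + 1) z
            + Q g g0 n z * g0 1 z := by
        have e3 : ∑ j ∈ Finset.range n, (n.choose (j + 1) : ℝ) * Q g g0 (j + 1) z * g0 (n - j) z
          + ((n + 1).choose 0 : ℝ) * Q g g0 0 z * g0 (n + 1 - 0) z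
          = ∑ j ∈ Finset.range (n + 1), (n.choose j : ℝ) * Q g g0 j z * g0 (n + 1 - j) z := by
          rw [Finset.sum_range_succ' (fun j => (n.choose j : ℝ) * Q g g0 j z * g0 (n + 1 - j) z)]
          simp
        rw [e3, Finset.sum_range_succ]
        have e4 : ∀ j ∈ Finset.range n, (n.choose j : ℝ) * Q g g0 j z * g0 (n + 1 - j) z
            = (n.choose j : ℝ) * Q g g0 j z * g0 (n - j + 1) z := by
          intro j hj
          have hj' := Finset.mem_range.1 hj
          rw [show n + 1 - j = n - j + 1 by omega]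
        rw [Finset.sum_congr rfl e4]
        simp
      linarith
    rw [key]
    field_simp
    ring

theorem det_Q (G : ℕ → ℕ → ℝ → ℝ) (z : ℝ) (h0 : G 0 0 z ≠ 0) (k : ℕ) :
    Matrix.det (Matrix.of fun i j : Fin (k + 1) => G i j z) =
      (G 0 0 z) ^ (k + 1) *
        Matrix.det (Matrix.of fun i j : Fin k => Q (G (i + 1)) (G 0) (j + 1) z) := by
  have hmul : (Matrix.of fun i j : Fin (k + 1) => G i j z) =
      (Matrix.of fun i j : Fin (k + 1) => Q (G i) (G 0) j z) *
      (Matrix.of fun j n : Fin (k + 1) => ((n : ℕ).choose j : ℝ) * G 0 (n - j) z) := by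
    ext i n
    rw [Matrix.mul_apply]
    simp only [Matrix.of_apply]
    rw [Fin.sum_univ_eq_sum_range (fun j => Q (G i) (G 0) j z *
      (((n : ℕ).choose j : ℝ) * G 0 (n - j) z))]
    rw [Q_leib (G i) (G 0) n z h0]
    have hsub : Finset.range ((n : ℕ) + 1) ⊆ Finset.range (k + 1) := by
      intro a ha
      simp only [Finset.mem_range] at ha ⊢
      have := n.2
      omega
    rw [← Finset.sum_subset hsub]
    · refine Finset.sum_congr rfl ?_
      intro j _
      ring
    · intro j _ hj
      have : (n : ℕ) < j := by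
        simp only [Finset.mem_range] at hj
        omega
      rw [Nat.choose_eq_zero_of_lt this]
      simp
  rw [hmul, Matrix.det_mul]
  have hU : Matrix.det (Matrix.of fun j n : Fin (k + 1) => ((n : ℕ).choose j : ℝ) * G 0 (n - j) z)
      = (G 0 0 z) ^ (k + 1) := by
    rw [Matrix.det_of_isUpperTriangular]
    · simp
    · intro i j hij
      have : (j : ℕ) < i := hij
      simp [Nat.choose_eq_zero_of_lt this]
  have hB : Matrix.det (Matrix.of fun i j : Fin (k + 1) => Q (G i) (G 0) j z) =
      Matrix.det (Matrix.of fun i j : Fin k => Q (G (i + 1)) (G 0) (j + 1) z) := by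
    rw [Matrix.det_succ_row_zero, Fin.sum_univ_succ]
    rw [Finset.sum_eq_zero]
    · simp only [Matrix.of_apply, Fin.val_zero, pow_zero, one_mul, add_zero]
      rw [Q_zero, div_self h0, one_mul]
      congr 1
    · intro j _
      simp only [Matrix.of_apply, Fin.val_zero, Fin.val_succ]
      rw [Q_self_succ (G 0) j z h0]
      ring
  rw [hU, hB, mul_comm]

theorem col_pos (r : ℕ) (q h : Fin r → ℝ → ℝ) (z : Fin (r + 1) → ℝ) (hz : StrictMono z)
    (hd : ∀ i, ∀ s ∈ Set.Icc (z 0) (z (Fin.last r)), HasDerivAt (q i) (h i s) s)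
    (hpos : ∀ t : Fin r → ℝ, (∀ l, t l ∈ Set.Ioo (z l.castSucc) (z l.succ)) →
      0 < Matrix.det (Matrix.of fun i l : Fin r => h i (t l))) :
    0 < Matrix.det (Matrix.of fun i l : Fin r => q i (z l.succ) - q i (z l.castSucc)) := by
  classical
  have main : ∀ S : Finset (Fin r), ∀ t : Fin r → ℝ,
      (∀ l, t l ∈ Set.Ioo (z l.castSucc) (z l.succ)) →
      0 < Matrix.det (Matrix.of fun i l : Fin r =>
        if l ∈ S then q i (z l.succ) - q i (z l.castSucc) else h i (t l)) := by
    intro S
    induction S using Finset.induction_on with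
    | empty => 
      intro t ht
      simpa using hpos t ht
    | insert l S hl ih =>
      intro t ht
      set M : Matrix (Fin r) (Fin r) ℝ := Matrix.of fun i l : Fin r =>
        if l ∈ S then q i (z l.succ) - q i (z l.castSucc) else h i (t l) with hM
      have hφ : ∀ v : Fin r → ℝ, (M.updateCol l v).det = ∑ i, M.adjugate l i * v i := by
        intro v
        rw [← Matrix.cramer_apply, Matrix.cramer_eq_adjugate_mulVec]
        rfl
      have hlt : z l.castSucc < z l.succ := hz (Fin.castSucc_lt_succ)
      have hsub : ∀ s ∈ Set.Icc (z l.castSucc) (z l.succ),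
          s ∈ Set.Icc (z 0) (z (Fin.last r)) := by
        intro s hs
        exact ⟨le_trans (hz.monotone (Fin.zero_le _)) hs.1,
          le_trans hs.2 (hz.monotone (Fin.le_last _))⟩
      have hder : ∀ s ∈ Set.Icc (z l.castSucc) (z l.succ),
          HasDerivAt (fun s => (M.updateCol l (fun i => q i s - q i (z l.castSucc))).det)
            ((M.updateCol l (fun i => h i s)).det) s := by
        intro s hs
        simp only [hφ]
        refine HasDerivAt.fun_sum ?_
        intro i _
        exact ((hd i s (hsub s hs)).sub_const _).const_mul _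
      have hmono : StrictMonoOn
          (fun s => (M.updateCol l (fun i => q i s - q i (z l.castSucc))).det)
          (Set.Icc (z l.castSucc) (z l.succ)) := by
        refine strictMonoOn_of_deriv_pos (convex_Icc _ _) ?_ ?_
        · intro s hs
          exact (hder s hs).continuousAt.continuousWithinAt
        · intro s hs
          rw [interior_Icc] at hs
          rw [(hder s ⟨hs.1.le, hs.2.le⟩).deriv]
          have h1 := ih (Function.update t l s) (by
            intro l'
            by_cases hll : l' = l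
            · subst hll
              simpa using hs
            · simpa [Function.update_of_ne hll] using ht l')
          convert h1 using 2
          ext i l'
          by_cases hll : l' = l
          · subst hll
            simp [hl]
          · simp [hll, hM]
      have hlast := hmono (Set.left_mem_Icc.2 hlt.le) (Set.right_mem_Icc.2 hlt.le) hlt
      have hz0 : (M.updateCol l (fun i => q i (z l.castSucc) - q i (z l.castSucc))).det = 0 := by
        rw [hφ]
        simp
      simp only [hz0] at hlast
      refine lt_of_lt_of_eq hlast ?_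
      congr 1
      ext i l'
      by_cases hll : l' = l
      · subst hll
        simp
      · simp [hll, hM]
  have ht : ∀ l : Fin r, (z l.castSucc + z l.succ) / 2 ∈ Set.Ioo (z l.castSucc) (z l.succ) := by
    intro l
    have hlt : z l.castSucc < z l.succ := hz (Fin.castSucc_lt_succ)
    constructor <;> linarith
  have := main Finset.univ (fun l => (z l.castSucc + z l.succ) / 2) ht
  simpa using this

theorem ect (r : ℕ) : ∀ (G : ℕ → ℕ → ℝ → ℝ) (a b : ℝ),
    (∀ i < r, ∀ j, j + 1 < r → ∀ z ∈ Set.Ioo a b, HasDerivAt (G i j) (G i (j + 1) z) z) →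
    (∀ k, 1 ≤ k → k ≤ r → ∀ z ∈ Set.Ioo a b,
      0 < Matrix.det (Matrix.of fun i j : Fin k => G i j z)) →
    ∀ z : Fin r → ℝ, StrictMono z → (∀ l, z l ∈ Set.Ioo a b) →
      0 < Matrix.det (Matrix.of fun i l : Fin r => G i 0 (z l)) := by
  induction r with
  | zero =>
    intro G a b _ _ z _ _
    simp
  | succ r ih =>
    intro G a b hD hW z hz hzI
    have hg0 : ∀ s ∈ Set.Ioo a b, 0 < G 0 0 s := by
      intro s hs
      have := hW 1 le_rfl (by omega) s hs
      simpa using this
    have hIH := ih (fun i j => Q (G (i + 1)) (G 0) (j + 1)) a b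
      (by
        intro i hi j hj s hs
        refine Q_deriv (G (i + 1)) (G 0) s (hg0 s hs).ne' (j + 1) ?_ ?_
        · intro j' hj'
          exact hD (i + 1) (by omega) j' (by omega) s hs
        · intro j' hj'
          exact hD 0 (by omega) j' (by omega) s hs)
      (by
        intro k hk1 hkr s hs
        have h1 := hW (k + 1) (by omega) (by omega) s hs
        rw [det_Q G s (hg0 s hs).ne' k] at h1
        exact (pos_iff_pos_of_mul_pos h1).1 (pow_pos (hg0 s hs) _))
    have hfac : Matrix.det (Matrix.of fun i l : Fin (r + 1) => G i 0 (z l)) =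
        (∏ l, G 0 0 (z l)) *
          Matrix.det (Matrix.of fun i l : Fin (r + 1) => Q (G i) (G 0) 0 (z l)) := by
      rw [← Matrix.det_mul_row]
      congr 1
      ext i l
      simp only [Matrix.of_apply]
      rw [Q_zero]
      have := (hg0 (z l) (hzI l)).ne'
      field_simp
    rw [hfac]
    refine mul_pos (Finset.prod_pos fun l _ => hg0 _ (hzI l)) ?_
    have hcol : Matrix.det (Matrix.of fun i l : Fin (r + 1) => Q (G i) (G 0) 0 (z l)) =
        Matrix.det (Matrix.of fun i l : Fin (r + 1) =>
          Fin.cases (motive := fun _ => ℝ) (Q (G i) (G 0) 0 (z 0))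
            (fun l' : Fin r => Q (G i) (G 0) 0 (z l'.succ) - Q (G i) (G 0) 0 (z l'.castSucc)) l) := by
      refine Matrix.det_eq_of_forall_col_eq_smul_add_pred (fun _ => 1) ?_ ?_
      · intro i
        simp
      · intro i j
        simp
    rw [hcol, Matrix.det_succ_row_zero, Fin.sum_univ_succ, Finset.sum_eq_zero]
    · simp only [Matrix.of_apply, Fin.val_zero, pow_zero, one_mul, add_zero, Fin.cases_zero]
      rw [Q_zero, div_self (hg0 _ (hzI 0)).ne', one_mul]
      have hcp := col_pos r (fun i => Q (G (i + 1)) (G 0) 0) (fun i => Q (G (i + 1)) (G 0) 1) z hz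
        (by
          intro i s hs
          have hsI : s ∈ Set.Ioo a b :=
            ⟨lt_of_lt_of_le (hzI 0).1 hs.1, lt_of_le_of_lt hs.2 (hzI (Fin.last r)).2⟩
          have hi2 := i.2
          refine Q_deriv (G (i + 1)) (G 0) s (hg0 s hsI).ne' 0 ?_ ?_
          · intro j' hj'
            exact hD (i + 1) (by omega) j' (by omega) s hsI
          · intro j' hj'
            exact hD 0 (by omega) j' (by omega) s hsI)
        (by
          intro t ht
          refine hIH t ?_ ?_
          · intro l l' hll
            have h1 := (ht l).2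
            have h2 := (ht l').1
            have h3 : z l.succ ≤ z l'.castSucc := by
              refine hz.monotone ?_
              rw [Fin.le_def]
              simp only [Fin.val_succ, Fin.val_castSucc]
              have : (l : ℕ) < l' := hll
              omega
            linarith
          · intro l
            exact ⟨lt_trans (hzI l.castSucc).1 (ht l).1, lt_trans (ht l).2 (hzI l.succ).2⟩)
      refine lt_of_lt_of_eq hcp ?_
      congr 1
    · intro j _
      simp only [Matrix.of_apply, Fin.val_zero, Fin.cases_succ]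
      rw [Q_zero, Q_zero, div_self (hg0 _ (hzI _)).ne', div_self (hg0 _ (hzI _)).ne']
      ring

end ECTAux

theorem detPos : DetPos := by
  intro f m hf r hr1 hr4 x z hz hzm
  have hI : ∀ s : ℝ, s ∈ Set.Ioo (x - m) (x + m) → |x - s| < m := by
    intro s hs
    rw [abs_lt]
    constructor
    · linarith [hs.2]
    · linarith [hs.1]
  have h := ECTAux.ect r (fun i j s => (-1) ^ j * f (i + j) (x - s)) (x - m) (x + m)
    (by
      intro i hi j hj s _
      have h1 := hf.deriv (i + j) (by omega) (x - s)
      have h2 : HasDerivAt (fun s => x - s) (-1) s := by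
        simpa using (hasDerivAt_id s).const_sub x
      have h3 := (h1.comp s h2).const_mul ((-1 : ℝ) ^ j)
      refine h3.congr_deriv ?_
      rw [pow_succ, show i + (j + 1) = i + j + 1 by omega]
      ring)
    (by
      intro k hk1 hkr s hs
      have h1 := hf.pos k hk1 (by omega) (x - s) (hI s hs)
      unfold wr at h1
      have h2 : Matrix.det (Matrix.of fun i j : Fin k => (-1 : ℝ) ^ (j : ℕ) * f (i + j) (x - s))
          = (∏ j : Fin k, (-1 : ℝ) ^ (j : ℕ)) *
            Matrix.det (Matrix.of fun i j : Fin k => f (i + j) (x - s)) :=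
        Matrix.det_mul_row (fun j : Fin k => (-1 : ℝ) ^ (j : ℕ)) _
      rw [h2]
      have h3 : (∏ j : Fin k, (-1 : ℝ) ^ (j : ℕ)) = (-1) ^ (k * (k - 1) / 2) := by
        rw [Finset.prod_pow_eq_pow_sum, Fin.sum_univ_eq_sum_range (fun j => j),
          Finset.sum_range_id]
      rw [h3]
      exact h1)
    z hz
    (by
      intro l
      have := abs_lt.1 (hzm l)
      constructor <;> linarith [this.1, this.2])
  simpa using h

end US.S4578
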