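import Pool.Agent.Helper70.US.Defs
set_option autoImplicit false
namespace US.S4579





open MeasureTheory

theorem f_cont {f : ℕ → ℝ → ℝ} {m : ℝ} (hf : LPF f m) {k : ℕ} (hk : k ≤ 6) :
    Continuous (f k) := by
  rcases hk.lt_or_eq with h | h
  · exact continuous_iff_continuousAt.2 fun x => (hf.deriv k h x).continuousAt
  · rw [h]; exact hf.cont

theorem f_contDiff {f : ℕ → ℝ → ℝ} {m : ℝ} (hf : LPF f m) {k : ℕ} (hk : k < 6) :
    ContDiff ℝ 1 (f k) := by
  have hd : deriv (f k) = f (k + 1) := funext fun x => (hf.deriv k hk x).deriv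
  rw [contDiff_one_iff_deriv]
  refine ⟨fun x => (hf.deriv k hk x).differentiableAt, ?_⟩
  rw [hd]
  exact f_cont hf (by omega)

theorem f_supp {f : ℕ → ℝ → ℝ} {m : ℝ} (hf : LPF f m) {k : ℕ} (hk : k ≤ 6) :
    HasCompactSupport (f k) := by
  refine HasCompactSupport.of_support_subset_isCompact (isCompact_Icc (a := -m) (b := m)) ?_
  intro x hx
  by_contra h
  apply hx
  apply hf.supp k hk x
  by_contra h2
  rw [not_le, abs_lt] at h2
  exact h ⟨h2.1.le, h2.2.le⟩

/-- mixed convolution -/
noncomputable def HH (f g : ℕ → ℝ → ℝ) (i j : ℕ) (x : ℝ) : ℝ := ∫ z, f i (x - z) * g j z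

theorem HH_conv (f g : ℕ → ℝ → ℝ) (i j : ℕ) :
    HH f g i j = MeasureTheory.convolution (g j) (f i) (ContinuousLinearMap.mul ℝ ℝ) volume := by
  funext x
  unfold HH MeasureTheory.convolution
  refine integral_congr_ae (Filter.Eventually.of_forall fun z => ?_)
  exact mul_comm _ _

theorem HH_symm (f g : ℕ → ℝ → ℝ) (i j : ℕ) (x : ℝ) : HH f g i j x = HH g f j i x := by
  unfold HH
  rw [← integral_sub_left_eq_self (fun z => f i (x - z) * g j z) volume x]
  refine integral_congr_ae (Filter.Eventually.of_forall fun z => ?_)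
  show f i (x - (x - z)) * g j (x - z) = g j (x - z) * f i z
  rw [sub_sub_cancel]
  ring

theorem HH_deriv_left {f g : ℕ → ℝ → ℝ} {a b : ℝ} (hf : LPF f a) (hg : LPF g b) {i j : ℕ}
    (hi : i < 6) (hj : j ≤ 6) (x : ℝ) : HasDerivAt (HH f g i j) (HH f g (i + 1) j x) x := by
  have hd : deriv (f i) = f (i + 1) := funext fun x => (hf.deriv i hi x).deriv
  rw [HH_conv, HH_conv, ← hd]
  exact HasCompactSupport.hasDerivAt_convolution_right (ContinuousLinearMap.mul ℝ ℝ)
    (f_cont hg hj).locallyIntegrable (f_supp hf hi.le) (f_contDiff hf hi) x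

theorem HH_deriv_right {f g : ℕ → ℝ → ℝ} {a b : ℝ} (hf : LPF f a) (hg : LPF g b) {i j : ℕ}
    (hi : i ≤ 6) (hj : j < 6) (x : ℝ) : HasDerivAt (HH f g i j) (HH f g i (j + 1) x) x := by
  have h1 := HH_deriv_left hg hf hj hi x
  have h2 : HH f g i j = HH g f j i := funext fun x => HH_symm f g i j x
  rw [h2, HH_symm f g i (j + 1) x]
  exact h1

theorem HH_shift {f g : ℕ → ℝ → ℝ} {a b : ℝ} (hf : LPF f a) (hg : LPF g b) (x : ℝ) :
    ∀ (d i j : ℕ), i + d ≤ 6 → j + d ≤ 6 → HH f g i (j + d) x = HH f g (i + d) j x := by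
  intro d
  induction d with
  | zero => intro i j _ _; rfl
  | succ d ih =>
    intro i j hi hj
    have h1 := (HH_deriv_left hf hg (i := i) (j := j + d) (by omega) (by omega) x).unique
      (HH_deriv_right hf hg (i := i) (j := j + d) (by omega) (by omega) x)
    have h2 := ih (i + 1) j (by omega) (by omega)
    have e1 : j + (d + 1) = j + d + 1 := by omega
    have e2 : i + (d + 1) = i + 1 + d := by omega
    rw [e1, e2, ← h1, h2]

theorem cf_eq {f g : ℕ → ℝ → ℝ} {a b : ℝ} (hf : LPF f a) (hg : LPF g b) (x : ℝ) {i j : ℕ}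
    (hi : i ≤ 3) (hj : j ≤ 3) : cf f g (i + j) x = HH f g i j x := by
  show HH f g (min (i + j) 3) (i + j - 3) x = HH f g i j x
  rcases le_total (i + j) 3 with h | h
  · rw [min_eq_left h, show i + j - 3 = 0 by omega]
    have := HH_shift hf hg x j i 0 (by omega) (by omega)
    rw [zero_add] at this
    exact this.symm
  · rw [min_eq_right h]
    have := HH_shift hf hg x (3 - i) i (i + j - 3) (by omega) (by omega)
    rw [show i + j - 3 + (3 - i) = j by omega, show i + (3 - i) = 3 by omega] at this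
    exact this.symm

/-- the product of the two determinants -/
noncomputable def GG (r : ℕ) (f g : ℕ → ℝ → ℝ) (x : ℝ) (z : Fin r → ℝ) : ℝ :=
  Matrix.det (Matrix.of fun i l : Fin r => f i (x - z l)) *
    Matrix.det (Matrix.of fun i l : Fin r => g i (z l))

theorem GG_expand (r : ℕ) (f g : ℕ → ℝ → ℝ) (x : ℝ) (z : Fin r → ℝ) :
    GG r f g x z = ∑ σ : Equiv.Perm (Fin r), ∑ τ : Equiv.Perm (Fin r),
      ((Equiv.Perm.sign σ : ℤ) : ℝ) * ((Equiv.Perm.sign τ : ℤ) : ℝ) *
        ∏ l, (f (σ l) (x - z l) * g (τ l) (z l)) := by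
  unfold GG
  rw [Matrix.det_apply', Matrix.det_apply', Finset.sum_mul_sum]
  refine Finset.sum_congr rfl fun σ _ => Finset.sum_congr rfl fun τ _ => ?_
  rw [Finset.prod_mul_distrib]
  simp only [Matrix.of_apply]
  ring

theorem int_term {f g : ℕ → ℝ → ℝ} {a b : ℝ} (hf : LPF f a) (hg : LPF g b) (x : ℝ) {i j : ℕ}
    (hi : i ≤ 6) (hj : j ≤ 6) : Integrable (fun z => f i (x - z) * g j z) := by
  refine Continuous.integrable_of_hasCompactSupport ?_ ?_
  · exact ((f_cont hf hi).comp (continuous_const.sub continuous_id)).mul (f_cont hg hj)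
  · exact HasCompactSupport.mul_left (f_supp hg hj)

theorem GG_integrable {f g : ℕ → ℝ → ℝ} {a b : ℝ} (hf : LPF f a) (hg : LPF g b) {r : ℕ}
    (hr : r ≤ 4) (x : ℝ) : Integrable (GG r f g x) := by
  have h : GG r f g x = fun z => ∑ σ : Equiv.Perm (Fin r), ∑ τ : Equiv.Perm (Fin r),
      ((Equiv.Perm.sign σ : ℤ) : ℝ) * ((Equiv.Perm.sign τ : ℤ) : ℝ) *
        ∏ l, (f (σ l) (x - z l) * g (τ l) (z l)) := funext fun z => GG_expand r f g x z
  rw [h]
  refine integrable_finsetSum _ fun σ _ => integrable_finsetSum _ fun τ _ => ?_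
  refine Integrable.const_mul ?_ _
  exact Integrable.fintype_prod (f := fun l z => f (σ l) (x - z) * g (τ l) z)
    (fun l => int_term hf hg x (by have := (σ l).2; omega) (by have := (τ l).2; omega))

theorem GG_integral {f g : ℕ → ℝ → ℝ} {a b : ℝ} (hf : LPF f a) (hg : LPF g b) {r : ℕ}
    (hr : r ≤ 4) (x : ℝ) : ∫ z, GG r f g x z =
      (r.factorial : ℝ) * Matrix.det (Matrix.of fun i j : Fin r => HH f g i j x) := by
  have h : GG r f g x = fun z => ∑ σ : Equiv.Perm (Fin r), ∑ τ : Equiv.Perm (Fin r),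
      ((Equiv.Perm.sign σ : ℤ) : ℝ) * ((Equiv.Perm.sign τ : ℤ) : ℝ) *
        ∏ l, (f (σ l) (x - z l) * g (τ l) (z l)) := funext fun z => GG_expand r f g x z
  have hi : ∀ σ τ : Equiv.Perm (Fin r), Integrable (fun z : Fin r → ℝ =>
      ((Equiv.Perm.sign σ : ℤ) : ℝ) * ((Equiv.Perm.sign τ : ℤ) : ℝ) *
        ∏ l, (f (σ l) (x - z l) * g (τ l) (z l))) := by
    intro σ τ
    refine Integrable.const_mul ?_ _
    exact Integrable.fintype_prod (f := fun l z => f (σ l) (x - z) * g (τ l) z)
      (fun l => int_term hf hg x (by have := (σ l).2; omega) (by have := (τ l).2; omega))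
  rw [h, integral_finsetSum _ (fun σ _ => integrable_finsetSum _ fun τ _ => hi σ τ)]
  have h1 : ∀ σ : Equiv.Perm (Fin r), ∫ z : Fin r → ℝ, ∑ τ : Equiv.Perm (Fin r),
      ((Equiv.Perm.sign σ : ℤ) : ℝ) * ((Equiv.Perm.sign τ : ℤ) : ℝ) *
        ∏ l, (f (σ l) (x - z l) * g (τ l) (z l)) =
      ∑ τ : Equiv.Perm (Fin r), ((Equiv.Perm.sign σ : ℤ) : ℝ) * ((Equiv.Perm.sign τ : ℤ) : ℝ) *
        ∏ l, HH f g (σ l) (τ l) x := by
    intro σ
    rw [integral_finsetSum _ (fun τ _ => hi σ τ)]
    refine Finset.sum_congr rfl fun τ _ => ?_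
    rw [integral_const_mul]
    congr 1
    exact integral_fintype_prod_volume_eq_prod
      (fun (l : Fin r) (z : ℝ) => f (σ l) (x - z) * g (τ l) z)
  rw [Finset.sum_congr rfl (fun σ _ => h1 σ), Finset.sum_comm]
  have h2 : ∀ τ : Equiv.Perm (Fin r), ∑ σ : Equiv.Perm (Fin r),
      ((Equiv.Perm.sign σ : ℤ) : ℝ) * ((Equiv.Perm.sign τ : ℤ) : ℝ) *
        ∏ l, HH f g (σ l) (τ l) x =
      Matrix.det (Matrix.of fun i j : Fin r => HH f g i j x) := by
    intro τ
    rw [Matrix.det_apply']
    refine Fintype.sum_equiv (Equiv.mulRight τ⁻¹) _ _ (fun σ => ?_)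
    rw [Equiv.coe_mulRight, Equiv.Perm.sign_mul, Equiv.Perm.sign_inv]
    congr 1
    · push_cast; rfl
    · simp only [Matrix.of_apply, Equiv.Perm.mul_apply]
      rw [← Equiv.prod_comp τ (fun l => HH f g (σ (τ⁻¹ l)) l x)]
      refine Finset.prod_congr rfl fun l _ => ?_
      simp
  rw [Finset.sum_congr rfl (fun τ _ => h2 τ), Finset.sum_const, Finset.card_univ,
    Fintype.card_perm, Fintype.card_fin, nsmul_eq_mul]

theorem GG_perm (r : ℕ) (f g : ℕ → ℝ → ℝ) (x : ℝ) (z : Fin r → ℝ) (π : Equiv.Perm (Fin r)) :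
    GG r f g x (z ∘ π) = GG r f g x z := by
  unfold GG
  have e1 : Matrix.det (Matrix.of fun i l : Fin r => f i (x - (z ∘ π) l)) =
      Equiv.Perm.sign π * Matrix.det (Matrix.of fun i l : Fin r => f i (x - z l)) := by
    rw [← Matrix.det_permute']
    rfl
  have e2 : Matrix.det (Matrix.of fun i l : Fin r => g i ((z ∘ π) l)) =
      Equiv.Perm.sign π * Matrix.det (Matrix.of fun i l : Fin r => g i (z l)) := by
    rw [← Matrix.det_permute']
    rfl
  rw [e1, e2]
  have : ((Equiv.Perm.sign π : ℤ) : ℝ) * ((Equiv.Perm.sign π : ℤ) : ℝ) = 1 := by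
    rcases Int.units_eq_one_or (Equiv.Perm.sign π) with h | h <;> rw [h] <;> norm_num
  linear_combination (Matrix.det (Matrix.of fun i l : Fin r => f i (x - z l)) *
    Matrix.det (Matrix.of fun i l : Fin r => g i (z l))) * this

theorem rev_sign {r : ℕ} (hr1 : 1 ≤ r) (hr : r ≤ 4) :
    ((Equiv.Perm.sign (Fin.revPerm (n := r)) : ℤ) : ℝ) = (-1) ^ (r * (r - 1) / 2) := by
  interval_cases r
  · have : Equiv.Perm.sign (Fin.revPerm (n := 1)) = 1 := by decide
    rw [this]; norm_num
  · have : Equiv.Perm.sign (Fin.revPerm (n := 2)) = -1 := by decide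
    rw [this]; norm_num
  · have : Equiv.Perm.sign (Fin.revPerm (n := 3)) = -1 := by decide
    rw [this]; norm_num
  · have : Equiv.Perm.sign (Fin.revPerm (n := 4)) = 1 := by decide
    rw [this]; norm_num

theorem GG_pos_mono (H : DetPos) {f g : ℕ → ℝ → ℝ} {a b : ℝ} (hf : LPF f a) (hg : LPF g b)
    {r : ℕ} (hr1 : 1 ≤ r) (hr : r ≤ 4) (x : ℝ) (z : Fin r → ℝ) (hz : StrictMono z)
    (h1 : ∀ l, |x - z l| < a) (h2 : ∀ l, |z l| < b) :
    0 < (-1) ^ (r * (r - 1) / 2) * GG r f g x z := by
  have hA := H f a hf r hr1 hr x z hz h1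
  have hB := H g b hg r hr1 hr 0 (fun l => - z (Fin.rev l))
    (by
      intro i j hij
      have : z (Fin.rev j) < z (Fin.rev i) := hz (Fin.rev_lt_rev.2 hij)
      show - z (Fin.rev i) < - z (Fin.rev j)
      linarith)
    (by
      intro l
      show |0 - -z (Fin.rev l)| < b
      rw [zero_sub, neg_neg]
      exact h2 _)
  have e : Matrix.det (Matrix.of fun i l : Fin r => g i (0 - -z (Fin.rev l))) =
      Equiv.Perm.sign (Fin.revPerm (n := r)) *
        Matrix.det (Matrix.of fun i l : Fin r => g i (z l)) := by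
    rw [← Matrix.det_permute']
    congr 1
    ext i l
    simp [Matrix.submatrix_apply]
  have hB' : 0 < (-1) ^ (r * (r - 1) / 2) *
      Matrix.det (Matrix.of fun i l : Fin r => g i (z l)) := by
    rw [← rev_sign hr1 hr, ← e]
    exact hB
  have := mul_pos hA hB'
  unfold GG
  linarith

theorem GG_nonneg (H : DetPos) {f g : ℕ → ℝ → ℝ} {a b : ℝ} (hf : LPF f a) (hg : LPF g b)
    {r : ℕ} (hr1 : 1 ≤ r) (hr : r ≤ 4) (x : ℝ) (z : Fin r → ℝ) :
    0 ≤ (-1) ^ (r * (r - 1) / 2) * GG r f g x z := by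
  by_cases h1 : ∀ l, |x - z l| < a
  · by_cases h2 : ∀ l, |z l| < b
    · by_cases hinj : Function.Injective z
      · rw [← GG_perm r f g x z (Tuple.sort z)]
        refine (GG_pos_mono H hf hg hr1 hr x _ ?_ (fun l => h1 _) (fun l => h2 _)).le
        exact (Tuple.monotone_sort z).strictMono_of_injective
          (hinj.comp (Tuple.sort z).injective)
      · rw [Function.not_injective_iff] at hinj
        obtain ⟨i, j, hij, hne⟩ := hinj
        have : Matrix.det (Matrix.of fun i l : Fin r => g i (z l)) = 0 := by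
          refine Matrix.det_zero_of_column_eq hne (fun k => ?_)
          simp only [Matrix.of_apply]
          rw [hij]
        unfold GG
        rw [this, mul_zero, mul_zero]
    · push Not at h2
      obtain ⟨l, hl⟩ := h2
      have : Matrix.det (Matrix.of fun i l : Fin r => g i (z l)) = 0 :=
        Matrix.det_eq_zero_of_column_eq_zero l (fun i => hg.supp i (by have := i.2; omega) _ hl)
      unfold GG
      rw [this, mul_zero, mul_zero]
  · push Not at h1
    obtain ⟨l, hl⟩ := h1
    have : Matrix.det (Matrix.of fun i l : Fin r => f i (x - z l)) = 0 :=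
      Matrix.det_eq_zero_of_column_eq_zero l (fun i => hf.supp i (by have := i.2; omega) _ hl)
    unfold GG
    rw [this, zero_mul, mul_zero]

theorem GG_cont {f g : ℕ → ℝ → ℝ} {a b : ℝ} (hf : LPF f a) (hg : LPF g b)
    {r : ℕ} (hr : r ≤ 4) (x : ℝ) : Continuous (GG r f g x) := by
  unfold GG
  refine Continuous.mul ?_ ?_
  · refine Continuous.matrix_det (continuous_matrix fun i l => ?_)
    exact (f_cont hf (by have := i.2; omega)).comp (continuous_const.sub (continuous_apply l))
  · refine Continuous.matrix_det (continuous_matrix fun i l => ?_)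
    exact (f_cont hg (by have := i.2; omega)).comp (continuous_apply l)

theorem det_pos' (H : DetPos) {f g : ℕ → ℝ → ℝ} {a b : ℝ} (ha : 0 < a) (hb : 0 < b)
    (hf : LPF f a) (hg : LPF g b) {r : ℕ} (hr1 : 1 ≤ r) (hr : r ≤ 4) (x : ℝ)
    (hx : |x| < a + b) :
    0 < (-1) ^ (r * (r - 1) / 2) * Matrix.det (Matrix.of fun i j : Fin r => HH f g i j x) := by
  have hint := (GG_integrable hf hg hr x).const_mul ((-1 : ℝ) ^ (r * (r - 1) / 2))
  have hpos : 0 < ∫ z, (-1 : ℝ) ^ (r * (r - 1) / 2) * GG r f g x z := by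
    rw [integral_pos_iff_support_of_nonneg (fun z => GG_nonneg H hf hg hr1 hr x z) hint]
    have hopen : IsOpen (Function.support
        (fun z => (-1 : ℝ) ^ (r * (r - 1) / 2) * GG r f g x z)) :=
      (continuous_const.mul (GG_cont hf hg hr x)).isOpen_support
    refine hopen.measure_pos _ ?_
    -- a point in the support
    obtain ⟨u, hu⟩ : ∃ u, u = max (-b) (x - a) := ⟨_, rfl⟩
    obtain ⟨v, hv⟩ : ∃ v, v = min b (x + a) := ⟨_, rfl⟩
    have hx' := abs_lt.1 hx
    have huv : u < v := by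
      rw [hu, hv]
      refine max_lt (lt_min (by linarith) (by linarith)) (lt_min (by linarith) (by linarith))
    have hmem : ∀ l : Fin r, u < u + (v - u) * (((l : ℕ) : ℝ) + 1) / 5 ∧
        u + (v - u) * (((l : ℕ) : ℝ) + 1) / 5 < v := by
      intro l
      have hl : ((l : ℕ) : ℝ) + 1 < 5 := by
        have : (l : ℕ) + 1 < 5 := by have := l.2; omega
        exact_mod_cast this
      have hl0 : (0 : ℝ) ≤ ((l : ℕ) : ℝ) := Nat.cast_nonneg _
      have hvu : 0 < v - u := by linarith
      constructor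
      · have : 0 < (v - u) * (((l : ℕ) : ℝ) + 1) / 5 := by positivity
        linarith
      · have : (v - u) * (((l : ℕ) : ℝ) + 1) / 5 < v - u := by
          rw [div_lt_iff₀ (by norm_num)]
          nlinarith
        linarith
    have hu1 : -b ≤ u := by rw [hu]; exact le_max_left _ _
    have hu2 : x - a ≤ u := by rw [hu]; exact le_max_right _ _
    have hv1 : v ≤ b := by rw [hv]; exact min_le_left _ _
    have hv2 : v ≤ x + a := by rw [hv]; exact min_le_right _ _
    refine ⟨fun l => u + (v - u) * (((l : ℕ) : ℝ) + 1) / 5, ?_⟩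
    refine (GG_pos_mono H hf hg hr1 hr x _ ?_ ?_ ?_).ne'
    · intro i j hij
      have h1 : ((i : ℕ) : ℝ) < ((j : ℕ) : ℝ) := by exact_mod_cast hij
      have hvu : 0 < v - u := by linarith
      show u + (v - u) * (((i : ℕ) : ℝ) + 1) / 5 < u + (v - u) * (((j : ℕ) : ℝ) + 1) / 5
      have h2 := mul_lt_mul_of_pos_left h1 hvu
      linarith
    · intro l
      have := hmem l
      rw [abs_lt]
      constructor <;> linarith [this.1, this.2]
    · intro l
      have := hmem l
      rw [abs_lt]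
      constructor <;> linarith [this.1, this.2]
  rw [integral_const_mul, GG_integral hf hg hr x] at hpos
  have hfac : (0 : ℝ) < r.factorial := by exact_mod_cast r.factorial_pos
  have h3 : (-1 : ℝ) ^ (r * (r - 1) / 2) * ((r.factorial : ℝ) *
      Matrix.det (Matrix.of fun i j : Fin r => HH f g i j x)) = (r.factorial : ℝ) *
      ((-1) ^ (r * (r - 1) / 2) * Matrix.det (Matrix.of fun i j : Fin r => HH f g i j x)) := by
    ring
  rw [h3] at hpos
  exact (mul_pos_iff_of_pos_left hfac).1 hpos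

theorem LPF_conv (H : DetPos) {f g : ℕ → ℝ → ℝ} {a b : ℝ} (ha : 0 < a) (hb : 0 < b)
    (hf : LPF f a) (hg : LPF g b) : LPF (cf f g) (a + b) := by
  refine ⟨?_, ?_, ?_, ?_⟩
  · intro k hk x
    show HasDerivAt (HH f g (min k 3) (k - 3)) (HH f g (min (k + 1) 3) (k + 1 - 3) x) x
    rcases Nat.lt_or_ge k 3 with h | h
    · rw [min_eq_left h.le, min_eq_left (by omega : k + 1 ≤ 3), show k - 3 = 0 by omega,
        show k + 1 - 3 = 0 by omega]
      exact HH_deriv_left hf hg (by omega) (by omega) x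
    · rw [min_eq_right h, min_eq_right (by omega : 3 ≤ k + 1),
        show k + 1 - 3 = k - 3 + 1 by omega]
      exact HH_deriv_right hf hg (by omega) (by omega) x
  · show Continuous (HH f g (min 6 3) (6 - 3))
    rw [HH_conv]
    exact HasCompactSupport.continuous_convolution_right (ContinuousLinearMap.mul ℝ ℝ)
      (f_supp hf (by norm_num)) (f_cont hg (by norm_num)).locallyIntegrable
      (f_cont hf (by norm_num))
  · intro k hk x hx
    unfold cf
    rw [← integral_zero ℝ ℝ]
    refine integral_congr_ae (Filter.Eventually.of_forall fun z => ?_)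
    show f (min k 3) (x - z) * g (k - 3) z = 0
    by_cases hz : b ≤ |z|
    · rw [hg.supp (k - 3) (by omega) z hz, mul_zero]
    · rw [hf.supp (min k 3) (by omega) (x - z) ?_, zero_mul]
      push Not at hz
      have := abs_sub_abs_le_abs_sub x z
      linarith
  · intro r hr1 hr x hx
    unfold wr
    have h1 := det_pos' H ha hb hf hg hr1 hr x hx
    have h2 : (Matrix.of fun i j : Fin r => cf f g (i + j) x) =
        Matrix.of fun i j : Fin r => HH f g i j x := by
      ext i j
      simp only [Matrix.of_apply]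
      exact cf_eq hf hg x (by have := i.2; omega) (by have := j.2; omega)
    rw [h2]
    exact h1

end US.S4579
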