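import Pool.Agent.Helper70.US.Defs
set_option autoImplicit false
namespace US.S4580




/-- two by two determinant -/
def P2 (a b : ℕ → ℝ) : ℝ := a 0 * b 1 - b 0 * a 1
/-- three by three determinant, rows i j k -/
def Q3 (i j k : ℕ) (a b c : ℕ → ℝ) : ℝ :=
  a i * (b j * c k - b k * c j) - b i * (a j * c k - a k * c j) + c i * (a j * b k - a k * b j)
/-- four by four determinant -/
def P4 (a b c d : ℕ → ℝ) : ℝ :=
  -(d 0 * Q3 1 2 3 a b c) + d 1 * Q3 0 2 3 a b c - d 2 * Q3 0 1 3 a b c + d 3 * Q3 0 1 2 a b c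

/-- basis sequence -/
def bs (i : ℕ) : ℕ → ℝ := fun j => if j = i then 1 else 0

theorem P2_lin (a b : ℕ → ℝ) : P2 a b = ∑ i ∈ Finset.range 2, P2 a (bs i) * b i := by
  simp [Finset.sum_range_succ, P2, bs]; ring

theorem P3_lin2 (a b c : ℕ → ℝ) :
    Q3 0 1 2 a b c = ∑ i ∈ Finset.range 3, Q3 0 1 2 a (bs i) c * b i := by
  simp [Finset.sum_range_succ, Q3, bs]; ring

theorem P3_lin3 (a b c : ℕ → ℝ) :
    Q3 0 1 2 a b c = ∑ i ∈ Finset.range 3, Q3 0 1 2 a b (bs i) * c i := by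
  simp [Finset.sum_range_succ, Q3, bs]; ring

theorem P4_lin2 (a b c d : ℕ → ℝ) :
    P4 a b c d = ∑ i ∈ Finset.range 4, P4 a (bs i) c d * b i := by
  simp [Finset.sum_range_succ, Q3, P4, bs]; ring

theorem P4_lin3 (a b c d : ℕ → ℝ) :
    P4 a b c d = ∑ i ∈ Finset.range 4, P4 a b (bs i) d * c i := by
  simp [Finset.sum_range_succ, Q3, P4, bs]; ring

theorem det4_eq (g : ℕ → ℝ → ℝ) (z : Fin 4 → ℝ) :
    Matrix.det (Matrix.of fun i l : Fin 4 => g i (z l)) =
      P4 (fun i => g i (z 0)) (fun i => g i (z 1)) (fun i => g i (z 2)) (fun i => g i (z 3)) := by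
  rw [Matrix.det_succ_row_zero]
  simp [Fin.sum_univ_succ, Matrix.det_fin_three, P4, Q3, Fin.succAbove, Matrix.submatrix]
  ring

theorem lin_pos {a b : ℝ} (hab : a < b) (w : ℝ → ℝ) (hw : Continuous w) (v : ℝ → ℕ → ℝ) (N : ℕ)
    (hv : ∀ i < N, Continuous (fun z => v z i)) (α : ℕ → ℝ)
    (h : ∀ z ∈ Set.Ioo a b, 0 < w z)
    (hp : ∀ z ∈ Set.Ioo a b, 0 < ∑ i ∈ Finset.range N, α i * v z i) :
    0 < ∑ i ∈ Finset.range N, α i * ∫ z in a..b, w z * v z i := by
  have e : ∑ i ∈ Finset.range N, α i * ∫ z in a..b, w z * v z i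
      = ∫ z in a..b, w z * ∑ i ∈ Finset.range N, α i * v z i := by
    have e1 : (fun z => w z * ∑ i ∈ Finset.range N, α i * v z i)
        = fun z => ∑ i ∈ Finset.range N, α i * (w z * v z i) := by
      funext z
      rw [Finset.mul_sum]
      exact Finset.sum_congr rfl fun i _ => by ring
    rw [e1, intervalIntegral.integral_finsetSum]
    · exact Finset.sum_congr rfl fun i _ => (intervalIntegral.integral_const_mul _ _).symm
    · intro i hi
      exact (continuous_const.mul (hw.mul (hv i (Finset.mem_range.1 hi)))).intervalIntegrable _ _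
  rw [e]
  apply intervalIntegral.intervalIntegral_pos_of_pos_on
  · exact (hw.mul (continuous_finsetSum _ fun i hi =>
      continuous_const.mul (hv i (Finset.mem_range.1 hi)))).intervalIntegrable _ _
  · intro z hz
    exact mul_pos (h z hz) (hp z hz)
  · exact hab


theorem f_cont {f : ℕ → ℝ → ℝ} {m : ℝ} (hf : LPF f m) {k : ℕ} (hk : k < 6) : Continuous (f k) :=
  continuous_iff_continuousAt.2 fun x => (hf.deriv k hk x).continuousAt

theorem f_bdd {f : ℕ → ℝ → ℝ} {m : ℝ} (hf : LPF f m) {k : ℕ} (hk : k < 6) :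
    ∃ C, ∀ x, |f k x| ≤ C := by
  obtain ⟨C, hC⟩ := (isCompact_Icc (a := -m) (b := m)).exists_bound_of_continuousOn
    (f_cont hf hk).continuousOn
  refine ⟨max C 0, fun x => ?_⟩
  by_cases hx : m ≤ |x|
  · rw [hf.supp k hk.le x hx]; simp
  · rw [not_le, abs_lt] at hx
    exact (hC x ⟨hx.1.le, hx.2.le⟩).trans (le_max_left _ _)

theorem hasDeriv_int {f : ℕ → ℝ → ℝ} {m : ℝ} (hf : LPF f m) {k : ℕ} (hk : k < 5) (w : ℝ → ℝ)
    (hw : Continuous w) (a b x : ℝ) :
    HasDerivAt (fun x => ∫ z in a..b, w z * f k (x - z)) (∫ z in a..b, w z * f (k + 1) (x - z)) x := by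
  obtain ⟨C, hC⟩ := f_bdd hf (k := k + 1) (by omega)
  have hc : ∀ j, j < 6 → ∀ x : ℝ, Continuous fun z => w z * f j (x - z) := fun j hj x =>
    hw.mul ((f_cont hf hj).comp (continuous_const.sub continuous_id))
  refine (intervalIntegral.hasDerivAt_integral_of_dominated_loc_of_deriv_le
    (F := fun x z => w z * f k (x - z)) (F' := fun x z => w z * f (k + 1) (x - z))
    (bound := fun z => |w z| * C) (s := Set.univ) Filter.univ_mem ?_ ?_ ?_ ?_ ?_ ?_).2
  · exact Filter.Eventually.of_forall fun x => (hc k (by omega) x).aestronglyMeasurable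
  · exact (hc k (by omega) x).intervalIntegrable _ _
  · exact (hc (k + 1) (by omega) x).aestronglyMeasurable
  · refine Filter.Eventually.of_forall fun z _ y _ => ?_
    rw [Real.norm_eq_abs, abs_mul]
    exact mul_le_mul_of_nonneg_left (hC _) (abs_nonneg _)
  · exact (hw.abs.mul continuous_const).intervalIntegrable _ _
  · refine Filter.Eventually.of_forall fun z _ y _ => ?_
    have h1 : HasDerivAt (fun y => f k (y - z)) (f (k + 1) (y - z) * 1) y :=
      (hf.deriv k (by omega) (y - z)).comp y ((hasDerivAt_id y).sub_const z)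
    rw [mul_one] at h1
    exact h1.const_mul (w z)

section pos
variable {f : ℕ → ℝ → ℝ} {m : ℝ}

theorem pos2 (H : DetPos) (hf : LPF f m) {x z1 z2 : ℝ} (h12 : z1 < z2) (h1 : |x - z1| < m)
    (h2 : |x - z2| < m) : 0 < P2 (fun i => f i (x - z1)) (fun i => f i (x - z2)) := by
  have := H f m hf 2 (by norm_num) (by norm_num) x ![z1, z2]
    (by rw [Fin.strictMono_iff_lt_succ]; intro i; fin_cases i; simpa using h12)
    (by intro l; fin_cases l <;> simpa)
  rw [Matrix.det_fin_two] at this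
  simpa [P2] using this

theorem pos3 (H : DetPos) (hf : LPF f m) {x z1 z2 z3 : ℝ} (h12 : z1 < z2) (h23 : z2 < z3)
    (h1 : |x - z1| < m) (h2 : |x - z2| < m) (h3 : |x - z3| < m) :
    0 < Q3 0 1 2 (fun i => f i (x - z1)) (fun i => f i (x - z2)) (fun i => f i (x - z3)) := by
  have := H f m hf 3 (by norm_num) (by norm_num) x ![z1, z2, z3]
    (by rw [Fin.strictMono_iff_lt_succ]; intro i; fin_cases i <;> simpa)
    (by intro l; fin_cases l <;> simpa)
  rw [Matrix.det_fin_three] at this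
  simp only [Matrix.of_apply] at this
  simp [Q3] at this ⊢
  linarith

theorem pos4 (H : DetPos) (hf : LPF f m) {x z1 z2 z3 z4 : ℝ} (h12 : z1 < z2) (h23 : z2 < z3)
    (h34 : z3 < z4)
    (h1 : |x - z1| < m) (h2 : |x - z2| < m) (h3 : |x - z3| < m) (h4 : |x - z4| < m) :
    0 < P4 (fun i => f i (x - z1)) (fun i => f i (x - z2)) (fun i => f i (x - z3))
      (fun i => f i (x - z4)) := by
  have := H f m hf 4 (by norm_num) (by norm_num) x ![z1, z2, z3, z4]
    (by rw [Fin.strictMono_iff_lt_succ]; intro i; fin_cases i <;> simpa)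
    (by intro l; fin_cases l <;> simpa)
  rw [det4_eq (fun i y => f i (x - y)) ![z1, z2, z3, z4]] at this
  simpa using this

end pos


section main
variable {f : ℕ → ℝ → ℝ} {m : ℝ} {lam zeta : ℝ}

/-- K1 -/
def A (f : ℕ → ℝ → ℝ) (x : ℝ) : ℕ → ℝ := fun i => f i (x - (-1))
/-- K2 -/
noncomputable def B (f : ℕ → ℝ → ℝ) (zeta x : ℝ) : ℕ → ℝ :=
  fun i => ∫ z in (-1:ℝ)..zeta, (zeta - z) * f i (x - z)
/-- K3 -/
noncomputable def C (f : ℕ → ℝ → ℝ) (zeta x : ℝ) : ℕ → ℝ :=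
  fun i => ∫ z in zeta..1, (z - zeta) * f i (x - z)
/-- K4 -/
def K (f : ℕ → ℝ → ℝ) (x : ℝ) : ℕ → ℝ := fun i => f i (x - 1)

/-- the combination -/
noncomputable def Δ (f : ℕ → ℝ → ℝ) (lam zeta x : ℝ) : ℕ → ℝ := fun i =>
  -A f x i + lam * B f zeta x i - lam * C f zeta x i + K f x i

theorem abs_sub_lt {x z : ℝ} (hx : |x| < m - 1) (h1 : -1 ≤ z) (h2 : z ≤ 1) : |x - z| < m := by
  rw [abs_lt] at hx ⊢
  constructor <;> linarith [hx.1, hx.2]

theorem hA (hf : LPF f m) (k : ℕ) (hk : k < 5) (x : ℝ) :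
    HasDerivAt (fun x => A f x k) (A f x (k + 1)) x := by
  have h1 : HasDerivAt (fun y => f k (y - (-1))) (f (k + 1) (x - (-1)) * 1) x :=
    (hf.deriv k (by omega) (x - (-1))).comp x ((hasDerivAt_id x).sub_const (-1))
  rw [mul_one] at h1
  exact h1

theorem hK (hf : LPF f m) (k : ℕ) (hk : k < 5) (x : ℝ) :
    HasDerivAt (fun x => K f x k) (K f x (k + 1)) x := by
  have h1 : HasDerivAt (fun y => f k (y - 1)) (f (k + 1) (x - 1) * 1) x :=
    (hf.deriv k (by omega) (x - 1)).comp x ((hasDerivAt_id x).sub_const 1)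
  rw [mul_one] at h1
  exact h1

theorem hB (hf : LPF f m) (k : ℕ) (hk : k < 5) (x : ℝ) :
    HasDerivAt (fun x => B f zeta x k) (B f zeta x (k + 1)) x :=
  hasDeriv_int hf hk _ (by fun_prop) _ _ x

theorem hC (hf : LPF f m) (k : ℕ) (hk : k < 5) (x : ℝ) :
    HasDerivAt (fun x => C f zeta x k) (C f zeta x (k + 1)) x :=
  hasDeriv_int hf hk _ (by fun_prop) _ _ x

theorem hΔ (hf : LPF f m) (k : ℕ) (hk : k < 5) (x : ℝ) :
    HasDerivAt (fun x => Δ f lam zeta x k) (Δ f lam zeta x (k + 1)) x :=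
  (((hA hf k hk x).neg.add ((hB hf k hk x).const_mul lam)).sub
    ((hC hf k hk x).const_mul lam)).add (hK hf k hk x)

theorem W1 (H : DetPos) (hf : LPF f m) {x : ℝ} (hx : |x| < m - 1) : 0 < A f x 0 := by
  have := H f m hf 1 (by norm_num) (by norm_num) x ![-1]
    (by intro a b hab; fin_cases a; fin_cases b; exact absurd hab (lt_irrefl _))
    (by intro l; fin_cases l; exact abs_sub_lt hx (by norm_num) (by norm_num))
  simpa [A] using this

theorem cont_v (hf : LPF f m) (x : ℝ) (i : ℕ) (hi : i < 6) : Continuous fun z => f i (x - z) :=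
  (f_cont hf hi).comp (continuous_const.sub continuous_id)

theorem W2 (H : DetPos) (hf : LPF f m) (hz : |zeta| < 1) {x : ℝ} (hx : |x| < m - 1) :
    0 < P2 (A f x) (B f zeta x) := by
  have hz' := abs_lt.1 hz
  rw [P2_lin]
  refine lin_pos (a := -1) (b := zeta) hz'.1 (fun z => zeta - z) (by fun_prop)
    (fun z i => f i (x - z)) 2 (fun i hi => cont_v hf x i (by omega)) _
    (fun z hz => sub_pos.2 hz.2) (fun z hz => ?_)
  rw [← P2_lin]
  exact pos2 H hf hz.1 (abs_sub_lt hx (by norm_num) (by norm_num))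
    (abs_sub_lt hx hz.1.le (by linarith [hz.2]))

theorem W3 (H : DetPos) (hf : LPF f m) (hz : |zeta| < 1) {x : ℝ} (hx : |x| < m - 1) :
    0 < Q3 0 1 2 (A f x) (B f zeta x) (C f zeta x) := by
  have hz' := abs_lt.1 hz
  rw [P3_lin2]
  refine lin_pos (a := -1) (b := zeta) hz'.1 (fun z => zeta - z) (by fun_prop)
    (fun z i => f i (x - z)) 3 (fun i hi => cont_v hf x i (by omega)) _
    (fun z hz => sub_pos.2 hz.2) (fun z hz => ?_)
  rw [← P3_lin2, P3_lin3]
  refine lin_pos (a := zeta) (b := 1) hz'.2 (fun z => z - zeta) (by fun_prop)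
    (fun z i => f i (x - z)) 3 (fun i hi => cont_v hf x i (by omega)) _
    (fun z hz => sub_pos.2 hz.1) (fun y hy => ?_)
  rw [← P3_lin3]
  exact pos3 H hf hz.1 (hz.2.trans hy.1) (abs_sub_lt hx (by norm_num) (by norm_num))
    (abs_sub_lt hx hz.1.le (by linarith [hz.2])) (abs_sub_lt hx (by linarith [hy.1]) hy.2.le)

theorem W4 (H : DetPos) (hf : LPF f m) (hz : |zeta| < 1) {x : ℝ} (hx : |x| < m - 1) :
    0 < P4 (A f x) (B f zeta x) (C f zeta x) (K f x) := by
  have hz' := abs_lt.1 hz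
  rw [P4_lin2]
  refine lin_pos (a := -1) (b := zeta) hz'.1 (fun z => zeta - z) (by fun_prop)
    (fun z i => f i (x - z)) 4 (fun i hi => cont_v hf x i (by omega)) _
    (fun z hz => sub_pos.2 hz.2) (fun z hz => ?_)
  rw [← P4_lin2, P4_lin3]
  refine lin_pos (a := zeta) (b := 1) hz'.2 (fun z => z - zeta) (by fun_prop)
    (fun z i => f i (x - z)) 4 (fun i hi => cont_v hf x i (by omega)) _
    (fun z hz => sub_pos.2 hz.1) (fun y hy => ?_)
  rw [← P4_lin3]
  exact pos4 H hf hz.1 (hz.2.trans hy.1) hy.2 (abs_sub_lt hx (by norm_num) (by norm_num))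
    (abs_sub_lt hx hz.1.le (by linarith [hz.2])) (abs_sub_lt hx (by linarith [hy.1]) hy.2.le)
    (abs_sub_lt hx (by norm_num) (by norm_num))

theorem P4_comb (a b c d : ℕ → ℝ) (l : ℝ) :
    P4 a b c (fun i => -a i + l * b i - l * c i + d i) = P4 a b c d := by
  simp only [P4, Q3]; ring

/-- Rolle for a quotient -/
theorem rolle_quot {u v u' v' : ℝ → ℝ} {a b : ℝ} (hab : a < b)
    (hu : ∀ x, HasDerivAt u (u' x) x) (hv : ∀ x, HasDerivAt v (v' x) x)
    (hv0 : ∀ x ∈ Set.Icc a b, 0 < v x) (ha : u a = 0) (hb : u b = 0) :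
    ∃ c ∈ Set.Ioo a b, u' c * v c - u c * v' c = 0 := by
  have hd : ∀ x ∈ Set.Icc a b, HasDerivAt (fun x => u x / v x)
      ((u' x * v x - u x * v' x) / v x ^ 2) x := fun x hx =>
    (hu x).div (hv x) (hv0 x hx).ne'
  obtain ⟨c, hc, hc0⟩ := exists_hasDerivAt_eq_zero hab
    (f := fun x => u x / v x) (f' := fun x => (u' x * v x - u x * v' x) / v x ^ 2)
    (fun x hx => (hd x hx).continuousAt.continuousWithinAt) (by simp [ha, hb])
    (fun x hx => hd x ⟨hx.1.le, hx.2.le⟩)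
  refine ⟨c, hc, ?_⟩
  have h1 := (hv0 c ⟨hc.1.le, hc.2.le⟩).ne'
  rcases div_eq_zero_iff.1 hc0 with h | h
  · exact h
  · exact absurd (pow_eq_zero_iff (by norm_num) |>.1 h) h1

theorem ivt0 {g : ℝ → ℝ} (hg : Continuous g) {a b : ℝ} (hab : a < b) (h : g a * g b < 0) :
    ∃ c ∈ Set.Ioo a b, g c = 0 := by
  have h0 : (0 : ℝ) ∈ Set.uIcc (g a) (g b) := by
    rw [Set.mem_uIcc]
    rcases mul_neg_iff.1 h with h | h
    · right; exact ⟨h.2.le, h.1.le⟩
    · left; exact ⟨h.1.le, h.2.le⟩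
  obtain ⟨c, hc, hc0⟩ := intermediate_value_uIcc hg.continuousOn h0
  rw [Set.uIcc_of_le hab.le] at hc
  refine ⟨c, ⟨lt_of_le_of_ne hc.1 ?_, lt_of_le_of_ne hc.2 ?_⟩, hc0⟩
  · rintro rfl; rw [hc0] at h; simp at h
  · rintro rfl; rw [hc0] at h; simp at h

theorem no_four_zeros (H : DetPos) (hf : LPF f m) (hz : |zeta| < 1)
    {x1 x2 x3 x4 : ℝ} (h12 : x1 < x2) (h23 : x2 < x3) (h34 : x3 < x4)
    (hI1 : |x1| < m - 1) (hI4 : |x4| < m - 1)
    (e1 : Δ f lam zeta x1 0 = 0) (e2 : Δ f lam zeta x2 0 = 0) (e3 : Δ f lam zeta x3 0 = 0)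
    (e4 : Δ f lam zeta x4 0 = 0) : False := by
  have hin : ∀ x, x1 ≤ x → x ≤ x4 → |x| < m - 1 := fun x ha hb => by
    rw [abs_lt] at *
    constructor <;> linarith [hI1.1, hI4.2]
  have dP2 : ∀ (g : ℝ → ℕ → ℝ), (∀ k < 5, ∀ x, HasDerivAt (fun x => g x k) (g x (k + 1)) x) →
      ∀ x, HasDerivAt (fun x => P2 (A f x) (g x)) (A f x 0 * g x 2 - g x 0 * A f x 2) x := by
    intro g hg x
    have := ((hA hf 0 (by norm_num) x).mul (hg 1 (by norm_num) x)).sub
      ((hg 0 (by norm_num) x).mul (hA hf 1 (by norm_num) x))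
    refine HasDerivAt.congr_deriv (f := fun x => P2 (A f x) (g x)) this ?_
    ring
  have dP3 : ∀ (g : ℝ → ℕ → ℝ), (∀ k < 5, ∀ x, HasDerivAt (fun x => g x k) (g x (k + 1)) x) →
      ∀ x, HasDerivAt (fun x => Q3 0 1 2 (A f x) (B f zeta x) (g x))
        (Q3 0 1 3 (A f x) (B f zeta x) (g x)) x := by
    intro g hg x
    have a0 := hA hf 0 (by norm_num) x
    have a1 := hA hf 1 (by norm_num) x
    have a2 := hA hf 2 (by norm_num) x
    have b0 := hB (zeta := zeta) hf 0 (by norm_num) x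
    have b1 := hB (zeta := zeta) hf 1 (by norm_num) x
    have b2 := hB (zeta := zeta) hf 2 (by norm_num) x
    have g0 := hg 0 (by norm_num) x
    have g1 := hg 1 (by norm_num) x
    have g2 := hg 2 (by norm_num) x
    have := ((a0.mul ((b1.mul g2).sub (b2.mul g1))).sub (b0.mul ((a1.mul g2).sub (a2.mul g1)))).add
      (g0.mul ((a1.mul b2).sub (a2.mul b1)))
    refine HasDerivAt.congr_deriv (f := fun x => Q3 0 1 2 (A f x) (B f zeta x) (g x)) this ?_
    simp only [Q3, Pi.sub_apply, Pi.mul_apply]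
    ring
  -- first step
  have step1 : ∀ a b : ℝ, x1 ≤ a → b ≤ x4 → a < b → Δ f lam zeta a 0 = 0 → Δ f lam zeta b 0 = 0 →
      ∃ c ∈ Set.Ioo a b, P2 (A f c) (Δ f lam zeta c) = 0 := by
    intro a b ha hb hab ea eb
    obtain ⟨c, hc, hc0⟩ := rolle_quot hab (hΔ (lam := lam) (zeta := zeta) hf 0 (by norm_num))
      (hA hf 0 (by norm_num)) (fun x hx => W1 H hf (hin x (ha.trans hx.1) (hx.2.trans hb))) ea eb
    refine ⟨c, hc, ?_⟩
    simp only [P2]
    linarith
  have step2 : ∀ a b : ℝ, x1 ≤ a → b ≤ x4 → a < b → P2 (A f a) (Δ f lam zeta a) = 0 →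
      P2 (A f b) (Δ f lam zeta b) = 0 →
      ∃ c ∈ Set.Ioo a b, Q3 0 1 2 (A f c) (B f zeta c) (Δ f lam zeta c) = 0 := by
    intro a b ha hb hab ea eb
    obtain ⟨c, hc, hc0⟩ := rolle_quot hab
      (dP2 (fun x => Δ f lam zeta x) (hΔ (lam := lam) (zeta := zeta) hf))
      (dP2 (fun x => B f zeta x) (hB (zeta := zeta) hf))
      (fun x hx => W2 H hf hz (hin x (ha.trans hx.1) (hx.2.trans hb))) ea eb
    refine ⟨c, hc, ?_⟩
    have hA0 := W1 H hf (hin c (ha.trans hc.1.le) (hc.2.le.trans hb))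
    have e : A f c 0 * Q3 0 1 2 (A f c) (B f zeta c) (Δ f lam zeta c) = 0 := by
      rw [← hc0]
      simp only [P2, Q3]
      ring
    exact (mul_eq_zero.1 e).resolve_left hA0.ne'
  obtain ⟨a1, ha1, ea1⟩ := step1 x1 x2 le_rfl (by linarith) h12 e1 e2
  obtain ⟨a2, ha2, ea2⟩ := step1 x2 x3 (by linarith) (by linarith) h23 e2 e3
  obtain ⟨a3, ha3, ea3⟩ := step1 x3 x4 (by linarith) le_rfl h34 e3 e4
  obtain ⟨b1, hb1, eb1⟩ := step2 a1 a2 ha1.1.le (by linarith [ha2.2]) (ha1.2.trans ha2.1) ea1 ea2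
  obtain ⟨b2, hb2, eb2⟩ := step2 a2 a3 (by linarith [ha2.1]) ha3.2.le (ha2.2.trans ha3.1) ea2 ea3
  have hb12 : b1 < b2 := hb1.2.trans hb2.1
  have hb1l : x1 ≤ b1 := by linarith [ha1.1, hb1.1]
  have hb2r : b2 ≤ x4 := by linarith [ha3.2, hb2.2]
  obtain ⟨c, hc, hc0⟩ := rolle_quot hb12
    (dP3 (fun x => Δ f lam zeta x) (hΔ (lam := lam) (zeta := zeta) hf))
    (dP3 (fun x => C f zeta x) (hC (zeta := zeta) hf))
    (fun x hx => W3 H hf hz (hin x (hb1l.trans hx.1) (hx.2.trans hb2r))) eb1 eb2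
  have hcI := hin c (hb1l.trans hc.1.le) (hc.2.le.trans hb2r)
  have h2 := W2 H hf hz hcI
  have h4 := W4 H hf hz hcI
  have e : P2 (A f c) (B f zeta c) * P4 (A f c) (B f zeta c) (C f zeta c) (Δ f lam zeta c) = 0 := by
    rw [← hc0]
    simp only [P2, P4, Q3]
    ring
  have e' : P4 (A f c) (B f zeta c) (C f zeta c) (Δ f lam zeta c)
      = P4 (A f c) (B f zeta c) (C f zeta c) (K f c) := P4_comb _ _ _ _ _
  rw [e'] at e
  exact (mul_pos h2 h4).ne' e

end main

theorem no_five_alternating (H : DetPos) {f : ℕ → ℝ → ℝ} {m : ℝ} (hf : LPF f m) (hm : 1 < m)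
    {lam zeta : ℝ} (hl : 0 < lam) (hz : |zeta| < 1) (y : Fin 5 → ℝ) (hy : StrictMono y)
    (hI : ∀ i, |y i| < m - 1) (s : ℝ) :
    ¬ ∀ i : Fin 5, 0 < s * (-1) ^ (i : ℕ) *
      (f 0 (y i - 1) - f 0 (y i + 1) - lam * ∫ z in (-1:ℝ)..1, (z - zeta) * f 0 (y i - z)) := by
  intro hall
  have eD : ∀ x, f 0 (x - 1) - f 0 (x + 1) - lam * ∫ z in (-1:ℝ)..1, (z - zeta) * f 0 (x - z)
      = Δ f lam zeta x 0 := by
    intro x
    have hc : Continuous fun z => (z - zeta) * f 0 (x - z) :=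
      (continuous_id.sub continuous_const).mul (cont_v hf x 0 (by norm_num))
    have h1 := intervalIntegral.integral_add_adjacent_intervals
      (hc.intervalIntegrable (μ := MeasureTheory.volume) (-1) zeta)
      (hc.intervalIntegrable (μ := MeasureTheory.volume) zeta 1)
    have h2 : ∫ z in (-1:ℝ)..zeta, (z - zeta) * f 0 (x - z)
        = - ∫ z in (-1:ℝ)..zeta, (zeta - z) * f 0 (x - z) := by
      rw [← intervalIntegral.integral_neg]
      congr 1
      funext z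
      ring
    rw [← h1, h2]
    simp only [Δ, A, B, C, K]
    rw [sub_neg_eq_add]
    ring
  have hcont : Continuous fun x => Δ f lam zeta x 0 :=
    continuous_iff_continuousAt.2 fun x => (hΔ (lam := lam) (zeta := zeta) hf 0 (by norm_num) x).continuousAt
  have hsgn : ∀ i : Fin 5, 0 < s * (-1) ^ (i : ℕ) * Δ f lam zeta (y i) 0 := fun i => by
    rw [← eD]; exact hall i
  have hneg : ∀ i j : Fin 5, (j : ℕ) = i + 1 → Δ f lam zeta (y i) 0 * Δ f lam zeta (y j) 0 < 0 := by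
    intro i j hij
    have h1 := mul_pos (hsgn i) (hsgn j)
    rw [hij, pow_succ] at h1
    have h2 : ((-1 : ℝ) ^ (i : ℕ)) * (-1) ^ (i : ℕ) = 1 := by
      rw [← mul_pow]; norm_num
    have h3 : s * (-1) ^ (i : ℕ) * Δ f lam zeta (y i) 0 * (s * ((-1) ^ (i : ℕ) * -1) * Δ f lam zeta (y j) 0)
        = - (s ^ 2 * (((-1 : ℝ) ^ (i : ℕ)) * (-1) ^ (i : ℕ))
          * (Δ f lam zeta (y i) 0 * Δ f lam zeta (y j) 0)) := by ring
    rw [h3, h2, mul_one] at h1
    by_contra hcon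
    rw [not_lt] at hcon
    have := mul_nonneg (sq_nonneg s) hcon
    linarith
  obtain ⟨x1, hx1, e1⟩ := ivt0 hcont (hy (show (0 : Fin 5) < 1 by decide)) (hneg 0 1 rfl)
  obtain ⟨x2, hx2, e2⟩ := ivt0 hcont (hy (show (1 : Fin 5) < 2 by decide)) (hneg 1 2 rfl)
  obtain ⟨x3, hx3, e3⟩ := ivt0 hcont (hy (show (2 : Fin 5) < 3 by decide)) (hneg 2 3 rfl)
  obtain ⟨x4, hx4, e4⟩ := ivt0 hcont (hy (show (3 : Fin 5) < 4 by decide)) (hneg 3 4 rfl)
  have i0 := abs_lt.1 (hI 0)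
  have i4 := abs_lt.1 (hI 4)
  have m03 : y 0 < y 3 := hy (by decide)
  have m14 : y 1 < y 4 := hy (by decide)
  refine no_four_zeros H hf hz (hx1.2.trans hx2.1) (hx2.2.trans hx3.1) (hx3.2.trans hx4.1) ?_ ?_
    e1 e2 e3 e4
  · rw [abs_lt]; constructor <;> linarith [hx1.1, hx1.2]
  · rw [abs_lt]; constructor <;> linarith [hx4.1, hx4.2]

end US.S4580
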