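import Pool.Agent.Helper70.US.Defs
set_option autoImplicit false
namespace US.S4581

open Filter Topology in
private theorem cn_ev {f : ℝ → ℝ} {f' x : ℝ} (h : HasDerivAt f f' x) (hf : 0 < f') :
    ∀ᶠ y in 𝓝[≠] x, 0 < (f y - f x) * (y - x) := by
  have h1 := hasDerivAt_iff_tendsto_slope.mp h
  filter_upwards [h1.eventually (lt_mem_nhds hf), self_mem_nhdsWithin] with y hy hne
  have hne' : y - x ≠ 0 := sub_ne_zero.mpr hne
  rw [slope_def_field] at hy
  have h2 : (f y - f x) * (y - x) = (f y - f x) / (y - x) * (y - x) ^ 2 := by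
    field_simp
  rw [h2]
  exact mul_pos hy (by positivity)

open Filter Topology in
private theorem cn_left {f : ℝ → ℝ} {f' x : ℝ} (h : HasDerivAt f f' x) (hf : 0 < f') {a : ℝ}
    (ha : a < x) : ∃ b, a ≤ b ∧ b < x ∧ ∀ y, b < y → y < x → f y < f x := by
  have h1 : ∀ᶠ y in 𝓝[<] x, 0 < (f y - f x) * (y - x) :=
    (cn_ev h hf).filter_mono (nhdsWithin_mono x fun y hy => ne_of_lt hy)
  obtain ⟨l, hl, hsub⟩ := mem_nhdsLT_iff_exists_Ioo_subset.mp h1
  have hl' : l < x := hl
  refine ⟨max a l, le_max_left _ _, max_lt ha hl', fun y hy hyx => ?_⟩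
  have h2 : 0 < (f y - f x) * (y - x) := hsub ⟨lt_of_le_of_lt (le_max_right _ _) hy, hyx⟩
  by_contra hle
  have hle := not_lt.mp hle
  nlinarith

open Filter Topology in
private theorem cn_right {f : ℝ → ℝ} {f' x : ℝ} (h : HasDerivAt f f' x) (hf : 0 < f') {a : ℝ}
    (ha : x < a) : ∃ b, b ≤ a ∧ x < b ∧ ∀ y, x < y → y < b → f x < f y := by
  have h1 : ∀ᶠ y in 𝓝[>] x, 0 < (f y - f x) * (y - x) :=
    (cn_ev h hf).filter_mono (nhdsWithin_mono x fun y hy => ne_of_gt hy)
  obtain ⟨l, hl, hsub⟩ := mem_nhdsGT_iff_exists_Ioo_subset.mp h1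
  have hl' : x < l := hl
  refine ⟨min a l, min_le_left _ _, lt_min ha hl', fun y hxy hy => ?_⟩
  have h2 : 0 < (f y - f x) * (y - x) := hsub ⟨hxy, lt_of_lt_of_le hy (min_le_right _ _)⟩
  by_contra hle
  have hle := not_lt.mp hle
  nlinarith

open Filter Topology in
private theorem cn_der {v f : ℝ → ℝ} {v' f' x n : ℝ} (hv : HasDerivAt v v' x)
    (hf : HasDerivAt f f' x) (hx : x < n) (heq : ∀ y, x ≤ y → y < n → v y = f y) : v' = f' := by
  have h1 : HasDerivWithinAt v v' (Set.Ici x) x := hv.hasDerivWithinAt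
  have h2 : HasDerivWithinAt f f' (Set.Ici x) x := hf.hasDerivWithinAt
  have h3 : v =ᶠ[𝓝[Set.Ici x] x] f := by
    filter_upwards [self_mem_nhdsWithin, mem_nhdsWithin_of_mem_nhds (gt_mem_nhds hx)] with y h4 h5
    exact heq y h4 h5
  have h4 : HasDerivWithinAt v f' (Set.Ici x) x :=
    h2.congr_of_eventuallyEq h3 (heq x le_rfl hx)
  exact (uniqueDiffWithinAt_Ici x).eq_deriv _ h1 h4

open Filter Topology in
theorem convex_of_no_five_aux {n : ℝ} (hn : 4 < n) {u u1 u2 : ℝ → ℝ}
    (h1 : ∀ x, |x| < n → HasDerivAt u (u1 x) x) (h2 : ∀ x, |x| < n → HasDerivAt u1 (u2 x) x)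
    (hc : ContinuousOn u2 (Set.Ioo (-n) n))
    (hodd : ∀ x, u (-x) = - u x)
    (hpos : ∀ x, 0 < x → x < n → 0 < u x)
    (hpos1 : ∀ x, |x| < n → 0 < u1 x)
    (hend : ∀ x, n - 2 ≤ x → x < n → u x = (n - 1) / (n - x))
    (hS : ∀ α β : ℝ, 0 < β → |α| < β * n → ∀ y : Fin 5 → ℝ, StrictMono y →
      (∀ i, |y i| < n - 2) → ∀ s : ℝ,
      ¬ ∀ i : Fin 5, 0 < s * (-1) ^ (i : ℕ) * (u (y i) - α - β * y i)) :
    ∀ x, 0 ≤ x → x < n → 0 ≤ u2 x := by
  have hlt : ∀ x, 0 ≤ x → x < n → |x| < n := fun x h h' => by rw [abs_of_nonneg h]; exact h'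
  -- explicit derivatives on the right
  have e1 : ∀ x, n - 2 ≤ x → x < n → u1 x = (n - 1) / (n - x) ^ 2 := by
    intro x hx hxn
    have hne : n - x ≠ 0 := (sub_pos.mpr hxn).ne'
    have hf : HasDerivAt (fun y => (n - 1) / (n - y)) ((n - 1) / (n - x) ^ 2) x := by
      have k1 : HasDerivAt (fun y : ℝ => n - y) (-1) x := by
        simpa using (hasDerivAt_id x).const_sub n
      have k2 := (hasDerivAt_const x (n - 1)).div k1 hne
      have k3 : (0 * (n - x) - (n - 1) * -1) / (n - x) ^ 2 = (n - 1) / (n - x) ^ 2 := by ring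
      rw [k3] at k2
      exact k2
    exact cn_der (h1 x (hlt x (by linarith) hxn)) hf hxn (fun y hy hyn => hend y (by linarith) hyn)
  have e2 : ∀ x, n - 2 ≤ x → x < n → u2 x = 2 * (n - 1) / (n - x) ^ 3 := by
    intro x hx hxn
    have hne : n - x ≠ 0 := (sub_pos.mpr hxn).ne'
    have hf : HasDerivAt (fun y => (n - 1) / (n - y) ^ 2) (2 * (n - 1) / (n - x) ^ 3) x := by
      have k1 : HasDerivAt (fun y : ℝ => n - y) (-1) x := by
        simpa using (hasDerivAt_id x).const_sub n
      have k2 := (hasDerivAt_const x (n - 1)).div (k1.pow 2) (pow_ne_zero 2 hne)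
      have k3 : (0 * (n - x) ^ 2 - (n - 1) * ((2 : ℕ) * (n - x) ^ (2 - 1) * -1)) /
          ((n - x) ^ 2) ^ 2 = 2 * (n - 1) / (n - x) ^ 3 := by
        field_simp
        push_cast
        ring
      rw [← k3]
      exact k2
    exact cn_der (h2 x (hlt x (by linarith) hxn)) hf hxn (fun y hy hyn => e1 y (by linarith) hyn)
  set c : ℝ := n - 2 with hcdef
  have hc0 : 0 < c := by rw [hcdef]; linarith
  have hcn : c < n := by rw [hcdef]; linarith
  have hcc : n - c = 2 := by rw [hcdef]; ring
  have uc : u c = (n - 1) / 2 := by rw [hend c le_rfl hcn, hcc]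
  have u1c : u1 c = (n - 1) / 4 := by rw [e1 c le_rfl hcn, hcc]; norm_num
  have u2c : u2 c = (n - 1) / 4 := by rw [e2 c le_rfl hcn, hcc]; ring
  have hτc : u c - c * u1 c < 0 := by rw [uc, u1c, hcdef]; nlinarith
  have hucont : ∀ x, |x| < n → ContinuousAt u x := fun x hx => (h1 x hx).continuousAt
  have hu1cont : ∀ x, |x| < n → ContinuousAt u1 x := fun x hx => (h2 x hx).continuousAt
  -- Step 1
  have hρ : ∀ x, 0 < x → x < n → HasDerivAt (fun y => u y / y) (-(u x - x * u1 x) / x ^ 2) x := by
    intro x hx hxn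
    have k := (h1 x (hlt x hx.le hxn)).div (hasDerivAt_id x) hx.ne'
    have k3 : (u1 x * id x - u x * 1) / (id x) ^ 2 = -(u x - x * u1 x) / x ^ 2 := by
      simp only [id]; ring
    rw [k3] at k
    exact k
  have step1 : ∀ x, 0 < x → x < c → u x - x * u1 x ≤ 0 := by
    intro x hx hxc
    by_contra hcon
    have hcon := not_le.mp hcon
    -- the minimum of ρ on [x, c]
    have hcontρ : ContinuousOn (fun y => u y / y) (Set.Icc x c) := by
      intro y hy
      exact (hρ y (lt_of_lt_of_le hx hy.1) (lt_of_le_of_lt hy.2 hcn)).continuousAt.continuousWithinAt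
    obtain ⟨z, hz, hzmin⟩ := isCompact_Icc.exists_isMinOn (Set.nonempty_Icc.mpr hxc.le) hcontρ
    have hzmin' : ∀ y ∈ Set.Icc x c, u z / z ≤ u y / y := fun y hy => hzmin hy
    have hz0 : 0 < z := lt_of_lt_of_le hx hz.1
    -- z ≠ x
    have hd1 : HasDerivAt (fun y => -(u y / y)) ((u x - x * u1 x) / x ^ 2) x := by
      have := (hρ x hx (by linarith)).neg
      have e : -(-(u x - x * u1 x) / x ^ 2) = (u x - x * u1 x) / x ^ 2 := by ring
      rw [e] at this
      exact this
    obtain ⟨b, hb1, hb2, hb3⟩ := cn_right hd1 (by positivity) hxc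
    have hxb : u ((x + b) / 2) / ((x + b) / 2) < u x / x := by
      have := hb3 ((x + b) / 2) (by linarith) (by linarith)
      linarith
    have hzlt : u z / z < u x / x :=
      lt_of_le_of_lt (hzmin' ((x + b) / 2) ⟨by linarith, by linarith⟩) hxb
    have hzx : x < z := by
      rcases lt_or_eq_of_le hz.1 with h | h
      · exact h
      · rw [← h] at hzlt; exact absurd hzlt (lt_irrefl _)
    -- z ≠ c
    have hd2 := hρ c hc0 hcn
    have hd2pos : 0 < -(u c - c * u1 c) / c ^ 2 := by
      apply div_pos _ (by positivity)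
      linarith
    obtain ⟨b', hb1', hb2', hb3'⟩ := cn_left hd2 hd2pos hxc
    have hcb : u ((c + b') / 2) / ((c + b') / 2) < u c / c := by
      have := hb3' ((c + b') / 2) (by linarith) (by linarith)
      simpa using this
    have hzltc : u z / z < u c / c :=
      lt_of_le_of_lt (hzmin' ((c + b') / 2) ⟨by linarith, by linarith⟩) hcb
    have hzc : z < c := by
      rcases lt_or_eq_of_le hz.2 with h | h
      · exact h
      · rw [h] at hzltc; exact absurd hzltc (lt_irrefl _)
    -- β
    obtain ⟨β, hβ1, hβ2⟩ := exists_between (lt_min hzlt hzltc)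
    have hβx : β < u x / x := lt_of_lt_of_le hβ2 (min_le_left _ _)
    have hβc : β < u c / c := lt_of_lt_of_le hβ2 (min_le_right _ _)
    have hβ0 : 0 < β := lt_trans (div_pos (hpos z hz0 (by linarith)) hz0) hβ1
    -- y near c
    have hev : ∀ᶠ y in 𝓝[<] c, β < u y / y ∧ z < y := by
      have k1 : ∀ᶠ y in 𝓝 c, β < u y / y :=
        (hρ c hc0 hcn).continuousAt.eventually (lt_mem_nhds hβc)
      exact ((k1.and (lt_mem_nhds hzc)).filter_mono nhdsWithin_le_nhds)
    obtain ⟨y, ⟨hy1, hy2⟩, hy3⟩ := (hev.and self_mem_nhdsWithin).exists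
    have hy3 : y < c := hy3
    have hy0 : 0 < y := lt_trans hz0 hy2
    have a1 : 0 < u x - β * x := by
      rw [lt_div_iff₀ hx] at hβx; linarith
    have a2 : u z - β * z < 0 := by
      rw [div_lt_iff₀ hz0] at hβ1; linarith
    have a3 : 0 < u y - β * y := by
      rw [lt_div_iff₀ hy0] at hy1; linarith
    refine hS 0 β hβ0 (by rw [abs_zero]; positivity) ![-z, -x, x, z, y] ?_ ?_ 1 ?_
    · rw [Fin.strictMono_iff_lt_succ]
      intro i
      fin_cases i
      · simp; linarith
      · simp; linarith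
      · simp; linarith
      · simp; linarith
    · intro i
      fin_cases i
      · simp only [Fin.zero_eta, Matrix.cons_val_zero, abs_neg, abs_of_pos hz0]; exact hzc
      · simp only [Fin.mk_one, Matrix.cons_val_one, Matrix.cons_val_zero, abs_neg, abs_of_pos hx]
        exact hxc
      · simp only [Fin.reduceFinMk, Matrix.cons_val, abs_of_pos hx]; exact hxc
      · simp only [Fin.reduceFinMk, Matrix.cons_val, abs_of_pos hz0]; exact hzc
      · simp only [Fin.reduceFinMk, Matrix.cons_val, abs_of_pos hy0]; exact hy3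
    · intro i
      fin_cases i
      · simp [hodd]; linarith
      · simp [hodd]; linarith
      · simp; linarith
      · simp; linarith
      · simp; linarith
  -- the main claim on (0,c)
  have main : ∀ x, 0 < x → x < c → 0 ≤ u2 x := by
    by_contra hcon
    push Not at hcon
    obtain ⟨p, hp0, hpc, hp2⟩ := hcon
    -- h(x) = u(c) - u(x) - u1(x)(c-x)
    set h : ℝ → ℝ := fun x => u c - u x - u1 x * (c - x) with hh
    have hhd : ∀ x, 0 ≤ x → x < n → HasDerivAt h (-(u2 x * (c - x))) x := by
      intro x hx hxn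
      have k1 : HasDerivAt (fun y : ℝ => c - y) (-1) x := by
        simpa using (hasDerivAt_id x).const_sub c
      have k2 := ((h1 x (hlt x hx hxn)).const_sub (u c)).sub ((h2 x (hlt x hx hxn)).mul k1)
      have k3 : -u1 x - (u2 x * (c - x) + u1 x * -1) = -(u2 x * (c - x)) := by ring
      rw [k3] at k2
      exact k2
    have hhc : h c = 0 := by simp [hh]
    -- exists q with u2 q < 0 and h q > 0
    obtain ⟨q, hq0, hqc, hq2, hqh⟩ : ∃ q, 0 < q ∧ q < c ∧ u2 q < 0 ∧ 0 < h q := by
      by_contra hno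
      push Not at hno
      -- positivity of u2 near c
      have hu2c : ContinuousAt u2 c := hc.continuousAt (Ioo_mem_nhds (by linarith) hcn)
      have hev : ∀ᶠ y in 𝓝[<] c, 0 < u2 y := by
        have : (0 : ℝ) < u2 c := by rw [u2c]; linarith
        exact (hu2c.eventually (lt_mem_nhds this)).filter_mono nhdsWithin_le_nhds
      obtain ⟨l, hl, hlsub⟩ := mem_nhdsLT_iff_exists_Ioo_subset.mp hev
      have hl : l < c := hl
      set y : ℝ := (max p l + c) / 2 with hy
      have hmaxlt : max p l < c := max_lt hpc hl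
      have hy1 : max p l < y := by rw [hy]; linarith
      have hyc : y < c := by rw [hy]; linarith
      have hpy : p < y := lt_of_le_of_lt (le_max_left _ _) hy1
      have hly : l < y := lt_of_le_of_lt (le_max_right _ _) hy1
      have hhy : 0 < h y := by
        obtain ⟨ξ, hξ, hξe⟩ := exists_hasDerivAt_eq_slope h (fun x => -(u2 x * (c - x))) hyc
          (fun x hx => (hhd x (by linarith [hx.1]) (by linarith [hx.2])).continuousAt.continuousWithinAt)
          (fun x hx => hhd x (by linarith [hx.1]) (by linarith [hx.2]))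
        have hu2ξ : 0 < u2 ξ := hlsub ⟨by linarith [hξ.1], hξ.2⟩
        rw [hhc, eq_div_iff (by linarith)] at hξe
        have : 0 < u2 ξ * (c - ξ) * (c - y) :=
          mul_pos (mul_pos hu2ξ (by linarith [hξ.2])) (by linarith)
        linarith
      have hcontI : ContinuousOn h (Set.Icc p y) := fun x hx =>
        (hhd x (by linarith [hx.1]) (by linarith [hx.2])).continuousAt.continuousWithinAt
      have hK : IsCompact (Set.Icc p y ∩ h ⁻¹' Set.Iic 0) :=
        isCompact_Icc.of_isClosed_subset (hcontI.preimage_isClosed_of_isClosed isClosed_Icc isClosed_Iic)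
          Set.inter_subset_left
      obtain ⟨z, hzK, hzmax⟩ := hK.exists_isGreatest ⟨p, ⟨le_rfl, hpy.le⟩, hno p hp0 hpc hp2⟩
      have hz0 : h z ≤ 0 := hzK.2
      have hzy : z < y := by
        rcases lt_or_eq_of_le hzK.1.2 with h' | h'
        · exact h'
        · rw [h'] at hz0; linarith
      have hpz : p ≤ z := hzK.1.1
      obtain ⟨ξ, hξ, hξe⟩ := exists_hasDerivAt_eq_slope h (fun x => -(u2 x * (c - x))) hzy
        (fun x hx => (hhd x (by linarith [hx.1]) (by linarith [hx.2])).continuousAt.continuousWithinAt)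
        (fun x hx => hhd x (by linarith [hx.1]) (by linarith [hx.2]))
      have hξpos : 0 ≤ u2 ξ := by
        by_contra hneg
        have hneg := not_le.mp hneg
        have h3 := hno ξ (by linarith [hξ.1]) (by linarith [hξ.2]) hneg
        have h4 : ξ ≤ z := hzmax ⟨⟨by linarith [hξ.1], hξ.2.le⟩, h3⟩
        linarith [hξ.1]
      rw [eq_div_iff (by linarith)] at hξe
      have : 0 ≤ u2 ξ * (c - ξ) * (y - z) :=
        mul_nonneg (mul_nonneg hξpos (by linarith [hξ.2])) (by linarith)
      linarith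
    have hqn : q < n := by linarith
    -- τ(q) < 0
    have hτq : u q - q * u1 q < 0 := by
      rcases lt_or_eq_of_le (step1 q hq0 hqc) with h' | h'
      · exact h'
      · exfalso
        have k1 : HasDerivAt (fun x => u x - x * u1 x) (-(q * u2 q)) q := by
          have := (h1 q (hlt q hq0.le hqn)).sub
            ((hasDerivAt_id q).mul (h2 q (hlt q hq0.le hqn)))
          have k3 : u1 q - (1 * u1 q + id q * u2 q) = -(q * u2 q) := by simp only [id]; ring
          rw [k3] at this
          exact this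
        obtain ⟨b, hb1, hb2, hb3⟩ := cn_right k1 (by nlinarith) hqc
        have h5 := hb3 ((q + b) / 2) (by linarith) (by linarith)
        have h6 := step1 ((q + b) / 2) (by linarith) (by linarith)
        linarith
    -- w(x) = u x - (u q + u1 q (x - q))
    set w : ℝ → ℝ := fun x => u x - (u q + u1 q * (x - q)) with hw
    have hwd : ∀ x, 0 ≤ x → x < n → HasDerivAt w (u1 x - u1 q) x := by
      intro x hx hxn
      have k1 : HasDerivAt (fun y : ℝ => u q + u1 q * (y - q)) (u1 q) x := by
        have := (((hasDerivAt_id x).sub_const q).const_mul (u1 q)).const_add (u q)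
        simpa using this
      exact (h1 x (hlt x hx hxn)).sub k1
    have hwq : w q = 0 := by simp [hw]
    have hneg1 : HasDerivAt (fun x => -u1 x) (-u2 q) q := (h2 q (hlt q hq0.le hqn)).neg
    obtain ⟨b, hb1, hb2, hb3⟩ := cn_right hneg1 (by linarith) hqc
    obtain ⟨a, ha1, ha2, ha3⟩ := cn_left hneg1 (by linarith) hq0
    set B : ℝ := (q + b) / 2 with hB
    set A : ℝ := (a + q) / 2 with hA
    have hqB : q < B := by rw [hB]; linarith
    have hBb : B < b := by rw [hB]; linarith
    have hAq : A < q := by rw [hA]; linarith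
    have haA : a < A := by rw [hA]; linarith
    have hwB : w B < 0 := by
      obtain ⟨ξ, hξ, hξe⟩ := exists_hasDerivAt_eq_slope w (fun x => u1 x - u1 q) hqB
        (fun x hx => (hwd x (by linarith [hx.1]) (by linarith [hx.2])).continuousAt.continuousWithinAt)
        (fun x hx => hwd x (by linarith [hx.1]) (by linarith [hx.2]))
      have h5 := hb3 ξ hξ.1 (by linarith [hξ.2])
      rw [hwq, eq_div_iff (by linarith)] at hξe
      have h7 : 0 < B - q := by linarith
      nlinarith
    have hwA : w A < 0 := by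
      obtain ⟨ξ, hξ, hξe⟩ := exists_hasDerivAt_eq_slope w (fun x => u1 x - u1 q) hAq
        (fun x hx => (hwd x (by linarith [hx.1]) (by linarith [hx.2])).continuousAt.continuousWithinAt)
        (fun x hx => hwd x (by linarith [hx.1]) (by linarith [hx.2]))
      have h5 := ha3 ξ (by linarith [hξ.1]) hξ.2
      rw [hwq, eq_div_iff (by linarith)] at hξe
      have h7 : 0 < q - A := by linarith
      nlinarith
    have hu0 : u 0 = 0 := by
      have := hodd 0
      rw [neg_zero] at this
      linarith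
    have hw0 : 0 < w 0 := by
      simp only [hw]; rw [hu0]; nlinarith
    have hwc : 0 < w c := by
      have : w c = h q := by simp only [hw, hh]; ring
      rw [this]; exact hqh
    -- y near c
    have hBc : B < c := by linarith
    have hev : ∀ᶠ y in 𝓝[<] c, 0 < w y ∧ B < y := by
      have k1 : ∀ᶠ y in 𝓝 c, 0 < w y :=
        (hwd c hc0.le hcn).continuousAt.eventually (lt_mem_nhds hwc)
      exact ((k1.and (lt_mem_nhds hBc)).filter_mono nhdsWithin_le_nhds)
    obtain ⟨y, ⟨hy1, hy2⟩, hy3⟩ := (hev.and self_mem_nhdsWithin).exists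
    have hy3 : y < c := hy3
    -- epsilon
    obtain ⟨ε, hε0, hε1⟩ := exists_between
      (lt_min (neg_pos.mpr hwA) (lt_min (neg_pos.mpr hwB) (hpos q hq0 hqn)))
    have hεA : ε < -w A := lt_of_lt_of_le hε1 (min_le_left _ _)
    have hεB : ε < -w B := lt_of_lt_of_le hε1 ((min_le_right _ _).trans (min_le_left _ _))
    have hεq : ε < u q := lt_of_lt_of_le hε1 ((min_le_right _ _).trans (min_le_right _ _))
    have hβ0 : 0 < u1 q := hpos1 q (hlt q hq0.le hqn)
    have hA0 : 0 < A := by linarith
    have hval : ∀ x, u x - (u q - q * u1 q - ε) - u1 q * x = w x + ε := by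
      intro x; simp only [hw]; ring
    refine hS (u q - q * u1 q - ε) (u1 q) hβ0 ?_ ![0, A, q, B, y] ?_ ?_ 1 ?_
    · rw [abs_of_neg (by linarith)]
      nlinarith
    · rw [Fin.strictMono_iff_lt_succ]
      intro i
      fin_cases i
      · simp; linarith
      · simp; linarith
      · simp; linarith
      · simp; linarith
    · intro i
      fin_cases i
      · simp only [Fin.zero_eta, Matrix.cons_val_zero, abs_zero]; exact hc0
      · simp only [Fin.mk_one, Matrix.cons_val_one, Matrix.cons_val_zero, abs_of_pos hA0]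
        linarith
      · simp only [Fin.reduceFinMk, Matrix.cons_val, abs_of_pos hq0]; exact hqc
      · simp only [Fin.reduceFinMk, Matrix.cons_val]
        rw [abs_of_pos (by linarith)]; exact hBc
      · simp only [Fin.reduceFinMk, Matrix.cons_val]
        rw [abs_of_pos (by linarith)]; exact hy3
    · intro i
      rw [hval]
      fin_cases i
      · simp; linarith
      · simp; linarith
      · simp [hwq]; linarith
      · simp; linarith
      · simp; linarith
  -- conclusion
  intro x hx hxn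
  rcases lt_or_ge x c with hxc | hxc
  · rcases lt_or_eq_of_le hx with hx0 | hx0
    · exact main x hx0 hxc
    · rw [← hx0]
      have hcont0 : ContinuousAt u2 0 := hc.continuousAt (Ioo_mem_nhds (by linarith) (by linarith))
      refine ge_of_tendsto (hcont0.tendsto.mono_left (nhdsWithin_le_nhds (s := Set.Ioi 0))) ?_
      have k1 : ∀ᶠ y in 𝓝[>] (0 : ℝ), y < c := (gt_mem_nhds hc0).filter_mono nhdsWithin_le_nhds
      filter_upwards [k1, self_mem_nhdsWithin] with y hy1 hy2
      exact main y hy2 hy1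
  · rw [e2 x hxc hxn]
    have : 0 < n - x := by linarith
    apply div_nonneg (by linarith) (by positivity)

theorem convex_of_no_five {n : ℝ} (hn : 4 < n) {u u1 u2 : ℝ → ℝ}
    (h1 : ∀ x, |x| < n → HasDerivAt u (u1 x) x) (h2 : ∀ x, |x| < n → HasDerivAt u1 (u2 x) x)
    (hc : ContinuousOn u2 (Set.Ioo (-n) n))
    (hodd : ∀ x, u (-x) = - u x)
    (hpos : ∀ x, 0 < x → x < n → 0 < u x)
    (hpos1 : ∀ x, |x| < n → 0 < u1 x)
    (hend : ∀ x, n - 2 ≤ x → x < n → u x = (n - 1) / (n - x))
    (hS : ∀ α β : ℝ, 0 < β → |α| < β * n → ∀ y : Fin 5 → ℝ, StrictMono y →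
      (∀ i, |y i| < n - 2) → ∀ s : ℝ,
      ¬ ∀ i : Fin 5, 0 < s * (-1) ^ (i : ℕ) * (u (y i) - α - β * y i)) :
    ∀ x, 0 ≤ x → x < n → 0 ≤ u2 x :=
  convex_of_no_five_aux hn h1 h2 hc hodd hpos hpos1 hend hS

end US.S4581
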