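import Pool.Agent.Helper70.US.Defs
set_option autoImplicit false
namespace US.S4582





section Kron
open Polynomial

/-- base -/
def X0 : ℕ := 2 ^ 400

/-- digits -/
def dig (M : ℕ) : ℕ → ℕ → Bool
  | 0, _ => true
  | n + 1, v => Nat.ble (v % X0) M && dig M n (v / X0)

/-- term -/
def tQ (m i k j : ℕ) (y : ℕ) : ℕ :=
  ((m - 1).descFactorial k * (m.descFactorial j / j.factorial)) *
    ((i - j) + (i - j + 1) * y) ^ (m - 1 - k)

/-- value -/
def aQ (m i k : ℕ) : ℕ → ℤ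
  | 0 => 0
  | n + 1 => if n % 2 = 0 then aQ m i k n + (tQ m i k n X0 : ℕ) else aQ m i k n - (tQ m i k n X0 : ℕ)

/-- majorant -/
def mQ (m i k : ℕ) : ℕ → ℕ
  | 0 => 0
  | n + 1 => mQ m i k n + tQ m i k n 1

/-- Hankel determinants with sign -/
def D1 {R : Type*} [Ring R] (g : ℕ → R) : R := g 0
/-- Hankel determinants with sign -/
def D2 {R : Type*} [Ring R] (g : ℕ → R) : R := g 1 * g 1 - g 0 * g 2
/-- Hankel determinants with sign -/
def D3 {R : Type*} [Ring R] (g : ℕ → R) : R :=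
  g 1 * (g 1 * g 4 - g 2 * g 3) - g 0 * (g 2 * g 4 - g 3 * g 3) - g 2 * (g 1 * g 3 - g 2 * g 2)
/-- Hankel determinants with sign -/
def D4 {R : Type*} [Ring R] (g : ℕ → R) : R :=
  (g 0 * g 2 - g 1 * g 1) * (g 4 * g 6 - g 5 * g 5) - (g 0 * g 3 - g 2 * g 1) * (g 3 * g 6 - g 5 * g 4)
  + (g 0 * g 4 - g 3 * g 1) * (g 3 * g 5 - g 4 * g 4) + (g 1 * g 3 - g 2 * g 2) * (g 2 * g 6 - g 5 * g 3)
  - (g 1 * g 4 - g 3 * g 2) * (g 2 * g 5 - g 4 * g 3) + (g 2 * g 4 - g 3 * g 3) * (g 2 * g 4 - g 3 * g 3)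

/-- majorants -/
def P1 (g : ℕ → ℕ) : ℕ := g 0
/-- majorants -/
def P2 (g : ℕ → ℕ) : ℕ := g 1 * g 1 + g 0 * g 2
/-- majorants -/
def P3 (g : ℕ → ℕ) : ℕ :=
  g 1 * (g 1 * g 4 + g 2 * g 3) + g 0 * (g 2 * g 4 + g 3 * g 3) + g 2 * (g 1 * g 3 + g 2 * g 2)
/-- majorants -/
def P4 (g : ℕ → ℕ) : ℕ :=
  (g 0 * g 2 + g 1 * g 1) * (g 4 * g 6 + g 5 * g 5) + (g 0 * g 3 + g 2 * g 1) * (g 3 * g 6 + g 5 * g 4)
  + (g 0 * g 4 + g 3 * g 1) * (g 3 * g 5 + g 4 * g 4) + (g 1 * g 3 + g 2 * g 2) * (g 2 * g 6 + g 5 * g 3)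
  + (g 1 * g 4 + g 3 * g 2) * (g 2 * g 5 + g 4 * g 3) + (g 2 * g 4 + g 3 * g 3) * (g 2 * g 4 + g 3 * g 3)

/-- the numerical check -/
def good (i : ℕ) (v : ℤ) (M : ℕ) : Bool :=
  decide (0 < v) && Nat.blt (2 * M) X0 && dig M 65 v.toNat && (Nat.beq i 0 || Nat.blt 0 (v.toNat % X0))

/-- the numerical check -/
def chk (m i : ℕ) : Bool :=
  good i (D1 (fun k => aQ m i k (i + 1))) (P1 (fun k => mQ m i k (i + 1))) &&
  good i (D2 (fun k => aQ m i k (i + 1))) (P2 (fun k => mQ m i k (i + 1))) &&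
  good i (D3 (fun k => aQ m i k (i + 1))) (P3 (fun k => mQ m i k (i + 1))) &&
  good i (D4 (fun k => aQ m i k (i + 1))) (P4 (fun k => mQ m i k (i + 1)))

theorem chk_all : (List.range 9).all (fun a => (List.range (a + 9)).all (fun i => chk (a + 9) i)) =
    true := by decide +kernel

/-- abstract interpretation of integer polynomials -/
structure KG (P : Polynomial ℤ) (a : ℤ) (M d : ℕ) : Prop where
  ev : P.eval (X0 : ℤ) = a
  deg : P.natDegree ≤ d
  maj : ∃ P' : Polynomial ℕ, (∀ n, (P.coeff n).natAbs ≤ P'.coeff n) ∧ P'.eval 1 = M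

theorem KG.mono {P : Polynomial ℤ} {a : ℤ} {M d e : ℕ} (h : KG P a M d) (hde : d ≤ e) :
    KG P a M e := ⟨h.ev, h.deg.trans hde, h.maj⟩

theorem KG.addK {P Q : Polynomial ℤ} {a b : ℤ} {M N d : ℕ} (h : KG P a M d) (h' : KG Q b N d) :
    KG (P + Q) (a + b) (M + N) d := by
  obtain ⟨P', hP, hP1⟩ := h.maj
  obtain ⟨Q', hQ, hQ1⟩ := h'.maj
  refine ⟨by rw [eval_add, h.ev, h'.ev], natDegree_add_le_of_degree_le h.deg h'.deg,
    P' + Q', ?_, by rw [eval_add, hP1, hQ1]⟩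
  intro n
  rw [coeff_add, coeff_add]
  exact (Int.natAbs_add_le _ _).trans (Nat.add_le_add (hP n) (hQ n))

theorem KG.subK {P Q : Polynomial ℤ} {a b : ℤ} {M N d : ℕ} (h : KG P a M d) (h' : KG Q b N d) :
    KG (P - Q) (a - b) (M + N) d := by
  obtain ⟨P', hP, hP1⟩ := h.maj
  obtain ⟨Q', hQ, hQ1⟩ := h'.maj
  refine ⟨by rw [eval_sub, h.ev, h'.ev],
    (natDegree_sub_le_of_le h.deg h'.deg).trans (max_self d).le,
    P' + Q', ?_, by rw [eval_add, hP1, hQ1]⟩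
  intro n
  rw [coeff_sub, coeff_add]
  exact (Int.natAbs_sub_le _ _).trans (Nat.add_le_add (hP n) (hQ n))

theorem KG.mulK {P Q : Polynomial ℤ} {a b : ℤ} {M N d e : ℕ} (h : KG P a M d) (h' : KG Q b N e) :
    KG (P * Q) (a * b) (M * N) (d + e) := by
  obtain ⟨P', hP, hP1⟩ := h.maj
  obtain ⟨Q', hQ, hQ1⟩ := h'.maj
  refine ⟨by rw [eval_mul, h.ev, h'.ev], natDegree_mul_le_of_le h.deg h'.deg,
    P' * Q', ?_, by rw [eval_mul, hP1, hQ1]⟩
  intro n
  rw [coeff_mul, coeff_mul]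
  refine (Int.natAbs_sum_le _ _).trans ?_
  apply Finset.sum_le_sum
  intro p _
  rw [Int.natAbs_mul]
  exact Nat.mul_le_mul (hP _) (hQ _)

theorem KG.CK (c : ℤ) : KG (C c) c c.natAbs 0 := by
  refine ⟨eval_C, (natDegree_C c).le, C c.natAbs, ?_, eval_C⟩
  intro n
  rw [coeff_C, coeff_C]
  split_ifs
  · exact le_rfl
  · simp

theorem KG.XK : KG X (X0 : ℤ) 1 1 := by
  refine ⟨eval_X, natDegree_X_le, X, ?_, eval_X⟩
  intro n
  rw [coeff_X, coeff_X]
  split_ifs <;> simp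

theorem KG.powK {P : Polynomial ℤ} {a : ℤ} {M d : ℕ} (h : KG P a M d) (n : ℕ) :
    KG (P ^ n) (a ^ n) (M ^ n) (n * d) := by
  induction n with
  | zero =>
    have := KG.CK 1
    simpa using this
  | succ n ih =>
    have := ih.mulK h
    rw [pow_succ, pow_succ, pow_succ, Nat.succ_mul]
    exact this

theorem KG.coeff_le {P : Polynomial ℤ} {a : ℤ} {M d : ℕ} (h : KG P a M d) (n : ℕ) :
    (P.coeff n).natAbs ≤ M := by
  obtain ⟨P', hP, hP1⟩ := h.maj
  refine (hP n).trans ?_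
  rw [← hP1, eval_eq_sum_range]
  simp only [one_pow, mul_one]
  by_cases hn : n ≤ P'.natDegree
  · exact Finset.single_le_sum (f := fun i => P'.coeff i) (fun _ _ => Nat.zero_le _)
      (Finset.mem_range.2 (by omega))
  · rw [coeff_eq_zero_of_natDegree_lt (by omega)]
    exact Nat.zero_le _

theorem kron (n : ℕ) : ∀ (P : Polynomial ℤ) (v M : ℕ), P.natDegree ≤ n → P.eval (X0 : ℤ) = v →
    (∀ k, (P.coeff k).natAbs ≤ M) → 2 * M < X0 → dig M (n + 1) v = true →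
    (∀ k, 0 ≤ P.coeff k) ∧ P.coeff 0 = ((v % X0 : ℕ) : ℤ) := by
  induction n with
  | zero =>
    intro P v M hd hev hc hM _
    have hPC := eq_C_of_natDegree_le_zero hd
    have h0 : P.coeff 0 = v := by
      rw [hPC, eval_C] at hev
      exact hev
    have h1 := hc 0
    rw [h0] at h1
    have h2 : v % X0 = v := Nat.mod_eq_of_lt (by simp at h1; omega)
    refine ⟨?_, by rw [h0, h2]⟩
    intro k
    cases k with
    | zero => rw [h0]; exact Int.natCast_nonneg _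
    | succ k => rw [coeff_eq_zero_of_natDegree_lt (by omega)]
  | succ n ih =>
    intro P v M hd hev hc hM hdig
    rw [dig, Bool.and_eq_true, Nat.ble_eq] at hdig
    obtain ⟨hd1, hd2⟩ := hdig
    have hX : (0 : ℤ) < X0 := by
      have : 0 < X0 := by omega
      exact_mod_cast this
    obtain ⟨w, hw⟩ : ∃ w, w = P.divX.eval (X0 : ℤ) := ⟨_, rfl⟩
    have hev2 : w * X0 + P.coeff 0 = v := by
      rw [← hev, hw]
      conv_rhs => rw [← divX_mul_X_add P]
      rw [eval_add, eval_mul, eval_X, eval_C]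
    have hv : (v : ℤ) = ((v / X0 : ℕ) : ℤ) * X0 + ((v % X0 : ℕ) : ℤ) := by
      have := Nat.div_add_mod v X0
      rw [mul_comm]
      exact_mod_cast this.symm
    have hc0 := hc 0
    have hc0' : |P.coeff 0| ≤ M := by
      rw [Int.abs_eq_natAbs]
      exact_mod_cast hc0
    rw [abs_le] at hc0'
    have hd1' : ((v % X0 : ℕ) : ℤ) ≤ M := by exact_mod_cast hd1
    have hd0' : (0 : ℤ) ≤ ((v % X0 : ℕ) : ℤ) := Int.natCast_nonneg _
    have hM' : 2 * (M : ℤ) < X0 := by exact_mod_cast hM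
    have hdiff : (w - ((v / X0 : ℕ) : ℤ)) * X0 = ((v % X0 : ℕ) : ℤ) - P.coeff 0 := by linarith
    have hw0 : w - ((v / X0 : ℕ) : ℤ) = 0 := by
      by_contra hne
      have h1 : (1 : ℤ) ≤ |w - ((v / X0 : ℕ) : ℤ)| := Int.one_le_abs hne
      have h2 : |(w - ((v / X0 : ℕ) : ℤ)) * X0| = |w - ((v / X0 : ℕ) : ℤ)| * X0 := by
        rw [abs_mul, abs_of_pos hX]
      have h3 : (X0 : ℤ) ≤ |(w - ((v / X0 : ℕ) : ℤ)) * X0| := by
        rw [h2]
        exact le_mul_of_one_le_left hX.le h1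
      rw [hdiff] at h3
      have h4 : |((v % X0 : ℕ) : ℤ) - P.coeff 0| ≤ 2 * M := by
        rw [abs_le]
        constructor <;> linarith
      linarith
    have hcoeff0 : P.coeff 0 = ((v % X0 : ℕ) : ℤ) := by
      rw [hw0, zero_mul] at hdiff
      linarith
    have hdeg : P.divX.natDegree ≤ n := by
      rw [natDegree_divX_eq_natDegree_tsub_one]
      omega
    have hih := ih P.divX (v / X0) M hdeg (by rw [← hw]; linarith) (by
      intro k
      rw [coeff_divX]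
      exact hc (k + 1)) hM hd2
    refine ⟨?_, hcoeff0⟩
    intro k
    cases k with
    | zero => rw [hcoeff0]; exact hd0'
    | succ k =>
      have := hih.1 k
      rwa [coeff_divX] at this

theorem kron_pos {P : Polynomial ℤ} {v : ℤ} {M : ℕ} {i : ℕ} (h : KG P v M 64)
    (hg : good i v M = true) (t : ℝ) (ht : 0 ≤ t) (hti : 0 < t ∨ i ≠ 0) : 0 < aeval t P := by
  unfold good at hg
  simp only [Bool.and_eq_true, Bool.or_eq_true, decide_eq_true_eq] at hg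
  obtain ⟨⟨⟨h1, h2⟩, h3⟩, h4⟩ := hg
  have h2' : 2 * M < X0 := by
    unfold Nat.blt at h2
    rw [Nat.ble_eq] at h2
    exact h2
  have hv : ((v.toNat : ℕ) : ℤ) = v := Int.toNat_of_nonneg h1.le
  obtain ⟨k1, k2⟩ := kron 64 P v.toNat M h.deg (by rw [h.ev, hv]) h.coeff_le h2' h3
  rw [aeval_eq_sum_range]
  have hnn : ∀ k ∈ Finset.range (P.natDegree + 1), (0 : ℝ) ≤ P.coeff k • t ^ k := by
    intro k _
    rw [zsmul_eq_mul]
    have : (0 : ℝ) ≤ P.coeff k := by exact_mod_cast k1 k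
    positivity
  rcases hti with ht0 | hi
  · have hP0 : P ≠ 0 := by
      rintro rfl
      have := h.ev
      rw [eval_zero] at this
      omega
    have hlc : 0 < P.leadingCoeff :=
      lt_of_le_of_ne (k1 P.natDegree) (Ne.symm (leadingCoeff_ne_zero.2 hP0))
    apply Finset.sum_pos' hnn
    refine ⟨P.natDegree, Finset.self_mem_range_succ _, ?_⟩
    rw [zsmul_eq_mul]
    have : (0 : ℝ) < P.coeff P.natDegree := by exact_mod_cast hlc
    positivity
  · have h5 : 0 < v.toNat % X0 := by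
      rcases h4 with h4 | h4
      · exact absurd (Nat.eq_of_beq_eq_true h4) hi
      · unfold Nat.blt at h4
        rw [Nat.ble_eq] at h4
        exact h4
    apply Finset.sum_pos' hnn
    refine ⟨0, Finset.mem_range.2 (by omega), ?_⟩
    rw [zsmul_eq_mul, pow_zero, mul_one, k2]
    exact_mod_cast h5

/-- the polynomials -/
noncomputable def Qp (m i k : ℕ) (n : ℕ) : Polynomial ℤ :=
  ∑ j ∈ Finset.range n, C (((-1) ^ j * (((m - 1).descFactorial k * (m.descFactorial j / j.factorial) : ℕ) : ℤ))) *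
    (C ((i - j : ℕ) : ℤ) + C ((i - j + 1 : ℕ) : ℤ) * X) ^ (m - 1 - k)

theorem Qp_KG (m i k n : ℕ) : KG (Qp m i k n) (aQ m i k n) (mQ m i k n) (m - 1 - k) := by
  induction n with
  | zero =>
    have h := (KG.CK 0).mono (Nat.zero_le (m - 1 - k))
    have e : Qp m i k 0 = C 0 := by
      unfold Qp
      simp
    rw [e]
    exact h
  | succ n ih =>
    have e : Qp m i k (n + 1) = Qp m i k n +
      C (((-1) ^ n * (((m - 1).descFactorial k * (m.descFactorial n / n.factorial) : ℕ) : ℤ))) *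
      (C ((i - n : ℕ) : ℤ) + C ((i - n + 1 : ℕ) : ℤ) * X) ^ (m - 1 - k) := by
      unfold Qp
      rw [Finset.sum_range_succ]
    have hlin : KG (C ((i - n : ℕ) : ℤ) + C ((i - n + 1 : ℕ) : ℤ) * X)
        (((i - n : ℕ) : ℤ) + ((i - n + 1 : ℕ) : ℤ) * X0) ((i - n) + (i - n + 1) * 1) 1 := by
      have h1 := (KG.CK ((i - n : ℕ) : ℤ)).mono (Nat.zero_le 1)
      have h2 := (KG.CK ((i - n + 1 : ℕ) : ℤ)).mulK KG.XK
      rw [Int.natAbs_natCast] at h1 h2
      exact h1.addK h2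
    have hterm := (KG.CK ((-1) ^ n * (((m - 1).descFactorial k *
      (m.descFactorial n / n.factorial) : ℕ) : ℤ))).mulK (hlin.powK (m - 1 - k))
    have hterm' := hterm.mono (show 0 + (m - 1 - k) * 1 ≤ m - 1 - k by omega)
    have hadd := ih.addK hterm'
    rw [e]
    have hM : mQ m i k (n + 1) = mQ m i k n + (((-1 : ℤ) ^ n * (((m - 1).descFactorial k *
      (m.descFactorial n / n.factorial) : ℕ) : ℤ)).natAbs * ((i - n) + (i - n + 1) * 1) ^ (m - 1 - k)) := by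
      rw [Int.natAbs_mul, Int.natAbs_pow, Int.natAbs_neg, Int.natAbs_one, one_pow, one_mul,
        Int.natAbs_natCast]
      rfl
    have hA : aQ m i k (n + 1) = aQ m i k n + ((-1 : ℤ) ^ n * (((m - 1).descFactorial k *
      (m.descFactorial n / n.factorial) : ℕ) : ℤ)) *
      (((i - n : ℕ) : ℤ) + ((i - n + 1 : ℕ) : ℤ) * X0) ^ (m - 1 - k) := by
      have ht : ((tQ m i k n X0 : ℕ) : ℤ) = (((m - 1).descFactorial k *
        (m.descFactorial n / n.factorial) : ℕ) : ℤ) *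
        (((i - n : ℕ) : ℤ) + ((i - n + 1 : ℕ) : ℤ) * X0) ^ (m - 1 - k) := by
        unfold tQ
        rw [Nat.cast_mul, Nat.cast_pow, Nat.cast_add (i - n), Nat.cast_mul (i - n + 1)]
      show (if n % 2 = 0 then aQ m i k n + (tQ m i k n X0 : ℕ)
        else aQ m i k n - (tQ m i k n X0 : ℕ)) = _
      rw [ht]
      by_cases hn : n % 2 = 0
      · rw [if_pos hn, (Nat.even_iff.2 hn).neg_one_pow]
        ring
      · rw [if_neg hn, (Nat.odd_iff.2 (by omega)).neg_one_pow]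
        ring
    rw [hM, hA]
    exact hadd

theorem D1_KG {Q : ℕ → Polynomial ℤ} {a : ℕ → ℤ} {M : ℕ → ℕ} (h : ∀ k, KG (Q k) (a k) (M k) 16) :
    KG (D1 Q) (D1 a) (P1 M) 64 := (h 0).mono (by norm_num)

theorem D2_KG {Q : ℕ → Polynomial ℤ} {a : ℕ → ℤ} {M : ℕ → ℕ} (h : ∀ k, KG (Q k) (a k) (M k) 16) :
    KG (D2 Q) (D2 a) (P2 M) 64 :=
  (((h 1).mulK (h 1)).subK ((h 0).mulK (h 2))).mono (by norm_num)

theorem D3_KG {Q : ℕ → Polynomial ℤ} {a : ℕ → ℤ} {M : ℕ → ℕ} (h : ∀ k, KG (Q k) (a k) (M k) 16) :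
    KG (D3 Q) (D3 a) (P3 M) 64 :=
  ((((h 1).mulK (((h 1).mulK (h 4)).subK ((h 2).mulK (h 3)))).subK
    ((h 0).mulK (((h 2).mulK (h 4)).subK ((h 3).mulK (h 3))))).subK
    ((h 2).mulK (((h 1).mulK (h 3)).subK ((h 2).mulK (h 2))))).mono (by norm_num)

theorem D4_KG {Q : ℕ → Polynomial ℤ} {a : ℕ → ℤ} {M : ℕ → ℕ} (h : ∀ k, KG (Q k) (a k) (M k) 16) :
    KG (D4 Q) (D4 a) (P4 M) 64 := by
  have hm : ∀ a1 a2 a3 a4, KG (Q a1 * Q a2 - Q a3 * Q a4) (a a1 * a a2 - a a3 * a a4)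
      (M a1 * M a2 + M a3 * M a4) (16 + 16) := fun a1 a2 a3 a4 =>
    ((h a1).mulK (h a2)).subK ((h a3).mulK (h a4))
  exact (((((((hm 0 2 1 1).mulK (hm 4 6 5 5)).subK ((hm 0 3 2 1).mulK (hm 3 6 5 4))).addK
    ((hm 0 4 3 1).mulK (hm 3 5 4 4))).addK ((hm 1 3 2 2).mulK (hm 2 6 5 3))).subK
    ((hm 1 4 3 2).mulK (hm 2 5 4 3))).addK ((hm 2 4 3 3).mulK (hm 2 4 3 3)))

theorem chk_use {m i : ℕ} (h9 : 9 ≤ m) (h17 : m ≤ 17) (hi : i < m) : chk m i = true := by
  have h := chk_all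
  rw [List.all_eq_true] at h
  have h1 := h (m - 9) (List.mem_range.2 (by omega))
  rw [List.all_eq_true] at h1
  have e : m - 9 + 9 = m := by omega
  rw [e] at h1
  exact h1 i (List.mem_range.2 hi)

/-- all four determinants are positive -/
theorem D_pos {m i : ℕ} (h9 : 9 ≤ m) (h17 : m ≤ 17) (hi : i < m) (t : ℝ) (ht : 0 ≤ t)
    (hti : 0 < t ∨ i ≠ 0) :
    0 < D1 (fun k => aeval t (Qp m i k (i + 1))) ∧ 0 < D2 (fun k => aeval t (Qp m i k (i + 1))) ∧
    0 < D3 (fun k => aeval t (Qp m i k (i + 1))) ∧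
    0 < D4 (fun k => aeval t (Qp m i k (i + 1))) := by
  have hc := chk_use h9 h17 hi
  unfold chk at hc
  simp only [Bool.and_eq_true] at hc
  obtain ⟨⟨⟨c1, c2⟩, c3⟩, c4⟩ := hc
  have hK : ∀ k, KG (Qp m i k (i + 1)) (aQ m i k (i + 1)) (mQ m i k (i + 1)) 16 := fun k =>
    (Qp_KG m i k (i + 1)).mono (by omega)
  have p1 := kron_pos (D1_KG hK) c1 t ht hti
  have p2 := kron_pos (D2_KG hK) c2 t ht hti
  have p3 := kron_pos (D3_KG hK) c3 t ht hti
  have p4 := kron_pos (D4_KG hK) c4 t ht hti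
  unfold D1 at p1
  unfold D2 at p2
  unfold D3 at p3
  unfold D4 at p4
  simp only [map_add, map_sub, map_mul] at p1 p2 p3 p4
  exact ⟨p1, p2, p3, p4⟩

end Kron

theorem T_piece (m p i : ℕ) (hp : p ≠ 0) (hi : i < m) (s : ℝ) (hs0 : 0 ≤ s) (hs1 : s < 1) :
    T m p (2 * (i + s) - m) = 2 ^ p * ∑ j ∈ Finset.range (i + 1),
      (-1 : ℝ) ^ j * (m.choose j) * (((i - j : ℕ) : ℝ) + s) ^ p := by
  unfold T
  have hsub : Finset.range (i + 1) ⊆ Finset.range (m + 1) := Finset.range_subset_range.2 (by omega)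
  rw [← Finset.sum_subset hsub]
  · rw [Finset.mul_sum]
    apply Finset.sum_congr rfl
    intro j hj
    have hji : j ≤ i := by
      have := Finset.mem_range.1 hj
      omega
    have hc : ((i - j : ℕ) : ℝ) = i - j := Nat.cast_sub hji
    have h1 : 2 * ((i : ℝ) + s) - m + m - 2 * j = 2 * (((i - j : ℕ) : ℝ) + s) := by
      rw [hc]
      ring
    have h2 : (0 : ℝ) ≤ ((i - j : ℕ) : ℝ) := Nat.cast_nonneg _
    rw [h1, max_eq_right (by positivity), mul_pow]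
    ring
  · intro j _ hj
    have hji : i + 1 ≤ j := by
      by_contra h
      exact hj (Finset.mem_range.2 (by omega))
    have hji' : (i : ℝ) + 1 ≤ j := by exact_mod_cast hji
    have h1 : 2 * ((i : ℝ) + s) - m + m - 2 * j ≤ 0 := by linarith
    rw [max_eq_left h1, zero_pow hp, mul_zero]

open Polynomial in
theorem Qp_eval (m i k : ℕ) (hi : i < m) (s : ℝ) (hs1 : s < 1) :
    (1 - s) ^ (m - 1 - k) * aeval (s / (1 - s)) (Qp m i k (i + 1)) =
      ((m - 1).descFactorial k : ℝ) * ∑ j ∈ Finset.range (i + 1),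
      (-1 : ℝ) ^ j * (m.choose j) * (((i - j : ℕ) : ℝ) + s) ^ (m - 1 - k) := by
  unfold Qp
  rw [map_sum, Finset.mul_sum, Finset.mul_sum]
  apply Finset.sum_congr rfl
  intro j _
  have hne : (1 - s) ≠ 0 := by linarith
  rw [← Nat.choose_eq_descFactorial_div_factorial]
  simp only [map_mul, map_pow, map_add, map_neg, map_one, aeval_X, eq_intCast,
    Int.cast_natCast, map_natCast, Nat.cast_mul]
  have h1 : (((i - j : ℕ) : ℝ) + s) = (1 - s) * (((i - j : ℕ) : ℝ) + ((i - j + 1 : ℕ) : ℝ) * (s / (1 - s))) := by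
    push_cast
    field_simp
    ring
  rw [h1, mul_pow]
  ring

theorem Bd_piece (m k i : ℕ) (hk : k + 2 ≤ m) (hi : i < m) (s : ℝ) (hs0 : 0 ≤ s) (hs1 : s < 1) :
    Bd m k (2 * (i + s) - m) = ((1 - s) ^ (m - 1) / (2 * ((m - 1).factorial : ℝ))) *
      (1 / (2 * (1 - s))) ^ k * Polynomial.aeval (s / (1 - s)) (Qp m i k (i + 1)) := by
  have h1s : 0 < 1 - s := by linarith
  have hne : (1 - s) ≠ 0 := h1s.ne'
  unfold Bd
  rw [T_piece m (m - 1 - k) i (by omega) hi s hs0 hs1]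
  have hQ := Qp_eval m i k hi s hs1
  obtain ⟨S, hS⟩ : ∃ S, S = ∑ j ∈ Finset.range (i + 1),
      (-1 : ℝ) ^ j * (m.choose j) * (((i - j : ℕ) : ℝ) + s) ^ (m - 1 - k) := ⟨_, rfl⟩
  rw [← hS] at hQ ⊢
  obtain ⟨p, hp⟩ : ∃ p, m = p + k + 1 := ⟨m - 1 - k, by omega⟩
  have e1 : m - 1 - k = p := by omega
  have e2 : m - 1 = p + k := by omega
  have hfac := Nat.factorial_mul_descFactorial (show k ≤ m - 1 by omega)
  rw [e1] at hfac
  have hfac' : ((p.factorial : ℕ) : ℝ) * ((m - 1).descFactorial k : ℝ) = ((m - 1).factorial : ℝ) := by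
    exact_mod_cast hfac
  rw [e1] at hQ ⊢
  rw [← hfac', e2, hp]
  have hp0 : ((p.factorial : ℕ) : ℝ) ≠ 0 := by
    exact_mod_cast p.factorial_ne_zero
  have hD0 : ((p + k).descFactorial k : ℝ) ≠ 0 := by
    have : (p + k).descFactorial k ≠ 0 := by
      rw [Ne, Nat.descFactorial_eq_zero_iff_lt]
      omega
    exact_mod_cast this
  rw [e2] at hQ
  rw [hp] at hQ
  have hSq : S = (1 - s) ^ p * Polynomial.aeval (s / (1 - s)) (Qp (p + k + 1) i k (i + 1)) /
      ((p + k).descFactorial k : ℝ) := by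
    rw [hQ]
    field_simp
  rw [hSq, div_pow, one_pow, mul_pow, pow_add (1 - s) p k]
  field_simp
  ring

theorem wr_eq (r : ℕ) (h1 : 1 ≤ r) (h4 : r ≤ 4) (f : ℕ → ℝ → ℝ) (x A ρ : ℝ) (Q : ℕ → ℝ)
    (hA : 0 < A) (hρ : 0 < ρ) (hf : ∀ k, k ≤ 6 → f k x = A * ρ ^ k * Q k)
    (hD : 0 < D1 Q ∧ 0 < D2 Q ∧ 0 < D3 Q ∧ 0 < D4 Q) : 0 < wr r f x := by
  obtain ⟨d1, d2, d3, d4⟩ := hD
  have f0 := hf 0 (by norm_num)
  have f1 := hf 1 (by norm_num)
  have f2 := hf 2 (by norm_num)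
  have f3 := hf 3 (by norm_num)
  have f4 := hf 4 (by norm_num)
  have f5 := hf 5 (by norm_num)
  have f6 := hf 6 (by norm_num)
  interval_cases r
  · have e : wr 1 f x = A * D1 Q := by
      unfold wr D1
      simp [Matrix.det_fin_one, f0]
    rw [e]
    positivity
  · have e : wr 2 f x = A ^ 2 * ρ ^ 2 * D2 Q := by
      unfold wr D2
      simp [Matrix.det_fin_two, f0, f1, f2]
      ring
    rw [e]
    positivity
  · have e : wr 3 f x = A ^ 3 * ρ ^ 6 * D3 Q := by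
      unfold wr D3
      simp [Matrix.det_fin_three, f0, f1, f2, f3, f4]
      ring
    rw [e]
    positivity
  · have e : wr 4 f x = A ^ 4 * ρ ^ 12 * D4 Q := by
      unfold wr D4
      rw [Matrix.det_succ_row_zero]
      simp [Fin.sum_univ_succ, Matrix.det_fin_three, Fin.succAbove, f0, f1, f2, f3, f4, f5, f6]
      ring
    rw [e]
    positivity

theorem wr_base (m : ℕ) (h9 : 9 ≤ m) (h17 : m ≤ 17) (r : ℕ) (h1 : 1 ≤ r) (h4 : r ≤ 4) (x : ℝ)
    (hx : |x| < m) : 0 < wr r (Bd m) x := by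
  rw [abs_lt] at hx
  obtain ⟨y, hy⟩ : ∃ y, y = (x + m) / 2 := ⟨_, rfl⟩
  have hy0 : 0 < y := by
    rw [hy]
    linarith [hx.1]
  have hym : y < m := by
    rw [hy]
    linarith [hx.2]
  obtain ⟨i, hi⟩ : ∃ i, i = ⌊y⌋₊ := ⟨_, rfl⟩
  have hi1 : (i : ℝ) ≤ y := by
    rw [hi]
    exact Nat.floor_le hy0.le
  have hi2 : y < i + 1 := by
    rw [hi]
    exact Nat.lt_floor_add_one y
  have him : i < m := by
    have : (i : ℝ) < m := lt_of_le_of_lt hi1 hym
    exact_mod_cast this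
  obtain ⟨s, hs⟩ : ∃ s, s = y - i := ⟨_, rfl⟩
  have hs0 : 0 ≤ s := by rw [hs]; linarith
  have hs1 : s < 1 := by rw [hs]; linarith
  have hxs : x = 2 * (i + s) - m := by
    rw [hs, hy]
    ring
  have h1s : 0 < 1 - s := by linarith
  have hti : 0 < s / (1 - s) ∨ i ≠ 0 := by
    by_cases hi0 : i = 0
    · left
      have : 0 < s := by
        rw [hs, hi0]
        simpa using hy0
      positivity
    · right
      exact hi0
  rw [hxs]
  apply wr_eq r h1 h4 (Bd m) _ ((1 - s) ^ (m - 1) / (2 * ((m - 1).factorial : ℝ)))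
    (1 / (2 * (1 - s))) (fun k => Polynomial.aeval (s / (1 - s)) (Qp m i k (i + 1)))
    (by positivity) (by positivity)
  · intro k hk
    exact Bd_piece m k i (by omega) him s hs0 hs1
  · exact D_pos h9 h17 him _ (by positivity) hti

end US.S4582
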