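import Pool.Agent.Helper70.US.Defs
set_option autoImplicit false
namespace US.S4583




private lemma T_cut (m p k : ℕ) (hk : k ≤ m) (hp : p ≠ 0) (s : ℝ) (h0 : 0 ≤ s) (h1 : s ≤ 1) :
    T m p (m - 2 * k - 2 * s) =
      ∑ j ∈ Finset.range (m - k), (-1 : ℝ) ^ j * (m.choose j) * (2 * ((m : ℝ) - k - j) - 2 * s) ^ p := by
  unfold T
  have hsplit : m + 1 = (m - k) + (k + 1) := by omega
  rw [hsplit, Finset.sum_range_add]
  have hz : ∑ i ∈ Finset.range (k + 1), (-1 : ℝ) ^ (m - k + i) * (m.choose (m - k + i)) *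
      (max 0 ((m : ℝ) - 2 * k - 2 * s + m - 2 * ((m - k + i : ℕ) : ℝ))) ^ p = 0 := by
    apply Finset.sum_eq_zero
    intro i _
    have : max 0 ((m : ℝ) - 2 * k - 2 * s + m - 2 * ((m - k + i : ℕ) : ℝ)) = 0 := by
      apply max_eq_left
      push_cast [Nat.cast_sub hk]
      have : (0 : ℝ) ≤ i := Nat.cast_nonneg i
      linarith
    rw [this, zero_pow hp, mul_zero]
  rw [hz, add_zero]
  apply Finset.sum_congr rfl
  intro j hj
  rw [Finset.mem_range] at hj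
  have hj' : (j : ℝ) + 1 + k ≤ m := by
    have : j + 1 + k ≤ m := by omega
    exact_mod_cast this
  congr 2
  rw [max_eq_right (by linarith)]
  ring

private lemma Bd_7_0 (x : ℝ) : Bd 7 0 x = T 7 6 x / 92160 := by
  unfold Bd
  norm_num [Nat.factorial]

private lemma Bd_7_1 (x : ℝ) : Bd 7 1 x = T 7 5 x / 15360 := by
  unfold Bd
  norm_num [Nat.factorial]

private lemma Bd_7_2 (x : ℝ) : Bd 7 2 x = T 7 4 x / 3072 := by
  unfold Bd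
  norm_num [Nat.factorial]

private lemma Bd_7_3 (x : ℝ) : Bd 7 3 x = T 7 3 x / 768 := by
  unfold Bd
  norm_num [Nat.factorial]

private lemma T_7_6_0 (s : ℝ) (h0 : 0 ≤ s) (h1 : s ≤ 1) :
    T 7 6 (7 - 2 * 0 - 2 * s) = (64)*s^6 := by
  have h := T_cut 7 6 0 (by norm_num) (by norm_num) s h0 h1
  push_cast at h
  rw [h]
  norm_num [Finset.sum_range_succ, Nat.choose]
  ring

private lemma T_7_5_0 (s : ℝ) (h0 : 0 ≤ s) (h1 : s ≤ 1) :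
    T 7 5 (7 - 2 * 0 - 2 * s) = (-32)*s^5 := by
  have h := T_cut 7 5 0 (by norm_num) (by norm_num) s h0 h1
  push_cast at h
  rw [h]
  norm_num [Finset.sum_range_succ, Nat.choose]
  ring

private lemma T_7_4_0 (s : ℝ) (h0 : 0 ≤ s) (h1 : s ≤ 1) :
    T 7 4 (7 - 2 * 0 - 2 * s) = (16)*s^4 := by
  have h := T_cut 7 4 0 (by norm_num) (by norm_num) s h0 h1
  push_cast at h
  rw [h]
  norm_num [Finset.sum_range_succ, Nat.choose]
  ring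

private lemma T_7_3_0 (s : ℝ) (h0 : 0 ≤ s) (h1 : s ≤ 1) :
    T 7 3 (7 - 2 * 0 - 2 * s) = (-8)*s^3 := by
  have h := T_cut 7 3 0 (by norm_num) (by norm_num) s h0 h1
  push_cast at h
  rw [h]
  norm_num [Finset.sum_range_succ, Nat.choose]
  ring

private lemma piece_7_0 (s : ℝ) (h0 : 0 ≤ s) (h1 : s ≤ 1) :
    0 ≤ - (Bd 7 0 (7 - 2 * 0 - 2 * s)) ^ 2 * Bd 7 3 (7 - 2 * 0 - 2 * s)
      + 3 * Bd 7 0 (7 - 2 * 0 - 2 * s) * Bd 7 1 (7 - 2 * 0 - 2 * s) * Bd 7 2 (7 - 2 * 0 - 2 * s)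
      - 2 * (Bd 7 1 (7 - 2 * 0 - 2 * s)) ^ 3 := by
  rw [Bd_7_0, Bd_7_1, Bd_7_2, Bd_7_3, T_7_6_0 s h0 h1, T_7_5_0 s h0 h1, T_7_4_0 s h0 h1, T_7_3_0 s h0 h1]
  have h1' : 0 ≤ 1 - s := by linarith
  have key : 0 ≤ (1/1990656000)*(s^15*(1-s)^0) := by positivity
  refine key.trans (le_of_eq ?_)
  ring

private lemma T_7_6_1 (s : ℝ) (h0 : 0 ≤ s) (h1 : s ≤ 1) :
    T 7 6 (7 - 2 * 1 - 2 * s) = (64) + (384)*s + (960)*s^2 + (1280)*s^3 + (960)*s^4 + (384)*s^5 + (-384)*s^6 := by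
  have h := T_cut 7 6 1 (by norm_num) (by norm_num) s h0 h1
  push_cast at h
  rw [h]
  norm_num [Finset.sum_range_succ, Nat.choose]
  ring

private lemma T_7_5_1 (s : ℝ) (h0 : 0 ≤ s) (h1 : s ≤ 1) :
    T 7 5 (7 - 2 * 1 - 2 * s) = (-32) + (-160)*s + (-320)*s^2 + (-320)*s^3 + (-160)*s^4 + (192)*s^5 := by
  have h := T_cut 7 5 1 (by norm_num) (by norm_num) s h0 h1
  push_cast at h
  rw [h]
  norm_num [Finset.sum_range_succ, Nat.choose]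
  ring

private lemma T_7_4_1 (s : ℝ) (h0 : 0 ≤ s) (h1 : s ≤ 1) :
    T 7 4 (7 - 2 * 1 - 2 * s) = (16) + (64)*s + (96)*s^2 + (64)*s^3 + (-96)*s^4 := by
  have h := T_cut 7 4 1 (by norm_num) (by norm_num) s h0 h1
  push_cast at h
  rw [h]
  norm_num [Finset.sum_range_succ, Nat.choose]
  ring

private lemma T_7_3_1 (s : ℝ) (h0 : 0 ≤ s) (h1 : s ≤ 1) :
    T 7 3 (7 - 2 * 1 - 2 * s) = (-8) + (-24)*s + (-24)*s^2 + (48)*s^3 := by
  have h := T_cut 7 3 1 (by norm_num) (by norm_num) s h0 h1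
  push_cast at h
  rw [h]
  norm_num [Finset.sum_range_succ, Nat.choose]
  ring

private lemma piece_7_1 (s : ℝ) (h0 : 0 ≤ s) (h1 : s ≤ 1) :
    0 ≤ - (Bd 7 0 (7 - 2 * 1 - 2 * s)) ^ 2 * Bd 7 3 (7 - 2 * 1 - 2 * s)
      + 3 * Bd 7 0 (7 - 2 * 1 - 2 * s) * Bd 7 1 (7 - 2 * 1 - 2 * s) * Bd 7 2 (7 - 2 * 1 - 2 * s)
      - 2 * (Bd 7 1 (7 - 2 * 1 - 2 * s)) ^ 3 := by
  rw [Bd_7_0, Bd_7_1, Bd_7_2, Bd_7_3, T_7_6_1 s h0 h1, T_7_5_1 s h0 h1, T_7_4_1 s h0 h1, T_7_3_1 s h0 h1]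
  have h1' : 0 ≤ 1 - s := by linarith
  have key : 0 ≤ (1/1990656000)*(s^0*(1-s)^15) + (1/66355200)*(s^1*(1-s)^14) + (7/33177600)*(s^2*(1-s)^13) + (119/66355200)*(s^3*(1-s)^12) + (91/8847360)*(s^4*(1-s)^11) + (623/14745600)*(s^5*(1-s)^10) + (3437/26542080)*(s^6*(1-s)^9) + (451/1474560)*(s^7*(1-s)^8) + (527/921600)*(s^8*(1-s)^7) + (342923/398131200)*(s^9*(1-s)^6) + (138509/132710400)*(s^10*(1-s)^5) + (130963/132710400)*(s^11*(1-s)^4) + (9079/13271040)*(s^12*(1-s)^3) + (3493/11059200)*(s^13*(1-s)^2) + (461/5529600)*(s^14*(1-s)^1) + (397/44236800)*(s^15*(1-s)^0) := by positivity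
  refine key.trans (le_of_eq ?_)
  ring

private lemma T_7_6_2 (s : ℝ) (h0 : 0 ≤ s) (h1 : s ≤ 1) :
    T 7 6 (7 - 2 * 2 - 2 * s) = (3648) + (9600)*s + (8640)*s^2 + (1280)*s^3 + (-2880)*s^4 + (-1920)*s^5 + (960)*s^6 := by
  have h := T_cut 7 6 2 (by norm_num) (by norm_num) s h0 h1
  push_cast at h
  rw [h]
  norm_num [Finset.sum_range_succ, Nat.choose]
  ring

private lemma T_7_5_2 (s : ℝ) (h0 : 0 ≤ s) (h1 : s ≤ 1) :
    T 7 5 (7 - 2 * 2 - 2 * s) = (-800) + (-1440)*s + (-320)*s^2 + (960)*s^3 + (800)*s^4 + (-480)*s^5 := by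
  have h := T_cut 7 5 2 (by norm_num) (by norm_num) s h0 h1
  push_cast at h
  rw [h]
  norm_num [Finset.sum_range_succ, Nat.choose]
  ring

private lemma T_7_4_2 (s : ℝ) (h0 : 0 ≤ s) (h1 : s ≤ 1) :
    T 7 4 (7 - 2 * 2 - 2 * s) = (144) + (64)*s + (-288)*s^2 + (-320)*s^3 + (240)*s^4 := by
  have h := T_cut 7 4 2 (by norm_num) (by norm_num) s h0 h1
  push_cast at h
  rw [h]
  norm_num [Finset.sum_range_succ, Nat.choose]
  ring

private lemma T_7_3_2 (s : ℝ) (h0 : 0 ≤ s) (h1 : s ≤ 1) :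
    T 7 3 (7 - 2 * 2 - 2 * s) = (-8) + (72)*s + (120)*s^2 + (-120)*s^3 := by
  have h := T_cut 7 3 2 (by norm_num) (by norm_num) s h0 h1
  push_cast at h
  rw [h]
  norm_num [Finset.sum_range_succ, Nat.choose]
  ring

private lemma piece_7_2 (s : ℝ) (h0 : 0 ≤ s) (h1 : s ≤ 1) :
    0 ≤ - (Bd 7 0 (7 - 2 * 2 - 2 * s)) ^ 2 * Bd 7 3 (7 - 2 * 2 - 2 * s)
      + 3 * Bd 7 0 (7 - 2 * 2 - 2 * s) * Bd 7 1 (7 - 2 * 2 - 2 * s) * Bd 7 2 (7 - 2 * 2 - 2 * s)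
      - 2 * (Bd 7 1 (7 - 2 * 2 - 2 * s)) ^ 3 := by
  rw [Bd_7_0, Bd_7_1, Bd_7_2, Bd_7_3, T_7_6_2 s h0 h1, T_7_5_2 s h0 h1, T_7_4_2 s h0 h1, T_7_3_2 s h0 h1]
  have h1' : 0 ≤ 1 - s := by linarith
  have key : 0 ≤ (397/44236800)*(s^0*(1-s)^15) + (4111/22118400)*(s^1*(1-s)^14) + (3227/1843200)*(s^2*(1-s)^13) + (169057/16588800)*(s^3*(1-s)^12) + (1379581/33177600)*(s^4*(1-s)^11) + (262031/2073600)*(s^5*(1-s)^10) + (58378873/199065600)*(s^6*(1-s)^9) + (1923043/3686400)*(s^7*(1-s)^8) + (866549/1228800)*(s^8*(1-s)^7) + (5915833/8294400)*(s^9*(1-s)^6) + (146041/276480)*(s^10*(1-s)^5) + (1539209/5529600)*(s^11*(1-s)^4) + (1665013/16588800)*(s^12*(1-s)^3) + (97223/4147200)*(s^13*(1-s)^2) + (54163/16588800)*(s^14*(1-s)^1) + (2773/12441600)*(s^15*(1-s)^0) := by positivity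
  refine key.trans (le_of_eq ?_)
  ring

private lemma T_7_6_3 (s : ℝ) (h0 : 0 ≤ s) (h1 : s ≤ 1) :
    T 7 6 (7 - 2 * 3 - 2 * s) = (19328) + (15360)*s + (-9600)*s^2 + (-10240)*s^3 + (1920)*s^4 + (3840)*s^5 + (-1280)*s^6 := by
  have h := T_cut 7 6 3 (by norm_num) (by norm_num) s h0 h1
  push_cast at h
  rw [h]
  norm_num [Finset.sum_range_succ, Nat.choose]
  ring

private lemma T_7_5_3 (s : ℝ) (h0 : 0 ≤ s) (h1 : s ≤ 1) :
    T 7 5 (7 - 2 * 3 - 2 * s) = (-1280) + (1600)*s + (2560)*s^2 + (-640)*s^3 + (-1600)*s^4 + (640)*s^5 := by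
  have h := T_cut 7 5 3 (by norm_num) (by norm_num) s h0 h1
  push_cast at h
  rw [h]
  norm_num [Finset.sum_range_succ, Nat.choose]
  ring

private lemma T_7_4_3 (s : ℝ) (h0 : 0 ≤ s) (h1 : s ≤ 1) :
    T 7 4 (7 - 2 * 3 - 2 * s) = (-160) + (-512)*s + (192)*s^2 + (640)*s^3 + (-320)*s^4 := by
  have h := T_cut 7 4 3 (by norm_num) (by norm_num) s h0 h1
  push_cast at h
  rw [h]
  norm_num [Finset.sum_range_succ, Nat.choose]
  ring

private lemma T_7_3_3 (s : ℝ) (h0 : 0 ≤ s) (h1 : s ≤ 1) :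
    T 7 3 (7 - 2 * 3 - 2 * s) = (64) + (-48)*s + (-240)*s^2 + (160)*s^3 := by
  have h := T_cut 7 3 3 (by norm_num) (by norm_num) s h0 h1
  push_cast at h
  rw [h]
  norm_num [Finset.sum_range_succ, Nat.choose]
  ring

private lemma piece_7_3 (s : ℝ) (h0 : 0 ≤ s) (h1 : s ≤ 1 / 2) :
    0 ≤ - (Bd 7 0 (7 - 2 * 3 - 2 * s)) ^ 2 * Bd 7 3 (7 - 2 * 3 - 2 * s)
      + 3 * Bd 7 0 (7 - 2 * 3 - 2 * s) * Bd 7 1 (7 - 2 * 3 - 2 * s) * Bd 7 2 (7 - 2 * 3 - 2 * s)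
      - 2 * (Bd 7 1 (7 - 2 * 3 - 2 * s)) ^ 3 := by
  rw [Bd_7_0, Bd_7_1, Bd_7_2, Bd_7_3, T_7_6_3 s h0 (by linarith), T_7_5_3 s h0 (by linarith), T_7_4_3 s h0 (by linarith), T_7_3_3 s h0 (by linarith)]
  obtain ⟨t, rfl⟩ : ∃ t, s = t / 2 := ⟨2 * s, by ring⟩
  have h0' : 0 ≤ t := by linarith
  have h1' : 0 ≤ 1 - t := by linarith
  have key : 0 ≤ (2773/12441600)*(t^0*(1-t)^15) + (112217/33177600)*(t^1*(1-t)^14) + (804013/33177600)*(t^2*(1-t)^13) + (42894019/398131200)*(t^3*(1-t)^12) + (87512509/265420800)*(t^4*(1-t)^11) + (387980131/530841600)*(t^5*(1-t)^10) + (3840545219/3185049600)*(t^6*(1-t)^9) + (66378683/44236800)*(t^7*(1-t)^8) + (2000694059/1415577600)*(t^8*(1-t)^7) + (12764674489/12740198400)*(t^9*(1-t)^6) + (1116986507/2123366400)*(t^10*(1-t)^5) + (842349641/4246732800)*(t^11*(1-t)^4) + (5175966971/101921587200)*(t^12*(1-t)^3) + (268559053/33973862400)*(t^13*(1-t)^2)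 + (38365579/67947724800)*(t^14*(1-t)^1) := by positivity
  refine key.trans (le_of_eq ?_)
  ring

private lemma Bd_8_0 (x : ℝ) : Bd 8 0 x = T 8 7 x / 1290240 := by
  unfold Bd
  norm_num [Nat.factorial]

private lemma Bd_8_1 (x : ℝ) : Bd 8 1 x = T 8 6 x / 184320 := by
  unfold Bd
  norm_num [Nat.factorial]

private lemma Bd_8_2 (x : ℝ) : Bd 8 2 x = T 8 5 x / 30720 := by
  unfold Bd
  norm_num [Nat.factorial]

private lemma Bd_8_3 (x : ℝ) : Bd 8 3 x = T 8 4 x / 6144 := by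
  unfold Bd
  norm_num [Nat.factorial]

private lemma T_8_7_0 (s : ℝ) (h0 : 0 ≤ s) (h1 : s ≤ 1) :
    T 8 7 (8 - 2 * 0 - 2 * s) = (128)*s^7 := by
  have h := T_cut 8 7 0 (by norm_num) (by norm_num) s h0 h1
  push_cast at h
  rw [h]
  norm_num [Finset.sum_range_succ, Nat.choose]
  ring

private lemma T_8_6_0 (s : ℝ) (h0 : 0 ≤ s) (h1 : s ≤ 1) :
    T 8 6 (8 - 2 * 0 - 2 * s) = (-64)*s^6 := by
  have h := T_cut 8 6 0 (by norm_num) (by norm_num) s h0 h1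
  push_cast at h
  rw [h]
  norm_num [Finset.sum_range_succ, Nat.choose]
  ring

private lemma T_8_5_0 (s : ℝ) (h0 : 0 ≤ s) (h1 : s ≤ 1) :
    T 8 5 (8 - 2 * 0 - 2 * s) = (32)*s^5 := by
  have h := T_cut 8 5 0 (by norm_num) (by norm_num) s h0 h1
  push_cast at h
  rw [h]
  norm_num [Finset.sum_range_succ, Nat.choose]
  ring

private lemma T_8_4_0 (s : ℝ) (h0 : 0 ≤ s) (h1 : s ≤ 1) :
    T 8 4 (8 - 2 * 0 - 2 * s) = (-16)*s^4 := by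
  have h := T_cut 8 4 0 (by norm_num) (by norm_num) s h0 h1
  push_cast at h
  rw [h]
  norm_num [Finset.sum_range_succ, Nat.choose]
  ring

private lemma piece_8_0 (s : ℝ) (h0 : 0 ≤ s) (h1 : s ≤ 1) :
    0 ≤ - (Bd 8 0 (8 - 2 * 0 - 2 * s)) ^ 2 * Bd 8 3 (8 - 2 * 0 - 2 * s)
      + 3 * Bd 8 0 (8 - 2 * 0 - 2 * s) * Bd 8 1 (8 - 2 * 0 - 2 * s) * Bd 8 2 (8 - 2 * 0 - 2 * s)
      - 2 * (Bd 8 1 (8 - 2 * 0 - 2 * s)) ^ 3 := by
  rw [Bd_8_0, Bd_8_1, Bd_8_2, Bd_8_3, T_8_7_0 s h0 h1, T_8_6_0 s h0 h1, T_8_5_0 s h0 h1, T_8_4_0 s h0 h1]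
  have h1' : 0 ≤ 1 - s := by linarith
  have key : 0 ≤ (1/585252864000)*(s^18*(1-s)^0) := by positivity
  refine key.trans (le_of_eq ?_)
  ring

private lemma T_8_7_1 (s : ℝ) (h0 : 0 ≤ s) (h1 : s ≤ 1) :
    T 8 7 (8 - 2 * 1 - 2 * s) = (128) + (896)*s + (2688)*s^2 + (4480)*s^3 + (4480)*s^4 + (2688)*s^5 + (896)*s^6 + (-896)*s^7 := by
  have h := T_cut 8 7 1 (by norm_num) (by norm_num) s h0 h1
  push_cast at h
  rw [h]
  norm_num [Finset.sum_range_succ, Nat.choose]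
  ring

private lemma T_8_6_1 (s : ℝ) (h0 : 0 ≤ s) (h1 : s ≤ 1) :
    T 8 6 (8 - 2 * 1 - 2 * s) = (-64) + (-384)*s + (-960)*s^2 + (-1280)*s^3 + (-960)*s^4 + (-384)*s^5 + (448)*s^6 := by
  have h := T_cut 8 6 1 (by norm_num) (by norm_num) s h0 h1
  push_cast at h
  rw [h]
  norm_num [Finset.sum_range_succ, Nat.choose]
  ring

private lemma T_8_5_1 (s : ℝ) (h0 : 0 ≤ s) (h1 : s ≤ 1) :
    T 8 5 (8 - 2 * 1 - 2 * s) = (32) + (160)*s + (320)*s^2 + (320)*s^3 + (160)*s^4 + (-224)*s^5 := by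
  have h := T_cut 8 5 1 (by norm_num) (by norm_num) s h0 h1
  push_cast at h
  rw [h]
  norm_num [Finset.sum_range_succ, Nat.choose]
  ring

private lemma T_8_4_1 (s : ℝ) (h0 : 0 ≤ s) (h1 : s ≤ 1) :
    T 8 4 (8 - 2 * 1 - 2 * s) = (-16) + (-64)*s + (-96)*s^2 + (-64)*s^3 + (112)*s^4 := by
  have h := T_cut 8 4 1 (by norm_num) (by norm_num) s h0 h1
  push_cast at h
  rw [h]
  norm_num [Finset.sum_range_succ, Nat.choose]
  ring

private lemma piece_8_1 (s : ℝ) (h0 : 0 ≤ s) (h1 : s ≤ 1) :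
    0 ≤ - (Bd 8 0 (8 - 2 * 1 - 2 * s)) ^ 2 * Bd 8 3 (8 - 2 * 1 - 2 * s)
      + 3 * Bd 8 0 (8 - 2 * 1 - 2 * s) * Bd 8 1 (8 - 2 * 1 - 2 * s) * Bd 8 2 (8 - 2 * 1 - 2 * s)
      - 2 * (Bd 8 1 (8 - 2 * 1 - 2 * s)) ^ 3 := by
  rw [Bd_8_0, Bd_8_1, Bd_8_2, Bd_8_3, T_8_7_1 s h0 h1, T_8_6_1 s h0 h1, T_8_5_1 s h0 h1, T_8_4_1 s h0 h1]
  have h1' : 0 ≤ 1 - s := by linarith
  have key : 0 ≤ (1/585252864000)*(s^0*(1-s)^18) + (1/16257024000)*(s^1*(1-s)^17) + (17/16257024000)*(s^2*(1-s)^16) + (17/1524096000)*(s^3*(1-s)^15) + (407/4877107200)*(s^4*(1-s)^14) + (323/696729600)*(s^5*(1-s)^13) + (3443/1741824000)*(s^6*(1-s)^12) + (161059/24385536000)*(s^7*(1-s)^11) + (42757/2438553600)*(s^8*(1-s)^10) + (136543/3657830400)*(s^9*(1-s)^9) + (65153/1016064000)*(s^10*(1-s)^8) + (271729/3048192000)*(s^11*(1-s)^7) + (21811/217728000)*(s^12*(1-s)^6) + (39289/435456000)*(s^13*(1-s)^5)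 + (38879/609638400)*(s^14*(1-s)^4) + (6467/190512000)*(s^15*(1-s)^3) + (4817/381024000)*(s^16*(1-s)^2) + (61/21168000)*(s^17*(1-s)^1) + (337/1143072000)*(s^18*(1-s)^0) := by positivity
  refine key.trans (le_of_eq ?_)
  ring

private lemma T_8_7_2 (s : ℝ) (h0 : 0 ≤ s) (h1 : s ≤ 1) :
    T 8 7 (8 - 2 * 2 - 2 * s) = (15360) + (50176)*s + (64512)*s^2 + (35840)*s^3 + (-10752)*s^5 + (-5376)*s^6 + (2688)*s^7 := by
  have h := T_cut 8 7 2 (by norm_num) (by norm_num) s h0 h1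
  push_cast at h
  rw [h]
  norm_num [Finset.sum_range_succ, Nat.choose]
  ring

private lemma T_8_6_2 (s : ℝ) (h0 : 0 ≤ s) (h1 : s ≤ 1) :
    T 8 6 (8 - 2 * 2 - 2 * s) = (-3584) + (-9216)*s + (-7680)*s^2 + (3840)*s^4 + (2304)*s^5 + (-1344)*s^6 := by
  have h := T_cut 8 6 2 (by norm_num) (by norm_num) s h0 h1
  push_cast at h
  rw [h]
  norm_num [Finset.sum_range_succ, Nat.choose]
  ring

private lemma T_8_5_2 (s : ℝ) (h0 : 0 ≤ s) (h1 : s ≤ 1) :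
    T 8 5 (8 - 2 * 2 - 2 * s) = (768) + (1280)*s + (-1280)*s^3 + (-960)*s^4 + (672)*s^5 := by
  have h := T_cut 8 5 2 (by norm_num) (by norm_num) s h0 h1
  push_cast at h
  rw [h]
  norm_num [Finset.sum_range_succ, Nat.choose]
  ring

private lemma T_8_4_2 (s : ℝ) (h0 : 0 ≤ s) (h1 : s ≤ 1) :
    T 8 4 (8 - 2 * 2 - 2 * s) = (-128) + (384)*s^2 + (384)*s^3 + (-336)*s^4 := by
  have h := T_cut 8 4 2 (by norm_num) (by norm_num) s h0 h1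
  push_cast at h
  rw [h]
  norm_num [Finset.sum_range_succ, Nat.choose]
  ring

private lemma piece_8_2 (s : ℝ) (h0 : 0 ≤ s) (h1 : s ≤ 1) :
    0 ≤ - (Bd 8 0 (8 - 2 * 2 - 2 * s)) ^ 2 * Bd 8 3 (8 - 2 * 2 - 2 * s)
      + 3 * Bd 8 0 (8 - 2 * 2 - 2 * s) * Bd 8 1 (8 - 2 * 2 - 2 * s) * Bd 8 2 (8 - 2 * 2 - 2 * s)
      - 2 * (Bd 8 1 (8 - 2 * 2 - 2 * s)) ^ 3 := by
  rw [Bd_8_0, Bd_8_1, Bd_8_2, Bd_8_3, T_8_7_2 s h0 h1, T_8_6_2 s h0 h1, T_8_5_2 s h0 h1, T_8_4_2 s h0 h1]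
  have h1' : 0 ≤ 1 - s := by linarith
  have key : 0 ≤ (337/1143072000)*(s^0*(1-s)^18) + (491/63504000)*(s^1*(1-s)^17) + (36233/381024000)*(s^2*(1-s)^16) + (27721/38102400)*(s^3*(1-s)^15) + (473311/121927680)*(s^4*(1-s)^14) + (955801/62208000)*(s^5*(1-s)^13) + (637477/13608000)*(s^6*(1-s)^12) + (343494259/3048192000)*(s^7*(1-s)^11) + (14696441/67737600)*(s^8*(1-s)^10) + (1231242853/3657830400)*(s^9*(1-s)^9) + (342091543/812851200)*(s^10*(1-s)^8) + (2055593257/4877107200)*(s^11*(1-s)^7) + (4155769/12441600)*(s^12*(1-s)^6) + (143240641/696729600)*(s^13*(1-s)^5) + (466556077/4877107200)*(s^14*(1-s)^4) + (39447941/1219276800)*(s^15*(1-s)^3) + (2918039/390168576)*(s^16*(1-s)^2) + (1145629/1083801600)*(s^17*(1-s)^1) + (8117353/117050572800)*(s^18*(1-s)^0) := by positivity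
  refine key.trans (le_of_eq ?_)
  ring

private lemma T_8_7_3 (s : ℝ) (h0 : 0 ≤ s) (h1 : s ≤ 1) :
    T 8 7 (8 - 2 * 3 - 2 * s) = (152448) + (219520)*s + (40320)*s^2 + (-85120)*s^3 + (-40320)*s^4 + (13440)*s^5 + (13440)*s^6 + (-4480)*s^7 := by
  have h := T_cut 8 7 3 (by norm_num) (by norm_num) s h0 h1
  push_cast at h
  rw [h]
  norm_num [Finset.sum_range_succ, Nat.choose]
  ring

private lemma T_8_6_3 (s : ℝ) (h0 : 0 ≤ s) (h1 : s ≤ 1) :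
    T 8 6 (8 - 2 * 3 - 2 * s) = (-15680) + (-5760)*s + (18240)*s^2 + (11520)*s^3 + (-4800)*s^4 + (-5760)*s^5 + (2240)*s^6 := by
  have h := T_cut 8 6 3 (by norm_num) (by norm_num) s h0 h1
  push_cast at h
  rw [h]
  norm_num [Finset.sum_range_succ, Nat.choose]
  ring

private lemma T_8_5_3 (s : ℝ) (h0 : 0 ≤ s) (h1 : s ≤ 1) :
    T 8 5 (8 - 2 * 3 - 2 * s) = (480) + (-3040)*s + (-2880)*s^2 + (1600)*s^3 + (2400)*s^4 + (-1120)*s^5 := by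
  have h := T_cut 8 5 3 (by norm_num) (by norm_num) s h0 h1
  push_cast at h
  rw [h]
  norm_num [Finset.sum_range_succ, Nat.choose]
  ring

private lemma T_8_4_3 (s : ℝ) (h0 : 0 ≤ s) (h1 : s ≤ 1) :
    T 8 4 (8 - 2 * 3 - 2 * s) = (304) + (576)*s + (-480)*s^2 + (-960)*s^3 + (560)*s^4 := by
  have h := T_cut 8 4 3 (by norm_num) (by norm_num) s h0 h1
  push_cast at h
  rw [h]
  norm_num [Finset.sum_range_succ, Nat.choose]
  ring

private lemma piece_8_3 (s : ℝ) (h0 : 0 ≤ s) (h1 : s ≤ 1) :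
    0 ≤ - (Bd 8 0 (8 - 2 * 3 - 2 * s)) ^ 2 * Bd 8 3 (8 - 2 * 3 - 2 * s)
      + 3 * Bd 8 0 (8 - 2 * 3 - 2 * s) * Bd 8 1 (8 - 2 * 3 - 2 * s) * Bd 8 2 (8 - 2 * 3 - 2 * s)
      - 2 * (Bd 8 1 (8 - 2 * 3 - 2 * s)) ^ 3 := by
  rw [Bd_8_0, Bd_8_1, Bd_8_2, Bd_8_3, T_8_7_3 s h0 h1, T_8_6_3 s h0 h1, T_8_5_3 s h0 h1, T_8_4_3 s h0 h1]
  have h1' : 0 ≤ 1 - s := by linarith
  have key : 0 ≤ (8117353/117050572800)*(s^0*(1-s)^18) + (334319/232243200)*(s^1*(1-s)^17) + (532709/38102400)*(s^2*(1-s)^16) + (20642203/243855360)*(s^3*(1-s)^15) + (24935857/69672960)*(s^4*(1-s)^14) + (389796839/348364800)*(s^5*(1-s)^13) + (132812719/49766400)*(s^6*(1-s)^12) + (12042017633/2438553600)*(s^7*(1-s)^11) + (8297659/1161216)*(s^8*(1-s)^10) + (92592413/11430720)*(s^9*(1-s)^9) + (1092913223/152409600)*(s^10*(1-s)^8) + (4462217/907200)*(s^11*(1-s)^7) + (28086187/10886400)*(s^12*(1-s)^6)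 + (35047/34560)*(s^13*(1-s)^5) + (8825689/30481920)*(s^14*(1-s)^4) + (77593/1360800)*(s^15*(1-s)^3) + (33371/4762800)*(s^16*(1-s)^2) + (1963/4762800)*(s^17*(1-s)^1) := by positivity
  refine key.trans (le_of_eq ?_)
  ring

private lemma Bd_9_0 (x : ℝ) : Bd 9 0 x = T 9 8 x / 20643840 := by
  unfold Bd
  norm_num [Nat.factorial]

private lemma Bd_9_1 (x : ℝ) : Bd 9 1 x = T 9 7 x / 2580480 := by
  unfold Bd
  norm_num [Nat.factorial]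

private lemma Bd_9_2 (x : ℝ) : Bd 9 2 x = T 9 6 x / 368640 := by
  unfold Bd
  norm_num [Nat.factorial]

private lemma Bd_9_3 (x : ℝ) : Bd 9 3 x = T 9 5 x / 61440 := by
  unfold Bd
  norm_num [Nat.factorial]

private lemma T_9_8_0 (s : ℝ) (h0 : 0 ≤ s) (h1 : s ≤ 1) :
    T 9 8 (9 - 2 * 0 - 2 * s) = (256)*s^8 := by
  have h := T_cut 9 8 0 (by norm_num) (by norm_num) s h0 h1
  push_cast at h
  rw [h]
  norm_num [Finset.sum_range_succ, Nat.choose]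
  ring

private lemma T_9_7_0 (s : ℝ) (h0 : 0 ≤ s) (h1 : s ≤ 1) :
    T 9 7 (9 - 2 * 0 - 2 * s) = (-128)*s^7 := by
  have h := T_cut 9 7 0 (by norm_num) (by norm_num) s h0 h1
  push_cast at h
  rw [h]
  norm_num [Finset.sum_range_succ, Nat.choose]
  ring

private lemma T_9_6_0 (s : ℝ) (h0 : 0 ≤ s) (h1 : s ≤ 1) :
    T 9 6 (9 - 2 * 0 - 2 * s) = (64)*s^6 := by
  have h := T_cut 9 6 0 (by norm_num) (by norm_num) s h0 h1
  push_cast at h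
  rw [h]
  norm_num [Finset.sum_range_succ, Nat.choose]
  ring

private lemma T_9_5_0 (s : ℝ) (h0 : 0 ≤ s) (h1 : s ≤ 1) :
    T 9 5 (9 - 2 * 0 - 2 * s) = (-32)*s^5 := by
  have h := T_cut 9 5 0 (by norm_num) (by norm_num) s h0 h1
  push_cast at h
  rw [h]
  norm_num [Finset.sum_range_succ, Nat.choose]
  ring

private lemma piece_9_0 (s : ℝ) (h0 : 0 ≤ s) (h1 : s ≤ 1) :
    0 ≤ - (Bd 9 0 (9 - 2 * 0 - 2 * s)) ^ 2 * Bd 9 3 (9 - 2 * 0 - 2 * s)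
      + 3 * Bd 9 0 (9 - 2 * 0 - 2 * s) * Bd 9 1 (9 - 2 * 0 - 2 * s) * Bd 9 2 (9 - 2 * 0 - 2 * s)
      - 2 * (Bd 9 1 (9 - 2 * 0 - 2 * s)) ^ 3 := by
  rw [Bd_9_0, Bd_9_1, Bd_9_2, Bd_9_3, T_9_8_0 s h0 h1, T_9_7_0 s h0 h1, T_9_6_0 s h0 h1, T_9_5_0 s h0 h1]
  have h1' : 0 ≤ 1 - s := by linarith
  have key : 0 ≤ (1/262193283072000)*(s^21*(1-s)^0) := by positivity
  refine key.trans (le_of_eq ?_)
  ring

private lemma T_9_8_1 (s : ℝ) (h0 : 0 ≤ s) (h1 : s ≤ 1) :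
    T 9 8 (9 - 2 * 1 - 2 * s) = (256) + (2048)*s + (7168)*s^2 + (14336)*s^3 + (17920)*s^4 + (14336)*s^5 + (7168)*s^6 + (2048)*s^7 + (-2048)*s^8 := by
  have h := T_cut 9 8 1 (by norm_num) (by norm_num) s h0 h1
  push_cast at h
  rw [h]
  norm_num [Finset.sum_range_succ, Nat.choose]
  ring

private lemma T_9_7_1 (s : ℝ) (h0 : 0 ≤ s) (h1 : s ≤ 1) :
    T 9 7 (9 - 2 * 1 - 2 * s) = (-128) + (-896)*s + (-2688)*s^2 + (-4480)*s^3 + (-4480)*s^4 + (-2688)*s^5 + (-896)*s^6 + (1024)*s^7 := by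
  have h := T_cut 9 7 1 (by norm_num) (by norm_num) s h0 h1
  push_cast at h
  rw [h]
  norm_num [Finset.sum_range_succ, Nat.choose]
  ring

private lemma T_9_6_1 (s : ℝ) (h0 : 0 ≤ s) (h1 : s ≤ 1) :
    T 9 6 (9 - 2 * 1 - 2 * s) = (64) + (384)*s + (960)*s^2 + (1280)*s^3 + (960)*s^4 + (384)*s^5 + (-512)*s^6 := by
  have h := T_cut 9 6 1 (by norm_num) (by norm_num) s h0 h1
  push_cast at h
  rw [h]
  norm_num [Finset.sum_range_succ, Nat.choose]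
  ring

private lemma T_9_5_1 (s : ℝ) (h0 : 0 ≤ s) (h1 : s ≤ 1) :
    T 9 5 (9 - 2 * 1 - 2 * s) = (-32) + (-160)*s + (-320)*s^2 + (-320)*s^3 + (-160)*s^4 + (256)*s^5 := by
  have h := T_cut 9 5 1 (by norm_num) (by norm_num) s h0 h1
  push_cast at h
  rw [h]
  norm_num [Finset.sum_range_succ, Nat.choose]
  ring

private lemma piece_9_1 (s : ℝ) (h0 : 0 ≤ s) (h1 : s ≤ 1) :
    0 ≤ - (Bd 9 0 (9 - 2 * 1 - 2 * s)) ^ 2 * Bd 9 3 (9 - 2 * 1 - 2 * s)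
      + 3 * Bd 9 0 (9 - 2 * 1 - 2 * s) * Bd 9 1 (9 - 2 * 1 - 2 * s) * Bd 9 2 (9 - 2 * 1 - 2 * s)
      - 2 * (Bd 9 1 (9 - 2 * 1 - 2 * s)) ^ 3 := by
  rw [Bd_9_0, Bd_9_1, Bd_9_2, Bd_9_3, T_9_8_1 s h0 h1, T_9_7_1 s h0 h1, T_9_6_1 s h0 h1, T_9_5_1 s h0 h1]
  have h1' : 0 ≤ 1 - s := by linarith
  have key : 0 ≤ (1/262193283072000)*(s^0*(1-s)^21) + (1/6242697216000)*(s^1*(1-s)^20) + (1/312134860800)*(s^2*(1-s)^19) + (19/468202291200)*(s^3*(1-s)^18) + (19/52022476800)*(s^4*(1-s)^17) + (10333/4161798144000)*(s^5*(1-s)^16) + (41281/3121348608000)*(s^6*(1-s)^15) + (58789/1040449536000)*(s^7*(1-s)^14) + (409027/2080899072000)*(s^8*(1-s)^13) + (1052831/1872809164800)*(s^9*(1-s)^12) + (1037387/780337152000)*(s^10*(1-s)^11) + (1017029/390168576000)*(s^11*(1-s)^10) + (101257/23887872000)*(s^12*(1-s)^9) + (11870981/2080899072000)*(s^13*(1-s)^8) + (939899/148635648000)*(s^14*(1-s)^7)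 + (17870249/3121348608000)*(s^15*(1-s)^6) + (17380379/4161798144000)*(s^16*(1-s)^5) + (4993967/2080899072000)*(s^17*(1-s)^4) + (700097/668860416000)*(s^18*(1-s)^3) + (253457/780337152000)*(s^19*(1-s)^2) + (283/4459069440)*(s^20*(1-s)^1) + (217409/37456183296000)*(s^21*(1-s)^0) := by positivity
  refine key.trans (le_of_eq ?_)
  ring

private lemma T_9_8_2 (s : ℝ) (h0 : 0 ≤ s) (h1 : s ≤ 1) :
    T 9 8 (9 - 2 * 2 - 2 * s) = (63232) + (243712)*s + (394240)*s^2 + (329728)*s^3 + (125440)*s^4 + (-14336)*s^5 + (-35840)*s^6 + (-14336)*s^7 + (7168)*s^8 := by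
  have h := T_cut 9 8 2 (by norm_num) (by norm_num) s h0 h1
  push_cast at h
  rw [h]
  norm_num [Finset.sum_range_succ, Nat.choose]
  ring

private lemma T_9_7_2 (s : ℝ) (h0 : 0 ≤ s) (h1 : s ≤ 1) :
    T 9 7 (9 - 2 * 2 - 2 * s) = (-15232) + (-49280)*s + (-61824)*s^2 + (-31360)*s^3 + (4480)*s^4 + (13440)*s^5 + (6272)*s^6 + (-3584)*s^7 := by
  have h := T_cut 9 7 2 (by norm_num) (by norm_num) s h0 h1
  push_cast at h
  rw [h]
  norm_num [Finset.sum_range_succ, Nat.choose]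
  ring

private lemma T_9_6_2 (s : ℝ) (h0 : 0 ≤ s) (h1 : s ≤ 1) :
    T 9 6 (9 - 2 * 2 - 2 * s) = (3520) + (8832)*s + (6720)*s^2 + (-1280)*s^3 + (-4800)*s^4 + (-2688)*s^5 + (1792)*s^6 := by
  have h := T_cut 9 6 2 (by norm_num) (by norm_num) s h0 h1
  push_cast at h
  rw [h]
  norm_num [Finset.sum_range_succ, Nat.choose]
  ring

private lemma T_9_5_2 (s : ℝ) (h0 : 0 ≤ s) (h1 : s ≤ 1) :
    T 9 5 (9 - 2 * 2 - 2 * s) = (-736) + (-1120)*s + (320)*s^2 + (1600)*s^3 + (1120)*s^4 + (-896)*s^5 := by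
  have h := T_cut 9 5 2 (by norm_num) (by norm_num) s h0 h1
  push_cast at h
  rw [h]
  norm_num [Finset.sum_range_succ, Nat.choose]
  ring

private lemma piece_9_2 (s : ℝ) (h0 : 0 ≤ s) (h1 : s ≤ 1) :
    0 ≤ - (Bd 9 0 (9 - 2 * 2 - 2 * s)) ^ 2 * Bd 9 3 (9 - 2 * 2 - 2 * s)
      + 3 * Bd 9 0 (9 - 2 * 2 - 2 * s) * Bd 9 1 (9 - 2 * 2 - 2 * s) * Bd 9 2 (9 - 2 * 2 - 2 * s)
      - 2 * (Bd 9 1 (9 - 2 * 2 - 2 * s)) ^ 3 := by
  rw [Bd_9_0, Bd_9_1, Bd_9_2, Bd_9_3, T_9_8_2 s h0 h1, T_9_7_2 s h0 h1, T_9_6_2 s h0 h1, T_9_5_2 s h0 h1]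
  have h1' : 0 ≤ 1 - s := by linarith
  have key : 0 ≤ (217409/37456183296000)*(s^0*(1-s)^21) + (53603/297271296000)*(s^1*(1-s)^20) + (461581/173408256000)*(s^2*(1-s)^19) + (4303981/173408256000)*(s^3*(1-s)^18) + (113685517/693633024000)*(s^4*(1-s)^17) + (75339073/92484403200)*(s^5*(1-s)^16) + (1096725253/346816512000)*(s^6*(1-s)^15) + (681267023/69363302400)*(s^7*(1-s)^14) + (117050497/4718592000)*(s^8*(1-s)^13) + (1984557899/38535168000)*(s^9*(1-s)^12) + (284115409/3211264000)*(s^10*(1-s)^11) + (81034549/642252800)*(s^11*(1-s)^10) + (5754714773/38535168000)*(s^12*(1-s)^9) + (3755115129/25690112000)*(s^13*(1-s)^8) + (1508477181/12845056000)*(s^14*(1-s)^7) + (140415957/1835008000)*(s^15*(1-s)^6) + (81630477/2055208960)*(s^16*(1-s)^5) + (410983113/25690112000)*(s^17*(1-s)^4) + (30873631/6422528000)*(s^18*(1-s)^3) + (6497871/6422528000)*(s^19*(1-s)^2) + (682431/5138022400)*(s^20*(1-s)^1)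 + (84061/10276044800)*(s^21*(1-s)^0) := by positivity
  refine key.trans (le_of_eq ?_)
  ring

private lemma T_9_8_3 (s : ℝ) (h0 : 0 ≤ s) (h1 : s ≤ 1) :
    T 9 8 (9 - 2 * 3 - 2 * s) = (1099008) + (2193408)*s + (1354752)*s^2 + (-129024)*s^3 + (-483840)*s^4 + (-129024)*s^5 + (64512)*s^6 + (43008)*s^7 + (-14336)*s^8 := by
  have h := T_cut 9 8 3 (by norm_num) (by norm_num) s h0 h1
  push_cast at h
  rw [h]
  norm_num [Finset.sum_range_succ, Nat.choose]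
  ring

private lemma T_9_7_3 (s : ℝ) (h0 : 0 ≤ s) (h1 : s ≤ 1) :
    T 9 7 (9 - 2 * 3 - 2 * s) = (-137088) + (-169344)*s + (24192)*s^2 + (120960)*s^3 + (40320)*s^4 + (-24192)*s^5 + (-18816)*s^6 + (7168)*s^7 := by
  have h := T_cut 9 7 3 (by norm_num) (by norm_num) s h0 h1
  push_cast at h
  rw [h]
  norm_num [Finset.sum_range_succ, Nat.choose]
  ring

private lemma T_9_6_3 (s : ℝ) (h0 : 0 ≤ s) (h1 : s ≤ 1) :
    T 9 6 (9 - 2 * 3 - 2 * s) = (12096) + (-3456)*s + (-25920)*s^2 + (-11520)*s^3 + (8640)*s^4 + (8064)*s^5 + (-3584)*s^6 := by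
  have h := T_cut 9 6 3 (by norm_num) (by norm_num) s h0 h1
  push_cast at h
  rw [h]
  norm_num [Finset.sum_range_succ, Nat.choose]
  ring

private lemma T_9_5_3 (s : ℝ) (h0 : 0 ≤ s) (h1 : s ≤ 1) :
    T 9 5 (9 - 2 * 3 - 2 * s) = (288) + (4320)*s + (2880)*s^2 + (-2880)*s^3 + (-3360)*s^4 + (1792)*s^5 := by
  have h := T_cut 9 5 3 (by norm_num) (by norm_num) s h0 h1
  push_cast at h
  rw [h]
  norm_num [Finset.sum_range_succ, Nat.choose]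
  ring

private lemma piece_9_3 (s : ℝ) (h0 : 0 ≤ s) (h1 : s ≤ 1) :
    0 ≤ - (Bd 9 0 (9 - 2 * 3 - 2 * s)) ^ 2 * Bd 9 3 (9 - 2 * 3 - 2 * s)
      + 3 * Bd 9 0 (9 - 2 * 3 - 2 * s) * Bd 9 1 (9 - 2 * 3 - 2 * s) * Bd 9 2 (9 - 2 * 3 - 2 * s)
      - 2 * (Bd 9 1 (9 - 2 * 3 - 2 * s)) ^ 3 := by
  rw [Bd_9_0, Bd_9_1, Bd_9_2, Bd_9_3, T_9_8_3 s h0 h1, T_9_7_3 s h0 h1, T_9_6_3 s h0 h1, T_9_5_3 s h0 h1]
  have h1' : 0 ≤ 1 - s := by linarith
  have key : 0 ≤ (84061/10276044800)*(s^0*(1-s)^21) + (21657/102760448)*(s^1*(1-s)^20) + (8254173/3211264000)*(s^2*(1-s)^19) + (126741667/6422528000)*(s^3*(1-s)^18) + (549741021/5138022400)*(s^4*(1-s)^17) + (22383044547/51380224000)*(s^5*(1-s)^16) + (17757851631/12845056000)*(s^6*(1-s)^15) + (44984774097/12845056000)*(s^7*(1-s)^14) + (184782642573/25690112000)*(s^8*(1-s)^13) + (46606045399/3853516800)*(s^9*(1-s)^12) + (26877363833/1605632000)*(s^10*(1-s)^11)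 + (61353743981/3211264000)*(s^11*(1-s)^10) + (138417663107/7707033600)*(s^12*(1-s)^9) + (640222832983/46242201600)*(s^13*(1-s)^8) + (120508325851/13872660480)*(s^14*(1-s)^7) + (1521029619661/346816512000)*(s^15*(1-s)^6) + (270105796831/154140672000)*(s^16*(1-s)^5) + (7502046827/13872660480)*(s^17*(1-s)^4) + (430749251/3468165120)*(s^18*(1-s)^3) + (138527201/6936330240)*(s^19*(1-s)^2) + (834138577/416179814400)*(s^20*(1-s)^1) + (706435523/7491236659200)*(s^21*(1-s)^0) := by positivity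
  refine key.trans (le_of_eq ?_)
  ring

private lemma T_9_8_4 (s : ℝ) (h0 : 0 ≤ s) (h1 : s ≤ 1) :
    T 9 8 (9 - 2 * 4 - 2 * s) = (3998464) + (2508800)*s + (-1756160)*s^2 + (-1361920)*s^3 + (340480)*s^4 + (358400)*s^5 + (-35840)*s^6 + (-71680)*s^7 + (17920)*s^8 := by
  have h := T_cut 9 8 4 (by norm_num) (by norm_num) s h0 h1
  push_cast at h
  rw [h]
  norm_num [Finset.sum_range_succ, Nat.choose]
  ring

private lemma T_9_7_4 (s : ℝ) (h0 : 0 ≤ s) (h1 : s ≤ 1) :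
    T 9 7 (9 - 2 * 4 - 2 * s) = (-156800) + (219520)*s + (255360)*s^2 + (-85120)*s^3 + (-112000)*s^4 + (13440)*s^5 + (31360)*s^6 + (-8960)*s^7 := by
  have h := T_cut 9 7 4 (by norm_num) (by norm_num) s h0 h1
  push_cast at h
  rw [h]
  norm_num [Finset.sum_range_succ, Nat.choose]
  ring

private lemma T_9_6_4 (s : ℝ) (h0 : 0 ≤ s) (h1 : s ≤ 1) :
    T 9 6 (9 - 2 * 4 - 2 * s) = (-15680) + (-36480)*s + (18240)*s^2 + (32000)*s^3 + (-4800)*s^4 + (-13440)*s^5 + (4480)*s^6 := by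
  have h := T_cut 9 6 4 (by norm_num) (by norm_num) s h0 h1
  push_cast at h
  rw [h]
  norm_num [Finset.sum_range_succ, Nat.choose]
  ring

private lemma T_9_5_4 (s : ℝ) (h0 : 0 ≤ s) (h1 : s ≤ 1) :
    T 9 5 (9 - 2 * 4 - 2 * s) = (3040) + (-3040)*s + (-8000)*s^2 + (1600)*s^3 + (5600)*s^4 + (-2240)*s^5 := by
  have h := T_cut 9 5 4 (by norm_num) (by norm_num) s h0 h1
  push_cast at h
  rw [h]
  norm_num [Finset.sum_range_succ, Nat.choose]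
  ring

private lemma piece_9_4 (s : ℝ) (h0 : 0 ≤ s) (h1 : s ≤ 1 / 2) :
    0 ≤ - (Bd 9 0 (9 - 2 * 4 - 2 * s)) ^ 2 * Bd 9 3 (9 - 2 * 4 - 2 * s)
      + 3 * Bd 9 0 (9 - 2 * 4 - 2 * s) * Bd 9 1 (9 - 2 * 4 - 2 * s) * Bd 9 2 (9 - 2 * 4 - 2 * s)
      - 2 * (Bd 9 1 (9 - 2 * 4 - 2 * s)) ^ 3 := by
  rw [Bd_9_0, Bd_9_1, Bd_9_2, Bd_9_3, T_9_8_4 s h0 (by linarith), T_9_7_4 s h0 (by linarith), T_9_6_4 s h0 (by linarith), T_9_5_4 s h0 (by linarith)]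
  obtain ⟨t, rfl⟩ : ∃ t, s = t / 2 := ⟨2 * s, by ring⟩
  have h0' : 0 ≤ t := by linarith
  have h1' : 0 ≤ 1 - t := by linarith
  have key : 0 ≤ (706435523/7491236659200)*(t^0*(1-t)^21) + (364085723/184968806400)*(t^1*(1-t)^20) + (720867719/36993761280)*(t^2*(1-t)^19) + (27002334601/221962567680)*(t^3*(1-t)^18) + (476892976241/887850270720)*(t^4*(1-t)^17) + (1978545189461/1109812838400)*(t^5*(1-t)^16) + (20486175849121/4439251353600)*(t^6*(1-t)^15) + (8469028740409/887850270720)*(t^7*(1-t)^14) + (56780767265399/3551401082880)*(t^8*(1-t)^13) + (1154448781893/52613349376)*(t^9*(1-t)^12) + (65208443811009/2630667468800)*(t^10*(1-t)^11) + (30368465240979/1315333734400)*(t^11*(1-t)^10) + (27934077913787/1578400481280)*(t^12*(1-t)^9) + (70096353004841/6313601925120)*(t^13*(1-t)^8) + (5939080294527/1052266987520)*(t^14*(1-t)^7) + (7226509298957/3156800962560)*(t^15*(1-t)^6)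 + (365367614958827/505088154009600)*(t^16*(1-t)^5) + (2311706579445/13469017440256)*(t^17*(1-t)^4) + (968570770553/33672543600640)*(t^18*(1-t)^3) + (408947628819/134690174402560)*(t^19*(1-t)^2) + (408947628819/2693803488051200)*(t^20*(1-t)^1) := by positivity
  refine key.trans (le_of_eq ?_)
  ring

theorem third_base (n : ℕ) (h7 : 7 ≤ n) (h9 : n ≤ 9) (x : ℝ) (h0 : 0 ≤ x) (hx : x < n) :
    0 ≤ - (Bd n 0 x) ^ 2 * Bd n 3 x + 3 * Bd n 0 x * Bd n 1 x * Bd n 2 x - 2 * (Bd n 1 x) ^ 3 := by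
  interval_cases n
  · norm_num at hx
    by_cases hc0 : (7 - 2 * 0 - 2 : ℝ) ≤ x
    · have h := piece_7_0 ((7 - 2 * 0 - x) / 2) (by linarith) (by linarith)
      have e : (7 - 2 * 0 - 2 * ((7 - 2 * 0 - x) / 2) : ℝ) = x := by ring
      rwa [e] at h
    push Not at hc0
    by_cases hc1 : (7 - 2 * 1 - 2 : ℝ) ≤ x
    · have h := piece_7_1 ((7 - 2 * 1 - x) / 2) (by linarith) (by linarith)
      have e : (7 - 2 * 1 - 2 * ((7 - 2 * 1 - x) / 2) : ℝ) = x := by ring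
      rwa [e] at h
    push Not at hc1
    by_cases hc2 : (7 - 2 * 2 - 2 : ℝ) ≤ x
    · have h := piece_7_2 ((7 - 2 * 2 - x) / 2) (by linarith) (by linarith)
      have e : (7 - 2 * 2 - 2 * ((7 - 2 * 2 - x) / 2) : ℝ) = x := by ring
      rwa [e] at h
    push Not at hc2
    have h := piece_7_3 ((7 - 2 * 3 - x) / 2) (by linarith) (by linarith)
    have e : (7 - 2 * 3 - 2 * ((7 - 2 * 3 - x) / 2) : ℝ) = x := by ring
    rwa [e] at h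
  · norm_num at hx
    by_cases hc0 : (8 - 2 * 0 - 2 : ℝ) ≤ x
    · have h := piece_8_0 ((8 - 2 * 0 - x) / 2) (by linarith) (by linarith)
      have e : (8 - 2 * 0 - 2 * ((8 - 2 * 0 - x) / 2) : ℝ) = x := by ring
      rwa [e] at h
    push Not at hc0
    by_cases hc1 : (8 - 2 * 1 - 2 : ℝ) ≤ x
    · have h := piece_8_1 ((8 - 2 * 1 - x) / 2) (by linarith) (by linarith)
      have e : (8 - 2 * 1 - 2 * ((8 - 2 * 1 - x) / 2) : ℝ) = x := by ring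
      rwa [e] at h
    push Not at hc1
    by_cases hc2 : (8 - 2 * 2 - 2 : ℝ) ≤ x
    · have h := piece_8_2 ((8 - 2 * 2 - x) / 2) (by linarith) (by linarith)
      have e : (8 - 2 * 2 - 2 * ((8 - 2 * 2 - x) / 2) : ℝ) = x := by ring
      rwa [e] at h
    push Not at hc2
    have h := piece_8_3 ((8 - 2 * 3 - x) / 2) (by linarith) (by linarith)
    have e : (8 - 2 * 3 - 2 * ((8 - 2 * 3 - x) / 2) : ℝ) = x := by ring
    rwa [e] at h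
  · norm_num at hx
    by_cases hc0 : (9 - 2 * 0 - 2 : ℝ) ≤ x
    · have h := piece_9_0 ((9 - 2 * 0 - x) / 2) (by linarith) (by linarith)
      have e : (9 - 2 * 0 - 2 * ((9 - 2 * 0 - x) / 2) : ℝ) = x := by ring
      rwa [e] at h
    push Not at hc0
    by_cases hc1 : (9 - 2 * 1 - 2 : ℝ) ≤ x
    · have h := piece_9_1 ((9 - 2 * 1 - x) / 2) (by linarith) (by linarith)
      have e : (9 - 2 * 1 - 2 * ((9 - 2 * 1 - x) / 2) : ℝ) = x := by ring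
      rwa [e] at h
    push Not at hc1
    by_cases hc2 : (9 - 2 * 2 - 2 : ℝ) ≤ x
    · have h := piece_9_2 ((9 - 2 * 2 - x) / 2) (by linarith) (by linarith)
      have e : (9 - 2 * 2 - 2 * ((9 - 2 * 2 - x) / 2) : ℝ) = x := by ring
      rwa [e] at h
    push Not at hc2
    by_cases hc3 : (9 - 2 * 3 - 2 : ℝ) ≤ x
    · have h := piece_9_3 ((9 - 2 * 3 - x) / 2) (by linarith) (by linarith)
      have e : (9 - 2 * 3 - 2 * ((9 - 2 * 3 - x) / 2) : ℝ) = x := by ring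
      rwa [e] at h
    push Not at hc3
    have h := piece_9_4 ((9 - 2 * 4 - x) / 2) (by linarith) (by linarith)
    have e : (9 - 2 * 4 - 2 * ((9 - 2 * 4 - x) / 2) : ℝ) = x := by ring
    rwa [e] at h

end US.S4583
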