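import Pool.Agent.Helper70.US.F5
import Pool.Agent.Helper70.US.S4578
import Pool.Agent.Helper70.US.S4579
import Pool.Agent.Helper70.US.S4580
import Pool.Agent.Helper70.US.S4581
import Pool.Agent.Helper70.US.S4582
import Pool.Agent.Helper70.US.S4583
set_option autoImplicit false
open MeasureTheory intervalIntegral Set
namespace US
open S4691

theorem Bd_supp' (m k : ℕ) (h : k + 2 ≤ m) (x : ℝ) (hx : (m:ℝ) ≤ |x|) : Bd m k x = 0 := by
  rcases le_abs.1 hx with h1 | h1
  · exact Bd_right m k h x h1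
  · exact Bd_left m k h x (by linarith)

theorem LPF_base (m : ℕ) (h9 : 9 ≤ m) (h17 : m ≤ 17) : LPF (Bd m) m where
  deriv := fun k hk x => Bd_deriv m k (by omega) x
  cont := Bd_cont m 6
  supp := fun k hk x hx => Bd_supp' m k (by omega) x hx
  pos := fun r h1 h4 x hx => S4582.wr_base m h9 h17 r h1 h4 x hx

theorem wr_congr {f g : ℕ → ℝ → ℝ} (h : ∀ k ≤ 6, ∀ x, f k x = g k x) (r : ℕ) (hr : r ≤ 4) (x : ℝ) :
    wr r f x = wr r g x := by
  unfold wr
  congr 2
  ext i j
  simp only [Matrix.of_apply]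
  exact h _ (by omega) x

theorem LPF_all (m : ℕ) (h9 : 9 ≤ m) : LPF (Bd m) m := by
  induction' m using Nat.strong_induction_on with m ih
  by_cases h17 : m ≤ 17
  · exact LPF_base m h9 h17
  push Not at h17
  have h1 := LPF_base 9 le_rfl (by norm_num)
  have h2 := ih (m - 9) (by omega) (by omega)
  have h3 := S4579.LPF_conv S4578.detPos (by norm_num : (0:ℝ) < ((9:ℕ):ℝ))
    (by exact_mod_cast (by omega : 0 < m - 9)) h1 h2
  have hcast : ((9:ℕ):ℝ) + ((m - 9 : ℕ):ℝ) = m := by
    rw [← Nat.cast_add]; congr 1; omega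
  rw [hcast] at h3
  -- identify the families
  have hk : ∀ k ≤ 6, ∀ x, cf (Bd 9) (Bd (m - 9)) k x = Bd m k x := by
    intro k
    induction k with
    | zero =>
      intro _ x
      unfold cf
      simp only [Nat.zero_le, min_eq_left, Nat.zero_sub]
      have := Bd_conv 9 (m - 9) (by norm_num) (by omega) x
      rw [this]
      congr 1
      omega
    | succ k ihk =>
      intro hk6 x
      have e1 := h3.deriv k (by omega) x
      have e2 : HasDerivAt (Bd m k) (Bd m (k + 1) x) x := Bd_deriv m k (by omega) x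
      have e3 : cf (Bd 9) (Bd (m - 9)) k = Bd m k := by
        ext y; exact ihk (by omega) y
      rw [e3] at e1
      exact e1.unique e2
  exact {
    deriv := fun k hk x => Bd_deriv m k (by omega) x
    cont := Bd_cont m 6
    supp := fun k hk x hx => Bd_supp' m k (by omega) x hx
    pos := fun r h1 h4 x hx => by
      rw [← wr_congr hk r h4 x]
      exact h3.pos r h1 h4 x hx }

/-- third derivative of `-log f_n` -/
noncomputable def u2 (n : ℕ) (x : ℝ) : ℝ :=
  (- (Bd n 0 x) ^ 2 * Bd n 3 x + 3 * Bd n 0 x * Bd n 1 x * Bd n 2 x - 2 * (Bd n 1 x) ^ 3) /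
    (Bd n 0 x) ^ 3

theorem H_deriv (n : ℕ) (hn : 5 ≤ n) (x : ℝ) (hx : |x| < n) : HasDerivAt (H n) (u2 n x) x := by
  have h0 := Bd_pos n (by omega) x hx
  have d0 := Bd_deriv n 0 (by omega) x
  have d1 := Bd_deriv n 1 (by omega) x
  have d2 := Bd_deriv n 2 (by omega) x
  have h1 := ((d1.pow 2).sub (d0.mul d2)).div (d0.pow 2) (pow_ne_zero 2 h0.ne')
  have e : u2 n x = ((2 * Bd n 1 x ^ (2 - 1) * Bd n (1 + 1) x - (Bd n (0 + 1) x * Bd n 2 x + Bd n 0 x * Bd n (2 + 1) x)) *
      Bd n 0 x ^ 2 - (Bd n 1 x ^ 2 - Bd n 0 x * Bd n 2 x) * (2 * Bd n 0 x ^ (2 - 1) * Bd n (0 + 1) x)) /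
      (Bd n 0 x ^ 2) ^ 2 := by
    unfold u2
    rw [div_eq_div_iff (by positivity) (by positivity)]
    simp only [Nat.add_one_sub_one, pow_one, zero_add, one_add_one_eq_two, Nat.reduceAdd]
    ring
  rw [e]
  exact h1

theorem u2_nonneg_small (n : ℕ) (h7 : 7 ≤ n) (h9 : n ≤ 9) (x : ℝ) (h0 : 0 ≤ x) (hx : x < n) :
    0 ≤ u2 n x := by
  have hp := Bd_pos n (by omega) x (by rw [abs_of_nonneg h0]; exact hx)
  unfold u2
  apply div_nonneg _ (by positivity)
  exact S4583.third_base n h7 h9 x h0 hx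

theorem u2_nonneg_large (n : ℕ) (h10 : 10 ≤ n) (x : ℝ) (h0 : 0 ≤ x) (hx : x < n) : 0 ≤ u2 n x := by
  have hn0 : (0:ℝ) < n := by exact_mod_cast (by omega : 0 < n)
  obtain ⟨m, rfl⟩ : ∃ m, n = m + 1 := ⟨n - 1, by omega⟩
  have hL := LPF_all m (by omega)
  have hm9 : (9:ℝ) ≤ m := by exact_mod_cast (by omega : 9 ≤ m)
  have hc2 : ContinuousOn (u2 (m + 1)) (Ioo (-((m + 1 : ℕ):ℝ)) ((m + 1 : ℕ):ℝ)) := by
    unfold u2
    apply ContinuousOn.div
    · apply Continuous.continuousOn
      have c0 := Bd_cont (m + 1) 0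
      have c1 := Bd_cont (m + 1) 1
      have c2 := Bd_cont (m + 1) 2
      have c3 := Bd_cont (m + 1) 3
      fun_prop
    · exact ((Bd_cont _ 0).pow 3).continuousOn
    · intro y hy
      have := Bd_pos (m + 1) (by omega) y (abs_lt.2 hy)
      positivity
  have hupos : ∀ y : ℝ, |y| < ((m + 1 : ℕ):ℝ) → 0 < H (m + 1) y := by
    intro y hy
    unfold H
    have hp := Bd_pos (m + 1) (by omega) y hy
    apply div_pos _ (by positivity)
    have := (LPF_all (m + 1) (by omega)).pos 2 (by norm_num) (by norm_num) y hy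
    unfold wr at this
    rw [Matrix.det_fin_two] at this
    simp at this
    nlinarith
  have hupos0 : ∀ y : ℝ, 0 < y → y < ((m + 1 : ℕ):ℝ) → 0 < u (m + 1) y := by
    intro y hy0 hy
    have hmono : StrictMonoOn (u (m + 1)) (Icc 0 y) := by
      apply strictMonoOn_of_deriv_pos (convex_Icc _ _)
      · intro z hz
        apply (u_deriv (m + 1) (by omega) z _).continuousAt.continuousWithinAt
        rw [abs_of_nonneg hz.1]; linarith [hz.2]
      · intro z hz
        rw [interior_Icc] at hz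
        have hz' : |z| < ((m + 1 : ℕ):ℝ) := by rw [abs_of_pos hz.1]; linarith [hz.2]
        rw [(u_deriv (m + 1) (by omega) z hz').deriv]
        exact hupos z hz'
    have := hmono (left_mem_Icc.2 hy0.le) (right_mem_Icc.2 hy0.le) hy0
    rwa [u_zero (m + 1) (by omega)] at this
  apply S4581.convex_of_no_five (n := ((m + 1 : ℕ):ℝ)) (u := u (m + 1)) (u1 := H (m + 1))
    (u2 := u2 (m + 1)) (by push_cast; linarith) (fun y hy => u_deriv (m + 1) (by omega) y hy)
    (fun y hy => H_deriv (m + 1) (by omega) y hy) hc2 (u_neg (m + 1) (by omega)) hupos0 hupos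
    (fun y h1 h2 => u_end (m + 1) (by omega) y h1 h2) _ x h0 hx
  -- the sign change property
  intro α β hβ hαβ y hy hyI s
  set N : ℝ := ((m + 1 : ℕ):ℝ) with hN
  have hNm : N = m + 1 := by rw [hN]; push_cast; ring
  have hN0 : 0 < N := hn0
  have key := S4580.no_five_alternating S4578.detPos hL (by linarith : (1:ℝ) < m)
    (lam := β * N) (zeta := - α / (β * N)) (by positivity)
    (by rw [abs_div, abs_neg, abs_of_pos (by positivity : 0 < β * N), div_lt_one (by positivity)]; exact hαβ)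
    y hy (fun i => by have := hyI i; rw [hNm] at this; linarith) s
  intro hall
  apply key
  intro i
  have h1 := hall i
  have hyi : |y i| < N := by have := hyI i; linarith
  have hp := Bd_pos (m + 1) (by omega) (y i) hyi
  -- D = 2 f_n (u - α - β y)
  have hD : Bd m 0 (y i - 1) - Bd m 0 (y i + 1) - (β * N) * ∫ z in (-1:ℝ)..1, (z - (-α / (β * N))) * Bd m 0 (y i - z) =
      2 * Bd (m + 1) 0 (y i) * (u (m + 1) (y i) - α - β * y i) := by
    have e1 : Bd (m + 1) 1 (y i) = (Bd m 0 (y i + 1) - Bd m 0 (y i - 1)) / 2 := Bd_succ m 0 (by omega) (y i)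
    have e2 := Bd_mean m (by omega) (y i)
    have e3 : ∫ z in (-1:ℝ)..1, Bd m 0 (y i - z) = 2 * Bd (m + 1) 0 (y i) := by
      have h2 := Bd_int m (by omega) (y i)
      have h3 := intervalIntegral.integral_comp_sub_left (a := -1) (b := 1) (fun t => Bd m 0 t) (y i)
      rw [h3]
      have e4 : y i - -1 = y i + 1 := by ring
      rw [e4, ← h2]; ring
    have hc := Bd_cont m 0
    have e5 : ∫ z in (-1:ℝ)..1, (z - (-α / (β * N))) * Bd m 0 (y i - z) =
        (∫ z in (-1:ℝ)..1, z * Bd m 0 (y i - z)) + (α / (β * N)) * ∫ z in (-1:ℝ)..1, Bd m 0 (y i - z) := by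
      rw [← intervalIntegral.integral_const_mul, ← intervalIntegral.integral_add]
      · congr 1; ext z; ring
      · exact (by fun_prop : Continuous fun z => z * Bd m 0 (y i - z)).intervalIntegrable _ _
      · exact (by fun_prop : Continuous fun z => (α / (β * N)) * Bd m 0 (y i - z)).intervalIntegrable _ _
    rw [e5, e3]
    unfold u
    have e6 : ∫ z in (-1:ℝ)..1, z * Bd m 0 (y i - z) = (y i * Bd (m + 1) 0 (y i)) * (2 / N) := by
      rw [e2, hNm]
      have : (m:ℝ) + 1 ≠ 0 := by positivity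
      field_simp
    rw [e6]
    have e7 : Bd m 0 (y i - 1) - Bd m 0 (y i + 1) = - 2 * Bd (m + 1) 1 (y i) := by rw [e1]; ring
    rw [e7]
    field_simp
    ring
  rw [hD]
  have : s * (-1) ^ (i:ℕ) * (2 * Bd (m + 1) 0 (y i) * (u (m + 1) (y i) - α - β * y i)) =
      (2 * Bd (m + 1) 0 (y i)) * (s * (-1) ^ (i:ℕ) * (u (m + 1) (y i) - α - β * y i)) := by ring
  rw [this]
  exact mul_pos (by positivity) h1

theorem u2_nonneg (n : ℕ) (h7 : 7 ≤ n) (x : ℝ) (h0 : 0 ≤ x) (hx : x < n) : 0 ≤ u2 n x := by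
  by_cases h9 : n ≤ 9
  · exact u2_nonneg_small n h7 h9 x h0 hx
  · exact u2_nonneg_large n (by omega) x h0 hx

/-- `(-log f_n)''` is nondecreasing on `[0,n)` for `n ≥ 7` -/
theorem H_mono (n : ℕ) (h7 : 7 ≤ n) {x y : ℝ} (h0 : 0 ≤ x) (hxy : x ≤ y) (hy : y < n) :
    H n x ≤ H n y := by
  have hmono : MonotoneOn (H n) (Icc 0 y) := by
    apply monotoneOn_of_deriv_nonneg (convex_Icc _ _)
    · intro z hz
      apply (H_deriv n (by omega) z _).continuousAt.continuousWithinAt
      rw [abs_of_nonneg hz.1]; linarith [hz.2]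
    · intro z hz
      rw [interior_Icc] at hz
      apply (H_deriv n (by omega) z _).differentiableAt.differentiableWithinAt
      rw [abs_of_nonneg hz.1.le]; linarith [hz.2]
    · intro z hz
      rw [interior_Icc] at hz
      rw [(H_deriv n (by omega) z (by rw [abs_of_nonneg hz.1.le]; linarith [hz.2])).deriv]
      exact u2_nonneg n h7 z hz.1.le (by linarith [hz.2])
  exact hmono ⟨h0, hxy⟩ ⟨h0.trans hxy, le_rfl⟩ hxy

end US
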