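import Pool.Agent.Helper70.US.F7
import Pool.Agent.Helper70.US.F8
set_option autoImplicit false
open MeasureTheory intervalIntegral Set
namespace US
open S4691

theorem sum_lt_of_ne {l : List ℝ} (hs : ssq l = l.length) (hne : l ≠ List.replicate l.length 1) :
    l.sum < l.length := by
  -- sum of (x-1)^2 > 0
  have key : ∀ l : List ℝ, ssq l - 2 * l.sum + l.length = (l.map (fun x => (x - 1) ^ 2)).sum := by
    intro l
    induction l with
    | nil => simp [ssq]
    | cons a l ih =>
      rw [ssq_cons]
      simp only [List.sum_cons, List.length_cons, Nat.cast_add, Nat.cast_one, List.map_cons]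
      rw [← ih]; ring
  have hnn : ∀ l : List ℝ, 0 ≤ (l.map (fun x => (x - 1) ^ 2)).sum := by
    intro l
    apply List.sum_nonneg
    intro x hx
    simp only [List.mem_map] at hx
    obtain ⟨c, _, rfl⟩ := hx
    positivity
  have hpos : 0 < (l.map (fun x => (x - 1) ^ 2)).sum := by
    rcases (hnn l).eq_or_lt with h | h
    · exfalso
      apply hne
      have : ∀ l : List ℝ, (l.map (fun x => (x - 1) ^ 2)).sum = 0 → l = List.replicate l.length 1 := by
        intro l
        induction l with
        | nil => simp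
        | cons a l ih =>
          intro h
          simp only [List.map_cons, List.sum_cons] at h
          have h1 := hnn l
          have h2 : 0 ≤ (a - 1) ^ 2 := by positivity
          have h3 : (a - 1) ^ 2 = 0 := by linarith
          have h4 : a = 1 := by
            have := pow_eq_zero_iff (two_ne_zero) |>.1 h3
            linarith
          have h5 := ih (by linarith)
          rw [List.length_cons, List.replicate_succ, ← h5, h4]
      exact this l h.symm
    · exact h
  have := key l
  rw [hs] at this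
  linarith

/-- general assembly for `n ≥ 4` -/
theorem assemble {n : ℕ} (h4 : 4 ≤ n) (K1 M : ℝ) (hK1 : K1 < n)
    (hchain : ∀ K : ℝ, K1 ≤ K → (n:ℝ) - 2 ≤ K → K < n → ∀ l : List ℝ, l.length = n → (∀ x ∈ l, 0 ≤ x) →
      (∀ x ∈ l, x ≤ M) → ssq l = n →
      l.foldr A (phK n K) 0 ≤ (List.replicate n 1).foldr A (phK n K) 0)
    (a : Fin n → ℝ) (ha0 : ∀ i, 0 ≤ a i) (hs : ∑ i, a i ^ 2 = 1)
    (hM : ∀ i, Real.sqrt n * a i ≤ M) :
    ent a ≤ ent (fun _ : Fin n => 1 / Real.sqrt n) := by
  have hn0 : (0:ℝ) < n := by exact_mod_cast (by omega : 0 < n)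
  have hsn : 0 < Real.sqrt n := Real.sqrt_pos.2 hn0
  set l := (List.ofFn a).map (fun c => Real.sqrt n * c) with hl'
  have hlen : l.length = n := by rw [hl']; simp
  have hmem : ∀ x ∈ l, ∃ i, x = Real.sqrt n * a i := by
    intro x hx
    rw [hl', List.mem_map] at hx
    obtain ⟨c, hc, rfl⟩ := hx
    rw [List.mem_ofFn] at hc
    obtain ⟨i, rfl⟩ := hc
    exact ⟨i, rfl⟩
  have hssq : ssq l = n := by
    rw [hl']; unfold ssq
    rw [List.map_map, List.map_ofFn, List.sum_ofFn]
    simp only [Function.comp, mul_pow, Real.sq_sqrt hn0.le]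
    rw [← Finset.mul_sum, hs, mul_one]
  by_cases hne : l = List.replicate l.length 1
  · -- equal weights
    have : a = fun _ => 1 / Real.sqrt n := by
      ext i
      have hi : Real.sqrt n * a i ∈ l := by
        rw [hl', List.mem_map]; exact ⟨a i, by rw [List.mem_ofFn]; exact ⟨i, rfl⟩, rfl⟩
      rw [hne] at hi
      have := List.eq_of_mem_replicate hi
      field_simp
      linarith
    rw [this]
  have hsum := sum_lt_of_ne (by rw [hssq, hlen]) hne
  rw [hlen] at hsum
  have hsum2 : l.sum = Real.sqrt n * ∑ i, |a i| := by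
    rw [hl', List.map_ofFn, List.sum_ofFn, Finset.mul_sum]
    apply Finset.sum_congr rfl
    intro i _
    simp only [Function.comp]
    rw [abs_of_nonneg (ha0 i)]
  have hex : ∃ i, a i ≠ 0 := by
    by_contra h
    push Not at h
    simp [h] at hs
  set K := max (l.sum) (max K1 ((n:ℝ) - 2)) with hK
  have hKn : K < n := by
    rw [hK]; apply max_lt hsum (max_lt hK1 (by linarith))
  have hKs : l.sum ≤ K := le_max_left _ _
  have hKK1 : K1 ≤ K := (le_max_left _ _).trans (le_max_right _ _)
  have hKn2 : (n:ℝ) - 2 ≤ K := (le_max_right _ _).trans (le_max_right _ _)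
  have hK0 : 0 ≤ K := by
    have : (4:ℝ) ≤ n := by exact_mod_cast h4
    linarith
  have h1 := ent_le a hex hsn (Bd_cont n 0).measurable (Bd_nonneg n (by omega))
    (Bd_integrable n (by omega)) (Bd_total n (by omega)) (phK_cont h4 hK0 hKn) (by
      intro x hx
      rw [← hsum2] at hx
      have hxK : |x| ≤ K := hx.trans hKs
      refine ⟨Bd_pos n (by omega) x (by linarith), ?_⟩
      rw [phK_eq h4 hK0 hKn x hxK]
      rfl)
  have h2 := hchain K hKK1 hKn2 hKn l hlen
    (by intro x hx; obtain ⟨i, rfl⟩ := hmem x hx; exact mul_nonneg hsn.le (ha0 i))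
    (by intro x hx; obtain ⟨i, rfl⟩ := hmem x hx; exact hM i) hssq
  have h3 := foldr_ones_le n (by omega) (phK_cont h4 hK0 hKn) (fun x hx => phK_le h4 hK0 hKn hKn2 x hx)
  rw [ent_const n (by omega) (1 / Real.sqrt n) (by positivity)]
  have h4 : Real.log (1 / Real.sqrt n) = - Real.log (Real.sqrt n) := by
    rw [one_div, Real.log_inv]
  rw [h4]
  linarith

theorem main_ge7 (n : ℕ) (h7 : 7 ≤ n) (a : Fin n → ℝ) (ha0 : ∀ i, 0 ≤ a i) (hs : ∑ i, a i ^ 2 = 1) :
    ent a ≤ ent (fun _ : Fin n => 1 / Real.sqrt n) := by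
  have hn0 : (0:ℝ) < n := by exact_mod_cast (by omega : 0 < n)
  have hn1 : (1:ℝ) ≤ n := by exact_mod_cast (by omega : 1 ≤ n)
  apply assemble (by omega) 0 n hn0 _ a ha0 hs _
  · intro K hK1 hK2 hKn l hlen h0 hle hs
    apply chain_cls (phK_cont (by omega) hK1 hKn) n n hn1 _ l hlen h0 hle hs
    intro a b l' hb0 hb ha haM hlen' hl' hs'
    apply Cls.foldr
    · exact cls_phK (by omega) hK1 hKn (fun x y hx hxy hy => H_mono n h7 hx hxy (by linarith))
    · intro x hx; exact hb0.trans (hl' x hx).1
  · intro i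
    have h1 : a i ≤ 1 := by
      have : a i ^ 2 ≤ ∑ i, a i ^ 2 := Finset.single_le_sum (f := fun i => a i ^ 2) (fun j _ => sq_nonneg _) (Finset.mem_univ i)
      rw [hs] at this
      nlinarith [ha0 i]
    have h2 : Real.sqrt n ≤ n := by
      rw [Real.sqrt_le_left hn0.le]; nlinarith
    calc Real.sqrt n * a i ≤ Real.sqrt n * 1 := mul_le_mul_of_nonneg_left h1 (Real.sqrt_nonneg _)
      _ ≤ n := by linarith

end US
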